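import Mathlib

/-!
# Continued fractions of real numbers: complete quotients, convergents, linear forms
-/

set_option autoImplicit false

namespace Pool.Agent.R532.Cf

open Finset

/-- the complete quotients: `ξ_0 = u`, `ξ_(n+1) = 1 / (ξ_n - ⌊ξ_n⌋)` -/
noncomputable def cq (u : ℝ) : ℕ → ℝ
  | 0 => u
  | n + 1 => (Int.fract (cq u n))⁻¹

/-- the partial quotients -/
noncomputable def pq (u : ℝ) (n : ℕ) : ℤ := ⌊cq u n⌋

/-- the denominators of the convergents, `den u (n + 1) = q_n` -/
noncomputable def den (u : ℝ) : ℕ → ℤ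
  | 0 => 0
  | 1 => 1
  | n + 2 => pq u (n + 1) * den u (n + 1) + den u n

/-- the numerators of the convergents, `num u (n + 1) = p_n` -/
noncomputable def num (u : ℝ) : ℕ → ℤ
  | 0 => 1
  | 1 => pq u 0
  | n + 2 => pq u (n + 1) * num u (n + 1) + num u n

/-- the product of the first complete quotients -/
noncomputable def D (u : ℝ) (n : ℕ) : ℝ := ∏ i ∈ range n, cq u (i + 1)

lemma D_zero (u : ℝ) : D u 0 = 1 := by simp [D]

lemma D_succ (u : ℝ) (n : ℕ) : D u (n + 1) = D u n * cq u (n + 1) := by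
  unfold D
  rw [prod_range_succ]

lemma cq_irr (u : ℝ) (hu : Irrational u) (n : ℕ) : Irrational (cq u n) := by
  induction n with
  | zero => exact hu
  | succ n ih =>
    change Irrational (Int.fract (cq u n))⁻¹
    refine Irrational.inv ?_
    unfold Int.fract
    exact ih.sub_intCast _

lemma fract_pos (u : ℝ) (hu : Irrational u) (n : ℕ) : 0 < Int.fract (cq u n) := by
  refine lt_of_le_of_ne (Int.fract_nonneg _) fun h => ?_
  have h1 := (cq_irr u hu n).sub_intCast ⌊cq u n⌋
  exact h1.ne_zero h.symm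

lemma one_lt_cq (u : ℝ) (hu : Irrational u) (n : ℕ) : 1 < cq u (n + 1) := by
  change 1 < (Int.fract (cq u n))⁻¹
  exact (one_lt_inv₀ (fract_pos u hu n)).2 (Int.fract_lt_one _)

lemma cq_eq (u : ℝ) (n : ℕ) : cq u n = pq u n + (cq u (n + 1))⁻¹ := by
  change cq u n = _ + ((Int.fract (cq u n))⁻¹)⁻¹
  rw [inv_inv]
  exact (Int.floor_add_fract _).symm

lemma one_le_pq (u : ℝ) (hu : Irrational u) (n : ℕ) : 1 ≤ pq u (n + 1) := by
  unfold pq
  rw [Int.le_floor]
  exact_mod_cast (one_lt_cq u hu n).le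

lemma pq_le (u : ℝ) (n : ℕ) : (pq u n : ℝ) ≤ cq u n := Int.floor_le _

lemma lt_pq (u : ℝ) (n : ℕ) : cq u n < pq u n + 1 := Int.lt_floor_add_one _

lemma D_pos (u : ℝ) (hu : Irrational u) (n : ℕ) : 0 < D u n := by
  unfold D
  exact prod_pos fun i _ => by linarith [one_lt_cq u hu i]

lemma D_lt (u : ℝ) (hu : Irrational u) (n : ℕ) : D u n < D u (n + 1) := by
  rw [D_succ]
  nlinarith [D_pos u hu n, one_lt_cq u hu n]

lemma D_strictMono (u : ℝ) (hu : Irrational u) : StrictMono (D u) :=
  strictMono_nat_of_lt_succ (D_lt u hu)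

lemma one_le_D (u : ℝ) (hu : Irrational u) (n : ℕ) : 1 ≤ D u n := by
  rw [← D_zero u]
  exact (D_strictMono u hu).monotone (Nat.zero_le n)

/-- growth -/
lemma D_growth (u : ℝ) (hu : Irrational u) (n : ℕ) : (2 : ℝ) ^ n ≤ D u n * D u (n + 1) := by
  induction n with
  | zero =>
    rw [D_succ, D_zero]
    have := one_lt_cq u hu 0
    norm_num
    linarith
  | succ n ih =>
    have h1 : D u (n + 1) * D u (n + 1 + 1) = (D u n * D u (n + 1)) * (cq u (n + 1) * cq u (n + 2)) := by
      rw [D_succ u (n + 1), D_succ u n]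
      ring
    have h2 : 2 ≤ cq u (n + 1) * cq u (n + 2) := by
      have h3 := cq_eq u (n + 1)
      have h4 := one_lt_cq u hu (n + 1)
      have h5 : (1 : ℝ) ≤ pq u (n + 1) := by exact_mod_cast one_le_pq u hu n
      have h6 : cq u (n + 1) * cq u (n + 2) = pq u (n + 1) * cq u (n + 2) + 1 := by
        rw [h3, add_mul, inv_mul_cancel₀ (by linarith)]
      rw [h6]
      nlinarith
    rw [h1, pow_succ]
    have h3 : 0 < D u n * D u (n + 1) := mul_pos (D_pos u hu n) (D_pos u hu (n + 1))
    nlinarith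

/-- the linear forms -/
lemma linform (u : ℝ) (hu : Irrational u) (n : ℕ) :
    (den u n : ℝ) * u - num u n = -(-1) ^ n / D u n ∧
      (den u (n + 1) : ℝ) * u - num u (n + 1) = -(-1) ^ (n + 1) / D u (n + 1) := by
  induction n with
  | zero =>
    constructor
    · simp [den, num, D_zero]
    · rw [D_succ, D_zero]
      have h1 := cq_eq u 0
      have h0 : cq u 0 = u := rfl
      rw [h0] at h1
      have h2 : (den u (0 + 1) : ℝ) = 1 := by simp [den]
      have h3 : (num u (0 + 1) : ℝ) = pq u 0 := by simp [num]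
      rw [h2, h3]
      have h4 : -(-1 : ℝ) ^ (0 + 1) / (1 * cq u (0 + 1)) = (cq u (0 + 1))⁻¹ := by
        simp
      rw [h4]
      linarith
  | succ n ih =>
    refine ⟨ih.2, ?_⟩
    have hd : (den u (n + 1 + 1) : ℝ) = pq u (n + 1) * den u (n + 1) + den u n := by
      change ((pq u (n + 1) * den u (n + 1) + den u n : ℤ) : ℝ) = _
      push_cast
      ring
    have hn : (num u (n + 1 + 1) : ℝ) = pq u (n + 1) * num u (n + 1) + num u n := by
      change ((pq u (n + 1) * num u (n + 1) + num u n : ℤ) : ℝ) = _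
      push_cast
      ring
    have e1 : (den u (n + 1 + 1) : ℝ) * u - num u (n + 1 + 1) =
        pq u (n + 1) * ((den u (n + 1) : ℝ) * u - num u (n + 1)) +
          ((den u n : ℝ) * u - num u n) := by
      rw [hd, hn]
      ring
    rw [e1, ih.1, ih.2, D_succ u (n + 1), D_succ u n]
    have h1 := cq_eq u (n + 1)
    have hD := (D_pos u hu n).ne'
    have hc1 : cq u (n + 1) ≠ 0 := by linarith [one_lt_cq u hu n]
    have hc2 : cq u (n + 1 + 1) ≠ 0 := by linarith [one_lt_cq u hu (n + 1)]
    have h2 : (pq u (n + 1) : ℝ) = cq u (n + 1) - (cq u (n + 1 + 1))⁻¹ := by linarith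
    rw [h2]
    field_simp
    ring

lemma linform' (u : ℝ) (hu : Irrational u) (n : ℕ) :
    (den u n : ℝ) * u - num u n = -(-1) ^ n / D u n := (linform u hu n).1

lemma abs_linform (u : ℝ) (hu : Irrational u) (n : ℕ) :
    |(den u n : ℝ) * u - num u n| = 1 / D u n := by
  rw [linform' u hu n, abs_div, abs_neg, abs_pow, abs_neg, abs_one, one_pow,
    abs_of_pos (D_pos u hu n)]

lemma den_pos (u : ℝ) (hu : Irrational u) (n : ℕ) : 0 ≤ den u n ∧ 1 ≤ den u (n + 1) := by
  induction n with
  | zero => simp [den]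
  | succ n ih =>
    refine ⟨by linarith [ih.2], ?_⟩
    change 1 ≤ pq u (n + 1) * den u (n + 1) + den u n
    nlinarith [one_le_pq u hu n, ih.1, ih.2]

lemma den_mono (u : ℝ) (hu : Irrational u) (n : ℕ) : den u (n + 1) ≤ den u (n + 1 + 1) := by
  change den u (n + 1) ≤ pq u (n + 1) * den u (n + 1) + den u n
  nlinarith [one_le_pq u hu n, (den_pos u hu n).1, (den_pos u hu n).2]

lemma den_le_of_le (u : ℝ) (hu : Irrational u) {s t : ℕ} (hs : 1 ≤ s) (hst : s ≤ t) :
    den u s ≤ den u t := by
  obtain ⟨k, rfl⟩ := Nat.exists_eq_add_of_le hst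
  obtain ⟨s', rfl⟩ := Nat.exists_eq_add_of_le hs
  induction k with
  | zero => exact le_rfl
  | succ k ih =>
    refine (ih (by omega)).trans ?_
    have h1 := den_mono u hu (s' + k)
    have e1 : 1 + s' + k = s' + k + 1 := by ring
    have e2 : 1 + s' + (k + 1) = s' + k + 1 + 1 := by ring
    rw [e1, e2]
    exact h1

lemma den_cq (u : ℝ) (hu : Irrational u) (n : ℕ) :
    (den u (n + 1) : ℝ) * cq u (n + 1) + den u n = D u (n + 1) := by
  induction n with
  | zero => simp [den, D]
  | succ n ih =>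
    have hd : (den u (n + 1 + 1) : ℝ) = pq u (n + 1) * den u (n + 1) + den u n := by
      change ((pq u (n + 1) * den u (n + 1) + den u n : ℤ) : ℝ) = _
      push_cast
      ring
    have h1 := cq_eq u (n + 1)
    have hc2 : cq u (n + 1 + 1) ≠ 0 := by linarith [one_lt_cq u hu (n + 1)]
    rw [hd, D_succ u (n + 1), ← ih]
    have h2 : cq u (n + 1) * cq u (n + 1 + 1) = pq u (n + 1) * cq u (n + 1 + 1) + 1 := by
      rw [h1, add_mul, inv_mul_cancel₀ hc2]
    linear_combination -(den u (n + 1) : ℝ) * h2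

lemma den_le_D (u : ℝ) (hu : Irrational u) (n : ℕ) : (den u (n + 1) : ℝ) ≤ D u n := by
  cases n with
  | zero => simp [den, D_zero]
  | succ n =>
    rw [← den_cq u hu n]
    have hd : (den u (n + 1 + 1) : ℝ) = pq u (n + 1) * den u (n + 1) + den u n := by
      change ((pq u (n + 1) * den u (n + 1) + den u n : ℤ) : ℝ) = _
      push_cast
      ring
    rw [hd]
    have h1 := pq_le u (n + 1)
    have h2 : (1 : ℝ) ≤ den u (n + 1) := by exact_mod_cast (den_pos u hu n).2
    nlinarith

lemma den_le_D' (u : ℝ) (hu : Irrational u) (n : ℕ) : (den u n : ℝ) ≤ D u n := by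
  cases n with
  | zero => simp [den, D_zero]
  | succ n => exact (den_le_D u hu n).trans (D_lt u hu n).le

lemma abs_den (u : ℝ) (hu : Irrational u) (n : ℕ) : |(den u n : ℝ)| = den u n :=
  abs_of_nonneg (by exact_mod_cast (den_pos u hu n).1)

/-- the height of the linear form after the `n`-th one is controlled by `D u n` -/
lemma num_le_D (u : ℝ) (hu : Irrational u) (n : ℕ) :
    |(num u (n + 1) : ℝ)| ≤ (|u| + 1) * D u n := by
  have h1 := abs_linform u hu (n + 1)
  have h2 := den_le_D u hu n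
  have h3 := one_le_D u hu n
  have h4 := one_le_D u hu (n + 1)
  have h5 : 1 / D u (n + 1) ≤ 1 := by
    rw [div_le_one (by linarith)]
    exact h4
  have h6 : |(num u (n + 1) : ℝ)| ≤ |(den u (n + 1) : ℝ) * u| +
      |(den u (n + 1) : ℝ) * u - num u (n + 1)| := by
    have := abs_sub (a := (den u (n + 1) : ℝ) * u) ((den u (n + 1) : ℝ) * u - num u (n + 1))
    have e : (den u (n + 1) : ℝ) * u - ((den u (n + 1) : ℝ) * u - num u (n + 1)) =
      num u (n + 1) := by ring
    rwa [e] at this
  rw [h1, abs_mul, abs_den u hu] at h6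
  have h7 : (den u (n + 1) : ℝ) * |u| ≤ D u n * |u| :=
    mul_le_mul_of_nonneg_right h2 (abs_nonneg _)
  nlinarith

lemma num_le_D' (u : ℝ) (hu : Irrational u) (n : ℕ) :
    |(num u n : ℝ)| ≤ (|u| + 1) * D u n := by
  cases n with
  | zero =>
    simp [num, D_zero]
  | succ n =>
    refine (num_le_D u hu n).trans ?_
    exact mul_le_mul_of_nonneg_left (D_lt u hu n).le (by positivity)

/-- the determinants -/
lemma det (u : ℝ) (n : ℕ) :
    den u (n + 1) * num u n - num u (n + 1) * den u n = (-1) ^ n := by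
  induction n with
  | zero => simp [den, num]
  | succ n ih =>
    have hd : den u (n + 1 + 1) = pq u (n + 1) * den u (n + 1) + den u n := rfl
    have hn : num u (n + 1 + 1) = pq u (n + 1) * num u (n + 1) + num u n := rfl
    rw [hd, hn, pow_succ, ← ih]
    ring

/-- an upper bound for `D` on a stretch of bounded partial quotients -/
lemma D_le_stretch (u : ℝ) (hu : Irrational u) (H : ℝ) (s k : ℕ) (hH : 0 ≤ H)
    (h : ∀ i, s < i → i ≤ s + k → (pq u i : ℝ) ≤ H) :
    D u (s + k) ≤ D u s * (H + 1) ^ k := by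
  induction k with
  | zero => simp
  | succ k ih =>
    have h1 := ih fun i h1 h2 => h i h1 (by omega)
    have h2 := h (s + k + 1) (by omega) (by omega)
    have h3 := lt_pq u (s + k + 1)
    rw [← add_assoc, D_succ, pow_succ, ← mul_assoc]
    have h4 := one_lt_cq u hu (s + k)
    exact mul_le_mul h1 (by linarith) (by linarith) (by
      have := D_pos u hu s
      positivity)

end Pool.Agent.R532.Cf
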