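import Pool.Agent.R532.Cf1

/-!
# Integer polynomials with small values from continued fractions
-/

set_option autoImplicit false

namespace Pool.Agent.R532.Cf

open Finset Polynomial

/-- the linear polynomial of a convergent -/
noncomputable def lam (u : ℝ) (n : ℕ) : ℤ[X] := C (den u n) * X - C (num u n)

lemma lam_succ (u : ℝ) (n : ℕ) : lam u (n + 2) = C (pq u (n + 1)) * lam u (n + 1) + lam u n := by
  have hd : den u (n + 2) = pq u (n + 1) * den u (n + 1) + den u n := rfl
  have hn : num u (n + 2) = pq u (n + 1) * num u (n + 1) + num u n := rfl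
  unfold lam
  rw [hd, hn, C_add, C_add, C_mul, C_mul]
  ring

lemma lam_coeff (u : ℝ) (n k : ℕ) :
    (lam u n).coeff k = if k = 1 then den u n else if k = 0 then - num u n else 0 := by
  unfold lam
  rw [coeff_sub, coeff_C_mul, coeff_X, coeff_C]
  by_cases h1 : k = 1
  · subst h1; simp
  · by_cases h0 : k = 0
    · subst h0; simp
    · rw [if_neg (fun h => h1 h.symm), if_neg h0, if_neg h1, if_neg h0]
      simp

lemma lam_natDegree (u : ℝ) (n : ℕ) : (lam u n).natDegree ≤ 1 := by
  rw [natDegree_le_iff_coeff_eq_zero]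
  intro k hk
  rw [lam_coeff, if_neg (by omega), if_neg (by omega)]

lemma lam_aeval (u x : ℝ) (n : ℕ) : (aeval x (lam u n) : ℝ) = den u n * x - num u n := by
  unfold lam
  rw [map_sub, map_mul, aeval_C, aeval_X, aeval_C]
  rfl

/-- the linear polynomials -/
lemma lin_poly (u : ℝ) (hu : Irrational u) (n : ℕ) : ∃ P : ℤ[X], P ≠ 0 ∧ P.natDegree ≤ 2 ∧
    (∀ k, |((P.coeff k : ℤ) : ℝ)| ≤ (|u| + 1) * D u n) ∧ |(aeval u P : ℝ)| ≤ 1 / D u (n + 1) := by
  refine ⟨lam u (n + 1), ?_, (lam_natDegree _ _).trans (by norm_num), fun k => ?_, ?_⟩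
  · intro h
    have h1 := lam_coeff u (n + 1) 1
    rw [h, coeff_zero, if_pos rfl] at h1
    have := (den_pos u hu n).2
    omega
  · have hD := one_le_D u hu n
    have hu0 := abs_nonneg u
    rw [lam_coeff]
    split_ifs
    · rw [abs_den u hu]
      refine (den_le_D u hu n).trans ?_
      nlinarith
    · push_cast
      rw [abs_neg]
      exact num_le_D u hu n
    · simp only [Int.cast_zero, abs_zero]
      positivity
  · rw [lam_aeval, abs_linform u hu]

/-- the quadratic polynomial -/
noncomputable def quad (u : ℝ) (s t : ℕ) : ℤ[X] :=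
  lam u s * lam u (t + 1) - lam u t * lam u (s + 1)

lemma quad_succ (u : ℝ) (s t : ℕ) (h : pq u (s + 1) = pq u (t + 1)) :
    quad u (s + 1) (t + 1) = - quad u s t := by
  unfold quad
  rw [lam_succ u t, lam_succ u s, h]
  ring

lemma quad_shift (u : ℝ) (s t R : ℕ) (h : ∀ i, i < R → pq u (s + 1 + i) = pq u (t + 1 + i)) :
    |(aeval u (quad u s t) : ℝ)| = |(aeval u (quad u (s + R) (t + R)) : ℝ)| := by
  induction R with
  | zero => rfl
  | succ R ih =>
    rw [ih fun i hi => h i (by omega), ← add_assoc, ← add_assoc,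
      quad_succ u (s + R) (t + R) (by
        have := h R (by omega)
        rwa [show s + 1 + R = s + R + 1 by ring, show t + 1 + R = t + R + 1 by ring] at this),
      map_neg, abs_neg]

lemma quad_aeval (u : ℝ) (hu : Irrational u) (s t : ℕ) :
    |(aeval u (quad u s t) : ℝ)| =
      |cq u (t + 1) - cq u (s + 1)| / (D u (s + 1) * D u (t + 1)) := by
  unfold quad
  rw [map_sub, map_mul, map_mul, lam_aeval, lam_aeval, lam_aeval, lam_aeval, linform' u hu,
    linform' u hu, linform' u hu, linform' u hu]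
  have hs := D_pos u hu s
  have ht := D_pos u hu t
  have hcs : 0 < cq u (s + 1) := by linarith [one_lt_cq u hu s]
  have hct : 0 < cq u (t + 1) := by linarith [one_lt_cq u hu t]
  have e : -(-1 : ℝ) ^ s / D u s * (-(-1) ^ (t + 1) / D u (t + 1)) -
      -(-1) ^ t / D u t * (-(-1) ^ (s + 1) / D u (s + 1)) =
      (-1) ^ (s + t) * ((cq u (t + 1) - cq u (s + 1)) / (D u (s + 1) * D u (t + 1))) := by
    rw [D_succ, D_succ, pow_succ, pow_succ, pow_add]
    field_simp
    ring
  rw [e, abs_mul, abs_pow, abs_neg, abs_one, one_pow, one_mul, abs_div,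
    abs_of_pos (mul_pos (D_pos u hu (s + 1)) (D_pos u hu (t + 1)))]

lemma quad_small (u : ℝ) (hu : Irrational u) (s t R : ℕ) (hR : 1 ≤ R)
    (h : ∀ i, i < R → pq u (s + 1 + i) = pq u (t + 1 + i)) :
    |(aeval u (quad u s t) : ℝ)| ≤ 1 / D u (t + R) := by
  obtain ⟨R, rfl⟩ := Nat.exists_eq_add_of_le' hR
  rw [quad_shift u s t R fun i hi => h i (by omega), quad_aeval u hu]
  have h1 := h R (by omega)
  rw [show s + 1 + R = s + R + 1 by ring, show t + 1 + R = t + R + 1 by ring] at h1
  have h2 : |cq u (t + R + 1) - cq u (s + R + 1)| ≤ 1 := by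
    have a1 := pq_le u (t + R + 1)
    have a2 := lt_pq u (t + R + 1)
    have a3 := pq_le u (s + R + 1)
    have a4 := lt_pq u (s + R + 1)
    rw [h1] at a3 a4
    rw [abs_le]
    constructor <;> linarith
  have hs := one_le_D u hu (s + R + 1)
  have ht := D_pos u hu (t + R + 1)
  rw [← add_assoc]
  calc |cq u (t + R + 1) - cq u (s + R + 1)| / (D u (s + R + 1) * D u (t + R + 1)) ≤
      1 / (D u (s + R + 1) * D u (t + R + 1)) :=
        div_le_div_of_nonneg_right h2 (by positivity)
    _ ≤ 1 / D u (t + R + 1) := by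
        apply one_div_le_one_div_of_le ht
        nlinarith

lemma quad_ne_zero (u : ℝ) (hu : Irrational u) (s t : ℕ) (hst : s < t) : quad u s t ≠ 0 := by
  intro h
  have hds : (1 : ℝ) ≤ den u (s + 1) := by exact_mod_cast (den_pos u hu s).2
  have hdt : (den u (s + 1) : ℝ) ≤ den u (t + 1) := by
    exact_mod_cast den_le_of_le u hu (by omega : 1 ≤ s + 1) (by omega : s + 1 ≤ t + 1)
  obtain ⟨r, hr⟩ : ∃ r : ℝ, r = num u (s + 1) / den u (s + 1) := ⟨_, rfl⟩
  have hr1 : (den u (s + 1) : ℝ) * r - num u (s + 1) = 0 := by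
    rw [hr]
    field_simp
    ring
  have h1 : (aeval r (quad u s t) : ℝ) = 0 := by rw [h, map_zero]
  unfold quad at h1
  rw [map_sub, map_mul, map_mul, lam_aeval, lam_aeval, lam_aeval, lam_aeval, hr1, mul_zero,
    sub_zero] at h1
  rcases mul_eq_zero.1 h1 with h2 | h2
  · have hdet := det u s
    have hdetR : (den u (s + 1) : ℝ) * num u s - num u (s + 1) * den u s = (-1) ^ s := by
      exact_mod_cast hdet
    have h3 : (den u (s + 1) : ℝ) * num u s - num u (s + 1) * den u s = 0 := by
      linear_combination (-(den u (s + 1) : ℝ)) * h2 + (den u s : ℝ) * hr1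
    rw [h3] at hdetR
    exact absurd hdetR.symm (pow_ne_zero _ (by norm_num))
  · -- the two convergents coincide
    have ls := linform' u hu (s + 1)
    have lt := linform' u hu (t + 1)
    have h3 : ((den u (s + 1) : ℝ) * u - num u (s + 1)) * den u (t + 1) =
        ((den u (t + 1) : ℝ) * u - num u (t + 1)) * den u (s + 1) := by
      linear_combination (-(den u (s + 1) : ℝ)) * h2 + (den u (t + 1) : ℝ) * hr1
    have h4 : |(den u (s + 1) : ℝ) * u - num u (s + 1)| * den u (t + 1) =
        |(den u (t + 1) : ℝ) * u - num u (t + 1)| * den u (s + 1) := by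
      have := congrArg abs h3
      rwa [abs_mul, abs_mul, abs_den u hu, abs_den u hu] at this
    rw [abs_linform u hu, abs_linform u hu] at h4
    have hDs := D_pos u hu (s + 1)
    have hDt := D_pos u hu (t + 1)
    have hlt := D_strictMono u hu (by omega : s + 1 < t + 1)
    have h5 : (den u (t + 1) : ℝ) * D u (t + 1) = den u (s + 1) * D u (s + 1) := by
      field_simp at h4
      linarith
    nlinarith

/-- the quadratic polynomials of a repetition -/
lemma quad_poly (u : ℝ) (hu : Irrational u) (s t : ℕ) (hst : s < t) :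
    ∃ P : ℤ[X], P ≠ 0 ∧ P.natDegree ≤ 2 ∧
    (∀ k, |((P.coeff k : ℤ) : ℝ)| ≤ 4 * ((|u| + 1) * D u t) ^ 2) ∧
    ∀ R, 1 ≤ R → (∀ i, i < R → pq u (s + 1 + i) = pq u (t + 1 + i)) →
      |(aeval u P : ℝ)| ≤ 1 / D u (t + R) := by
  obtain ⟨M, hM⟩ : ∃ M : ℝ, M = (|u| + 1) * D u t := ⟨_, rfl⟩
  have hu0 := abs_nonneg u
  have hDt := one_le_D u hu t
  have hM1 : D u t ≤ M := by rw [hM]; nlinarith
  have hM0 : 0 ≤ M := by linarith
  have hDs : D u s ≤ D u t := (D_strictMono u hu hst).le
  have hDs1 : D u (s + 1) ≤ D u t := (D_strictMono u hu).monotone hst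
  have cs : ∀ k, |(((lam u s).coeff k : ℤ) : ℝ)| ≤ M := by
    intro k
    rw [lam_coeff]
    split_ifs
    · rw [abs_den u hu]; exact (den_le_D' u hu s).trans (hDs.trans hM1)
    · push_cast
      rw [abs_neg]
      refine (num_le_D' u hu s).trans ?_
      rw [hM]
      exact mul_le_mul_of_nonneg_left hDs (by positivity)
    · simpa using hM0
  have ct : ∀ k, |(((lam u t).coeff k : ℤ) : ℝ)| ≤ M := by
    intro k
    rw [lam_coeff]
    split_ifs
    · rw [abs_den u hu]; exact (den_le_D' u hu t).trans hM1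
    · push_cast
      rw [abs_neg, hM]
      exact num_le_D' u hu t
    · simpa using hM0
  have cs1 : ∀ k, |(((lam u (s + 1)).coeff k : ℤ) : ℝ)| ≤ M := by
    intro k
    rw [lam_coeff]
    split_ifs
    · rw [abs_den u hu]; exact (den_le_D u hu s).trans (hDs.trans hM1)
    · push_cast
      rw [abs_neg]
      refine (num_le_D u hu s).trans ?_
      rw [hM]
      exact mul_le_mul_of_nonneg_left hDs (by positivity)
    · simpa using hM0
  have ct1 : ∀ k, |(((lam u (t + 1)).coeff k : ℤ) : ℝ)| ≤ M := by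
    intro k
    rw [lam_coeff]
    split_ifs
    · rw [abs_den u hu]; exact (den_le_D u hu t).trans hM1
    · push_cast
      rw [abs_neg, hM]
      exact num_le_D u hu t
    · simpa using hM0
  have prod2 : ∀ (F G : ℤ[X]), F.natDegree ≤ 1 → G.natDegree ≤ 1 →
      (∀ k, |((F.coeff k : ℤ) : ℝ)| ≤ M) → (∀ k, |((G.coeff k : ℤ) : ℝ)| ≤ M) →
      ∀ k, |(((F * G).coeff k : ℤ) : ℝ)| ≤ 2 * M ^ 2 := by
    intro F G hF hG hFM hGM k
    rw [coeff_mul]
    push_cast
    have hF2 : ∀ i, 2 ≤ i → F.coeff i = 0 := fun i hi =>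
      coeff_eq_zero_of_natDegree_lt (by omega)
    have hsub : ∑ x ∈ antidiagonal k, |((F.coeff x.1 : ℤ) : ℝ) * ((G.coeff x.2 : ℤ) : ℝ)| ≤
        ∑ x ∈ (antidiagonal k).filter (fun x => x.1 < 2), M ^ 2 := by
      rw [Finset.sum_filter]
      refine Finset.sum_le_sum fun x _ => ?_
      split_ifs with hx
      · rw [abs_mul, sq]
        exact mul_le_mul (hFM _) (hGM _) (abs_nonneg _) hM0
      · rw [hF2 x.1 (by omega)]
        simp
    have hcard : ((antidiagonal k).filter (fun x => x.1 < 2)).card ≤ 2 := by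
      have : ((antidiagonal k).filter (fun x => x.1 < 2)).card ≤ (range 2).card := by
        refine Finset.card_le_card_of_injOn (fun x => x.1) ?_ ?_
        · intro x hx
          have := (Finset.mem_filter.1 hx).2
          simpa using this
        · intro x hx y hy hxy
          have h1 := (Finset.mem_filter.1 hx).1
          have h2 := (Finset.mem_filter.1 hy).1
          rw [Finset.HasAntidiagonal.mem_antidiagonal] at h1 h2
          have hxy' : x.1 = y.1 := hxy
          ext
          · exact hxy'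
          · omega
      simpa using this
    refine (Finset.abs_sum_le_sum_abs _ _).trans (hsub.trans ?_)
    rw [Finset.sum_const, nsmul_eq_mul]
    have : (((antidiagonal k).filter (fun x => x.1 < 2)).card : ℝ) ≤ 2 := by exact_mod_cast hcard
    nlinarith [sq_nonneg M]
  refine ⟨quad u s t, quad_ne_zero u hu s t hst, ?_, ?_, ?_⟩
  · unfold quad
    refine (natDegree_sub_le _ _).trans (max_le ?_ ?_)
    · exact natDegree_mul_le.trans (add_le_add (lam_natDegree _ _) (lam_natDegree _ _))
    · exact natDegree_mul_le.trans (add_le_add (lam_natDegree _ _) (lam_natDegree _ _))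
  · intro k
    unfold quad
    rw [coeff_sub]
    push_cast
    have h1 := prod2 _ _ (lam_natDegree u s) (lam_natDegree u (t + 1)) cs ct1 k
    have h2 := prod2 _ _ (lam_natDegree u t) (lam_natDegree u (s + 1)) ct cs1 k
    have h3 := abs_sub (a := ((((lam u s) * (lam u (t + 1))).coeff k : ℤ) : ℝ))
      ((((lam u t) * (lam u (s + 1))).coeff k : ℤ) : ℝ)
    rw [← hM]
    linarith
  · intro R hR h
    exact quad_small u hu s t R hR h

end Pool.Agent.R532.Cf
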