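import Pool.Agent.R532.Cf2

/-!
# Scales at which a number has no good approximation are close to cuts of its continued fraction
-/

set_option autoImplicit false

namespace Pool.Agent.R532.Cf

open Finset Polynomial

/-- `u` is a near root of an integer polynomial of logarithmic height `≤ X` -/
def Good (r : ℕ) (A u X : ℝ) : Prop :=
  ∃ P : ℤ[X], P ≠ 0 ∧ P.natDegree ≤ r ∧ (∀ k, |((P.coeff k : ℤ) : ℝ)| ≤ Real.exp X) ∧
    |(aeval u P : ℝ)| ≤ Real.exp (-(A * X))

lemma Good.mono {r r' : ℕ} (h : r ≤ r') {A u X : ℝ} (hG : Good r A u X) : Good r' A u X := by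
  obtain ⟨P, h1, h2, h3, h4⟩ := hG
  exact ⟨P, h1, h2.trans h, h3, h4⟩

/-- the partial quotients `a_(p+1), …, a_q` are periodic after an initial segment, and the first
`a + m` of them, with `a` the length of the initial segment and `m` the period, satisfy
`∑ log (a_i + 1) ≤ K` -/
def PeriodicBlock (u : ℝ) (K : ℝ) (p q : ℕ) : Prop :=
  ∃ a m : ℕ, 1 ≤ m ∧ (∀ i, a ≤ i → p + i + m < q → pq u (p + i + m + 1) = pq u (p + i + 1)) ∧
    ∑ i ∈ range (min (a + m) (q - p)), Real.log (|(pq u (p + i + 1) : ℝ)| + 1) ≤ K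

/-- the logarithmic scale of the convergents -/
noncomputable def w (u : ℝ) (n : ℕ) : ℝ := Real.log (D u n)

lemma w_zero (u : ℝ) : w u 0 = 0 := by simp [w, D_zero]

lemma w_mono (u : ℝ) (hu : Irrational u) : Monotone (w u) := fun _ _ h =>
  Real.log_le_log (D_pos u hu _) ((D_strictMono u hu).monotone h)

lemma w_nonneg (u : ℝ) (hu : Irrational u) (n : ℕ) : 0 ≤ w u n := by
  rw [← w_zero u]
  exact w_mono u hu (Nat.zero_le n)

lemma exp_w (u : ℝ) (hu : Irrational u) (n : ℕ) : Real.exp (w u n) = D u n :=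
  Real.exp_log (D_pos u hu n)

lemma w_growth (u : ℝ) (hu : Irrational u) (n : ℕ) : ((n : ℝ) - 1) / 3 ≤ w u n := by
  cases n with
  | zero => rw [w_zero]; norm_num
  | succ n =>
    have h1 := D_growth u hu n
    have h2 := Real.log_le_log (by positivity) h1
    rw [Real.log_pow, Real.log_mul (D_pos u hu _).ne' (D_pos u hu _).ne'] at h2
    have h3 := w_mono u hu (Nat.le_succ n)
    have h4 : w u n + w u (n + 1) = Real.log (D u n) + Real.log (D u (n + 1)) := rfl
    have h5 : w u n ≤ w u (n + 1) := h3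
    have h6 := Real.log_two_gt_d9
    have hn : (0 : ℝ) ≤ n := Nat.cast_nonneg n
    push_cast
    nlinarith

lemma w_stretch (u : ℝ) (hu : Irrational u) (p k : ℕ) :
    w u (p + k) ≤ w u p + ∑ i ∈ range k, Real.log (|(pq u (p + i + 1) : ℝ)| + 1) := by
  induction k with
  | zero => simp
  | succ k ih =>
    rw [sum_range_succ, ← add_assoc]
    have h1 : w u (p + k + 1) = w u (p + k) + Real.log (cq u (p + k + 1)) := by
      unfold w
      rw [D_succ, Real.log_mul (D_pos u hu _).ne' (by linarith [one_lt_cq u hu (p + k)])]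
    have h2 : Real.log (cq u (p + k + 1)) ≤ Real.log (|(pq u (p + k + 1) : ℝ)| + 1) := by
      apply Real.log_le_log (by linarith [one_lt_cq u hu (p + k)])
      have := lt_pq u (p + k + 1)
      have := le_abs_self (pq u (p + k + 1) : ℝ)
      linarith
    rw [h1]
    linarith

/-- the cut places of the first `N` partial quotients: the `a_(e+1)`, `e ∈ E`, are omitted, and the
blocks between them are periodic with small cost -/
def CutCf (u : ℝ) (K : ℝ) (N : ℕ) (E : Finset ℕ) : Prop :=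
  ∀ p q, p ≤ q → q ≤ N → (p = 0 ∨ ∃ e ∈ E, p = e + 1) → (q = N ∨ q ∈ E) →
    (∀ e ∈ E, e < p ∨ q ≤ e) → PeriodicBlock u K p q

/-- the maximal block around a place -/
lemma block_around (E : Finset ℕ) (N m : ℕ) (hm : m ≤ N) :
    ∃ p q, p ≤ m ∧ m ≤ q ∧ q ≤ N ∧ (p = 0 ∨ ∃ e ∈ E, p = e + 1) ∧ (q = N ∨ q ∈ E) ∧
      (∀ e ∈ E, e < p ∨ q ≤ e) := by
  obtain ⟨p, hp1, hp2, hp3⟩ : ∃ p, p ≤ m ∧ (p = 0 ∨ ∃ e ∈ E, p = e + 1) ∧
      (∀ e ∈ E, e < p ∨ m ≤ e) := by
    rcases Finset.eq_empty_or_nonempty (E.filter (· < m)) with h | h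
    · refine ⟨0, Nat.zero_le _, Or.inl rfl, fun e he => ?_⟩
      right
      by_contra hcon
      have : e ∈ E.filter (· < m) := Finset.mem_filter.2 ⟨he, by omega⟩
      rw [h] at this
      simp at this
    · have hmem := Finset.max'_mem _ h
      have h1 := Finset.mem_filter.1 hmem
      refine ⟨(E.filter (· < m)).max' h + 1, h1.2, Or.inr ⟨_, h1.1, rfl⟩, fun e he => ?_⟩
      by_cases hem : e < m
      · left
        have := Finset.le_max' (E.filter (· < m)) e (Finset.mem_filter.2 ⟨he, hem⟩)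
        omega
      · right
        omega
  obtain ⟨q, hq1, hq2, hq3, hq4⟩ : ∃ q, m ≤ q ∧ q ≤ N ∧ (q = N ∨ q ∈ E) ∧
      (∀ e ∈ E, e < m ∨ q ≤ e) := by
    rcases Finset.eq_empty_or_nonempty (E.filter (fun e => m ≤ e ∧ e ≤ N)) with h | h
    · refine ⟨N, hm, le_rfl, Or.inl rfl, fun e he => ?_⟩
      by_contra hcon
      push Not at hcon
      have : e ∈ E.filter (fun e => m ≤ e ∧ e ≤ N) :=
        Finset.mem_filter.2 ⟨he, hcon.1, by omega⟩
      rw [h] at this
      simp at this
    · have hmem := Finset.min'_mem _ h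
      have h1 := Finset.mem_filter.1 hmem
      refine ⟨(E.filter (fun e => m ≤ e ∧ e ≤ N)).min' h, h1.2.1, h1.2.2, Or.inr h1.1,
        fun e he => ?_⟩
      by_cases hem : e < m
      · exact Or.inl hem
      · right
        by_cases heN : e ≤ N
        · exact Finset.min'_le _ _ (Finset.mem_filter.2 ⟨he, by omega, heN⟩)
        · have := h1.2.2
          omega
  refine ⟨p, q, hp1, hq1, hq2, hp2, hq3, fun e he => ?_⟩
  rcases hp3 e he with h | h
  · exact Or.inl h
  · rcases hq4 e he with h' | h'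
    · omega
    · exact Or.inr h'

/-- **Bad scales are close to cuts.** -/
theorem near_cf_irr (u : ℝ) (hu : Irrational u) (A : ℝ) (hA : 1 ≤ A) : ∃ B : ℝ, 1 ≤ B ∧
    ∀ (K : ℝ) (N : ℕ) (E : Finset ℕ), 0 ≤ K → CutCf u K N E → ∀ X : ℝ, B * (K + 1) ≤ X →
      B * X ≤ N + Real.log (den u (N + 1)) → Good 2 A u X ∨
        ∃ e ∈ E, (X / B ≤ w u e ∧ w u e ≤ B * X) ∨
        (X / B ≤ w u (e + 1) ∧ w u (e + 1) ≤ B * X) := by
  obtain ⟨c₁, hc₁⟩ : ∃ c : ℝ, c = Real.log (|u| + 1) := ⟨_, rfl⟩
  obtain ⟨c₂, hc₂⟩ : ∃ c : ℝ, c = Real.log 4 + 2 * c₁ := ⟨_, rfl⟩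
  have hu0 := abs_nonneg u
  have hc₁0 : 0 ≤ c₁ := by rw [hc₁]; exact Real.log_nonneg (by linarith)
  have hl4 : 0 ≤ Real.log 4 := Real.log_nonneg (by norm_num)
  have hc₂0 : 0 ≤ c₂ := by rw [hc₂]; linarith
  have e1 : |u| + 1 = Real.exp c₁ := by rw [hc₁, Real.exp_log (by linarith)]
  have e2 : 4 * (|u| + 1) ^ 2 = Real.exp c₂ := by
    rw [hc₂, Real.exp_add, Real.exp_log (by norm_num), e1, ← Real.exp_nat_mul]
    norm_num
  obtain ⟨B, hB⟩ : ∃ B : ℝ, B = 16 * A + 4 * c₁ + 4 * c₂ := ⟨_, rfl⟩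
  have hB16 : 16 ≤ B := by rw [hB]; linarith
  refine ⟨B, by linarith, ?_⟩
  intro K N E hK hcut X hX hN
  have hXB : B ≤ X := by nlinarith
  have hX0 : 0 < X := by linarith
  have hKX : K ≤ X / B := by
    rw [le_div_iff₀ (by linarith)]
    nlinarith
  have hc₁X : c₁ ≤ X / 4 := by linarith
  have hc₂X : c₂ ≤ X / 4 := by linarith
  have hXB0 : 0 < X / B := by positivity
  have hXB16 : X / B ≤ X / 16 := by
    apply div_le_div_of_nonneg_left hX0.le (by norm_num) hB16
  have hwN : B / 8 * X ≤ w u N := by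
    have h1 := w_growth u hu N
    have h2 : 12 ≤ B * X := by nlinarith
    have h3 : Real.log (den u (N + 1)) ≤ w u N :=
      Real.log_le_log (by exact_mod_cast (den_pos u hu N).2) (den_le_D u hu N)
    linarith
  by_contra hcon
  push Not at hcon
  obtain ⟨hbad, hno⟩ := hcon
  -- the least place beyond the scale
  have hex : ∃ m, X < c₁ + w u m := ⟨N, by nlinarith⟩
  classical
  obtain ⟨m, hm⟩ : ∃ m, m = Nat.find hex := ⟨_, rfl⟩
  have hm1 : X < c₁ + w u m := by rw [hm]; exact Nat.find_spec hex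
  have hmmin : ∀ k, k < m → c₁ + w u k ≤ X := by
    intro k hk
    rw [hm] at hk
    exact not_lt.1 (Nat.find_min hex hk)
  have hm0 : m ≠ 0 := by
    intro h0
    rw [h0, w_zero] at hm1
    linarith
  obtain ⟨m', hm'⟩ : ∃ m', m = m' + 1 := ⟨m - 1, by omega⟩
  have hwm : w u m < A * X := by
    by_contra hcon
    push Not at hcon
    apply hbad
    obtain ⟨P, hP0, hPd, hPc, hPv⟩ := lin_poly u hu m'
    refine ⟨P, hP0, hPd, fun k => (hPc k).trans ?_, hPv.trans ?_⟩
    · rw [e1, ← exp_w u hu, ← Real.exp_add]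
      exact Real.exp_le_exp.2 (hmmin m' (by omega))
    · rw [← exp_w u hu, one_div, ← Real.exp_neg, ← hm']
      exact Real.exp_le_exp.2 (by linarith)
  have hmN : m ≤ N := by
    by_contra hcon
    have h1 := w_mono u hu (by omega : N ≤ m)
    have h2 : A * X ≤ B / 8 * X := by
      apply mul_le_mul_of_nonneg_right _ hX0.le
      linarith
    linarith
  obtain ⟨p, q, hpm, hmq, hqN, hp, hq, hE⟩ := block_around E N m hmN
  have hwp : w u p < X / B := by
    rcases hp with h0 | ⟨e, he, hpe⟩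
    · rw [h0, w_zero]; exact hXB0
    · by_contra hcon
      push Not at hcon
      have h1 := (hno e he).2
      rw [← hpe] at h1
      have h2 := h1 hcon
      have h3 := w_mono u hu hpm
      have h4 : A * X ≤ B * X := by
        apply mul_le_mul_of_nonneg_right _ hX0.le
        linarith
      linarith
  have hwq : B / 8 * X ≤ w u q := by
    rcases hq with h0 | hqE
    · rw [h0]; exact hwN
    · have h1 := (hno q hqE).1
      have h2 := w_mono u hu hmq
      have h3 : X / B ≤ w u q := by linarith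
      have h4 := h1 h3
      have h5 : B / 8 * X ≤ B * X := by
        apply mul_le_mul_of_nonneg_right _ hX0.le
        linarith
      linarith
  obtain ⟨a, l, hl, hper, hcost⟩ := hcut p q (hpm.trans hmq) hqN hp hq hE
  rcases le_or_gt q (p + (a + l)) with hqt | hqt
  · rw [min_eq_right (by omega)] at hcost
    have h1 := w_stretch u hu p (q - p)
    rw [Nat.add_sub_cancel' (hpm.trans hmq)] at h1
    have h2 : w u q ≤ 2 * (X / B) := by linarith
    have h3 : 2 * X ≤ B / 8 * X := by
      apply mul_le_mul_of_nonneg_right _ hX0.le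
      linarith
    linarith
  · rw [min_eq_left (by omega)] at hcost
    have h1 := w_stretch u hu p (a + l)
    have hwt : w u (p + (a + l)) ≤ 2 * (X / B) := by linarith
    obtain ⟨P, hP0, hPd, hPc, hPv⟩ := quad_poly u hu (p + a) (p + (a + l)) (by omega)
    apply hbad
    refine ⟨P, hP0, hPd, fun k => (hPc k).trans ?_, ?_⟩
    · rw [mul_pow, ← mul_assoc, e2, ← exp_w u hu, ← Real.exp_nat_mul, ← Real.exp_add]
      apply Real.exp_le_exp.2
      push_cast
      linarith
    · refine (hPv (q - (p + (a + l))) (by omega) ?_).trans ?_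
      · intro i hi
        have h2 := hper (a + i) (by omega) (by omega)
        rw [show p + a + 1 + i = p + (a + i) + 1 by ring,
          show p + (a + l) + 1 + i = p + (a + i) + l + 1 by ring]
        exact h2.symm
      · rw [Nat.add_sub_cancel' hqt.le, ← exp_w u hu, one_div, ← Real.exp_neg]
        apply Real.exp_le_exp.2
        have h2 : A * X ≤ B / 8 * X := by
          apply mul_le_mul_of_nonneg_right _ hX0.le
          linarith
        linarith

/-- a rational number has good approximations at all large scales -/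
lemma good_of_rat (u : ℝ) (hu : ¬ Irrational u) (A : ℝ) : ∃ X₀ : ℝ, ∀ X, X₀ ≤ X → Good 2 A u X := by
  unfold Irrational at hu
  push Not at hu
  obtain ⟨q, hq⟩ := hu
  refine ⟨Real.log (|(q.num : ℝ)| + q.den), fun Y hY => ?_⟩
  have hden : (1 : ℝ) ≤ q.den := by exact_mod_cast q.den_pos
  have hnum := abs_nonneg (q.num : ℝ)
  have hexp : |(q.num : ℝ)| + q.den ≤ Real.exp Y := by
    have := Real.exp_le_exp.2 hY
    rwa [Real.exp_log (by linarith)] at this
  refine ⟨C (q.den : ℤ) * X - C q.num, ?_, ?_, ?_, ?_⟩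
  · intro h
    have h1 : (C (q.den : ℤ) * X - C q.num : ℤ[X]).coeff 1 = 0 := by rw [h, coeff_zero]
    rw [coeff_sub, coeff_C_mul, coeff_X, if_pos rfl, coeff_C, if_neg (by norm_num)] at h1
    have := q.den_pos
    omega
  · refine (natDegree_sub_le _ _).trans (max_le ?_ ?_)
    · have h1 := natDegree_C_mul_X_pow_le (q.den : ℤ) 1
      rw [pow_one] at h1
      exact h1.trans (by norm_num)
    · rw [natDegree_C]; norm_num
  · intro k
    rw [coeff_sub, coeff_C_mul, coeff_X, coeff_C]
    by_cases h1 : k = 1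
    · subst h1
      simp
      linarith
    · by_cases h0 : k = 0
      · subst h0
        simp
        linarith
      · rw [if_neg (fun h => h1 h.symm), if_neg h0]
        simp
        positivity
  · rw [map_sub, map_mul, aeval_C, aeval_X, aeval_C]
    have h1 : (algebraMap ℤ ℝ) (q.den : ℤ) * u - (algebraMap ℤ ℝ) q.num = 0 := by
      rw [← hq]
      have h2 : (q : ℝ) = q.num / q.den := Rat.cast_def q
      rw [h2]
      simp
      field_simp
      ring
    rw [h1, abs_zero]
    positivity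

/-- **Bad scales are close to cuts**, all numbers -/
theorem near_cf (u : ℝ) (A : ℝ) (hA : 1 ≤ A) : ∃ B : ℝ, 1 ≤ B ∧
    ∀ (K : ℝ) (N : ℕ) (E : Finset ℕ), 0 ≤ K → CutCf u K N E → ∀ X : ℝ, B * (K + 1) ≤ X →
      B * X ≤ N + Real.log (den u (N + 1)) → Good 2 A u X ∨
        ∃ e ∈ E, (X / B ≤ w u e ∧ w u e ≤ B * X) ∨
        (X / B ≤ w u (e + 1) ∧ w u (e + 1) ≤ B * X) := by
  by_cases hu : Irrational u
  · exact near_cf_irr u hu A hA
  · obtain ⟨X₀, hX₀⟩ := good_of_rat u hu A
    refine ⟨|X₀| + 1, by linarith [abs_nonneg X₀], ?_⟩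
    intro K N E hK _ X hX _
    left
    apply hX₀
    have := abs_nonneg X₀
    have := le_abs_self X₀
    nlinarith

end Pool.Agent.R532.Cf
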