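import Pool.Agent.R532.Cf3
import Pool.Agent.R473.FP.JointPred
import Pool.Agent.R473.JC.Pairs

/-!
# Digits, the joint measure, and the number of the scales
-/

set_option autoImplicit false

namespace Pool.Agent.R532.Cf

open Finset Polynomial

/-- bad scales are close to cuts of the digits -/
theorem near_digits (v : ℝ) (r : ℕ) (A : ℝ) (hA : 1 ≤ A) : ∃ B : ℝ, 1 ≤ B ∧
    ∀ b : ℕ, 2 ≤ b → ∀ (k N : ℕ) (E : Finset ℕ), Pool.Agent.R473.FP.Cut b v r k N E →
      ∀ X : ℝ, B * ((k + 1) * Real.log b) ≤ X → B * X ≤ N * Real.log b →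
      Good r A v X ∨ ∃ e ∈ E, X / B ≤ (e + 1 : ℕ) * Real.log b ∧
        (e + 1 : ℕ) * Real.log b ≤ B * X := by
  obtain ⟨A₁, hA₁, hpoly⟩ := Pool.Agent.R473.JC.poly_of_rel v r
  obtain ⟨C₁, hC₁⟩ : ∃ C : ℝ, C = A + 2 := ⟨_, rfl⟩
  obtain ⟨Λ, hΛ⟩ : ∃ L : ℝ, L = Real.log (2 * C₁ + 1) + Real.log (8 * A₁) := ⟨_, rfl⟩
  have hC3 : 3 ≤ C₁ := by rw [hC₁]; linarith
  have hΛ0 : 0 ≤ Λ := by
    rw [hΛ]
    exact add_nonneg (Real.log_nonneg (by linarith)) (Real.log_nonneg (by linarith))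
  have hr0 : (0 : ℝ) ≤ r := Nat.cast_nonneg r
  obtain ⟨B, hB⟩ : ∃ B : ℝ, B = C₁ + 4 * A₁ * (r + 2) + 8 * A₁ * Λ := ⟨_, rfl⟩
  have hp1 : 0 ≤ 4 * A₁ * (r + 2) := by positivity
  have hp2 : 0 ≤ 8 * A₁ * Λ := by positivity
  have hp3 : 8 * A₁ ≤ 4 * A₁ * (r + 2) := by nlinarith
  have hB3 : 11 ≤ B := by rw [hB]; nlinarith
  refine ⟨B, by linarith, ?_⟩
  intro b hb k N E hcut X hX hN
  have hbR : (2 : ℝ) ≤ b := by exact_mod_cast hb
  obtain ⟨lb, elb⟩ : ∃ x : ℝ, x = Real.log b := ⟨_, rfl⟩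
  have hlb : 1 / 2 < lb := by
    rw [elb]
    have h1 := Real.log_le_log (by norm_num) hbR
    have h2 := Real.log_two_gt_d9
    linarith
  rw [← elb] at hX hN ⊢
  have hk0 : (0 : ℝ) ≤ k := Nat.cast_nonneg k
  have hlbX : B * lb ≤ X := by
    have : B * lb ≤ B * ((k + 1) * lb) := by
      apply mul_le_mul_of_nonneg_left _ (by linarith)
      nlinarith
    linarith
  have hXB : B / 2 ≤ X := by nlinarith
  have hX1 : 1 ≤ X := by linarith
  have hX0 : 0 < X := by linarith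
  by_contra hcon
  push Not at hcon
  obtain ⟨hbad, hno⟩ := hcon
  obtain ⟨L, hL⟩ : ∃ L : ℕ, L = ⌊C₁ * X / lb⌋₊ := ⟨_, rfl⟩
  have hL1 : (L : ℝ) * lb ≤ C₁ * X := by
    rw [← le_div_iff₀ (by linarith), hL]
    exact Nat.floor_le (by positivity)
  have hL2 : C₁ * X < L * lb + lb := by
    have := Nat.lt_floor_add_one (C₁ * X / lb)
    rw [← hL, div_lt_iff₀ (by linarith)] at this
    linarith
  have hCB : C₁ * X ≤ B * X := by
    apply mul_le_mul_of_nonneg_right _ hX0.le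
    linarith
  have hLN : L ≤ N := by
    have h1 : (L : ℝ) * lb ≤ N * lb := by linarith
    exact_mod_cast le_of_mul_le_mul_right h1 (by linarith)
  obtain ⟨p, q, hpL, hLq, hqN, hp, hq, hE⟩ := block_around E N L hLN
  have hplb : (p : ℝ) * lb ≤ X / B := by
    rcases hp with h0 | ⟨e, he, hpe⟩
    · rw [h0, Nat.cast_zero, zero_mul]
      positivity
    · by_contra hcon
      push Not at hcon
      have h1 := hno e he
      rw [← hpe] at h1
      have h2 := h1 hcon.le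
      have h3 : (p : ℝ) * lb ≤ L * lb := by
        apply mul_le_mul_of_nonneg_right _ (by linarith)
        exact_mod_cast hpL
      linarith
  have hrel := (((hcut p q (hpL.trans hLq) hqN hp hq hE).arel (hpL.trans hLq)).trunc L hLq)
  obtain ⟨P, hP0, hPd, hPc, hPv⟩ := hpoly b hb L (k + p * (r + 1)) p hpL
    (Pool.Agent.R473.FP.mask b v p) (Pool.Agent.R473.FP.mask_digits b hb v p)
    (fun l hl _ => by unfold Pool.Agent.R473.FP.mask; rw [if_pos hl]) hrel
  rw [← elb] at hPc hPv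
  have hlogL : Real.log ((L : ℝ) + 1) ≤ Λ + X / (8 * A₁) := by
    have h1 : (L : ℝ) + 1 ≤ (2 * C₁ + 1) * X := by
      have hL0 : (0 : ℝ) ≤ L := Nat.cast_nonneg L
      nlinarith
    have h2 := Real.log_le_log (by positivity) h1
    rw [Real.log_mul (by linarith) (by linarith)] at h2
    have h3 : Real.log X = Real.log (X / (8 * A₁)) + Real.log (8 * A₁) := by
      rw [← Real.log_mul (by positivity) (by positivity)]
      congr 1
      field_simp
    have h4 := Real.log_le_sub_one_of_pos (by positivity : 0 < X / (8 * A₁))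
    rw [hΛ]
    linarith
  have hheight : A₁ * (((k + p * (r + 1) : ℕ) + 1 + p) * lb + Real.log (L + 1)) ≤ X := by
    push_cast
    have h1 : A₁ * ((k + 1) * lb) ≤ X / 4 := by
      have h2 : B * ((k + 1) * lb) ≤ X := hX
      have h3 : 4 * (A₁ * ((k + 1) * lb)) ≤ B * ((k + 1) * lb) := by
        rw [← mul_assoc]
        apply mul_le_mul_of_nonneg_right _ (by positivity)
        rw [hB]
        nlinarith
      linarith
    have h2 : A₁ * ((r + 2) * (p * lb)) ≤ X / 4 := by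
      have h3 : (4 * A₁ * (r + 2)) * (p * lb) ≤ (4 * A₁ * (r + 2)) * (X / B) :=
        mul_le_mul_of_nonneg_left hplb hp1
      have h4 : (4 * A₁ * (r + 2)) * (X / B) ≤ X := by
        rw [← mul_div_assoc, div_le_iff₀ (by linarith)]
        have : (4 * A₁ * (r + 2)) * X ≤ B * X := by
          apply mul_le_mul_of_nonneg_right _ hX0.le
          linarith
        linarith
      nlinarith
    have h3 : A₁ * Real.log (L + 1) ≤ X / 2 := by
      have h4 : A₁ * Real.log (L + 1) ≤ A₁ * (Λ + X / (8 * A₁)) :=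
        mul_le_mul_of_nonneg_left hlogL (by linarith)
      have h5 : A₁ * (Λ + X / (8 * A₁)) = A₁ * Λ + X / 8 := by
        field_simp
      have h6 : 4 * (A₁ * Λ) ≤ X := by
        have : 8 * (A₁ * Λ) ≤ B := by linarith
        linarith
      linarith
    have e : A₁ * (((k + p * (r + 1) : ℝ) + 1 + p) * lb + Real.log (L + 1)) =
        A₁ * ((k + 1) * lb) + A₁ * ((r + 2) * (p * lb)) + A₁ * Real.log (L + 1) := by ring
    rw [e]
    linarith
  apply hbad
  refine ⟨P, hP0, hPd, fun i => (hPc i).trans (Real.exp_le_exp.2 hheight),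
    hPv.trans (Real.exp_le_exp.2 ?_)⟩
  have h1 : lb ≤ X := by nlinarith
  rw [hC₁] at hL2
  linarith

/-- at large scales two numbers with a joint measure do not both have good approximations -/
lemma not_both (u v : ℝ) (huv : Pool.Agent.R356.JointR u v) (r : ℕ) : ∃ A X₀ : ℝ, 1 ≤ A ∧
    1 ≤ X₀ ∧ ∀ X, X₀ ≤ X → Good r A u X → Good r A v X → False := by
  obtain ⟨κ, C, hκ, hC, hj⟩ := huv r
  refine ⟨κ + 1, |Real.log C| + 1, by linarith, by linarith [abs_nonneg (Real.log C)], ?_⟩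
  rintro Y hY ⟨P, hP0, hPd, hPc, hPv⟩ ⟨Q, hQ0, hQd, hQc, hQv⟩
  have h1 := hj P Q hP0 hQ0 hPd hQd (Real.exp Y) hPc hQc
  have h2 := h1.trans (max_le hPv hQv)
  have h3 : Real.exp Y ^ (-κ) = Real.exp (Y * (-κ)) := by rw [← Real.exp_mul]
  rw [h3] at h2
  have h4 : C ≤ Real.exp (-Y) := by
    have h5 : C * Real.exp (Y * (-κ)) ≤ Real.exp (-Y) * Real.exp (Y * (-κ)) := by
      rw [← Real.exp_add]
      refine h2.trans (le_of_eq ?_)
      congr 1
      ring
    exact le_of_mul_le_mul_right h5 (Real.exp_pos _)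
  have h5 := Real.log_le_log hC h4
  rw [Real.log_exp] at h5
  have h6 := neg_abs_le (Real.log C)
  linarith

/-- the number of the scales that are close to given numbers -/
lemma counting (E E' : Finset ℕ) (w w' : ℕ → ℝ) (B Z M : ℝ) (hB : 1 ≤ B) (hZ : 0 < Z)
    (h : ∀ X, Z ≤ X → B * X ≤ M →
      (∃ e ∈ E, (X / B ≤ w e ∧ w e ≤ B * X) ∨ (X / B ≤ w (e + 1) ∧ w (e + 1) ≤ B * X)) ∨
      (∃ e ∈ E', (X / B ≤ w' e ∧ w' e ≤ B * X) ∨ (X / B ≤ w' (e + 1) ∧ w' (e + 1) ≤ B * X))) :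
    M ≤ B * Z * (2 * B ^ 2) ^ (2 * (E.card + E'.card)) := by
  classical
  by_contra hcon
  push Not at hcon
  obtain ⟨ρ, hρ⟩ : ∃ ρ : ℝ, ρ = 2 * B ^ 2 := ⟨_, rfl⟩
  obtain ⟨T, hT⟩ : ∃ T, T = 2 * (E.card + E'.card) := ⟨_, rfl⟩
  rw [← hρ, ← hT] at hcon
  have hρ1 : 1 ≤ ρ := by rw [hρ]; nlinarith
  obtain ⟨V, hV⟩ : ∃ V : Finset ℝ, V = (E.image w ∪ E.image (fun e => w (e + 1))) ∪
      (E'.image w' ∪ E'.image (fun e => w' (e + 1))) := ⟨_, rfl⟩
  have hVc : V.card ≤ T := by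
    rw [hV, hT]
    refine (card_union_le _ _).trans ?_
    have h1 := card_union_le (E.image w) (E.image (fun e => w (e + 1)))
    have h2 := card_union_le (E'.image w') (E'.image (fun e => w' (e + 1)))
    have h3 := card_image_le (s := E) (f := w)
    have h4 := card_image_le (s := E) (f := fun e => w (e + 1))
    have h5 := card_image_le (s := E') (f := w')
    have h6 := card_image_le (s := E') (f := fun e => w' (e + 1))
    omega
  have hx : ∀ j : Fin (T + 1), ∃ y ∈ V, Z * ρ ^ (j : ℕ) / B ≤ y ∧ y ≤ B * (Z * ρ ^ (j : ℕ)) := by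
    intro j
    have hj : ρ ^ (j : ℕ) ≤ ρ ^ T := pow_le_pow_right₀ hρ1 (by omega)
    have hj1 : 1 ≤ ρ ^ (j : ℕ) := one_le_pow₀ hρ1
    have h1 := h (Z * ρ ^ (j : ℕ)) (by nlinarith) (by
      have : B * Z * ρ ^ (j : ℕ) ≤ B * Z * ρ ^ T := mul_le_mul_of_nonneg_left hj (by positivity)
      linarith)
    rw [hV]
    rcases h1 with ⟨e, he, h2 | h2⟩ | ⟨e, he, h2 | h2⟩
    · exact ⟨w e, by
        rw [mem_union, mem_union]
        exact Or.inl (Or.inl (mem_image_of_mem w he)), h2⟩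
    · exact ⟨w (e + 1), by
        rw [mem_union, mem_union]
        exact Or.inl (Or.inr (mem_image_of_mem (fun e => w (e + 1)) he)), h2⟩
    · exact ⟨w' e, by
        rw [mem_union, mem_union (s := E'.image w')]
        exact Or.inr (Or.inl (mem_image_of_mem w' he)), h2⟩
    · exact ⟨w' (e + 1), by
        rw [mem_union, mem_union (s := E'.image w')]
        exact Or.inr (Or.inr (mem_image_of_mem (fun e => w' (e + 1)) he)), h2⟩
  choose y hyV hy using hx
  have key : ∀ i j : Fin (T + 1), (i : ℕ) < j → y i = y j → False := by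
    intro i j hlt hyij
    have h1 := (hy i).2
    have h2 := (hy j).1
    rw [hyij] at h1
    have h3 : Z * ρ ^ (j : ℕ) / B ≤ B * (Z * ρ ^ (i : ℕ)) := h2.trans h1
    rw [div_le_iff₀ (by linarith)] at h3
    have h4 : ρ ^ ((i : ℕ) + 1) ≤ ρ ^ (j : ℕ) := pow_le_pow_right₀ hρ1 (by omega)
    rw [pow_succ] at h4
    have h5 : 0 < ρ ^ (i : ℕ) := by positivity
    have h6 : Z * (ρ ^ (i : ℕ) * ρ) ≤ B * (Z * ρ ^ (i : ℕ)) * B :=
      (mul_le_mul_of_nonneg_left h4 hZ.le).trans h3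
    have h7 : B * (Z * ρ ^ (i : ℕ)) * B = (Z * ρ ^ (i : ℕ)) * B ^ 2 := by ring
    have h8 : Z * (ρ ^ (i : ℕ) * ρ) = (Z * ρ ^ (i : ℕ)) * (2 * B ^ 2) := by
      nth_rewrite 2 [hρ]
      ring
    rw [h7, h8] at h6
    have h9 : 0 < Z * ρ ^ (i : ℕ) := by positivity
    have h10 := le_of_mul_le_mul_left h6 h9
    nlinarith
  obtain ⟨i, -, j, -, hij, hyij⟩ := Finset.exists_ne_map_eq_of_card_lt_of_maps_to
    (s := (Finset.univ : Finset (Fin (T + 1)))) (t := V) (by
      rw [Finset.card_univ, Fintype.card_fin]; omega) (f := y) (fun i _ => hyV i)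
  have hne : (i : ℕ) ≠ j := fun h => hij (Fin.ext h)
  rcases lt_or_gt_of_ne hne with hlt | hlt
  · exact key i j hlt hyij
  · exact key j i hlt hyij.symm

end Pool.Agent.R532.Cf
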