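import Pool.Agent.R532.Cf4

/-!
# Two numbers, two expansions
-/

set_option autoImplicit false

namespace Pool.Agent.R532.Cf

open Finset Polynomial
open Pool.Agent.R473.FP (run errors Cut periodic_stretch cut_of_predictor)
open Pool.Agent.W472.AC (digit)

/-- the digits in base `b`, or the partial quotients -/
inductive Expansion
  | base (b : ℕ)
  | cf

/-- the base is at least `2` -/
def Expansion.Valid : Expansion → Prop
  | .base b => 2 ≤ b
  | .cf => True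

/-- the size of the first `N` terms -/
noncomputable def Expansion.size (x : ℝ) (N : ℕ) : Expansion → ℝ
  | .base b => N * Real.log b
  | .cf => N + Real.log (den x (N + 1))

/-- the cost of one state -/
noncomputable def Expansion.unit (H : ℕ) : Expansion → ℝ
  | .base b => Real.log b
  | .cf => Real.log (H + 2)

/-- the terms -/
noncomputable def Expansion.term (x : ℝ) : Expansion → ℕ → ℤ
  | .base b => digit b x
  | .cf => pq x

/-- the first `N` terms are cut into simple blocks -/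
def Cuts (r : ℕ) (x K : ℝ) (N : ℕ) (E : Finset ℕ) : Expansion → Prop
  | .base b => ∃ k : ℕ, (k + 1) * Real.log b ≤ K ∧ Cut b x r k N E
  | .cf => CutCf x K N E

theorem near_all (x : ℝ) (r R : ℕ) (hr : r ≤ R) (hR : 2 ≤ R) (A : ℝ) (hA : 1 ≤ A) :
    ∃ B : ℝ, 1 ≤ B ∧ ∀ ex : Expansion, ex.Valid → ∃ w : ℕ → ℝ, ∀ (K : ℝ) (N : ℕ) (E : Finset ℕ),
      0 ≤ K → Cuts r x K N E ex → ∀ X : ℝ, B * (K + 1) ≤ X → B * X ≤ ex.size x N →
      Good R A x X ∨ ∃ e ∈ E, (X / B ≤ w e ∧ w e ≤ B * X) ∨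
        (X / B ≤ w (e + 1) ∧ w (e + 1) ≤ B * X) := by
  obtain ⟨B₁, hB₁, h1⟩ := near_cf x A hA
  obtain ⟨B₂, hB₂, h2⟩ := near_digits x r A hA
  have hmono : ∀ B' Y y : ℝ, 1 ≤ B' → B' ≤ max B₁ B₂ → 0 ≤ Y → Y / B' ≤ y → y ≤ B' * Y →
      Y / max B₁ B₂ ≤ y ∧ y ≤ max B₁ B₂ * Y := by
    intro B' Y y hB' hle hY h3 h4
    refine ⟨le_trans ?_ h3, h4.trans (mul_le_mul_of_nonneg_right hle hY)⟩
    exact div_le_div_of_nonneg_left hY (by linarith) hle
  have hmax : 1 ≤ max B₁ B₂ := hB₁.trans (le_max_left _ _)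
  refine ⟨max B₁ B₂, hmax, ?_⟩
  rintro (b | _) hv
  · refine ⟨fun n => n * Real.log b, ?_⟩
    intro K N E hK hcut Y hY hN
    obtain ⟨k, hk, hcut⟩ := hcut
    have hY0 : 0 ≤ Y := by
      have : 0 ≤ max B₁ B₂ * (K + 1) := by positivity
      linarith
    have hb0 : 0 ≤ Real.log b := Real.log_nonneg (by
      have : 2 ≤ b := hv
      exact_mod_cast (by omega : 1 ≤ b))
    rcases h2 b hv k N E hcut Y (by
      have a1 : B₂ * ((k + 1) * Real.log b) ≤ max B₁ B₂ * (K + 1) :=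
        mul_le_mul (le_max_right _ _) (by linarith) (by positivity) (by linarith)
      linarith) (by
      have a1 : B₂ * Y ≤ max B₁ B₂ * Y := mul_le_mul_of_nonneg_right (le_max_right _ _) hY0
      exact a1.trans hN) with h | ⟨e, he, h3, h4⟩
    · exact Or.inl (h.mono hr)
    · right
      exact ⟨e, he, Or.inr (hmono B₂ Y _ hB₂ (le_max_right _ _) hY0 h3 h4)⟩
  · refine ⟨w x, ?_⟩
    intro K N E hK hcut Y hY hN
    have hY0 : 0 ≤ Y := by
      have : 0 ≤ max B₁ B₂ * (K + 1) := by positivity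
      linarith
    have hN' : max B₁ B₂ * Y ≤ N + Real.log (den x (N + 1)) := hN
    rcases h1 K N E hK hcut Y (by
      have a1 : B₁ * (K + 1) ≤ max B₁ B₂ * (K + 1) :=
        mul_le_mul_of_nonneg_right (le_max_left _ _) (by linarith)
      linarith) (by
      have a1 : B₁ * Y ≤ max B₁ B₂ * Y := mul_le_mul_of_nonneg_right (le_max_left _ _) hY0
      linarith) with h | ⟨e, he, h3 | h3⟩
    · exact Or.inl (h.mono hR)
    · right
      exact ⟨e, he, Or.inl (hmono B₁ Y _ hB₁ (le_max_left _ _) hY0 h3.1 h3.2)⟩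
    · right
      exact ⟨e, he, Or.inr (hmono B₁ Y _ hB₁ (le_max_left _ _) hY0 h3.1 h3.2)⟩

/-- **Two numbers cut into simple blocks.** -/
theorem cuts_pair (u v : ℝ) (huv : Pool.Agent.R356.JointR u v) (r : ℕ) : ∃ A : ℝ, 1 ≤ A ∧
    ∀ ex ex' : Expansion, ex.Valid → ex'.Valid → ∀ (K K' : ℝ) (N N' : ℕ) (E E' : Finset ℕ),
      0 ≤ K → 0 ≤ K' → Cuts r u K N E ex → Cuts r v K' N' E' ex' →
      min (ex.size u N) (ex'.size v N') ≤ A ^ (E.card + E'.card + 1) * (K + K' + 1) := by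
  obtain ⟨A₀, X₀, hA₀, hX₀, hnot⟩ := not_both u v huv (max r 2)
  obtain ⟨B₁, hB₁, h1⟩ := near_all u r (max r 2) (le_max_left _ _) (le_max_right _ _) A₀ hA₀
  obtain ⟨B₂, hB₂, h2⟩ := near_all v r (max r 2) (le_max_left _ _) (le_max_right _ _) A₀ hA₀
  obtain ⟨B, hB⟩ : ∃ B : ℝ, B = max B₁ B₂ := ⟨_, rfl⟩
  have hBB₁ : B₁ ≤ B := by rw [hB]; exact le_max_left _ _
  have hBB₂ : B₂ ≤ B := by rw [hB]; exact le_max_right _ _
  have hB1 : 1 ≤ B := hB₁.trans hBB₁
  obtain ⟨A, hA⟩ : ∃ A : ℝ, A = B * (B + X₀) * (4 * B ^ 4) := ⟨_, rfl⟩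
  have g1 : 1 ≤ B * (B + X₀) := by nlinarith
  have g2 : 1 ≤ B ^ 4 := one_le_pow₀ hB1
  have hA1 : B * (B + X₀) ≤ A := by rw [hA]; nlinarith
  have hA2 : (2 * B ^ 2) ^ 2 ≤ A := by
    rw [hA]
    nlinarith
  refine ⟨A, g1.trans hA1, ?_⟩
  intro ex ex' hv hv' K K' N N' E E' hK hK' hC hC'
  obtain ⟨w, hw⟩ := h1 ex hv
  obtain ⟨w', hw'⟩ := h2 ex' hv'
  have hmono : ∀ B' Y y : ℝ, 1 ≤ B' → B' ≤ B → 0 ≤ Y → (Y / B' ≤ y ∧ y ≤ B' * Y) →
      (Y / B ≤ y ∧ y ≤ B * Y) := by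
    intro B' Y y hB' hle hY h3
    refine ⟨le_trans ?_ h3.1, h3.2.trans (mul_le_mul_of_nonneg_right hle hY)⟩
    exact div_le_div_of_nonneg_left hY (by linarith) hle
  obtain ⟨Z, hZ⟩ : ∃ Z : ℝ, Z = (B + X₀) * (K + K' + 1) := ⟨_, rfl⟩
  have hZ0 : 0 < Z := by rw [hZ]; positivity
  have hZ1 : B₁ * (K + 1) ≤ Z := by
    rw [hZ]
    exact mul_le_mul (by linarith) (by linarith) (by linarith) (by linarith)
  have hZ2 : B₂ * (K' + 1) ≤ Z := by
    rw [hZ]
    exact mul_le_mul (by linarith) (by linarith) (by linarith) (by linarith)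
  have hZ3 : X₀ ≤ Z := by
    rw [hZ]
    nlinarith
  have hcount := counting E E' w w' B Z (min (ex.size u N) (ex'.size v N')) hB1 hZ0 (by
    intro Y hY hM
    have hY0 : 0 ≤ Y := by linarith
    have m1 : B₁ * Y ≤ ex.size u N :=
      (mul_le_mul_of_nonneg_right hBB₁ hY0).trans (hM.trans (min_le_left _ _))
    have m2 : B₂ * Y ≤ ex'.size v N' :=
      (mul_le_mul_of_nonneg_right hBB₂ hY0).trans (hM.trans (min_le_right _ _))
    rcases hw K N E hK hC Y (hZ1.trans hY) m1 with g | ⟨e, he, g | g⟩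
    · rcases hw' K' N' E' hK' hC' Y (hZ2.trans hY) m2 with g' | ⟨e, he, g' | g'⟩
      · exact (hnot Y (hZ3.trans hY) g g').elim
      · exact Or.inr ⟨e, he, Or.inl (hmono B₂ Y _ hB₂ hBB₂ hY0 g')⟩
      · exact Or.inr ⟨e, he, Or.inr (hmono B₂ Y _ hB₂ hBB₂ hY0 g')⟩
    · exact Or.inl ⟨e, he, Or.inl (hmono B₁ Y _ hB₁ hBB₁ hY0 g)⟩
    · exact Or.inl ⟨e, he, Or.inr (hmono B₁ Y _ hB₁ hBB₁ hY0 g)⟩)
  refine hcount.trans ?_
  rw [pow_mul, pow_succ A, hZ]
  have q1 : ((2 * B ^ 2) ^ 2) ^ (E.card + E'.card) ≤ A ^ (E.card + E'.card) :=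
    pow_le_pow_left₀ (by positivity) hA2 _
  have q2 : 0 ≤ ((2 * B ^ 2) ^ 2) ^ (E.card + E'.card) := by positivity
  have q3 : ((2 * B ^ 2) ^ 2) ^ (E.card + E'.card) * (B * (B + X₀)) ≤
      A ^ (E.card + E'.card) * A := mul_le_mul q1 hA1 (by linarith) (pow_nonneg (by linarith) _)
  calc B * ((B + X₀) * (K + K' + 1)) * ((2 * B ^ 2) ^ 2) ^ (E.card + E'.card) =
      (((2 * B ^ 2) ^ 2) ^ (E.card + E'.card) * (B * (B + X₀))) * (K + K' + 1) := by ring
    _ ≤ _ := mul_le_mul_of_nonneg_right q3 (by linarith)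

/-- predictors cut the expansions -/
theorem cuts_of_predictor (ex : Expansion) (x : ℝ) (Q : ℕ) (δ : Fin Q → ℤ → Fin Q) (q₀ : Fin Q)
    (out : Fin Q → ℤ) (H : ℕ) (hH : ∀ s, |out s| ≤ H) (N : ℕ) :
    Cuts 1 x ((Q + 1) * ex.unit H) N
      ((range N).filter fun n => out (run δ q₀ (ex.term x) n) ≠ ex.term x (n + 1)) ex := by
  rcases ex with b | _
  · exact ⟨Q, le_rfl, cut_of_predictor b x Q δ q₀ out N⟩
  · intro p q hpq hqN _ _ hE
    have hno : ∀ i, p ≤ i → i < q → out (run δ q₀ (pq x) i) = pq x (i + 1) := by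
      intro i hui hiv
      by_contra hne
      rcases hE i (Finset.mem_filter.2 ⟨Finset.mem_range.2 (by omega), hne⟩) with h | h <;> omega
    obtain ⟨a, m, hm, ham, hper⟩ := periodic_stretch δ q₀ out (pq x) p q hno
    refine ⟨a, m, hm, hper, ?_⟩
    have h1 : ∀ i ∈ range (min (a + m) (q - p)),
        Real.log (|(pq x (p + i + 1) : ℝ)| + 1) ≤ Real.log (H + 2) := by
      intro i hi
      rw [mem_range, lt_min_iff] at hi
      have h2 := hno (p + i) (by omega) (by omega)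
      rw [← h2]
      have h3 : |(out (run δ q₀ (pq x) (p + i)) : ℝ)| ≤ H := by
        exact_mod_cast hH (run δ q₀ (pq x) (p + i))
      apply Real.log_le_log
      · have := abs_nonneg (out (run δ q₀ (pq x) (p + i)) : ℝ)
        linarith
      · linarith
    refine (Finset.sum_le_sum h1).trans ?_
    rw [Finset.sum_const, card_range, nsmul_eq_mul]
    have hl : 0 ≤ Real.log ((H : ℝ) + 2) := Real.log_nonneg (by
      have : (0 : ℝ) ≤ H := Nat.cast_nonneg H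
      linarith)
    have e : (Expansion.cf).unit H = Real.log ((H : ℝ) + 2) := rfl
    rw [e]
    apply mul_le_mul_of_nonneg_right _ hl
    have h4 : min (a + m) (q - p) ≤ Q + 1 := (min_le_left _ _).trans (by omega)
    exact_mod_cast h4

lemma unit_lower (ex : Expansion) (hv : ex.Valid) (H : ℕ) : 1 / 2 ≤ ex.unit H := by
  have h2 := Real.log_two_gt_d9
  rcases ex with b | _
  · have hb : (2 : ℝ) ≤ b := by
      have : 2 ≤ b := hv
      exact_mod_cast this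
    have h1 := Real.log_le_log (by norm_num) hb
    change 1 / 2 ≤ Real.log b
    linarith
  · have hH : (2 : ℝ) ≤ (H : ℝ) + 2 := by
      have : (0 : ℝ) ≤ H := Nat.cast_nonneg H
      linarith
    have h1 := Real.log_le_log (by norm_num) hH
    change 1 / 2 ≤ Real.log ((H : ℝ) + 2)
    linarith

/-- **Two predictors.** -/
theorem predictors_pair (u v : ℝ) (huv : Pool.Agent.R356.JointR u v) : ∃ A : ℝ, 1 ≤ A ∧
    ∀ ex ex' : Expansion, ex.Valid → ex'.Valid → ∀ (Q Q' : ℕ) (δ : Fin Q → ℤ → Fin Q)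
      (δ' : Fin Q' → ℤ → Fin Q') (q₀ : Fin Q) (q₀' : Fin Q') (out : Fin Q → ℤ)
      (out' : Fin Q' → ℤ) (H H' : ℕ), (∀ s, |out s| ≤ H) → (∀ s, |out' s| ≤ H') → ∀ N N' : ℕ,
      min (ex.size u N) (ex'.size v N') ≤
        A ^ (errors δ q₀ out (ex.term u) N + errors δ' q₀' out' (ex'.term v) N' + 1) *
          ((Q + 1) * ex.unit H + (Q' + 1) * ex'.unit H') := by
  obtain ⟨A, hA, h⟩ := cuts_pair u v huv 1
  refine ⟨2 * A, by linarith, ?_⟩
  intro ex ex' hv hv' Q Q' δ δ' q₀ q₀' out out' H H' hH hH' N N'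
  have hu1 := unit_lower ex hv H
  have hu2 := unit_lower ex' hv' H'
  have hQ : (0 : ℝ) ≤ Q := Nat.cast_nonneg Q
  have hQ' : (0 : ℝ) ≤ Q' := Nat.cast_nonneg Q'
  have hK : 1 / 2 ≤ ((Q : ℝ) + 1) * ex.unit H := by nlinarith
  have hK' : 1 / 2 ≤ ((Q' : ℝ) + 1) * ex'.unit H' := by nlinarith
  have h1 := h ex ex' hv hv' _ _ N N' _ _ (by linarith) (by linarith)
    (cuts_of_predictor ex u Q δ q₀ out H hH N) (cuts_of_predictor ex' v Q' δ' q₀' out' H' hH' N')
  refine h1.trans ?_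
  unfold errors
  obtain ⟨n, hn⟩ : ∃ n, n = ((range N).filter fun n => out (run δ q₀ (ex.term u) n) ≠
      ex.term u (n + 1)).card + ((range N').filter fun n => out' (run δ' q₀' (ex'.term v) n) ≠
      ex'.term v (n + 1)).card := ⟨_, rfl⟩
  rw [← hn]
  have h2 : A ^ (n + 1) * 2 ≤ (2 * A) ^ (n + 1) := by
    rw [mul_pow, mul_comm (A ^ (n + 1))]
    apply mul_le_mul_of_nonneg_right _ (by positivity)
    rw [pow_succ]
    have : (1 : ℝ) ≤ 2 ^ n := one_le_pow₀ (by norm_num)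
    linarith
  calc A ^ (n + 1) * (((Q : ℝ) + 1) * ex.unit H + (Q' + 1) * ex'.unit H' + 1) ≤
      A ^ (n + 1) * (2 * (((Q : ℝ) + 1) * ex.unit H + (Q' + 1) * ex'.unit H')) :=
        mul_le_mul_of_nonneg_left (by linarith) (by positivity)
    _ = (A ^ (n + 1) * 2) * (((Q : ℝ) + 1) * ex.unit H + (Q' + 1) * ex'.unit H') := by ring
    _ ≤ _ := mul_le_mul_of_nonneg_right h2 (by linarith)

end Pool.Agent.R532.Cf
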