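import Mathlib
import Pool.Agent.R532.Cf5

/-!
# Joint bounds for digits and partial quotients, and pairs of monomials with rational exponents
-/

set_option autoImplicit false

namespace Pool.Agent.R532.CfR

open Finset Polynomial
open Pool.Agent.R473.FP (run errors)

/-- the `i`-th digit of `x` after the point in base `b` -/
noncomputable def digit (b : ℕ) (x : ℝ) (i : ℕ) : ℤ := ⌊x * (b : ℝ) ^ i⌋ % (b : ℤ)

/-- the complete quotients of the continued fraction of `x`; `1 / 0 = 0` -/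
noncomputable def completeQuotient (x : ℝ) : ℕ → ℝ
  | 0 => x
  | n + 1 => (Int.fract (completeQuotient x n))⁻¹

/-- the partial quotients `a_0, a_1, …` of `x`, equal to `0` after the end of the continued fraction
of a rational number -/
noncomputable def cfTerm (x : ℝ) (n : ℕ) : ℤ := ⌊completeQuotient x n⌋

/-- the denominators of the convergents -/
noncomputable def denominator (x : ℝ) : ℕ → ℤ
  | 0 => 1
  | 1 => cfTerm x 1
  | n + 2 => cfTerm x (n + 2) * denominator x (n + 1) + denominator x n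

/-- an expansion of real numbers: the digits in base `b ≥ 2`, or the partial quotients -/
inductive Expansion
  | base (b : ℕ) (hb : 2 ≤ b)
  | cf

/-- the terms of the expansion of `x`: the digits, or the partial quotients -/
noncomputable def Expansion.term (x : ℝ) : Expansion → ℕ → ℤ
  | .base b _ => digit b x
  | .cf => cfTerm x

/-- the size of the first `N` terms: `N log b`, or `N + log q_N` -/
noncomputable def Expansion.size (x : ℝ) (N : ℕ) : Expansion → ℝ
  | .base b _ => N * Real.log b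
  | .cf => N + Real.log (denominator x N)

/-- the cost of a predictor with `Q` states and predictions of absolute value at most `H` -/
noncomputable def Expansion.cost (Q H : ℕ) : Expansion → ℝ
  | .base b _ => (Q + 1) * Real.log b
  | .cf => (Q + 1) * Real.log (H + 2)

/-- the polynomial `d_(u+1) X + ⋯ + d_(u+n) X^n` of a block of digits of `x` in base `b` -/
noncomputable def blockPoly (b : ℕ) (x : ℝ) (u n : ℕ) : ℚ[X] :=
  ∑ l ∈ Icc 1 n, C (digit b x (u + l) : ℚ) * X ^ l

/-- there are polynomials `h_0, …, h_r` over `ℚ` of degree `≤ k`, not all zero, such that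
`h_0 + h_1 D + ⋯ + h_r D^r` is divisible by `X^(q-p+1)`, where `D` is the polynomial of the block of
the digits of `x` from the `(p+1)`-st to the `q`-th place -/
def BlockRelation (b : ℕ) (x : ℝ) (r p q k : ℕ) : Prop :=
  ∃ h : Fin (r + 1) → ℚ[X], h ≠ 0 ∧ (∀ j, (h j).natDegree ≤ k) ∧
    X ^ (q - p + 1) ∣ ∑ j, h j * blockPoly b x p (q - p) ^ (j : ℕ)

/-- a simple block of terms with the numbers `p + 1, …, q`.  Digits: there is a relation of degree
`≤ r` with coefficients of degree `≤ k`, where `(k + 1) log b ≤ K`.  Partial quotients: they are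
periodic with period `m` after the first `a` of them, and the sum of `log (a_i + 1)` over the first
`a + m` of them (all of them, if the block is shorter) is at most `K`. -/
def SimpleBlock (r : ℕ) (x K : ℝ) (p q : ℕ) : Expansion → Prop
  | .base b _ => ∃ k : ℕ, (k + 1) * Real.log b ≤ K ∧ BlockRelation b x r p q k
  | .cf => ∃ a m : ℕ, 1 ≤ m ∧
      (∀ i, a ≤ i → p + i + m < q → cfTerm x (p + i + m + 1) = cfTerm x (p + i + 1)) ∧
      ∑ i ∈ range (min (a + m) (q - p)), Real.log (|(cfTerm x (p + i + 1) : ℝ)| + 1) ≤ K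

/-- The terms with the numbers `e + 1`, `e ∈ E`, are omitted; they cut the terms with the numbers
`1, …, N` into blocks.  Every block is simple. -/
def Cut (r : ℕ) (x K : ℝ) (N : ℕ) (E : Finset ℕ) (ex : Expansion) : Prop :=
  ∀ p q, p ≤ q → q ≤ N → (p = 0 ∨ ∃ e ∈ E, p = e + 1) → (q = N ∨ q ∈ E) →
    (∀ e ∈ E, e < p ∨ q ≤ e) → SimpleBlock r x K p q ex

/-- the joint lower bound for the numbers of cuts and the costs of the blocks -/
def CutBound (A : ℝ) (r : ℕ) (u v : ℝ) : Prop :=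
  ∀ ex ex' : Expansion, ∀ K K' : ℝ, 0 ≤ K → 0 ≤ K' → ∀ (N N' : ℕ) (E E' : Finset ℕ),
    Cut r u K N E ex → Cut r v K' N' E' ex' →
    min (ex.size u N) (ex'.size v N') ≤ A ^ (E.card + E'.card + 1) * (K + K' + 1)

/-- the joint lower bound for the numbers of errors of two finite-state predictors, with `Q` and
`Q'` states, of the terms of an expansion of `u` and of the terms of an expansion of `v`; `run` and
`errors` are defined in `Pool/Agent/R473/FP/FS.lean`: having read the terms with the numbers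
`1, …, n`, the automaton predicts the next one, and the errors for `n < N` are counted -/
def PredictorBound (A : ℝ) (u v : ℝ) : Prop :=
  ∀ ex ex' : Expansion, ∀ (Q Q' : ℕ) (δ : Fin Q → ℤ → Fin Q) (δ' : Fin Q' → ℤ → Fin Q')
    (q₀ : Fin Q) (q₀' : Fin Q') (out : Fin Q → ℤ) (out' : Fin Q' → ℤ) (H H' : ℕ),
    (∀ s, |out s| ≤ H) → (∀ s, |out' s| ≤ H') → ∀ N N' : ℕ,
    min (ex.size u N) (ex'.size v N') ≤
      A ^ (errors δ q₀ out (ex.term u) N + errors δ' q₀' out' (ex'.term v) N' + 1) *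
        (ex.cost Q H + ex'.cost Q' H')

/-! ### translation to the helper files -/

/-- the expansion of the helper files -/
def tr : Expansion → Pool.Agent.R532.Cf.Expansion
  | .base b _ => .base b
  | .cf => .cf

lemma tr_valid (ex : Expansion) : (tr ex).Valid := by
  rcases ex with ⟨b, hb⟩ | _
  · exact hb
  · trivial

lemma completeQuotient_eq (x : ℝ) (n : ℕ) :
    completeQuotient x n = Pool.Agent.R532.Cf.cq x n := by
  induction n with
  | zero => rfl
  | succ n ih =>
    change (Int.fract (completeQuotient x n))⁻¹ = (Int.fract (Pool.Agent.R532.Cf.cq x n))⁻¹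
    rw [ih]

lemma cfTerm_eq (x : ℝ) : cfTerm x = Pool.Agent.R532.Cf.pq x := by
  funext n
  unfold cfTerm Pool.Agent.R532.Cf.pq
  rw [completeQuotient_eq]

lemma denominator_eq (x : ℝ) (n : ℕ) : denominator x n = Pool.Agent.R532.Cf.den x (n + 1) ∧
    denominator x (n + 1) = Pool.Agent.R532.Cf.den x (n + 2) := by
  induction n with
  | zero =>
    refine ⟨rfl, ?_⟩
    change cfTerm x 1 = Pool.Agent.R532.Cf.pq x 1 * 1 + 0
    rw [cfTerm_eq]
    ring
  | succ n ih =>
    refine ⟨ih.2, ?_⟩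
    change cfTerm x (n + 2) * denominator x (n + 1) + denominator x n =
      Pool.Agent.R532.Cf.pq x (n + 1 + 1) * Pool.Agent.R532.Cf.den x (n + 2) +
        Pool.Agent.R532.Cf.den x (n + 1)
    rw [ih.1, ih.2, cfTerm_eq]

lemma term_eq (x : ℝ) (ex : Expansion) : ex.term x = (tr ex).term x := by
  rcases ex with ⟨b, hb⟩ | _
  · rfl
  · exact cfTerm_eq x

lemma size_eq (x : ℝ) (N : ℕ) (ex : Expansion) : ex.size x N = (tr ex).size x N := by
  rcases ex with ⟨b, hb⟩ | _
  · rfl
  · change (N : ℝ) + Real.log (denominator x N) =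
      N + Real.log (Pool.Agent.R532.Cf.den x (N + 1))
    rw [(denominator_eq x N).1]

lemma cost_eq (Q H : ℕ) (ex : Expansion) : ex.cost Q H = (Q + 1) * (tr ex).unit H := by
  rcases ex with ⟨b, hb⟩ | _ <;> rfl

lemma cuts_of_cut (r : ℕ) (x K : ℝ) (N : ℕ) (E : Finset ℕ) (ex : Expansion)
    (h : Cut r x K N E ex) : Pool.Agent.R532.Cf.Cuts r x K N E (tr ex) := by
  rcases ex with ⟨b, hb⟩ | _
  · have hlb : 0 < Real.log b := Real.log_pos (by exact_mod_cast hb)
    refine ⟨⌊K / Real.log b⌋₊ - 1, ?_, ?_⟩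
    · obtain ⟨p, q, hp1, hp2, hp3, hp4, hp5, hp6⟩ :=
        Pool.Agent.R532.Cf.block_around E N 0 (Nat.zero_le _)
      obtain ⟨k, hk, -⟩ := h p q (hp1.trans hp2) hp3 hp4 hp5 hp6
      have h1 : ((k + 1 : ℕ) : ℝ) ≤ K / Real.log b := by
        rw [le_div_iff₀ hlb]
        push_cast
        exact hk
      have h2 : k + 1 ≤ ⌊K / Real.log b⌋₊ := Nat.le_floor h1
      have h3 : ((⌊K / Real.log b⌋₊ - 1 : ℕ) : ℝ) + 1 = (⌊K / Real.log b⌋₊ : ℝ) := by
        rw [Nat.cast_sub (by omega)]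
        push_cast
        ring
      rw [h3, ← le_div_iff₀ hlb]
      refine Nat.floor_le ?_
      have : (0 : ℝ) ≤ ((k + 1 : ℕ) : ℝ) := Nat.cast_nonneg _
      linarith
    · intro p q h1 h2 h3 h4 h5
      obtain ⟨k, hk, c, hc0, hcd, hcX⟩ := h p q h1 h2 h3 h4 h5
      refine ⟨c, hc0, fun j => (hcd j).trans ?_, hcX⟩
      have h6 : ((k + 1 : ℕ) : ℝ) ≤ K / Real.log b := by
        rw [le_div_iff₀ hlb]
        push_cast
        exact hk
      have h7 : k + 1 ≤ ⌊K / Real.log b⌋₊ := Nat.le_floor h6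
      omega
  · intro p q h1 h2 h3 h4 h5
    obtain ⟨a, m, hm, hper, hsum⟩ := h p q h1 h2 h3 h4 h5
    rw [cfTerm_eq] at hper hsum
    exact ⟨a, m, hm, hper, hsum⟩

lemma cutBound (u v : ℝ) (huv : Pool.Agent.R356.JointR u v) (r : ℕ) :
    ∃ A : ℝ, 1 ≤ A ∧ CutBound A r u v := by
  obtain ⟨A, hA, h⟩ := Pool.Agent.R532.Cf.cuts_pair u v huv r
  refine ⟨A, hA, fun ex ex' K K' hK hK' N N' E E' hC hC' => ?_⟩
  rw [size_eq, size_eq]
  exact h (tr ex) (tr ex') (tr_valid ex) (tr_valid ex') K K' N N' E E' hK hK'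
    (cuts_of_cut r u K N E ex hC) (cuts_of_cut r v K' N' E' ex' hC')

lemma predictorBound (u v : ℝ) (huv : Pool.Agent.R356.JointR u v) :
    ∃ A : ℝ, 1 ≤ A ∧ PredictorBound A u v := by
  obtain ⟨A, hA, h⟩ := Pool.Agent.R532.Cf.predictors_pair u v huv
  refine ⟨A, hA, fun ex ex' Q Q' δ δ' q₀ q₀' out out' H H' hH hH' N N' => ?_⟩
  rw [size_eq, size_eq, cost_eq, cost_eq, term_eq, term_eq]
  exact h (tr ex) (tr ex') (tr_valid ex) (tr_valid ex') Q Q' δ δ' q₀ q₀' out out' H H' hH hH' N N'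

/-- monomials with rational exponents -/
theorem joint_rpow (x : ℝ) (hx : x = Real.exp 1 ∨ x = Real.pi ∨ ∃ q : ℚ, 1 < q ∧ x = Real.log q)
    (z : ℝ) (hz : 0 < z) (a b c d : ℚ) (h : a * d ≠ b * c) :
    Pool.Agent.R356.JointR (z ^ (a : ℝ) * x ^ (b : ℝ)) (z ^ (c : ℝ) * x ^ (d : ℝ)) := by
  have hx0 : 0 < x := by
    rcases hx with rfl | rfl | ⟨q, hq, rfl⟩
    · exact Real.exp_pos 1
    · exact Real.pi_pos
    · exact Real.log_pos (by exact_mod_cast hq)
  have hxm : Pool.Agent.TH456.TM.MeasT (x : ℂ) := by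
    refine Pool.Agent.R473.JC.measT_three x ?_
    rcases hx with h1 | h1 | ⟨q, hq, h1⟩
    · exact Or.inl h1
    · exact Or.inr (Or.inl h1)
    · exact Or.inr (Or.inr ⟨q, by linarith, by linarith [hq] , h1⟩)
  obtain ⟨N, hN⟩ : ∃ N : ℕ, N = a.den * b.den * c.den * d.den := ⟨_, rfl⟩
  have hN0 : N ≠ 0 := by
    rw [hN]
    exact Nat.mul_ne_zero (Nat.mul_ne_zero (Nat.mul_ne_zero a.den_ne_zero b.den_ne_zero)
      c.den_ne_zero) d.den_ne_zero
  have hint : ∀ q : ℚ, (q.den ∣ N) → ∃ k : ℤ, (N : ℚ) * q = k := by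
    intro q hq
    obtain ⟨m, hm⟩ := hq
    refine ⟨m * q.num, ?_⟩
    rw [hm]
    push_cast
    have h1 : (q.den : ℚ) * q = q.num := Rat.den_mul_eq_num q
    calc (q.den : ℚ) * m * q = m * (q.den * q) := by ring
      _ = _ := by rw [h1]
  obtain ⟨A, hA⟩ := hint a (by rw [hN]; exact ⟨b.den * c.den * d.den, by ring⟩)
  obtain ⟨B, hB⟩ := hint b (by rw [hN]; exact ⟨a.den * c.den * d.den, by ring⟩)
  obtain ⟨C, hC⟩ := hint c (by rw [hN]; exact ⟨a.den * b.den * d.den, by ring⟩)
  obtain ⟨D, hD⟩ := hint d (by rw [hN]; exact ⟨a.den * b.den * c.den, by ring⟩)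
  have hu : 0 < z ^ (a : ℝ) * x ^ (b : ℝ) :=
    mul_pos (Real.rpow_pos_of_pos hz _) (Real.rpow_pos_of_pos hx0 _)
  have hv : 0 < z ^ (c : ℝ) * x ^ (d : ℝ) :=
    mul_pos (Real.rpow_pos_of_pos hz _) (Real.rpow_pos_of_pos hx0 _)
  have hAr : (N : ℝ) * (a : ℝ) = A := by exact_mod_cast hA
  have hBr : (N : ℝ) * (b : ℝ) = B := by exact_mod_cast hB
  have hCr : (N : ℝ) * (c : ℝ) = C := by exact_mod_cast hC
  have hDr : (N : ℝ) * (d : ℝ) = D := by exact_mod_cast hD
  refine Pool.Agent.R473.JC.jointR_of_alg x hxm _ _ (Pool.Agent.R473.JC.alg_two _ _ x hu.ne' hv.ne'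
    (N * C) (N * A) (B * C - A * D) ?_ hx0.ne' ?_)
  · intro h0
    apply h
    have h1 : ((B * C - A * D : ℤ) : ℚ) = 0 := by rw [h0]; rfl
    push_cast at h1
    rw [← hA, ← hB, ← hC, ← hD] at h1
    have h2 : (N : ℚ) * N * (a * d - b * c) = 0 := by linarith
    have h3 : (N : ℚ) ≠ 0 := by exact_mod_cast hN0
    have h4 : a * d - b * c = 0 := by
      rcases mul_eq_zero.1 h2 with h5 | h5
      · exact absurd h5 (mul_ne_zero h3 h3)
      · exact h5
    linarith
  · rw [← Real.rpow_intCast, ← Real.rpow_intCast, ← Real.rpow_intCast,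
      Real.mul_rpow (Real.rpow_pos_of_pos hz _).le (Real.rpow_pos_of_pos hx0 _).le,
      Real.mul_rpow (Real.rpow_pos_of_pos hz _).le (Real.rpow_pos_of_pos hx0 _).le,
      ← Real.rpow_mul hz.le, ← Real.rpow_mul hx0.le, ← Real.rpow_mul hz.le,
      ← Real.rpow_mul hx0.le, mul_assoc, ← Real.rpow_add hx0]
    push_cast
    have e1 : (a : ℝ) * (N * C) = c * (N * A) := by
      rw [← hAr, ← hCr]
      ring
    have e2 : (b : ℝ) * (N * C) = d * (N * A) + (B * C - A * D) := by
      rw [← hAr, ← hBr, ← hCr, ← hDr]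
      ring
    rw [e1, e2]

end Pool.Agent.R532.CfR
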