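import Mathlib
import Pool.Agent.R532.CfR

/-!
# Pairs of monomials with rational exponents and rational coefficients
-/

set_option autoImplicit false

namespace Pool.Agent.R532.CfR

open Pool.Agent.R473.JC

lemma alg_two_const (u v x : ℝ) (hu : u ≠ 0) (hv : v ≠ 0) (c a n p q : ℤ) (hn : n ≠ 0) (hx : x ≠ 0)
    (hp : p ≠ 0) (hq : q ≠ 0) (h : p * u ^ c = q * (v ^ a * x ^ n)) :
    IsAlgebraic (Algebra.adjoin ℤ ({u, v} : Set ℝ)) x := by
  have hmu : ∀ k : ℕ, u ^ k ∈ Algebra.adjoin ℤ ({u, v} : Set ℝ) := fun k =>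
    Subalgebra.pow_mem _ (mem_u u v) k
  have hmv : ∀ k : ℕ, v ^ k ∈ Algebra.adjoin ℤ ({u, v} : Set ℝ) := fun k =>
    Subalgebra.pow_mem _ (mem_v u v) k
  have hmz : ∀ k : ℤ, (k : ℝ) ∈ Algebra.adjoin ℤ ({u, v} : Set ℝ) := fun k =>
    Subalgebra.intCast_mem _ k
  have key : ∀ (c₁ c₂ a₁ a₂ : ℕ), c = c₁ - c₂ → a = a₁ - a₂ →
      p * (u ^ c₁ * v ^ a₂) = q * (u ^ c₂ * v ^ a₁) * x ^ n := by
    intro c₁ c₂ a₁ a₂ hc ha
    rw [hc, ha, zpow_sub₀ hu, zpow_sub₀ hv, zpow_natCast, zpow_natCast, zpow_natCast,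
      zpow_natCast] at h
    field_simp at h
    linarith
  have hp' : (p : ℝ) ≠ 0 := by exact_mod_cast hp
  have hq' : (q : ℝ) ≠ 0 := by exact_mod_cast hq
  have hc : c = ((c.toNat : ℕ) : ℤ) - (((-c).toNat : ℕ) : ℤ) := (Int.toNat_sub_toNat_neg c).symm
  have ha : a = ((a.toNat : ℕ) : ℤ) - (((-a).toNat : ℕ) : ℤ) := (Int.toNat_sub_toNat_neg a).symm
  have hk := key _ _ _ _ hc ha
  rcases lt_or_gt_of_ne hn with hneg | hpos
  · obtain ⟨m, hm⟩ : ∃ m : ℕ, n = -(m : ℤ) := ⟨n.natAbs, by omega⟩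
    have hm0 : m ≠ 0 := by omega
    rw [hm, zpow_neg, zpow_natCast] at hk
    refine alg_mon u v x (p * (u ^ c.toNat * v ^ (-a).toNat)) (q * (u ^ (-c).toNat * v ^ a.toNat))
      (Subalgebra.mul_mem _ (hmz _) (Subalgebra.mul_mem _ (hmu _) (hmv _)))
      (Subalgebra.mul_mem _ (hmz _) (Subalgebra.mul_mem _ (hmu _) (hmv _)))
      (mul_ne_zero hp' (mul_ne_zero (pow_ne_zero _ hu) (pow_ne_zero _ hv))) m hm0 ?_
    rw [hk, mul_assoc, inv_mul_cancel₀ (pow_ne_zero _ hx), mul_one]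
  · obtain ⟨m, hm⟩ : ∃ m : ℕ, n = (m : ℤ) := ⟨n.natAbs, by omega⟩
    have hm0 : m ≠ 0 := by omega
    rw [hm, zpow_natCast] at hk
    exact alg_mon u v x (q * (u ^ (-c).toNat * v ^ a.toNat)) (p * (u ^ c.toNat * v ^ (-a).toNat))
      (Subalgebra.mul_mem _ (hmz _) (Subalgebra.mul_mem _ (hmu _) (hmv _)))
      (Subalgebra.mul_mem _ (hmz _) (Subalgebra.mul_mem _ (hmu _) (hmv _)))
      (mul_ne_zero hq' (mul_ne_zero (pow_ne_zero _ hu) (pow_ne_zero _ hv))) m hm0 hk.symm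

/-- monomials with rational exponents and coefficients -/
theorem joint_rpow_const (x : ℝ)
    (hx : x = Real.exp 1 ∨ x = Real.pi ∨ ∃ q : ℚ, 1 < q ∧ x = Real.log q)
    (z : ℝ) (hz : 0 < z) (a b c d : ℚ) (h : a * d ≠ b * c) (s : ℚ) (hs : s ≠ 0) :
    Pool.Agent.R356.JointR (s * (z ^ (a : ℝ) * x ^ (b : ℝ))) (z ^ (c : ℝ) * x ^ (d : ℝ)) := by
  have hx0 : 0 < x := by
    rcases hx with rfl | rfl | ⟨q, hq, rfl⟩
    · exact Real.exp_pos 1
    · exact Real.pi_pos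
    · exact Real.log_pos (by exact_mod_cast hq)
  have hxm : Pool.Agent.TH456.TM.MeasT (x : ℂ) := by
    refine Pool.Agent.R473.JC.measT_three x ?_
    rcases hx with h1 | h1 | ⟨q, hq, h1⟩
    · exact Or.inl h1
    · exact Or.inr (Or.inl h1)
    · exact Or.inr (Or.inr ⟨q, by linarith, hq.ne', h1⟩)
  have hs' : (s : ℝ) ≠ 0 := by exact_mod_cast hs
  obtain ⟨N, hN⟩ : ∃ N : ℕ, N = a.den * b.den * c.den * d.den := ⟨_, rfl⟩
  have hN0 : N ≠ 0 := by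
    rw [hN]
    exact Nat.mul_ne_zero (Nat.mul_ne_zero (Nat.mul_ne_zero a.den_ne_zero b.den_ne_zero)
      c.den_ne_zero) d.den_ne_zero
  have hint : ∀ q : ℚ, (q.den ∣ N) → ∃ k : ℤ, (N : ℚ) * q = k := by
    intro q hq
    obtain ⟨m, hm⟩ := hq
    refine ⟨m * q.num, ?_⟩
    rw [hm]
    push_cast
    have h1 : (q.den : ℚ) * q = q.num := Rat.den_mul_eq_num q
    calc (q.den : ℚ) * m * q = m * (q.den * q) := by ring
      _ = _ := by rw [h1]
  obtain ⟨A, hA⟩ := hint a (by rw [hN]; exact ⟨b.den * c.den * d.den, by ring⟩)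
  obtain ⟨B, hB⟩ := hint b (by rw [hN]; exact ⟨a.den * c.den * d.den, by ring⟩)
  obtain ⟨C, hC⟩ := hint c (by rw [hN]; exact ⟨a.den * b.den * d.den, by ring⟩)
  obtain ⟨D, hD⟩ := hint d (by rw [hN]; exact ⟨a.den * b.den * c.den, by ring⟩)
  have hu : 0 < z ^ (a : ℝ) * x ^ (b : ℝ) :=
    mul_pos (Real.rpow_pos_of_pos hz _) (Real.rpow_pos_of_pos hx0 _)
  have hv : 0 < z ^ (c : ℝ) * x ^ (d : ℝ) :=
    mul_pos (Real.rpow_pos_of_pos hz _) (Real.rpow_pos_of_pos hx0 _)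
  have hAr : (N : ℝ) * (a : ℝ) = A := by exact_mod_cast hA
  have hBr : (N : ℝ) * (b : ℝ) = B := by exact_mod_cast hB
  have hCr : (N : ℝ) * (c : ℝ) = C := by exact_mod_cast hC
  have hDr : (N : ℝ) * (d : ℝ) = D := by exact_mod_cast hD
  have hmon : (z ^ (a : ℝ) * x ^ (b : ℝ)) ^ ((N : ℤ) * C) =
      (z ^ (c : ℝ) * x ^ (d : ℝ)) ^ ((N : ℤ) * A) * x ^ (B * C - A * D) := by
    rw [← Real.rpow_intCast, ← Real.rpow_intCast, ← Real.rpow_intCast,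
      Real.mul_rpow (Real.rpow_pos_of_pos hz _).le (Real.rpow_pos_of_pos hx0 _).le,
      Real.mul_rpow (Real.rpow_pos_of_pos hz _).le (Real.rpow_pos_of_pos hx0 _).le,
      ← Real.rpow_mul hz.le, ← Real.rpow_mul hx0.le, ← Real.rpow_mul hz.le,
      ← Real.rpow_mul hx0.le, mul_assoc, ← Real.rpow_add hx0]
    push_cast
    have e1 : (a : ℝ) * (N * C) = c * (N * A) := by
      rw [← hAr, ← hCr]
      ring
    have e2 : (b : ℝ) * (N * C) = d * (N * A) + (B * C - A * D) := by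
      rw [← hAr, ← hBr, ← hCr, ← hDr]
      ring
    rw [e1, e2]
  have hsC : s ^ ((N : ℤ) * C) ≠ 0 := zpow_ne_zero _ hs
  obtain ⟨σ, hσ⟩ : ∃ σ : ℚ, σ = s ^ ((N : ℤ) * C) := ⟨_, rfl⟩
  rw [← hσ] at hsC
  refine jointR_of_alg x hxm _ _ (alg_two_const _ _ x (mul_ne_zero hs' hu.ne') hv.ne'
    (N * C) (N * A) (B * C - A * D) σ.den σ.num ?_ hx0.ne' (by exact_mod_cast σ.den_ne_zero)
    (Rat.num_ne_zero.2 hsC) ?_)
  · intro h0
    apply h
    have h1 : ((B * C - A * D : ℤ) : ℚ) = 0 := by rw [h0]; rfl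
    push_cast at h1
    rw [← hA, ← hB, ← hC, ← hD] at h1
    have h2 : (N : ℚ) * N * (a * d - b * c) = 0 := by linarith
    have h3 : (N : ℚ) ≠ 0 := by exact_mod_cast hN0
    have h4 : a * d - b * c = 0 := by
      rcases mul_eq_zero.1 h2 with h5 | h5
      · exact absurd h5 (mul_ne_zero h3 h3)
      · exact h5
    linarith
  · rw [mul_zpow, hmon, ← mul_assoc]
    congr 1
    have h6 : ((s : ℝ)) ^ ((N : ℤ) * C) = (σ : ℝ) := by
      rw [hσ]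
      push_cast
      rfl
    rw [h6]
    have h7 : (σ.den : ℚ) * σ = σ.num := Rat.den_mul_eq_num σ
    exact_mod_cast h7

end Pool.Agent.R532.CfR
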