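import Mathlib

/-!
# Integer points on circles

The circle `x ^ 2 + y ^ 2 = D` contains at most `10 d(D) ^ 2 = O (D ^ ε)` integer points.
-/

set_option autoImplicit false

namespace Pool.Agent.R532

open Finset

/-- the integer points of the circle with the squared radius `D` -/
noncomputable def circ (D : ℕ) : Finset (ℤ × ℤ) :=
  (Icc (-(D : ℤ)) D ×ˢ Icc (-(D : ℤ)) D).filter (fun z => z.1 ^ 2 + z.2 ^ 2 = D)

theorem mem_circ {D : ℕ} {z : ℤ × ℤ} : z ∈ circ D ↔ z.1 ^ 2 + z.2 ^ 2 = D := by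
  unfold circ
  rw [mem_filter, mem_product, mem_Icc, mem_Icc, and_iff_right_iff_imp]
  intro h
  have h1 : z.1 ^ 2 ≤ D := by nlinarith [sq_nonneg z.2]
  have h2 : z.2 ^ 2 ≤ D := by nlinarith [sq_nonneg z.1]
  have key : ∀ w : ℤ, w ^ 2 ≤ D → -(D : ℤ) ≤ w ∧ w ≤ D := by
    intro w hw
    have a : |w| ≤ w ^ 2 := by
      rcases eq_or_ne w 0 with rfl | h0
      · simp
      · have b : 1 ≤ |w| := Int.one_le_abs h0
        rw [← sq_abs]
        nlinarith
    exact abs_le.1 (a.trans hw)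
  exact ⟨key _ h1, key _ h2⟩

/-- two primitive points with the same gcd with a third one -/
theorem prim_key {D : ℕ} (hD : 0 < D) {x y x' y' x₀ y₀ : ℤ} (h : x ^ 2 + y ^ 2 = D)
    (h' : x' ^ 2 + y' ^ 2 = D) (h₀ : x₀ ^ 2 + y₀ ^ 2 = D) (hc : IsCoprime x y)
    (hc₀ : IsCoprime x₀ y₀)
    (hg : Int.gcd (x * y₀ - x₀ * y) D = Int.gcd (x' * y₀ - x₀ * y') D) :
    (D : ℤ) ∣ 2 * (x * y' - x' * y) := by
  have hDx : IsCoprime x (D : ℤ) := by
    rw [← h]
    have : x ^ 2 + y ^ 2 = y ^ 2 + x * x := by ring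
    rw [this]
    exact (IsCoprime.pow_right hc).add_mul_left_right x
  have hDy₀ : IsCoprime y₀ (D : ℤ) := by
    rw [← h₀]
    have : x₀ ^ 2 + y₀ ^ 2 = x₀ ^ 2 + y₀ * y₀ := by ring
    rw [this]
    exact (IsCoprime.pow_right hc₀.symm).add_mul_left_right y₀
  set g : ℕ := Int.gcd (x * y₀ - x₀ * y) D with hgdef
  have hgD : (g : ℤ) ∣ D := Int.gcd_dvd_right _ _
  have hg0 : 0 < g := Int.gcd_pos_of_ne_zero_right _ (by exact_mod_cast hD.ne')
  obtain ⟨k, hk⟩ := hgD
  have ha : (g : ℤ) ∣ x * y₀ - x₀ * y := Int.gcd_dvd_left _ _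
  have ha' : (g : ℤ) ∣ x' * y₀ - x₀ * y' := by rw [hg]; exact Int.gcd_dvd_left _ _
  have hk0 : k ≠ 0 := by
    rintro rfl
    rw [mul_zero] at hk
    have : D = 0 := by exact_mod_cast hk
    omega
  -- `k` divides the sums
  have hb : ∀ u v : ℤ, u ^ 2 + v ^ 2 = D → Int.gcd (u * y₀ - x₀ * v) D = g →
      k ∣ u * y₀ + x₀ * v := by
    intro u v huv hgg
    obtain ⟨α, hα⟩ : (g : ℤ) ∣ u * y₀ - x₀ * v := by rw [← hgg]; exact Int.gcd_dvd_left _ _
    have hcop : IsCoprime α k := by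
      rw [Int.isCoprime_iff_gcd_eq_one]
      have e : Int.gcd (g * α) (g * k) = g := by rw [← hα, ← hk, hgg]
      rw [Int.gcd_mul_left, Int.natAbs_natCast] at e
      exact Nat.eq_of_mul_eq_mul_left hg0 (by rw [e, mul_one])
    have e : (u * y₀ - x₀ * v) * (u * y₀ + x₀ * v) = D * (u ^ 2 - x₀ ^ 2) := by
      have e1 : y₀ ^ 2 = D - x₀ ^ 2 := by linarith
      have e2 : v ^ 2 = D - u ^ 2 := by linarith
      calc (u * y₀ - x₀ * v) * (u * y₀ + x₀ * v) = u ^ 2 * y₀ ^ 2 - x₀ ^ 2 * v ^ 2 := by ring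
        _ = D * (u ^ 2 - x₀ ^ 2) := by rw [e1, e2]; ring
    rw [hα, hk, mul_assoc, mul_assoc] at e
    have e3 : α * (u * y₀ + x₀ * v) = k * (u ^ 2 - x₀ ^ 2) :=
      mul_left_cancel₀ (by exact_mod_cast hg0.ne') e
    exact hcop.symm.dvd_of_dvd_mul_left ⟨_, e3⟩
  have hb1 := hb x y h rfl
  have hb2 := hb x' y' h' hg.symm
  set Δ := x * y' - x' * y with hΔ
  have c1 : (g : ℤ) ∣ Δ := by
    have e : y₀ * Δ = (x * y₀ - x₀ * y) * y' - (x' * y₀ - x₀ * y') * y := by rw [hΔ]; ring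
    have e2 : (g : ℤ) ∣ y₀ * Δ := by
      rw [e]
      exact dvd_sub (ha.mul_right _) (ha'.mul_right _)
    have e3 : IsCoprime (g : ℤ) y₀ := (hDy₀.of_isCoprime_of_dvd_right ⟨k, hk⟩).symm
    exact e3.dvd_of_dvd_mul_left e2
  have c2 : k ∣ Δ := by
    have e : y₀ * Δ = (x * y₀ + x₀ * y) * y' - (x' * y₀ + x₀ * y') * y := by rw [hΔ]; ring
    have e2 : k ∣ y₀ * Δ := by
      rw [e]
      exact dvd_sub (hb1.mul_right _) (hb2.mul_right _)
    have e3 : IsCoprime k y₀ :=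
      (hDy₀.of_isCoprime_of_dvd_right ⟨(g : ℤ), by rw [hk, mul_comm]⟩).symm
    exact e3.dvd_of_dvd_mul_left e2
  -- the gcd of `g` and `k` divides `2`
  have c3 : ((Int.gcd g k : ℕ) : ℤ) ∣ 2 := by
    set c : ℤ := ((Int.gcd g k : ℕ) : ℤ) with hcdef
    have d1 : c ∣ x * y₀ - x₀ * y := (Int.gcd_dvd_left _ _).trans ha
    have d2 : c ∣ x * y₀ + x₀ * y := (Int.gcd_dvd_right _ _).trans hb1
    have d3 : c ∣ x * (y₀ * 2) := by
      have := dvd_add d1 d2
      have e : x * y₀ - x₀ * y + (x * y₀ + x₀ * y) = x * (y₀ * 2) := by ring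
      rwa [e] at this
    have d4 : c ∣ D := by
      rw [hk]
      exact (Int.gcd_dvd_left _ _).trans (dvd_mul_right _ _)
    have d5 : IsCoprime c x := (hDx.of_isCoprime_of_dvd_right d4).symm
    have d6 : IsCoprime c y₀ := (hDy₀.of_isCoprime_of_dvd_right d4).symm
    exact d6.dvd_of_dvd_mul_left (d5.dvd_of_dvd_mul_left d3)
  have c4 : ((Int.lcm g k : ℕ) : ℤ) ∣ Δ := Int.coe_lcm_dvd c1 c2
  have c5 : (D : ℤ) ∣ (Int.gcd g k : ℤ) * (Int.lcm g k : ℤ) := by
    have := Int.gcd_mul_lcm g k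
    have e : ((Int.gcd g k : ℕ) : ℤ) * ((Int.lcm g k : ℕ) : ℤ) = (((g : ℤ) * k).natAbs : ℤ) := by
      rw [← Nat.cast_mul, this, Int.natAbs_mul]
    rw [e, ← hk]
    simp
  exact c5.trans (mul_dvd_mul c3 c4)

/-! ### the divisor bound (copied from `Pool/Agent/H358R2/Asym.lean`) -/

theorem aux_pow (K e : ℕ) (hK : 0 < K) : (e + 1) ^ K ≤ K ^ K * 2 * 2 ^ e := by
  have h1 : e + 1 < K * ((e + 1) / K + 1) := by
    have := Nat.lt_mul_div_succ (e + 1) hK
    simpa using this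
  have h2 : (e + 1) / K + 1 ≤ 2 ^ ((e + 1) / K) := Nat.lt_two_pow_self
  have h3 : e + 1 ≤ K * 2 ^ ((e + 1) / K) := by
    calc e + 1 ≤ K * ((e + 1) / K + 1) := h1.le
      _ ≤ K * 2 ^ ((e + 1) / K) := Nat.mul_le_mul_left _ h2
  calc (e + 1) ^ K ≤ (K * 2 ^ ((e + 1) / K)) ^ K := Nat.pow_le_pow_left h3 K
    _ = K ^ K * 2 ^ ((e + 1) / K * K) := by rw [mul_pow, ← pow_mul]
    _ ≤ K ^ K * 2 ^ (e + 1) := by
        apply Nat.mul_le_mul_left
        exact Nat.pow_le_pow_right (by norm_num) (Nat.div_mul_le_self _ _)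
    _ = K ^ K * 2 * 2 ^ e := by rw [pow_succ]; ring

/-- `d(n) ^ K ≤ C_K n` -/
theorem card_divisors_pow_le (K : ℕ) (hK : 0 < K) (n : ℕ) (hn : n ≠ 0) :
    (n.divisors.card) ^ K ≤ (K ^ K * 2) ^ (2 ^ K) * n := by
  rw [Nat.card_divisors hn]
  set c : ℕ → ℕ := fun q => if q < 2 ^ K then K ^ K * 2 else 1 with hc
  have hc0 : 1 ≤ K ^ K * 2 := by
    have : 0 < K ^ K := Nat.pow_pos hK
    omega
  have key : ∀ q ∈ n.primeFactors, (n.factorization q + 1) ^ K ≤ c q * q ^ n.factorization q := by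
    intro q hq
    have hqp : q.Prime := Nat.prime_of_mem_primeFactors hq
    by_cases h : q < 2 ^ K
    · simp only [hc, h, if_true]
      refine (aux_pow K _ hK).trans ?_
      exact Nat.mul_le_mul_left _ (Nat.pow_le_pow_left hqp.two_le _)
    · simp only [hc, h, if_false, one_mul]
      push Not at h
      calc (n.factorization q + 1) ^ K ≤ (2 ^ n.factorization q) ^ K :=
            Nat.pow_le_pow_left Nat.lt_two_pow_self K
        _ = (2 ^ K) ^ n.factorization q := by rw [← pow_mul, ← pow_mul, mul_comm]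
        _ ≤ q ^ n.factorization q := Nat.pow_le_pow_left h _
  calc (∏ q ∈ n.primeFactors, (n.factorization q + 1)) ^ K
      = ∏ q ∈ n.primeFactors, (n.factorization q + 1) ^ K := by rw [Finset.prod_pow]
    _ ≤ ∏ q ∈ n.primeFactors, (c q * q ^ n.factorization q) :=
        Finset.prod_le_prod' key
    _ = (∏ q ∈ n.primeFactors, c q) * ∏ q ∈ n.primeFactors, q ^ n.factorization q :=
        Finset.prod_mul_distrib
    _ = (∏ q ∈ n.primeFactors, c q) * n := by
        congr 1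
        exact Nat.prod_factorization_pow_eq_self hn
    _ ≤ (K ^ K * 2) ^ (2 ^ K) * n := by
        apply Nat.mul_le_mul_right
        have : ∏ q ∈ n.primeFactors, c q
            = ∏ q ∈ n.primeFactors.filter (fun q => q < 2 ^ K), (K ^ K * 2) := by
          rw [Finset.prod_filter]
        rw [this, Finset.prod_const]
        apply Nat.pow_le_pow_right hc0
        calc (n.primeFactors.filter (fun q => q < 2 ^ K)).card ≤ (Finset.range (2 ^ K)).card := by
              apply Finset.card_le_card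
              intro q hq
              simp only [Finset.mem_filter] at hq
              exact Finset.mem_range.mpr hq.2
          _ = 2 ^ K := Finset.card_range _

/-- the divisor bound -/
theorem div_bound {δ : ℝ} (hδ : 0 < δ) : ∃ C : ℝ, 1 ≤ C ∧ ∀ n : ℕ, n ≠ 0 →
    (n.divisors.card : ℝ) ≤ C * (n : ℝ) ^ δ := by
  obtain ⟨K0, hK0⟩ := exists_nat_gt (1 / δ)
  set K := K0 + 1 with hKdef
  have hK : 0 < K := by omega
  have hK' : (0 : ℝ) < K := by exact_mod_cast hK
  have hKδ : 1 / (K : ℝ) ≤ δ := by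
    rw [div_le_iff₀ hK']
    rw [div_lt_iff₀ hδ] at hK0
    have : (K0 : ℝ) ≤ K := by exact_mod_cast (by omega : K0 ≤ K)
    nlinarith
  set c : ℕ := (K ^ K * 2) ^ (2 ^ K) with hc
  have hc1 : 1 ≤ c := by
    rw [hc]
    exact Nat.one_le_pow _ _ (by positivity)
  have hc1' : (1 : ℝ) ≤ c := by exact_mod_cast hc1
  refine ⟨c, hc1', ?_⟩
  intro n hn
  have hn1 : 1 ≤ n := Nat.one_le_iff_ne_zero.2 hn
  have hn1' : (1 : ℝ) ≤ n := by exact_mod_cast hn1
  have h1 : ((n.divisors.card : ℝ)) ^ K ≤ c * n := by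
    exact_mod_cast card_divisors_pow_le K hK n hn
  have h2 : (n.divisors.card : ℝ) ≤ (c * n : ℝ) ^ (1 / (K : ℝ)) := by
    have h3 := Real.rpow_le_rpow (by positivity) h1 (by positivity : (0 : ℝ) ≤ 1 / (K : ℝ))
    rwa [← Real.rpow_natCast, ← Real.rpow_mul (Nat.cast_nonneg _), mul_one_div_cancel hK'.ne',
      Real.rpow_one] at h3
  refine h2.trans ?_
  rw [Real.mul_rpow (by positivity) (by positivity)]
  apply mul_le_mul
  · calc (c : ℝ) ^ (1 / (K : ℝ)) ≤ (c : ℝ) ^ (1 : ℝ) := by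
          apply Real.rpow_le_rpow_of_exponent_le hc1'
          rw [div_le_one hK']
          exact_mod_cast hK
      _ = c := Real.rpow_one _
  · exact Real.rpow_le_rpow_of_exponent_le hn1' hKδ
  · positivity
  · positivity


open Classical in
/-- few primitive points -/
theorem card_prim {D : ℕ} (hD : 0 < D) :
    ((circ D).filter (fun z => IsCoprime z.1 z.2)).card ≤ 10 * D.divisors.card := by
  rcases ((circ D).filter (fun z => IsCoprime z.1 z.2)).eq_empty_or_nonempty with he | ⟨z₀, hz₀⟩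
  · rw [he]
    simp
  obtain ⟨h₀, hc₀⟩ := mem_filter.1 hz₀
  rw [mem_circ] at h₀
  rw [mul_comm]
  refine (card_le_mul_card_image_of_maps_to
    (f := fun z : ℤ × ℤ => Int.gcd (z.1 * z₀.2 - z₀.1 * z.2) D) (t := D.divisors) ?_ 10 ?_).trans
    (le_of_eq (mul_comm _ _))
  · intro z _
    rw [Nat.mem_divisors]
    exact ⟨by exact_mod_cast Int.gcd_dvd_right (z.1 * z₀.2 - z₀.1 * z.2) D, hD.ne'⟩
  · intro g _
    set T := ((circ D).filter (fun z => IsCoprime z.1 z.2)).filter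
      (fun z : ℤ × ℤ => Int.gcd (z.1 * z₀.2 - z₀.1 * z.2) D = g) with hT
    rcases T.eq_empty_or_nonempty with he | ⟨w, hw⟩
    · rw [he]
      simp
    have hw1 := hw
    rw [hT, mem_filter, mem_filter, mem_circ] at hw1
    obtain ⟨⟨w1, w2⟩, w3⟩ := hw1
    -- the map
    have hcard : ((Icc (-2 : ℤ) 2) ×ˢ (univ : Finset Bool)).card = 10 := by decide
    rw [← hcard]
    refine card_le_card_of_injOn
      (fun z : ℤ × ℤ => ((2 * (w.1 * z.2 - z.1 * w.2)) / D, decide (0 ≤ w.1 * z.1 + w.2 * z.2)))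
      ?_ ?_
    · intro z hz
      rw [mem_coe, hT, mem_filter, mem_filter, mem_circ] at hz
      obtain ⟨⟨z1, z2⟩, z3⟩ := hz
      rw [mem_coe, mem_product]
      refine ⟨?_, mem_univ _⟩
      obtain ⟨m, hm⟩ := prim_key hD w1 z1 h₀ w2 hc₀ (w3.trans z3.symm)
      have hD' : (D : ℤ) ≠ 0 := by exact_mod_cast hD.ne'
      simp only
      rw [hm, Int.mul_ediv_cancel_left _ hD', mem_Icc]
      have hDp : (0 : ℤ) < D := by exact_mod_cast hD
      have e : (w.1 * z.2 - z.1 * w.2) ^ 2 ≤ (D : ℤ) ^ 2 := by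
        have e1 : (w.1 * z.2 - z.1 * w.2) ^ 2 + (w.1 * z.1 + w.2 * z.2) ^ 2 =
            (w.1 ^ 2 + w.2 ^ 2) * (z.1 ^ 2 + z.2 ^ 2) := by ring
        rw [w1, z1] at e1
        nlinarith [sq_nonneg (w.1 * z.1 + w.2 * z.2)]
      have e2 : ((D : ℤ) * m) ^ 2 ≤ 4 * (D : ℤ) ^ 2 := by
        rw [← hm]
        nlinarith
      have e3 : m ^ 2 ≤ 4 := by
        have : (D : ℤ) ^ 2 * m ^ 2 ≤ (D : ℤ) ^ 2 * 4 := by nlinarith
        exact le_of_mul_le_mul_left this (by positivity)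
      constructor <;> nlinarith
    · intro z hz z' hz' heq
      rw [mem_coe, hT, mem_filter, mem_filter, mem_circ] at hz hz'
      obtain ⟨⟨z1, z2⟩, z3⟩ := hz
      obtain ⟨⟨z1', z2'⟩, z3'⟩ := hz'
      rw [Prod.mk.injEq, decide_eq_decide] at heq
      obtain ⟨m, hm⟩ := prim_key hD w1 z1 h₀ w2 hc₀ (w3.trans z3.symm)
      obtain ⟨m', hm'⟩ := prim_key hD w1 z1' h₀ w2 hc₀ (w3.trans z3'.symm)
      have hD' : (D : ℤ) ≠ 0 := by exact_mod_cast hD.ne'
      have hDp : (0 : ℤ) < D := by exact_mod_cast hD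
      rw [hm, hm', Int.mul_ediv_cancel_left _ hD', Int.mul_ediv_cancel_left _ hD'] at heq
      obtain ⟨h1, h2⟩ := heq
      have hΔ : w.1 * z.2 - z.1 * w.2 = w.1 * z'.2 - z'.1 * w.2 := by
        rw [h1, ← hm'] at hm
        linarith
      have e1 : (w.1 * z.2 - z.1 * w.2) ^ 2 + (w.1 * z.1 + w.2 * z.2) ^ 2 =
            (w.1 ^ 2 + w.2 ^ 2) * (z.1 ^ 2 + z.2 ^ 2) := by ring
      have e1' : (w.1 * z'.2 - z'.1 * w.2) ^ 2 + (w.1 * z'.1 + w.2 * z'.2) ^ 2 =
            (w.1 ^ 2 + w.2 ^ 2) * (z'.1 ^ 2 + z'.2 ^ 2) := by ring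
      rw [z1] at e1
      rw [z1'] at e1'
      have hdot2 : (w.1 * z.1 + w.2 * z.2) ^ 2 = (w.1 * z'.1 + w.2 * z'.2) ^ 2 := by
        rw [hΔ] at e1
        linarith
      have hdot : w.1 * z.1 + w.2 * z.2 = w.1 * z'.1 + w.2 * z'.2 := by
        rcases sq_eq_sq_iff_eq_or_eq_neg.1 hdot2 with h | h
        · exact h
        · by_cases hs : 0 ≤ w.1 * z.1 + w.2 * z.2
          · have hs' := h2.1 hs
            linarith
          · have hs' : ¬ 0 ≤ w.1 * z'.1 + w.2 * z'.2 := fun hh => hs (h2.2 hh)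
            push Not at hs hs'
            linarith
      have x1 : D * z.1 = D * z'.1 := by
        rw [← w1]
        linear_combination w.1 * hdot - w.2 * hΔ
      have x2 : D * z.2 = D * z'.2 := by
        rw [← w1]
        linear_combination w.2 * hdot + w.1 * hΔ
      exact Prod.ext (mul_left_cancel₀ hD' x1) (mul_left_cancel₀ hD' x2)

open Classical in
/-- few points -/
theorem card_circ {D : ℕ} (hD : 0 < D) : (circ D).card ≤ 10 * D.divisors.card ^ 2 := by
  have hsub : circ D ⊆ (D.divisors.filter (fun h => h ^ 2 ∣ D)).biUnion (fun h =>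
      ((circ (D / h ^ 2)).filter (fun z => IsCoprime z.1 z.2)).image
        (fun z => ((h : ℤ) * z.1, (h : ℤ) * z.2))) := by
    intro z hz
    rw [mem_circ] at hz
    have hg0 : 0 < Int.gcd z.1 z.2 := by
      rw [Int.gcd_pos_iff]
      by_contra hcon
      push Not at hcon
      rw [hcon.1, hcon.2] at hz
      have : (D : ℤ) = 0 := by rw [← hz]; norm_num
      have : D = 0 := by exact_mod_cast this
      omega
    obtain ⟨h, u, v, h1, h2, h3, h4⟩ := Int.exists_gcd_one' hg0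
    have e : (D : ℤ) = (h : ℤ) ^ 2 * (u ^ 2 + v ^ 2) := by
      rw [← hz, h3, h4]
      ring
    have hdvd : h ^ 2 ∣ D := by
      have : ((h ^ 2 : ℕ) : ℤ) ∣ D := ⟨u ^ 2 + v ^ 2, by push_cast; exact e⟩
      exact_mod_cast this
    rw [mem_biUnion]
    refine ⟨h, ?_, ?_⟩
    · rw [mem_filter, Nat.mem_divisors]
      exact ⟨⟨(dvd_pow_self h two_ne_zero).trans hdvd, hD.ne'⟩, hdvd⟩
    · rw [mem_image]
      refine ⟨(u, v), ?_, ?_⟩
      · rw [mem_filter, mem_circ]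
        refine ⟨?_, Int.isCoprime_iff_gcd_eq_one.2 h2⟩
        push_cast
        rw [e, Int.mul_ediv_cancel_left]
        have : (0 : ℤ) < h := by exact_mod_cast h1
        positivity
      · exact Prod.ext (by rw [h3]; ring) (by rw [h4]; ring)
  refine (card_le_card hsub).trans (card_biUnion_le.trans ?_)
  calc ∑ h ∈ D.divisors.filter (fun h => h ^ 2 ∣ D), _
      ≤ ∑ _h ∈ D.divisors.filter (fun h => h ^ 2 ∣ D), 10 * D.divisors.card := by
        apply sum_le_sum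
        intro h hh
        obtain ⟨h1, h2⟩ := mem_filter.1 hh
        refine card_image_le.trans ?_
        obtain ⟨k, hk⟩ := h2
        have hh0 : 0 < h ^ 2 := by
          rcases Nat.eq_zero_or_pos (h ^ 2) with h0 | h0
          · rw [h0, zero_mul] at hk; omega
          · exact h0
        have hk2 : D / h ^ 2 = k := by rw [hk, Nat.mul_div_cancel_left _ hh0]
        have hk0 : 0 < k := by
          rcases Nat.eq_zero_or_pos k with h0 | h0
          · rw [h0, mul_zero] at hk; omega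
          · exact h0
        rw [hk2]
        refine (card_prim hk0).trans (Nat.mul_le_mul_left _ ?_)
        exact card_le_card (Nat.divisors_subset_of_dvd hD.ne' ⟨h ^ 2, by rw [hk]; ring⟩)
    _ ≤ D.divisors.card * (10 * D.divisors.card) := by
        rw [sum_const, smul_eq_mul]
        exact Nat.mul_le_mul_right _ (card_filter_le _ _)
    _ = 10 * D.divisors.card ^ 2 := by ring

/-- **Integer points on circles.** -/
theorem circ_bound {ε : ℝ} (hε : 0 < ε) : ∃ C : ℝ, 1 ≤ C ∧ ∀ D : ℕ, 0 < D →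
    ((circ D).card : ℝ) ≤ C * (D : ℝ) ^ ε := by
  obtain ⟨C, hC, h⟩ := div_bound (δ := ε / 2) (by positivity)
  refine ⟨10 * C ^ 2, by nlinarith, fun D hD => ?_⟩
  have h1 : ((circ D).card : ℝ) ≤ 10 * (D.divisors.card : ℝ) ^ 2 := by
    exact_mod_cast card_circ hD
  have h2 := h D hD.ne'
  have h3 : ((D : ℝ) ^ (ε / 2)) ^ 2 = (D : ℝ) ^ ε := by
    rw [← Real.rpow_natCast, ← Real.rpow_mul (Nat.cast_nonneg D)]
    norm_num
  calc ((circ D).card : ℝ) ≤ 10 * (D.divisors.card : ℝ) ^ 2 := h1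
    _ ≤ 10 * (C * (D : ℝ) ^ (ε / 2)) ^ 2 := by gcongr
    _ = 10 * C ^ 2 * (D : ℝ) ^ ε := by rw [mul_pow, h3]; ring

end Pool.Agent.R532
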