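import Pool.Agent.H592R3.Collapse

/-!
# Restrictions under which all output bits of a circuit depend on at most one variable each
-/

set_option autoImplicit false

namespace Pool.Agent.R532.Et

open Finset H568R2 H592R3 DomAC0

section Trees
variable {I : Type*} [DecidableEq I]

/-- a decision tree of depth `k` depends on fewer than `2 ^ k` variables -/
theorem dt_dep : ∀ {k : ℕ} {f : (I → Bool) → Bool}, DT k f →
    ∃ T : Finset I, T.card + 1 ≤ 2 ^ k ∧ DepOn f T
  | 0, f, hf => by
      obtain ⟨b, hb⟩ := hf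
      exact ⟨∅, by simp, fun x y _ => by rw [hb, hb]⟩
  | k + 1, f, hf => by
      rcases hf with ⟨b, hb⟩ | ⟨i, hi⟩
      · exact ⟨∅, by simp [Nat.one_le_two_pow], fun x y _ => by rw [hb, hb]⟩
      · obtain ⟨T1, h1, d1⟩ := dt_dep (hi true)
        obtain ⟨T0, h0, d0⟩ := dt_dep (hi false)
        refine ⟨insert i (T1 ∪ T0), ?_, ?_⟩
        · have := Finset.card_insert_le i (T1 ∪ T0)
          have := Finset.card_union_le T1 T0
          rw [pow_succ]
          omega
        · intro x y hxy
          have hx : f x = f (Function.update x i (x i)) := by rw [Function.update_eq_self]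
          have hy : f y = f (Function.update y i (y i)) := by rw [Function.update_eq_self]
          have hi' := hxy i (Finset.mem_insert_self _ _)
          rw [hx, hy, ← hi']
          cases hb : x i
          · exact d0 x y fun j hj => hxy j (Finset.mem_insert_of_mem (Finset.mem_union_right _ hj))
          · exact d1 x y fun j hj => hxy j (Finset.mem_insert_of_mem (Finset.mem_union_left _ hj))

open Classical in
/-- a decision tree depends on at most one variable, up to a set of variables whose size is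
controlled by the depth -/
theorem dt_split {h : ℕ} {f : (I → Bool) → Bool} (hf : DT h f) :
    ∃ T U : Finset I, U.card ≤ 1 ∧ DepOn f (T ∪ U) ∧
      (T.card : ℝ) ≤ ∑ l ∈ Ico 1 h, 2 ^ (l + 1) * (if ¬ DT l f then (1 : ℝ) else 0) := by
  by_cases h1 : DT 1 f
  · obtain ⟨T, hT, hd⟩ := dt_dep h1
    refine ⟨∅, T, by omega, by simpa using hd, ?_⟩
    simp only [Finset.card_empty, Nat.cast_zero]
    refine Finset.sum_nonneg fun l _ => ?_
    split_ifs <;> positivity
  · have hex : ∃ k, DT k f := ⟨h, hf⟩
    set k := Nat.find hex with hk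
    have hkf : DT k f := Nat.find_spec hex
    have hkh : k ≤ h := Nat.find_min' hex hf
    have hk2 : 2 ≤ k := by
      by_contra hcon
      exact h1 (hkf.mono (by omega))
    obtain ⟨T, hT, hd⟩ := dt_dep hkf
    refine ⟨T, ∅, by simp, by simpa using hd, ?_⟩
    have hnot : ¬ DT (k - 1) f := Nat.find_min hex (by omega)
    have hmem : k - 1 ∈ Ico 1 h := by rw [Finset.mem_Ico]; omega
    refine le_trans ?_ (Finset.single_le_sum (f := fun l =>
      2 ^ (l + 1) * (if ¬ DT l f then (1 : ℝ) else 0)) (fun l _ => ?_) hmem)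
    · simp only [hnot, not_false_iff, if_true, mul_one]
      rw [show k - 1 + 1 = k by omega]
      have : (T.card : ℝ) + 1 ≤ 2 ^ k := by exact_mod_cast hT
      linarith
    · split_ifs <;> positivity

end Trees

section Exp
variable {I : Type*} [Fintype I] [DecidableEq I]

/-- a value at least the expectation is attained -/
theorem exists_ge {A : Type*} [Fintype A] [Nonempty (I → A)] {w : A → ℝ} (hw : ∀ a, 0 ≤ w a)
    (hw1 : ∑ a, w a = 1) {F : (I → A) → ℝ} {c : ℝ} (h : c ≤ Ex w F) : ∃ ω, c ≤ F ω := by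
  obtain ⟨ω, hω⟩ := Finite.exists_max F
  refine ⟨ω, h.trans ?_⟩
  have := Ex_mono (I := I) hw (F := F) (G := fun _ => F ω) hω
  rwa [Ex_const hw1] at this

/-- the expected number of stars -/
theorem ex_stars (q : ℝ) :
    Ex (wq q) (fun ρ : Restr I => (((univ.filter fun i => ρ i = none).card : ℕ) : ℝ)) =
      q * Fintype.card I := by
  classical
  have h1 : ∀ ρ : Restr I, (((univ.filter fun i => ρ i = none).card : ℕ) : ℝ) =
      ∑ i, (if ρ i = none then (1 : ℝ) else 0) := by
    intro ρ
    rw [Finset.card_filter]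
    push_cast
    rfl
  simp only [h1]
  rw [Ex_sum]
  have h2 : ∀ i ∈ (univ : Finset I),
      Ex (wq q) (fun ρ : Restr I => if ρ i = none then (1 : ℝ) else 0) = q := by
    intro i _
    have h3 := Ex_indep (I := I) (wq_sum q) (fun a => a = none) {i} (fun _ => (1 : ℝ))
      (fun _ _ _ _ => rfl)
    simp only [Finset.mem_singleton, forall_eq, one_mul, Finset.card_singleton, pow_one,
      Ex_const (wq_sum q), mul_one] at h3
    rw [h3]
    rw [Finset.sum_filter, Fintype.sum_option, Fintype.sum_bool]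
    simp [wq]
  rw [Finset.sum_congr rfl h2]
  simp [mul_comm]

/-- restricting a decision tree -/
theorem dt_rs : ∀ {k : ℕ} {f : (I → Bool) → Bool} (τ : Restr I), DT k f → DT k (rs f τ)
  | 0, f, τ, hf => by
      obtain ⟨b, hb⟩ := hf
      exact ⟨b, fun x => hb _⟩
  | k + 1, f, τ, hf => by
      rcases hf with ⟨b, hb⟩ | ⟨i, hi⟩
      · exact Or.inl ⟨b, fun x => hb _⟩
      · cases hτ : τ i with
        | some b =>
          have h1 : rs f τ = rs (fun x => f (Function.update x i b)) τ := by
            funext x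
            unfold rs
            congr 1
            funext j
            by_cases hj : j = i
            · subst hj
              unfold ov
              simp [hτ]
            · simp [hj]
          rw [h1]
          exact (dt_rs τ (hi b)).succ
        | none =>
          refine Or.inr ⟨i, fun b => ?_⟩
          have h1 : (fun x => rs f τ (Function.update x i b)) =
              rs (fun x => f (Function.update x i b)) τ := by
            funext x
            unfold rs
            congr 1
            funext j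
            by_cases hj : j = i
            · subst hj
              unfold ov
              simp [hτ]
            · simp [ov, hj]
          rw [h1]
          exact dt_rs τ (hi b)

theorem geo {x : ℝ} (h0 : 0 ≤ x) (h1 : x ≤ 1 / 2) : ∀ h : ℕ, 1 ≤ h →
    ∑ l ∈ Ico 1 h, x ^ (l + 1) ≤ 2 * x ^ 2 - 2 * x ^ (h + 1) := by
  intro h hh
  induction h, hh using Nat.le_induction with
  | base => norm_num
  | succ h hh ih =>
    rw [Finset.sum_Ico_succ_top hh]
    have h2 : 0 ≤ x ^ (h + 1) := by positivity
    have h3 : x ^ (h + 1 + 1) = x * x ^ (h + 1) := by ring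
    rw [h3]
    nlinarith

end Exp

section Circ

theorem node_dt {m : ℕ} (C : Circuit (Fin m)) {h j : ℕ} (hh : 1 ≤ h) {ρ : Restr (Fin m)}
    (hG : H592R3.Good C (fun x => x) h j ρ) (v : Fin m ⊕ Fin C.size) (hv : C.nodeDepth v ≤ j) :
    DT h (rs (fun x => C.nodeVal x v) ρ) := by
  cases v with
  | inl i =>
    have h1 : Junta 1 (fun x : Fin m → Bool => C.nodeVal x (Sum.inl i)) :=
      ⟨{i}, by simp, fun x y hxy => hxy i (by simp)⟩
    exact DT.of_junta_one (h1.rs ρ) hh
  | inr g =>
    have := hG g hv (pl C g).length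
    rw [List.take_length] at this
    have h2 : (fun x => C.nodeVal x (Sum.inr g)) = fun x => gfun C g x (pl C g) := by
      funext x
      exact gateVal_eq C x g
    rw [h2]
    exact this

open Classical in
/-- **Many variables, all output bits depending on at most one of them.** -/
theorem cube {m n D K h : ℕ} (C : Circuit (Fin m)) (out : Fin n → Fin m ⊕ Fin C.size)
    (hD : ∀ j, C.nodeDepth (out j) ≤ D) (hn : n ≤ K * m) (hK : 1 ≤ K) (hh : 1 ≤ h) (hm : 1 ≤ m)
    (hbig : 32 * K * D * (C.size * (m + C.size + 1)) * (24 * h) ^ (2 * D + 2) ≤ 2 ^ (h + 1)) :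
    ∃ (z : Fin m → Bool) (I0 : Finset (Fin m)),
      (m : ℝ) / (16 * K * (24 * h) ^ (2 * D + 2)) ≤ I0.card ∧
      ∀ j, ∃ U : Finset (Fin m), U.card ≤ 1 ∧ ∀ x y : Fin m → Bool,
        (∀ i, i ∉ I0 → x i = z i) → (∀ i, i ∉ I0 → y i = z i) → (∀ i ∈ U, x i = y i) →
        C.nodeVal x (out j) = C.nodeVal y (out j) := by
  have hhR : (1 : ℝ) ≤ h := by exact_mod_cast hh
  have hKR : (1 : ℝ) ≤ K := by exact_mod_cast hK
  have hmR : (1 : ℝ) ≤ m := by exact_mod_cast hm
  set q : ℝ := 1 / (24 * h) with hq
  have hq0 : 0 < q := by positivity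
  have hq24 : q ≤ 1 / 24 := by
    rw [hq]
    apply one_div_le_one_div_of_le (by norm_num)
    linarith
  have hq1 : q ≤ 1 := by linarith
  have hqp : ∀ k : ℕ, q ^ k ≤ 1 := fun k => pow_le_one₀ hq0.le hq1
  have h12 : 12 * (h : ℝ) * q = 1 / 2 := by rw [hq]; field_simp; norm_num
  have h24 : 24 * (h : ℝ) * q = 1 := by rw [hq]; field_simp
  set p : ℝ := q ^ (D + 2) / (8 * K) with hp
  have hp0 : 0 < p := by positivity
  have hp8 : p ≤ 1 / 8 := by
    rw [hp, div_le_div_iff₀ (by positivity) (by norm_num)]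
    have := hqp (D + 2)
    nlinarith
  set x : ℝ := 24 * h * p with hx
  have hxe : x = q ^ (D + 1) / (8 * K) := by
    rw [hx, hp, pow_succ q (D + 1)]
    calc 24 * (h : ℝ) * (q ^ (D + 1) * q / (8 * K)) = (24 * h * q) * q ^ (D + 1) / (8 * K) := by
          ring
      _ = _ := by rw [h24, one_mul]
  have hx0 : 0 ≤ x := by positivity
  have hx1 : x ≤ 1 / 2 := by
    rw [hxe, div_le_div_iff₀ (by positivity) (by norm_num)]
    have := hqp (D + 1)
    nlinarith
  set B : ℝ := q ^ (2 * D + 2) with hB
  have hB0 : 0 < B := by positivity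
  have hBe : B * (24 * h) ^ (2 * D + 2) = 1 := by
    rw [hB, ← mul_pow, hq]
    have : (1 : ℝ) / (24 * h) * (24 * h) = 1 := by field_simp
    rw [this, one_pow]
  -- the first restriction
  have hσ : ∀ j : Fin m, Junta 1 (fun x : Fin m → Bool => (fun x => x) x j) :=
    fun j => ⟨{j}, by simp, fun x y hxy => hxy j (by simp)⟩
  have hcol := H592R3.collapse (I := Fin m) C (fun x => x) hσ hq0.le (by linarith : q ≤ 1 / 3) hh D
  rw [h12, Fintype.card_fin] at hcol
  set δ : ℝ := D * ((C.size * (m + C.size + 1) : ℕ) : ℝ) * (1 / 2) ^ (h + 1) with hδ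
  have hδle : δ ≤ B / (32 * K) := by
    have h1 : (32 * K * D * ((C.size * (m + C.size + 1) : ℕ) : ℝ) * (24 * h) ^ (2 * D + 2)) ≤
        2 ^ (h + 1) := by exact_mod_cast hbig
    rw [hδ, le_div_iff₀ (by positivity)]
    have h2 : ((1 : ℝ) / 2) ^ (h + 1) * 2 ^ (h + 1) = 1 := by rw [← mul_pow]; norm_num
    have h3 : D * ((C.size * (m + C.size + 1) : ℕ) : ℝ) * (1 / 2) ^ (h + 1) * (32 * K) =
        (1 / 2) ^ (h + 1) * B * (32 * K * D * ((C.size * (m + C.size + 1) : ℕ) : ℝ) *
          (24 * h) ^ (2 * D + 2)) := by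
      calc D * ((C.size * (m + C.size + 1) : ℕ) : ℝ) * (1 / 2) ^ (h + 1) * (32 * K) =
          D * ((C.size * (m + C.size + 1) : ℕ) : ℝ) * (1 / 2) ^ (h + 1) * (32 * K) *
            (B * (24 * h) ^ (2 * D + 2)) := by rw [hBe, mul_one]
        _ = _ := by ring
    rw [h3]
    calc (1 / 2) ^ (h + 1) * B * (32 * K * D * ((C.size * (m + C.size + 1) : ℕ) : ℝ) *
          (24 * h) ^ (2 * D + 2)) ≤ (1 / 2) ^ (h + 1) * B * 2 ^ (h + 1) := by gcongr
      _ = B * ((1 / 2) ^ (h + 1) * 2 ^ (h + 1)) := by ring
      _ = B := by rw [h2, mul_one]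
  set num : Restr (Fin m) → ℝ := fun ρ => (((univ.filter fun i => ρ i = none).card : ℕ) : ℝ)
    with hnum
  have hnum_le : ∀ ρ, num ρ ≤ m := by
    intro ρ
    have : (univ.filter fun i => ρ i = none).card ≤ m := by
      refine (Finset.card_le_univ _).trans ?_
      simp
    show (((univ.filter fun i => ρ i = none).card : ℕ) : ℝ) ≤ m
    exact_mod_cast this
  have hwD : ∀ a, 0 ≤ wq (q ^ D) a := wq_nonneg (by positivity) (hqp D)
  have hwp : ∀ a, 0 ≤ wq p a := wq_nonneg hp0.le (by linarith)
  have hE1 : Ex (wq (q ^ D)) (fun ρ : Restr (Fin m) => Ex (wq p) (fun τ => num (cmp ρ τ)) +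
      (-(m : ℝ)) * (if ¬ H592R3.Good C (fun x => x) h D ρ then (1 : ℝ) else 0)) ≥
      q ^ D * p * m - m * δ := by
    rw [Ex_add, Ex_smul, ← wq_cmp]
    have h1 := ex_stars (I := Fin m) (q ^ D * p)
    rw [Fintype.card_fin] at h1
    rw [hnum, h1]
    have h2 : m * Ex (wq (q ^ D)) (fun ρ : Restr (Fin m) =>
        if ¬ H592R3.Good C (fun x => x) h D ρ then (1 : ℝ) else 0) ≤ m * δ :=
      mul_le_mul_of_nonneg_left hcol (by positivity)
    linarith
  obtain ⟨ρ, hρ⟩ := exists_ge hwD (wq_sum _) hE1
  have hmain : q ^ D * p * m = m * B / (8 * K) := by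
    rw [hp, hB, show 2 * D + 2 = D + (D + 2) by ring, pow_add]
    ring
  have hc1 : m * B / (8 * K) - m * (B / (32 * K)) = 3 * (m * B / (32 * K)) := by
    field_simp
    ring
  have hpos : 0 < m * B / (32 * K) := by positivity
  have hmd : m * δ ≤ m * (B / (32 * K)) := mul_le_mul_of_nonneg_left hδle (by positivity)
  have hG : H592R3.Good C (fun x => x) h D ρ := by
    by_contra hcon
    simp only [hcon, not_false_iff, if_true, mul_one] at hρ
    have h1 : Ex (wq p) (fun τ => num (cmp ρ τ)) ≤ Ex (wq p) (fun _ => (m : ℝ)) :=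
      Ex_mono hwp fun τ => hnum_le _
    rw [Ex_const (wq_sum p)] at h1
    rw [hmain] at hρ
    linarith
  simp only [hG, not_true, if_false, mul_zero, add_zero] at hρ
  -- the second restriction
  set f : Fin n → (Fin m → Bool) → Bool := fun j x => C.nodeVal x (out j) with hf
  have hE2 : Ex (wq p) (fun τ : Restr (Fin m) => num (cmp ρ τ) + (-1) * ∑ j : Fin n,
      ∑ l ∈ Ico 1 h, 2 ^ (l + 1) *
        (if ¬ DT l (rs (rs (f j) ρ) τ) then (1 : ℝ) else 0)) ≥ m * B / (16 * K) := by
    rw [Ex_add, Ex_smul, Ex_sum]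
    have h1 : ∀ j ∈ (univ : Finset (Fin n)), Ex (wq p) (fun τ : Restr (Fin m) =>
        ∑ l ∈ Ico 1 h, 2 ^ (l + 1) *
          (if ¬ DT l (rs (rs (f j) ρ) τ) then (1 : ℝ) else 0)) ≤ 2 * x ^ 2 := by
      intro j _
      rw [Ex_sum]
      have h2 : ∀ l ∈ Ico 1 h, Ex (wq p) (fun τ : Restr (Fin m) => 2 ^ (l + 1) *
          (if ¬ DT l (rs (rs (f j) ρ) τ) then (1 : ℝ) else 0)) ≤ x ^ (l + 1) := by
        intro l _
        rw [Ex_smul]
        have hc : Cert h true (rs (f j) ρ) := (node_dt C hh hG (out j) (hD j)).cert true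
        have h3 := H592R3.switching (h := l) hp0.le (by linarith : p ≤ 1 / 3) hc
        calc (2 : ℝ) ^ (l + 1) * Ex (wq p) (fun τ : Restr (Fin m) =>
            if ¬ DT l (rs (rs (f j) ρ) τ) then (1 : ℝ) else 0) ≤
            2 ^ (l + 1) * (12 * h * p) ^ (l + 1) := mul_le_mul_of_nonneg_left h3 (by positivity)
          _ = x ^ (l + 1) := by rw [← mul_pow, hx]; ring
      refine (Finset.sum_le_sum h2).trans ((geo hx0 hx1 h hh).trans ?_)
      have : 0 ≤ x ^ (h + 1) := by positivity
      linarith
    have h4 := Finset.sum_le_sum h1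
    rw [Finset.sum_const, Finset.card_univ, Fintype.card_fin, nsmul_eq_mul] at h4
    have hnR : (n : ℝ) ≤ K * m := by exact_mod_cast hn
    have h5 : (n : ℝ) * (2 * x ^ 2) ≤ m * B / (32 * K) := by
      calc (n : ℝ) * (2 * x ^ 2) ≤ (K * m) * (2 * x ^ 2) := by gcongr
        _ = m * B / (32 * K) := by
          rw [hxe, hB, show 2 * D + 2 = (D + 1) + (D + 1) by ring, pow_add]
          field_simp
          ring
    rw [hmain] at hρ
    have h6 : m * B / (16 * K) = 2 * (m * B / (32 * K)) := by field_simp; ring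
    linarith
  obtain ⟨τ, hτ⟩ := exists_ge hwp (wq_sum _) hE2
  set g : Fin n → (Fin m → Bool) → Bool := fun j => rs (rs (f j) ρ) τ with hg
  have hgD : ∀ j, DT h (g j) := fun j => dt_rs τ (node_dt C hh hG (out j) (hD j))
  choose T U hU hdep hT using fun j => dt_split (hgD j)
  set I0 : Finset (Fin m) := (univ.filter fun i => cmp ρ τ i = none) \ univ.biUnion T with hI0
  refine ⟨fun i => (cmp ρ τ i).getD false, I0, ?_, ?_⟩
  · have h1 : (univ.filter fun i => cmp ρ τ i = none).card ≤ I0.card + ∑ j, (T j).card := by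
      have h0 := Finset.le_card_sdiff (univ.biUnion T) (univ.filter fun i => cmp ρ τ i = none)
      have h00 : (univ.biUnion T).card ≤ ∑ j, (T j).card := Finset.card_biUnion_le
      rw [hI0]
      omega
    have h2 : num (cmp ρ τ) ≤ I0.card + ∑ j, ((T j).card : ℝ) := by
      show (((univ.filter fun i => cmp ρ τ i = none).card : ℕ) : ℝ) ≤ _
      exact_mod_cast h1
    have h3 : ∑ j, ((T j).card : ℝ) ≤ ∑ j : Fin n, ∑ l ∈ Ico 1 h, 2 ^ (l + 1) *
        (if ¬ DT l (rs (rs (f j) ρ) τ) then (1 : ℝ) else 0) := Finset.sum_le_sum fun j _ => hT j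
    have h4 : (m : ℝ) / (16 * K * (24 * h) ^ (2 * D + 2)) = m * B / (16 * K) := by
      rw [div_eq_div_iff (by positivity) (by positivity)]
      calc (m : ℝ) * (16 * K) = m * (16 * K) * (B * (24 * h) ^ (2 * D + 2)) := by
            rw [hBe, mul_one]
        _ = _ := by ring
    rw [h4]
    linarith
  · intro j
    refine ⟨U j, hU j, fun x y hx hy hxy => ?_⟩
    have key : ∀ x : Fin m → Bool, (∀ i, i ∉ I0 → x i = (cmp ρ τ i).getD false) →
        g j x = C.nodeVal x (out j) := by
      intro x hx
      rw [hg]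
      show rs (rs (f j) ρ) τ x = _
      rw [← rs_cmp]
      show C.nodeVal (ov (cmp ρ τ) x) (out j) = _
      congr 1
      funext i
      unfold ov
      cases hi : cmp ρ τ i with
      | none => rfl
      | some b =>
        have : i ∉ I0 := by
          rw [hI0, Finset.mem_sdiff, Finset.mem_filter, hi]
          simp
        rw [hx i this, hi]
        rfl
    rw [← key x hx, ← key y hy]
    apply hdep j
    intro i hi
    rcases Finset.mem_union.1 hi with hi | hi
    · have : i ∉ I0 := by
        rw [hI0, Finset.mem_sdiff]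
        intro hcon
        exact hcon.2 (Finset.mem_biUnion.2 ⟨j, Finset.mem_univ _, hi⟩)
      rw [hx i this, hy i this]
    · exact hxy i hi

end Circ

end Pool.Agent.R532.Et
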