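import Pool.Agent.R532.EtMain

/-!
# Enumerations by circuits of constant depth: lower bounds for the size and growth of the
representation function
-/

set_option autoImplicit false

namespace Pool.Agent.R532.Et

open Finset DomAC0 Filter

theorem size_lt (A : Set ℕ) {B : ℕ} (hB : ∀ k, Nat.nth (· ∈ A) k ≤ B * (k + 1) ^ B) {m : ℕ}
    (hm : 1 ≤ m) (x : Fin m → Bool) : Nat.nth (· ∈ A) (num x) < 2 ^ ((2 * B + 1) * m) := by
  have h1 := num_lt x
  have h2 : B < 2 ^ B := Nat.lt_two_pow_self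
  calc Nat.nth (· ∈ A) (num x) ≤ B * (num x + 1) ^ B := hB _
    _ ≤ B * (2 ^ m) ^ B := Nat.mul_le_mul_left _ (Nat.pow_le_pow_left (by omega) _)
    _ < 2 ^ B * (2 ^ m) ^ B := Nat.mul_lt_mul_of_pos_right h2 (by positivity)
    _ = 2 ^ (B + m * B) := by rw [← pow_mul, ← pow_add]
    _ ≤ 2 ^ ((2 * B + 1) * m) := Nat.pow_le_pow_right (by norm_num) (by nlinarith)

open Classical in
theorem fiber_one (A : Set ℕ) (hinf : A.Infinite) {m n : ℕ} (C : Circuit (Fin m))
    (out : Fin n → Fin m ⊕ Fin C.size) (hC : ∀ x, value C out x = Nat.nth (· ∈ A) (num x))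
    (v : ℕ) : (univ.filter fun x => value C out x = v).card ≤ 1 := by
  rw [Finset.card_le_one]
  intro x hx y hy
  have h1 := (Finset.mem_filter.1 hx).2
  have h2 := (Finset.mem_filter.1 hy).2
  rw [hC] at h1 h2
  exact num_inj (Nat.nth_injective hinf (h1.trans h2.symm))

theorem lower (A : Set ℕ) (hinf : A.Infinite) {B : ℕ}
    (hB : ∀ k, Nat.nth (· ∈ A) k ≤ B * (k + 1) ^ B) {h R : ℕ} (hh : 2 ≤ h)
    (hR : ∀ n, rep A h n ≤ R) (D : ℕ) : ∃ c : ℝ, 0 < c ∧ ∀ᶠ m : ℕ in atTop,
    ∀ (n : ℕ) (C : Circuit (Fin m)) (out : Fin n → Fin m ⊕ Fin C.size),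
      (∀ j, C.nodeDepth (out j) ≤ D) → (∀ x, value C out x = Nat.nth (· ∈ A) (num x)) →
      Real.exp (c * (m : ℝ) ^ (1 / (2 * D + 2) : ℝ)) ≤ C.size := by
  classical
  obtain ⟨c0, hc0, H⟩ := main D (2 * B + 1) (by omega)
  set L : ℝ := |Real.log (2 * R)| + 1 with hL
  have hL0 : 0 < L := by positivity
  set c1 : ℝ := (c0 / L) ^ (1 / (2 * D + 2) : ℝ) with hc1
  have hc10 : 0 < c1 := Real.rpow_pos_of_pos (by positivity) _
  have hs : (0 : ℝ) < 1 / (2 * D + 2) := by positivity
  have hlo := (isLittleO_log_rpow_atTop hs).bound (half_pos hc10)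
  have hlo2 : ∀ᶠ m : ℕ in atTop, ‖Real.log (m : ℝ)‖ ≤
      c1 / 2 * ‖(m : ℝ) ^ (1 / (2 * D + 2) : ℝ)‖ := tendsto_natCast_atTop_atTop.eventually hlo
  refine ⟨c1, hc10, ?_⟩
  filter_upwards [hlo2, eventually_ge_atTop 2] with m hm1 hm2
  intro n C out hD hC
  have hmR : (2 : ℝ) ≤ m := by exact_mod_cast hm2
  set S := max C.size m with hS
  obtain ⟨N, _, hN⟩ := H m n S 1 h A C out (by omega) (le_trans hm2 (le_max_right _ _))
    (le_max_right _ _) (le_max_left _ _) hh hD
    (fun x => by rw [hC]; exact Nat.nth_mem_of_infinite hinf _)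
    (fun x => by rw [hC]; exact size_lt A hB (by omega) x)
    (fun v => fiber_one A hinf C out hC v)
  have hSR : (2 : ℝ) ≤ S := by
    have : 2 ≤ S := le_trans hm2 (le_max_right _ _)
    exact_mod_cast this
  have hlS : 0 < Real.log S := Real.log_pos (by linarith)
  have h1 : Real.exp (c0 * m / Real.log S ^ (2 * D + 2)) ≤ 2 * R := by
    refine hN.trans ?_
    have : (rep A h N : ℝ) ≤ R := by exact_mod_cast hR N
    push_cast
    linarith
  have h2R : (0 : ℝ) < 2 * R := lt_of_lt_of_le (Real.exp_pos _) h1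
  have h2 : c0 * m / Real.log S ^ (2 * D + 2) ≤ L := by
    have := Real.log_le_log (Real.exp_pos _) h1
    rw [Real.log_exp] at this
    have h3 := le_abs_self (Real.log (2 * R))
    linarith
  have h3 : c0 / L * m ≤ Real.log S ^ (2 * D + 2) := by
    rw [div_le_iff₀ (by positivity)] at h2
    rw [div_mul_eq_mul_div, div_le_iff₀ hL0]
    linarith
  have h4 : c1 * (m : ℝ) ^ (1 / (2 * D + 2) : ℝ) ≤ Real.log S := by
    have h5 := Real.rpow_le_rpow (by positivity) h3 hs.le
    rw [Real.mul_rpow (by positivity) (by positivity)] at h5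
    have h6 : (Real.log S ^ (2 * D + 2)) ^ (1 / (2 * D + 2) : ℝ) = Real.log S := by
      rw [← Real.rpow_natCast, ← Real.rpow_mul hlS.le]
      have : ((2 * D + 2 : ℕ) : ℝ) * (1 / (2 * D + 2)) = 1 := by
        push_cast
        field_simp
      rw [this, Real.rpow_one]
    rw [h6] at h5
    exact h5
  have h5 : Real.log m < c1 * (m : ℝ) ^ (1 / (2 * D + 2) : ℝ) := by
    have h6 : 0 < (m : ℝ) ^ (1 / (2 * D + 2) : ℝ) := by positivity
    rw [Real.norm_of_nonneg (Real.log_nonneg (by linarith)), Real.norm_of_nonneg h6.le] at hm1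
    nlinarith
  have h6 : S = C.size := by
    rcases max_choice C.size m with h | h
    · exact h
    · exfalso
      have : S = m := h
      rw [this] at h4
      linarith
  rw [h6] at h4 hSR
  calc Real.exp (c1 * (m : ℝ) ^ (1 / (2 * D + 2) : ℝ)) ≤ Real.exp (Real.log C.size) :=
        Real.exp_le_exp.2 h4
    _ = C.size := Real.exp_log (by linarith)

theorem growth (A : Set ℕ) (hinf : A.Infinite) {B : ℕ}
    (hB : ∀ k, Nat.nth (· ∈ A) k ≤ B * (k + 1) ^ B) {h : ℕ} (hh : 2 ≤ h) (D b : ℕ)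
    (hf : ∃ᶠ m : ℕ in atTop, ∃ (n : ℕ) (C : Circuit (Fin m))
      (out : Fin n → Fin m ⊕ Fin C.size), C.size ≤ m ^ b ∧ (∀ j, C.nodeDepth (out j) ≤ D) ∧
      ∀ x, value C out x = Nat.nth (· ∈ A) (num x)) :
    ∃ c : ℝ, 0 < c ∧ ∃ᶠ N : ℕ in atTop,
      Real.exp (c * Real.log N / Real.log (Real.log N) ^ (2 * D + 2)) ≤ rep A h N := by
  classical
  obtain ⟨c0, hc0, H⟩ := main D (2 * B + 1) (by omega)
  set c1 : ℝ := c0 / (2 * (b + 1) ^ (2 * D + 2)) with hc1
  have hc10 : 0 < c1 := by positivity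
  set K2 : ℝ := h + (2 * B + 1) with hK2
  have hK20 : 0 < K2 := by positivity
  set c : ℝ := min 1 (c1 / (K2 * 2 ^ (2 * D + 2))) with hc
  have hc00 : 0 < c := lt_min one_pos (by positivity)
  have hcle1 : c ≤ 1 := min_le_left _ _
  have hcle2 : c * (K2 * 2 ^ (2 * D + 2)) ≤ c1 := by
    have := min_le_right 1 (c1 / (K2 * 2 ^ (2 * D + 2)))
    rw [← hc, le_div_iff₀ (by positivity)] at this
    exact this
  refine ⟨c, hc00, ?_⟩
  rw [Filter.frequently_atTop]
  intro n0
  set n1 : ℕ := max n0 ⌈Real.exp (Real.exp 1)⌉₊ with hn1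
  set Rm : ℕ := ∑ n ∈ range n1, rep A h n with hRm
  have hlo := (isLittleO_log_rpow_rpow_atTop ((2 * D + 2 : ℕ) : ℝ)
    (show (0 : ℝ) < 1 / 2 by norm_num)).bound hc10
  have hlo2 : ∀ᶠ m : ℕ in atTop, ‖Real.log (m : ℝ) ^ ((2 * D + 2 : ℕ) : ℝ)‖ ≤
      c1 * ‖(m : ℝ) ^ (1 / 2 : ℝ)‖ := tendsto_natCast_atTop_atTop.eventually hlo
  have hlo3 : ∀ᶠ m : ℕ in atTop, (Rm : ℝ) + 1 ≤ Real.sqrt m :=
    (Real.tendsto_sqrt_atTop.comp tendsto_natCast_atTop_atTop).eventually
      (eventually_ge_atTop ((Rm : ℝ) + 1))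
  obtain ⟨m, ⟨n, C, out, hsz, hD, hC⟩, hm1, hm2, hm3⟩ :=
    (hf.and_eventually (hlo2.and (hlo3.and (eventually_ge_atTop 3)))).exists
  have hmR : (3 : ℝ) ≤ m := by exact_mod_cast hm3
  have hlm1 : 1 < Real.log m := by
    rw [Real.lt_log_iff_exp_lt (by linarith)]
    linarith [Real.exp_one_lt_d9]
  have hlm : 0 < Real.log m := by linarith
  -- the basic estimate
  have hX : Real.sqrt m ≤ c1 * m / Real.log m ^ (2 * D + 2) := by
    rw [Real.rpow_natCast, Real.norm_of_nonneg (by positivity),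
      Real.norm_of_nonneg (by positivity), ← Real.sqrt_eq_rpow] at hm1
    rw [le_div_iff₀ (by positivity)]
    have h1 : Real.sqrt m * Real.sqrt m = m := Real.mul_self_sqrt (by linarith)
    calc Real.sqrt m * Real.log m ^ (2 * D + 2) ≤ Real.sqrt m * (c1 * Real.sqrt m) := by gcongr
      _ = c1 * (Real.sqrt m * Real.sqrt m) := by ring
      _ = c1 * m := by rw [h1]
  set S := m ^ (b + 1) with hS
  have hmS : m ≤ S := by
    rw [hS]
    exact Nat.le_self_pow (by omega) m
  obtain ⟨N, hNlt, hN⟩ := H m n S 1 h A C out (by omega) (by omega) hmS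
    (hsz.trans (Nat.pow_le_pow_right (by omega) (by omega))) hh hD
    (fun x => by rw [hC]; exact Nat.nth_mem_of_infinite hinf _)
    (fun x => by rw [hC]; exact size_lt A hB (by omega) x)
    (fun v => fiber_one A hinf C out hC v)
  have hlogS : Real.log S = (b + 1) * Real.log m := by
    rw [hS]
    push_cast
    rw [Real.log_pow]
    push_cast
    ring
  have hrep : Real.exp (c1 * m / Real.log m ^ (2 * D + 2)) ≤ rep A h N := by
    have h1 : c0 * m / Real.log S ^ (2 * D + 2) =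
        c1 * m / Real.log m ^ (2 * D + 2) + c1 * m / Real.log m ^ (2 * D + 2) := by
      rw [hlogS, hc1, mul_pow]
      field_simp
      ring
    rw [h1, Real.exp_add] at hN
    have h2 : (2 : ℝ) ≤ Real.exp (c1 * m / Real.log m ^ (2 * D + 2)) := by
      have h3 : (1 : ℝ) ≤ c1 * m / Real.log m ^ (2 * D + 2) := by
        refine le_trans ?_ hX
        have : (0 : ℝ) ≤ Rm := Nat.cast_nonneg _
        linarith
      have := Real.add_one_le_exp (c1 * m / Real.log m ^ (2 * D + 2))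
      linarith
    have h3 : 0 < Real.exp (c1 * m / Real.log m ^ (2 * D + 2)) := Real.exp_pos _
    push_cast at hN
    nlinarith
  have hNn : n1 ≤ N := by
    by_contra hcon
    push Not at hcon
    have h1 : rep A h N ≤ Rm := Finset.single_le_sum (f := fun n => rep A h n)
      (fun _ _ => Nat.zero_le _) (Finset.mem_range.2 hcon)
    have h2 : (rep A h N : ℝ) ≤ Rm := by exact_mod_cast h1
    have h3 := Real.add_one_le_exp (c1 * m / Real.log m ^ (2 * D + 2))
    linarith
  refine ⟨N, (le_max_left _ _).trans hNn, le_trans (Real.exp_le_exp.2 ?_) hrep⟩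
  -- comparison of `N` and `m`
  have hNe : Real.exp (Real.exp 1) ≤ N := by
    refine (Nat.le_ceil _).trans ?_
    exact_mod_cast (le_max_right _ _).trans hNn
  have hN0 : (0 : ℝ) < N := lt_of_lt_of_le (Real.exp_pos _) hNe
  have hL1 : Real.exp 1 ≤ Real.log N := by
    rw [Real.le_log_iff_exp_le hN0]
    exact hNe
  have hL0 : 0 < Real.log N := lt_of_lt_of_le (Real.exp_pos _) hL1
  have hLL : 1 ≤ Real.log (Real.log N) := by
    rw [Real.le_log_iff_exp_le hL0]
    exact hL1
  have hLm : Real.log N ≤ K2 * m := by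
    have h1 : (N : ℝ) ≤ h * 2 ^ ((2 * B + 1) * m) := by exact_mod_cast hNlt.le
    have h2 := Real.log_le_log hN0 h1
    have hh0 : (0 : ℝ) < h := by
      have : 0 < h := by omega
      exact_mod_cast this
    rw [Real.log_mul hh0.ne' (by positivity), Real.log_pow] at h2
    have h3 : Real.log h ≤ h := (Real.log_le_sub_one_of_pos hh0).trans (by linarith)
    have h4 : Real.log 2 ≤ 1 := by
      have := Real.log_two_lt_d9
      linarith
    have h5 : (((2 * B + 1) * m : ℕ) : ℝ) * Real.log 2 ≤ ((2 * B + 1) * m : ℕ) := by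
      have : (0 : ℝ) ≤ (((2 * B + 1) * m : ℕ) : ℝ) := Nat.cast_nonneg _
      nlinarith
    push_cast at h2 h5
    rw [hK2]
    nlinarith
  rcases le_total (Real.log N) (Real.sqrt m) with hcase | hcase
  · refine le_trans ?_ hX
    rw [div_le_iff₀ (by positivity)]
    have h1 : (1 : ℝ) ≤ Real.log (Real.log N) ^ (2 * D + 2) := one_le_pow₀ hLL
    have h2 : 0 ≤ Real.sqrt m := Real.sqrt_nonneg _
    calc c * Real.log N ≤ 1 * Real.sqrt m := by gcongr
      _ ≤ Real.sqrt m * Real.log (Real.log N) ^ (2 * D + 2) := by nlinarith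
  · have h1 : Real.log m / 2 ≤ Real.log (Real.log N) := by
      have h2 := Real.log_le_log (Real.sqrt_pos.2 (by linarith : (0 : ℝ) < m)) hcase
      rwa [Real.log_sqrt (by linarith)] at h2
    have h2 : c * Real.log N / Real.log (Real.log N) ^ (2 * D + 2) ≤
        c * (K2 * m) / (Real.log m / 2) ^ (2 * D + 2) := by gcongr
    refine h2.trans ?_
    rw [div_le_div_iff₀ (by positivity) (by positivity), div_pow, mul_div_assoc']
    rw [le_div_iff₀ (by positivity)]
    have h3 : 0 ≤ (m : ℝ) * Real.log m ^ (2 * D + 2) := by positivity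
    nlinarith

end Pool.Agent.R532.Et
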