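import Pool.Agent.R532.EtRep

/-!
# Sets enumerated by circuits of constant depth have large representation functions
-/

set_option autoImplicit false

namespace Pool.Agent.R532.Et

open Finset DomAC0 Filter

/-- the number with the binary digits `x` -/
def num {m : ℕ} (x : Fin m → Bool) : ℕ := ∑ i : Fin m, if x i = true then 2 ^ (i : ℕ) else 0

theorem num_eq {m : ℕ} (x : Fin m → Bool) :
    num x = ∑ j ∈ range m, if hj : j < m then (if x ⟨j, hj⟩ = true then 2 ^ j else 0) else 0 := by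
  rw [num, ← Fin.sum_univ_eq_sum_range
    (fun j => if hj : j < m then (if x ⟨j, hj⟩ = true then 2 ^ j else 0) else 0)]
  refine Finset.sum_congr rfl fun j _ => ?_
  rw [dif_pos j.2]

theorem num_lt {m : ℕ} (x : Fin m → Bool) : num x < 2 ^ m := by
  have h1 : num x ≤ ∑ j ∈ range m, 2 ^ j := by
    rw [num_eq]
    refine Finset.sum_le_sum fun j _ => ?_
    split_ifs <;> simp
  have h2 := Nat.geomSum_eq (le_refl 2) m
  simp only [Nat.add_one_sub_one, Nat.div_one] at h2
  have h3 : 1 ≤ 2 ^ m := Nat.one_le_two_pow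
  omega

theorem num_inj {m : ℕ} : Function.Injective (num : (Fin m → Bool) → ℕ) := by
  induction m with
  | zero => intro x y _; exact Subsingleton.elim x y
  | succ m ih =>
    intro x y hxy
    have key : ∀ x : Fin (m + 1) → Bool, num x =
        2 * num (fun i : Fin m => x i.succ) + (if x 0 = true then 1 else 0) := by
      intro x
      unfold num
      rw [Fin.sum_univ_succ, Finset.mul_sum, add_comm]
      congr 1
      refine Finset.sum_congr rfl fun i _ => ?_
      rw [Fin.val_succ, pow_succ]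
      split_ifs <;> ring
    rw [key x, key y] at hxy
    have h0 : (if x 0 = true then 1 else 0) = (if y 0 = true then (1 : ℕ) else 0) := by
      by_cases h1 : x 0 = true <;> by_cases h2 : y 0 = true <;> simp only [h1, h2] at hxy ⊢ <;>
        simp at hxy ⊢ <;> omega
    have h1 : num (fun i : Fin m => x i.succ) = num (fun i : Fin m => y i.succ) := by omega
    have h2 := ih h1
    funext i
    refine Fin.cases ?_ (fun i => congrFun h2 i) i
    by_cases h3 : x 0 = true <;> by_cases h4 : y 0 = true <;> simp_all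

/-- the choice of the depth of the decision trees -/
theorem choice (D K : ℕ) (hK : 1 ≤ K) : ∃ E : ℝ, 0 < E ∧ ∀ S : ℕ, 2 ≤ S →
    ∃ h : ℕ, 1 ≤ h ∧ (h : ℝ) ≤ E * Real.log S ∧
      32 * K * D * (S * (3 * S)) * (24 * h) ^ (2 * D + 2) ≤ 2 ^ (h + 1) := by
  have hl2 : 0 < Real.log 2 := Real.log_pos (by norm_num)
  have hs2 : 1 < Real.sqrt 2 := by
    rw [Real.lt_sqrt] <;> norm_num
  have ht := tendsto_pow_const_div_const_pow_of_one_lt (2 * D + 2) hs2
  set M : ℝ := 96 * K * D * 24 ^ (2 * D + 2) + 1 with hM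
  have hM0 : 0 < M := by positivity
  have he : ∀ᶠ n : ℕ in atTop, (n : ℝ) ^ (2 * D + 2) / Real.sqrt 2 ^ n < 1 / M :=
    ht.eventually (gt_mem_nhds (by positivity))
  obtain ⟨h1, hh1⟩ := Filter.eventually_atTop.1 he
  refine ⟨(h1 + 2) / Real.log 2 + 4 / Real.log 2, by positivity, fun S hS => ?_⟩
  have hSR : (2 : ℝ) ≤ S := by exact_mod_cast hS
  have hlS : Real.log 2 ≤ Real.log S := Real.log_le_log (by norm_num) hSR
  set h : ℕ := h1 + 1 + ⌈4 * Real.log S / Real.log 2⌉₊ with hh
  refine ⟨h, by omega, ?_, ?_⟩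
  · have h2 : ((⌈4 * Real.log S / Real.log 2⌉₊ : ℕ) : ℝ) < 4 * Real.log S / Real.log 2 + 1 :=
      Nat.ceil_lt_add_one (by positivity)
    have h3 : ((h : ℕ) : ℝ) = h1 + 1 + ((⌈4 * Real.log S / Real.log 2⌉₊ : ℕ) : ℝ) := by
      rw [hh]; push_cast; ring
    rw [h3, add_mul]
    have h4 : (h1 + 2 : ℝ) ≤ (h1 + 2) / Real.log 2 * Real.log S := by
      rw [div_mul_eq_mul_div, le_div_iff₀ hl2]
      gcongr
    have h5 : 4 / Real.log 2 * Real.log S = 4 * Real.log S / Real.log 2 := by ring
    rw [h5]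
    linarith
  · have h2 := hh1 h (by omega)
    rw [div_lt_div_iff₀ (by positivity) hM0, one_mul] at h2
    have h3 : 96 * K * D * (24 * h : ℝ) ^ (2 * D + 2) ≤ Real.sqrt 2 ^ h := by
      refine le_trans ?_ h2.le
      rw [mul_pow, hM]
      have : (0 : ℝ) ≤ (h : ℝ) ^ (2 * D + 2) := by positivity
      nlinarith
    have h4 : (S : ℝ) ^ 2 ≤ Real.sqrt 2 ^ h := by
      have h5 : 4 * Real.log S / Real.log 2 ≤ h := by
        refine (Nat.le_ceil _).trans ?_
        rw [hh]
        push_cast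
        linarith [Nat.cast_nonneg (α := ℝ) h1]
      rw [div_le_iff₀ hl2] at h5
      have h6 : Real.log (Real.sqrt 2) = Real.log 2 / 2 := Real.log_sqrt (by norm_num)
      rw [← Real.log_le_log_iff (by positivity) (by positivity), Real.log_pow, Real.log_pow, h6]
      push_cast
      linarith
    have h7 : Real.sqrt 2 ^ h * Real.sqrt 2 ^ h = 2 ^ h := by
      rw [← mul_pow, Real.mul_self_sqrt (by norm_num)]
    have h8 : (32 * K * D * (S * (3 * S)) * (24 * h) ^ (2 * D + 2) : ℝ) ≤ 2 ^ (h + 1) := by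
      calc (32 * K * D * (S * (3 * S)) * (24 * h) ^ (2 * D + 2) : ℝ) =
          (S : ℝ) ^ 2 * (96 * K * D * (24 * h : ℝ) ^ (2 * D + 2)) := by ring
        _ ≤ Real.sqrt 2 ^ h * Real.sqrt 2 ^ h := by gcongr
        _ = 2 ^ h := h7
        _ ≤ 2 ^ (h + 1) := by rw [pow_succ]; linarith [pow_pos (two_pos (α := ℝ)) h]
    exact_mod_cast h8

open Classical in
/-- **The main inequality.** -/
theorem main (D K : ℕ) (hK : 1 ≤ K) : ∃ c : ℝ, 0 < c ∧
    ∀ (m n S T h : ℕ) (A : Set ℕ) (C : Circuit (Fin m)) (out : Fin n → Fin m ⊕ Fin C.size),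
      1 ≤ m → 2 ≤ S → m ≤ S → C.size ≤ S → 2 ≤ h → (∀ j, C.nodeDepth (out j) ≤ D) →
      (∀ x, value C out x ∈ A) → (∀ x, value C out x < 2 ^ (K * m)) →
      (∀ v : ℕ, (univ.filter fun x => value C out x = v).card ≤ T) →
      ∃ N, N < h * 2 ^ (K * m) ∧
        Real.exp (c * m / Real.log S ^ (2 * D + 2)) ≤ 2 * T * rep A h N := by
  obtain ⟨E, hE, hch⟩ := choice D K hK
  have hl2 : 0 < Real.log 2 := Real.log_pos (by norm_num)
  have hKR : (1 : ℝ) ≤ K := by exact_mod_cast hK
  refine ⟨Real.log 2 / (16 * K * (24 * E) ^ (2 * D + 2)), by positivity, ?_⟩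
  intro m n S T h A C out hm hS hmS hCS hh hD hA hlt hT
  obtain ⟨t, ht1, htE, htb⟩ := hch S hS
  have hSR : (2 : ℝ) ≤ S := by exact_mod_cast hS
  have hlS : 0 < Real.log S := Real.log_pos (by linarith)
  set out' : Fin (min n (K * m)) → Fin m ⊕ Fin C.size :=
    fun j => out (Fin.castLE (min_le_left n (K * m)) j) with hout'
  have hval : ∀ x, value C out' x = value C out x := trunc C out hlt
  obtain ⟨z, I0, hI, H⟩ := cube (D := D) (K := K) (h := t) C out' (fun j => hD _)
    (min_le_right _ _) hK ht1 hm (by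
      refine le_trans ?_ htb
      have h1 : C.size * (m + C.size + 1) ≤ S * (3 * S) := Nat.mul_le_mul hCS (by omega)
      exact Nat.mul_le_mul_right _ (Nat.mul_le_mul_left _ h1))
  obtain ⟨N, hN, hrep⟩ := many (T := T) (h := h) C out' z I0 H A
    (fun x => by rw [hval]; exact hA x) hh (fun v => by simp only [hval]; exact hT v)
  refine ⟨N, lt_of_lt_of_le hN ?_, ?_⟩
  · exact Nat.mul_le_mul_left _ (Nat.pow_le_pow_right (by norm_num) (min_le_right _ _))
  · have h1 : (2 : ℝ) ^ I0.card ≤ 2 * T * rep A h N := by exact_mod_cast hrep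
    refine le_trans ?_ h1
    rw [← Real.exp_log (show (0 : ℝ) < 2 ^ I0.card by positivity), Real.log_pow]
    apply Real.exp_le_exp.2
    have htR : (1 : ℝ) ≤ t := by exact_mod_cast ht1
    have h2 : (m : ℝ) / (16 * K * (24 * (E * Real.log S)) ^ (2 * D + 2)) ≤
        (m : ℝ) / (16 * K * (24 * t) ^ (2 * D + 2)) := by gcongr
    have h3 := h2.trans hI
    calc Real.log 2 / (16 * K * (24 * E) ^ (2 * D + 2)) * m / Real.log S ^ (2 * D + 2) =
        (m : ℝ) / (16 * K * (24 * (E * Real.log S)) ^ (2 * D + 2)) * Real.log 2 := by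
          rw [show 24 * (E * Real.log S) = 24 * E * Real.log S by ring,
            mul_pow (24 * E) (Real.log S)]
          field_simp
      _ ≤ I0.card * Real.log 2 := by gcongr

end Pool.Agent.R532.Et
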