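import Pool.Agent.R532.EtCube
import Pool.Agent.W167.ET.Bounded

/-!
# Representations from a set of complementary inputs
-/

set_option autoImplicit false

namespace Pool.Agent.R532.Et

open Finset DomAC0

/-- The number whose binary digits are the values of the nodes `out 0, …, out (n - 1)` of the
circuit `C` on the input `x`. -/
noncomputable def value {m n : ℕ} (C : Circuit (Fin m)) (out : Fin n → Fin m ⊕ Fin C.size)
    (x : Fin m → Bool) : ℕ :=
  ∑ j : Fin n, if C.nodeVal x (out j) = true then 2 ^ (j : ℕ) else 0

/-- the number of unordered representations of `n` as a sum of `h` elements of `A` -/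
noncomputable def rep (A : Set ℕ) (h n : ℕ) : ℕ :=
  Set.ncard {s : Multiset ℕ | Multiset.card s = h ∧ (∀ a ∈ s, a ∈ A) ∧ s.sum = n}

/-- all bits in `I0` reversed -/
def fl {m : ℕ} (I0 : Finset (Fin m)) (x : Fin m → Bool) : Fin m → Bool :=
  fun i => if i ∈ I0 then !x i else x i

/-- the range extension of the digits -/
noncomputable def dig {m n : ℕ} (C : Circuit (Fin m)) (out : Fin n → Fin m ⊕ Fin C.size)
    (x : Fin m → Bool) (j : ℕ) : ℕ :=
  if hj : j < n then (if C.nodeVal x (out ⟨j, hj⟩) = true then 2 ^ j else 0) else 0

theorem value_eq {m n : ℕ} (C : Circuit (Fin m)) (out : Fin n → Fin m ⊕ Fin C.size)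
    (x : Fin m → Bool) : value C out x = ∑ j ∈ range n, dig C out x j := by
  rw [value, ← Fin.sum_univ_eq_sum_range]
  refine Finset.sum_congr rfl fun j _ => ?_
  rw [dig, dif_pos j.2]

theorem trunc {m n M : ℕ} (C : Circuit (Fin m)) (out : Fin n → Fin m ⊕ Fin C.size)
    (hM : ∀ x, value C out x < 2 ^ M) (x : Fin m → Bool) :
    value C (fun j : Fin (min n M) => out (Fin.castLE (min_le_left n M) j)) x =
      value C out x := by
  rw [value_eq, value_eq]
  have h1 : ∀ j ∈ range (min n M),
      dig C (fun j : Fin (min n M) => out (Fin.castLE (min_le_left n M) j)) x j =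
      dig C out x j := by
    intro j hj
    rw [Finset.mem_range] at hj
    have : j < n := lt_of_lt_of_le hj (min_le_left _ _)
    rw [dig, dig, dif_pos hj, dif_pos this]
    rfl
  rw [Finset.sum_congr rfl h1]
  apply Finset.sum_subset (Finset.range_mono (min_le_left n M))
  intro j hj hj2
  rw [Finset.mem_range] at hj hj2
  have hjM : M ≤ j := by omega
  by_contra hne
  have h2 : dig C out x j = 2 ^ j := by
    rw [dig, dif_pos hj] at hne ⊢
    split_ifs with h3
    · rfl
    · rw [if_neg h3] at hne
      exact absurd rfl hne
  have h4 : dig C out x j ≤ value C out x := by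
    rw [value_eq]
    exact Finset.single_le_sum (f := fun j => dig C out x j) (fun _ _ => Nat.zero_le _)
      (Finset.mem_range.2 hj)
  have h5 := hM x
  have h6 : 2 ^ M ≤ 2 ^ j := Nat.pow_le_pow_right (by norm_num) hjM
  omega

theorem value_lt {m n : ℕ} (C : Circuit (Fin m)) (out : Fin n → Fin m ⊕ Fin C.size)
    (x : Fin m → Bool) : value C out x < 2 ^ n := by
  have h1 : value C out x ≤ ∑ j ∈ range n, 2 ^ j := by
    rw [value_eq]
    refine Finset.sum_le_sum fun j _ => ?_
    rw [dig]
    split_ifs <;> simp
  have h2 := Nat.geomSum_eq (le_refl 2) n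
  simp only [Nat.add_one_sub_one, Nat.div_one] at h2
  have h3 : 1 ≤ 2 ^ n := Nat.one_le_two_pow
  omega

/-- complementary inputs have a constant sum of values -/
theorem value_pair {m n : ℕ} (C : Circuit (Fin m)) (out : Fin n → Fin m ⊕ Fin C.size)
    (z : Fin m → Bool) (I0 : Finset (Fin m))
    (H : ∀ j, ∃ U : Finset (Fin m), U.card ≤ 1 ∧ ∀ x y : Fin m → Bool,
        (∀ i, i ∉ I0 → x i = z i) → (∀ i, i ∉ I0 → y i = z i) → (∀ i ∈ U, x i = y i) →
        C.nodeVal x (out j) = C.nodeVal y (out j))
    (x y : Fin m → Bool) (hx : ∀ i, i ∉ I0 → x i = z i) (hy : ∀ i, i ∉ I0 → y i = z i) :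
    value C out x + value C out (fl I0 x) = value C out y + value C out (fl I0 y) := by
  have hfx : ∀ i, i ∉ I0 → fl I0 x i = z i := fun i hi => by
    unfold fl; rw [if_neg hi]; exact hx i hi
  have hfy : ∀ i, i ∉ I0 → fl I0 y i = z i := fun i hi => by
    unfold fl; rw [if_neg hi]; exact hy i hi
  unfold value
  rw [← Finset.sum_add_distrib, ← Finset.sum_add_distrib]
  refine Finset.sum_congr rfl fun j _ => ?_
  obtain ⟨U, hU, hd⟩ := H j
  by_cases hag : ∀ i ∈ U, x i = y i
  · rw [hd x y hx hy hag, hd (fl I0 x) (fl I0 y) hfx hfy]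
    intro i hi
    unfold fl
    rw [hag i hi]
  · push Not at hag
    obtain ⟨u, huU, hne⟩ := hag
    have hall : ∀ i ∈ U, i = u := fun i hi => Finset.card_le_one.1 hU i hi u huU
    have huI : u ∈ I0 := by
      by_contra hcon
      exact hne ((hx u hcon).trans (hy u hcon).symm)
    have h1 : C.nodeVal x (out j) = C.nodeVal (fl I0 y) (out j) := by
      apply hd x _ hx hfy
      intro i hi
      rw [hall i hi]
      unfold fl
      rw [if_pos huI]
      cases hxu : x u <;> cases hyu : y u <;> simp_all
    have h2 : C.nodeVal (fl I0 x) (out j) = C.nodeVal y (out j) := by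
      apply hd _ y hfx hy
      intro i hi
      rw [hall i hi]
      unfold fl
      rw [if_pos huI]
      cases hxu : x u <;> cases hyu : y u <;> simp_all
    rw [h1, h2, add_comm]

open Classical in
theorem many {m n T h : ℕ} (C : Circuit (Fin m)) (out : Fin n → Fin m ⊕ Fin C.size)
    (z : Fin m → Bool) (I0 : Finset (Fin m))
    (H : ∀ j, ∃ U : Finset (Fin m), U.card ≤ 1 ∧ ∀ x y : Fin m → Bool,
        (∀ i, i ∉ I0 → x i = z i) → (∀ i, i ∉ I0 → y i = z i) → (∀ i ∈ U, x i = y i) →
        C.nodeVal x (out j) = C.nodeVal y (out j))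
    (A : Set ℕ) (hA : ∀ x, value C out x ∈ A) (hh : 2 ≤ h)
    (hT : ∀ v : ℕ, (univ.filter fun x => value C out x = v).card ≤ T) :
    ∃ N, N < h * 2 ^ n ∧ 2 ^ I0.card ≤ 2 * T * rep A h N := by
  set a := value C out z with ha
  set N := a + value C out (fl I0 z) + (h - 2) * a with hN
  refine ⟨N, ?_, ?_⟩
  · have h1 := value_lt C out z
    have h2 := value_lt C out (fl I0 z)
    have h3 : N ≤ a + value C out (fl I0 z) + (h - 2) * 2 ^ n := by
      rw [hN]
      exact Nat.add_le_add_left (Nat.mul_le_mul_left _ h1.le) _
    have h4 : h * 2 ^ n = 2 ^ n + 2 ^ n + (h - 2) * 2 ^ n := by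
      obtain ⟨k, rfl⟩ := Nat.exists_eq_add_of_le hh
      rw [Nat.add_sub_cancel_left]
      ring
    omega
  · set P : Finset (Fin m → Bool) := univ.filter fun x => ∀ i, i ∉ I0 → x i = z i with hP
    have hPc : 2 ^ I0.card ≤ P.card := by
      rw [← Finset.card_powerset]
      apply Finset.card_le_card_of_injOn
        (fun S : Finset (Fin m) => fun i => if i ∈ I0 then decide (i ∈ S) else z i)
      · intro S _
        rw [hP, Finset.coe_filter]
        refine ⟨Finset.mem_univ _, fun i hi => ?_⟩
        simp [hi]
      · intro S hS S' hS' he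
        have hS1 : S ⊆ I0 := by simpa using hS
        have hS2 : S' ⊆ I0 := by simpa using hS'
        ext i
        by_cases hi : i ∈ I0
        · have := congrFun he i
          simpa [hi] using this
        · exact ⟨fun h => absurd (hS1 h) hi, fun h => absurd (hS2 h) hi⟩
    set M : (Fin m → Bool) → Multiset ℕ := fun x =>
      Multiset.replicate (h - 2) a + {value C out x, value C out (fl I0 x)} with hM
    have hfib : ∀ s ∈ P.image M, (P.filter fun x => M x = s).card ≤ 2 * T := by
      intro s hs
      obtain ⟨x0, hx0, rfl⟩ := Finset.mem_image.1 hs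
      have hsub : (P.filter fun x => M x = M x0) ⊆
          (univ.filter fun x => value C out x = value C out x0) ∪
          (univ.filter fun x => value C out x = value C out (fl I0 x0)) := by
        intro x hx
        have h1 := (Finset.mem_filter.1 hx).2
        rw [hM] at h1
        have h2 : ({value C out x, value C out (fl I0 x)} : Multiset ℕ) =
            {value C out x0, value C out (fl I0 x0)} := add_left_cancel h1
        have h3 : value C out x ∈ ({value C out x0, value C out (fl I0 x0)} : Multiset ℕ) := by
          rw [← h2]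
          simp
        rw [Finset.mem_union, Finset.mem_filter, Finset.mem_filter]
        simpa using h3
      refine (Finset.card_le_card hsub).trans ((Finset.card_union_le _ _).trans ?_)
      have := hT (value C out x0)
      have := hT (value C out (fl I0 x0))
      omega
    have h1 := Finset.card_le_mul_card_image (f := M) P (2 * T) hfib
    have h2 : (P.image M).card ≤ rep A h N := by
      have h3 : ((P.image M : Finset (Multiset ℕ)) : Set (Multiset ℕ)) ⊆
          Pool.Agent.W167.ET.msets A h N := by
        intro s hs
        obtain ⟨x, hx, rfl⟩ := Finset.mem_image.1 (Finset.mem_coe.1 hs)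
        have hxz : ∀ i, i ∉ I0 → x i = z i := (Finset.mem_filter.1 hx).2
        refine ⟨?_, ?_, ?_⟩
        · rw [hM]
          simp
          omega
        · intro b hb
          rw [hM] at hb
          rcases Multiset.mem_add.1 hb with hb | hb
          · rw [Multiset.eq_of_mem_replicate hb]
            exact hA z
          · have hb' : b = value C out x ∨ b = value C out (fl I0 x) := by simpa using hb
            rcases hb' with rfl | rfl
            · exact hA _
            · exact hA _
        · rw [hM]
          simp only [Multiset.sum_add, Multiset.sum_replicate, smul_eq_mul,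
            Multiset.insert_eq_cons, Multiset.sum_cons, Multiset.sum_singleton]
          have := value_pair C out z I0 H x z hxz (fun _ _ => rfl)
          rw [this, hN]
          ring
      have h4 := Set.ncard_le_ncard h3 (Pool.Agent.W167.ET.msets_finite A h N)
      rw [Set.ncard_coe_finset] at h4
      exact h4
    calc 2 ^ I0.card ≤ P.card := hPc
      _ ≤ 2 * T * (P.image M).card := h1
      _ ≤ 2 * T * rep A h N := Nat.mul_le_mul_left _ h2

end Pool.Agent.R532.Et
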