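import Pool.Agent.TH700.PA.Density
import Pool.Agent.TH700.PA.Count

/-!
# Random networks: partitions which are balanced on a set of variables
-/

set_option autoImplicit false

open Finset

namespace Pool.Agent.R532.Ju

open Pool.Agent.TH700.PA

variable {V K Al : Type} [Fintype V] [DecidableEq V]

/-- The bound for random networks. -/
theorem rand_densityE (μ : ℕ) (R : Type) [Fintype R] [Nonempty R]
    (K W : R → Type) [∀ ρ, Field (K ρ)] [∀ ρ, Fintype (W ρ)]
    (T : ∀ ρ, Net (K ρ) V Al (W ρ)) (a : ∀ ρ, W ρ → K ρ) (h1 : ∀ ρ v, (T ρ).reads v ≤ 1)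
    (E : Finset V) {θ t : ℕ} (hθ : 1 ≤ θ) (ht1 : 1 ≤ t) (hE : 2 * E.card + θ ≤ θ * t)
    {U : Type} [Fintype U] [Nonempty U] (z : U → V → Al) (Y : Finset U) {η : ℕ}
    (hY : Fintype.card U ≤ 2 ^ η * Y.card)
    (hc : ∀ A ∈ Y, Nat.card R ≤ 2 ^ μ * Nat.card {ρ // (T ρ).value (a ρ) (z A) ≠ 0})
    {N : ℕ} (hmix : ∀ (ρ : R) (p : V → Fin t),
      (∀ j, (E.filter (fun v => p v = j)).card ≤ 2 * θ) → ∃ B : Finset (Fin t → U),
        (∀ b, (T ρ).value (a ρ) (mixp p z b) ≠ 0 → b ∈ B) ∧ B.card * N ≤ Fintype.card U ^ t) :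
    ∃ ρ, N ≤ (2 ^ (μ + η + 1) * (t * Fintype.card (W ρ) ^ 3)) ^ (t + 1) ∧
      1 ≤ Fintype.card (W ρ) := by
  classical
  -- a network which accepts many patterns
  obtain ⟨ρ, hρ⟩ : ∃ ρ : R, Y.card ≤ 2 ^ μ *
      (univ.filter (fun A : U => (T ρ).value (a ρ) (z A) ≠ 0)).card := by
    by_contra hcon
    push Not at hcon
    have h3 : ∑ ρ : R, 2 ^ μ * (univ.filter (fun A : U => (T ρ).value (a ρ) (z A) ≠ 0)).card <
        Fintype.card R * Y.card := by
      calc _ < ∑ _ρ : R, Y.card := sum_lt_sum_of_nonempty univ_nonempty (fun ρ _ => hcon ρ)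
        _ = _ := by rw [sum_const, card_univ, smul_eq_mul]
    have h4 : Fintype.card R * Y.card ≤ ∑ ρ : R, 2 ^ μ *
        (univ.filter (fun A : U => (T ρ).value (a ρ) (z A) ≠ 0)).card := by
      have h5 : ∑ ρ : R, (univ.filter (fun A : U => (T ρ).value (a ρ) (z A) ≠ 0)).card =
          ∑ A : U, (univ.filter (fun ρ : R => (T ρ).value (a ρ) (z A) ≠ 0)).card := by
        simp only [card_filter]
        exact sum_comm
      rw [← mul_sum, h5, mul_sum, mul_comm, ← smul_eq_mul, ← sum_const]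
      refine le_trans (sum_le_sum (fun A hA => ?_)) (sum_le_sum_of_subset (subset_univ Y))
      have h6 := hc A hA
      rw [Nat.card_eq_fintype_card, Nat.card_eq_fintype_card, Fintype.card_subtype] at h6
      exact h6
    omega
  obtain ⟨S, hS⟩ : ∃ S, S = univ.filter (fun A : U => (T ρ).value (a ρ) (z A) ≠ 0) := ⟨_, rfl⟩
  rw [← hS] at hρ
  have hYpos : 0 < Y.card := by
    rcases Nat.eq_zero_or_pos Y.card with h0 | h0
    · rw [h0, mul_zero] at hY
      have := Fintype.card_pos (α := U)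
      omega
    · exact h0
  have hSpos : 0 < S.card := by
    rcases Nat.eq_zero_or_pos S.card with h0 | h0
    · rw [h0, mul_zero] at hρ
      omega
    · exact h0
  have hW : Nonempty (W ρ) := by
    by_contra hW
    rw [not_nonempty_iff] at hW
    obtain ⟨A, hA⟩ := card_pos.1 hSpos
    rw [hS] at hA
    refine (mem_filter.1 hA).2 ?_
    unfold Net.value
    simp
  obtain ⟨w, hw⟩ : ∃ w, w = Fintype.card (W ρ) := ⟨_, rfl⟩
  have hw1 : 1 ≤ w := by
    rw [hw]
    exact Fintype.card_pos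
  refine ⟨ρ, ?_, Fintype.card_pos⟩
  -- the partition
  obtain ⟨T', g1, g2, -⟩ := exists_ext (T ρ) (h1 ρ)
  have hval : ∀ x, T'.value (a ρ) x = (T ρ).value (a ρ) x := by
    intro x
    unfold Net.value
    rw [g2]
  have hR : ∀ A ∈ cutsv T', Rk w (fun x => (T ρ).value (a ρ) x) A := by
    intro A hA
    have h2 := rk_of_cut (cutsv_cut T' (a ρ) (fun v => (g1 v).le) A hA)
    have h3 : (fun x => T'.value (a ρ) x) = fun x => (T ρ).value (a ρ) x := funext hval
    rwa [h3, ← hw] at h2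
  obtain ⟨P, q1, q2, q3⟩ := exists_parts hw1 E hθ T' g1 hR hE
  choose p hp using q3
  have hpP : ∀ j, univ.filter (fun v => p v = j) = P j := by
    intro j
    ext v
    rw [mem_filter]
    constructor
    · rintro ⟨-, h⟩
      rw [← h]
      exact hp v
    · intro hv
      refine ⟨mem_univ v, ?_⟩
      by_contra hne
      exact disjoint_left.1 (q2 _ _ hne) (hp v) hv
  obtain ⟨B, hB1, hB2⟩ := hmix ρ p (fun j => by
    have h2 : E.filter (fun v => p v = j) = E ∩ P j := by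
      rw [← hpP]
      ext v
      rw [mem_filter, mem_inter, mem_filter]
      exact ⟨fun h => ⟨h.1, mem_univ _, h.2⟩, fun h => ⟨h.1, h.2.2⟩⟩
    rw [h2]
    exact (q1 j).2.2)
  obtain ⟨d, hd⟩ : ∃ d, d = w ^ 3 := ⟨_, rfl⟩
  have hd1 : 1 ≤ d := by
    rw [hd]
    exact Nat.pow_pos hw1
  obtain ⟨M, hM⟩ : ∃ M, M = 2 ^ (μ + η + 1) * (t * d) := ⟨_, rfl⟩
  have hM1 : 1 ≤ M := by
    rw [hM]
    exact Nat.mul_pos (Nat.pow_pos (by norm_num)) (Nat.mul_pos ht1 hd1)
  have hdens := density (f := fun x => (T ρ).value (a ρ) x) (d := d) p (fun j => by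
    rw [hpP]
    have h2 := (q1 j).2.1
    have h3 : w * (w * w) = d := by rw [hd]; ring
    rwa [h3] at h2) z hM1
  rw [← hS] at hdens
  have hu : (0 : ℝ) < Fintype.card U := by exact_mod_cast Fintype.card_pos
  obtain ⟨u, hu'⟩ : ∃ u, u = (Fintype.card U : ℝ) := ⟨_, rfl⟩
  rw [← hu'] at hu hdens
  have hBr : ((univ.filter (fun b : Fin t → U => (T ρ).value (a ρ) (mixp p z b) ≠ 0)).card : ℝ) /
      u ^ t * N ≤ 1 := by
    have e1 : (univ.filter (fun b : Fin t → U => (T ρ).value (a ρ) (mixp p z b) ≠ 0)).card ≤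
        B.card := card_le_card fun b hb => hB1 b (mem_filter.1 hb).2
    have e2 : ((univ.filter (fun b : Fin t → U => (T ρ).value (a ρ) (mixp p z b) ≠ 0)).card : ℝ) *
        N ≤ u ^ t := by
      rw [hu']
      exact_mod_cast (Nat.mul_le_mul_right N e1).trans hB2
    rw [div_mul_eq_mul_div, div_le_one (pow_pos hu t)]
    exact e2
  have hden2 : 1 / (2 : ℝ) ^ (μ + η) ≤ (S.card : ℝ) / u := by
    rw [div_le_div_iff₀ (by positivity) hu]
    have e1 : Fintype.card U ≤ 2 ^ η * (2 ^ μ * S.card) := hY.trans (Nat.mul_le_mul_left _ hρ)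
    have e2 : u ≤ 2 ^ η * (2 ^ μ * S.card) := by
      rw [hu']
      exact_mod_cast e1
    rw [one_mul]
    refine e2.trans (le_of_eq ?_)
    rw [pow_add]
    ring
  have hM0 : (0 : ℝ) < M := by exact_mod_cast hM1
  have htd : (t : ℝ) * d / M = 1 / 2 ^ (μ + η + 1) := by
    have ht0 : (t : ℝ) ≠ 0 := by exact_mod_cast (by omega : t ≠ 0)
    have hd0 : (d : ℝ) ≠ 0 := by exact_mod_cast (by omega : d ≠ 0)
    rw [hM]
    push_cast
    field_simp
  have hfin : 1 / (2 : ℝ) ^ (μ + η + 1) ≤ M ^ t *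
      (((univ.filter (fun b : Fin t → U => (T ρ).value (a ρ) (mixp p z b) ≠ 0)).card : ℝ) /
          u ^ t) := by
    have e1 := hden2.trans hdens
    rw [htd] at e1
    have e2 : 1 / (2 : ℝ) ^ (μ + η) = 1 / 2 ^ (μ + η + 1) + 1 / 2 ^ (μ + η + 1) := by
      rw [pow_succ]
      field_simp
      norm_num
    linarith
  have hN : (N : ℝ) * (1 / (2 : ℝ) ^ (μ + η + 1)) ≤ M ^ t := by
    calc (N : ℝ) * (1 / (2 : ℝ) ^ (μ + η + 1)) ≤ N * (M ^ t *
        (((univ.filter (fun b : Fin t → U => (T ρ).value (a ρ) (mixp p z b) ≠ 0)).card : ℝ) /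
          u ^ t)) := mul_le_mul_of_nonneg_left hfin (Nat.cast_nonneg _)
      _ = M ^ t * ((((univ.filter (fun b : Fin t → U =>
          (T ρ).value (a ρ) (mixp p z b) ≠ 0)).card : ℝ) / u ^ t) * N) := by ring
      _ ≤ M ^ t * 1 := mul_le_mul_of_nonneg_left hBr (by positivity)
      _ = _ := mul_one _
  have hN2 : (N : ℝ) ≤ (M : ℝ) ^ t * 2 ^ (μ + η + 1) := by
    rw [mul_one_div, div_le_iff₀ (by positivity)] at hN
    exact hN
  have hN3 : N ≤ M ^ t * 2 ^ (μ + η + 1) := by exact_mod_cast hN2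
  rw [← hw, ← hd, ← hM, pow_succ]
  refine hN3.trans (Nat.mul_le_mul_left _ ?_)
  rw [hM]
  exact Nat.le_mul_of_pos_right _ (Nat.mul_pos ht1 hd1)

end Pool.Agent.R532.Ju
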