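import Mathlib.Analysis.Complex.Exponential
import Mathlib.Algebra.BigOperators.Ring.Finset
import Mathlib.Algebra.BigOperators.Field
import Mathlib.Algebra.Order.Chebyshev
import Mathlib.Data.Fintype.BigOperators
import Mathlib.Tactic.FieldSimp
import Mathlib.Tactic.Positivity
import Mathlib.Tactic.Linarith

/-!
# Hypotheses for mixtures of samples labelled by parities
-/

set_option autoImplicit false

open Finset

namespace Pool.Agent.R532.Ju

variable {k h t N : ℕ}

/-- The attributes: `k` groups of `h` attributes. -/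
abbrev At (k h : ℕ) : Type := Fin k × Fin h

/-- The parity of the attributes `(a, A a)`. -/
def parity (A : Fin k → Fin h) (x : At k h → Bool) : Bool :=
  decide (Odd (univ.filter (fun a => x (a, A a) = true)).card)

/-- The character. -/
noncomputable def chi (A : Fin k → Fin h) (x : At k h → Bool) : ℝ :=
  ∏ a, (if x (a, A a) = true then -1 else 1)

/-- The sign of a bit. -/
noncomputable def sgn (b : Bool) : ℝ := if b = true then -1 else 1

theorem sgn_mul_self (b : Bool) : sgn b * sgn b = 1 := by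
  unfold sgn
  split_ifs <;> norm_num

theorem sgn_parity (A : Fin k → Fin h) (x : At k h → Bool) : sgn (parity A x) = chi A x := by
  have h1 : chi A x = (-1) ^ (univ.filter (fun a => x (a, A a) = true)).card := by
    unfold chi
    rw [prod_ite, prod_const, prod_const_one, mul_one]
  rw [h1]
  unfold sgn parity
  rcases Nat.even_or_odd (univ.filter (fun a => x (a, A a) = true)).card with h2 | h2
  · rw [h2.neg_one_pow, if_neg]
    rw [decide_eq_true_eq, Nat.not_odd_iff_even]
    exact h2
  · rw [h2.neg_one_pow, if_pos]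
    rw [decide_eq_true_eq]
    exact h2

theorem agree_eq (a b : Bool) : (if a = b then (1 : ℝ) else 0) = (1 + sgn a * sgn b) / 2 := by
  unfold sgn
  rcases a with _ | _ <;> rcases b with _ | _ <;> norm_num

/-- Change one bit. -/
def flip (l : At k h) (x : At k h → Bool) : At k h → Bool := Function.update x l (!x l)

theorem flip_flip (l : At k h) (x : At k h → Bool) : flip l (flip l x) = x := by
  unfold flip
  funext m
  by_cases hm : m = l
  · subst hm
    simp
  · simp [hm]

theorem flip_ne {l m : At k h} (hm : m ≠ l) (x : At k h → Bool) : flip l x m = x m := by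
  unfold flip
  rw [Function.update_of_ne hm]

theorem flip_self (l : At k h) (x : At k h → Bool) : flip l x l = !x l := by
  unfold flip
  rw [Function.update_self]

theorem chi_flip (A : Fin k → Fin h) (a : Fin k) (x : At k h → Bool) :
    chi A (flip (a, A a) x) = - chi A x := by
  unfold chi
  rw [← mul_prod_erase univ _ (mem_univ a), ← mul_prod_erase univ (fun a' =>
    (if x (a', A a') = true then (-1 : ℝ) else 1)) (mem_univ a), flip_self]
  have h1 : ∏ a' ∈ univ.erase a, (if flip (a, A a) x (a', A a') = true then (-1 : ℝ) else 1) =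
      ∏ a' ∈ univ.erase a, (if x (a', A a') = true then (-1 : ℝ) else 1) := by
    refine prod_congr rfl fun a' ha' => ?_
    rw [flip_ne]
    intro h2
    exact (ne_of_mem_erase ha') (Prod.ext_iff.1 h2).1
  rw [h1]
  rcases hx : x (a, A a) with _ | _ <;> simp

theorem chi_flip_ne (A : Fin k → Fin h) (l : At k h) (hl : ∀ a, (a, A a) ≠ l)
    (x : At k h → Bool) : chi A (flip l x) = chi A x := by
  unfold chi
  refine prod_congr rfl fun a _ => ?_
  rw [flip_ne (hl a)]

theorem chi_sq (A : Fin k → Fin h) (x : At k h → Bool) : chi A x * chi A x = 1 := by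
  rw [← sgn_parity]
  exact sgn_mul_self _

theorem sum_flip (l : At k h) (G : (At k h → Bool) → ℝ) : ∑ x, G (flip l x) = ∑ x, G x :=
  Equiv.sum_comp (Function.Involutive.toPerm (flip l) (flip_flip l)) G

theorem chi_orth {A A' : Fin k → Fin h} (hA : A ≠ A') : ∑ x, chi A x * chi A' x = 0 := by
  obtain ⟨a, ha⟩ := Function.ne_iff.1 hA
  have h1 := sum_flip (a, A a) (fun x => chi A x * chi A' x)
  have h2 : ∀ x, chi A (flip (a, A a) x) * chi A' (flip (a, A a) x) = -(chi A x * chi A' x) := by
    intro x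
    rw [chi_flip, chi_flip_ne A' (a, A a)]
    · ring
    · intro a' h3
      have h4 := Prod.ext_iff.1 h3
      simp only at h4
      obtain ⟨rfl, h5⟩ := h4
      exact ha h5.symm
  simp only [h2, sum_neg_distrib] at h1
  linarith

/-- The Fourier coefficient. -/
noncomputable def coef (F : (At k h → Bool) → ℝ) (A : Fin k → Fin h) : ℝ :=
  (∑ y, F y * chi A y) / Fintype.card (At k h → Bool)

theorem card_pos' : (0 : ℝ) < Fintype.card (At k h → Bool) := by
  exact_mod_cast Fintype.card_pos

/-- Bessel's inequality, dual form. -/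
theorem bessel (A : Fin t → Fin k → Fin h) (hA : Function.Injective A)
    (F : (At k h → Bool) → ℝ) (hF : ∀ y, F y * F y = 1) (c : Fin t → ℝ) :
    (∑ j, c j * coef F (A j)) ^ 2 ≤ ∑ j, c j ^ 2 := by
  obtain ⟨Ω, hΩ⟩ : ∃ Ω : ℝ, Ω = Fintype.card (At k h → Bool) := ⟨_, rfl⟩
  have hΩ0 : 0 < Ω := by rw [hΩ]; exact card_pos'
  have h1 : ∑ j, c j * coef F (A j) = (∑ y, F y * ∑ j, c j * chi (A j) y) / Ω := by
    unfold coef
    rw [← hΩ]
    rw [sum_congr rfl fun y _ => mul_sum univ (fun j => c j * chi (A j) y) (F y), sum_comm,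
      sum_div]
    refine sum_congr rfl fun j _ => ?_
    rw [← mul_div_assoc, mul_sum]
    congr 1
    refine sum_congr rfl fun y _ => ?_
    ring
  have h2 : ∑ y, (∑ j, c j * chi (A j) y) ^ 2 = Ω * ∑ j, c j ^ 2 := by
    have e1 : ∀ y, (∑ j, c j * chi (A j) y) ^ 2 =
        ∑ i, ∑ j, (c i * c j) * (chi (A i) y * chi (A j) y) := by
      intro y
      rw [sq, sum_mul_sum]
      refine sum_congr rfl fun i _ => sum_congr rfl fun j _ => ?_
      ring
    rw [sum_congr rfl fun y _ => e1 y, sum_comm, mul_sum]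
    refine sum_congr rfl fun i _ => ?_
    rw [sum_comm, sum_eq_single i]
    · rw [← mul_sum, sum_congr rfl fun y _ => chi_sq (A i) y, sum_const, card_univ, nsmul_eq_mul,
        mul_one, ← hΩ]
      ring
    · intro j _ hj
      rw [← mul_sum, chi_orth (fun h => hj (hA h).symm), mul_zero]
    · intro hi
      exact absurd (mem_univ i) hi
  have h3 : (∑ y, F y * ∑ j, c j * chi (A j) y) ^ 2 ≤ Ω * (Ω * ∑ j, c j ^ 2) := by
    refine (sum_mul_sq_le_sq_mul_sq univ F _).trans (le_of_eq ?_)
    rw [h2]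
    congr 1
    rw [sum_congr rfl fun y _ => (by rw [sq]; exact hF y : F y ^ 2 = 1), sum_const, card_univ,
      nsmul_eq_mul, mul_one, ← hΩ]
  rw [h1, div_pow, div_le_iff₀ (by positivity)]
  linarith

/-- The mixture of the rows of the parts. -/
def mixr (π : At k h → Fin t) (ξ : Fin t → At k h → Bool) : At k h → Bool := fun l => ξ (π l) l

theorem sum_mixr (π : At k h → Fin t) (G : (At k h → Bool) → ℝ) :
    Fintype.card (At k h → Bool) * ∑ ξ, G (mixr π ξ) =
      Fintype.card (Fin t → At k h → Bool) * ∑ y, G y := by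
  let sh : (At k h → Bool) → (Fin t → At k h → Bool) → (Fin t → At k h → Bool) :=
    fun y ξ j l => xor (ξ j l) (y l)
  have hsh : ∀ y, Function.Involutive (sh y) := by
    intro y ξ
    funext j l
    simp only [sh]
    rcases ξ j l with _ | _ <;> rcases y l with _ | _ <;> rfl
  have h1 : ∀ y : At k h → Bool, ∑ ξ, G (mixr π ξ) = ∑ ξ, G (fun l => xor (mixr π ξ l) (y l)) := by
    intro y
    exact (Equiv.sum_comp (Function.Involutive.toPerm (sh y) (hsh y))
      (fun ξ => G (mixr π ξ))).symm
  have h2 : ∀ z : At k h → Bool, ∑ y : At k h → Bool, G (fun l => xor (z l) (y l)) = ∑ y, G y := by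
    intro z
    refine Equiv.sum_comp (Function.Involutive.toPerm (fun (y : At k h → Bool) l =>
      xor (z l) (y l)) ?_) G
    intro y
    funext l
    change xor (z l) (xor (z l) (y l)) = y l
    rcases z l with _ | _ <;> rcases y l with _ | _ <;> rfl
  calc (Fintype.card (At k h → Bool) : ℝ) * ∑ ξ, G (mixr π ξ) =
      ∑ _y : At k h → Bool, ∑ ξ, G (mixr π ξ) := by
        rw [sum_const, card_univ, nsmul_eq_mul]
    _ = ∑ y : At k h → Bool, ∑ ξ, G (fun l => xor (mixr π ξ l) (y l)) :=
        sum_congr rfl fun y _ => h1 y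
    _ = ∑ ξ : Fin t → At k h → Bool, ∑ y : At k h → Bool,
        G (fun l => xor (mixr π ξ l) (y l)) := sum_comm
    _ = ∑ _ξ : Fin t → At k h → Bool, ∑ y, G y := sum_congr rfl fun ξ _ => h2 _
    _ = _ := by rw [sum_const, card_univ, nsmul_eq_mul]

theorem sum_mixr_zero (A : Fin k → Fin h) (π : At k h → Fin t) (j : Fin t) (a : Fin k)
    (ha : π (a, A a) ≠ j) (G : (At k h → Bool) → ℝ) :
    ∑ ξ : Fin t → At k h → Bool, G (mixr π ξ) * chi A (ξ j) = 0 := by
  let fl : (Fin t → At k h → Bool) → (Fin t → At k h → Bool) :=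
    fun ξ => Function.update ξ j (flip (a, A a) (ξ j))
  have hfl : Function.Involutive fl := by
    intro ξ
    simp only [fl]
    rw [Function.update_idem, Function.update_self, flip_flip, Function.update_eq_self]
  have h1 := Equiv.sum_comp (Function.Involutive.toPerm fl hfl)
    (fun ξ => G (mixr π ξ) * chi A (ξ j))
  have h2 : ∀ ξ, G (mixr π (fl ξ)) * chi A ((fl ξ) j) = -(G (mixr π ξ) * chi A (ξ j)) := by
    intro ξ
    have e1 : mixr π (fl ξ) = mixr π ξ := by
      funext l
      unfold mixr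
      simp only [fl]
      by_cases hl : π l = j
      · rw [hl, Function.update_self, flip_ne]
        rintro rfl
        exact ha hl
      · rw [Function.update_of_ne hl]
    have e2 : (fl ξ) j = flip (a, A a) (ξ j) := by
      simp only [fl]
      rw [Function.update_self]
    rw [e1, e2, chi_flip]
    ring
  have h3 : ∑ ξ, G (mixr π (fl ξ)) * chi A ((fl ξ) j) = ∑ ξ, G (mixr π ξ) * chi A (ξ j) := h1
  rw [sum_congr rfl fun ξ _ => h2 ξ, sum_neg_distrib] at h3
  linarith

open Classical in
/-- The correlation of a row. -/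
noncomputable def rho (A : Fin t → Fin k → Fin h) (F : (At k h → Bool) → ℝ)
    (π : At k h → Fin t) (j : Fin t) : ℝ :=
  if ∀ a, π (a, A j a) = j then coef F (A j) else 0

/-- The mean of a row. -/
theorem row_mean (A : Fin t → Fin k → Fin h) (f : (At k h → Bool) → Bool)
    (π : At k h → Fin t) (j : Fin t) :
    ∑ ξ : Fin t → At k h → Bool, (if f (mixr π ξ) = parity (A j) (ξ j) then (1 : ℝ) else 0) =
      Fintype.card (Fin t → At k h → Bool) * ((1 + rho A (fun y => sgn (f y)) π j) / 2) := by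
  have h1 : ∀ ξ : Fin t → At k h → Bool,
      (if f (mixr π ξ) = parity (A j) (ξ j) then (1 : ℝ) else 0) =
        1 / 2 + (sgn (f (mixr π ξ)) * chi (A j) (ξ j)) / 2 := by
    intro ξ
    rw [agree_eq, sgn_parity]
    ring
  rw [sum_congr rfl fun ξ _ => h1 ξ, sum_add_distrib, sum_const, card_univ, nsmul_eq_mul,
    ← sum_div]
  have h2 : ∑ ξ : Fin t → At k h → Bool, sgn (f (mixr π ξ)) * chi (A j) (ξ j) =
      Fintype.card (Fin t → At k h → Bool) * rho A (fun y => sgn (f y)) π j := by
    unfold rho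
    split_ifs with hc
    · have e1 : ∀ ξ : Fin t → At k h → Bool, sgn (f (mixr π ξ)) * chi (A j) (ξ j) =
          (fun y => sgn (f y) * chi (A j) y) (mixr π ξ) := by
        intro ξ
        have e2 : chi (A j) (ξ j) = chi (A j) (mixr π ξ) := by
          unfold chi mixr
          refine prod_congr rfl fun a _ => ?_
          rw [hc a]
        simp only [e2]
      rw [sum_congr rfl fun ξ _ => e1 ξ]
      have e3 := sum_mixr π (fun y => sgn (f y) * chi (A j) y)
      have hΩ := card_pos' (k := k) (h := h)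
      unfold coef
      rw [mul_div_assoc', eq_div_iff hΩ.ne', mul_comm]
      exact e3
    · push Not at hc
      obtain ⟨a, ha⟩ := hc
      rw [mul_zero]
      exact sum_mixr_zero (A j) π j a ha (fun y => sgn (f y))
  rw [h2]
  ring

open Classical in
/-- The sum of the correlations. -/
theorem sum_rho (A : Fin t → Fin k → Fin h) (hA : Function.Injective A)
    (F : (At k h → Bool) → ℝ) (hF : ∀ y, F y * F y = 1) (π : Fin N → At k h → Fin t)
    (jj : Fin N → Fin t) {M : ℕ} (hM : ∀ j, (univ.filter (fun i => jj i = j)).card ≤ M) :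
    (∑ i, rho A F (π i) (jj i)) ^ 2 ≤ M * N := by
  obtain ⟨S, hS⟩ : ∃ S : Fin t → Finset (Fin N),
      S = fun j => univ.filter (fun i => jj i = j ∧ ∀ a, π i (a, A j a) = j) := ⟨_, rfl⟩
  have h1 : ∑ i, rho A F (π i) (jj i) = ∑ j, ((S j).card : ℝ) * coef F (A j) := by
    have e1 : ∀ i, rho A F (π i) (jj i) = ∑ j, if i ∈ S j then coef F (A j) else 0 := by
      intro i
      rw [sum_eq_single (jj i)]
      · rw [hS]
        unfold rho
        simp only [mem_filter, mem_univ, true_and]
      · intro j _ hj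
        rw [if_neg]
        rw [hS]
        simp only [mem_filter, mem_univ, true_and]
        rintro ⟨h2, -⟩
        exact hj h2.symm
      · intro h2
        exact absurd (mem_univ _) h2
    rw [sum_congr rfl fun i _ => e1 i, sum_comm]
    refine sum_congr rfl fun j _ => ?_
    rw [← sum_filter, sum_const, nsmul_eq_mul]
    congr 3
    ext i
    simp
  rw [h1]
  refine (bessel A hA F hF _).trans ?_
  have h2 : ∀ j, ((S j).card : ℝ) ≤ (univ.filter (fun i => jj i = j)).card := by
    intro j
    have : S j ⊆ univ.filter (fun i => jj i = j) := by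
      intro i hi
      rw [hS] at hi
      exact mem_filter.2 ⟨mem_univ _, (mem_filter.1 hi).2.1⟩
    exact_mod_cast card_le_card this
  have h3 : ∑ j, (((univ.filter (fun i => jj i = j)).card : ℕ) : ℝ) = N := by
    have h4 := card_eq_sum_card_fiberwise (s := (univ : Finset (Fin N))) (f := jj) (t := univ)
      (fun _ _ => mem_univ _)
    rw [card_univ, Fintype.card_fin] at h4
    exact_mod_cast h4.symm
  calc ∑ j, ((S j).card : ℝ) ^ 2 ≤
      ∑ j, (M : ℝ) * (((univ.filter (fun i => jj i = j)).card : ℕ) : ℝ) := by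
        refine sum_le_sum fun j _ => ?_
        rw [sq]
        have h5 : ((S j).card : ℝ) ≤ M := (h2 j).trans (by exact_mod_cast hM j)
        exact mul_le_mul h5 (h2 j) (Nat.cast_nonneg _) (Nat.cast_nonneg _)
    _ = M * N := by rw [← mul_sum, h3]

open Classical in
/-- The number of the samples with large agreement. -/
theorem few_agree (A : Fin t → Fin k → Fin h) (hA : Function.Injective A)
    (f : (At k h → Bool) → Bool) (π : Fin N → At k h → Fin t) (jj : Fin N → Fin t) {M g : ℕ}
    (hg : 1 ≤ g) (hM : ∀ j, (univ.filter (fun i => jj i = j)).card ≤ M) (hMg : M * g ^ 2 ≤ N) :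
    (univ.filter (fun x : Fin N → Fin t → At k h → Bool => (g + 2) * N < 2 * g *
      (univ.filter (fun i => f (mixr (π i) (x i)) = parity (A (jj i)) (x i (jj i)))).card)).card *
        2 ^ (N / (16 * g ^ 2)) ≤ Fintype.card (Fin N → Fin t → At k h → Bool) := by
  obtain ⟨B, hB⟩ : ∃ B, B = univ.filter (fun x : Fin N → Fin t → At k h → Bool =>
      (g + 2) * N < 2 * g * (univ.filter (fun i =>
        f (mixr (π i) (x i)) = parity (A (jj i)) (x i (jj i)))).card) := ⟨_, rfl⟩
  rw [← hB]
  have hg0 : (0 : ℝ) < g := by exact_mod_cast hg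
  have hg1 : (1 : ℝ) ≤ g := by exact_mod_cast hg
  obtain ⟨γ, hγ⟩ : ∃ γ : ℝ, γ = 1 / g := ⟨_, rfl⟩
  have hγ0 : 0 < γ := by rw [hγ]; positivity
  have hγ1 : γ ≤ 1 := by
    rw [hγ, div_le_one hg0]
    exact hg1
  obtain ⟨lam, hlam⟩ : ∃ lam : ℝ, lam = γ / 4 := ⟨_, rfl⟩
  have hlam0 : 0 < lam := by rw [hlam]; positivity
  have hlam1 : lam ≤ 1 := by rw [hlam]; linarith
  obtain ⟨Ξ, hΞ⟩ : ∃ Ξ : ℝ, Ξ = Fintype.card (Fin t → At k h → Bool) := ⟨_, rfl⟩
  have hΞ0 : 0 < Ξ := by
    rw [hΞ]
    exact_mod_cast Fintype.card_pos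
  let ag : Fin N → (Fin t → At k h → Bool) → ℝ := fun i ξ =>
    if f (mixr (π i) ξ) = parity (A (jj i)) (ξ (jj i)) then (1 : ℝ) else 0
  let F : (At k h → Bool) → ℝ := fun y => sgn (f y)
  obtain ⟨sr, hsr⟩ : ∃ sr : ℝ, sr = ∑ i, rho A F (π i) (jj i) := ⟨_, rfl⟩
  have hsum : sr ≤ γ * N := by
    have e1 := sum_rho A hA F (fun y => sgn_mul_self _) π jj hM
    rw [← hsr] at e1
    have e2 : (M : ℝ) * N ≤ (γ * N) ^ 2 := by
      have e3 : (M : ℝ) * g ^ 2 ≤ N := by exact_mod_cast hMg
      have e4 : (M : ℝ) ≤ γ ^ 2 * N := by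
        rw [hγ, one_div, inv_pow, ← div_eq_inv_mul, le_div_iff₀ (by positivity)]
        exact e3
      calc (M : ℝ) * N ≤ (γ ^ 2 * N) * N := mul_le_mul_of_nonneg_right e4 (Nat.cast_nonneg _)
        _ = _ := by ring
    exact abs_le_of_sq_le_sq' (e1.trans e2) (by positivity) |>.2
  -- the exponential moment
  have hexp : Real.exp lam - 1 ≤ lam + lam ^ 2 := by
    have e1 := Real.abs_exp_sub_one_sub_id_le (x := lam) (by rw [abs_of_pos hlam0]; exact hlam1)
    have e2 := (abs_le.1 e1).2
    linarith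
  have hexp0 : 0 ≤ Real.exp lam - 1 := by
    have := Real.add_one_le_exp lam
    linarith
  have hrow : ∀ i, ∑ ξ, Real.exp (lam * ag i ξ) ≤
      Ξ * Real.exp ((Real.exp lam - 1) * ((1 + rho A F (π i) (jj i)) / 2)) := by
    intro i
    have e1 : ∀ ξ, Real.exp (lam * ag i ξ) = 1 + (Real.exp lam - 1) * ag i ξ := by
      intro ξ
      simp only [ag]
      split_ifs
      · ring_nf
      · simp
    rw [sum_congr rfl fun ξ _ => e1 ξ, sum_add_distrib, ← mul_sum, sum_const, card_univ,
      nsmul_eq_mul, mul_one]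
    have e2 : ∑ ξ, ag i ξ = Ξ * ((1 + rho A F (π i) (jj i)) / 2) := by
      rw [hΞ]
      exact row_mean A f (π i) (jj i)
    rw [e2, ← hΞ]
    have e3 := Real.add_one_le_exp ((Real.exp lam - 1) * ((1 + rho A F (π i) (jj i)) / 2))
    calc Ξ + (Real.exp lam - 1) * (Ξ * ((1 + rho A F (π i) (jj i)) / 2)) =
        Ξ * ((Real.exp lam - 1) * ((1 + rho A F (π i) (jj i)) / 2) + 1) := by ring
      _ ≤ _ := mul_le_mul_of_nonneg_left e3 hΞ0.le
  have hmom : ∑ x : Fin N → Fin t → At k h → Bool, Real.exp (lam * ∑ i, ag i (x i)) ≤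
      Ξ ^ N * Real.exp ((Real.exp lam - 1) * ((N + sr) / 2)) := by
    have e1 : ∑ x : Fin N → Fin t → At k h → Bool, Real.exp (lam * ∑ i, ag i (x i)) =
        ∏ i : Fin N, ∑ ξ, Real.exp (lam * ag i ξ) := by
      rw [prod_univ_sum, Fintype.piFinset_univ]
      refine sum_congr rfl fun x _ => ?_
      rw [mul_sum, Real.exp_sum]
    rw [e1]
    calc ∏ i : Fin N, ∑ ξ, Real.exp (lam * ag i ξ) ≤
        ∏ i : Fin N, (Ξ * Real.exp ((Real.exp lam - 1) * ((1 + rho A F (π i) (jj i)) / 2))) :=
          prod_le_prod (fun i _ => sum_nonneg fun ξ _ => (Real.exp_pos _).le) fun i _ => hrow i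
      _ = _ := by
        rw [prod_mul_distrib, prod_const, card_univ, Fintype.card_fin, ← Real.exp_sum]
        congr 2
        rw [← mul_sum, ← sum_div, sum_add_distrib, sum_const, card_univ, Fintype.card_fin,
          nsmul_eq_mul, mul_one, ← hsr]
  have hmark : (B.card : ℝ) * Real.exp (lam * ((1 / 2 + γ) * N)) ≤
      Ξ ^ N * Real.exp ((Real.exp lam - 1) * ((N + sr) / 2)) := by
    refine le_trans ?_ hmom
    calc (B.card : ℝ) * Real.exp (lam * ((1 / 2 + γ) * N)) =
        ∑ _x ∈ B, Real.exp (lam * ((1 / 2 + γ) * N)) := by rw [sum_const, nsmul_eq_mul]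
      _ ≤ ∑ x ∈ B, Real.exp (lam * ∑ i, ag i (x i)) := by
          refine sum_le_sum fun x hx => Real.exp_le_exp.2
            (mul_le_mul_of_nonneg_left ?_ hlam0.le)
          rw [hB] at hx
          have e1 := (mem_filter.1 hx).2
          have e2 : ∑ i, ag i (x i) = ((univ.filter (fun i =>
              f (mixr (π i) (x i)) = parity (A (jj i)) (x i (jj i)))).card : ℝ) := by
            rw [card_filter]
            push_cast
            rfl
          rw [e2]
          obtain ⟨c, hc⟩ : ∃ c, c = (univ.filter (fun i =>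
              f (mixr (π i) (x i)) = parity (A (jj i)) (x i (jj i)))).card := ⟨_, rfl⟩
          rw [← hc] at e1 ⊢
          have e3 : ((g : ℝ) + 2) * N < 2 * g * c := by exact_mod_cast e1
          rw [hγ]
          have e4 : (1 / 2 + 1 / (g : ℝ)) * N = ((g + 2) * N) / (2 * g) := by
            field_simp
          rw [e4, div_le_iff₀ (by positivity)]
          linarith
      _ ≤ _ := sum_le_sum_of_subset_of_nonneg (subset_univ _) fun x _ _ => (Real.exp_pos _).le
  have hfin : (B.card : ℝ) ≤ Ξ ^ N * Real.exp (-(N * (γ ^ 2 / 16))) := by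
    have e1 : (Real.exp lam - 1) * ((N + sr) / 2) ≤ (lam + lam ^ 2) * ((1 + γ) * N / 2) := by
      refine mul_le_mul hexp ?_ ?_ (by positivity)
      · linarith
      · by_contra hcon
        rw [not_le] at hcon
        -- the sum of the correlations is at least `- N`
        have e2 := sum_rho A hA F (fun y => sgn_mul_self _) π jj hM
        rw [← hsr] at e2
        have e3 : (M : ℝ) * N ≤ (N : ℝ) ^ 2 := by
          have e4 : M ≤ N := le_trans (Nat.le_mul_of_pos_right _ (pow_pos hg 2)) hMg
          have e5 : (M : ℝ) ≤ N := by exact_mod_cast e4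
          nlinarith [(Nat.cast_nonneg N : (0 : ℝ) ≤ N)]
        have e6 := (abs_le_of_sq_le_sq' (e2.trans e3) (Nat.cast_nonneg N)).1
        linarith
    have e2 : (lam + lam ^ 2) * ((1 + γ) * N / 2) - lam * ((1 / 2 + γ) * N) ≤
        -(N * (γ ^ 2 / 16)) := by
      have e3 : (lam + lam ^ 2) * ((1 + γ) * N / 2) - lam * ((1 / 2 + γ) * N) =
          N * (lam ^ 2 * ((1 + γ) / 2) - lam * γ / 2) := by ring
      rw [e3]
      have e4 : lam ^ 2 * ((1 + γ) / 2) - lam * γ / 2 ≤ -(γ ^ 2 / 16) := by
        have e5 : lam ^ 2 * ((1 + γ) / 2) ≤ lam ^ 2 * 1 :=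
          mul_le_mul_of_nonneg_left (by linarith) (by positivity)
        rw [hlam] at e5 ⊢
        nlinarith
      calc N * (lam ^ 2 * ((1 + γ) / 2) - lam * γ / 2) ≤ N * (-(γ ^ 2 / 16)) :=
            mul_le_mul_of_nonneg_left e4 (Nat.cast_nonneg _)
        _ = _ := by ring
    have e3 : (B.card : ℝ) * Real.exp (lam * ((1 / 2 + γ) * N)) ≤
        Ξ ^ N * Real.exp ((lam + lam ^ 2) * ((1 + γ) * N / 2)) :=
      hmark.trans (mul_le_mul_of_nonneg_left (Real.exp_le_exp.2 e1) (by positivity))
    have e4 : Real.exp ((lam + lam ^ 2) * ((1 + γ) * N / 2)) ≤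
        Real.exp (-(N * (γ ^ 2 / 16))) * Real.exp (lam * ((1 / 2 + γ) * N)) := by
      rw [← Real.exp_add]
      exact Real.exp_le_exp.2 (by linarith)
    have e5 : (B.card : ℝ) * Real.exp (lam * ((1 / 2 + γ) * N)) ≤
        (Ξ ^ N * Real.exp (-(N * (γ ^ 2 / 16)))) * Real.exp (lam * ((1 / 2 + γ) * N)) := by
      refine e3.trans ((mul_le_mul_of_nonneg_left e4 (by positivity)).trans (le_of_eq ?_))
      ring
    exact le_of_mul_le_mul_right e5 (Real.exp_pos _)
  -- back to natural numbers
  obtain ⟨m, hm⟩ : ∃ m, m = N / (16 * g ^ 2) := ⟨_, rfl⟩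
  rw [← hm]
  have hm1 : (m : ℝ) ≤ N * (γ ^ 2 / 16) := by
    have e1 : m * (16 * g ^ 2) ≤ N := by
      rw [hm]
      exact Nat.div_mul_le_self _ _
    have e2 : (m : ℝ) * (16 * g ^ 2) ≤ N := by exact_mod_cast e1
    rw [hγ]
    have e3 : (N : ℝ) * ((1 / (g : ℝ)) ^ 2 / 16) = N / (16 * g ^ 2) := by
      field_simp
    rw [e3, le_div_iff₀ (by positivity)]
    exact e2
  have h2m : (2 : ℝ) ^ m ≤ Real.exp (N * (γ ^ 2 / 16)) := by
    calc (2 : ℝ) ^ m ≤ (Real.exp 1) ^ m := by
          refine pow_le_pow_left₀ (by norm_num) ?_ m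
          have := Real.add_one_le_exp 1
          linarith
      _ = Real.exp m := by rw [← Real.exp_nat_mul, mul_one]
      _ ≤ _ := Real.exp_le_exp.2 hm1
  have hlast : (B.card : ℝ) * 2 ^ m ≤ Ξ ^ N := by
    calc (B.card : ℝ) * 2 ^ m ≤ (Ξ ^ N * Real.exp (-(N * (γ ^ 2 / 16)))) *
          Real.exp (N * (γ ^ 2 / 16)) :=
          mul_le_mul hfin h2m (by positivity) (by positivity)
      _ = Ξ ^ N * (Real.exp (-(N * (γ ^ 2 / 16))) * Real.exp (N * (γ ^ 2 / 16))) := by ring
      _ = Ξ ^ N := by rw [← Real.exp_add, neg_add_cancel, Real.exp_zero, mul_one]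
  have hcard : (Fintype.card (Fin N → Fin t → At k h → Bool) : ℝ) = Ξ ^ N := by
    rw [Fintype.card_fun (α := Fin N), Fintype.card_fin, hΞ]
    push_cast
    rfl
  have : ((B.card * 2 ^ m : ℕ) : ℝ) ≤ (Fintype.card (Fin N → Fin t → At k h → Bool) : ℝ) := by
    rw [hcard]
    push_cast
    exact hlast
  exact_mod_cast this

end Pool.Agent.R532.Ju
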