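import Pool.Agent.R532.Ju1
import Pool.Agent.R532.Ju2
import Mathlib.Logic.Equiv.Prod

/-!
# Tensor networks for samples labelled by parities
-/

set_option autoImplicit false

open Finset

namespace Pool.Agent.R532.Ju

open Pool.Agent.TH700.PA

variable {k h t N : ℕ}

/-- The variables: the attributes and the label of each example. -/
abbrev Vr (k h N : ℕ) : Type := Fin N × Option (At k h)

/-- The `i`-th example. -/
def point (w : Vr k h N → Bool) (i : Fin N) : At k h → Bool := fun l => w (i, some l)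

/-- The `i`-th label. -/
def label (w : Vr k h N → Bool) (i : Fin N) : Bool := w (i, none)

/-- The number of examples on which the hypothesis `f` agrees with the label. -/
def agreement (f : (At k h → Bool) → Bool) (w : Vr k h N → Bool) : ℕ :=
  (univ.filter (fun i => f (point w i) = label w i)).card

/-- The patterns. -/
abbrev Pt (k h N : ℕ) : Type := (Fin k → Fin h) × (Fin N → At k h → Bool)

/-- The sample of a pattern. -/
def smp (P : Pt k h N) : Vr k h N → Bool
  | (i, some l) => P.2 i l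
  | (i, none) => parity P.1 (P.2 i)

/-- The label variables. -/
def labs (k h N : ℕ) : Finset (Vr k h N) := univ.image (fun i => (i, none))

theorem card_labs : (labs k h N).card = N := by
  unfold labs
  rw [card_image_of_injective, card_univ, Fintype.card_fin]
  intro i i' hi
  exact (Prod.ext_iff.1 hi).1

theorem card_labs_filter (p : Vr k h N → Fin t) (j : Fin t) :
    (univ.filter (fun i : Fin N => p (i, none) = j)).card =
      ((labs k h N).filter (fun v => p v = j)).card := by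
  unfold labs
  rw [filter_image, card_image_of_injective]
  intro i i' hi
  exact (Prod.ext_iff.1 hi).1

theorem agreement_mix (f : (At k h → Bool) → Bool) (p : Vr k h N → Fin t)
    (b : Fin t → Pt k h N) : agreement f (mixp p smp b) =
      (univ.filter (fun i => f (mixr (fun l => p (i, some l)) (fun j => (b j).2 i)) =
        parity (b (p (i, none))).1 ((b (p (i, none))).2 i))).card := rfl

/-- The tuples with a coincidence. -/
theorem card_coincide {j j' : Fin t} (hj : j ≠ j') :
    (univ.filter (fun b : Fin t → Pt k h N => (b j).1 = (b j').1)).card * h ^ k ≤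
      Fintype.card (Pt k h N) ^ t := by
  have h1 : h ^ k = (univ : Finset (Fin k → Fin h)).card := by
    rw [card_univ, Fintype.card_fun, Fintype.card_fin, Fintype.card_fin]
  have h2 : Fintype.card (Pt k h N) ^ t = (univ : Finset (Fin t → Pt k h N)).card := by
    rw [card_univ, Fintype.card_fun, Fintype.card_fin]
  rw [h1, h2, ← card_product]
  refine card_le_card_of_injOn (fun s => Function.update s.1 j' (s.2, (s.1 j').2))
    (fun s _ => mem_univ _) ?_
  rintro ⟨b, A⟩ hb ⟨b', A'⟩ hb' heq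
  rw [mem_coe, mem_product, mem_filter] at hb hb'
  have hb1 : (b j).1 = (b j').1 := hb.1.2
  have hb2 : (b' j).1 = (b' j').1 := hb'.1.2
  simp only at heq
  have e1 := congrFun heq j'
  rw [Function.update_self, Function.update_self] at e1
  obtain ⟨hA, hX⟩ := Prod.ext_iff.1 e1
  simp only at hA hX
  have e2 : ∀ i, i ≠ j' → b i = b' i := by
    intro i hi
    have := congrFun heq i
    rwa [Function.update_of_ne hi, Function.update_of_ne hi] at this
  have e3 : b = b' := by
    funext i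
    by_cases hi : i = j'
    · rw [hi]
      refine Prod.ext ?_ hX
      rw [← hb1, ← hb2, e2 j hj]
    · exact e2 i hi
  rw [e3, hA]

/-- Most mixtures have small agreement with all hypotheses. -/
theorem few_bad {g θ : ℕ} (hg : 1 ≤ g) (hθ : 2 * θ * g ^ 2 ≤ N)
    (𝓕 : Finset ((At k h → Bool) → Bool)) (h𝓕 : 𝓕.card * h ^ k ≤ 2 ^ (N / (16 * g ^ 2)))
    (p : Vr k h N → Fin t) (hp : ∀ j, ((labs k h N).filter (fun v => p v = j)).card ≤ 2 * θ) :
    ∃ B : Finset (Fin t → Pt k h N),
      (∀ b, ¬ (∀ f ∈ 𝓕, 2 * g * agreement f (mixp p smp b) ≤ (g + 2) * N) → b ∈ B) ∧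
      B.card * h ^ k ≤ (t ^ 2 + 1) * Fintype.card (Pt k h N) ^ t := by
  classical
  obtain ⟨u, hu⟩ : ∃ u, u = Fintype.card (Pt k h N) ^ t := ⟨_, rfl⟩
  rw [← hu]
  let B1 : Fin t × Fin t → Finset (Fin t → Pt k h N) := fun s =>
    univ.filter (fun b : Fin t → Pt k h N => (b s.1).1 = (b s.2).1)
  let I : Finset (Fin t × Fin t) := univ.filter (fun s => s.1 ≠ s.2)
  let B2 : ((At k h → Bool) → Bool) → Finset (Fin t → Pt k h N) := fun f =>
    univ.filter (fun b : Fin t → Pt k h N => Function.Injective (fun j => (b j).1) ∧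
      (g + 2) * N < 2 * g * agreement f (mixp p smp b))
  refine ⟨I.biUnion B1 ∪ 𝓕.biUnion B2, fun b hb => ?_, ?_⟩
  · push Not at hb
    obtain ⟨f, hf, hlt⟩ := hb
    rw [mem_union, mem_biUnion, mem_biUnion]
    by_cases hinj : Function.Injective (fun j => (b j).1)
    · exact Or.inr ⟨f, hf, mem_filter.2 ⟨mem_univ _, hinj, hlt⟩⟩
    · left
      unfold Function.Injective at hinj
      push Not at hinj
      obtain ⟨j, j', h1, h2⟩ := hinj
      exact ⟨(j, j'), mem_filter.2 ⟨mem_univ _, h2⟩, mem_filter.2 ⟨mem_univ _, h1⟩⟩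
  · have hB1 : (I.biUnion B1).card * h ^ k ≤ t ^ 2 * u := by
      calc (I.biUnion B1).card * h ^ k ≤ (∑ s ∈ I, (B1 s).card) * h ^ k :=
            Nat.mul_le_mul_right _ card_biUnion_le
        _ = ∑ s ∈ I, (B1 s).card * h ^ k := sum_mul _ _ _
        _ ≤ ∑ _s ∈ I, u := sum_le_sum fun s hs => by
            rw [hu]
            exact card_coincide (mem_filter.1 hs).2
        _ = I.card * u := by rw [sum_const, smul_eq_mul]
        _ ≤ t ^ 2 * u := by
          refine Nat.mul_le_mul_right _ ((card_le_univ _).trans (le_of_eq ?_))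
          rw [Fintype.card_prod, Fintype.card_fin, sq]
    obtain ⟨m, hm⟩ : ∃ m, m = N / (16 * g ^ 2) := ⟨_, rfl⟩
    rw [← hm] at h𝓕
    have hB2 : ∀ f, (B2 f).card * 2 ^ m ≤ u := by
      intro f
      have h1 : (B2 f).card = ∑ A : Fin t → Fin k → Fin h,
          ((B2 f).filter (fun b => (fun j => (b j).1) = A)).card :=
        card_eq_sum_card_fiberwise (f := fun (b : Fin t → Pt k h N) (j : Fin t) => (b j).1)
          (fun _ _ => mem_univ _)
      have h2 : ∀ A : Fin t → Fin k → Fin h,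
          ((B2 f).filter (fun b => (fun j => (b j).1) = A)).card * 2 ^ m ≤
            Fintype.card (Fin N → At k h → Bool) ^ t := by
        intro A
        by_cases hA : Function.Injective A
        · have h3 := few_agree A hA f (fun i l => p (i, some l)) (fun i => p (i, none)) hg
            (M := 2 * θ) (fun j => by
              have h4 := hp j
              rw [← card_labs_filter] at h4
              exact h4) hθ
          rw [← hm] at h3
          have h5 : Fintype.card (Fin N → Fin t → At k h → Bool) =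
              Fintype.card (Fin N → At k h → Bool) ^ t := by
            rw [Fintype.card_fun, Fintype.card_fun (α := Fin t), Fintype.card_fun (α := Fin N),
              Fintype.card_fin, Fintype.card_fin, ← pow_mul, ← pow_mul, mul_comm]
          rw [h5] at h3
          refine le_trans (Nat.mul_le_mul_right _ ?_) h3
          refine card_le_card_of_injOn (fun b i j => (b j).2 i) (fun b hb => ?_)
            (fun b hb b' hb' heq => ?_)
          · rw [mem_coe, mem_filter] at hb
            obtain ⟨hb1, hb2⟩ := hb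
            have hb3 := (mem_filter.1 hb1).2.2
            rw [mem_coe, mem_filter]
            refine ⟨mem_univ _, ?_⟩
            rw [agreement_mix] at hb3
            have e1 : ∀ j, (b j).1 = A j := fun j => congrFun hb2 j
            simp only [e1] at hb3
            exact hb3
          · rw [mem_coe, mem_filter] at hb hb'
            funext j
            refine Prod.ext ?_ ?_
            · exact (congrFun hb.2 j).trans (congrFun hb'.2 j).symm
            · funext i
              exact congrFun (congrFun heq i) j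
        · have h3 : (B2 f).filter (fun b => (fun j => (b j).1) = A) = ∅ := by
            rw [filter_eq_empty_iff]
            intro b hb h4
            apply hA
            rw [← h4]
            exact (mem_filter.1 hb).2.1
          rw [h3, card_empty, zero_mul]
          exact Nat.zero_le _
      rw [h1, sum_mul]
      refine (sum_le_sum fun A _ => h2 A).trans (le_of_eq ?_)
      rw [sum_const, card_univ, smul_eq_mul, hu, Fintype.card_prod, mul_pow,
        Fintype.card_fun (α := Fin t), Fintype.card_fin]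
    have hB3 : (𝓕.biUnion B2).card * h ^ k ≤ u := by
      refine Nat.le_of_mul_le_mul_left (c := 2 ^ m) ?_ (by positivity)
      calc 2 ^ m * ((𝓕.biUnion B2).card * h ^ k) =
          ((𝓕.biUnion B2).card * 2 ^ m) * h ^ k := by ring
        _ ≤ (𝓕.card * u) * h ^ k := by
            refine Nat.mul_le_mul_right _ ?_
            calc (𝓕.biUnion B2).card * 2 ^ m ≤ (∑ f ∈ 𝓕, (B2 f).card) * 2 ^ m :=
                  Nat.mul_le_mul_right _ card_biUnion_le
              _ = ∑ f ∈ 𝓕, (B2 f).card * 2 ^ m := sum_mul _ _ _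
              _ ≤ ∑ _f ∈ 𝓕, u := sum_le_sum fun f _ => hB2 f
              _ = 𝓕.card * u := by rw [sum_const, smul_eq_mul]
        _ = (𝓕.card * h ^ k) * u := by ring
        _ ≤ 2 ^ m * u := Nat.mul_le_mul_right _ h𝓕
    calc (I.biUnion B1 ∪ 𝓕.biUnion B2).card * h ^ k ≤
        ((I.biUnion B1).card + (𝓕.biUnion B2).card) * h ^ k :=
          Nat.mul_le_mul_right _ (card_union_le _ _)
      _ = (I.biUnion B1).card * h ^ k + (𝓕.biUnion B2).card * h ^ k := by ring
      _ ≤ t ^ 2 * u + u := Nat.add_le_add hB1 hB3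
      _ = _ := by ring

/-- The main bound. -/
theorem lower (g : ℕ) (hg : 1 ≤ g) : ∃ D : ℕ, ∀ k h N : ℕ, 1 ≤ h → D ≤ N →
    ∀ 𝓕 : Finset ((At k h → Bool) → Bool), 𝓕.card * h ^ k ≤ 2 ^ (N / (16 * g ^ 2)) →
    ∀ (μ : ℕ) (R : Type) [Fintype R] [Nonempty R] (K W : R → Type) [∀ ρ, Field (K ρ)]
      [∀ ρ, Fintype (W ρ)] (T : ∀ ρ, Net (K ρ) (Vr k h N) Bool (W ρ))
      (a : ∀ ρ, W ρ → K ρ),
      (∀ ρ e, (T ρ).reads e ≤ 1) →
      (∀ ρ w, (∀ f ∈ 𝓕, 2 * g * agreement f w ≤ (g + 2) * N) → (T ρ).value (a ρ) w = 0) →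
      (∀ w, (∃ A : Fin k → Fin h, ∀ i, parity A (point w i) = label w i) →
        Nat.card R ≤ 2 ^ μ * Nat.card {ρ // (T ρ).value (a ρ) w ≠ 0}) →
      ∃ ρ, h ^ k ≤ D * (2 ^ μ * Fintype.card (W ρ)) ^ D := by
  classical
  obtain ⟨t, ht⟩ : ∃ t, t = 8 * g ^ 2 + 1 := ⟨_, rfl⟩
  obtain ⟨C, hC⟩ : ∃ C, C = 2 * (t ^ 2 + 1) * (2 * t) ^ (t + 1) := ⟨_, rfl⟩
  refine ⟨2 * g ^ 2 + C + 3 * (t + 1), fun k h N hh hN 𝓕 h𝓕 μ R _ _ K W _ _ T a h1 hno hyes => ?_⟩
  have hg2 : 1 ≤ g ^ 2 := Nat.one_le_pow _ _ hg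
  obtain ⟨θ, hθ⟩ : ∃ θ, θ = N / (2 * g ^ 2) := ⟨_, rfl⟩
  have hθ1 : 1 ≤ θ := by
    rw [hθ]
    exact Nat.div_pos (by omega) (by omega)
  have hθN : 2 * θ * g ^ 2 ≤ N := by
    have e1 := Nat.mul_div_le N (2 * g ^ 2)
    rw [← hθ] at e1
    calc 2 * θ * g ^ 2 = 2 * g ^ 2 * θ := by ring
      _ ≤ N := e1
  have hNθ : N < 2 * g ^ 2 * (θ + 1) := by
    rw [hθ]
    exact Nat.lt_mul_div_succ N (by omega)
  have : Nonempty (Fin h) := ⟨⟨0, hh⟩⟩
  have hE : 2 * (labs k h N).card + θ ≤ θ * t := by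
    rw [card_labs, ht]
    have e1 : N ≤ 4 * g ^ 2 * θ := by nlinarith
    have e2 : θ * (8 * g ^ 2 + 1) = 2 * (4 * g ^ 2 * θ) + θ := by ring
    rw [e2]
    omega
  obtain ⟨n, hn⟩ : ∃ n, n = h ^ k / (t ^ 2 + 1) := ⟨_, rfl⟩
  obtain ⟨ρ, hρ, hw1⟩ := rand_densityE μ R K W T a h1 (labs k h N) (θ := θ) (t := t)
    hθ1 (by omega) hE (U := Pt k h N) smp (univ : Finset (Pt k h N)) (η := 0)
    (by rw [card_univ, pow_zero, one_mul])
    (fun P _ => hyes _ ⟨P.1, fun i => rfl⟩) (N := n)
    (fun ρ p hp => by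
        obtain ⟨B, hB1, hB2⟩ := few_bad hg hθN 𝓕 h𝓕 p hp
        refine ⟨B, fun b hb => hB1 b fun hv => hb (hno ρ _ hv), ?_⟩
        refine Nat.le_of_mul_le_mul_left (c := t ^ 2 + 1) ?_ (by positivity)
        calc (t ^ 2 + 1) * (B.card * n) = B.card * ((t ^ 2 + 1) * n) := by ring
          _ ≤ B.card * h ^ k := by
              refine Nat.mul_le_mul_left _ ?_
              rw [hn]
              exact Nat.mul_div_le _ _
          _ ≤ _ := hB2)
  refine ⟨ρ, ?_⟩
  obtain ⟨w, hw⟩ : ∃ w, w = Fintype.card (W ρ) := ⟨_, rfl⟩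
  rw [← hw] at hρ hw1 ⊢
  obtain ⟨X, hX⟩ : ∃ X, X = 2 ^ μ * w := ⟨_, rfl⟩
  have hX1 : 1 ≤ X := by
    rw [hX]
    exact Nat.mul_pos (Nat.pow_pos (by norm_num)) hw1
  rw [← hX]
  have e1 : 2 ^ (μ + 0 + 1) * (t * w ^ 3) ≤ (2 * t) * X ^ 3 := by
    have e3 : 2 ^ μ ≤ (2 ^ μ) ^ 3 := by
      conv_lhs => rw [← pow_one (2 ^ μ)]
      exact Nat.pow_le_pow_right (Nat.pow_pos (by norm_num)) (by norm_num)
    calc 2 ^ (μ + 0 + 1) * (t * w ^ 3) = 2 * t * (2 ^ μ * w ^ 3) := by
          rw [add_zero, pow_succ]; ring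
      _ ≤ 2 * t * ((2 ^ μ) ^ 3 * w ^ 3) :=
        Nat.mul_le_mul_left _ (Nat.mul_le_mul_right _ e3)
      _ = _ := by rw [hX]; ring
  have e2 : n ≤ (2 * t) ^ (t + 1) * X ^ (3 * (t + 1)) := by
    calc n ≤ ((2 * t) * X ^ 3) ^ (t + 1) := hρ.trans (Nat.pow_le_pow_left e1 _)
      _ = _ := by rw [mul_pow, ← pow_mul]
  have e3 : h ^ k < (t ^ 2 + 1) * (n + 1) := by
    rw [hn]
    exact Nat.lt_mul_div_succ _ (by positivity)
  have e4 : 1 ≤ (2 * t) ^ (t + 1) * X ^ (3 * (t + 1)) :=
    Nat.mul_pos (pow_pos (by omega) _) (pow_pos hX1 _)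
  calc h ^ k ≤ (t ^ 2 + 1) * (n + 1) := e3.le
    _ ≤ (t ^ 2 + 1) * (2 * ((2 * t) ^ (t + 1) * X ^ (3 * (t + 1)))) :=
        Nat.mul_le_mul_left _ (by omega)
    _ = C * X ^ (3 * (t + 1)) := by rw [hC]; ring
    _ ≤ (2 * g ^ 2 + C + 3 * (t + 1)) * X ^ (2 * g ^ 2 + C + 3 * (t + 1)) :=
        Nat.mul_le_mul (by omega) (Nat.pow_le_pow_right hX1 (by omega))

end Pool.Agent.R532.Ju
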