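import Pool.Agent.R532.Ju3
import Mathlib.Data.Nat.Log
import Mathlib.Data.Set.Card
import Mathlib.Data.Fintype.EquivFin

/-!
# Tensor networks for samples: families, juntas and DNF formulas
-/

set_option autoImplicit false

open Finset

namespace Pool.Agent.R532.Ju

open Pool.Agent.TH700.PA

/-- A randomised family (a finite set `R` of networks) of read-once tree tensor networks for samples
of `N` labelled examples with `k h` attributes, for the targets `𝓒` and the hypotheses `𝓗`: the
networks have the value zero on each sample for which no hypothesis in `𝓗` agrees with more than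
`(1 / 2 + 1 / g) N` of the labels, and for each sample labelled by a target in `𝓒` a fraction of at
least `2 ^ (-μ)` of the networks has a nonzero value. -/
structure Family {k h : ℕ} (𝓒 𝓗 : Set ((At k h → Bool) → Bool)) (N g μ : ℕ) where
  /-- the random choices -/
  R : Type
  finR : Fintype R
  neR : Nonempty R
  /-- the fields -/
  K : R → Type
  fieldK : ∀ ρ, Field (K ρ)
  /-- the bond spaces are the functions from `W ρ` to `K ρ` -/
  W : R → Type
  finW : ∀ ρ, Fintype (W ρ)
  /-- the networks -/
  T : ∀ ρ, Net (K ρ) (Vr k h N) Bool (W ρ)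
  /-- the linear forms at the roots -/
  a : ∀ ρ, W ρ → K ρ
  once : ∀ ρ e, (T ρ).reads e ≤ 1
  sound : ∀ ρ w, (∀ f ∈ 𝓗, 2 * g * agreement f w ≤ (g + 2) * N) → (T ρ).value (a ρ) w = 0
  complete : ∀ w, (∃ f ∈ 𝓒, ∀ i, f (point w i) = label w i) →
    Nat.card R ≤ 2 ^ μ * Nat.card {ρ // (T ρ).value (a ρ) w ≠ 0}

/-- the bond dimension -/
def Family.dim {k h : ℕ} {𝓒 𝓗 : Set ((At k h → Bool) → Bool)} {N g μ : ℕ} (F : Family 𝓒 𝓗 N g μ)
    (ρ : F.R) : ℕ :=
  @Fintype.card (F.W ρ) (F.finW ρ)

open Classical in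
theorem lower_family (g : ℕ) (hg : 1 ≤ g) : ∃ D : ℕ, ∀ k h N μ : ℕ, 1 ≤ h → D ≤ N →
    ∀ 𝓒 𝓗 : Set ((At k h → Bool) → Bool), (∀ A, parity A ∈ 𝓒) →
      𝓗.ncard * h ^ k ≤ 2 ^ (N / (16 * g ^ 2)) →
      ∀ F : Family 𝓒 𝓗 N g μ, ∃ ρ, h ^ k ≤ D * (2 ^ μ * F.dim ρ) ^ D := by
  obtain ⟨D, hD⟩ := lower g hg
  refine ⟨D, fun k h N μ hh hN 𝓒 𝓗 hC hH F => ?_⟩
  let _ := F.finR
  have := F.neR
  let _ := F.fieldK
  let _ := F.finW
  have hfin : 𝓗.Finite := Set.toFinite _
  refine hD k h N hh hN hfin.toFinset ?_ μ F.R F.K F.W F.T F.a F.once (fun ρ w hw => F.sound ρ w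
    fun f hf => hw f (hfin.mem_toFinset.2 hf)) (fun w hw => F.complete w ?_)
  · rwa [← Set.ncard_eq_toFinset_card 𝓗 hfin]
  · obtain ⟨A, hA⟩ := hw
    exact ⟨parity A, hC A, hA⟩

/-! ### juntas -/

/-- `f` depends on at most `k` attributes. -/
def IsJunta {k' h : ℕ} (k : ℕ) (f : (At k' h → Bool) → Bool) : Prop :=
  ∃ S : Finset (At k' h), S.card ≤ k ∧ ∀ x y, (∀ l ∈ S, x l = y l) → f x = f y

/-- `f` is `c`-balanced: given the values of at most `c` attributes, `f` takes both values with the
same probability. -/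
def Balanced {k' h : ℕ} (c : ℕ) (f : (At k' h → Bool) → Bool) : Prop :=
  ∀ T : Finset (At k' h), T.card ≤ c → ∀ y : At k' h → Bool,
    2 * Nat.card {x : At k' h → Bool // (∀ l ∈ T, x l = y l) ∧ f x = true} =
      Nat.card {x : At k' h → Bool // ∀ l ∈ T, x l = y l}

theorem parity_junta {k h : ℕ} (A : Fin k → Fin h) : IsJunta k (parity A) := by
  refine ⟨univ.image (fun a => (a, A a)), card_image_le.trans (le_of_eq (card_fin k)), ?_⟩
  intro x y hxy
  unfold parity
  have h1 : univ.filter (fun a => x (a, A a) = true) = univ.filter (fun a => y (a, A a) = true) := by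
    refine filter_congr fun a _ => ?_
    rw [hxy (a, A a) (mem_image_of_mem _ (mem_univ a))]
  rw [h1]

theorem parity_flip {k h : ℕ} (A : Fin k → Fin h) (a : Fin k) (x : At k h → Bool) :
    parity A (flip (a, A a) x) = !parity A x := by
  have h1 := chi_flip A a x
  rw [← sgn_parity, ← sgn_parity] at h1
  have h2 : ∀ p q : Bool, sgn p = -sgn q → p = !q := by
    intro p q
    unfold sgn
    rcases p with _ | _ <;> rcases q with _ | _ <;> norm_num
  exact h2 _ _ h1

theorem parity_balanced {k h : ℕ} (hk : 1 ≤ k) (A : Fin k → Fin h) :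
    Balanced (k - 1) (parity A) := by
  classical
  intro T hT y
  · obtain ⟨a, ha⟩ : ∃ a, (a, A a) ∉ T := by
      by_contra hcon
      push Not at hcon
      have h1 : (univ.image (fun a => (a, A a))) ⊆ T := by
        intro l hl
        obtain ⟨a, -, rfl⟩ := mem_image.1 hl
        exact hcon a
      have h2 := card_le_card h1
      rw [card_image_of_injective _ (fun a a' h => (Prod.ext_iff.1 h).1), card_fin] at h2
      omega
    rw [Nat.card_eq_fintype_card, Nat.card_eq_fintype_card, Fintype.card_subtype,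
      Fintype.card_subtype]
    have h1 := card_filter_add_card_filter_not (s := univ.filter
      (fun x : At k h → Bool => ∀ l ∈ T, x l = y l)) (fun x => parity A x = true)
    rw [← h1, filter_filter, filter_filter, two_mul]
    congr 1
    refine card_bij (fun x _ => flip (a, A a) x) (fun x hx => ?_) (fun x _ x' _ h => ?_)
      (fun x hx => ?_)
    · obtain ⟨-, h2, h3⟩ := mem_filter.1 hx
      refine mem_filter.2 ⟨mem_univ _, fun l hl => ?_, ?_⟩
      · rw [flip_ne (fun h' => ha (by rw [← h']; exact hl))]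
        exact h2 l hl
      · rw [parity_flip, h3]
        simp
    · have := congrArg (flip (a, A a)) h
      rwa [flip_flip, flip_flip] at this
    · obtain ⟨-, h2, h3⟩ := mem_filter.1 hx
      refine ⟨flip (a, A a) x, mem_filter.2 ⟨mem_univ _, fun l hl => ?_, ?_⟩, flip_flip _ _⟩
      · rw [flip_ne (fun h' => ha (by rw [← h']; exact hl))]
        exact h2 l hl
      · rw [parity_flip]
        simpa using h3

/-- The number of juntas. -/
theorem card_juntas {k' h : ℕ} (k : ℕ) (hne : Nonempty (At k' h)) :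
    {f : (At k' h → Bool) → Bool | IsJunta k f}.ncard ≤ (k' * h) ^ k * 2 ^ (2 ^ k) := by
  classical
  have h1 : {f : (At k' h → Bool) → Bool | IsJunta k f} ⊆
      Set.range (fun s : (Fin k → At k' h) × ((Fin k → Bool) → Bool) =>
        fun x : At k' h → Bool => s.2 (fun i => x (s.1 i))) := by
    rintro f ⟨S, hS, hf⟩
    obtain ⟨l0⟩ := hne
    -- an enumeration
    obtain ⟨e, he⟩ : ∃ e : Fin k → At k' h, ∀ l ∈ S, ∃ i, e i = l := by
      refine ⟨fun i => if hi : (i : ℕ) < S.card then (S.equivFin.symm ⟨i, hi⟩ : At k' h) else l0,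
        fun l hl => ⟨⟨S.equivFin ⟨l, hl⟩, (Fin.is_lt _).trans_le hS⟩, ?_⟩⟩
      simp
    let ex : (Fin k → Bool) → (At k' h → Bool) := fun v l =>
      if h : ∃ i, e i = l then v h.choose else false
    refine ⟨(e, fun v => f (ex v)), ?_⟩
    funext x
    refine hf _ _ fun l hl => ?_
    have h2 := he l hl
    simp only [ex, dif_pos h2]
    rw [h2.choose_spec]
  refine (Set.ncard_le_ncard h1 (Set.toFinite _)).trans ?_
  rw [← Set.image_univ]
  refine (Set.ncard_image_le (Set.toFinite _)).trans (le_of_eq ?_)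
  rw [Set.ncard_univ, Nat.card_eq_fintype_card, Fintype.card_prod, Fintype.card_fun,
    Fintype.card_fun, Fintype.card_fun, Fintype.card_prod]
  simp

/-! ### DNF formulas -/

/-- `f` is computed by a DNF formula of size at most `s`: an OR of at most `s - 1` ANDs of literals; a
term is given by the values of the attributes which it prescribes. -/
def HasDNF {k h : ℕ} (s : ℕ) (f : (At k h → Bool) → Bool) : Prop :=
  ∃ T : Finset (At k h → Option Bool), T.card + 1 ≤ s ∧
    ∀ x, f x = true ↔ ∃ τ ∈ T, ∀ l b, τ l = some b → x l = b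

theorem parity_dnf {k h : ℕ} (A : Fin k → Fin h) : HasDNF (2 ^ k + 1) (parity A) := by
  classical
  obtain ⟨C, hC⟩ : ∃ C : Finset (Fin k → Bool), C = univ.filter (fun c =>
    Odd (univ.filter (fun a => c a = true)).card) := ⟨_, rfl⟩
  refine ⟨C.image (fun c l => if A l.1 = l.2 then some (c l.1) else none), ?_, fun x => ?_⟩
  · refine Nat.add_le_add_right (card_image_le.trans ((card_le_univ _).trans (le_of_eq ?_))) 1
    simp
  · unfold parity
    rw [decide_eq_true_iff]
    constructor
    · intro hodd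
      refine ⟨_, mem_image.2 ⟨fun a => x (a, A a), ?_, rfl⟩, fun l b hl => ?_⟩
      · rw [hC]
        exact mem_filter.2 ⟨mem_univ _, hodd⟩
      · by_cases hA : A l.1 = l.2
        · rw [if_pos hA] at hl
          have h1 : x (l.1, A l.1) = b := Option.some.inj hl
          rw [← h1, hA]
        · rw [if_neg hA] at hl
          exact absurd hl (by simp)
    · rintro ⟨τ, hτ, hx⟩
      obtain ⟨c, hc, rfl⟩ := mem_image.1 hτ
      rw [hC] at hc
      have h1 : ∀ a, x (a, A a) = c a := fun a => hx (a, A a) (c a) (by simp)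
      have h2 := (mem_filter.1 hc).2
      simp only [h1]
      exact h2

/-- The number of the functions with DNF formulas of a given size. -/
theorem card_dnf {k h : ℕ} (s : ℕ) (hkh : 1 ≤ k * h) :
    {f : (At k h → Bool) → Bool | HasDNF s f}.ncard ≤ 2 ^ (2 * (k * h) * s) := by
  classical
  rcases Nat.eq_zero_or_pos s with rfl | hs
  · have h1 : {f : (At k h → Bool) → Bool | HasDNF 0 f} = ∅ := by
      rw [Set.eq_empty_iff_forall_notMem]
      rintro f ⟨T, hT, -⟩
      omega
    rw [h1]
    simp
  · have h1 : {f : (At k h → Bool) → Bool | HasDNF s f} ⊆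
        Set.range (fun T : Fin (s - 1) → Option (At k h → Option Bool) =>
          fun x : At k h → Bool => decide (∃ j τ, T j = some τ ∧ ∀ l b, τ l = some b → x l = b)) := by
      rintro f ⟨S, hS, hf⟩
      refine ⟨fun i => if hi : (i : ℕ) < S.card then
        some (S.equivFin.symm ⟨i, hi⟩ : At k h → Option Bool) else none, ?_⟩
      funext x
      rw [Bool.eq_iff_iff, decide_eq_true_iff, hf]
      constructor
      · rintro ⟨j, τ, hj, hx⟩
        by_cases hi : (j : ℕ) < S.card
        · simp only [dif_pos hi] at hj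
          have h2 := Option.some.inj hj
          exact ⟨τ, by rw [← h2]; exact (S.equivFin.symm ⟨j, hi⟩).2, hx⟩
        · simp only [dif_neg hi] at hj
          exact absurd hj (by simp)
      · rintro ⟨τ, hτ, hx⟩
        refine ⟨⟨S.equivFin ⟨τ, hτ⟩, (Fin.is_lt _).trans_le (by omega)⟩, τ, ?_, hx⟩
        simp
    refine (Set.ncard_le_ncard h1 (Set.toFinite _)).trans ?_
    rw [← Set.image_univ]
    refine (Set.ncard_image_le (Set.toFinite _)).trans ?_
    rw [Set.ncard_univ, Nat.card_eq_fintype_card, Fintype.card_fun, Fintype.card_option,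
      Fintype.card_fun, Fintype.card_option, Fintype.card_bool, Fintype.card_prod,
      Fintype.card_fin, Fintype.card_fin, Fintype.card_fin]
    have h2 : 3 ^ (k * h) + 1 ≤ 2 ^ (2 * (k * h)) := by
      have h3 : 3 ^ (k * h) < 4 ^ (k * h) := Nat.pow_lt_pow_left (by norm_num) (by omega)
      have h4 : 2 ^ (2 * (k * h)) = 4 ^ (k * h) := by
        rw [pow_mul]
        norm_num
      omega
    calc (3 ^ (k * h) + 1) ^ (s - 1) ≤ (2 ^ (2 * (k * h))) ^ (s - 1) :=
          Nat.pow_le_pow_left h2 _
      _ ≤ (2 ^ (2 * (k * h))) ^ s := Nat.pow_le_pow_right (by positivity) (by omega)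
      _ = _ := by rw [← pow_mul]

end Pool.Agent.R532.Ju
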