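import Pool.Agent.R532.Sep
import Pool.Agent.R532.Circle
import Pool.Agent.Helper140.LT.Main

/-!
# Integer points at distances with given squarefree parts
-/

set_option autoImplicit false

namespace Pool.Agent.R532

open Pool.Agent.ETSP Pool.Agent.Helper140.LT

open Finset

/-- the point with the offset `o` from `a` -/
def off {W : ℕ} (a : ℤ × ℤ) (o : Fin W × Fin W) : ℤ × ℤ := (a.1 + (o.1 : ℕ), a.2 + (o.2 : ℕ))

theorem off_inj {W : ℕ} (a : ℤ × ℤ) : Function.Injective (off (W := W) a) := by
  rintro ⟨o1, o2⟩ ⟨p1, p2⟩ h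
  unfold off at h
  simp only [Prod.mk.injEq, add_right_inj, Nat.cast_inj] at h
  exact Prod.ext (Fin.ext h.1) (Fin.ext h.2)

theorem sqd_cast (u v : ℤ × ℤ) : ((sqd u v : ℕ) : ℤ) = (u.1 - v.1) ^ 2 + (u.2 - v.2) ^ 2 := by
  rw [sqd, Int.natCast_natAbs, abs_of_nonneg (by positivity)]

theorem sqrt_sqd' (u v : ℤ × ℤ) : √((sqd u v : ℕ) : ℝ) = eucl u v := by
  rw [sqrt_sqd, eucl, sub_eq_add_neg]

theorem sqd_comm (u v : ℤ × ℤ) : sqd u v = sqd v u := by
  unfold sqd
  congr 1
  ring

theorem eucl_comm (u v : ℤ × ℤ) : eucl u v = eucl v u := by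
  rw [← sqrt_sqd', ← sqrt_sqd', sqd_comm]

theorem sqd_eq_zero {u v : ℤ × ℤ} : sqd u v = 0 ↔ u = v := by
  have h := sqd_cast u v
  constructor
  · intro h0
    rw [h0, Nat.cast_zero] at h
    have h1 : (u.1 - v.1) ^ 2 = 0 := by nlinarith [sq_nonneg (u.1 - v.1), sq_nonneg (u.2 - v.2)]
    have h2 : (u.2 - v.2) ^ 2 = 0 := by nlinarith [sq_nonneg (u.1 - v.1), sq_nonneg (u.2 - v.2)]
    have h3 := pow_eq_zero_iff (two_ne_zero) |>.1 h1
    have h4 := pow_eq_zero_iff (two_ne_zero) |>.1 h2
    exact Prod.ext (by omega) (by omega)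
  · rintro rfl
    simp [sqd]

theorem eucl_off_le {W : ℕ} (a : ℤ × ℤ) (o p : Fin W × Fin W) :
    eucl (off a o) (off a p) ≤ 2 * W := by
  rw [← sqrt_sqd', Real.sqrt_le_left (by positivity)]
  have h := sqd_cast (off a o) (off a p)
  unfold off at h ⊢
  simp only [add_sub_add_left_eq_sub] at h
  have a1 := o.1.2
  have a2 := o.2.2
  have a3 := p.1.2
  have a4 := p.2.2
  have key : ∀ x y : ℕ, x < W → y < W → ((x : ℤ) - y) ^ 2 ≤ (W : ℤ) ^ 2 := by
    intro x y hx hy
    rw [sq_le_sq]
    rw [abs_of_nonneg (by positivity : (0 : ℤ) ≤ W), abs_le]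
    constructor <;> omega
  have k1 := key _ _ a1 a3
  have k2 := key _ _ a2 a4
  have k3 : ((sqd (a.1 + ((o.1 : ℕ) : ℤ), a.2 + ((o.2 : ℕ) : ℤ))
    (a.1 + ((p.1 : ℕ) : ℤ), a.2 + ((p.2 : ℕ) : ℤ)) : ℕ) : ℤ) ≤ 2 * (W : ℤ) ^ 2 := by
    rw [h]
    linarith
  have k4 : ((sqd (a.1 + ((o.1 : ℕ) : ℤ), a.2 + ((o.2 : ℕ) : ℤ))
    (a.1 + ((p.1 : ℕ) : ℤ), a.2 + ((p.2 : ℕ) : ℤ)) : ℕ) : ℝ) ≤ 2 * (W : ℝ) ^ 2 := by
    exact_mod_cast k3
  nlinarith [sq_nonneg (W : ℝ)]

/-- the offsets of the points at distance 0 from `c`, or at a distance at most `√R` whose square has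
the squarefree part `s` in `S` -/
noncomputable def TT (W : ℕ) (S : Finset ℕ) (R : ℕ) (a c : ℤ × ℤ) : Finset (Fin W × Fin W) :=
  univ.filter fun o => sqd (off a o) c = 0 ∨ (sqd (off a o) c ≤ R ∧ sfp (sqd (off a o) c) ∈ S)

theorem card_TT {W : ℕ} (hW : 0 < W) (S : Finset ℕ) (R M : ℕ) (hM : 1 ≤ M)
    (h : ∀ D, 0 < D → D ≤ R → (circ D).card ≤ M) (a c : ℤ × ℤ) :
    (TT W S R a c).card ≤ 5 * (S.card + 1) * (W * M) := by
  classical
  -- the points at a given distance
  have hcirc : ∀ D, 0 < D → D ≤ R → (univ.filter fun o : Fin W × Fin W => sqd (off a o) c = D).card ≤ M := by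
    intro D hD hDR
    refine le_trans ?_ (h D hD hDR)
    apply Finset.card_le_card_of_injOn (fun o => off a o - c)
    · intro o ho
      rw [mem_coe, mem_filter] at ho
      rw [mem_coe, mem_circ, ← ho.2, sqd_cast]
      rfl
    · intro o _ p _ hop
      have h1 : off a o - c = off a p - c := hop
      exact off_inj a (sub_left_injective h1)
  -- one squarefree part
  have hs : ∀ s, 0 < s → (univ.filter fun o : Fin W × Fin W => 0 < sqd (off a o) c ∧
      sqd (off a o) c ≤ R ∧ sfp (sqd (off a o) c) = s).card ≤ 5 * (W * M) := by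
    intro s hs
    set T := univ.filter fun o : Fin W × Fin W => 0 < sqd (off a o) c ∧
      sqd (off a o) c ≤ R ∧ sfp (sqd (off a o) c) = s with hT
    rcases T.eq_empty_or_nonempty with he | ⟨o₀, ho₀⟩
    · rw [he]
      simp
    · rw [hT, mem_filter] at ho₀
      obtain ⟨-, hp₀, hR₀, hs₀⟩ := ho₀
      obtain ⟨m₀, hm₀⟩ := sfp_mul (sqd (off a o₀) c)
      rw [hs₀] at hm₀
      have hsub : T ⊆ (Icc (m₀ - 2 * W) (m₀ + 2 * W)).biUnion (fun m =>
          univ.filter fun o : Fin W × Fin W => 0 < m ^ 2 * s ∧ m ^ 2 * s ≤ R ∧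
            sqd (off a o) c = m ^ 2 * s) := by
        intro o ho
        rw [hT, mem_filter] at ho
        obtain ⟨-, hp, hR, hso⟩ := ho
        obtain ⟨m, hm⟩ := sfp_mul (sqd (off a o) c)
        rw [hso] at hm
        rw [mem_biUnion]
        refine ⟨m, ?_, ?_⟩
        · have e1 : eucl (off a o) c = m * √(s : ℝ) := by
            rw [← sqrt_sqd', ← hm]
            push_cast
            rw [Real.sqrt_mul (by positivity), Real.sqrt_sq (Nat.cast_nonneg _)]
          have e2 : eucl (off a o₀) c = m₀ * √(s : ℝ) := by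
            rw [← sqrt_sqd', ← hm₀]
            push_cast
            rw [Real.sqrt_mul (by positivity), Real.sqrt_sq (Nat.cast_nonneg _)]
          have t1 := eucl_tri (off a o) (off a o₀) c
          have t2 := eucl_tri (off a o₀) (off a o) c
          have t3 := eucl_off_le a o o₀
          have t4 := eucl_off_le a o₀ o
          rw [e1, e2] at t1
          rw [e1, e2] at t2
          have hs1 : 1 ≤ √(s : ℝ) := by
            rw [Real.one_le_sqrt]
            exact_mod_cast hs
          rw [mem_Icc]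
          constructor
          · by_contra hcon
            have k : m + 2 * W < m₀ := by omega
            have k2 : (m : ℝ) + 2 * W + 1 ≤ m₀ := by exact_mod_cast k
            have k3 : (2 * (W : ℝ) + 1) ≤ (m₀ - m) * √(s : ℝ) := by
              have : (2 * (W : ℝ) + 1) * 1 ≤ (m₀ - m) * √(s : ℝ) :=
                mul_le_mul (by linarith) hs1 (by norm_num) (by
                  have : (0 : ℝ) ≤ W := Nat.cast_nonneg _
                  linarith)
              linarith
            linarith
          · by_contra hcon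
            have k : m₀ + 2 * W < m := by omega
            have k2 : (m₀ : ℝ) + 2 * W + 1 ≤ m := by exact_mod_cast k
            have k3 : (2 * (W : ℝ) + 1) ≤ (m - m₀) * √(s : ℝ) := by
              have : (2 * (W : ℝ) + 1) * 1 ≤ (m - m₀) * √(s : ℝ) :=
                mul_le_mul (by linarith) hs1 (by norm_num) (by
                  have : (0 : ℝ) ≤ W := Nat.cast_nonneg _
                  linarith)
              linarith
            linarith
        · rw [mem_filter, hm]
          exact ⟨mem_univ _, hp, hR, rfl⟩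
      calc T.card ≤ _ := card_le_card hsub
        _ ≤ ∑ m ∈ Icc (m₀ - 2 * W) (m₀ + 2 * W), (univ.filter fun o : Fin W × Fin W =>
            0 < m ^ 2 * s ∧ m ^ 2 * s ≤ R ∧ sqd (off a o) c = m ^ 2 * s).card := card_biUnion_le
        _ ≤ ∑ _m ∈ Icc (m₀ - 2 * W) (m₀ + 2 * W), M := by
            apply sum_le_sum
            intro m _
            by_cases hcond : 0 < m ^ 2 * s ∧ m ^ 2 * s ≤ R
            · refine le_trans (card_le_card ?_) (hcirc _ hcond.1 hcond.2)
              intro o ho
              rw [mem_filter] at ho ⊢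
              exact ⟨ho.1, ho.2.2.2⟩
            · rw [filter_false_of_mem]
              · simp
              · rintro o - ⟨k1, k2, -⟩
                exact hcond ⟨k1, k2⟩
        _ ≤ 5 * (W * M) := by
            rw [sum_const, smul_eq_mul, Nat.card_Icc]
            calc (m₀ + 2 * W + 1 - (m₀ - 2 * W)) * M ≤ (5 * W) * M := by
                  apply Nat.mul_le_mul_right
                  omega
              _ = _ := by ring
  have hsub : TT W S R a c ⊆ (univ.filter fun o : Fin W × Fin W => off a o = c) ∪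
      S.biUnion (fun s => univ.filter fun o : Fin W × Fin W => 0 < sqd (off a o) c ∧
      sqd (off a o) c ≤ R ∧ sfp (sqd (off a o) c) = s) := by
    intro o ho
    unfold TT at ho
    rw [mem_filter] at ho
    rw [mem_union]
    rcases Nat.eq_zero_or_pos (sqd (off a o) c) with h0 | h0
    · left
      rw [mem_filter]
      exact ⟨mem_univ _, sqd_eq_zero.1 h0⟩
    · right
      rcases ho.2 with h1 | ⟨h1, h2⟩
      · omega
      · rw [mem_biUnion]
        exact ⟨_, h2, mem_filter.2 ⟨mem_univ _, h0, h1, rfl⟩⟩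
  have h1 : (univ.filter fun o : Fin W × Fin W => off a o = c).card ≤ 1 := by
    rw [card_le_one]
    intro o ho p hp
    rw [mem_filter] at ho hp
    exact off_inj a (ho.2.trans hp.2.symm)
  have h2 : (S.biUnion (fun s => univ.filter fun o : Fin W × Fin W => 0 < sqd (off a o) c ∧
      sqd (off a o) c ≤ R ∧ sfp (sqd (off a o) c) = s)).card ≤ S.card * (5 * (W * M)) := by
    refine card_biUnion_le.trans ?_
    refine le_trans (sum_le_card_nsmul _ _ (5 * (W * M)) ?_) (by rw [smul_eq_mul])
    intro s _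
    rcases Nat.eq_zero_or_pos s with h0 | h0
    · rw [filter_false_of_mem]
      · simp
      · rintro o - ⟨-, -, k⟩
        have := sfp_pos (sqd (off a o) c)
        omega
    · exact hs s h0
  have hWM : 1 ≤ W * M := Nat.mul_pos hW hM
  calc (TT W S R a c).card ≤ _ := card_le_card hsub
    _ ≤ 1 + S.card * (5 * (W * M)) := (card_union_le _ _).trans (Nat.add_le_add h1 h2)
    _ ≤ 5 * (S.card + 1) * (W * M) := by nlinarith

end Pool.Agent.R532
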