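import Mathlib

/-!
# Near-coincidences between `c a ^ n` and `b ^ m`: the asymptotic off the near misses

(The counting part of `Pool.Agent.Results.MP_606be1_nt.DilatedNearCoincidences`.)
-/

set_option autoImplicit false

namespace Pool.Agent.R532.Nc

open Real Filter Asymptotics Topology

/-- the pairs `(n, m)` with `|c a ^ n - b ^ m| ≤ x` -/
def pairs (a b c x : ℝ) : Set (ℕ × ℕ) := {p | |c * a ^ p.1 - b ^ p.2| ≤ x}

/-- the near misses: the pairs `(n, m)` with `|c a ^ n - b ^ m| < (c a ^ n) ^ (1/2)` -/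
def nearMisses (a b c : ℝ) : Set (ℕ × ℕ) := {p | |c * a ^ p.1 - b ^ p.2| ^ 2 < c * a ^ p.1}

section count

variable {a b c : ℝ}

/-- the number of the `n` with `c a ^ n ≤ y` -/
lemma cnt (ha : 1 < a) (hc : 0 < c) : ∃ K : ℝ, 0 ≤ K ∧ ∀ y : ℝ, 1 ≤ y →
    {n : ℕ | c * a ^ n ≤ y}.Finite ∧
      |(({n : ℕ | c * a ^ n ≤ y}.ncard : ℕ) : ℝ) - log y / log a| ≤ K := by
  have hla : 0 < log a := log_pos ha
  refine ⟨|log c| / log a + 1, by positivity, fun y hy => ?_⟩
  have hy0 : 0 < y := by linarith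
  have hly : 0 ≤ log y := log_nonneg hy
  by_cases hyc : y < c
  · have hempty : {n : ℕ | c * a ^ n ≤ y} = ∅ := by
      ext n
      simp only [Set.mem_ofPred_eq, Set.mem_empty_iff_false, iff_false, not_le]
      have h1 : 1 ≤ a ^ n := one_le_pow₀ ha.le
      nlinarith
    rw [hempty]
    refine ⟨Set.finite_empty, ?_⟩
    rw [Set.ncard_empty, Nat.cast_zero, zero_sub, abs_neg, abs_of_nonneg (by positivity)]
    have h2 : log y ≤ |log c| := (log_le_log hy0 hyc.le).trans (le_abs_self _)
    have h3 : log y / log a ≤ |log c| / log a := div_le_div_of_nonneg_right h2 hla.le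
    linarith
  · rw [not_lt] at hyc
    set t : ℝ := log (y / c) / log a with ht
    have hyc1 : 1 ≤ y / c := by rwa [le_div_iff₀ hc, one_mul]
    have ht0 : 0 ≤ t := div_nonneg (log_nonneg hyc1) hla.le
    set L : ℕ := ⌊t⌋₊ with hL
    have hset : {n : ℕ | c * a ^ n ≤ y} = ((Finset.range (L + 1) : Finset ℕ) : Set ℕ) := by
      ext n
      simp only [Set.mem_ofPred_eq, Finset.coe_range, Set.mem_Iio]
      rw [Nat.lt_succ_iff, hL, Nat.le_floor_iff ht0, ht, le_div_iff₀ hla, ← log_pow,
        log_le_log_iff (by positivity) (by positivity), le_div_iff₀ hc, mul_comm]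
    rw [hset]
    refine ⟨Finset.finite_toSet _, ?_⟩
    rw [Set.ncard_coe_finset, Finset.card_range]
    have h1 : (L : ℝ) ≤ t := Nat.floor_le ht0
    have h2 : t < (L : ℝ) + 1 := Nat.lt_floor_add_one t
    have h3 : t = log y / log a - log c / log a := by
      rw [ht, log_div hy0.ne' hc.ne', sub_div]
    have h4 : |log c / log a| = |log c| / log a := by
      rw [abs_div, abs_of_pos hla]
    have h5 := abs_le.1 (le_refl |log c / log a|)
    rw [h4] at h5
    rw [abs_le]
    push_cast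
    constructor <;> linarith [h5.1, h5.2]

/-- the pairs with `c a ^ n ≤ y`, `b ^ m ≤ z` -/
def rect (a b c y z : ℝ) : Set (ℕ × ℕ) := {p | c * a ^ p.1 ≤ y ∧ b ^ p.2 ≤ z}

lemma rect_count (ha : 1 < a) (hb : 1 < b) (hc : 0 < c) {k l : ℝ} (hk : 1 ≤ k) (hl : 1 ≤ l) :
    ∃ C : ℝ, ∀ x : ℝ, 2 ≤ x → (rect a b c (k * x) (l * x)).Finite ∧
      |(((rect a b c (k * x) (l * x)).ncard : ℕ) : ℝ) - log x ^ 2 / (log a * log b)| ≤
        C * log x := by
  have hla : 0 < log a := log_pos ha
  have hlb : 0 < log b := log_pos hb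
  obtain ⟨K, hK0, hK⟩ := cnt ha hc
  obtain ⟨J, hJ0, hJ⟩ := cnt hb one_pos
  set K1 : ℝ := K + log k / log a with hK1
  set J1 : ℝ := J + log l / log b with hJ1
  have hlk : 0 ≤ log k := log_nonneg hk
  have hll : 0 ≤ log l := log_nonneg hl
  have hK10 : 0 ≤ K1 := by positivity
  have hJ10 : 0 ≤ J1 := by positivity
  refine ⟨J1 / log a + K1 / log b + K1 * J1 / log 2, fun x hx => ?_⟩
  have hx0 : 0 < x := by linarith
  have hk0 : 0 < k := by linarith
  have hl0 : 0 < l := by linarith
  have hlog2 : 0 < log 2 := log_pos (by norm_num)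
  have hlx : log 2 ≤ log x := log_le_log (by norm_num) hx
  have hlx0 : 0 < log x := by linarith
  obtain ⟨f1, e1⟩ := hK (k * x) (by nlinarith)
  obtain ⟨f2, e2⟩ := hJ (l * x) (by nlinarith)
  have hset : rect a b c (k * x) (l * x) =
      {n : ℕ | c * a ^ n ≤ k * x} ×ˢ {m : ℕ | 1 * b ^ m ≤ l * x} := by
    ext p
    simp only [rect, Set.mem_ofPred_eq, Set.mem_prod, one_mul]
  rw [hset]
  refine ⟨f1.prod f2, ?_⟩
  rw [Set.ncard_prod, Nat.cast_mul]
  set N1 : ℝ := (({n : ℕ | c * a ^ n ≤ k * x}.ncard : ℕ) : ℝ) with hN1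
  set N2 : ℝ := (({m : ℕ | 1 * b ^ m ≤ l * x}.ncard : ℕ) : ℝ) with hN2
  have g1 : |N1 - log x / log a| ≤ K1 := by
    rw [log_mul hk0.ne' hx0.ne', add_div] at e1
    have h1 : 0 ≤ log k / log a := by positivity
    rw [abs_le] at e1 ⊢
    constructor <;> linarith [e1.1, e1.2]
  have g2 : |N2 - log x / log b| ≤ J1 := by
    rw [log_mul hl0.ne' hx0.ne', add_div] at e2
    have h1 : 0 ≤ log l / log b := by positivity
    rw [abs_le] at e2 ⊢
    constructor <;> linarith [e2.1, e2.2]
  have h1 : N1 * N2 - log x ^ 2 / (log a * log b) =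
      log x / log a * (N2 - log x / log b) + (N1 - log x / log a) * (log x / log b) +
        (N1 - log x / log a) * (N2 - log x / log b) := by
    field_simp
    ring
  rw [h1]
  have hA : 0 ≤ log x / log a := by positivity
  have hB : 0 ≤ log x / log b := by positivity
  calc |log x / log a * (N2 - log x / log b) + (N1 - log x / log a) * (log x / log b) +
        (N1 - log x / log a) * (N2 - log x / log b)|
      ≤ |log x / log a * (N2 - log x / log b)| + |(N1 - log x / log a) * (log x / log b)| +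
        |(N1 - log x / log a) * (N2 - log x / log b)| := abs_add_three _ _ _
    _ = log x / log a * |N2 - log x / log b| + |N1 - log x / log a| * (log x / log b) +
        |N1 - log x / log a| * |N2 - log x / log b| := by
        rw [abs_mul, abs_mul, abs_mul, abs_of_nonneg hA, abs_of_nonneg hB]
    _ ≤ log x / log a * J1 + K1 * (log x / log b) + K1 * J1 := by
        gcongr
    _ ≤ log x / log a * J1 + K1 * (log x / log b) + K1 * J1 / log 2 * log x := by
        have : K1 * J1 ≤ K1 * J1 / log 2 * log x := by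
          rw [div_mul_eq_mul_div, le_div_iff₀ hlog2]
          exact mul_le_mul_of_nonneg_left hlx (by positivity)
        linarith
    _ = (J1 / log a + K1 / log b + K1 * J1 / log 2) * log x := by ring

/-- the middle range -/
def mid (a b c x : ℝ) : Set (ℕ × ℕ) :=
  {p | c * a ^ p.1 ≤ x ^ 2 ∧ 2 * x < c * a ^ p.1 ∧ |c * a ^ p.1 - b ^ p.2| ≤ x}

lemma mid_count (ha : 1 < a) (hb : 1 < b) (hc : 0 < c) :
    ∃ C : ℝ, ∀ x : ℝ, 2 ≤ x → (mid a b c x).Finite ∧
      (((mid a b c x).ncard : ℕ) : ℝ) ≤ C * log x := by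
  have hla : 0 < log a := log_pos ha
  obtain ⟨K, hK0, hK⟩ := cnt ha hc
  obtain ⟨R, hR⟩ := pow_unbounded_of_one_lt (3 : ℝ) hb
  have hlog2 : 0 < log 2 := log_pos (by norm_num)
  have hR0 : 0 < R := by
    rcases Nat.eq_zero_or_pos R with h | h
    · rw [h] at hR
      norm_num at hR
    · exact h
  refine ⟨(2 / log a + K / log 2) * R, fun x hx => ?_⟩
  have hx0 : 0 < x := by linarith
  have hlx : log 2 ≤ log x := log_le_log (by norm_num) hx
  obtain ⟨f1, e1⟩ := hK (x ^ 2) (by nlinarith)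
  set T : Set (ℕ × ℕ) := {n : ℕ | c * a ^ n ≤ x ^ 2} ×ˢ ((Finset.range R : Finset ℕ) : Set ℕ)
    with hT
  have hTf : T.Finite := f1.prod (Finset.finite_toSet _)
  set φ : ℕ × ℕ → ℕ × ℕ := fun p => (p.1, p.2 % R) with hφ
  have hmaps : Set.MapsTo φ (mid a b c x) T := by
    rintro p ⟨h1, -, -⟩
    refine ⟨h1, ?_⟩
    simp only [hφ, Finset.coe_range, Set.mem_Iio]
    exact Nat.mod_lt _ hR0
  have key : ∀ p ∈ mid a b c x, ∀ q ∈ mid a b c x, p.1 = q.1 → q.2 < p.2 + R := by
    rintro p ⟨-, h2, h3⟩ q ⟨-, h5, h6⟩ hpq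
    have h7 := (abs_le.1 h3).2
    have h8 := (abs_le.1 h6).1
    rw [hpq] at h2 h7
    have h9 : b ^ q.2 < 3 * b ^ p.2 := by linarith
    have h10 : b ^ q.2 < b ^ (p.2 + R) := by
      calc b ^ q.2 < 3 * b ^ p.2 := h9
        _ ≤ b ^ R * b ^ p.2 := mul_le_mul_of_nonneg_right hR.le (by positivity)
        _ = b ^ (p.2 + R) := by rw [pow_add]; ring
    exact (pow_lt_pow_iff_right₀ hb).1 h10
  have hinj : Set.InjOn φ (mid a b c x) := by
    intro p hp q hq h
    simp only [hφ, Prod.mk.injEq] at h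
    obtain ⟨h1, h2⟩ := h
    have h3 := key p hp q hq h1
    have h4 := key q hq p hp h1.symm
    have h5 : p.2 = q.2 := by
      have e1 := Nat.div_add_mod p.2 R
      have e2 := Nat.div_add_mod q.2 R
      have e3 : R * (q.2 / R) < R * (p.2 / R) + R := by omega
      have e4 : R * (p.2 / R) < R * (q.2 / R) + R := by omega
      have e5 : q.2 / R < p.2 / R + 1 := by
        by_contra hcon
        push Not at hcon
        have := Nat.mul_le_mul_left R hcon
        rw [mul_add, mul_one] at this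
        omega
      have e6 : p.2 / R < q.2 / R + 1 := by
        by_contra hcon
        push Not at hcon
        have := Nat.mul_le_mul_left R hcon
        rw [mul_add, mul_one] at this
        omega
      have e7 : p.2 / R = q.2 / R := by omega
      rw [e7] at e1
      omega
    exact Prod.ext h1 h5
  refine ⟨Set.Finite.of_injOn hmaps hinj hTf, ?_⟩
  have h1 : (mid a b c x).ncard ≤ T.ncard := Set.ncard_le_ncard_of_injOn φ hmaps hinj hTf
  rw [hT, Set.ncard_prod, Set.ncard_coe_finset, Finset.card_range] at h1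
  have h2 : (({n : ℕ | c * a ^ n ≤ x ^ 2}.ncard : ℕ) : ℝ) ≤ 2 * log x / log a + K := by
    have := (abs_le.1 e1).2
    rw [log_pow] at this
    push_cast at this
    linarith
  have hR' : (0 : ℝ) ≤ R := Nat.cast_nonneg R
  calc (((mid a b c x).ncard : ℕ) : ℝ)
      ≤ (({n : ℕ | c * a ^ n ≤ x ^ 2}.ncard : ℕ) : ℝ) * R := by exact_mod_cast h1
    _ ≤ (2 * log x / log a + K) * R := mul_le_mul_of_nonneg_right h2 hR'
    _ ≤ (2 * log x / log a + K / log 2 * log x) * R := by
        have : K ≤ K / log 2 * log x := by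
          rw [div_mul_eq_mul_div, le_div_iff₀ hlog2]
          exact mul_le_mul_of_nonneg_left hlx hK0
        exact mul_le_mul_of_nonneg_right (by linarith) hR'
    _ = (2 / log a + K / log 2) * R * log x := by ring

/-- **The asymptotic off the near misses.** -/
theorem off_near (ha : 1 < a) (hb : 1 < b) (hc : 0 < c) :
    ∃ C : ℝ, ∀ x : ℝ, 2 ≤ x → (pairs a b c x \ nearMisses a b c).Finite ∧
      |(((pairs a b c x \ nearMisses a b c).ncard : ℕ) : ℝ) - log x ^ 2 / (log a * log b)| ≤
        C * log x + ((rect a b c x x ∩ nearMisses a b c).ncard : ℕ) := by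
  obtain ⟨C1, h1⟩ := rect_count ha hb hc (le_refl (1 : ℝ)) (le_refl (1 : ℝ))
  obtain ⟨C2, h2⟩ := rect_count ha hb hc (by norm_num : (1 : ℝ) ≤ 2) (by norm_num : (1 : ℝ) ≤ 3)
  obtain ⟨C3, h3⟩ := mid_count ha hb hc
  refine ⟨max (C2 + C3) C1, fun x hx => ?_⟩
  have hlog2 : 0 < log 2 := log_pos (by norm_num)
  have hlx : log 2 ≤ log x := log_le_log (by norm_num) hx
  have hlx0 : 0 < log x := by linarith
  obtain ⟨f1, e1⟩ := h1 x hx
  obtain ⟨f2, e2⟩ := h2 x hx
  obtain ⟨f3, e3⟩ := h3 x hx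
  rw [one_mul] at f1 e1
  have hup : pairs a b c x \ nearMisses a b c ⊆ rect a b c (2 * x) (3 * x) ∪ mid a b c x := by
    rintro p ⟨hp, hq⟩
    simp only [pairs, Set.mem_ofPred_eq] at hp
    simp only [nearMisses, Set.mem_ofPred_eq, not_lt] at hq
    by_cases h4 : c * a ^ p.1 ≤ 2 * x
    · left
      refine ⟨h4, ?_⟩
      have := (abs_le.1 hp).1
      linarith
    · right
      rw [not_le] at h4
      refine ⟨hq.trans ?_, h4, hp⟩
      exact pow_le_pow_left₀ (abs_nonneg _) hp 2
  have hlow : rect a b c x x ⊆ pairs a b c x := by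
    rintro p ⟨h4, h5⟩
    simp only [pairs, Set.mem_ofPred_eq]
    have h6 : 0 < c * a ^ p.1 := by positivity
    have h7 : 0 < b ^ p.2 := by positivity
    rw [abs_le]
    constructor <;> linarith
  have hfin : (pairs a b c x \ nearMisses a b c).Finite := (f2.union f3).subset hup
  refine ⟨hfin, ?_⟩
  have hcard_up : (((pairs a b c x \ nearMisses a b c).ncard : ℕ) : ℝ) ≤
      (((rect a b c (2 * x) (3 * x)).ncard : ℕ) : ℝ) + (((mid a b c x).ncard : ℕ) : ℝ) := by
    have h4 := Set.ncard_le_ncard hup (f2.union f3)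
    have h5 := Set.ncard_union_le (rect a b c (2 * x) (3 * x)) (mid a b c x)
    exact_mod_cast h4.trans h5
  have hcard_low : (((rect a b c x x).ncard : ℕ) : ℝ) ≤
      (((pairs a b c x \ nearMisses a b c).ncard : ℕ) : ℝ) +
        ((rect a b c x x ∩ nearMisses a b c).ncard : ℕ) := by
    have h4 : rect a b c x x ⊆ (pairs a b c x \ nearMisses a b c) ∪
        (rect a b c x x ∩ nearMisses a b c) := by
      intro p hp
      by_cases hq : p ∈ nearMisses a b c
      · exact Or.inr ⟨hp, hq⟩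
      · exact Or.inl ⟨hlow hp, hq⟩
    have h5 := Set.ncard_le_ncard h4 (hfin.union (f1.subset Set.inter_subset_left))
    have h6 := Set.ncard_union_le (pairs a b c x \ nearMisses a b c)
      (rect a b c x x ∩ nearMisses a b c)
    exact_mod_cast h5.trans h6
  have g1 : (C2 + C3) * log x ≤ max (C2 + C3) C1 * log x :=
    mul_le_mul_of_nonneg_right (le_max_left _ _) hlx0.le
  have g2 : C1 * log x ≤ max (C2 + C3) C1 * log x :=
    mul_le_mul_of_nonneg_right (le_max_right _ _) hlx0.le
  have g3 : (0 : ℝ) ≤ ((rect a b c x x ∩ nearMisses a b c).ncard : ℕ) := Nat.cast_nonneg _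
  rw [abs_le]
  have e1' := abs_le.1 e1
  have e2' := abs_le.1 e2
  constructor
  · linarith [e1'.1]
  · linarith [e2'.2]

end count

end Pool.Agent.R532.Nc
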