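import Pool.Agent.R532.Nc1

/-!
# Near-coincidences: truncated counts and linear forms
-/

set_option autoImplicit false

namespace Pool.Agent.R532.Nc

open Real

variable {a b c : ℝ}

/-- the pairs `(n, m)` with `n ≤ T` and `|c a ^ n - b ^ m| ≤ x` -/
def pairsUpTo (a b c x T : ℝ) : Set (ℕ × ℕ) := {p | (p.1 : ℝ) ≤ T ∧ |c * a ^ p.1 - b ^ p.2| ≤ x}

/-- the `n ≤ T` such that there is a near miss `(n, m)` -/
def nearUpTo (a b c T : ℝ) : Set ℕ := {n | (n : ℝ) ≤ T ∧ ∃ m, (n, m) ∈ nearMisses a b c}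

lemma le_fin (T : ℝ) : {n : ℕ | (n : ℝ) ≤ T}.Finite := by
  obtain ⟨k, hk⟩ := exists_nat_ge T
  refine (Set.finite_Iic k).subset ?_
  intro n hn
  have h1 : (n : ℝ) ≤ k := le_trans hn hk
  exact_mod_cast h1

lemma nearUpTo_fin (T : ℝ) : (nearUpTo a b c T).Finite := (le_fin T).subset fun _ h => h.1

lemma near_ratio (hb : 1 < b) {n m m' : ℕ} (h : (n, m) ∈ nearMisses a b c)
    (h' : (n, m') ∈ nearMisses a b c) : b ^ m' < 6 * b ^ m := by
  simp only [nearMisses, Set.mem_ofPred_eq] at h h'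
  have h1 : 1 ≤ b ^ m := one_le_pow₀ hb.le
  set u : ℝ := c * a ^ n with hu
  set v : ℝ := b ^ m
  set w : ℝ := b ^ m'
  rcases lt_or_ge u 4 with h4 | h4
  · have h2 : |u - w| < 2 := by
      refine lt_of_pow_lt_pow_left₀ 2 (by norm_num) ?_
      linarith
    have h3 := (abs_lt.1 h2).1
    linarith
  · have key : ∀ y : ℝ, |u - y| ^ 2 < u → |u - y| < u / 2 := by
      intro y hy
      refine lt_of_pow_lt_pow_left₀ 2 (by linarith) ?_
      nlinarith
    have h2 := (abs_lt.1 (key w h')).1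
    have h3 := (abs_lt.1 (key v h)).2
    linarith

lemma near_count (hb : 1 < b) : ∃ R : ℕ, ∀ T : ℝ,
    {p : ℕ × ℕ | (p.1 : ℝ) ≤ T ∧ p ∈ nearMisses a b c}.Finite ∧
      {p : ℕ × ℕ | (p.1 : ℝ) ≤ T ∧ p ∈ nearMisses a b c}.ncard ≤ (nearUpTo a b c T).ncard * R := by
  obtain ⟨R, hR⟩ := pow_unbounded_of_one_lt (6 : ℝ) hb
  have hR0 : 0 < R := by
    rcases Nat.eq_zero_or_pos R with h | h
    · rw [h] at hR
      norm_num at hR
    · exact h
  refine ⟨R, fun T => ?_⟩
  set S : Set (ℕ × ℕ) := {p : ℕ × ℕ | (p.1 : ℝ) ≤ T ∧ p ∈ nearMisses a b c} with hS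
  set U : Set (ℕ × ℕ) := (nearUpTo a b c T) ×ˢ ((Finset.range R : Finset ℕ) : Set ℕ) with hU
  have hUf : U.Finite := (nearUpTo_fin T).prod (Finset.finite_toSet _)
  set φ : ℕ × ℕ → ℕ × ℕ := fun p => (p.1, p.2 % R) with hφ
  have hmaps : Set.MapsTo φ S U := by
    rintro p ⟨h1, h2⟩
    refine ⟨⟨h1, p.2, h2⟩, ?_⟩
    simp only [hφ, Finset.coe_range, Set.mem_Iio]
    exact Nat.mod_lt _ hR0
  have key : ∀ p ∈ S, ∀ q ∈ S, p.1 = q.1 → q.2 < p.2 + R := by
    rintro ⟨n, m⟩ ⟨-, h2⟩ ⟨n', m'⟩ ⟨-, h5⟩ hpq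
    change n = n' at hpq
    subst hpq
    have h9 := near_ratio hb h2 h5
    have h10 : b ^ m' < b ^ (m + R) := by
      calc b ^ m' < 6 * b ^ m := h9
        _ ≤ b ^ R * b ^ m := mul_le_mul_of_nonneg_right hR.le (by positivity)
        _ = b ^ (m + R) := by rw [pow_add]; ring
    exact (pow_lt_pow_iff_right₀ hb).1 h10
  have hinj : Set.InjOn φ S := by
    intro p hp q hq h
    simp only [hφ, Prod.mk.injEq] at h
    obtain ⟨h1, h2⟩ := h
    have h3 := key p hp q hq h1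
    have h4 := key q hq p hp h1.symm
    have h5 : p.2 = q.2 := by
      have e1 := Nat.div_add_mod p.2 R
      have e2 := Nat.div_add_mod q.2 R
      have e3 : R * (q.2 / R) < R * (p.2 / R) + R := by omega
      have e4 : R * (p.2 / R) < R * (q.2 / R) + R := by omega
      have e5 : q.2 / R < p.2 / R + 1 := by
        by_contra hcon
        push Not at hcon
        have := Nat.mul_le_mul_left R hcon
        rw [mul_add, mul_one] at this
        omega
      have e6 : p.2 / R < q.2 / R + 1 := by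
        by_contra hcon
        push Not at hcon
        have := Nat.mul_le_mul_left R hcon
        rw [mul_add, mul_one] at this
        omega
      have e7 : p.2 / R = q.2 / R := by omega
      rw [e7] at e1
      omega
    exact Prod.ext h1 h5
  refine ⟨Set.Finite.of_injOn hmaps hinj hUf, ?_⟩
  have h1 : S.ncard ≤ U.ncard := Set.ncard_le_ncard_of_injOn φ hmaps hinj hUf
  rwa [hU, Set.ncard_prod, Set.ncard_coe_finset, Finset.card_range] at h1

lemma n_bound (ha : 1 < a) (hc : 0 < c) {x : ℝ} (hx : 2 ≤ x) {n : ℕ} (h : c * a ^ n ≤ x ^ 2) :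
    (n : ℝ) ≤ (2 + |log c| / log 2) / log a * log x := by
  have hla : 0 < log a := log_pos ha
  have hlog2 : 0 < log 2 := log_pos (by norm_num)
  have hlx : log 2 ≤ log x := log_le_log (by norm_num) hx
  have h1 := log_le_log (by positivity) h
  rw [log_mul hc.ne' (by positivity), log_pow, log_pow] at h1
  push_cast at h1
  have h2 : |log c| ≤ |log c| / log 2 * log x := by
    rw [div_mul_eq_mul_div, le_div_iff₀ hlog2]
    exact mul_le_mul_of_nonneg_left hlx (abs_nonneg _)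
  have h3 := neg_abs_le (log c)
  rw [div_mul_eq_mul_div, le_div_iff₀ hla]
  linarith

/-- **The truncated count.** -/
theorem trunc (ha : 1 < a) (hb : 1 < b) (hc : 0 < c) : ∃ C : ℝ, 0 ≤ C ∧ ∀ x : ℝ, 2 ≤ x →
    ∀ T : ℝ, C * log x ≤ T → (pairsUpTo a b c x T).Finite ∧
      |(((pairsUpTo a b c x T).ncard : ℕ) : ℝ) - log x ^ 2 / (log a * log b)| ≤
        C * log x + C * ((nearUpTo a b c T).ncard : ℕ) := by
  obtain ⟨C0, hC0⟩ := off_near ha hb hc
  obtain ⟨R, hR⟩ := near_count (a := a) (c := c) hb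
  have hla : 0 < log a := log_pos ha
  have hlog2 : 0 < log 2 := log_pos (by norm_num)
  set K : ℝ := (2 + |log c| / log 2) / log a with hK
  have hK0 : 0 ≤ K := by positivity
  refine ⟨|C0| + K + 2 * R, by positivity, fun x hx T hT => ?_⟩
  have hlx : log 2 ≤ log x := log_le_log (by norm_num) hx
  have hlx0 : 0 < log x := by linarith
  have hR0 : (0 : ℝ) ≤ R := Nat.cast_nonneg R
  have hKT : K * log x ≤ T := by
    refine le_trans ?_ hT
    refine mul_le_mul_of_nonneg_right ?_ hlx0.le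
    have := abs_nonneg C0
    linarith
  obtain ⟨f1, e1⟩ := hC0 x hx
  obtain ⟨f2, e2⟩ := hR T
  set A : Set (ℕ × ℕ) := pairs a b c x \ nearMisses a b c with hA
  set B : Set (ℕ × ℕ) := {p : ℕ × ℕ | (p.1 : ℝ) ≤ T ∧ p ∈ nearMisses a b c} with hB
  have hsub1 : pairsUpTo a b c x T ⊆ A ∪ B := by
    rintro p ⟨h1, h2⟩
    by_cases hp : p ∈ nearMisses a b c
    · exact Or.inr ⟨h1, hp⟩
    · exact Or.inl ⟨h2, hp⟩
  have hsub2 : A ⊆ pairsUpTo a b c x T := by
    rintro p ⟨h1, h2⟩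
    refine ⟨?_, h1⟩
    simp only [nearMisses, Set.mem_ofPred_eq, not_lt] at h2
    simp only [pairs, Set.mem_ofPred_eq] at h1
    exact (n_bound ha hc hx (h2.trans (pow_le_pow_left₀ (abs_nonneg _) h1 2))).trans hKT
  have hsub3 : rect a b c x x ∩ nearMisses a b c ⊆ B := by
    rintro p ⟨⟨h1, -⟩, h2⟩
    refine ⟨(n_bound ha hc hx (h1.trans ?_)).trans hKT, h2⟩
    nlinarith
  have hfin : (pairsUpTo a b c x T).Finite := (f1.union f2).subset hsub1
  refine ⟨hfin, ?_⟩
  have g1 : (((pairsUpTo a b c x T).ncard : ℕ) : ℝ) ≤ ((A.ncard : ℕ) : ℝ) + ((B.ncard : ℕ) : ℝ) := by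
    have h4 := Set.ncard_le_ncard hsub1 (f1.union f2)
    have h5 := Set.ncard_union_le A B
    exact_mod_cast h4.trans h5
  have g2 : ((A.ncard : ℕ) : ℝ) ≤ (((pairsUpTo a b c x T).ncard : ℕ) : ℝ) := by
    exact_mod_cast Set.ncard_le_ncard hsub2 hfin
  have g3 : (((rect a b c x x ∩ nearMisses a b c).ncard : ℕ) : ℝ) ≤ ((B.ncard : ℕ) : ℝ) := by
    exact_mod_cast Set.ncard_le_ncard hsub3 f2
  have g4 : ((B.ncard : ℕ) : ℝ) ≤ ((nearUpTo a b c T).ncard : ℕ) * (R : ℝ) := by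
    exact_mod_cast e2
  have g5 : (0 : ℝ) ≤ ((nearUpTo a b c T).ncard : ℕ) := Nat.cast_nonneg _
  have g6 : C0 * log x ≤ |C0| * log x := mul_le_mul_of_nonneg_right (le_abs_self _) hlx0.le
  have g7 := abs_le.1 e1
  have g8 : 0 ≤ |C0| := abs_nonneg _
  have g9 : 0 ≤ (|C0| + K) * ((nearUpTo a b c T).ncard : ℕ) := by positivity
  have g10 : 0 ≤ (K + 2 * R) * log x := by positivity
  rw [abs_le]
  constructor
  · nlinarith [g7.1]
  · nlinarith [g7.2]

/-- near misses give small linear forms -/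
lemma lin_form (ha : 1 < a) (hb : 1 < b) (hc : 0 < c) {n m : ℕ} (h : (n, m) ∈ nearMisses a b c)
    (h4 : 4 ≤ c * a ^ n) : |log c + n * log a - m * log b| ≤ 2 / √(c * a ^ n) := by
  simp only [nearMisses, Set.mem_ofPred_eq] at h
  have hv : 0 < b ^ m := by positivity
  have e1 : log c + n * log a = log (c * a ^ n) := by
    rw [log_mul hc.ne' (by positivity), log_pow]
  have e2 : m * log b = log (b ^ m) := by rw [log_pow]
  rw [e1, e2]
  set u : ℝ := c * a ^ n with hu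
  set v : ℝ := b ^ m
  have hu0 : 0 < u := by linarith
  have hs : 2 ≤ √u := by
    rw [le_sqrt' (by norm_num)]
    linarith
  have hs0 : 0 < √u := by linarith
  have hsq : √u * √u = u := mul_self_sqrt hu0.le
  have h1 : |u - v| < √u := by
    refine lt_of_pow_lt_pow_left₀ 2 hs0.le ?_
    rw [sq_sqrt hu0.le]
    exact h
  have h2 := abs_lt.1 h1
  have e3 : log u - log v = - log (v / u) := by
    rw [log_div hv.ne' hu0.ne']
    ring
  rw [e3, abs_neg]
  have hvu : 0 < v / u := div_pos hv hu0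
  have h5 : log (v / u) ≤ v / u - 1 := log_le_sub_one_of_pos hvu
  have h6 : 1 - (v / u)⁻¹ ≤ log (v / u) := one_sub_inv_le_log_of_pos hvu
  have h7 : v / u - 1 ≤ 2 / √u := by
    rw [div_sub_one hu0.ne', div_le_div_iff₀ hu0 hs0]
    nlinarith
  have h8 : -(2 / √u) ≤ 1 - (v / u)⁻¹ := by
    rw [inv_div, one_sub_div hv.ne', ← neg_div, div_le_div_iff₀ hs0 hv]
    have h9 : u / 2 ≤ v := by nlinarith
    nlinarith
  rw [abs_le]
  constructor <;> linarith

end Pool.Agent.R532.Nc
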