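import Pool.Agent.R532.Nc2

/-!
# Near-coincidences: the gap principle for dilated powers
-/

set_option autoImplicit false

namespace Pool.Agent.R532.Nc

open Real Filter Asymptotics Topology

/-- a finite irrationality measure -/
def Meas (γ : ℝ) : Prop :=
  ∃ μ : ℕ, ∃ κ : ℝ, 0 < κ ∧ ∀ n : ℕ, 1 ≤ n → ∀ k : ℤ, κ ≤ (n : ℝ) ^ μ * |n * γ - k|

theorem meas_of {γ : ℝ} (h1 : Irrational γ) (h2 : ¬ Liouville γ) : Meas γ := by
  simp only [Liouville, not_forall, not_exists] at h2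
  obtain ⟨μ, hμ⟩ := h2
  have key : ∀ n : ℕ, 1 < n → ∀ k : ℤ, 1 / (n : ℝ) ^ μ ≤ |γ - k / n| := by
    intro n hn k
    have h3 := hμ k n
    simp only [not_and, not_lt] at h3
    have h4 : γ ≠ ((k : ℤ) : ℝ) / (((n : ℕ) : ℤ) : ℝ) := by
      intro h5
      apply h1
      refine ⟨(k : ℚ) / (n : ℚ), ?_⟩
      rw [h5]
      push_cast
      rfl
    have h5 := h3 (by exact_mod_cast hn) h4
    simpa using h5
  refine ⟨μ, 1 / 2 ^ μ, by positivity, fun n hn k => ?_⟩
  rcases Nat.lt_or_ge 1 n with h | h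
  · have h3 := key n h k
    have hn0 : (0 : ℝ) < n := by exact_mod_cast hn
    have h4 : |(n : ℝ) * γ - k| = n * |γ - k / n| := by
      rw [← abs_of_pos hn0, ← abs_mul, abs_of_pos hn0]
      congr 1
      field_simp
    rw [h4]
    have h5 : (1 : ℝ) ≤ n := by exact_mod_cast hn
    rw [div_le_iff₀ (by positivity)] at h3
    have h6 : (1 : ℝ) / 2 ^ μ ≤ 1 := by
      rw [div_le_one (by positivity)]
      exact one_le_pow₀ (by norm_num)
    have h7 : 0 ≤ |γ - k / n| * (n : ℝ) ^ μ := by positivity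
    nlinarith
  · have hn1 : n = 1 := by omega
    subst hn1
    have h3 := key 2 (by norm_num) (2 * k)
    push_cast at h3
    rw [mul_div_cancel_left₀ _ (by norm_num : (2 : ℝ) ≠ 0)] at h3
    simpa using h3

variable {a b c : ℝ}

/-- **The gap principle.** -/
theorem gap (ha : 1 < a) (hb : 1 < b) (hc : 0 < c) (hγ : Meas (log c / log b)) :
    ∃ κ : ℝ, 0 < κ ∧ ∃ N : ℕ, ∀ n m n' m' : ℕ, N ≤ n → n < n' → (n, m) ∈ nearMisses a b c →
      (n', m') ∈ nearMisses a b c → exp (κ * n) ≤ n' := by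
  obtain ⟨μ, κ, hκ, hm⟩ := hγ
  have hla : 0 < log a := log_pos ha
  have hlb : 0 < log b := log_pos hb
  set W : ℝ := κ * √c * log b / 4 with hW
  have hsc : 0 < √c := sqrt_pos.2 hc
  have hW0 : 0 < W := by positivity
  obtain ⟨N1, hN1⟩ := exists_nat_ge (4 * |log W| / log a)
  obtain ⟨N2, hN2⟩ := pow_unbounded_of_one_lt (4 / c) ha
  refine ⟨log a / (4 * (μ + 1)), by positivity, max 1 (max N1 N2), fun n m n' m' hn hnn h h' => ?_⟩
  have hn1 : 1 ≤ n := (le_max_left _ _).trans hn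
  have hnN1 : N1 ≤ n := ((le_max_left _ _).trans (le_max_right _ _)).trans hn
  have hnN2 : N2 ≤ n := ((le_max_right _ _).trans (le_max_right _ _)).trans hn
  have h4 : ∀ k : ℕ, n ≤ k → 4 ≤ c * a ^ k := by
    intro k hk
    have h1 : a ^ N2 ≤ a ^ k := pow_le_pow_right₀ ha.le (hnN2.trans hk)
    have h2 : 4 / c ≤ a ^ k := hN2.le.trans h1
    rw [div_le_iff₀ hc] at h2
    linarith
  have l1 := lin_form ha hb hc h (h4 n le_rfl)
  have l2 := lin_form ha hb hc h' (h4 n' hnn.le)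
  have hu : 0 < c * a ^ n := by positivity
  have hs : 0 < √(c * a ^ n) := sqrt_pos.2 hu
  have hn0 : (0 : ℝ) < n := by exact_mod_cast hn1
  have hn'0 : (0 : ℝ) < n' := by exact_mod_cast (hn1.trans hnn.le)
  have hnn' : (n : ℝ) ≤ n' := by exact_mod_cast hnn.le
  have l3 : 2 / √(c * a ^ n') ≤ 2 / √(c * a ^ n) := by
    refine div_le_div_of_nonneg_left (by norm_num) hs (sqrt_le_sqrt ?_)
    exact mul_le_mul_of_nonneg_left (pow_le_pow_right₀ ha.le hnn.le) hc.le
  set δ : ℝ := 2 / √(c * a ^ n) with hδ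
  have hδ0 : 0 < δ := by positivity
  set L1 : ℝ := log c + n * log a - m * log b with hL1
  set L2 : ℝ := log c + n' * log a - m' * log b with hL2
  -- elimination of `log a`
  have e1 : ((n' - n : ℕ) : ℝ) * (log c / log b) - (((n' * m : ℤ) - n * m' : ℤ) : ℝ) =
      (n' * L1 - n * L2) / log b := by
    rw [hL1, hL2, Nat.cast_sub hnn.le]
    push_cast
    field_simp
    ring
  have e2 := hm (n' - n) (by omega) ((n' * m : ℤ) - n * m' : ℤ)
  rw [e1] at e2
  have e3 : |n' * L1 - n * L2| ≤ 2 * n' * δ := by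
    calc |n' * L1 - n * L2| ≤ |n' * L1| + |n * L2| := abs_sub _ _
      _ = n' * |L1| + n * |L2| := by
        rw [abs_mul, abs_mul, abs_of_pos hn0, abs_of_pos hn'0]
      _ ≤ n' * δ + n' * δ := by
        refine add_le_add (mul_le_mul_of_nonneg_left l1 hn'0.le) ?_
        exact mul_le_mul hnn' (l2.trans l3) (abs_nonneg _) hn'0.le
      _ = 2 * n' * δ := by ring
  have e4 : ((n' - n : ℕ) : ℝ) ^ μ ≤ (n' : ℝ) ^ μ := by
    refine pow_le_pow_left₀ (Nat.cast_nonneg _) ?_ μ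
    exact_mod_cast Nat.sub_le n' n
  have e5 : κ ≤ (n' : ℝ) ^ μ * (2 * n' * δ / log b) := by
    refine e2.trans ?_
    refine mul_le_mul e4 ?_ (abs_nonneg _) (by positivity)
    rw [abs_div, abs_of_pos hlb]
    exact div_le_div_of_nonneg_right e3 hlb.le
  have e6 : W * √a ^ n ≤ (n' : ℝ) ^ (μ + 1) := by
    have e7 : √(c * a ^ n) = √c * √a ^ n := by
      have e8 : √a ^ n * √a ^ n = a ^ n := by
        rw [← mul_pow, mul_self_sqrt (by linarith)]
      rw [sqrt_mul hc.le, ← e8, sqrt_mul_self (by positivity)]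
    rw [hδ, e7] at e5
    have hsa : 0 < √a ^ n := by
      have : 0 < √a := sqrt_pos.2 (by linarith)
      positivity
    have e8 : (n' : ℝ) ^ μ * (2 * n' * (2 / (√c * √a ^ n)) / log b) =
        4 * (n' : ℝ) ^ (μ + 1) / (√c * √a ^ n * log b) := by
      rw [pow_succ]
      field_simp
      ring
    rw [e8, le_div_iff₀ (by positivity)] at e5
    rw [hW]
    linarith
  have hsa : 0 < √a := sqrt_pos.2 (by linarith)
  have e9 := log_le_log (by positivity) e6
  rw [log_mul hW0.ne' (by positivity), log_pow, log_pow, log_sqrt (by linarith)] at e9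
  push_cast at e9
  have e10 : |log W| ≤ n * log a / 4 := by
    have h1 : 4 * |log W| / log a ≤ n := hN1.trans (by exact_mod_cast hnN1)
    rw [div_le_iff₀ hla] at h1
    linarith
  have e11 := neg_abs_le (log W)
  have e12 : log a / (4 * (μ + 1)) * n ≤ log n' := by
    rw [div_mul_eq_mul_div, div_le_iff₀ (by positivity)]
    nlinarith
  calc exp (log a / (4 * (μ + 1)) * n) ≤ exp (log n') := exp_le_exp.2 e12
    _ = n' := exp_log hn'0

/-- the tower `2 ^ 2 ^ ... ^ 2` of height `h` -/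
def tower : ℕ → ℕ
  | 0 => 1
  | h + 1 => 2 ^ tower h

lemma tower_pos (h : ℕ) : 1 ≤ tower h := by
  cases h with
  | zero => exact le_rfl
  | succ h => exact Nat.one_le_two_pow

lemma tower_lt (h : ℕ) : tower h < tower (h + 1) := Nat.lt_two_pow_self

lemma chain {κ : ℝ} (hκ : 0 < κ) {S : Set ℕ} {A : ℕ} (hA : 1 ≤ A)
    (hAκ : log A + log 2 ≤ κ * A)
    (hS : ∀ n ∈ S, ∀ n' ∈ S, A ≤ n → n < n' → exp (κ * n) ≤ n') :
    ∀ k : ℕ, ∀ F : Finset ℕ, (∀ n ∈ F, n ∈ S ∧ A ≤ n) → F.card = k + 1 →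
      ∃ n ∈ F, A * tower k ≤ n := by
  intro k
  induction k with
  | zero =>
    intro F hF hcard
    obtain ⟨n, hn⟩ := Finset.card_pos.1 (by omega : 0 < F.card)
    exact ⟨n, hn, by simpa [tower] using (hF n hn).2⟩
  | succ k ih =>
    intro F hF hcard
    have hne : F.Nonempty := Finset.card_pos.1 (by omega)
    set M := F.max' hne with hM
    have hMF : M ∈ F := Finset.max'_mem F hne
    obtain ⟨n, hn, hn2⟩ := ih (F.erase M) (fun n hn => hF n (Finset.mem_of_mem_erase hn)) (by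
      rw [Finset.card_erase_of_mem hMF, hcard]
      omega)
    have hnF := Finset.mem_of_mem_erase hn
    have hlt : n < M := lt_of_le_of_ne (Finset.le_max' F n hnF) (Finset.ne_of_mem_erase hn)
    have h1 := hS n (hF n hnF).1 M (hF M hMF).1 (hF n hnF).2 hlt
    refine ⟨M, hMF, ?_⟩
    have hA0 : (0 : ℝ) < A := by exact_mod_cast hA
    have ht : (1 : ℝ) ≤ tower k := by exact_mod_cast tower_pos k
    have hlA : 0 ≤ log A := log_nonneg (by exact_mod_cast hA)
    have h2 : log (A * 2 ^ tower k : ℝ) ≤ κ * n := by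
      rw [log_mul hA0.ne' (by positivity), log_pow]
      have h3 : (A : ℝ) * tower k ≤ n := by exact_mod_cast hn2
      have h4 : log A ≤ log A * tower k := le_mul_of_one_le_right hlA ht
      calc log A + tower k * log 2 ≤ (log A + log 2) * tower k := by linarith
        _ ≤ κ * A * tower k := mul_le_mul_of_nonneg_right hAκ (by linarith)
        _ = κ * (A * tower k) := by ring
        _ ≤ κ * n := mul_le_mul_of_nonneg_left h3 hκ.le
    have h5 : (A * 2 ^ tower k : ℝ) ≤ M := by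
      calc (A * 2 ^ tower k : ℝ) = exp (log (A * 2 ^ tower k)) := (exp_log (by positivity)).symm
        _ ≤ exp (κ * n) := exp_le_exp.2 h2
        _ ≤ M := h1
    have h6 : A * 2 ^ tower k ≤ M := by exact_mod_cast h5
    exact h6

lemma exists_start {κ : ℝ} (hκ : 0 < κ) (N : ℕ) :
    ∃ A : ℕ, N ≤ A ∧ 1 ≤ A ∧ log A + log 2 ≤ κ * A := by
  have h1 : ∀ᶠ y : ℝ in atTop, ‖log y‖ ≤ κ / 2 * ‖y‖ :=
    isLittleO_log_id_atTop.def (by positivity)
  have h2 : ∀ᶠ y : ℝ in atTop, 2 * log 2 / κ ≤ y := eventually_ge_atTop _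
  have h3 : ∀ᶠ k : ℕ in atTop, ‖log (k : ℝ)‖ ≤ κ / 2 * ‖(k : ℝ)‖ :=
    tendsto_natCast_atTop_atTop.eventually h1
  have h4 : ∀ᶠ k : ℕ in atTop, 2 * log 2 / κ ≤ (k : ℝ) := tendsto_natCast_atTop_atTop.eventually h2
  obtain ⟨A, hA, hA2, hA3, hA4⟩ :=
    (h3.and (h4.and ((eventually_ge_atTop N).and (eventually_ge_atTop 1)))).exists
  refine ⟨A, hA3, hA4, ?_⟩
  have hA0 : (0 : ℝ) ≤ A := Nat.cast_nonneg A
  rw [norm_eq_abs, norm_eq_abs, abs_of_nonneg hA0] at hA
  rw [div_le_iff₀ hκ] at hA2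
  have := le_abs_self (log (A : ℝ))
  linarith

/-- sets with exponential gaps are very thin -/
theorem tower_count {κ : ℝ} (hκ : 0 < κ) (N : ℕ) : ∃ C : ℝ, 0 ≤ C ∧ ∀ S : Set ℕ,
    (∀ n ∈ S, ∀ n' ∈ S, N ≤ n → n < n' → exp (κ * n) ≤ n') → ∀ h : ℕ, ∀ T : ℝ,
      T ≤ tower h → (({n : ℕ | n ∈ S ∧ (n : ℝ) ≤ T}.ncard : ℕ) : ℝ) ≤ h + C := by
  obtain ⟨A, hNA, hA1, hAκ⟩ := exists_start hκ N
  refine ⟨A + 1, by positivity, fun S hS h T hT => ?_⟩
  set F0 : Set ℕ := {n : ℕ | n ∈ S ∧ (n : ℝ) ≤ T} with hF0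
  have hfin : F0.Finite := (le_fin T).subset fun n hn => hn.2
  classical
  set F : Finset ℕ := hfin.toFinset.filter (fun n => A ≤ n) with hF
  have hcard : F.card ≤ h + 1 := by
    by_contra hcon
    push Not at hcon
    obtain ⟨G, hGF, hG⟩ := Finset.exists_subset_card_eq (show h + 2 ≤ F.card by omega)
    obtain ⟨n, hn, hn2⟩ := chain hκ hA1 hAκ (S := S)
      (fun n hn n' hn' h1 h2 => hS n hn n' hn' (hNA.trans h1) h2) (h + 1) G (by
        intro n hn
        have h1 := hGF hn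
        rw [hF, Finset.mem_filter, Set.Finite.mem_toFinset] at h1
        exact ⟨h1.1.1, h1.2⟩) hG
    have h1 := hGF hn
    rw [hF, Finset.mem_filter, Set.Finite.mem_toFinset] at h1
    have h2 : (n : ℝ) ≤ tower h := h1.1.2.trans hT
    have h3 : n ≤ tower h := by exact_mod_cast h2
    have h4 := tower_lt h
    have h5 : tower (h + 1) ≤ A * tower (h + 1) := Nat.le_mul_of_pos_left _ hA1
    omega
  have hsub : F0 ⊆ ((Finset.range A ∪ F : Finset ℕ) : Set ℕ) := by
    intro n hn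
    rw [Finset.mem_coe, Finset.mem_union, Finset.mem_range]
    rcases Nat.lt_or_ge n A with h1 | h1
    · exact Or.inl h1
    · refine Or.inr ?_
      rw [hF, Finset.mem_filter, Set.Finite.mem_toFinset]
      exact ⟨hn, h1⟩
  have h1 := Set.ncard_le_ncard hsub (Finset.finite_toSet _)
  rw [Set.ncard_coe_finset] at h1
  have h2 := Finset.card_union_le (Finset.range A) F
  rw [Finset.card_range] at h2
  have h3 : F0.ncard ≤ h + (A + 1) := by omega
  exact_mod_cast h3

end Pool.Agent.R532.Nc
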