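import Pool.Agent.R532.Nc3
import Pool.Agent.R473.JC.Pairs

/-!
# Near-coincidences: two pairs of bases
-/

set_option autoImplicit false

namespace Pool.Agent.R532.Nc

open Real Filter Asymptotics Topology Polynomial
open Pool.Agent.R356 Pool.Agent.TH456.TM Pool.Agent.R473.JC

/-- numbers with a transcendence measure are not Liouville -/
theorem meas_of_measT {x : ℝ} (hx : MeasT (x : ℂ)) : Irrational x ∧ ¬ Liouville x := by
  have key : ∃ κ : ℕ, ∃ c : ℝ, 0 < c ∧ ∀ a b : ℤ, 1 ≤ b → c ≤ (b : ℝ) ^ κ * |b * x - a| := by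
    obtain ⟨κ, c, hκ, hc, h⟩ := hx 1
    obtain ⟨k, hk⟩ := exists_nat_ge κ
    refine ⟨k, min 1 (c / (|x| + 1) ^ k), by positivity, fun a b hb => ?_⟩
    have hb0 : (1 : ℝ) ≤ b := by exact_mod_cast hb
    have hbk : (1 : ℝ) ≤ (b : ℝ) ^ k := one_le_pow₀ hb0
    rcases lt_or_ge |b * x - a| 1 with h1 | h1
    · have hP : (C b * X - C a : ℤ[X]) ≠ 0 := by
        intro h0
        have h2 := congrArg (fun P : ℤ[X] => P.coeff 1) h0
        simp only [coeff_sub, coeff_C_mul, coeff_X_one, mul_one, coeff_zero] at h2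
        rw [coeff_C_ne_zero (by norm_num)] at h2
        omega
      have hdeg : (C b * X - C a : ℤ[X]).natDegree ≤ 1 := by
        compute_degree
      have ha : |(a : ℝ)| ≤ (|x| + 1) * b := by
        have h2 : |(a : ℝ)| ≤ |b * x| + |b * x - a| := by
          calc |(a : ℝ)| = |b * x - (b * x - a)| := by ring_nf
            _ ≤ |b * x| + |b * x - a| := abs_sub _ _
        rw [abs_mul, abs_of_pos (by linarith : (0 : ℝ) < b)] at h2
        nlinarith [abs_nonneg x]
      have hH : (1 : ℝ) ≤ (|x| + 1) * b := by nlinarith [abs_nonneg x]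
      have h3 := h (C b * X - C a) hP hdeg ((|x| + 1) * b) hH (by
        intro j
        rcases j with _ | _ | j
        · simp only [coeff_sub, coeff_C_mul, coeff_X_zero, mul_zero, coeff_C_zero, zero_sub]
          push_cast
          rwa [abs_neg]
        · simp only [zero_add, coeff_sub, coeff_C_mul, coeff_X_one, mul_one]
          rw [coeff_C_ne_zero (by norm_num), sub_zero, abs_of_pos (by linarith : (0 : ℝ) < b)]
          nlinarith [abs_nonneg x]
        · simp only [coeff_sub, coeff_C_mul]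
          rw [coeff_C_ne_zero (by omega), coeff_X, if_neg (by omega)]
          simp only [mul_zero, sub_zero, Int.cast_zero, abs_zero]
          linarith)
      have h4 : ‖aeval (x : ℂ) (C b * X - C a : ℤ[X])‖ = |b * x - a| := by
        have h5 : aeval (x : ℂ) (C b * X - C a : ℤ[X]) = ((b * x - a : ℝ) : ℂ) := by
          simp only [map_sub, map_mul, aeval_X, aeval_C]
          simp
        rw [h5, Complex.norm_real, norm_eq_abs]
      rw [h4] at h3
      have h5 : ((|x| + 1) * b) ^ κ ≤ ((|x| + 1) * b) ^ k := by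
        rw [← rpow_natCast]
        exact rpow_le_rpow_of_exponent_le hH hk
      refine (min_le_right _ _).trans ?_
      rw [div_le_iff₀ (by positivity)]
      calc c ≤ ((|x| + 1) * b) ^ κ * |b * x - a| := h3
        _ ≤ ((|x| + 1) * b) ^ k * |b * x - a| := mul_le_mul_of_nonneg_right h5 (abs_nonneg _)
        _ = (b : ℝ) ^ k * |b * x - a| * (|x| + 1) ^ k := by
          rw [mul_pow]
          ring
    · refine (min_le_left _ _).trans ?_
      nlinarith
  obtain ⟨κ, c, hc, h⟩ := key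
  have hirr : Irrational x := by
    rintro ⟨q, hq⟩
    have h1 := h q.num q.den (by exact_mod_cast q.den_pos)
    have h2 : (((q.den : ℕ) : ℤ) : ℝ) * x - ((q.num : ℤ) : ℝ) = 0 := by
      rw [← hq]
      have h3 : (q.den : ℚ) * q = q.num := Rat.den_mul_eq_num q
      have h4 : ((q.den : ℝ)) * (q : ℝ) = ((q.num : ℤ) : ℝ) := by exact_mod_cast h3
      push_cast
      linarith
    rw [h2, abs_zero, mul_zero] at h1
    linarith
  refine ⟨hirr, fun hL => ?_⟩
  obtain ⟨s, hs⟩ := pow_unbounded_of_one_lt (1 / c) (by norm_num : (1 : ℝ) < 2)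
  obtain ⟨a, b, hb, -, hab⟩ := hL (κ + 1 + s)
  have h1 := h a b (by omega)
  have hb1 : (2 : ℝ) ≤ b := by exact_mod_cast hb
  have hb0 : (0 : ℝ) < b := by linarith
  have h2 : |(b : ℝ) * x - a| = b * |x - a / b| := by
    rw [← abs_of_pos hb0, ← abs_mul, abs_of_pos hb0]
    congr 1
    field_simp
  rw [h2] at h1
  have h3 : (b : ℝ) ^ κ * (b * |x - a / b|) < (b : ℝ) ^ κ * (b * (1 / b ^ (κ + 1 + s))) := by
    refine mul_lt_mul_of_pos_left ?_ (by positivity)
    exact mul_lt_mul_of_pos_left hab hb0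
  have h4 : (b : ℝ) ^ κ * (b * (1 / b ^ (κ + 1 + s))) = 1 / b ^ s := by
    rw [pow_add, pow_succ]
    field_simp
  have h5 : (2 : ℝ) ^ s ≤ (b : ℝ) ^ s := pow_le_pow_left₀ (by norm_num) hb1 s
  have h6 : 1 / c < (b : ℝ) ^ s := hs.trans_le h5
  rw [div_lt_iff₀ hc] at h6
  have h7 : c < 1 / (b : ℝ) ^ s := by
    rw [← h4]
    exact h1.trans_lt h3
  rw [lt_div_iff₀ (by positivity)] at h7
  linarith

theorem log_rat (q : ℚ) (hq : 0 < q) (hq1 : q ≠ 1) :
    Irrational (log q) ∧ ¬ Liouville (log q) := meas_of_measT (measT_real_log q hq hq1)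

/-- a linear integer polynomial -/
lemma lin_poly (u : ℝ) {n : ℕ} (hn : 1 ≤ n) (m : ℕ) {H : ℝ} (h1 : (n : ℝ) ≤ H) (h2 : (m : ℝ) ≤ H) :
    (C (n : ℤ) * X - C (m : ℤ) : ℤ[X]) ≠ 0 ∧ (C (n : ℤ) * X - C (m : ℤ) : ℤ[X]).natDegree ≤ 1 ∧
      (∀ k, |(((C (n : ℤ) * X - C (m : ℤ) : ℤ[X]).coeff k : ℤ) : ℝ)| ≤ H) ∧
      aeval u (C (n : ℤ) * X - C (m : ℤ) : ℤ[X]) = n * u - m := by
  have hm0 : (0 : ℝ) ≤ m := Nat.cast_nonneg m
  refine ⟨?_, ?_, ?_, ?_⟩
  · intro h0
    have h2 := congrArg (fun P : ℤ[X] => P.coeff 1) h0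
    simp only [coeff_sub, coeff_C_mul, coeff_X_one, mul_one, coeff_zero] at h2
    rw [coeff_C_ne_zero (by norm_num)] at h2
    omega
  · compute_degree
  · intro j
    rcases j with _ | _ | j
    · simp only [coeff_sub, coeff_C_mul, coeff_X_zero, mul_zero, coeff_C_zero, zero_sub]
      push_cast
      rwa [abs_neg, abs_of_nonneg hm0]
    · simp only [zero_add, coeff_sub, coeff_C_mul, coeff_X_one, mul_one]
      rw [coeff_C_ne_zero (by norm_num), sub_zero]
      push_cast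
      rwa [abs_of_nonneg (Nat.cast_nonneg n)]
    · simp only [coeff_sub, coeff_C_mul]
      rw [coeff_C_ne_zero (by omega), coeff_X, if_neg (by omega)]
      simp only [mul_zero, sub_zero, Int.cast_zero, abs_zero]
      linarith
  · simp only [map_sub, map_mul, aeval_X, aeval_C]
    simp

/-- near misses are good approximations -/
lemma near_approx {a b : ℝ} (ha : 1 < a) (hb : 1 < b) {n m : ℕ} (h4 : 4 ≤ a ^ n)
    (h : (n, m) ∈ nearMisses a b 1) :
    |n * (log a / log b) - m| ≤ 2 / log b * exp (-(log a / 2) * n) ∧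
      (m : ℝ) ≤ (log a / log b + 1 / log b) * n + 1 / log b := by
  have hla : 0 < log a := log_pos ha
  have hlb : 0 < log b := log_pos hb
  have ha0 : 0 < a := by linarith
  have h1 := lin_form ha hb one_pos h (by rwa [one_mul])
  rw [log_one, zero_add, one_mul] at h1
  have h2 : |n * (log a / log b) - m| = |n * log a - m * log b| / log b := by
    rw [← abs_of_pos hlb, ← abs_div, abs_of_pos hlb]
    congr 1
    field_simp
  have hsq : 0 < √(a ^ n) := sqrt_pos.2 (by positivity)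
  have h3 : 1 / √(a ^ n) = exp (-(log a / 2) * n) := by
    have h5 : √(a ^ n) = exp (log a / 2 * n) := by
      rw [← sqrt_sq (exp_pos (log a / 2 * n)).le]
      congr 1
      rw [← exp_nat_mul]
      have h6 : ((2 : ℕ) : ℝ) * (log a / 2 * n) = n * log a := by
        push_cast
        ring
      rw [h6, exp_nat_mul, exp_log ha0]
    rw [h5, one_div, ← exp_neg]
    congr 1
    ring
  have h5 : 2 / √(a ^ n) = 2 * exp (-(log a / 2) * n) := by
    rw [← h3]
    ring
  rw [h5] at h1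
  have h6 : exp (-(log a / 2) * n) ≤ 1 / 2 := by
    rw [← h3, div_le_div_iff₀ hsq (by norm_num)]
    have h7 : (2 : ℝ) ≤ √(a ^ n) := by
      rw [le_sqrt' (by norm_num)]
      linarith
    linarith
  refine ⟨?_, ?_⟩
  · rw [h2, div_le_iff₀ hlb]
    refine h1.trans (le_of_eq ?_)
    field_simp
  · have h7 := (abs_le.1 h1).1
    have h8 : m * log b ≤ n * log a + 1 := by linarith
    have hn0 : (0 : ℝ) ≤ n := Nat.cast_nonneg n
    have h9 : (m : ℝ) ≤ (n * log a + 1) / log b := by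
      rwa [le_div_iff₀ hlb]
    refine h9.trans ?_
    have h10 : (n * log a + 1) / log b = log a / log b * n + 1 / log b := by
      field_simp
    rw [h10]
    have h11 : 0 ≤ 1 / log b * n := by positivity
    linarith

/-- **Near misses for two pairs of bases repel each other.** -/
theorem repel {a₁ b₁ a₂ b₂ : ℝ} (ha₁ : 1 < a₁) (hb₁ : 1 < b₁) (ha₂ : 1 < a₂) (hb₂ : 1 < b₂)
    (hJ : JointR (log a₁ / log b₁) (log a₂ / log b₂)) : ∃ κ : ℝ, 0 < κ ∧ ∃ N : ℝ,
      ∀ n m n' m' : ℕ, N ≤ n → N ≤ n' → (n, m) ∈ nearMisses a₁ b₁ 1 →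
        (n', m') ∈ nearMisses a₂ b₂ 1 → exp (κ * min (n : ℝ) n') ≤ max (n : ℝ) n' := by
  obtain ⟨κ, C, hκ, hC, hj⟩ := hJ 1
  have hla₁ : 0 < log a₁ := log_pos ha₁
  have hlb₁ : 0 < log b₁ := log_pos hb₁
  have hla₂ : 0 < log a₂ := log_pos ha₂
  have hlb₂ : 0 < log b₂ := log_pos hb₂
  obtain ⟨N1, hN1⟩ := pow_unbounded_of_one_lt (4 : ℝ) ha₁
  obtain ⟨N2, hN2⟩ := pow_unbounded_of_one_lt (4 : ℝ) ha₂
  set K : ℝ := max (log a₁ / log b₁ + 1 / log b₁ + 1 / log b₁)
    (log a₂ / log b₂ + 1 / log b₂ + 1 / log b₂) + 1 with hK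
  have hK1 : 1 ≤ K := by
    have : 0 < log a₁ / log b₁ + 1 / log b₁ + 1 / log b₁ := by positivity
    have := le_max_left (log a₁ / log b₁ + 1 / log b₁ + 1 / log b₁)
      (log a₂ / log b₂ + 1 / log b₂ + 1 / log b₂)
    linarith
  set α : ℝ := min (log a₁ / 2) (log a₂ / 2) with hα
  have hα0 : 0 < α := by positivity
  set A : ℝ := max (2 / log b₁) (2 / log b₂) with hA
  have hA0 : 0 < A := lt_max_of_lt_left (by positivity)
  set W : ℝ := log C - log A - κ * log K with hW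
  refine ⟨α / (2 * κ), by positivity, max 1 (max (max N1 N2) (2 * |W| / α)),
    fun n m n' m' hn hn' h h' => ?_⟩
  have hn1 : (1 : ℝ) ≤ n := (le_max_left _ _).trans hn
  have hn'1 : (1 : ℝ) ≤ n' := (le_max_left _ _).trans hn'
  have hnN : (max N1 N2 : ℝ) ≤ n := ((le_max_left _ _).trans (le_max_right _ _)).trans hn
  have hn'N : (max N1 N2 : ℝ) ≤ n' := ((le_max_left _ _).trans (le_max_right _ _)).trans hn'
  have hnW : 2 * |W| / α ≤ n := ((le_max_right _ _).trans (le_max_right _ _)).trans hn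
  have hn'W : 2 * |W| / α ≤ n' := ((le_max_right _ _).trans (le_max_right _ _)).trans hn'
  have h4 : 4 ≤ a₁ ^ n := by
    have h1 : N1 ≤ n := by exact_mod_cast (le_max_left _ _).trans hnN
    exact hN1.le.trans (pow_le_pow_right₀ ha₁.le h1)
  have h4' : 4 ≤ a₂ ^ n' := by
    have h1 : N2 ≤ n' := by exact_mod_cast (le_max_right _ _).trans hn'N
    exact hN2.le.trans (pow_le_pow_right₀ ha₂.le h1)
  obtain ⟨e1, e2⟩ := near_approx ha₁ hb₁ h4 h
  obtain ⟨e3, e4⟩ := near_approx ha₂ hb₂ h4' h'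
  set M : ℝ := max (n : ℝ) n' with hM
  set L : ℝ := min (n : ℝ) n' with hL
  have hnM : (n : ℝ) ≤ M := le_max_left _ _
  have hn'M : (n' : ℝ) ≤ M := le_max_right _ _
  have hLn : L ≤ n := min_le_left _ _
  have hLn' : L ≤ n' := min_le_right _ _
  have hM1 : 1 ≤ M := hn1.trans hnM
  have hKM : M ≤ K * M := by nlinarith
  have hm : (m : ℝ) ≤ K * M := by
    have h1 : 0 < 1 / log b₁ := by positivity
    have h2 : 0 < log a₁ / log b₁ := by positivity
    have h3 := le_max_left (log a₁ / log b₁ + 1 / log b₁ + 1 / log b₁)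
      (log a₂ / log b₂ + 1 / log b₂ + 1 / log b₂)
    calc (m : ℝ) ≤ (log a₁ / log b₁ + 1 / log b₁) * n + 1 / log b₁ := e2
      _ ≤ (log a₁ / log b₁ + 1 / log b₁) * M + 1 / log b₁ * M := by
        refine add_le_add (mul_le_mul_of_nonneg_left hnM (by positivity)) ?_
        exact le_mul_of_one_le_right h1.le hM1
      _ = (log a₁ / log b₁ + 1 / log b₁ + 1 / log b₁) * M := by ring
      _ ≤ K * M := mul_le_mul_of_nonneg_right (by linarith) (by linarith)
  have hm' : (m' : ℝ) ≤ K * M := by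
    have h1 : 0 < 1 / log b₂ := by positivity
    have h2 : 0 < log a₂ / log b₂ := by positivity
    have h3 := le_max_right (log a₁ / log b₁ + 1 / log b₁ + 1 / log b₁)
      (log a₂ / log b₂ + 1 / log b₂ + 1 / log b₂)
    calc (m' : ℝ) ≤ (log a₂ / log b₂ + 1 / log b₂) * n' + 1 / log b₂ := e4
      _ ≤ (log a₂ / log b₂ + 1 / log b₂) * M + 1 / log b₂ * M := by
        refine add_le_add (mul_le_mul_of_nonneg_left hn'M (by positivity)) ?_
        exact le_mul_of_one_le_right h1.le hM1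
      _ = (log a₂ / log b₂ + 1 / log b₂ + 1 / log b₂) * M := by ring
      _ ≤ K * M := mul_le_mul_of_nonneg_right (by linarith) (by linarith)
  obtain ⟨p1, p2, p3, p4⟩ := lin_poly (log a₁ / log b₁) (by exact_mod_cast hn1 : 1 ≤ n) m
    (hnM.trans hKM) hm
  obtain ⟨q1, q2, q3, q4⟩ := lin_poly (log a₂ / log b₂) (by exact_mod_cast hn'1 : 1 ≤ n') m'
    (hn'M.trans hKM) hm'
  have h1 := hj _ _ p1 q1 p2 q2 (K * M) p3 q3
  rw [p4, q4] at h1
  have h2 : max |n * (log a₁ / log b₁) - m| |n' * (log a₂ / log b₂) - m'| ≤ A * exp (-α * L) := by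
    refine max_le (e1.trans ?_) (e3.trans ?_)
    · refine mul_le_mul (le_max_left _ _) (exp_le_exp.2 ?_) (exp_pos _).le hA0.le
      have h3 : α ≤ log a₁ / 2 := min_le_left _ _
      have h5 : α * L ≤ log a₁ / 2 * n :=
        mul_le_mul h3 hLn (le_min (by linarith) (by linarith)) (by positivity)
      linarith
    · refine mul_le_mul (le_max_right _ _) (exp_le_exp.2 ?_) (exp_pos _).le hA0.le
      have h3 : α ≤ log a₂ / 2 := min_le_right _ _
      have h5 : α * L ≤ log a₂ / 2 * n' :=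
        mul_le_mul h3 hLn' (le_min (by linarith) (by linarith)) (by positivity)
      linarith
  have hKM0 : 0 < K * M := by positivity
  have h3 := log_le_log (by positivity) (h1.trans h2)
  rw [log_mul hC.ne' (by positivity), log_mul hA0.ne' (exp_pos _).ne', log_exp,
    log_rpow hKM0, log_mul (by linarith) (by linarith)] at h3
  have h5 : |W| ≤ α * L / 2 := by
    have h6 : 2 * |W| / α ≤ L := le_min hnW hn'W
    rw [div_le_iff₀ hα0] at h6
    linarith
  have h6 := neg_abs_le W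
  have h7 : α / (2 * κ) * L ≤ log M := by
    rw [div_mul_eq_mul_div, div_le_iff₀ (by positivity)]
    rw [hW] at h5 h6
    linarith
  calc exp (α / (2 * κ) * L) ≤ exp (log M) := exp_le_exp.2 h7
    _ = M := exp_log (by linarith)

/-- the truncated asymptotic at `x` -/
def GoodAt (κ C a b x : ℝ) : Prop :=
  ∀ T : ℝ, C * log x ≤ T → T ≤ x ^ κ → (pairsUpTo a b 1 x T).Finite ∧
    |(((pairsUpTo a b 1 x T).ncard : ℕ) : ℝ) - log x ^ 2 / (log a * log b)| ≤ C * log x

lemma GoodAt.mono {κ κ' C C' a b x : ℝ} (hx : 2 ≤ x) (hκ : κ' ≤ κ) (hC : C ≤ C')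
    (h : GoodAt κ C a b x) : GoodAt κ' C' a b x := by
  intro T h1 h2
  have hlx : 0 ≤ log x := log_nonneg (by linarith)
  have h3 : C * log x ≤ C' * log x := mul_le_mul_of_nonneg_right hC hlx
  obtain ⟨h4, h5⟩ := h T (h3.trans h1)
    (h2.trans (rpow_le_rpow_of_exponent_le (by linarith) hκ))
  exact ⟨h4, h5.trans h3⟩

lemma good_of_gap {a b : ℝ} (ha : 1 < a) (hb : 1 < b) (K : ℝ) (hK : 0 ≤ K) : ∃ C : ℝ, 0 ≤ C ∧
    ∀ κ x : ℝ, 2 ≤ x → (∀ n m : ℕ, K * log x < n → (n : ℝ) ≤ x ^ κ → (n, m) ∉ nearMisses a b 1) →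
      GoodAt κ C a b x := by
  obtain ⟨C, hC0, hC⟩ := trunc ha hb one_pos
  have hlog2 : 0 < log 2 := log_pos (by norm_num)
  refine ⟨C + C * (K + 1 / log 2), by positivity, fun κ x hx hno T hT hTx => ?_⟩
  have hlx : log 2 ≤ log x := log_le_log (by norm_num) hx
  have hlx0 : 0 < log x := by linarith
  have h0 : 0 ≤ C * (K + 1 / log 2) := by positivity
  obtain ⟨h1, h2⟩ := hC x hx T (by nlinarith)
  refine ⟨h1, h2.trans ?_⟩
  have h3 : nearUpTo a b 1 T ⊆ ((Finset.range (⌊K * log x⌋₊ + 1) : Finset ℕ) : Set ℕ) := by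
    rintro n ⟨hn, m, hm⟩
    rw [Finset.coe_range, Set.mem_Iio, Nat.lt_succ_iff]
    refine Nat.le_floor ?_
    by_contra hcon
    push Not at hcon
    exact hno n m hcon (hn.trans hTx) hm
  have h4 := Set.ncard_le_ncard h3 (Finset.finite_toSet _)
  rw [Set.ncard_coe_finset, Finset.card_range] at h4
  have h5 : (((nearUpTo a b 1 T).ncard : ℕ) : ℝ) ≤ K * log x + 1 := by
    have h6 : (((nearUpTo a b 1 T).ncard : ℕ) : ℝ) ≤ (⌊K * log x⌋₊ : ℝ) + 1 := by exact_mod_cast h4
    have h7 : (⌊K * log x⌋₊ : ℝ) ≤ K * log x := Nat.floor_le (by positivity)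
    linarith
  have h6 : (1 : ℝ) ≤ 1 / log 2 * log x := by
    rw [div_mul_eq_mul_div, one_mul, le_div_iff₀ hlog2]
    linarith
  calc C * log x + C * ((nearUpTo a b 1 T).ncard : ℕ)
      ≤ C * log x + C * (K * log x + 1 / log 2 * log x) := by
        have := mul_le_mul_of_nonneg_left (h5.trans (by linarith :
          K * log x + 1 ≤ K * log x + 1 / log 2 * log x)) hC0
        linarith
    _ = (C + C * (K + 1 / log 2)) * log x := by ring

/-- **At every `x` the truncated asymptotic holds for one of the two pairs of bases.** -/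
theorem alternative {a₁ b₁ a₂ b₂ : ℝ} (ha₁ : 1 < a₁) (hb₁ : 1 < b₁) (ha₂ : 1 < a₂) (hb₂ : 1 < b₂)
    (hJ : JointR (log a₁ / log b₁) (log a₂ / log b₂)) : ∃ κ : ℝ, 0 < κ ∧ ∃ C : ℝ, 0 ≤ C ∧
      ∀ x : ℝ, 2 ≤ x → GoodAt κ C a₁ b₁ x ∨ GoodAt κ C a₂ b₂ x := by
  obtain ⟨κ, hκ, N, hN⟩ := repel ha₁ hb₁ ha₂ hb₂ hJ
  have hlog2 : 0 < log 2 := log_pos (by norm_num)
  set K : ℝ := |N| / log 2 + 1 with hK
  have hK0 : 0 < K := by positivity
  obtain ⟨C₁, hC₁0, hC₁⟩ := good_of_gap ha₁ hb₁ K hK0.le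
  obtain ⟨C₂, hC₂0, hC₂⟩ := good_of_gap ha₂ hb₂ K hK0.le
  refine ⟨κ * K, by positivity, max C₁ C₂, le_max_of_le_left hC₁0, fun x hx => ?_⟩
  have hlx : log 2 ≤ log x := log_le_log (by norm_num) hx
  have hlx0 : 0 < log x := by linarith
  have hx0 : 0 < x := by linarith
  by_cases h1 : ∀ n m : ℕ, K * log x < n → (n : ℝ) ≤ x ^ (κ * K) → (n, m) ∉ nearMisses a₁ b₁ 1
  · exact Or.inl ((hC₁ _ x hx h1).mono hx le_rfl (le_max_left _ _))
  · refine Or.inr ((hC₂ _ x hx ?_).mono hx le_rfl (le_max_right _ _))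
    push Not at h1
    obtain ⟨n, m, hn, hnx, hnm⟩ := h1
    intro n' m' hn' hnx' hnm'
    have hNx : N ≤ K * log x := by
      have h2 : |N| / log 2 * log 2 ≤ |N| / log 2 * log x :=
        mul_le_mul_of_nonneg_left hlx (by positivity)
      rw [div_mul_cancel₀ _ hlog2.ne'] at h2
      have h3 := le_abs_self N
      rw [hK, add_mul, one_mul]
      linarith
    have h2 := hN n m n' m' (hNx.trans hn.le) (hNx.trans hn'.le) hnm hnm'
    have h3 : max (n : ℝ) n' ≤ x ^ (κ * K) := max_le hnx hnx'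
    have h4 : K * log x < min (n : ℝ) n' := lt_min hn hn'
    have h5 : x ^ (κ * K) < exp (κ * min (n : ℝ) n') := by
      rw [rpow_def_of_pos hx0]
      refine exp_lt_exp.2 ?_
      calc log x * (κ * K) = κ * (K * log x) := by ring
        _ < κ * min (n : ℝ) n' := mul_lt_mul_of_pos_left h4 hκ
    linarith

end Pool.Agent.R532.Nc
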