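import Pool.Agent.R532.ParGeo

/-!
# Touching discs: every cyclic order of the discs in which neighbours touch is oriented
-/

set_option autoImplicit false

namespace Pool.Agent.R532.Par

variable {m : ℕ} {x y : ℕ → Bool}

theorem V_iff (m a t : ℕ) : V m (a, t) ↔ (a = 0 ∧ (t = 6 ∨ t = 11 ∨ t = 14 ∨ t = 15)) ∨
    (1 ≤ a ∧ a ≤ m ∧ t < 14) ∨
    (a = m + 1 ∧ (t = 4 ∨ t = 7 ∨ t = 16 ∨ t = 17 ∨ t = 18 ∨ t = 19)) := by
  unfold V kn
  simp only
  split_ifs with h1 h2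
  · simp only [kinds, List.mem_cons, List.not_mem_nil, or_false]
    omega
  · simp only [kinds, List.mem_cons, List.not_mem_nil, or_false]
    omega
  · simp only [kinds, List.mem_cons, List.not_mem_nil, or_false]
    omega

/-- the steps inside of a block which are always possible -/
def B0 (t t' : ℕ) : Prop := (t = 0 ∧ t' = 1) ∨ (t = 0 ∧ t' = 4) ∨ (t = 2 ∧ t' = 3) ∨
  (t = 5 ∧ t' = 1) ∨ (t = 5 ∧ t' = 8) ∨ (t = 6 ∧ t' = 5) ∨ (t = 7 ∧ t' = 8) ∨ (t = 7 ∧ t' = 4) ∨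
  (t = 9 ∧ t' = 10) ∨ (t = 6 ∧ t' = 14) ∨ (t = 11 ∧ t' = 15) ∨ (t = 16 ∧ t' = 17) ∨
  (t = 17 ∧ t' = 18) ∨ (t = 18 ∧ t' = 19)

theorem o0_iff (X Y : Bool) (t t' : ℕ) : o0 X Y t t' = true ↔ B0 t t' ∨
    (X = false ∧ ((t = 1 ∧ t' = 2) ∨ (t = 5 ∧ t' = 12) ∨ (t = 12 ∧ t' = 4))) ∨
    (X = true ∧ ((t = 1 ∧ t' = 12) ∨ (t = 12 ∧ t' = 2))) ∨
    (Y = false ∧ ((t = 8 ∧ t' = 9) ∨ (t = 5 ∧ t' = 13) ∨ (t = 13 ∧ t' = 4))) ∨
    (Y = true ∧ ((t = 8 ∧ t' = 13) ∨ (t = 13 ∧ t' = 9))) ∨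
    (X = false ∧ Y = false ∧ ((t = 12 ∧ t' = 13) ∨ (t = 13 ∧ t' = 12))) := by
  unfold o0 B0
  simp only [List.mem_cons, Prod.mk.injEq, List.not_mem_nil, or_false, Bool.or_eq_true,
    Bool.and_eq_true, decide_eq_true_eq, Bool.not_eq_true', or_assoc, and_assoc]

theorem o1_iff (t t' : ℕ) : o1 t t' = true ↔ (t = 3 ∧ t' = 0) ∨ (t = 3 ∧ t' = 16) ∨
    (t = 10 ∧ t' = 7) ∨ (t = 14 ∧ t' = 0) ∨ (t = 14 ∧ t' = 16) ∨ (t = 15 ∧ t' = 7) := by
  unfold o1
  simp only [List.mem_cons, Prod.mk.injEq, List.not_mem_nil, or_false, decide_eq_true_eq]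

theorem o2_iff (t t' : ℕ) : o2 t t' = true ↔ (t = 4 ∧ t' = 6) ∨ (t = 11 ∧ t' = 11) ∨
    (t = 19 ∧ t' = 11) := by
  unfold o2
  simp only [List.mem_cons, Prod.mk.injEq, List.not_mem_nil, or_false, decide_eq_true_eq]

theorem sp_iff (X Y : Bool) (t t' : ℕ) : sp X Y t t' = true ↔
    (X = true ∧ ((t = 1 ∧ t' = 2) ∨ (t = 2 ∧ t' = 1))) ∨
    (Y = true ∧ ((t = 8 ∧ t' = 9) ∨ (t = 9 ∧ t' = 8))) := by
  unfold sp
  simp only [List.mem_cons, Prod.mk.injEq, List.not_mem_nil, or_false, Bool.or_eq_true,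
      Bool.and_eq_true, decide_eq_true_eq]

theorem dir_to (a t b t' : ℕ) : Dir x y (a, t) (b, t') ↔
    (a = b ∧ o0 (x b) (y b) t t' = true) ∨ (b = a + 1 ∧ o1 t t' = true) ∨
      (a = b + 1 ∧ o2 t t' = true) := by
  unfold Dir
  simp only
  constructor
  · rintro (⟨rfl, h⟩ | h | h)
    · exact Or.inl ⟨rfl, h⟩
    · exact Or.inr (Or.inl h)
    · exact Or.inr (Or.inr h)
  · rintro (⟨rfl, h⟩ | h | h)
    · exact Or.inl ⟨rfl, h⟩
    · exact Or.inr (Or.inl h)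
    · exact Or.inr (Or.inr h)

theorem dir_from (a t b t' : ℕ) : Dir x y (b, t') (a, t) ↔
    (a = b ∧ o0 (x b) (y b) t' t = true) ∨ (a = b + 1 ∧ o1 t' t = true) ∨
      (b = a + 1 ∧ o2 t' t = true) := by
  unfold Dir
  simp only

theorem sp_from (a t b t' : ℕ) : Sp x y (b, t') (a, t) ↔
    a = b ∧ sp (x b) (y b) t' t = true := by
  unfold Sp
  simp only

/-- a cyclic order of the valid codes in which neighbours touch -/
structure Good (m : ℕ) (x y : ℕ → Bool) (s : Equiv.Perm (ℕ × ℕ)) : Prop where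
  hV : ∀ c, V m c → V m (s c)
  hV' : ∀ c, V m c → V m (s.symm c)
  hne : ∀ c, V m c → s c ≠ c
  hne2 : ∀ c, V m c → s c ≠ s.symm c
  hct : ∀ c, V m c → Ct x y c (s c)

/-- `d` may be a neighbour of `c` -/
def Nb (x y : ℕ → Bool) (c d : ℕ × ℕ) : Prop := Dir x y c d ∨ Dir x y d c ∨ Sp x y c d

theorem Nb.symm {c d : ℕ × ℕ} (h : Nb x y c d) : Nb x y d c := by
  rcases h with h | h | h
  · exact Or.inr (Or.inl h)
  · exact Or.inl h
  · exact Or.inr (Or.inr h.symm)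

variable {s : Equiv.Perm (ℕ × ℕ)}

theorem Good.inv (h : Good m x y s) : Good m x y s.symm := by
  refine ⟨h.hV', fun c hc => ?_, fun c hc he => ?_, fun c hc he => ?_, fun c hc => ?_⟩
  · rw [Equiv.symm_symm]
    exact h.hV c hc
  · exact h.hne c hc (by rw [← he, Equiv.apply_symm_apply]; exact he.symm)
  · rw [Equiv.symm_symm] at he
    exact h.hne2 c hc he.symm
  · have h1 := h.hct _ (h.hV' c hc)
    rw [Equiv.apply_symm_apply] at h1
    exact h1.symm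

theorem Good.nb (h : Good m x y s) {c : ℕ × ℕ} (hc : V m c) : Nb x y c (s c) :=
  ct_cases hc (h.hV c hc) (h.hne c hc).symm (h.hct c hc)

theorem Good.nb' (h : Good m x y s) {c : ℕ × ℕ} (hc : V m c) : Nb x y c (s.symm c) :=
  h.inv.nb hc

/-- a disc with only two possible neighbours -/
theorem Good.two (h : Good m x y s) {c d₁ d₂ : ℕ × ℕ} (hc : V m c)
    (hd : ∀ d, V m d → Nb x y c d → d = d₁ ∨ d = d₂) :
    (s d₁ = c ∨ s.symm d₁ = c) ∧ (s d₂ = c ∨ s.symm d₂ = c) := by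
  have h1 := hd _ (h.hV c hc) (h.nb hc)
  have h2 := hd _ (h.hV' c hc) (h.nb' hc)
  have h3 := h.hne2 c hc
  rcases h1 with h1 | h1 <;> rcases h2 with h2 | h2
  · exact absurd (h1.trans h2.symm) h3
  · refine ⟨Or.inr ?_, Or.inl ?_⟩
    · rw [← h1, Equiv.symm_apply_apply]
    · rw [← h2, Equiv.apply_symm_apply]
  · refine ⟨Or.inl ?_, Or.inr ?_⟩
    · rw [← h2, Equiv.apply_symm_apply]
    · rw [← h1, Equiv.symm_apply_apply]
  · exact absurd (h1.trans h2.symm) h3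

section forced

attribute [local simp] Nb dir_to sp_from o0_iff o1_iff o2_iff sp_iff B0

theorem Good.f2 (h : Good m x y s) {b : ℕ} (h1 : 1 ≤ b) (h2 : b ≤ m) (hx : x b = false) :
    s (b, 1) = (b, 2) ∨ s.symm (b, 1) = (b, 2) := by
  refine (h.two (c := (b, 2)) (d₁ := (b, 1)) (d₂ := (b, 3)) ((V_iff _ _ _).2 (by omega)) ?_).1
  rintro ⟨e₁, e₂⟩ hv hn
  simp [hx] at hn
  simp only [Prod.mk.injEq]
  omega

theorem Good.f12 (h : Good m x y s) {b : ℕ} (h1 : 1 ≤ b) (h2 : b ≤ m) (hx : x b = true) :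
    (s (b, 1) = (b, 12) ∨ s.symm (b, 1) = (b, 12)) ∧
      (s (b, 2) = (b, 12) ∨ s.symm (b, 2) = (b, 12)) := by
  refine h.two (c := (b, 12)) (d₁ := (b, 1)) (d₂ := (b, 2)) ((V_iff _ _ _).2 (by omega)) ?_
  rintro ⟨e₁, e₂⟩ hv hn
  simp only [Nb, dir_to, sp_from, o0_iff, o1_iff, o2_iff, sp_iff, B0] at hn
  simp only [Prod.mk.injEq]
  rcases hn with (⟨rfl, hn⟩ | hn | hn) | (⟨rfl, hn⟩ | hn | hn) | ⟨rfl, hn⟩
  all_goals
    simp [hx] at hn
  all_goals omega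

theorem Good.f3 (h : Good m x y s) {b : ℕ} (h1 : 1 ≤ b) (h2 : b ≤ m) :
    s (b, 2) = (b, 3) ∨ s.symm (b, 2) = (b, 3) := by
  refine (h.two (c := (b, 3)) (d₁ := (b, 2)) (d₂ := (b + 1, if b = m then 16 else 0))
    ((V_iff _ _ _).2 (by omega)) ?_).1
  rintro ⟨e₁, e₂⟩ hv hn
  simp at hn
  rw [V_iff] at hv
  simp only [Prod.mk.injEq]
  split_ifs <;> omega

theorem Good.f6 (h : Good m x y s) {b : ℕ} (h2 : b ≤ m) :
    (s (b, if b = 0 then 14 else 5) = (b, 6) ∨ s.symm (b, if b = 0 then 14 else 5) = (b, 6)) ∧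
    (s (b + 1, 4) = (b, 6) ∨ s.symm (b + 1, 4) = (b, 6)) := by
  refine (h.two (c := (b, 6)) (d₁ := (b, if b = 0 then 14 else 5)) (d₂ := (b + 1, 4))
    ((V_iff _ _ _).2 (by omega)) ?_)
  rintro ⟨e₁, e₂⟩ hv hn
  simp at hn
  rw [V_iff] at hv
  simp only [Prod.mk.injEq]
  split_ifs <;> omega

theorem Good.f9 (h : Good m x y s) {b : ℕ} (h1 : 1 ≤ b) (h2 : b ≤ m) (hy : y b = false) :
    s (b, 8) = (b, 9) ∨ s.symm (b, 8) = (b, 9) := by
  refine (h.two (c := (b, 9)) (d₁ := (b, 8)) (d₂ := (b, 10)) ((V_iff _ _ _).2 (by omega)) ?_).1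
  rintro ⟨e₁, e₂⟩ hv hn
  simp [hy] at hn
  simp only [Prod.mk.injEq]
  omega

theorem Good.f13 (h : Good m x y s) {b : ℕ} (h1 : 1 ≤ b) (h2 : b ≤ m) (hy : y b = true) :
    (s (b, 8) = (b, 13) ∨ s.symm (b, 8) = (b, 13)) ∧
      (s (b, 9) = (b, 13) ∨ s.symm (b, 9) = (b, 13)) := by
  refine h.two (c := (b, 13)) (d₁ := (b, 8)) (d₂ := (b, 9)) ((V_iff _ _ _).2 (by omega)) ?_
  rintro ⟨e₁, e₂⟩ hv hn
  simp only [Nb, dir_to, sp_from, o0_iff, o1_iff, o2_iff, sp_iff, B0] at hn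
  simp only [Prod.mk.injEq]
  rcases hn with (⟨rfl, hn⟩ | hn | hn) | (⟨rfl, hn⟩ | hn | hn) | ⟨rfl, hn⟩
  all_goals
    simp [hy] at hn
  all_goals omega

theorem Good.f10 (h : Good m x y s) {b : ℕ} (h1 : 1 ≤ b) (h2 : b ≤ m) :
    s (b, 9) = (b, 10) ∨ s.symm (b, 9) = (b, 10) := by
  refine (h.two (c := (b, 10)) (d₁ := (b, 9)) (d₂ := (b + 1, 7))
    ((V_iff _ _ _).2 (by omega)) ?_).1
  rintro ⟨e₁, e₂⟩ hv hn
  simp at hn
  rw [V_iff] at hv
  simp only [Prod.mk.injEq]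
  omega

/-- the moving disc `12` between `5` and `4` or `13` -/
theorem Good.step12 (h : Good m x y s) {b : ℕ} (h1 : 1 ≤ b) (h2 : b ≤ m)
    (hc : Dir x y (s.symm (b, 12)) (b, 12))
    (h0 : Dir x y (s.symm (s.symm (b, 12))) (s.symm (b, 12))) :
    Dir x y (b, 12) (s (b, 12)) := by
  have hd : V m (b, 12) := (V_iff _ _ _).2 (by omega)
  have hcV := h.hV' _ hd
  have heV := h.hV _ hd
  have hce := h.hne2 _ hd
  have hn := h.nb hd
  obtain ⟨⟨c₁, c₂⟩, hcs⟩ : ∃ c, c = s.symm (b, 12) := ⟨_, rfl⟩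
  obtain ⟨⟨e₁, e₂⟩, hes⟩ : ∃ e, e = s (b, 12) := ⟨_, rfl⟩
  rw [← hcs] at hc h0 hcV hce
  rw [← hes] at heV hce hn ⊢
  rw [V_iff] at hcV heV
  simp only [Nb, dir_to, sp_from, o0_iff, o1_iff, o2_iff, sp_iff, B0] at hn hc ⊢
  cases hx : x b <;> cases hy : y b
  · simp only [ne_eq, Prod.mk.injEq] at hce
    have hc' : c₁ = b ∧ (c₂ = 5 ∨ c₂ = 13) := by
      simp [hx, hy] at hc
      omega
    have hn' : e₁ = b ∧ (e₂ = 4 ∨ e₂ = 5 ∨ e₂ = 13) := by
      rcases hn with (⟨rfl, hn⟩ | hn | hn) | (⟨rfl, hn⟩ | hn | hn) | ⟨rfl, hn⟩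
      all_goals
        simp [hx, hy] at hn
      all_goals omega
    obtain ⟨rfl, hc2⟩ := hc'
    obtain ⟨rfl, hn2⟩ := hn'
    rcases hn2 with rfl | rfl | rfl
    · simp [hx, hy]
    · exfalso
      have hc3 : c₂ = 13 := by omega
      subst hc3
      have hV13 : V m (e₁, 13) := (V_iff _ _ _).2 (by omega)
      have hV13' := h.hV' _ hV13
      have hs12 : s (e₁, 13) = (e₁, 12) := by rw [hcs, Equiv.apply_symm_apply]
      have hs5 : s.symm (e₁, 5) = (e₁, 12) := by rw [hes, Equiv.symm_apply_apply]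
      obtain ⟨⟨a₁, a₂⟩, has⟩ : ∃ a, a = s.symm (e₁, 13) := ⟨_, rfl⟩
      rw [← has] at h0 hV13'
      rw [V_iff] at hV13'
      simp only [Nb, dir_to, sp_from, o0_iff, o1_iff, o2_iff, sp_iff, B0] at h0
      simp [hx, hy] at h0
      obtain ⟨rfl, h3⟩ : a₁ = e₁ ∧ (a₂ = 5 ∨ a₂ = 12) := by omega
      rcases h3 with rfl | rfl
      · have hs3 : s (a₁, 5) = (a₁, 13) := by rw [has, Equiv.apply_symm_apply]
        have := (h.f6 (b := a₁) h2).1
        rw [if_neg (by omega), hs3, hs5] at this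
        simp at this
      · have hs3 : s (a₁, 12) = (a₁, 13) := by rw [has, Equiv.apply_symm_apply]
        rw [hs3] at hes
        simp at hes
    · simp [hx, hy]
  · simp only [ne_eq, Prod.mk.injEq] at hce
    have hc' : c₁ = b ∧ c₂ = 5 := by
      simp [hx, hy] at hc
      omega
    have hn' : e₁ = b ∧ (e₂ = 4 ∨ e₂ = 5) := by
      rcases hn with (⟨rfl, hn⟩ | hn | hn) | (⟨rfl, hn⟩ | hn | hn) | ⟨rfl, hn⟩
      all_goals
        simp [hx, hy] at hn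
      all_goals omega
    obtain ⟨rfl, rfl⟩ : e₁ = b ∧ e₂ = 4 := by omega
    simp [hx, hy]
  all_goals
    simp only [ne_eq, Prod.mk.injEq] at hce
    have hc' : c₁ = b ∧ c₂ = 1 := by
      simp [hx, hy] at hc
      omega
    have hn' : e₁ = b ∧ (e₂ = 1 ∨ e₂ = 2) := by
      rcases hn with (⟨rfl, hn⟩ | hn | hn) | (⟨rfl, hn⟩ | hn | hn) | ⟨rfl, hn⟩
      all_goals
        simp [hx, hy] at hn
      all_goals omega
    obtain ⟨rfl, rfl⟩ : e₁ = b ∧ e₂ = 2 := by omega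
    simp [hx, hy]

/-- the moving disc `13` between `5` and `4` or `12` -/
theorem Good.step13 (h : Good m x y s) {b : ℕ} (h1 : 1 ≤ b) (h2 : b ≤ m)
    (hc : Dir x y (s.symm (b, 13)) (b, 13))
    (h0 : Dir x y (s.symm (s.symm (b, 13))) (s.symm (b, 13))) :
    Dir x y (b, 13) (s (b, 13)) := by
  have hd : V m (b, 13) := (V_iff _ _ _).2 (by omega)
  have hcV := h.hV' _ hd
  have heV := h.hV _ hd
  have hce := h.hne2 _ hd
  have hn := h.nb hd
  obtain ⟨⟨c₁, c₂⟩, hcs⟩ : ∃ c, c = s.symm (b, 13) := ⟨_, rfl⟩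
  obtain ⟨⟨e₁, e₂⟩, hes⟩ : ∃ e, e = s (b, 13) := ⟨_, rfl⟩
  rw [← hcs] at hc h0 hcV hce
  rw [← hes] at heV hce hn ⊢
  rw [V_iff] at hcV heV
  simp only [Nb, dir_to, sp_from, o0_iff, o1_iff, o2_iff, sp_iff, B0] at hn hc ⊢
  cases hy : y b <;> cases hx : x b
  · simp only [ne_eq, Prod.mk.injEq] at hce
    have hc' : c₁ = b ∧ (c₂ = 5 ∨ c₂ = 12) := by
      simp [hx, hy] at hc
      omega
    have hn' : e₁ = b ∧ (e₂ = 4 ∨ e₂ = 5 ∨ e₂ = 12) := by
      rcases hn with (⟨rfl, hn⟩ | hn | hn) | (⟨rfl, hn⟩ | hn | hn) | ⟨rfl, hn⟩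
      all_goals
        simp [hx, hy] at hn
      all_goals omega
    obtain ⟨rfl, hc2⟩ := hc'
    obtain ⟨rfl, hn2⟩ := hn'
    rcases hn2 with rfl | rfl | rfl
    · simp [hx, hy]
    · exfalso
      have hc3 : c₂ = 12 := by omega
      subst hc3
      have hV13 : V m (e₁, 12) := (V_iff _ _ _).2 (by omega)
      have hV13' := h.hV' _ hV13
      have hs12 : s (e₁, 12) = (e₁, 13) := by rw [hcs, Equiv.apply_symm_apply]
      have hs5 : s.symm (e₁, 5) = (e₁, 13) := by rw [hes, Equiv.symm_apply_apply]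
      obtain ⟨⟨a₁, a₂⟩, has⟩ : ∃ a, a = s.symm (e₁, 12) := ⟨_, rfl⟩
      rw [← has] at h0 hV13'
      rw [V_iff] at hV13'
      simp only [Nb, dir_to, sp_from, o0_iff, o1_iff, o2_iff, sp_iff, B0] at h0
      simp [hx, hy] at h0
      obtain ⟨rfl, h3⟩ : a₁ = e₁ ∧ (a₂ = 5 ∨ a₂ = 13) := by omega
      rcases h3 with rfl | rfl
      · have hs3 : s (a₁, 5) = (a₁, 12) := by rw [has, Equiv.apply_symm_apply]
        have := (h.f6 (b := a₁) h2).1
        rw [if_neg (by omega), hs3, hs5] at this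
        simp at this
      · have hs3 : s (a₁, 13) = (a₁, 12) := by rw [has, Equiv.apply_symm_apply]
        rw [hs3] at hes
        simp at hes
    · simp [hx, hy]
  · simp only [ne_eq, Prod.mk.injEq] at hce
    have hc' : c₁ = b ∧ c₂ = 5 := by
      simp [hx, hy] at hc
      omega
    have hn' : e₁ = b ∧ (e₂ = 4 ∨ e₂ = 5) := by
      rcases hn with (⟨rfl, hn⟩ | hn | hn) | (⟨rfl, hn⟩ | hn | hn) | ⟨rfl, hn⟩
      all_goals
        simp [hx, hy] at hn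
      all_goals omega
    obtain ⟨rfl, rfl⟩ : e₁ = b ∧ e₂ = 4 := by omega
    simp [hx, hy]
  all_goals
    simp only [ne_eq, Prod.mk.injEq] at hce
    have hc' : c₁ = b ∧ c₂ = 8 := by
      simp [hx, hy] at hc
      omega
    have hn' : e₁ = b ∧ (e₂ = 8 ∨ e₂ = 9) := by
      rcases hn with (⟨rfl, hn⟩ | hn | hn) | (⟨rfl, hn⟩ | hn | hn) | ⟨rfl, hn⟩
      all_goals
        simp [hx, hy] at hn
      all_goals omega
    obtain ⟨rfl, rfl⟩ : e₁ = b ∧ e₂ = 9 := by omega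
    simp [hx, hy]

/-- the discs with at least two possible predecessors, and their successors -/
theorem Good.step_forced (h : Good m x y s) {b t t' b' : ℕ} {d : ℕ × ℕ}
    (hf : s d = (b', t') ∨ s.symm d = (b', t')) (hc : Dir x y (s.symm d) d) (he : d = (b, t))
    (h1 : Dir x y (b, t) (b', t')) (h2 : ¬ Dir x y (b', t') (b, t)) : Dir x y d (s d) := by
  subst he
  rcases hf with hf | hf
  · rw [hf]
    exact h1
  · rw [hf] at hc
    exact absurd hc h2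

/-- the discs with only one possible predecessor -/
theorem Good.step_uniq (h : Good m x y s) {b t : ℕ} (hd : V m (b, t))
    (ht : t ≠ 1 ∧ t ≠ 2 ∧ t ≠ 4 ∧ t ≠ 8 ∧ t ≠ 9 ∧ t ≠ 12 ∧ t ≠ 13)
    (hc : Dir x y (s.symm (b, t)) (b, t)) : Dir x y (b, t) (s (b, t)) := by
  have hcV := h.hV' _ hd
  have heV := h.hV _ hd
  have hce := h.hne2 _ hd
  have hn := h.nb hd
  obtain ⟨⟨c₁, c₂⟩, hcs⟩ : ∃ c, c = s.symm (b, t) := ⟨_, rfl⟩
  obtain ⟨⟨e₁, e₂⟩, hes⟩ : ∃ e, e = s (b, t) := ⟨_, rfl⟩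
  rw [← hcs] at hc hcV hce
  rw [← hes] at heV hce hn ⊢
  have h20 : t < 20 := hd.lt
  rw [V_iff] at hcV heV hd
  simp only [ne_eq, Prod.mk.injEq] at hce
  clear hcs hes
  interval_cases t
  · simp at hn hc ⊢
    omega
  · omega
  · omega
  · simp at hn hc ⊢
    omega
  · omega
  · simp at hn hc
    have h5 : e₁ ≠ b ∨ e₂ ≠ 6 := by omega
    simp
    rcases hn with (⟨rfl, hn⟩ | ⟨rfl, hn⟩)
    · simp only [true_and]
      omega
    · omega
  · simp at hn hc ⊢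
    omega
  · simp at hn hc ⊢
    omega
  · omega
  · omega
  · simp at hn hc ⊢
    omega
  · simp at hn hc ⊢
    omega
  · omega
  · omega
  · simp at hn hc ⊢
    omega
  · simp at hn hc ⊢
    omega
  · simp at hn hc ⊢
    omega
  · simp at hn hc ⊢
    omega
  · simp at hn hc ⊢
    omega
  · simp at hn hc ⊢
    omega

theorem Good.step (h : Good m x y s) {d : ℕ × ℕ} (hd : V m d) (hc : Dir x y (s.symm d) d)
    (h0 : Dir x y (s.symm (s.symm d)) (s.symm d)) : Dir x y d (s d) := by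
  obtain ⟨b, t⟩ := d
  by_cases h1 : t = 1
  · subst h1
    have hd' := (V_iff _ _ _).1 hd
    cases hx : x b
    · refine h.step_forced (h.f2 (by omega) (by omega) hx) hc rfl ?_ ?_ <;> simp [hx]
    · refine h.step_forced (h.f12 (by omega) (by omega) hx).1 hc rfl ?_ ?_ <;> simp [hx]
  by_cases h2 : t = 2
  · subst h2
    have hd' := (V_iff _ _ _).1 hd
    refine h.step_forced (h.f3 (by omega) (by omega)) hc rfl ?_ ?_ <;> simp
  by_cases h4 : t = 4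
  · subst h4
    have hd' := (V_iff _ _ _).1 hd
    obtain ⟨b, rfl⟩ : ∃ b', b = b' + 1 := ⟨b - 1, by omega⟩
    refine h.step_forced (h.f6 (by omega)).2 hc rfl ?_ ?_ <;> simp
  by_cases h8 : t = 8
  · subst h8
    have hd' := (V_iff _ _ _).1 hd
    cases hy : y b
    · refine h.step_forced (h.f9 (by omega) (by omega) hy) hc rfl ?_ ?_ <;> simp [hy]
    · refine h.step_forced (h.f13 (by omega) (by omega) hy).1 hc rfl ?_ ?_ <;> simp [hy]
  by_cases h9 : t = 9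
  · subst h9
    have hd' := (V_iff _ _ _).1 hd
    refine h.step_forced (h.f10 (by omega) (by omega)) hc rfl ?_ ?_ <;> simp
  by_cases h12 : t = 12
  · subst h12
    have hd' := (V_iff _ _ _).1 hd
    exact h.step12 (by omega) (by omega) hc h0
  by_cases h13 : t = 13
  · subst h13
    have hd' := (V_iff _ _ _).1 hd
    exact h.step13 (by omega) (by omega) hc h0
  exact h.step_uniq hd ⟨h1, h2, h4, h8, h9, h12, h13⟩ hc

/-- the orientation is the same everywhere -/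
theorem Good.dir_pow (h : Good m x y s) {c : ℕ × ℕ} (hc : V m c) (h1 : Dir x y (s.symm c) c)
    (h2 : Dir x y c (s c)) (k : ℕ) : V m ((s ^ k) c) ∧ Dir x y (s.symm ((s ^ k) c)) ((s ^ k) c) ∧
      Dir x y ((s ^ k) c) (s ((s ^ k) c)) := by
  induction k with
  | zero => exact ⟨hc, h1, h2⟩
  | succ k ih =>
    obtain ⟨i1, i2, i3⟩ := ih
    have e : (s ^ (k + 1)) c = s ((s ^ k) c) := by
      rw [pow_succ', Equiv.Perm.mul_apply]
    rw [e]
    have hv := h.hV _ i1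
    have h3 : Dir x y (s.symm (s ((s ^ k) c))) (s ((s ^ k) c)) := by
      rw [Equiv.symm_apply_apply]
      exact i3
    refine ⟨hv, h3, h.step hv h3 ?_⟩
    rw [Equiv.symm_apply_apply]
    exact i2

/-- a cyclic order or its inverse follows the directions -/
theorem Good.orient (h : Good m x y s)
    (ht : ∀ c d, V m c → V m d → ∃ k : ℕ, (s ^ k) c = d)
    (ht' : ∀ c d, V m c → V m d → ∃ k : ℕ, (s.symm ^ k) c = d) :
    (∀ c, V m c → Dir x y c (s c)) ∨ (∀ c, V m c → Dir x y c (s.symm c)) := by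
  have hv : V m (0, 6) := (V_iff _ _ _).2 (by omega)
  have h1 := h.hV _ hv
  have h2 := h.hV' _ hv
  have h3 := h.nb hv
  have h4 := h.nb' hv
  have h5 := h.hne2 _ hv
  obtain ⟨⟨c₁, c₂⟩, hcs⟩ : ∃ c, c = s.symm (0, 6) := ⟨_, rfl⟩
  obtain ⟨⟨e₁, e₂⟩, hes⟩ : ∃ e, e = s (0, 6) := ⟨_, rfl⟩
  rw [← hcs] at h2 h4 h5
  rw [← hes] at h1 h3 h5
  have key : (Dir x y (c₁, c₂) (0, 6) ∧ Dir x y (0, 6) (e₁, e₂)) ∨
      (Dir x y (e₁, e₂) (0, 6) ∧ Dir x y (0, 6) (c₁, c₂)) := by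
    rw [V_iff] at h1 h2
    simp only [ne_eq, Prod.mk.injEq] at h5
    simp at h3 h4 ⊢
    omega
  rcases key with ⟨k1, k2⟩ | ⟨k1, k2⟩
  · left
    intro c hc
    obtain ⟨k, rfl⟩ := ht _ c hv hc
    refine (h.dir_pow hv ?_ ?_ k).2.2
    · rw [← hcs]
      exact k1
    · rw [← hes]
      exact k2
  · right
    intro c hc
    obtain ⟨k, rfl⟩ := ht' _ c hv hc
    refine (h.inv.dir_pow hv ?_ ?_ k).2.2
    · rw [Equiv.symm_symm, ← hes]
      exact k1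
    · rw [← hcs]
      exact k2

end forced

end Pool.Agent.R532.Par
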