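import Pool.Agent.R532.ParTab
import Pool.Agent.H553R2.TSP.Model

/-!
# Touching discs: contacts
-/

set_option autoImplicit false

namespace Pool.Agent.R532.Par

open Pool.Agent.H553R2.TSP

/-- the kind of the block `b` -/
def kn (m b : ℕ) : ℕ := if b = 0 then 0 else if b ≤ m then 1 else 2

/-- the valid codes -/
def V (m : ℕ) (c : ℕ × ℕ) : Prop := c.1 ≤ m + 1 ∧ c.2 ∈ kinds (kn m c.1)

/-- the bit of a disc -/
def bit (x y : ℕ → Bool) (c : ℕ × ℕ) : Bool := bt (x c.1) (y c.1) c.2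

/-- the centre of the disc `c` -/
def pos (x y : ℕ → Bool) (c : ℕ × ℕ) : ℤ × ℤ :=
  (64 * c.1 + (ent (bit x y c) c.2).1, (ent (bit x y c) c.2).2)

/-- the squared distance -/
def sd (p q : ℤ × ℤ) : ℤ := (p.1 - q.1) ^ 2 + (p.2 - q.2) ^ 2

theorem sd_comm (p q : ℤ × ℤ) : sd p q = sd q p := by
  unfold sd
  ring

/-- the discs `c` and `d` touch -/
def Ct (x y : ℕ → Bool) (c d : ℕ × ℕ) : Prop := sd (pos x y c) (pos x y d) = (rad c.2 + rad d.2) ^ 2

theorem Ct.symm {x y : ℕ → Bool} {c d : ℕ × ℕ} (h : Ct x y c d) : Ct x y d c := by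
  unfold Ct at h ⊢
  rw [sd_comm, h]
  ring

/-- the possible steps -/
def Dir (x y : ℕ → Bool) (c d : ℕ × ℕ) : Prop :=
  (d.1 = c.1 ∧ o0 (x c.1) (y c.1) c.2 d.2 = true) ∨ (d.1 = c.1 + 1 ∧ o1 c.2 d.2 = true) ∨
    (c.1 = d.1 + 1 ∧ o2 c.2 d.2 = true)

/-- the contacts which are never used -/
def Sp (x y : ℕ → Bool) (c d : ℕ × ℕ) : Prop := d.1 = c.1 ∧ sp (x c.1) (y c.1) c.2 d.2 = true

theorem sp_comm (x y : Bool) (t t' : ℕ) : sp x y t t' = sp x y t' t := by
  unfold sp
  congr 2
  all_goals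
    congr 1
    simp only [List.mem_cons, Prod.mk.injEq, List.not_mem_nil, or_false]
    rw [eq_iff_iff]
    omega

theorem Sp.symm {x y : ℕ → Bool} {c d : ℕ × ℕ} (h : Sp x y c d) : Sp x y d c := by
  unfold Sp at h ⊢
  obtain ⟨h1, h2⟩ := h
  refine ⟨h1.symm, ?_⟩
  rw [h1, sp_comm]
  exact h2

variable {m : ℕ} {x y : ℕ → Bool}

theorem kinds_lt {k t : ℕ} (h : t ∈ kinds k) : t < 20 := by
  unfold kinds at h
  split at h <;> simp only [List.mem_cons, List.not_mem_nil, or_false] at h <;> omega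

theorem V.lt {c : ℕ × ℕ} (h : V m c) : c.2 < 20 := kinds_lt h.2

theorem kn_lt (m b : ℕ) : kn m b < 3 := by
  unfold kn
  split_ifs <;> omega

theorem rad_pos {t : ℕ} (h : t < 20) : 1 ≤ rad t := (check2 false t h).2.2.1

theorem geo_aux {c d : ℕ × ℕ} (hc : V m c) (hd : V m d) (h : c ≠ d) (hle : c.1 ≤ d.1) :
    ((Dir x y c d ∨ Dir x y d c ∨ Sp x y c d) ∧
      sd (pos x y c) (pos x y d) = (rad c.2 + rad d.2) ^ 2) ∨
    (¬ (Dir x y c d ∨ Dir x y d c ∨ Sp x y c d) ∧
      (rad c.2 + rad d.2 + 1) ^ 2 ≤ sd (pos x y c) (pos x y d)) := by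
  obtain ⟨b, t⟩ := c
  obtain ⟨b', t'⟩ := d
  obtain ⟨hc1, hc2⟩ := hc
  obtain ⟨hd1, hd2⟩ := hd
  simp only at hc1 hc2 hd1 hd2 hle
  rcases hle.lt_or_eq with hlt | heq
  · by_cases h1 : b' = b + 1
    · subst h1
      have hk : kn m b < 2 := by
        unfold kn
        split_ifs <;> omega
      obtain ⟨k', hk'⟩ : ∃ k', kn m (b + 1) = k' + 1 := by
        have h0 : kn m (b + 1) ≠ 0 := by
          rw [kn, if_neg (Nat.succ_ne_zero b)]
          split_ifs <;> omega
        exact Nat.exists_eq_succ_of_ne_zero h0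
      have hk2 : k' < 2 := by
        have := kn_lt m (b + 1)
        omega
      have key := check1 (bit x y (b, t)) (bit x y (b + 1, t')) (kn m b) hk k' hk2 t hc2 t'
        (hk' ▸ hd2)
      have e1 : sd (pos x y (b, t)) (pos x y (b + 1, t')) =
          exc (bit x y (b, t)) (bit x y (b + 1, t')) 1 t t' + (rad t + rad t') ^ 2 := by
        unfold sd pos exc
        push_cast
        ring
      have e2 : (Dir x y (b, t) (b + 1, t') ∨ Dir x y (b + 1, t') (b, t) ∨
          Sp x y (b, t) (b + 1, t')) ↔ (o1 t t' || o2 t' t) = true := by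
        unfold Dir Sp
        simp only [Bool.or_eq_true]
        constructor
        · rintro ((⟨h, -⟩ | ⟨-, h⟩ | ⟨h, -⟩) | (⟨h, -⟩ | ⟨h, -⟩ | ⟨-, h⟩) | ⟨h, -⟩)
          · omega
          · exact Or.inl h
          · omega
          · omega
          · omega
          · exact Or.inr h
          · omega
        · rintro (h | h)
          · exact Or.inl (Or.inr (Or.inl ⟨trivial, h⟩))
          · exact Or.inr (Or.inl (Or.inr (Or.inr ⟨trivial, h⟩)))
      rw [e2, e1]
      split_ifs at key with hif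
      · left
        exact ⟨hif, by rw [key]; ring⟩
      · right
        refine ⟨hif, ?_⟩
        simp only
        linarith [key]
    · have hb : b + 2 ≤ b' := by omega
      right
      obtain ⟨a1, a2, a3, a4, -, -⟩ := check2 (bit x y (b, t)) t (kinds_lt hc2)
      obtain ⟨a5, a6, a7, a8, -, -⟩ := check2 (bit x y (b', t')) t' (kinds_lt hd2)
      constructor
      · unfold Dir Sp
        simp only
        omega
      · unfold sd pos
        simp only
        have h1 : (69 : ℤ) ≤ (64 * (b' : ℤ) + (ent (bit x y (b', t')) t').1) -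
            (64 * (b : ℤ) + (ent (bit x y (b, t)) t).1) := by
          have h2 : ((b : ℤ) + 2) ≤ b' := by exact_mod_cast hb
          linarith
        have h3 : (rad t + rad t' + 1) ≤ 65 := by linarith
        have h4 : (0 : ℤ) ≤ rad t + rad t' + 1 := by linarith
        nlinarith [sq_nonneg ((ent (bit x y (b, t)) t).2 - (ent (bit x y (b', t')) t').2)]
  · subst heq
    have hne : t ≠ t' := by
      rintro rfl
      exact h rfl
    have key := check0 (x b) (y b) (kn m b) (kn_lt m b) t hc2 t' hd2 hne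
    have e1 : sd (pos x y (b, t)) (pos x y (b, t')) =
        exc (bt (x b) (y b) t) (bt (x b) (y b) t') 0 t t' + (rad t + rad t') ^ 2 := by
      unfold sd pos exc bit
      ring
    have e2 : (Dir x y (b, t) (b, t') ∨ Dir x y (b, t') (b, t) ∨ Sp x y (b, t) (b, t')) ↔
        (o0 (x b) (y b) t t' || o0 (x b) (y b) t' t || sp (x b) (y b) t t') = true := by
      unfold Dir Sp
      simp only [Bool.or_eq_true]
      constructor
      · rintro ((⟨-, h⟩ | ⟨h, -⟩ | ⟨h, -⟩) | (⟨-, h⟩ | ⟨h, -⟩ | ⟨h, -⟩) | ⟨-, h⟩)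
        · exact Or.inl (Or.inl h)
        · omega
        · omega
        · exact Or.inl (Or.inr h)
        · omega
        · omega
        · exact Or.inr h
      · rintro ((h | h) | h)
        · exact Or.inl (Or.inl ⟨trivial, h⟩)
        · exact Or.inr (Or.inl (Or.inl ⟨trivial, h⟩))
        · exact Or.inr (Or.inr ⟨trivial, h⟩)
    rw [e2, e1]
    split_ifs at key with hif
    · left
      exact ⟨hif, by rw [key]; ring⟩
    · right
      refine ⟨hif, ?_⟩
      simp only
      linarith [key]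

theorem geo {c d : ℕ × ℕ} (hc : V m c) (hd : V m d) (h : c ≠ d) :
    ((Dir x y c d ∨ Dir x y d c ∨ Sp x y c d) ∧
      sd (pos x y c) (pos x y d) = (rad c.2 + rad d.2) ^ 2) ∨
    (¬ (Dir x y c d ∨ Dir x y d c ∨ Sp x y c d) ∧
      (rad c.2 + rad d.2 + 1) ^ 2 ≤ sd (pos x y c) (pos x y d)) := by
  rcases le_total c.1 d.1 with hle | hle
  · exact geo_aux hc hd h hle
  · have e : (Dir x y c d ∨ Dir x y d c ∨ Sp x y c d) ↔
        (Dir x y d c ∨ Dir x y c d ∨ Sp x y d c) := by
      constructor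
      · rintro (h | h | h)
        · exact Or.inr (Or.inl h)
        · exact Or.inl h
        · exact Or.inr (Or.inr h.symm)
      · rintro (h | h | h)
        · exact Or.inr (Or.inl h)
        · exact Or.inl h
        · exact Or.inr (Or.inr h.symm)
    rw [e, sd_comm, add_comm (rad c.2)]
    exact geo_aux hd hc h.symm hle

theorem ct_cases {c d : ℕ × ℕ} (hc : V m c) (hd : V m d) (h : c ≠ d) (hct : Ct x y c d) :
    Dir x y c d ∨ Dir x y d c ∨ Sp x y c d := by
  rcases geo hc hd h with h1 | h1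
  · exact h1.1
  · exfalso
    have h2 := h1.2
    rw [Ct] at hct
    rw [hct] at h2
    have h3 := rad_pos hc.lt
    have h4 := rad_pos hd.lt
    nlinarith

theorem ct_of_dir {c d : ℕ × ℕ} (hc : V m c) (hd : V m d) (h : c ≠ d) (hdir : Dir x y c d) :
    Ct x y c d := by
  rcases geo hc hd h with h1 | h1
  · exact h1.2
  · exact absurd (Or.inl hdir) h1.1

theorem edist_eq (p q : ℤ × ℤ) : H553R2.TSP.edist p q = √((sd p q : ℤ) : ℝ) := by
  unfold H553R2.TSP.edist sd
  push_cast
  rfl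

theorem edist_of_ct {c d : ℕ × ℕ} (hc : V m c) (hd : V m d) (h : Ct x y c d) :
    H553R2.TSP.edist (pos x y c) (pos x y d) = rad c.2 + rad d.2 := by
  have h3 := rad_pos hc.lt
  have h4 := rad_pos hd.lt
  rw [edist_eq, h]
  push_cast
  rw [Real.sqrt_sq]
  have h5 : (0 : ℤ) ≤ rad c.2 + rad d.2 := by linarith
  exact_mod_cast h5

theorem edist_of_not_ct {c d : ℕ × ℕ} (hc : V m c) (hd : V m d) (hne : c ≠ d)
    (h : ¬ Ct x y c d) : (rad c.2 : ℝ) + rad d.2 + 1 ≤ H553R2.TSP.edist (pos x y c) (pos x y d) := by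
  have h3 := rad_pos hc.lt
  have h4 := rad_pos hd.lt
  rcases geo (x := x) (y := y) hc hd hne with h1 | h1
  · exact absurd h1.2 h
  · rw [edist_eq]
    apply Real.le_sqrt_of_sq_le
    have h2 := h1.2
    exact_mod_cast h2

theorem pos_ne {c d : ℕ × ℕ} (hc : V m c) (hd : V m d) (hne : c ≠ d) :
    pos x y c ≠ pos x y d := by
  intro he
  have h3 := rad_pos hc.lt
  have h4 := rad_pos hd.lt
  have h0 : sd (pos x y c) (pos x y d) = 0 := by
    rw [he]
    unfold sd
    ring
  rcases geo (x := x) (y := y) hc hd hne with h1 | h1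
  · have h2 := h1.2
    rw [h0] at h2
    nlinarith
  · have h2 := h1.2
    rw [h0] at h2
    nlinarith

theorem pos_bd {c : ℕ × ℕ} (hc : V m c) :
    |(pos x y c).1| ≤ ((64 * m + 107 : ℕ) : ℤ) ∧ |(pos x y c).2| ≤ ((64 * m + 107 : ℕ) : ℤ) := by
  obtain ⟨a1, a2, -, -, a5, a6⟩ := check2 (bit x y c) c.2 hc.lt
  have h1 : (c.1 : ℤ) ≤ m + 1 := by exact_mod_cast hc.1
  have h2 : (0 : ℤ) ≤ c.1 := Int.natCast_nonneg _
  have h3 : (0 : ℤ) ≤ m := Int.natCast_nonneg _
  unfold pos
  push_cast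
  constructor
  · rw [abs_le]
    constructor <;> linarith
  · rw [abs_le]
    constructor <;> linarith

end Pool.Agent.R532.Par
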