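import Pool.Agent.H524R2.Forster

/-!
# The sign rank of the parity of a scalar product
-/

set_option autoImplicit false

namespace Pool.Agent.R532.Par

open Finset Matrix

variable {m : ℕ}

/-- the sign of the scalar product of two bit vectors -/
def sg (x y : Fin m → Bool) : ℝ := ∏ i, if (x i && y i) = true then (-1 : ℝ) else 1

theorem sg_cases (x y : Fin m → Bool) : sg x y = 1 ∨ sg x y = -1 := by
  unfold sg
  apply Finset.prod_induction (fun i => if (x i && y i) = true then (-1 : ℝ) else 1)
    (fun z => z = 1 ∨ z = -1)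
  · rintro a b (rfl | rfl) (rfl | rfl) <;> norm_num
  · exact Or.inl rfl
  · intro i _
    split_ifs
    · exact Or.inr rfl
    · exact Or.inl rfl

theorem sg_abs (x y : Fin m → Bool) : |sg x y| = 1 := by
  rcases sg_cases x y with h | h <;> rw [h] <;> norm_num

theorem sg_orth (y y' : Fin m → Bool) :
    ∑ x, sg x y * sg x y' = if y = y' then (2 : ℝ) ^ m else 0 := by
  unfold sg
  simp_rw [← Finset.prod_mul_distrib]
  have h := Finset.prod_univ_sum (fun _ : Fin m => (Finset.univ : Finset Bool))
    (fun i a => (if (a && y i) = true then (-1 : ℝ) else 1) * (if (a && y' i) = true then (-1 : ℝ) else 1))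
  rw [Fintype.piFinset_univ] at h
  rw [← h]
  have e : ∀ i, ∑ a : Bool, ((if (a && y i) = true then (-1 : ℝ) else 1) *
      (if (a && y' i) = true then (-1 : ℝ) else 1)) = if y i = y' i then 2 else 0 := by
    intro i
    cases y i <;> cases y' i <;> norm_num
  rw [Finset.prod_congr rfl fun i _ => e i]
  split_ifs with hyy
  · subst hyy
    simp
  · have : ∃ i, y i ≠ y' i := by
      by_contra hcon
      push Not at hcon
      exact hyy (funext hcon)
    obtain ⟨i, hi⟩ := this
    exact Finset.prod_eq_zero (Finset.mem_univ i) (if_neg hi)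

/-- **The sign rank** of the parity of the scalar product (Forster). -/
theorem sg_rank {ι : Type} [Fintype ι] (f g : ι → (Fin m → Bool) → ℝ)
    (h : ∀ x y, 0 < ∑ i, f i x * g i y ↔ sg x y = 1) : 2 ^ m ≤ (Fintype.card ι + 1) ^ 2 := by
  classical
  -- a strict representation
  obtain ⟨ε, hε, hε2⟩ : ∃ ε : ℝ, 0 < ε ∧ ∀ x y, sg x y = 1 → ε < ∑ i, f i x * g i y := by
    have hfin : ∀ p : (Fin m → Bool) × (Fin m → Bool), ∃ ε : ℝ, 0 < ε ∧ (sg p.1 p.2 = 1 →
        ε < ∑ i, f i p.1 * g i p.2) := by
      intro p
      by_cases hp : sg p.1 p.2 = 1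
      · have h1 := (h p.1 p.2).2 hp
        exact ⟨(∑ i, f i p.1 * g i p.2) / 2, by positivity, fun _ => by linarith⟩
      · exact ⟨1, one_pos, fun h0 => absurd h0 hp⟩
    choose E hE1 hE2 using hfin
    refine ⟨Finset.univ.inf' ⟨(fun _ => false, fun _ => false), Finset.mem_univ _⟩ E, ?_, ?_⟩
    · rw [Finset.lt_inf'_iff]
      exact fun p _ => hE1 p
    · intro x y hxy
      exact lt_of_le_of_lt (Finset.inf'_le E (Finset.mem_univ (x, y))) (hE2 (x, y) hxy)
  obtain ⟨d, hd⟩ : ∃ d, d = Fintype.card ι + 1 := ⟨_, rfl⟩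
  rw [← hd]
  by_cases hdN : d ≤ 2 ^ m
  · let q : Fin (2 ^ m) ≃ (Fin m → Bool) := Fintype.equivOfCardEq (by simp)
    let w : Fin d ≃ Option ι := Fintype.equivOfCardEq (by simp [hd])
    let u : Fin (2 ^ m) → Fin d → ℝ := fun a k => (w k).elim (-ε) (fun i => f i (q a))
    let v : (Fin m → Bool) → Fin d → ℝ := fun y k => (w k).elim 1 (fun i => g i y)
    have huv : ∀ a y, u a ⬝ᵥ v y = (∑ i, f i (q a) * g i y) - ε := by
      intro a y
      obtain ⟨Z, hZ⟩ : ∃ Z : Option ι → ℝ, Z = fun o => o.elim (-ε) (fun i => f i (q a) * g i y) :=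
        ⟨_, rfl⟩
      have e1 : u a ⬝ᵥ v y = ∑ k : Fin d, Z (w k) := by
        unfold dotProduct
        apply Finset.sum_congr rfl
        intro k _
        simp only [u, v, hZ]
        cases w k with
        | none => simp
        | some i => rfl
      rw [e1, Equiv.sum_comp w Z, Fintype.sum_option]
      simp only [hZ, Option.elim]
      ring
    have key := Pool.Agent.H524R2.forster (N := 2 ^ m) (d := d) (Y := Fin m → Bool)
      (fun a y => sg (q a) y) (fun a y => sg_abs _ _) ?_ (by positivity) hdN u v ?_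
    · rw [Fintype.card_fun, Fintype.card_bool, Fintype.card_fin] at key
      exact_mod_cast key
    · intro y y'
      rw [Equiv.sum_comp q (fun x => sg x y * sg x y'), sg_orth]
      push_cast
      rfl
    · intro a y
      rw [huv]
      rcases sg_cases (q a) y with hs | hs
      · rw [hs]
        have := hε2 (q a) y hs
        linarith
      · rw [hs]
        have h2 : ¬ 0 < ∑ i, f i (q a) * g i y := by
          rw [h, hs]
          norm_num
        linarith
  · push Not at hdN
    nlinarith

end Pool.Agent.R532.Par
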