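import Pool.Agent.R532.ParMain
import Pool.Agent.R532.ParRank

/-!
# Touching discs: the cities of two players
-/

set_option autoImplicit false

namespace Pool.Agent.R532.Par

open Pool.Agent.H553R2.TSP Finset

/-- The function `f` of `n` cities does not depend on the cities in `A`. -/
def Indep {n : ℕ} {α : Type} (f : (Fin n → ℤ × ℤ) → α) (A : Finset (Fin n)) : Prop :=
  ∀ P Q : Fin n → ℤ × ℤ, (∀ j, j ∉ A → P j = Q j) → f P = f Q

/-- The `n` cities are distinct points with integer coordinates between `-X` and `X`, and either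
some tour has length at most `B`, or all tours have length at least `B + 1`. -/
def Gap {n : ℕ} (X B : ℕ) (P : Fin n → ℤ × ℤ) : Prop :=
  IsInstance n X P ∧ ((∃ σ : Equiv.Perm (Fin n), tourLength P σ ≤ B) ∨
    ∀ σ : Equiv.Perm (Fin n), (B : ℝ) + 1 ≤ tourLength P σ)

/-- The function `T` of `n` cities is positive if some tour has length at most `B`, and not positive
if all tours have length at least `B + 1`. -/
def Decides {n : ℕ} (X B : ℕ) (T : (Fin n → ℤ × ℤ) → ℝ) : Prop :=
  ∀ P : Fin n → ℤ × ℤ, Gap X B P → (0 < T P ↔ ∃ σ : Equiv.Perm (Fin n), tourLength P σ ≤ B)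

variable {m n : ℕ}

/-- the bits of the blocks -/
def xb (x : Fin m → Bool) (b : ℕ) : Bool := if h : b - 1 < m then x ⟨b - 1, h⟩ else false

theorem xb_succ (x : Fin m → Bool) (i : Fin m) : xb x (i.val + 1) = x i := by
  unfold xb
  rw [dif_pos (by simp)]
  congr 1

theorem par_eq (x y : Fin m → Bool) : (((par m (xb x) (xb y) : ℤˣ) : ℤ) : ℝ) = sg x y := by
  unfold par sg
  rw [Finset.prod_range]
  push_cast
  apply Finset.prod_congr rfl
  intro i _
  rw [xb_succ, xb_succ]
  split_ifs <;> simp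

theorem par_iff (x y : Fin m → Bool) : par m (xb x) (xb y) = 1 ↔ sg x y = 1 := by
  rw [← par_eq]
  constructor
  · intro h
    rw [h]
    simp
  · intro h
    have h1 : ((par m (xb x) (xb y) : ℤˣ) : ℤ) = 1 := by exact_mod_cast h
    exact Units.ext h1

/-- the instance for two bit vectors -/
def inst (e : Fin n ≃ Lab m) (x y : Fin m → Bool) : Fin n → ℤ × ℤ := cities (xb x) (xb y) e

theorem inst_spec (e : Fin n ≃ Lab m) {T : (Fin n → ℤ × ℤ) → ℝ}
    (hT : Decides (64 * m + 107) (268 * m + 296) T) (x y : Fin m → Bool) :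
    0 < T (inst e x y) ↔ sg x y = 1 := by
  by_cases h : par m (xb x) (xb y) = 1
  · obtain ⟨σ, hσ⟩ := short_of_par e h
    have hs : ∃ σ : Equiv.Perm (Fin n), tourLength (inst e x y) σ ≤ ((268 * m + 296 : ℕ) : ℝ) := by
      refine ⟨σ, ?_⟩
      push_cast
      exact hσ.le
    have := hT (inst e x y) ⟨cities_instance _ _ e, Or.inl hs⟩
    rw [this, ← par_iff]
    exact ⟨fun _ => h, fun _ => hs⟩
  · have hl := long_of_par e h
    have hl2 : ∀ σ : Equiv.Perm (Fin n), ((268 * m + 296 : ℕ) : ℝ) + 1 ≤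
        tourLength (inst e x y) σ := by
      intro σ
      have := hl σ
      push_cast
      unfold inst
      linarith
    have := hT (inst e x y) ⟨cities_instance _ _ e, Or.inr hl2⟩
    rw [this, ← par_iff]
    constructor
    · rintro ⟨σ, hσ⟩
      exfalso
      have := hl2 σ
      linarith
    · intro h1
      exact absurd h1 h

/-! ### Which cities move -/

theorem ent_const (z z' : Bool) : ∀ t < 20, t ≠ 12 → t ≠ 13 → ent z t = ent z' t := by
  revert z z'
  decide

theorem pos_congr {x y x' y' : ℕ → Bool} {c : ℕ × ℕ} (h20 : c.2 < 20)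
    (hx : c.2 = 12 → x c.1 = x' c.1) (hy : c.2 = 13 → y c.1 = y' c.1) :
    pos x y c = pos x' y' c := by
  have e : ent (bit x y c) c.2 = ent (bit x' y' c) c.2 := by
    by_cases h12 : c.2 = 12
    · unfold bit bt
      rw [if_pos h12, if_pos h12, hx h12]
    · by_cases h13 : c.2 = 13
      · unfold bit bt
        rw [if_neg h12, if_neg h12, hy h13]
      · exact ent_const _ _ _ h20 h12 h13
  unfold pos
  rw [e]

theorem val_12 {u : Lab m} (h : (val u).2 = 12) : ∃ k, u = Sum.inl (k, 12) ∧
    (val u).1 = k.val + 1 := by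
  rcases u with ⟨k, t⟩ | j
  · refine ⟨k, ?_, rfl⟩
    have : t = 12 := Fin.ext h
    rw [this]
  · exfalso
    revert h
    fin_cases j <;> simp [val, capv]

theorem val_13 {u : Lab m} (h : (val u).2 = 13) : ∃ k, u = Sum.inl (k, 13) ∧
    (val u).1 = k.val + 1 := by
  rcases u with ⟨k, t⟩ | j
  · refine ⟨k, ?_, rfl⟩
    have : t = 13 := Fin.ext h
    rw [this]
  · exfalso
    revert h
    fin_cases j <;> simp [val, capv]

theorem inst_congr (e : Fin n ≃ Lab m) (x y x' y' : Fin m → Bool) (j : Fin n)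
    (hx : ∀ k, e j = Sum.inl (k, 12) → x k = x' k) (hy : ∀ k, e j = Sum.inl (k, 13) → y k = y' k) :
    inst e x y j = inst e x' y' j := by
  unfold inst cities
  apply pos_congr (V_val _).lt
  · intro h
    obtain ⟨k, h1, h2⟩ := val_12 h
    rw [h2, xb_succ, xb_succ]
    exact hx k h1
  · intro h
    obtain ⟨k, h1, h2⟩ := val_13 h
    rw [h2, xb_succ, xb_succ]
    exact hy k h1

/-- the cities of two given sets can be the moving ones -/
theorem exists_labels {q : ℕ} {A A' : Finset (Fin n)} (hn : n = 14 * m + 10) (hd : Disjoint A A')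
    (hq : q ≤ m) (hA : q ≤ A.card) (hA' : q ≤ A'.card) : ∃ e : Fin n ≃ Lab m,
      (∀ k : Fin q, e.symm (Sum.inl (Fin.castLE hq k, 12)) ∈ A) ∧
      (∀ k : Fin q, e.symm (Sum.inl (Fin.castLE hq k, 13)) ∈ A') := by
  classical
  obtain ⟨a, ha, hai⟩ : ∃ a : Fin q → Fin n, (∀ k, a k ∈ A) ∧ Function.Injective a := by
    refine ⟨fun k => A.equivFin.symm (Fin.castLE hA k), fun k => Subtype.coe_prop _, ?_⟩
    intro k k' h
    exact Fin.castLE_injective hA (A.equivFin.symm.injective (Subtype.ext h))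
  obtain ⟨a', ha', hai'⟩ : ∃ a : Fin q → Fin n, (∀ k, a k ∈ A') ∧ Function.Injective a := by
    refine ⟨fun k => A'.equivFin.symm (Fin.castLE hA' k), fun k => Subtype.coe_prop _, ?_⟩
    intro k k' h
    exact Fin.castLE_injective hA' (A'.equivFin.symm.injective (Subtype.ext h))
  let f : Lab m → Fin n := fun u => match u with
    | Sum.inl (k, t) => if h : k.val < q then
        (if t = 12 then a ⟨k.val, h⟩ else a' ⟨k.val, h⟩) else ⟨0, by omega⟩
    | Sum.inr j => ⟨0, by omega⟩
  let S : Finset (Lab m) :=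
    (univ.image fun k : Fin q => (Sum.inl (Fin.castLE hq k, 12) : Lab m)) ∪
    univ.image fun k : Fin q => (Sum.inl (Fin.castLE hq k, 13) : Lab m)
  have hS : ∀ u ∈ S, ∃ k : Fin q, u = Sum.inl (Fin.castLE hq k, 12) ∨
      u = Sum.inl (Fin.castLE hq k, 13) := by
    intro u hu
    simp only [S, mem_union, mem_image, mem_univ, true_and] at hu
    rcases hu with ⟨k, hk⟩ | ⟨k, hk⟩
    · exact ⟨k, Or.inl hk.symm⟩
    · exact ⟨k, Or.inr hk.symm⟩
  have hf12 : ∀ k : Fin q, f (Sum.inl (Fin.castLE hq k, 12)) = a k := by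
    intro k
    simp only [f]
    rw [dif_pos (show (Fin.castLE hq k).val < q from k.2)]
    rfl
  have hf13 : ∀ k : Fin q, f (Sum.inl (Fin.castLE hq k, 13)) = a' k := by
    intro k
    simp only [f]
    rw [dif_pos (show (Fin.castLE hq k).val < q from k.2)]
    rfl
  have haa : ∀ k k', a k ≠ a' k' := fun k k' h =>
    (Finset.disjoint_left.1 hd (ha k)) (h ▸ ha' k')
  obtain ⟨g, hg⟩ := Finset.exists_equiv_extend_of_card_eq (α := Lab m) (β := Fin n)
    (t := univ) (by rw [card_Lab, card_univ, Fintype.card_fin, hn]) (s := S) (f := f)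
    (subset_univ _) (by
      intro u hu v hv huv
      obtain ⟨k, rfl | rfl⟩ := hS u hu <;> obtain ⟨k', rfl | rfl⟩ := hS v hv
      · rw [hf12, hf12] at huv
        rw [hai huv]
      · rw [hf12, hf13] at huv
        exact absurd huv (haa _ _)
      · rw [hf12, hf13] at huv
        exact absurd huv.symm (haa _ _)
      · rw [hf13, hf13] at huv
        rw [hai' huv])
  refine ⟨(g.trans (Equiv.subtypeUnivEquiv fun i => mem_univ i)).symm, fun k => ?_, fun k => ?_⟩
  · rw [Equiv.symm_symm, Equiv.trans_apply, Equiv.subtypeUnivEquiv_apply,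
      hg _ (by simp [S]), hf12]
    exact ha k
  · rw [Equiv.symm_symm, Equiv.trans_apply, Equiv.subtypeUnivEquiv_apply,
      hg _ (by simp [S]), hf13]
    exact ha' k

/-- the first bits -/
def ex (m : ℕ) {q : ℕ} (x : Fin q → Bool) (k : Fin m) : Bool :=
  if h : k.val < q then x ⟨k.val, h⟩ else false

theorem sg_ex {q : ℕ} (hq : q ≤ m) (x y : Fin q → Bool) : sg (ex m x) (ex m y) = sg x y := by
  unfold sg
  have h1 : ∏ i : Fin m, (if (ex m x i && ex m y i) = true then (-1 : ℝ) else 1) =
      ∏ i ∈ range m, (if h : i < q then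
        (if (x ⟨i, h⟩ && y ⟨i, h⟩) = true then (-1 : ℝ) else 1) else 1) := by
    rw [Finset.prod_range]
    apply Finset.prod_congr rfl
    intro i _
    unfold ex
    by_cases h : i.val < q
    · rw [dif_pos h, dif_pos h, dif_pos h]
    · rw [dif_neg h, dif_neg h, dif_neg h]
      simp
  have h2 : ∏ i : Fin q, (if (x i && y i) = true then (-1 : ℝ) else 1) =
      ∏ i ∈ range q, (if h : i < q then
        (if (x ⟨i, h⟩ && y ⟨i, h⟩) = true then (-1 : ℝ) else 1) else 1) := by
    rw [Finset.prod_range]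
    apply Finset.prod_congr rfl
    intro i _
    rw [dif_pos i.2]
  rw [h1, h2]
  symm
  apply Finset.prod_subset
  · exact Finset.range_mono hq
  · intro i _ hi
    rw [mem_range] at hi
    rw [dif_neg hi]

/-- **The sign rank.** -/
theorem rank_bound {ι : Type} [Fintype ι] {q : ℕ} (hn : n = 14 * m + 10) {A A' : Finset (Fin n)}
    (hd : Disjoint A A') (hq : q ≤ m) (hA : q ≤ A.card) (hA' : q ≤ A'.card)
    (f g : ι → (Fin n → ℤ × ℤ) → ℝ) (hf : ∀ i, Indep (f i) A') (hg : ∀ i, Indep (g i) A)
    (h : Decides (64 * m + 107) (268 * m + 296) fun P => ∑ i, f i P * g i P) :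
    2 ^ q ≤ (Fintype.card ι + 1) ^ 2 := by
  obtain ⟨e, he1, he2⟩ := exists_labels hn hd hq hA hA'
  have hxA : ∀ (x : Fin m → Bool) (y y' : Fin q → Bool), ∀ j, j ∉ A' →
      inst e x (ex m y) j = inst e x (ex m y') j := by
    intro x y y' j hj
    refine inst_congr e x _ x _ j (fun _ _ => rfl) ?_
    intro k hk
    unfold ex
    by_cases hkq : k.val < q
    · exfalso
      apply hj
      rw [← e.symm_apply_apply j, hk]
      exact he2 ⟨k.val, hkq⟩
    · rw [dif_neg hkq, dif_neg hkq]
  have hyA : ∀ (x x' : Fin q → Bool) (y : Fin m → Bool), ∀ j, j ∉ A →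
      inst e (ex m x) y j = inst e (ex m x') y j := by
    intro x x' y j hj
    refine inst_congr e _ y _ y j ?_ (fun _ _ => rfl)
    intro k hk
    unfold ex
    by_cases hkq : k.val < q
    · exfalso
      apply hj
      rw [← e.symm_apply_apply j, hk]
      exact he1 ⟨k.val, hkq⟩
    · rw [dif_neg hkq, dif_neg hkq]
  apply sg_rank (fun i x => f i (inst e (ex m x) (ex m fun _ : Fin q => false)))
    (fun i y => g i (inst e (ex m fun _ : Fin q => false) (ex m y)))
  intro x y
  rw [← sg_ex hq, ← inst_spec e h]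
  have e1 : ∀ i, f i (inst e (ex m x) (ex m y)) = f i (inst e (ex m x) (ex m fun _ : Fin q => false)) :=
    fun i => hf i _ _ (hxA _ y _)
  have e2 : ∀ i, g i (inst e (ex m x) (ex m y)) = g i (inst e (ex m fun _ : Fin q => false) (ex m y)) :=
    fun i => hg i _ _ (hyA x _ _)
  simp only [e1, e2]

/-- the constant `0` does not decide -/
theorem not_decides_zero (hn : n = 14 * m + 10) {T : (Fin n → ℤ × ℤ) → ℝ}
    (hT : Decides (64 * m + 107) (268 * m + 296) T) : ∃ P, 0 < T P := by
  obtain ⟨e⟩ : Nonempty (Fin n ≃ Lab m) := by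
    rw [← Fintype.card_eq, card_Lab, Fintype.card_fin, hn]
  refine ⟨inst e (fun _ => false) (fun _ => false), (inst_spec e hT _ _).2 ?_⟩
  unfold sg
  simp

end Pool.Agent.R532.Par
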