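import Pool.Agent.R532.ParTour

/-!
# Touching discs: the length of a shortest tour is the parity of the scalar product
-/

set_option autoImplicit false

namespace Pool.Agent.R532.Par

open Pool.Agent.H553R2.TSP

variable {m : ℕ} {x y : ℕ → Bool}

/-- the sum of the radii -/
theorem sum_rad (m : ℕ) : ∑ u : Lab m, (rad (val u).2 : ℝ) = 134 * m + 148 := by
  have h1 : ∑ u : Lab m, rad (val u).2 = 134 * m + 148 := by
    rw [Fintype.sum_sum_type, Fintype.sum_prod_type]
    have e1 : ∀ i : Fin m, ∑ t : Fin 14, rad (val (Sum.inl (i, t) : Lab m)).2 = 134 := by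
      intro i
      simp only [val]
      rfl
    have e2 : ∑ j : Fin 10, rad (val (Sum.inr j : Lab m)).2 = 148 := by
      simp only [val, Fin.sum_univ_succ, capv]
      rfl
    rw [Finset.sum_congr rfl (fun i _ => e1 i), e2, Finset.sum_const, Finset.card_univ,
      Fintype.card_fin]
    ring
  have h2 := congrArg (fun z : ℤ => (z : ℝ)) h1
  push_cast at h2
  exact h2

theorem rot_ne {n : ℕ} (hn : 2 ≤ n) (i : Fin n) : finRotate n i ≠ i := by
  have h : i ∈ (finRotate n).support := by
    rw [support_finRotate_of_le hn]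
    exact Finset.mem_univ i
  rwa [Equiv.Perm.mem_support] at h

theorem isCycle_permCongr {α β : Type} (f : α ≃ β) {p : Equiv.Perm α} (hp : p.IsCycle) :
    (f.permCongr p).IsCycle := by
  obtain ⟨a, ha, h⟩ := hp
  refine ⟨f a, ?_, ?_⟩
  · rw [Equiv.permCongr_apply, Equiv.symm_apply_apply]
    exact fun he => ha (f.injective he)
  · intro v hv
    rw [Equiv.permCongr_apply] at hv
    have h1 : p (f.symm v) ≠ f.symm v := by
      intro he
      apply hv
      rw [he, Equiv.apply_symm_apply]
    obtain ⟨k, hk⟩ := h h1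
    refine ⟨k, ?_⟩
    have h2 : (f.permCongr p) ^ k = f.permCongr (p ^ k) := by
      have := map_zpow (f.permCongrHom) p k
      exact this.symm
    rw [h2, Equiv.permCongr_apply, Equiv.symm_apply_apply, hk, Equiv.apply_symm_apply]

section len

variable {n : ℕ}

/-- the cities -/
def cities (x y : ℕ → Bool) (e : Fin n ≃ Lab m) (i : Fin n) : ℤ × ℤ := pos x y (val (e i))

theorem card_eq (e : Fin n ≃ Lab m) : n = 14 * m + 10 := by
  rw [← card_Lab, ← Fintype.card_congr e, Fintype.card_fin]

theorem sum_steps (e : Fin n ≃ Lab m) (σ : Equiv.Perm (Fin n)) :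
    ∑ i : Fin n, ((rad (val (e (σ i))).2 : ℝ) + rad (val (e (σ (finRotate n i)))).2) =
      268 * m + 296 := by
  rw [Finset.sum_add_distrib]
  have e1 : ∑ i : Fin n, (rad (val (e (σ i))).2 : ℝ) = 134 * m + 148 := by
    rw [← sum_rad m]
    exact Equiv.sum_comp (σ.trans e) (fun u : Lab m => (rad (val u).2 : ℝ))
  have e2 : ∑ i : Fin n, (rad (val (e (σ (finRotate n i)))).2 : ℝ) = 134 * m + 148 := by
    rw [← sum_rad m]
    exact Equiv.sum_comp (((finRotate n).trans σ).trans e) (fun u : Lab m => (rad (val u).2 : ℝ))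
  rw [e1, e2]
  ring

theorem step_ne (e : Fin n ≃ Lab m) (σ : Equiv.Perm (Fin n)) (i : Fin n) :
    val (e (σ i)) ≠ val (e (σ (finRotate n i))) := by
  intro he
  have h1 := rot_ne (by rw [card_eq e]; omega) i
  exact h1 (σ.injective (e.injective (val_inj he))).symm

theorem length_eq (e : Fin n ≃ Lab m) (σ : Equiv.Perm (Fin n))
    (h : ∀ i, Ct x y (val (e (σ i))) (val (e (σ (finRotate n i))))) :
    tourLength (cities x y e) σ = 268 * m + 296 := by
  rw [← sum_steps e σ]
  unfold tourLength cities
  exact Finset.sum_congr rfl fun i _ => edist_of_ct (V_val _) (V_val _) (h i)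

theorem le_length (e : Fin n ≃ Lab m) (σ : Equiv.Perm (Fin n))
    (h : ¬ ∀ i, Ct x y (val (e (σ i))) (val (e (σ (finRotate n i))))) :
    268 * m + 297 ≤ tourLength (cities x y e) σ := by
  rw [not_forall] at h
  obtain ⟨i₀, hi₀⟩ := h
  have h1 : ∀ i, (rad (val (e (σ i))).2 : ℝ) + rad (val (e (σ (finRotate n i)))).2 +
      (if i = i₀ then 1 else 0) ≤ H553R2.TSP.edist (cities x y e (σ i))
        (cities x y e (σ (finRotate n i))) := by
    intro i
    by_cases hc : Ct x y (val (e (σ i))) (val (e (σ (finRotate n i))))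
    · have hne : i ≠ i₀ := by
        rintro rfl
        exact hi₀ hc
      rw [if_neg hne, add_zero]
      exact (edist_of_ct (V_val _) (V_val _) hc).ge
    · have h2 := edist_of_not_ct (V_val _) (V_val _) (step_ne e σ i) hc
      refine le_trans ?_ h2
      split_ifs <;> linarith
  have h3 := Finset.sum_le_sum fun i (_ : i ∈ (Finset.univ : Finset (Fin n))) => h1 i
  rw [Finset.sum_add_distrib, sum_steps, Finset.sum_ite_eq' Finset.univ i₀] at h3
  simp only [Finset.mem_univ, if_true] at h3
  unfold tourLength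
  linarith

theorem tour_of_ct (e : Fin n ≃ Lab m) (σ : Equiv.Perm (Fin n))
    (h : ∀ i, Ct x y (val (e (σ i))) (val (e (σ (finRotate n i))))) :
    Tour m x y ((σ.trans e).permCongr (finRotate n)) := by
  have hn : 2 ≤ n := by rw [card_eq e]; omega
  refine ⟨isCycle_permCongr _ (isCycle_finRotate_of_le hn), fun u => ?_, fun u => ?_⟩
  · obtain ⟨i, rfl⟩ := (σ.trans e).surjective u
    rw [Equiv.permCongr_apply, Equiv.symm_apply_apply]
    exact fun he => rot_ne hn i ((σ.trans e).injective he)
  · obtain ⟨i, rfl⟩ := (σ.trans e).surjective u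
    rw [Equiv.permCongr_apply, Equiv.symm_apply_apply]
    exact h i

/-- the tour along the touching discs -/
theorem exists_steps (e : Fin n ≃ Lab m) (h : (paths x y m).1 = false) :
    ∃ σ : Equiv.Perm (Fin n), ∀ i, Ct x y (val (e (σ i))) (val (e (σ (finRotate n i)))) := by
  obtain ⟨L, hL1, hL2⟩ := perm_lift (val (m := m))
    ((tour_perm (x := x) (y := y) (m := m)).trans full_perm).symm _ rfl
  have hnd : L.Nodup := hL1.nodup_iff.2 (Finset.nodup_toList _)
  have hmem : ∀ u, u ∈ L := fun u => hL1.mem_iff.2 (Finset.mem_toList.2 (Finset.mem_univ u))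
  have hlen : L.length = n := by
    rw [hL1.length_eq, Finset.length_toList, Finset.card_univ, card_Lab, card_eq e]
  have hlen2 : (tour x y m).length = n := by
    rw [← hL2, List.length_map, hlen]
  obtain ⟨hp1, hp2, hp3⟩ := tour_pth h
  rw [List.isChain_iff_getElem] at hp1
  let E : Fin L.length ≃ Lab m := hnd.getEquivOfForallMemList L hmem
  refine ⟨(finCongr hlen.symm).trans (E.trans e.symm), ?_⟩
  have hE : ∀ i : Fin n, val (e (((finCongr hlen.symm).trans (E.trans e.symm)) i)) =
      (tour x y m)[i.val]'(by rw [hlen2]; exact i.2) := by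
    intro i
    simp only [Equiv.trans_apply, Equiv.apply_symm_apply]
    have h1 : E (finCongr hlen.symm i) = L[i.val]'(by rw [hlen]; exact i.2) := rfl
    rw [h1]
    simp only [← hL2, List.getElem_map]
  intro i
  have hne := step_ne e ((finCongr hlen.symm).trans (E.trans e.symm)) i
  apply ct_of_dir (V_val _) (V_val _) hne
  rw [hE, hE]
  have hn0 : 0 < n := i.pos
  obtain ⟨k, hk⟩ : ∃ k, n = k + 1 := ⟨n - 1, by omega⟩
  subst hk
  rcases Nat.lt_or_ge i.val k with hlt | hge
  · have h2 : finRotate (k + 1) i = ⟨i.val + 1, by omega⟩ := by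
      have := finRotate_of_lt hlt
      exact this
    simp only [h2]
    exact hp1 i.val (by omega)
  · have hik : i.val = k := by have := i.2; omega
    have h2 : finRotate (k + 1) i = ⟨0, by omega⟩ := by
      have hi : i = ⟨k, by omega⟩ := Fin.ext hik
      rw [hi]
      exact finRotate_last'
    simp only [h2]
    have e1 : (tour x y m)[i.val]'(by rw [hlen2]; exact i.2) = (m + 1, 4) := by
      rw [List.getLast?_eq_getElem?] at hp3
      have h3 : (tour x y m).length - 1 = i.val := by omega
      rw [h3, List.getElem?_eq_getElem (by omega)] at hp3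
      exact Option.some.inj hp3
    have e2 : (tour x y m)[0]'(by omega) = (m, 6) := by
      rw [List.head?_eq_getElem?, List.getElem?_eq_getElem (by omega)] at hp2
      exact Option.some.inj hp2
    rw [e1, e2]
    exact tour_close

end len

/-- the parity of the scalar product -/
def par (m : ℕ) (x y : ℕ → Bool) : ℤˣ :=
  ∏ i ∈ Finset.range m, (if (x (i + 1) && y (i + 1)) = true then (-1 : ℤˣ) else 1)

theorem state_of_par (h : par m x y = 1) : (paths x y m).1 = false := by
  unfold par at h
  rw [← paths_state] at h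
  cases hs : (paths x y m).1
  · rfl
  · rw [hs] at h
    simp at h

section final

variable {n : ℕ}

theorem short_of_par (e : Fin n ≃ Lab m) (h : par m x y = 1) :
    ∃ σ : Equiv.Perm (Fin n), tourLength (cities x y e) σ = 268 * m + 296 := by
  obtain ⟨σ, hσ⟩ := exists_steps e (state_of_par h)
  exact ⟨σ, length_eq e σ hσ⟩

theorem par_of_ct (e : Fin n ≃ Lab m) (σ : Equiv.Perm (Fin n))
    (h : ∀ i, Ct x y (val (e (σ i))) (val (e (σ (finRotate n i))))) : par m x y = 1 := by
  have h0 : par m (fun _ => false) (fun _ => false) = 1 := by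
    unfold par
    simp
  obtain ⟨σ₀, hσ₀⟩ := exists_steps e (state_of_par h0)
  have h1 := tour_of_ct e σ h
  have h2 := tour_of_ct e σ₀ hσ₀
  have h3 := h1.parity h2 (by rw [Equiv.Perm.sign_permCongr, Equiv.Perm.sign_permCongr])
    (fun _ => rfl)
  unfold par
  rw [Finset.prod_range]
  exact h3

theorem long_of_par (e : Fin n ≃ Lab m) (h : par m x y ≠ 1) (σ : Equiv.Perm (Fin n)) :
    268 * m + 297 ≤ tourLength (cities x y e) σ :=
  le_length e σ fun hc => h (par_of_ct e σ hc)

theorem cities_instance (x y : ℕ → Bool) (e : Fin n ≃ Lab m) :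
    IsInstance n (64 * m + 107) (cities x y e) := by
  refine ⟨fun i j hij => ?_, fun i => pos_bd (V_val _)⟩
  by_contra hne
  exact pos_ne (V_val _) (V_val _) (fun he => hne (e.injective (val_inj he))) hij

end final

end Pool.Agent.R532.Par
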