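import Pool.Agent.R532.ParInst

/-!
# Lower bounds for the models
-/

set_option autoImplicit false

namespace Pool.Agent.R532.Par

open Pool.Agent.H553R2.TSP Finset

variable {m n : ℕ}

/-! ### Sums of functions of few cities -/

theorem sg_flip (x : Fin m → Bool) (k : Fin m) :
    sg (Function.update x k (!x k)) (fun _ => true) = - sg x (fun _ => true) := by
  unfold sg
  rw [← Finset.mul_prod_erase univ _ (mem_univ k), ← Finset.mul_prod_erase univ _ (mem_univ k)]
  have e : ∏ i ∈ univ.erase k, (if (Function.update x k (!x k) i && true) = true then (-1 : ℝ) else 1) =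
      ∏ i ∈ univ.erase k, (if (x i && true) = true then (-1 : ℝ) else 1) := by
    apply Finset.prod_congr rfl
    intro i hi
    rw [Function.update_of_ne (Finset.ne_of_mem_erase hi)]
  rw [e, Function.update_self]
  cases x k <;> simp

/-- **The order.** -/
theorem order_bound {ι : Type} [Fintype ι] (hn : n = 14 * m + 10) (S : ι → Finset (Fin n))
    (Φ : ι → (Fin n → ℤ × ℤ) → ℝ) (hS : ∀ i, (S i).card < m) (hΦ : ∀ i, Indep (Φ i) (S i)ᶜ) :
    ¬ Decides (64 * m + 107) (268 * m + 296) fun P => ∑ i, Φ i P := by
  intro h
  obtain ⟨e⟩ : Nonempty (Fin n ≃ Lab m) := by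
    rw [← Fintype.card_eq, card_Lab, Fintype.card_fin, hn]
  have hspec := inst_spec e h
  have h0 : ∑ x, sg x (fun _ => true) * ∑ i, Φ i (inst e x fun _ => true) = 0 := by
    have h1 : ∀ x : Fin m → Bool, sg x (fun _ => true) * ∑ i, Φ i (inst e x fun _ => true) =
        ∑ i, sg x (fun _ => true) * Φ i (inst e x fun _ => true) := fun x => mul_sum _ _ _
    rw [Finset.sum_congr rfl fun x _ => h1 x, Finset.sum_comm]
    apply Finset.sum_eq_zero
    intro i _
    obtain ⟨k, hk⟩ : ∃ k : Fin m, e.symm (Sum.inl (k, 12)) ∉ S i := by
      by_contra hcon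
      push Not at hcon
      have hle : (univ.image fun k : Fin m => e.symm (Sum.inl (k, 12))).card ≤ (S i).card := by
        apply card_le_card
        intro j hj
        rw [mem_image] at hj
        obtain ⟨k, -, rfl⟩ := hj
        exact hcon k
      rw [card_image_of_injective, card_univ, Fintype.card_fin] at hle
      · exact absurd hle (not_le.2 (hS i))
      · intro k k' hkk
        have := e.symm.injective hkk
        simpa using this
    refine Finset.sum_involution (fun x _ => Function.update x k (!x k)) ?_ ?_ ?_ ?_
    · intro x _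
      have e1 : Φ i (inst e (Function.update x k (!x k)) fun _ => true) =
          Φ i (inst e x fun _ => true) := by
        apply hΦ i
        intro j hj
        rw [mem_compl, not_not] at hj
        refine inst_congr e _ _ _ _ j ?_ (fun _ _ => rfl)
        intro k' hk'
        have hne : k' ≠ k := by
          rintro rfl
          apply hk
          rw [← hk', Equiv.symm_apply_apply]
          exact hj
        rw [Function.update_of_ne hne]
      rw [e1, sg_flip]
      ring
    · intro x _ _ hne
      have := congrFun hne k
      rw [Function.update_self] at this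
      cases hx : x k <;> rw [hx] at this <;> simp at this
    · intro x _
      exact mem_univ _
    · intro x _
      funext j
      by_cases hj : j = k
      · subst hj
        simp
      · simp [Function.update_of_ne hj]
  have hpos : 0 < ∑ x, sg x (fun _ => true) * ∑ i, Φ i (inst e x fun _ => true) := by
    apply Finset.sum_pos'
    · intro x _
      rcases sg_cases x (fun _ => true) with hs | hs
      · have := (hspec x (fun _ => true)).2 hs
        rw [hs, one_mul]
        exact this.le
      · have h1 : ¬ 0 < ∑ i, Φ i (inst e x fun _ => true) := by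
          have := hspec x (fun _ => true)
          rw [this, hs]
          norm_num
        rw [hs]
        linarith
    · refine ⟨fun _ => false, mem_univ _, ?_⟩
      have hs : sg (fun _ : Fin m => false) (fun _ => true) = 1 := by
        unfold sg
        simp
      have := (hspec (fun _ => false) (fun _ => true)).2 hs
      rw [hs, one_mul]
      exact this
  rw [h0] at hpos
  exact lt_irrefl _ hpos

/-! ### Several passes -/

section stream

variable {w : ℕ} {A A' : Finset (Fin n)}

open Matrix in
theorem blocks_rank (L : List ((Fin n → ℤ × ℤ) → Matrix (Fin w) (Fin w) ℝ))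
    (hL : ∀ N ∈ L, Indep N A' ∨ Indep N A) :
    ∀ (ι : Type) [Fintype ι] (f g : ι → (Fin n → ℤ × ℤ) → Fin w → ℝ),
      (∀ s, Indep (f s) A') → (∀ s, Indep (g s) A) →
    ∃ (κ : Type) (_ : Fintype κ) (f' g' : κ → (Fin n → ℤ × ℤ) → Fin w → ℝ),
      Fintype.card κ = Fintype.card ι * w ^ L.length ∧ (∀ s, Indep (f' s) A') ∧
      (∀ s, Indep (g' s) A) ∧
      ∀ P, (fun j => ∑ s, f s P j * g s P j) ᵥ* (L.map fun N => N P).prod =
        fun j => ∑ s, f' s P j * g' s P j := by
  induction L with
  | nil =>
    intro ι _ f g hf hg
    refine ⟨ι, inferInstance, f, g, by simp, hf, hg, ?_⟩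
    intro P
    simp
  | cons N L ih =>
    intro ι _ f g hf hg
    have hN := hL N List.mem_cons_self
    have hL' : ∀ q ∈ L, Indep q A' ∨ Indep q A := fun q hq => hL q (List.mem_cons_of_mem _ hq)
    rcases hN with hN | hN
    · obtain ⟨κ, hκ, f', g', hc, hf', hg', he⟩ := ih hL' (ι × Fin w)
        (fun s P j => f s.1 P s.2 * N P s.2 j) (fun s P _ => g s.1 P s.2)
        (fun s P Q hPQ => by
          show (fun j => f s.1 P s.2 * N P s.2 j) = fun j => f s.1 Q s.2 * N Q s.2 j
          rw [hf s.1 P Q hPQ, hN P Q hPQ])
        (fun s P Q hPQ => by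
          show (fun _ => g s.1 P s.2) = fun _ => g s.1 Q s.2
          rw [hg s.1 P Q hPQ])
      refine ⟨κ, hκ, f', g', ?_, hf', hg', ?_⟩
      · rw [hc, Fintype.card_prod, Fintype.card_fin, List.length_cons]
        ring
      · intro P
        rw [← he P, List.map_cons, List.prod_cons, ← Matrix.vecMul_vecMul]
        congr 1
        funext j
        simp only [Matrix.vecMul, dotProduct]
        rw [Fintype.sum_prod_type, Finset.sum_congr rfl fun i _ => Finset.sum_mul _ _ _,
          Finset.sum_comm]
        apply Finset.sum_congr rfl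
        intro s _
        apply Finset.sum_congr rfl
        intro i _
        ring
    · obtain ⟨κ, hκ, f', g', hc, hf', hg', he⟩ := ih hL' (ι × Fin w)
        (fun s P _ => f s.1 P s.2) (fun s P j => g s.1 P s.2 * N P s.2 j)
        (fun s P Q hPQ => by
          show (fun _ => f s.1 P s.2) = fun _ => f s.1 Q s.2
          rw [hf s.1 P Q hPQ])
        (fun s P Q hPQ => by
          show (fun j => g s.1 P s.2 * N P s.2 j) = fun j => g s.1 Q s.2 * N Q s.2 j
          rw [hg s.1 P Q hPQ, hN P Q hPQ])
      refine ⟨κ, hκ, f', g', ?_, hf', hg', ?_⟩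
      · rw [hc, Fintype.card_prod, Fintype.card_fin, List.length_cons]
        ring
      · intro P
        rw [← he P, List.map_cons, List.prod_cons, ← Matrix.vecMul_vecMul]
        congr 1
        funext j
        simp only [Matrix.vecMul, dotProduct]
        rw [Fintype.sum_prod_type, Finset.sum_congr rfl fun i _ => Finset.sum_mul _ _ _,
          Finset.sum_comm]
        apply Finset.sum_congr rfl
        intro s _
        apply Finset.sum_congr rfl
        intro i _
        ring

open Matrix in
/-- a product of matrices which depend on the cities of one player -/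
theorem blocks_bound {q : ℕ} (hn : n = 14 * m + 10) (hd : Disjoint A A') (hq : q ≤ m)
    (hA : q ≤ A.card) (hA' : q ≤ A'.card)
    (L : List ((Fin n → ℤ × ℤ) → Matrix (Fin w) (Fin w) ℝ))
    (hL : ∀ N ∈ L, Indep N A' ∨ Indep N A) (u v : Fin w → ℝ)
    (h : Decides (64 * m + 107) (268 * m + 296) fun P =>
      (u ᵥ* (L.map fun N => N P).prod) ⬝ᵥ v) :
    2 ^ q ≤ (w ^ L.length + 1) ^ 2 := by
  cases L with
  | nil =>
    have key := rank_bound (ι := Unit) hn hd hq hA hA' (fun _ _ => 1) (fun _ _ => u ⬝ᵥ v)
      (fun _ _ _ _ => rfl) (fun _ _ _ _ => rfl) (by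
        intro P hP
        rw [← h P hP]
        simp)
    simpa using key
  | cons N L =>
    have hN := hL N List.mem_cons_self
    have hL' : ∀ q ∈ L, Indep q A' ∨ Indep q A := fun q hq => hL q (List.mem_cons_of_mem _ hq)
    obtain ⟨f₀, g₀, hf₀, hg₀, h₀⟩ : ∃ f₀ g₀ : (Fin n → ℤ × ℤ) → Fin w → ℝ, Indep f₀ A' ∧
        Indep g₀ A ∧ ∀ P, u ᵥ* N P = fun j => ∑ _s : Unit, f₀ P j * g₀ P j := by
      rcases hN with hN | hN
      · refine ⟨fun P => u ᵥ* N P, fun _ _ => 1, fun P Q hPQ => ?_, fun _ _ _ => rfl, fun P => ?_⟩
        · show u ᵥ* N P = u ᵥ* N Q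
          rw [hN P Q hPQ]
        · funext j
          simp
      · refine ⟨fun _ _ => 1, fun P => u ᵥ* N P, fun _ _ _ => rfl, fun P Q hPQ => ?_, fun P => ?_⟩
        · show u ᵥ* N P = u ᵥ* N Q
          rw [hN P Q hPQ]
        · funext j
          simp
    obtain ⟨κ, hκ, f', g', hc, hf', hg', he⟩ := blocks_rank L hL' Unit (fun _ => f₀)
      (fun _ => g₀) (fun _ => hf₀) (fun _ => hg₀)
    have key := rank_bound (ι := κ × Fin w) hn hd hq hA hA'
      (fun s P => f' s.1 P s.2) (fun s P => g' s.1 P s.2 * v s.2)
      (fun s P Q hPQ => by
        show f' s.1 P s.2 = f' s.1 Q s.2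
        rw [hf' s.1 P Q hPQ])
      (fun s P Q hPQ => by
        show g' s.1 P s.2 * v s.2 = g' s.1 Q s.2 * v s.2
        rw [hg' s.1 P Q hPQ]) (by
        intro P hP
        rw [← h P hP]
        have e1 : u ᵥ* ((N :: L).map fun N => N P).prod = fun j => ∑ s, f' s P j * g' s P j := by
          rw [← he P, List.map_cons, List.prod_cons, ← Matrix.vecMul_vecMul, h₀ P]
        show 0 < ∑ s : κ × Fin w, f' s.1 P s.2 * (g' s.1 P s.2 * v s.2) ↔
          0 < (u ᵥ* ((N :: L).map fun N => N P).prod) ⬝ᵥ v
        rw [e1]
        have e2 : ∑ s : κ × Fin w, f' s.1 P s.2 * (g' s.1 P s.2 * v s.2) =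
            (fun j => ∑ s, f' s P j * g' s P j) ⬝ᵥ v := by
          rw [Fintype.sum_prod_type, Finset.sum_comm]
          unfold dotProduct
          apply Finset.sum_congr rfl
          intro j _
          rw [Finset.sum_mul]
          apply Finset.sum_congr rfl
          intro s _
          ring
        rw [e2])
    rw [Fintype.card_prod, Fintype.card_fin, hc] at key
    rw [List.length_cons, pow_succ w]
    simpa using key

end stream

open Matrix in
/-- **Several passes over the cities.** -/
theorem stream_bound (hn : n = 14 * m + 10) (p w : ℕ) (π : Equiv.Perm (Fin n))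
    (M : Fin p → Fin n → ℤ × ℤ → Matrix (Fin w) (Fin w) ℝ) (u v : Fin w → ℝ)
    (h : Decides (64 * m + 107) (268 * m + 296) fun P =>
      (u ᵥ* (List.ofFn fun k => (List.ofFn fun j => M k j (P (π j))).prod).prod) ⬝ᵥ v) :
    2 ^ m ≤ (w ^ (2 * p) + 1) ^ 2 := by
  classical
  obtain ⟨A, hA⟩ : ∃ A : Finset (Fin n), A = univ.filter fun i => (π.symm i).val < 7 * m + 5 :=
    ⟨_, rfl⟩
  have hcard : A.card = 7 * m + 5 := by
    have h1 : A = (univ.filter fun i : Fin n => i.val < 7 * m + 5).map π.toEmbedding := by
      ext i
      simp only [hA, mem_filter, mem_univ, true_and, mem_map_equiv]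
    rw [h1, card_map]
    rw [Fin.card_filter_val_lt]
    omega
  have hcard' : Aᶜ.card = 7 * m + 5 := by
    rw [card_compl, hcard, Fintype.card_fin]
    omega
  let L : List ((Fin n → ℤ × ℤ) → Matrix (Fin w) (Fin w) ℝ) :=
    (List.ofFn fun k : Fin p =>
      [(fun P => ((List.ofFn fun j => M k j (P (π j))).take (7 * m + 5)).prod),
      (fun P => ((List.ofFn fun j => M k j (P (π j))).drop (7 * m + 5)).prod)]).flatten
  have hL : ∀ q ∈ L, Indep q Aᶜ ∨ Indep q A := by
    intro q hq
    rw [List.mem_flatten] at hq
    obtain ⟨l, hl, hq⟩ := hq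
    rw [List.mem_ofFn] at hl
    obtain ⟨k, rfl⟩ := hl
    simp only [List.mem_cons, List.not_mem_nil, or_false] at hq
    rcases hq with rfl | rfl
    · left
      intro P Q hPQ
      show ((List.ofFn fun j => M k j (P (π j))).take (7 * m + 5)).prod =
        ((List.ofFn fun j => M k j (Q (π j))).take (7 * m + 5)).prod
      congr 1
      apply List.ext_getElem
      · simp
      · intro i h1 h2
        simp only [List.getElem_take, List.getElem_ofFn]
        simp only [List.length_take, List.length_ofFn] at h1
        rw [hPQ]
        simp only [hA, mem_compl, mem_filter, mem_univ, true_and, not_not, Equiv.symm_apply_apply]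
        omega
    · right
      intro P Q hPQ
      show ((List.ofFn fun j => M k j (P (π j))).drop (7 * m + 5)).prod =
        ((List.ofFn fun j => M k j (Q (π j))).drop (7 * m + 5)).prod
      congr 1
      apply List.ext_getElem
      · simp
      · intro i h1 h2
        simp only [List.getElem_drop, List.getElem_ofFn]
        rw [hPQ]
        simp only [hA, mem_filter, mem_univ, true_and, Equiv.symm_apply_apply]
        omega
  have hlen : L.length = 2 * p := by
    simp only [L, List.length_flatten, List.map_ofFn]
    have e : (List.length ∘ fun k : Fin p =>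
      [(fun P : Fin n → ℤ × ℤ => ((List.ofFn fun j => M k j (P (π j))).take (7 * m + 5)).prod),
      (fun P => ((List.ofFn fun j => M k j (P (π j))).drop (7 * m + 5)).prod)]) = fun _ => 2 := by
      funext k
      rfl
    rw [e]
    simp [mul_comm]
  have hmap : ∀ P, (L.map fun N => N P).prod =
      (List.ofFn fun k => (List.ofFn fun j => M k j (P (π j))).prod).prod := by
    intro P
    simp only [L, List.map_flatten, List.prod_flatten, List.map_ofFn]
    congr 2
    funext k
    simp only [Function.comp, List.map_cons, List.map_nil, List.prod_cons, List.prod_nil, mul_one,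
      List.prod_take_mul_prod_drop]
  rw [← hlen]
  refine blocks_bound (A := A) (A' := Aᶜ) hn disjoint_compl_right le_rfl (by omega) (by omega) L hL u v ?_
  intro P hP
  rw [← h P hP]
  show 0 < (u ᵥ* (L.map fun N => N P).prod) ⬝ᵥ v ↔ _
  rw [hmap]

/-! ### Oblivious programs -/

section oblivious

variable {β : Type}

/-- the number of the cities in `A` which occur in a list -/
def occ (A : Finset (Fin n)) (l : List (Fin n × β)) : Finset (Fin n) :=
  A.filter fun i => i ∈ l.map Prod.fst

/-- a list in which few cities occur often splits into few parts without cities of one set -/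
theorem exists_parts (q : ℕ) : ∀ (N i j : ℕ), i + j = N → ∀ (l : List (Fin n × β))
    (A A' : Finset (Fin n)), Disjoint A A' → (∀ a ∈ A, (l.map Prod.fst).count a ≤ i) →
    (∀ a ∈ A', (l.map Prod.fst).count a ≤ j) → 2 ^ N * q ≤ A.card → 2 ^ N * q ≤ A'.card →
    ∃ (A₁ A₁' : Finset (Fin n)) (parts : List (List (Fin n × β))), A₁ ⊆ A ∧ A₁' ⊆ A' ∧
      q ≤ A₁.card ∧ q ≤ A₁'.card ∧ parts.flatten = l ∧ parts.length ≤ max 1 N ∧
      ∀ t ∈ parts, (∀ a ∈ t, a.1 ∉ A₁) ∨ (∀ a ∈ t, a.1 ∉ A₁') := by
  intro N
  induction N with
  | zero =>
    intro i j hij l A A' hd hA hA' hc hc'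
    refine ⟨A, A', [l], subset_rfl, subset_rfl, by simpa using hc, by simpa using hc', by simp,
      by simp, ?_⟩
    intro t ht
    rw [List.mem_singleton] at ht
    subst ht
    left
    intro a ha haA
    have h1 := hA _ haA
    have h2 : 0 < (t.map Prod.fst).count a.1 := List.count_pos_iff.2 (List.mem_map_of_mem ha)
    omega
  | succ N ih =>
    intro i j hij l A A' hd hA hA' hc hc'
    have hpow : q ≤ 2 ^ (N + 1) * q := Nat.le_mul_of_pos_left _ (by positivity)
    have hpow2 : 2 ^ (N + 1) * q = 2 * (2 ^ N * q) := by ring
    by_cases hi0 : i = 0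
    · refine ⟨A, A', [l], subset_rfl, subset_rfl, hpow.trans hc, hpow.trans hc', by simp,
        by simp, ?_⟩
      intro t ht
      rw [List.mem_singleton] at ht
      subst ht
      left
      intro a ha haA
      have h1 := hA _ haA
      have h2 : 0 < (t.map Prod.fst).count a.1 := List.count_pos_iff.2 (List.mem_map_of_mem ha)
      omega
    by_cases hj0 : j = 0
    · refine ⟨A, A', [l], subset_rfl, subset_rfl, hpow.trans hc, hpow.trans hc', by simp,
        by simp, ?_⟩
      intro t ht
      rw [List.mem_singleton] at ht
      subst ht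
      right
      intro a ha haA
      have h1 := hA' _ haA
      have h2 : 0 < (t.map Prod.fst).count a.1 := List.count_pos_iff.2 (List.mem_map_of_mem ha)
      omega
    -- the case without many cities of one of the sets
    by_cases hex : ∃ t, t ≤ l.length ∧ (A.card ≤ 2 * (occ A (l.take t)).card ∨
        A'.card ≤ 2 * (occ A' (l.take t)).card)
    · classical
      by_cases hq0 : q = 0
      · subst hq0
        refine ⟨∅, ∅, [l], empty_subset _, empty_subset _, by simp, by simp, by simp, by simp, ?_⟩
        intro t _
        left
        simp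
      obtain ⟨t, ht, htP, htmin⟩ : ∃ t, t ≤ l.length ∧ (A.card ≤ 2 * (occ A (l.take t)).card ∨
          A'.card ≤ 2 * (occ A' (l.take t)).card) ∧ ∀ t' < t, ¬ (A.card ≤ 2 * (occ A (l.take t')).card ∨
          A'.card ≤ 2 * (occ A' (l.take t')).card) := by
        refine ⟨Nat.find hex, (Nat.find_spec hex).1, (Nat.find_spec hex).2, ?_⟩
        intro t' ht' hP
        exact Nat.find_min hex ht' ⟨(le_of_lt ht').trans (Nat.find_spec hex).1, hP⟩
      have hApos : 0 < A.card := lt_of_lt_of_le (by positivity) hc
      have hApos' : 0 < A'.card := lt_of_lt_of_le (by positivity) hc'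
      have ht0 : t ≠ 0 := by
        rintro rfl
        simp only [List.take_zero, occ, List.map_nil, List.not_mem_nil, filter_false, card_empty,
          mul_zero] at htP
        omega
      obtain ⟨t, rfl⟩ : ∃ t', t = t' + 1 := ⟨t - 1, by omega⟩
      have hmin := htmin t (by omega)
      rw [not_or, not_le, not_le] at hmin
      -- one more element
      have hone : occ A (l.take (t + 1)) = occ A (l.take t) ∨
          occ A' (l.take (t + 1)) = occ A' (l.take t) := by
        have e : l.take (t + 1) = l.take t ++ [l[t]] := by
          rw [List.take_succ_eq_append_getElem]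
        by_cases hm : (l[t]).1 ∈ A
        · right
          have hm' := Finset.disjoint_left.1 hd hm
          unfold occ
          apply Finset.filter_congr
          intro a ha
          rw [e, List.map_append, List.mem_append]
          simp only [List.map_cons, List.map_nil, List.mem_singleton, or_iff_left_iff_imp]
          rintro rfl
          exact absurd ha hm'
        · left
          unfold occ
          apply Finset.filter_congr
          intro a ha
          rw [e, List.map_append, List.mem_append]
          simp only [List.map_cons, List.map_nil, List.mem_singleton, or_iff_left_iff_imp]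
          rintro rfl
          exact absurd ha hm
      have hcount : ∀ a, (l.map Prod.fst).count a = ((l.take (t + 1)).map Prod.fst).count a +
          ((l.drop (t + 1)).map Prod.fst).count a := by
        intro a
        conv_lhs => rw [← List.take_append_drop (t + 1) l, List.map_append, List.count_append]
      have hflip : ∀ B : Finset (Fin n), (B.filter fun i => i ∉ (l.take (t + 1)).map Prod.fst).card +
          (occ B (l.take (t + 1))).card = B.card := by
        intro B
        unfold occ
        rw [add_comm, Finset.card_filter_add_card_filter_not]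
      have hcase : (A.card ≤ 2 * (occ A (l.take (t + 1))).card ∧
          2 * (occ A' (l.take (t + 1))).card < A'.card) ∨
          (A'.card ≤ 2 * (occ A' (l.take (t + 1))).card ∧
          2 * (occ A (l.take (t + 1))).card < A.card) := by
        rcases hone with h1 | h1
        · rw [h1] at htP ⊢
          right
          omega
        · rw [h1] at htP ⊢
          left
          omega
      rcases hcase with ⟨h1, h2⟩ | ⟨h1, h2⟩
      · -- many cities of `A` occur, few of `A'`
        obtain ⟨A₁, A₁', parts, p1, p2, p3, p4, p5, p6, p7⟩ := ih (i - 1) j (by omega)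
          (l.drop (t + 1)) (occ A (l.take (t + 1)))
          (A'.filter fun i => i ∉ (l.take (t + 1)).map Prod.fst)
          (Finset.disjoint_of_subset_left (filter_subset _ _)
            (Finset.disjoint_of_subset_right (filter_subset _ _) hd))
          (by
            intro a ha
            rw [occ, mem_filter] at ha
            have h4 := hA a ha.1
            have h5 := hcount a
            have h6 := List.count_pos_iff.2 ha.2
            omega)
          (by
            intro a ha
            rw [mem_filter] at ha
            have h4 := hA' a ha.1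
            have h5 := hcount a
            omega)
          (by omega)
          (by
            have := hflip A'
            omega)
        refine ⟨A₁, A₁', (l.take (t + 1)) :: parts, p1.trans (filter_subset _ _),
          p2.trans (filter_subset _ _), p3, p4, ?_, ?_, ?_⟩
        · rw [List.flatten_cons, p5, List.take_append_drop]
        · rw [List.length_cons]
          omega
        · intro s hs
          rw [List.mem_cons] at hs
          rcases hs with rfl | hs
          · right
            intro a ha haA
            have := p2 haA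
            rw [mem_filter] at this
            exact this.2 (List.mem_map_of_mem ha)
          · exact p7 s hs
      · obtain ⟨A₁, A₁', parts, p1, p2, p3, p4, p5, p6, p7⟩ := ih i (j - 1) (by omega)
          (l.drop (t + 1)) (A.filter fun i => i ∉ (l.take (t + 1)).map Prod.fst)
          (occ A' (l.take (t + 1)))
          (Finset.disjoint_of_subset_left (filter_subset _ _)
            (Finset.disjoint_of_subset_right (filter_subset _ _) hd))
          (by
            intro a ha
            rw [mem_filter] at ha
            have h4 := hA a ha.1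
            have h5 := hcount a
            omega)
          (by
            intro a ha
            rw [occ, mem_filter] at ha
            have h4 := hA' a ha.1
            have h5 := hcount a
            have h6 := List.count_pos_iff.2 ha.2
            omega)
          (by
            have := hflip A
            omega)
          (by omega)
        refine ⟨A₁, A₁', (l.take (t + 1)) :: parts, p1.trans (filter_subset _ _),
          p2.trans (filter_subset _ _), p3, p4, ?_, ?_, ?_⟩
        · rw [List.flatten_cons, p5, List.take_append_drop]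
        · rw [List.length_cons]
          omega
        · intro s hs
          rw [List.mem_cons] at hs
          rcases hs with rfl | hs
          · left
            intro a ha haA
            have := p1 haA
            rw [mem_filter] at this
            exact this.2 (List.mem_map_of_mem ha)
          · exact p7 s hs
    · push Not at hex
      have h1 := (hex l.length le_rfl).1
      rw [List.take_length] at h1
      have h2 : (A.filter fun i => i ∉ l.map Prod.fst).card + (occ A l).card = A.card := by
        unfold occ
        rw [add_comm, Finset.card_filter_add_card_filter_not]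
      refine ⟨A.filter fun i => i ∉ l.map Prod.fst, A', [l], filter_subset _ _, subset_rfl, ?_,
        hpow.trans hc', by simp, by simp, ?_⟩
      · have : q ≤ 2 ^ N * q := Nat.le_mul_of_pos_left _ (by positivity)
        omega
      · intro t ht
        rw [List.mem_singleton] at ht
        subst ht
        left
        intro a ha haA
        rw [mem_filter] at haA
        exact haA.2 (List.mem_map_of_mem ha)

open Matrix in
/-- **Oblivious programs.** -/
theorem oblivious_bound (hn : n = 14 * m + 10) (k q w : ℕ) (hq : 4 ^ k * q ≤ m)
    (l : List (Fin n × (ℤ × ℤ → Matrix (Fin w) (Fin w) ℝ)))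
    (hl : ∀ i, (l.map Prod.fst).count i ≤ k + 1) (u v : Fin w → ℝ)
    (h : Decides (64 * m + 107) (268 * m + 296) fun P =>
      (u ᵥ* (l.map fun a => a.2 (P a.1)).prod) ⬝ᵥ v) :
    2 ^ q ≤ (w ^ (2 * (k + 1)) + 1) ^ 2 := by
  classical
  have hw : 1 ≤ w := by
    obtain ⟨P, hP⟩ := not_decides_zero hn h
    by_contra hw
    have hw0 : w = 0 := by omega
    subst hw0
    simp [dotProduct] at hP
  have h4 : 4 ^ (k + 1) * q ≤ 4 * m := by
    rw [pow_succ]
    linarith
  have hqm : q ≤ m := le_trans (Nat.le_mul_of_pos_left _ (by positivity)) hq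
  obtain ⟨A, -, hA⟩ := Finset.exists_subset_card_eq (s := (univ : Finset (Fin n))) (n := 4 * m)
    (by rw [card_univ, Fintype.card_fin]; omega)
  have hA' : 4 * m ≤ Aᶜ.card := by
    rw [card_compl, hA, Fintype.card_fin]
    omega
  have h2 : 2 ^ (2 * (k + 1)) * q ≤ 4 * m := by
    rw [pow_mul]
    exact h4
  obtain ⟨A₁, A₁', parts, p1, p2, p3, p4, p5, p6, p7⟩ := exists_parts q (2 * (k + 1)) (k + 1) (k + 1)
    (by ring) l A Aᶜ disjoint_compl_right (fun a _ => hl a) (fun a _ => hl a)
    (by rw [hA]; exact h2) (h2.trans hA')
  have hd : Disjoint A₁ A₁' := Finset.disjoint_of_subset_left p1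
    (Finset.disjoint_of_subset_right p2 disjoint_compl_right)
  let L : List ((Fin n → ℤ × ℤ) → Matrix (Fin w) (Fin w) ℝ) :=
    parts.map fun t => fun P => (t.map fun a => a.2 (P a.1)).prod
  have hL : ∀ N ∈ L, Indep N A₁' ∨ Indep N A₁ := by
    intro N hN
    simp only [L, List.mem_map] at hN
    obtain ⟨t, ht, rfl⟩ := hN
    rcases p7 t ht with h1 | h1
    · right
      intro P Q hPQ
      show (t.map fun a => a.2 (P a.1)).prod = (t.map fun a => a.2 (Q a.1)).prod
      congr 1
      apply List.map_congr_left
      intro a ha
      rw [hPQ a.1 (h1 a ha)]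
    · left
      intro P Q hPQ
      show (t.map fun a => a.2 (P a.1)).prod = (t.map fun a => a.2 (Q a.1)).prod
      congr 1
      apply List.map_congr_left
      intro a ha
      rw [hPQ a.1 (h1 a ha)]
  have hprod : ∀ P, (L.map fun N => N P).prod = (l.map fun a => a.2 (P a.1)).prod := by
    intro P
    rw [← p5, List.map_flatten, List.prod_flatten, List.map_map]
    simp only [L, List.map_map]
    rfl
  have key := blocks_bound hn hd hqm p3 p4 L hL u v (by
    intro P hP
    rw [← h P hP]
    show 0 < (u ᵥ* (L.map fun N => N P).prod) ⬝ᵥ v ↔ _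
    rw [hprod])
  refine key.trans ?_
  have hlen : L.length ≤ 2 * (k + 1) := by
    simp only [L, List.length_map]
    omega
  have := Nat.pow_le_pow_right hw hlen
  gcongr

end oblivious

/-! ### Two layers -/

/-- **Two layers.** -/
theorem layer_bound (hn : n = 14 * m + 10) (s W : ℕ) (α : Fin s → Fin n → ℤ × ℤ → ℤ)
    (φ : Fin s → ℤ → ℝ) (hα : ∀ i j c, |α i j c| ≤ W)
    (h : Decides (64 * m + 107) (268 * m + 296) fun P => ∑ i, φ i (∑ j, α i j (P j))) :
    2 ^ m ≤ (s * (2 * (m * W) + 1) + 1) ^ 2 := by
  classical
  obtain ⟨A, -, hA⟩ := Finset.exists_subset_card_eq (s := (univ : Finset (Fin n))) (n := m)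
    (by rw [card_univ, Fintype.card_fin]; omega)
  have hA' : m ≤ Aᶜ.card := by
    rw [card_compl, hA, Fintype.card_fin]
    omega
  have key := rank_bound (ι := Fin s × Fin (2 * (m * W) + 1)) hn (A := A) (A' := Aᶜ)
    disjoint_compl_right le_rfl hA.ge hA'
    (fun q P => if ∑ j ∈ A, α q.1 j (P j) = (q.2.val : ℤ) - m * W then (1 : ℝ) else 0)
    (fun q P => φ q.1 ((q.2.val : ℤ) - m * W + ∑ j ∈ Aᶜ, α q.1 j (P j))) ?_ ?_ ?_
  · rw [Fintype.card_prod, Fintype.card_fin, Fintype.card_fin] at key
    exact key
  · intro q P Q hPQ
    have e : ∑ j ∈ A, α q.1 j (P j) = ∑ j ∈ A, α q.1 j (Q j) := by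
      apply Finset.sum_congr rfl
      intro j hj
      rw [hPQ j (by simpa using hj)]
    simp only [e]
  · intro q P Q hPQ
    have e : ∑ j ∈ Aᶜ, α q.1 j (P j) = ∑ j ∈ Aᶜ, α q.1 j (Q j) := by
      apply Finset.sum_congr rfl
      intro j hj
      rw [hPQ j (by simpa using hj)]
    simp only [e]
  · intro P hP
    rw [← h P hP]
    have e : ∀ i, φ i (∑ j, α i j (P j)) = ∑ z : Fin (2 * (m * W) + 1),
        (if ∑ j ∈ A, α i j (P j) = (z.val : ℤ) - m * W then (1 : ℝ) else 0) *
          φ i ((z.val : ℤ) - m * W + ∑ j ∈ Aᶜ, α i j (P j)) := by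
      intro i
      have hb : |∑ j ∈ A, α i j (P j)| ≤ m * W := by
        refine (Finset.abs_sum_le_sum_abs _ _).trans ?_
        refine (Finset.sum_le_sum fun j _ => hα i j (P j)).trans ?_
        rw [sum_const, hA, nsmul_eq_mul]
      rw [abs_le] at hb
      obtain ⟨z₀, hz₀⟩ : ∃ z₀ : Fin (2 * (m * W) + 1),
          (z₀.val : ℤ) = ∑ j ∈ A, α i j (P j) + m * W := by
        refine ⟨⟨(∑ j ∈ A, α i j (P j) + m * W).toNat, ?_⟩, ?_⟩
        · zify
          rw [Int.toNat_of_nonneg (by linarith)]
          push_cast
          linarith
        · exact Int.toNat_of_nonneg (by linarith)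
      rw [Finset.sum_eq_single z₀]
      · rw [if_pos (by rw [hz₀]; ring), one_mul, hz₀]
        congr 1
        rw [← Finset.sum_add_sum_compl A]
        ring
      · intro z _ hz
        rw [if_neg, zero_mul]
        intro he
        apply hz
        apply Fin.ext
        have : (z.val : ℤ) = z₀.val := by rw [hz₀, he]; ring
        exact_mod_cast this
      · intro hz
        exact absurd (mem_univ _) hz
    have e2 : ∑ i, φ i (∑ j, α i j (P j)) = ∑ q : Fin s × Fin (2 * (m * W) + 1),
        (if ∑ j ∈ A, α q.1 j (P j) = (q.2.val : ℤ) - m * W then (1 : ℝ) else 0) *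
          φ q.1 ((q.2.val : ℤ) - m * W + ∑ j ∈ Aᶜ, α q.1 j (P j)) := by
      rw [Fintype.sum_prod_type]
      exact Finset.sum_congr rfl fun i _ => e i
    simp only [e2]

end Pool.Agent.R532.Par
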