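import Pool.Agent.R532.ParDir

/-!
# Touching discs: the options of a block
-/

set_option autoImplicit false

namespace Pool.Agent.R532.Par

variable {m : ℕ} {x y : ℕ → Bool} {s : Equiv.Perm (ℕ × ℕ)}

/-- the successors, if all bits are `0` and `12` comes before `13` -/
def F (m : ℕ) (b t : ℕ) : ℕ × ℕ :=
  match t with
  | 0 => (b, 1)
  | 1 => (b, 2)
  | 2 => (b, 3)
  | 3 => (b + 1, if b = m then 16 else 0)
  | 4 => (b - 1, 6)
  | 5 => (b, 12)
  | 6 => if b = 0 then (0, 14) else (b, 5)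
  | 7 => if b = m + 1 then (b, 4) else (b, 8)
  | 8 => (b, 9)
  | 9 => (b, 10)
  | 10 => (b + 1, 7)
  | 11 => if b = 0 then (0, 15) else (b - 1, 11)
  | 12 => (b, 13)
  | 13 => (b, 4)
  | 14 => (1, if m = 0 then 16 else 0)
  | 15 => (1, 7)
  | 16 => (b, 17)
  | 17 => (b, 18)
  | 18 => (b, 19)
  | _ => (b - 1, 11)

/-- the change of the successors in a block -/
def g (o : Fin 6) : Equiv.Perm (Fin 14) :=
  match o with
  | 0 => 1
  | 1 => List.formPerm [5, 12, 13]
  | 2 => List.formPerm [1, 5, 12]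
  | 3 => List.formPerm [8, 12, 13]
  | 4 => List.formPerm [1, 5, 0, 13, 8, 12]
  | 5 => List.formPerm [1, 5, 7, 13, 8, 12]

/-- is the change of the successors odd? -/
def od (o : Fin 6) : Bool := decide (4 ≤ o.val)

theorem sign_g (o : Fin 6) : Equiv.Perm.sign (g o) = if od o then -1 else 1 := by
  fin_cases o
  · rfl
  all_goals
    simp only [g, List.formPerm_cons_cons, List.formPerm_singleton, mul_one, map_mul,
      Equiv.Perm.sign_swap', od]
    decide

/-- the table of `g` -/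
def gt (o : Fin 6) : List ℕ :=
  match o with
  | 0 => [0, 1, 2, 3, 4, 5, 6, 7, 8, 9, 10, 11, 12, 13]
  | 1 => [0, 1, 2, 3, 4, 12, 6, 7, 8, 9, 10, 11, 13, 5]
  | 2 => [0, 5, 2, 3, 4, 12, 6, 7, 8, 9, 10, 11, 1, 13]
  | 3 => [0, 1, 2, 3, 4, 5, 6, 7, 12, 9, 10, 11, 13, 8]
  | 4 => [13, 5, 2, 3, 4, 0, 6, 7, 12, 9, 10, 11, 1, 8]
  | 5 => [0, 5, 2, 3, 4, 7, 6, 13, 12, 9, 10, 11, 1, 8]

theorem g_table (o : Fin 6) (t : Fin 14) : ((g o t : Fin 14) : ℕ) = (gt o).getD t 0 := by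
  revert o t
  decide

theorem forall14 {P : ℕ → Prop} (h0 : P 0) (h1 : P 1) (h2 : P 2) (h3 : P 3) (h4 : P 4) (h5 : P 5)
    (h6 : P 6) (h7 : P 7) (h8 : P 8) (h9 : P 9) (h10 : P 10) (h11 : P 11) (h12 : P 12)
    (h13 : P 13) (t : ℕ) (ht : t < 14) : P t := by
  interval_cases t <;> assumption

section

attribute [local simp] dir_from o0_iff o1_iff o2_iff B0

theorem Good.options (h : Good m x y s) (hd : ∀ c, V m c → Dir x y c (s c)) {b : ℕ}
    (h1 : 1 ≤ b) (h2 : b ≤ m) : ∃ o : Fin 6, od o = (x b && y b) ∧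
      ∀ t < 14, s (b, t) = F m b ((gt o).getD t 0) := by
  have hv : ∀ t < 14, V m (b, t) := fun t ht => (V_iff _ _ _).2 (by omega)
  have hs : ∀ t < 14, ∃ e₁ e₂, s (b, t) = (e₁, e₂) ∧ V m (e₁, e₂) ∧
      Dir x y (b, t) (e₁, e₂) := by
    intro t ht
    exact ⟨(s (b, t)).1, (s (b, t)).2, rfl, h.hV _ (hv t ht), hd _ (hv t ht)⟩
  have hinj : ∀ t < 14, ∀ t' < 14, t ≠ t' → s (b, t) ≠ s (b, t') := by
    intro t _ t' _ hne he
    exact hne (congrArg Prod.snd (s.injective he))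
  have s0 : s (b, 0) = (b, 1) ∨ s (b, 0) = (b, 4) := by
    obtain ⟨e₁, e₂, h3, h4, h5⟩ := hs 0 (by omega)
    rw [h3]
    rw [V_iff] at h4
    simp at h5
    simp only [Prod.mk.injEq]
    omega
  have s7 : s (b, 7) = (b, 8) ∨ s (b, 7) = (b, 4) := by
    obtain ⟨e₁, e₂, h3, h4, h5⟩ := hs 7 (by omega)
    rw [h3]
    rw [V_iff] at h4
    simp at h5
    simp only [Prod.mk.injEq]
    omega
  have s2 : s (b, 2) = (b, 3) := by
    obtain ⟨e₁, e₂, h3, h4, h5⟩ := hs 2 (by omega)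
    rw [h3]
    rw [V_iff] at h4
    simp at h5
    simp only [Prod.mk.injEq]
    omega
  have s3 : s (b, 3) = (b + 1, if b = m then 16 else 0) := by
    obtain ⟨e₁, e₂, h3, h4, h5⟩ := hs 3 (by omega)
    rw [h3]
    rw [V_iff] at h4
    simp at h5
    simp only [Prod.mk.injEq]
    split_ifs <;> omega
  have s4 : s (b, 4) = (b - 1, 6) := by
    obtain ⟨e₁, e₂, h3, h4, h5⟩ := hs 4 (by omega)
    rw [h3]
    rw [V_iff] at h4
    simp at h5
    simp only [Prod.mk.injEq]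
    omega
  have s6 : s (b, 6) = (b, 5) := by
    obtain ⟨e₁, e₂, h3, h4, h5⟩ := hs 6 (by omega)
    rw [h3]
    rw [V_iff] at h4
    simp at h5
    simp only [Prod.mk.injEq]
    omega
  have s9 : s (b, 9) = (b, 10) := by
    obtain ⟨e₁, e₂, h3, h4, h5⟩ := hs 9 (by omega)
    rw [h3]
    rw [V_iff] at h4
    simp at h5
    simp only [Prod.mk.injEq]
    omega
  have s10 : s (b, 10) = (b + 1, 7) := by
    obtain ⟨e₁, e₂, h3, h4, h5⟩ := hs 10 (by omega)
    rw [h3]
    rw [V_iff] at h4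
    simp at h5
    simp only [Prod.mk.injEq]
    omega
  have s11 : s (b, 11) = (b - 1, 11) := by
    obtain ⟨e₁, e₂, h3, h4, h5⟩ := hs 11 (by omega)
    rw [h3]
    rw [V_iff] at h4
    simp at h5
    simp only [Prod.mk.injEq]
    omega
  have hb0 : b ≠ 0 := by omega
  have hbm : b ≠ m + 1 := by omega
  obtain ⟨a₁, a₂, ha3, ha4, ha5⟩ := hs 1 (by omega)
  obtain ⟨c₁, c₂, hc3, hc4, hc5⟩ := hs 5 (by omega)
  obtain ⟨d₁, d₂, hd3, hd4, hd5⟩ := hs 8 (by omega)
  obtain ⟨e₁, e₂, he3, he4, he5⟩ := hs 12 (by omega)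
  obtain ⟨f₁, f₂, hf3, hf4, hf5⟩ := hs 13 (by omega)
  have hne2 := h.hne2 _ (hv 12 (by omega))
  rw [V_iff] at ha4 hc4 hd4 he4 hf4
  cases hx : x b <;> cases hy : y b
  · -- both bits are zero
    simp [hx, hy] at ha5 hc5 hd5 he5 hf5
    obtain ⟨rfl, rfl⟩ : a₁ = b ∧ a₂ = 2 := by omega
    obtain ⟨rfl, rfl⟩ : d₁ = a₁ ∧ d₂ = 9 := by omega
    obtain ⟨rfl, he6⟩ : e₁ = d₁ ∧ (e₂ = 4 ∨ e₂ = 13) := by omega
    obtain ⟨rfl, hf6⟩ : f₁ = e₁ ∧ (f₂ = 4 ∨ f₂ = 12) := by omega
    obtain ⟨rfl, hc6⟩ : c₁ = f₁ ∧ (c₂ = 1 ∨ c₂ = 8 ∨ c₂ = 12 ∨ c₂ = 13) := by omega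
    have s0' : s (c₁, 0) = (c₁, 1) := by
      rcases s0 with s0 | s0
      · exact s0
      · exfalso
        rcases he6 with rfl | rfl
        · exact hinj 0 (by omega) 12 (by omega) (by omega) (s0.trans he3.symm)
        · rcases hf6 with rfl | rfl
          · exact hinj 0 (by omega) 13 (by omega) (by omega) (s0.trans hf3.symm)
          · apply hne2
            rw [he3, Equiv.eq_symm_apply, hf3]
    have s7' : s (c₁, 7) = (c₁, 8) := by
      rcases s7 with s7 | s7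
      · exact s7
      · exfalso
        rcases he6 with rfl | rfl
        · exact hinj 7 (by omega) 12 (by omega) (by omega) (s7.trans he3.symm)
        · rcases hf6 with rfl | rfl
          · exact hinj 7 (by omega) 13 (by omega) (by omega) (s7.trans hf3.symm)
          · apply hne2
            rw [he3, Equiv.eq_symm_apply, hf3]
    have hc7 : c₂ = 12 ∨ c₂ = 13 := by
      rcases hc6 with rfl | rfl | hc6
      · exact absurd (s0'.trans hc3.symm) (hinj 0 (by omega) 5 (by omega) (by omega))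
      · exact absurd (s7'.trans hc3.symm) (hinj 7 (by omega) 5 (by omega) (by omega))
      · exact hc6
    rcases he6 with rfl | rfl
    · -- `12` before `4`
      have hf7 : f₂ = 12 := by
        rcases hf6 with rfl | rfl
        · exact absurd (he3.trans hf3.symm) (hinj 12 (by omega) 13 (by omega) (by omega))
        · rfl
      subst hf7
      have hc8 : c₂ = 13 := by
        rcases hc7 with rfl | rfl
        · exact absurd (hc3.trans hf3.symm) (hinj 5 (by omega) 13 (by omega) (by omega))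
        · rfl
      subst hc8
      refine ⟨1, by simp [od], ?_⟩
      apply forall14 (P := fun t => s (c₁, t) = F m c₁ ((gt 1).getD t 0)) <;>
        simp [gt, F, ha3, hd3, he3, hf3, hc3, s0', s7', s2, s3, s4, s6, s9, s10, s11, hb0, hbm]
    · have hf7 : f₂ = 4 := by
        rcases hf6 with rfl | rfl
        · rfl
        · exfalso
          apply hne2
          rw [he3, Equiv.eq_symm_apply, hf3]
      subst hf7
      have hc8 : c₂ = 12 := by
        rcases hc7 with rfl | rfl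
        · rfl
        · exact absurd (hc3.trans he3.symm) (hinj 5 (by omega) 12 (by omega) (by omega))
      subst hc8
      refine ⟨0, by simp [od], ?_⟩
      apply forall14 (P := fun t => s (c₁, t) = F m c₁ ((gt 0).getD t 0)) <;>
        simp [gt, F, ha3, hd3, he3, hf3, hc3, s0', s7', s2, s3, s4, s6, s9, s10, s11, hb0, hbm]
  · simp [hx, hy] at ha5 hc5 hd5 he5 hf5
    obtain ⟨rfl, rfl⟩ : a₁ = b ∧ a₂ = 2 := by omega
    obtain ⟨rfl, rfl⟩ : d₁ = a₁ ∧ d₂ = 13 := by omega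
    obtain ⟨rfl, rfl⟩ : e₁ = d₁ ∧ e₂ = 4 := by omega
    obtain ⟨rfl, rfl⟩ : f₁ = e₁ ∧ f₂ = 9 := by omega
    obtain ⟨rfl, hc6⟩ : c₁ = f₁ ∧ (c₂ = 1 ∨ c₂ = 8 ∨ c₂ = 12) := by omega
    have s0' : s (c₁, 0) = (c₁, 1) := by
      rcases s0 with s0 | s0
      · exact s0
      · exact absurd (s0.trans he3.symm) (hinj 0 (by omega) 12 (by omega) (by omega))
    have s7' : s (c₁, 7) = (c₁, 8) := by
      rcases s7 with s7 | s7
      · exact s7
      · exact absurd (s7.trans he3.symm) (hinj 7 (by omega) 12 (by omega) (by omega))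
    have hc7 : c₂ = 12 := by
      rcases hc6 with rfl | rfl | hc6
      · exact absurd (s0'.trans hc3.symm) (hinj 0 (by omega) 5 (by omega) (by omega))
      · exact absurd (s7'.trans hc3.symm) (hinj 7 (by omega) 5 (by omega) (by omega))
      · exact hc6
    subst hc7
    refine ⟨3, by simp [od], ?_⟩
    apply forall14 (P := fun t => s (c₁, t) = F m c₁ ((gt 3).getD t 0)) <;>
      simp [gt, F, ha3, hd3, he3, hf3, hc3, s0', s7', s2, s3, s4, s6, s9, s10, s11, hb0, hbm]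
  · simp [hx, hy] at ha5 hc5 hd5 he5 hf5
    obtain ⟨rfl, rfl⟩ : a₁ = b ∧ a₂ = 12 := by omega
    obtain ⟨rfl, rfl⟩ : d₁ = a₁ ∧ d₂ = 9 := by omega
    obtain ⟨rfl, rfl⟩ : e₁ = d₁ ∧ e₂ = 2 := by omega
    obtain ⟨rfl, rfl⟩ : f₁ = e₁ ∧ f₂ = 4 := by omega
    obtain ⟨rfl, hc6⟩ : c₁ = f₁ ∧ (c₂ = 1 ∨ c₂ = 8 ∨ c₂ = 13) := by omega
    have s0' : s (c₁, 0) = (c₁, 1) := by
      rcases s0 with s0 | s0
      · exact s0
      · exact absurd (s0.trans hf3.symm) (hinj 0 (by omega) 13 (by omega) (by omega))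
    have s7' : s (c₁, 7) = (c₁, 8) := by
      rcases s7 with s7 | s7
      · exact s7
      · exact absurd (s7.trans hf3.symm) (hinj 7 (by omega) 13 (by omega) (by omega))
    have hc7 : c₂ = 13 := by
      rcases hc6 with rfl | rfl | hc6
      · exact absurd (s0'.trans hc3.symm) (hinj 0 (by omega) 5 (by omega) (by omega))
      · exact absurd (s7'.trans hc3.symm) (hinj 7 (by omega) 5 (by omega) (by omega))
      · exact hc6
    subst hc7
    refine ⟨2, by simp [od], ?_⟩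
    apply forall14 (P := fun t => s (c₁, t) = F m c₁ ((gt 2).getD t 0)) <;>
      simp [gt, F, ha3, hd3, he3, hf3, hc3, s0', s7', s2, s3, s4, s6, s9, s10, s11, hb0, hbm]
  · simp [hx, hy] at ha5 hc5 hd5 he5 hf5
    obtain ⟨rfl, rfl⟩ : a₁ = b ∧ a₂ = 12 := by omega
    obtain ⟨rfl, rfl⟩ : d₁ = a₁ ∧ d₂ = 13 := by omega
    obtain ⟨rfl, rfl⟩ : e₁ = d₁ ∧ e₂ = 2 := by omega
    obtain ⟨rfl, rfl⟩ : f₁ = e₁ ∧ f₂ = 9 := by omega
    obtain ⟨rfl, hc6⟩ : c₁ = f₁ ∧ (c₂ = 1 ∨ c₂ = 8) := by omega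
    rcases hc6 with rfl | rfl
    · have s0' : s (c₁, 0) = (c₁, 4) := by
        rcases s0 with s0 | s0
        · exact absurd (s0.trans hc3.symm) (hinj 0 (by omega) 5 (by omega) (by omega))
        · exact s0
      have s7' : s (c₁, 7) = (c₁, 8) := by
        rcases s7 with s7 | s7
        · exact s7
        · exact absurd (s7.trans s0'.symm) (hinj 7 (by omega) 0 (by omega) (by omega))
      refine ⟨4, by simp [od], ?_⟩
      apply forall14 (P := fun t => s (c₁, t) = F m c₁ ((gt 4).getD t 0)) <;>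
        simp [gt, F, ha3, hd3, he3, hf3, hc3, s0', s7', s2, s3, s4, s6, s9, s10, s11, hb0, hbm]
    · have s7' : s (c₁, 7) = (c₁, 4) := by
        rcases s7 with s7 | s7
        · exact absurd (s7.trans hc3.symm) (hinj 7 (by omega) 5 (by omega) (by omega))
        · exact s7
      have s0' : s (c₁, 0) = (c₁, 1) := by
        rcases s0 with s0 | s0
        · exact s0
        · exact absurd (s0.trans s7'.symm) (hinj 0 (by omega) 7 (by omega) (by omega))
      refine ⟨5, by simp [od], ?_⟩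
      apply forall14 (P := fun t => s (c₁, t) = F m c₁ ((gt 5).getD t 0)) <;>
        simp [gt, F, ha3, hd3, he3, hf3, hc3, s0', s7', s2, s3, s4, s6, s9, s10, s11, hb0, hbm]

/-- the successors of the discs of the ends -/
theorem Good.caps (h : Good m x y s) (hd : ∀ c, V m c → Dir x y c (s c)) {b t : ℕ}
    (hv : V m (b, t)) (hb : b = 0 ∨ b = m + 1) : s (b, t) = F m b t := by
  obtain ⟨e₁, e₂, h3, h4, h5⟩ : ∃ e₁ e₂, s (b, t) = (e₁, e₂) ∧ V m (e₁, e₂) ∧
      Dir x y (b, t) (e₁, e₂) := ⟨_, _, rfl, h.hV _ hv, hd _ hv⟩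
  rw [h3]
  have ht := hv.lt
  rw [V_iff] at hv h4
  interval_cases t
  all_goals first
    | omega
    | (simp at h5
       simp only [F]
       try split_ifs
       all_goals simp only [Prod.mk.injEq]
       all_goals omega)

end

end Pool.Agent.R532.Par
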