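import Pool.Agent.R532.ParOpt

/-!
# Touching discs: the sign of a tour
-/

set_option autoImplicit false

namespace Pool.Agent.R532.Par

open Pool.Agent.H553R2.TSP

variable {m : ℕ} {x y : ℕ → Bool}

/-- the labels of the cities -/
abbrev Lab (m : ℕ) : Type := (Fin m × Fin 14) ⊕ Fin 10

/-- the codes of the discs of the ends -/
def capv (m : ℕ) (j : Fin 10) : ℕ × ℕ :=
  match j with
  | 0 => (0, 6)
  | 1 => (0, 11)
  | 2 => (0, 14)
  | 3 => (0, 15)
  | 4 => (m + 1, 4)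
  | 5 => (m + 1, 7)
  | 6 => (m + 1, 16)
  | 7 => (m + 1, 17)
  | 8 => (m + 1, 18)
  | 9 => (m + 1, 19)

/-- the code of a label -/
def val : Lab m → ℕ × ℕ
  | Sum.inl p => (p.1.val + 1, p.2.val)
  | Sum.inr j => capv m j

theorem capv_cases (m : ℕ) (j : Fin 10) : (capv m j).1 = 0 ∨ (capv m j).1 = m + 1 := by
  fin_cases j <;> simp [capv]

theorem V_capv (m : ℕ) (j : Fin 10) : V m (capv m j) := by
  fin_cases j <;> exact (V_iff _ _ _).2 (by omega)

theorem V_val (u : Lab m) : V m (val u) := by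
  rcases u with ⟨i, t⟩ | j
  · exact (V_iff _ _ _).2 (by have := i.2; have := t.2; omega)
  · exact V_capv m j

theorem capv_inj (m : ℕ) : Function.Injective (capv m) := by
  intro j j' h
  fin_cases j <;> fin_cases j' <;> simp [capv] at h ⊢

theorem val_inj : Function.Injective (val (m := m)) := by
  rintro (⟨i, t⟩ | j) (⟨i', t'⟩ | j') h
  · simp only [val, Prod.mk.injEq, add_left_inj] at h
    rw [Fin.ext h.1, Fin.ext h.2]
  · exfalso
    simp only [val] at h
    have h1 := capv_cases m j'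
    rw [← h] at h1
    have := i.2
    simp only at h1
    omega
  · exfalso
    simp only [val] at h
    have h1 := capv_cases m j
    rw [h] at h1
    have := i'.2
    simp only at h1
    omega
  · rw [capv_inj m h]

theorem exists_val {c : ℕ × ℕ} (hc : V m c) : ∃ u : Lab m, val u = c := by
  obtain ⟨b, t⟩ := c
  have h := (V_iff _ _ _).1 hc
  rcases h with ⟨rfl, h⟩ | ⟨h1, h2, h3⟩ | ⟨rfl, h⟩
  · rcases h with rfl | rfl | rfl | rfl
    · exact ⟨Sum.inr 0, rfl⟩
    · exact ⟨Sum.inr 1, rfl⟩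
    · exact ⟨Sum.inr 2, rfl⟩
    · exact ⟨Sum.inr 3, rfl⟩
  · refine ⟨Sum.inl (⟨b - 1, by omega⟩, ⟨t, h3⟩), ?_⟩
    simp only [val, Prod.mk.injEq, and_true]
    omega
  · rcases h with rfl | rfl | rfl | rfl | rfl | rfl
    · exact ⟨Sum.inr 4, rfl⟩
    · exact ⟨Sum.inr 5, rfl⟩
    · exact ⟨Sum.inr 6, rfl⟩
    · exact ⟨Sum.inr 7, rfl⟩
    · exact ⟨Sum.inr 8, rfl⟩
    · exact ⟨Sum.inr 9, rfl⟩

theorem card_Lab (m : ℕ) : Fintype.card (Lab m) = 14 * m + 10 := by
  simp only [Lab, Fintype.card_sum, Fintype.card_prod, Fintype.card_fin]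
  ring

/-- the changes of all blocks -/
def rho (o : Fin m → Fin 6) : Equiv.Perm (Lab m) :=
  Equiv.sumCongr (Equiv.prodCongrRight fun i => g (o i)) (Equiv.refl _)

theorem sign_rho (o : Fin m → Fin 6) :
    Equiv.Perm.sign (rho o) = ∏ i, (if od (o i) then (-1 : ℤˣ) else 1) := by
  unfold rho
  have h := Equiv.Perm.sign_sumCongr (Equiv.prodCongrRight fun i => g (o i)) (1 : Equiv.Perm (Fin 10))
  rw [Equiv.Perm.sign_one, mul_one, Equiv.Perm.sign_prodCongrRight] at h
  rw [← Finset.prod_congr rfl (fun i _ => sign_g (o i)), ← h]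
  rfl

/-- a cyclic order of the labels in which neighbours touch -/
structure Tour (m : ℕ) (x y : ℕ → Bool) (τ : Equiv.Perm (Lab m)) : Prop where
  cyc : τ.IsCycle
  ne : ∀ u, τ u ≠ u
  ct : ∀ u, Ct x y (val u) (val (τ u))

theorem Tour.ne2 {τ : Equiv.Perm (Lab m)} (h : Tour m x y τ) (u : Lab m) : τ u ≠ τ.symm u := by
  intro he
  have h1 : (τ ^ 2) u = u := by
    rw [pow_two, Equiv.Perm.mul_apply, he, Equiv.apply_symm_apply]
  have h2 : τ ^ 2 = 1 := h.cyc.pow_eq_one_iff.2 ⟨u, h.ne u, h1⟩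
  have h3 := orderOf_dvd_of_pow_eq_one h2
  rw [h.cyc.orderOf] at h3
  have h4 : τ.support = Finset.univ := by
    ext v
    simp [h.ne v]
  rw [h4, Finset.card_univ, card_Lab] at h3
  have := Nat.le_of_dvd (by norm_num) h3
  omega

/-- the permutation of the codes -/
noncomputable def ext (τ : Equiv.Perm (Lab m)) : Equiv.Perm (ℕ × ℕ) :=
  letI := Classical.decPred fun c : ℕ × ℕ => c ∈ Set.range (val (m := m))
  τ.extendDomain (Equiv.ofInjective val val_inj)

theorem ext_val (τ : Equiv.Perm (Lab m)) (u : Lab m) : ext τ (val u) = val (τ u) := by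
  letI := Classical.decPred fun c : ℕ × ℕ => c ∈ Set.range (val (m := m))
  have h := Equiv.Perm.extendDomain_apply_image τ (Equiv.ofInjective val val_inj) u
  rw [Equiv.ofInjective_apply, Equiv.ofInjective_apply] at h
  exact h

theorem ext_symm_val (τ : Equiv.Perm (Lab m)) (u : Lab m) :
    (ext τ).symm (val u) = val (τ.symm u) := by
  rw [Equiv.symm_apply_eq, ext_val, Equiv.apply_symm_apply]

theorem Tour.good {τ : Equiv.Perm (Lab m)} (h : Tour m x y τ) : Good m x y (ext τ) := by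
  refine ⟨fun c hc => ?_, fun c hc => ?_, fun c hc => ?_, fun c hc => ?_, fun c hc => ?_⟩ <;>
    obtain ⟨u, rfl⟩ := exists_val hc
  · rw [ext_val]
    exact V_val _
  · rw [ext_symm_val]
    exact V_val _
  · rw [ext_val]
    exact fun he => h.ne u (val_inj he)
  · rw [ext_val, ext_symm_val]
    exact fun he => h.ne2 u (val_inj he)
  · rw [ext_val]
    exact h.ct u

theorem Tour.inv {τ : Equiv.Perm (Lab m)} (h : Tour m x y τ) : Tour m x y τ⁻¹ := by
  refine ⟨h.cyc.inv, fun u he => ?_, fun u => ?_⟩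
  · apply h.ne u
    conv_lhs => rw [← he]
    simp
  · have h1 := h.ct (τ⁻¹ u)
    have e : τ (τ⁻¹ u) = u := τ.apply_symm_apply u
    rw [e] at h1
    exact h1.symm

theorem ext_pow_val (τ : Equiv.Perm (Lab m)) (k : ℕ) (u : Lab m) :
    ((ext τ) ^ k) (val u) = val ((τ ^ k) u) := by
  induction k with
  | zero => rfl
  | succ k ih =>
    rw [pow_succ', Equiv.Perm.mul_apply, ih, ext_val, pow_succ', Equiv.Perm.mul_apply]

theorem ext_inv (τ : Equiv.Perm (Lab m)) {c : ℕ × ℕ} (hc : V m c) (k : ℕ) :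
    ((ext τ).symm ^ k) c = ((ext τ⁻¹) ^ k) c := by
  obtain ⟨u, rfl⟩ := exists_val hc
  rw [ext_pow_val]
  induction k with
  | zero => rfl
  | succ k ih =>
    rw [pow_succ', Equiv.Perm.mul_apply, ih, ext_symm_val, pow_succ', Equiv.Perm.mul_apply]
    rfl

theorem Tour.trans {τ : Equiv.Perm (Lab m)} (h : Tour m x y τ) (c d : ℕ × ℕ) (hc : V m c)
    (hd : V m d) : ∃ k : ℕ, ((ext τ) ^ k) c = d := by
  obtain ⟨u, rfl⟩ := exists_val hc
  obtain ⟨v, rfl⟩ := exists_val hd
  obtain ⟨k, hk⟩ := h.cyc.exists_pow_eq (h.ne u) (h.ne v)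
  exact ⟨k, by rw [ext_pow_val, hk]⟩

/-- the options of a tour -/
theorem Tour.options {τ : Equiv.Perm (Lab m)} (h : Tour m x y τ) :
    ∃ τ' : Equiv.Perm (Lab m), Equiv.Perm.sign τ' = Equiv.Perm.sign τ ∧ ∃ o : Fin m → Fin 6,
      (∀ i : Fin m, od (o i) = (x (i.val + 1) && y (i.val + 1))) ∧
      ∀ u, val (τ' u) = F m (val (rho o u)).1 (val (rho o u)).2 := by
  -- a version which follows the directions
  obtain ⟨τ', hs, h', hdir⟩ : ∃ τ' : Equiv.Perm (Lab m),
      Equiv.Perm.sign τ' = Equiv.Perm.sign τ ∧ Tour m x y τ' ∧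
        ∀ c, V m c → Dir x y c (ext τ' c) := by
    rcases h.good.orient h.trans (fun c d hc hd => by
      obtain ⟨k, hk⟩ := h.inv.trans c d hc hd
      exact ⟨k, by rw [ext_inv τ hc, hk]⟩) with hd | hd
    · exact ⟨τ, rfl, h, hd⟩
    · refine ⟨τ⁻¹, Equiv.Perm.sign_inv τ, h.inv, fun c hc => ?_⟩
      have h1 := hd c hc
      obtain ⟨u, rfl⟩ := exists_val hc
      rw [ext_symm_val] at h1
      rw [ext_val]
      exact h1
  refine ⟨τ', hs, ?_⟩
  have hg := h'.good
  have hopt : ∀ i : Fin m, ∃ o : Fin 6, od o = (x (i.val + 1) && y (i.val + 1)) ∧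
      ∀ t < 14, ext τ' (i.val + 1, t) = F m (i.val + 1) ((gt o).getD t 0) :=
    fun i => hg.options hdir (by omega) (by have := i.2; omega)
  choose o ho1 ho2 using hopt
  refine ⟨o, ho1, ?_⟩
  intro u
  rw [← ext_val]
  rcases u with ⟨i, t⟩ | j
  · have e : rho o (Sum.inl (i, t)) = Sum.inl (i, g (o i) t) := rfl
    rw [e]
    simp only [val]
    rw [ho2 i t.val t.2, g_table]
  · have e : rho o (Sum.inr j) = Sum.inr j := rfl
    rw [e]
    simp only [val]
    have hv := V_capv m j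
    have h1 := capv_cases m j
    obtain ⟨⟨b, t⟩, hbt⟩ : ∃ c, c = capv m j := ⟨_, rfl⟩
    rw [← hbt] at hv h1 ⊢
    exact hg.caps hdir hv h1

/-- two tours -/
theorem Tour.parity {x' y' : ℕ → Bool} {τ τ₀ : Equiv.Perm (Lab m)} (h : Tour m x y τ)
    (h₀ : Tour m x' y' τ₀) (hs : Equiv.Perm.sign τ = Equiv.Perm.sign τ₀)
    (hx : ∀ b, x' b = false) :
    ∏ i : Fin m, (if (x (i.val + 1) && y (i.val + 1)) = true then (-1 : ℤˣ) else 1) = 1 := by
  obtain ⟨τ', hs1, o, ho1, ho2⟩ := h.options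
  obtain ⟨τ₁, hs2, o', ho3, ho4⟩ := h₀.options
  have e1 : τ' * (rho o)⁻¹ = τ₁ * (rho o')⁻¹ := by
    apply Equiv.ext
    intro u
    apply val_inj
    have e5 : rho o ((rho o)⁻¹ u) = u := (rho o).apply_symm_apply u
    have e6 : rho o' ((rho o')⁻¹ u) = u := (rho o').apply_symm_apply u
    rw [Equiv.Perm.mul_apply, Equiv.Perm.mul_apply, ho2, ho4, e5, e6]
  have e2 := congrArg Equiv.Perm.sign e1
  rw [Equiv.Perm.sign_mul, Equiv.Perm.sign_mul, Equiv.Perm.sign_inv, Equiv.Perm.sign_inv, hs1, hs2,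
    hs] at e2
  have e3 := mul_left_cancel e2
  rw [sign_rho, sign_rho] at e3
  have e4 : ∏ i, (if od (o' i) then (-1 : ℤˣ) else 1) = 1 := by
    apply Finset.prod_eq_one
    intro i _
    rw [ho3, hx]
    simp
  rw [e4] at e3
  refine Eq.trans (Finset.prod_congr rfl fun i _ => ?_) e3
  rw [ho1]

end Pool.Agent.R532.Par
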