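import Mathlib

/-!
# Touching discs: the tables

The discs are coded by pairs `(b, t)` of a block number `b ≤ m + 1` and a type `t < 20`. The types
`0, …, 13` occur in the blocks `1, …, m`, the types `6, 11, 14, 15` in the block `0` and the types
`4, 7, 16, …, 19` in the block `m + 1`. The types `12` and `13` are the moving discs.
-/

set_option autoImplicit false

namespace Pool.Agent.R532.Par

/-- the position of the disc of type `t`, relative to the block; `z` is the bit of a moving disc -/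
def ent (z : Bool) (t : ℕ) : ℤ × ℤ :=
  match t with
  | 0 => (-12, 20)
  | 1 => (12, 20)
  | 2 => (27, 20)
  | 3 => (35, 20)
  | 4 => (-12, 0)
  | 5 => (12, 0)
  | 6 => (32, 0)
  | 7 => (-12, -20)
  | 8 => (12, -20)
  | 9 => (27, -20)
  | 10 => (35, -20)
  | 11 => (43, -67)
  | 12 => if z then (27, 28) else (0, 5)
  | 13 => if z then (27, -28) else (0, -5)
  | 14 => (32, 20)
  | 15 => (43, -32)
  | 16 => (-16, 20)
  | 17 => (23, 20)
  | 18 => (23, -33)
  | _ => (23, -67)

/-- the radius of the disc of type `t` -/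
def rad (t : ℕ) : ℤ :=
  match t with
  | 0 => 12
  | 1 => 12
  | 2 => 3
  | 3 => 5
  | 4 => 8
  | 5 => 8
  | 6 => 12
  | 7 => 12
  | 8 => 12
  | 9 => 3
  | 10 => 5
  | 11 => 32
  | 12 => 5
  | 13 => 5
  | 14 => 8
  | 15 => 3
  | 16 => 8
  | 17 => 31
  | 18 => 22
  | _ => 12

/-- the possible steps inside of a block -/
def o0 (x y : Bool) (t t' : ℕ) : Bool :=
  decide ((t, t') ∈ [(0, 1), (0, 4), (2, 3), (5, 1), (5, 8), (6, 5), (7, 8), (7, 4), (9, 10), (6, 14),
    (11, 15), (16, 17), (17, 18), (18, 19)]) ||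
  (!x && decide ((t, t') ∈ [(1, 2), (5, 12), (12, 4)])) ||
  (x && decide ((t, t') ∈ [(1, 12), (12, 2)])) ||
  (!y && decide ((t, t') ∈ [(8, 9), (5, 13), (13, 4)])) ||
  (y && decide ((t, t') ∈ [(8, 13), (13, 9)])) ||
  (!x && !y && decide ((t, t') ∈ [(12, 13), (13, 12)]))

/-- the possible steps to the next block -/
def o1 (t t' : ℕ) : Bool :=
  decide ((t, t') ∈ [(3, 0), (3, 16), (10, 7), (14, 0), (14, 16), (15, 7)])

/-- the possible steps to the block before -/
def o2 (t t' : ℕ) : Bool := decide ((t, t') ∈ [(4, 6), (11, 11), (19, 11)])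

/-- the contacts which are never used -/
def sp (x y : Bool) (t t' : ℕ) : Bool :=
  (x && decide ((t, t') ∈ [(1, 2), (2, 1)])) || (y && decide ((t, t') ∈ [(8, 9), (9, 8)]))

/-- the types of a block -/
def kinds (k : ℕ) : List ℕ :=
  match k with
  | 0 => [6, 11, 14, 15]
  | 1 => [0, 1, 2, 3, 4, 5, 6, 7, 8, 9, 10, 11, 12, 13]
  | _ => [4, 7, 16, 17, 18, 19]

/-- the squared distance minus the squared sum of the radii, for two discs with the difference `δ`
of the block numbers -/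
def exc (z z' : Bool) (δ : ℤ) (t t' : ℕ) : ℤ :=
  (64 * δ + (ent z' t').1 - (ent z t).1) ^ 2 + ((ent z' t').2 - (ent z t).2) ^ 2 -
    (rad t + rad t') ^ 2

/-- the bit of a moving disc -/
def bt (x y : Bool) (t : ℕ) : Bool := if t = 12 then x else y

theorem check0 : ∀ x y : Bool, ∀ k < 3, ∀ t ∈ kinds k, ∀ t' ∈ kinds k, t ≠ t' →
    if o0 x y t t' || o0 x y t' t || sp x y t t' then exc (bt x y t) (bt x y t') 0 t t' = 0
    else 2 * (rad t + rad t') + 1 ≤ exc (bt x y t) (bt x y t') 0 t t' := by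
  decide

theorem check1 : ∀ z z' : Bool, ∀ k < 2, ∀ k' < 2, ∀ t ∈ kinds k, ∀ t' ∈ kinds (k' + 1),
    if o1 t t' || o2 t' t then exc z z' 1 t t' = 0
    else 2 * (rad t + rad t') + 1 ≤ exc z z' 1 t t' := by
  decide

theorem check2 : ∀ z : Bool, ∀ t < 20, -16 ≤ (ent z t).1 ∧ (ent z t).1 ≤ 43 ∧ 1 ≤ rad t ∧
    rad t ≤ 32 ∧ -67 ≤ (ent z t).2 ∧ (ent z t).2 ≤ 28 := by
  decide

end Pool.Agent.R532.Par
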