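import Pool.Agent.R532.Lattice
import Pool.Agent.H627R4.Tour

/-!
# Tours as permutations of labels
-/

set_option autoImplicit false

namespace Pool.Agent.R532

open Pool.Agent.ETSP Pool.Agent.Helper140.LT

section general

variable {V U : Type}

theorem perm_lift (f : U → V) {l₁ l₂ : List V} (h : l₁.Perm l₂) : ∀ A : List U, A.map f = l₁ →
    ∃ L : List U, L.Perm A ∧ L.map f = l₂ := by
  induction h with
  | nil =>
    intro A hA
    exact ⟨A, List.Perm.refl _, hA⟩
  | cons x _ ih =>
    intro A hA
    cases A with
    | nil => simp at hA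
    | cons a A =>
      rw [List.map_cons, List.cons.injEq] at hA
      obtain ⟨L, h1, h2⟩ := ih A hA.2
      exact ⟨a :: L, h1.cons a, by rw [List.map_cons, h2, hA.1]⟩
  | swap x y l =>
    intro A hA
    match A, hA with
    | [], hA => simp at hA
    | [a], hA => simp at hA
    | a :: b :: A, hA =>
      rw [List.map_cons, List.map_cons, List.cons.injEq, List.cons.injEq] at hA
      exact ⟨b :: a :: A, List.Perm.swap a b A, by
        rw [List.map_cons, List.map_cons, hA.1, hA.2.1, hA.2.2]⟩
  | trans _ _ ih1 ih2 =>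
    intro A hA
    obtain ⟨L, h1, h2⟩ := ih1 A hA
    obtain ⟨L', h3, h4⟩ := ih2 L h2
    exact ⟨L', h3.trans h1, h4⟩

theorem pl_map (d : V → V → ℝ) (f : U → V) (l : List U) : ∀ a b,
    pl d (f a) (l.map f) (f b) = pl (fun u v => d (f u) (f v)) a l b := by
  induction l with
  | nil => intro a b; rfl
  | cons x l ih =>
    intro a b
    rw [List.map_cons, pl, pl, ih]

theorem tl_map (d : V → V → ℝ) (f : U → V) (l : List U) :
    tl d (l.map f) = tl (fun u v => d (f u) (f v)) l := by
  cases l with
  | nil => rfl
  | cons a l => exact pl_map d f l a a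

theorem pl_zip (d : V → V → ℝ) (l : List V) : ∀ a b, pl d a l b =
    (((a :: l).zip (l ++ [b])).map fun p => d p.1 p.2).sum := by
  induction l with
  | nil => intro a b; simp [pl]
  | cons x l ih =>
    intro a b
    rw [pl, ih, List.cons_append, List.zip_cons_cons, List.map_cons, List.sum_cons]

theorem tl_zip (d : V → V → ℝ) (l : List V) : tl d l =
    ((l.zip (l.rotate 1)).map fun p => d p.1 p.2).sum := by
  cases l with
  | nil => rfl
  | cons a l =>
    rw [tl, pl_zip, List.rotate_cons_succ, List.rotate_zero]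

variable [DecidableEq V]

theorem map_formPerm (l : List V) (h : l.Nodup) : l.map l.formPerm = l.rotate 1 := by
  apply List.ext_getElem
  · simp
  · intro i h1 h2
    rw [List.length_map] at h1
    rw [List.getElem_map, List.getElem_rotate, List.formPerm_apply_getElem _ h]

theorem tl_formPerm (d : V → V → ℝ) (l : List V) (h : l.Nodup) :
    tl d l = (l.map fun u => d u (l.formPerm u)).sum := by
  rw [tl_zip, ← map_formPerm l h]
  congr 1
  apply List.ext_getElem
  · simp
  · intro i h1 h2
    simp

theorem tl_fintype [Fintype V] (d : V → V → ℝ) (l : List V) (h : l.Nodup) (hc : ∀ v, v ∈ l) :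
    tl d l = ∑ u, d u (l.formPerm u) := by
  rw [tl_formPerm d l h, ← List.sum_toFinset _ h]
  congr 1
  ext v
  simp [hc v]

end general

/-! ### Ranks -/

section rank

variable {V : Type} [DecidableEq V]

theorem exists_rank (l : List V) (h : l.Nodup) (c : V) (hc : c ∈ l) :
    ∃ r : V → ℕ, ∀ u ∈ l, l.formPerm u ≠ c → r (l.formPerm u) < r u := by
  obtain ⟨l1, l2, rfl⟩ := List.append_of_mem hc
  have hrot : (l1 ++ c :: l2).IsRotated (c :: l2 ++ l1) := List.isRotated_append
  have hn : (c :: l2 ++ l1).Nodup := hrot.nodup_iff.1 h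
  have hf := List.formPerm_eq_of_isRotated h hrot
  set L := c :: l2 ++ l1 with hL
  refine ⟨fun v => L.length - L.idxOf v, ?_⟩
  intro u hu hne
  rw [hf] at hne ⊢
  have huL : u ∈ L := hrot.mem_iff.1 hu
  have hi : L.idxOf u < L.length := List.idxOf_lt_length_iff.2 huL
  have hu2 : L[L.idxOf u] = u := List.getElem_idxOf hi
  have h2 : L.formPerm u = L[(L.idxOf u + 1) % L.length]'(Nat.mod_lt _ (by omega)) := by
    conv_lhs => rw [← hu2]
    rw [List.formPerm_apply_getElem _ hn]
  have hlt : L.idxOf u + 1 < L.length := by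
    by_contra hcon
    apply hne
    have e : L.idxOf u + 1 = L.length := by omega
    rw [h2]
    simp only [e, Nat.mod_self]
    rfl
  have h3 : L.idxOf (L.formPerm u) = L.idxOf u + 1 := by
    rw [h2]
    simp only [Nat.mod_eq_of_lt hlt]
    exact List.Nodup.idxOf_getElem hn _ hlt
  simp only [h3]
  omega

end rank

end Pool.Agent.R532
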