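import Pool.Agent.R532.ParSign
import Pool.Agent.R532.Tours

/-!
# Touching discs: the tours
-/

set_option autoImplicit false

namespace Pool.Agent.R532.Par

open Pool.Agent.H553R2.TSP

section paths

variable {α : Type} {R : α → α → Prop}

/-- the list `l` is a path from `a` to `b` -/
def Pth (R : α → α → Prop) (l : List α) (a b : α) : Prop :=
  l.IsChain R ∧ l.head? = some a ∧ l.getLast? = some b

theorem Pth.one (a : α) : Pth R [a] a a := ⟨List.IsChain.singleton a, rfl, rfl⟩

theorem Pth.app {l₁ l₂ : List α} {a b c d : α} (h₁ : Pth R l₁ a b) (h₂ : Pth R l₂ c d)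
    (h : R b c) : Pth R (l₁ ++ l₂) a d := by
  refine ⟨?_, ?_, ?_⟩
  · rw [List.isChain_append]
    refine ⟨h₁.1, h₂.1, ?_⟩
    intro u hu v hv
    rw [h₁.2.2, Option.mem_some_iff] at hu
    rw [h₂.2.1, Option.mem_some_iff] at hv
    rw [← hu, ← hv]
    exact h
  · rw [List.head?_append, h₁.2.1]
    rfl
  · rw [List.getLast?_append, h₂.2.2]
    rfl

theorem Pth.cons {l : List α} {a b c : α} (h₁ : Pth R l b c) (h : R a b) :
    Pth R (a :: l) a c := Pth.app (Pth.one a) h₁ h

end paths

variable {m : ℕ} {x y : ℕ → Bool}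

/-- the middle row of a block -/
def mid (x y : ℕ → Bool) (c : ℕ) : List (ℕ × ℕ) :=
  [(c, 6), (c, 5)] ++ (if x c then [] else [(c, 12)]) ++ (if y c then [] else [(c, 13)]) ++ [(c, 4)]

/-- the upper row of a block -/
def top (x : ℕ → Bool) (c : ℕ) : List (ℕ × ℕ) :=
  [(c, 0), (c, 1)] ++ (if x c then [(c, 12)] else []) ++ [(c, 2), (c, 3)]

/-- the lower row of a block -/
def bot (y : ℕ → Bool) (c : ℕ) : List (ℕ × ℕ) :=
  [(c, 7), (c, 8)] ++ (if y c then [(c, 13)] else []) ++ [(c, 9), (c, 10)]

/-- a tour of the first blocks: the ends of the two paths, and the paths from `(b, 6)` and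
`(b, 11)` -/
def paths (x y : ℕ → Bool) : ℕ → Bool × List (ℕ × ℕ) × List (ℕ × ℕ)
  | 0 => (false, [(0, 6), (0, 14)], [(0, 11), (0, 15)])
  | b + 1 =>
    if (x (b + 1) && y (b + 1)) = true then
      if (paths x y b).1 = false then
        (true, [(b + 1, 6), (b + 1, 5), (b + 1, 8), (b + 1, 13), (b + 1, 9), (b + 1, 10)],
          [(b + 1, 11)] ++ (paths x y b).2.2 ++ [(b + 1, 7), (b + 1, 4)] ++ (paths x y b).2.1 ++
            top x (b + 1))
      else
        (false, [(b + 1, 6), (b + 1, 5), (b + 1, 1), (b + 1, 12), (b + 1, 2), (b + 1, 3)],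
          [(b + 1, 11)] ++ (paths x y b).2.2 ++ [(b + 1, 0), (b + 1, 4)] ++ (paths x y b).2.1 ++
            bot y (b + 1))
    else
      if (paths x y b).1 = false then
        (false, mid x y (b + 1) ++ (paths x y b).2.1 ++ top x (b + 1),
          [(b + 1, 11)] ++ (paths x y b).2.2 ++ bot y (b + 1))
      else
        (true, mid x y (b + 1) ++ (paths x y b).2.1 ++ bot y (b + 1),
          [(b + 1, 11)] ++ (paths x y b).2.2 ++ top x (b + 1))

/-- the last disc at the top of a block -/
def te (b : ℕ) : ℕ × ℕ := if b = 0 then (0, 14) else (b, 3)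

/-- the last disc at the bottom of a block -/
def se (b : ℕ) : ℕ × ℕ := if b = 0 then (0, 15) else (b, 10)

section

attribute [local simp] dir_from o0_iff o1_iff o2_iff B0

theorem te_dir (b : ℕ) : Dir x y (te b) (b + 1, 0) := by
  unfold te
  split_ifs with h
  · subst h
    simp
  · simp

theorem te_dir' (b : ℕ) : Dir x y (te b) (b + 1, 16) := by
  unfold te
  split_ifs with h
  · subst h
    simp
  · simp

theorem se_dir (b : ℕ) : Dir x y (se b) (b + 1, 7) := by
  unfold se
  split_ifs with h
  · subst h
    simp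
  · simp

theorem te_succ (b : ℕ) : te (b + 1) = (b + 1, 3) := by simp [te]

theorem se_succ (b : ℕ) : se (b + 1) = (b + 1, 10) := by simp [se]

theorem mid_pth {c : ℕ} (h : (x c && y c) = false) : Pth (Dir x y) (mid x y c) (c, 6) (c, 4) := by
  unfold mid
  cases hx : x c <;> cases hy : y c
  · exact ((((Pth.one _).cons (by simp [hy])).cons (by simp [hx, hy])).cons
      (by simp [hx])).cons (by simp)
  · exact (((Pth.one _).cons (by simp [hx])).cons (by simp [hx])).cons (by simp)
  · exact (((Pth.one _).cons (by simp [hy])).cons (by simp [hy])).cons (by simp)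
  · rw [hx, hy] at h
    simp at h

theorem top_pth (c : ℕ) : Pth (Dir x y) (top x c) (c, 0) (c, 3) := by
  unfold top
  cases hx : x c
  · exact (((Pth.one _).cons (by simp)).cons (by simp [hx])).cons (by simp)
  · exact ((((Pth.one _).cons (by simp)).cons (by simp [hx])).cons (by simp [hx])).cons (by simp)

theorem bot_pth (c : ℕ) : Pth (Dir x y) (bot y c) (c, 7) (c, 10) := by
  unfold bot
  cases hy : y c
  · exact (((Pth.one _).cons (by simp)).cons (by simp [hy])).cons (by simp)
  · exact ((((Pth.one _).cons (by simp)).cons (by simp [hy])).cons (by simp [hy])).cons (by simp)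

theorem paths_pth (b : ℕ) :
    Pth (Dir x y) (paths x y b).2.1 (b, 6) (if (paths x y b).1 = false then te b else se b) ∧
    Pth (Dir x y) (paths x y b).2.2 (b, 11) (if (paths x y b).1 = false then se b else te b) := by
  induction b with
  | zero =>
    constructor
    · simp only [paths, te, if_true]
      exact (Pth.one _).cons (by simp)
    · simp only [paths, se, if_true]
      exact (Pth.one _).cons (by simp)
  | succ b ih =>
    rw [paths]
    obtain ⟨⟨st, P₁, P₃⟩, hq⟩ : ∃ q, q = paths x y b := ⟨_, rfl⟩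
    rw [← hq] at ih ⊢
    obtain ⟨i1, i2⟩ := ih
    cases hb : (x (b + 1) && y (b + 1)) <;> cases st
    all_goals
      simp only [if_true, if_false, Bool.false_eq_true, Bool.true_eq_false, te_succ,
        se_succ] at i1 i2 ⊢
    · constructor
      · exact ((mid_pth hb).app i1 (by simp)).app (top_pth _) (te_dir b)
      · exact ((Pth.one _).app i2 (by simp)).app (bot_pth _) (se_dir b)
    · constructor
      · exact ((mid_pth hb).app i1 (by simp)).app (bot_pth _) (se_dir b)
      · exact ((Pth.one _).app i2 (by simp)).app (top_pth _) (te_dir b)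
    · rw [Bool.and_eq_true] at hb
      constructor
      · exact (((((Pth.one _).cons (by simp)).cons (by simp [hb.2])).cons
          (by simp [hb.2])).cons (by simp)).cons (by simp)
      · refine ((((Pth.one _).app i2 (by simp)).app (c := (b + 1, 7)) (d := (b + 1, 4)) ?_
          (se_dir b)).app i1 (by simp)).app (top_pth _) (te_dir b)
        exact (Pth.one _).cons (by simp)
    · rw [Bool.and_eq_true] at hb
      constructor
      · exact (((((Pth.one _).cons (by simp)).cons (by simp [hb.1])).cons
          (by simp [hb.1])).cons (by simp)).cons (by simp)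
      · refine ((((Pth.one _).app i2 (by simp)).app (c := (b + 1, 0)) (d := (b + 1, 4)) ?_
          (te_dir b)).app i1 (by simp)).app (bot_pth _) (se_dir b)
        exact (Pth.one _).cons (by simp)

/-- the whole tour -/
def tour (x y : ℕ → Bool) (m : ℕ) : List (ℕ × ℕ) :=
  (paths x y m).2.1 ++ [(m + 1, 16), (m + 1, 17), (m + 1, 18), (m + 1, 19)] ++ (paths x y m).2.2 ++
    [(m + 1, 7), (m + 1, 4)]

theorem tour_pth (h : (paths x y m).1 = false) : Pth (Dir x y) (tour x y m) (m, 6) (m + 1, 4) := by
  obtain ⟨h1, h2⟩ := paths_pth (x := x) (y := y) m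
  rw [h, if_pos rfl] at h1 h2
  refine ((h1.app (c := (m + 1, 16)) (d := (m + 1, 19)) ?_ (te_dir' m)).app h2 (by simp)).app
    (c := (m + 1, 7)) (d := (m + 1, 4)) ?_ (se_dir m)
  · exact (((Pth.one _).cons (by simp)).cons (by simp)).cons (by simp)
  · exact (Pth.one _).cons (by simp)

theorem tour_close : Dir x y (m + 1, 4) (m, 6) := by simp

end

/-- the state is the parity of the number of blocks with two bits `1` -/
theorem paths_state (b : ℕ) : (-1 : ℤˣ) ^ (if (paths x y b).1 then 1 else 0) =
    ∏ i ∈ Finset.range b, (if (x (i + 1) && y (i + 1)) = true then (-1 : ℤˣ) else 1) := by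
  induction b with
  | zero => rfl
  | succ b ih =>
    rw [Finset.prod_range_succ, ← ih, paths]
    obtain ⟨⟨st, P₁, P₃⟩, hq⟩ : ∃ q, q = paths x y b := ⟨_, rfl⟩
    rw [← hq]
    cases hb : (x (b + 1) && y (b + 1)) <;> cases st <;> simp

/-- the codes of the first blocks -/
def cod : ℕ → List (ℕ × ℕ)
  | 0 => [(0, 6), (0, 14), (0, 11), (0, 15)]
  | b + 1 => [(b + 1, 0), (b + 1, 1), (b + 1, 2), (b + 1, 3), (b + 1, 4), (b + 1, 5), (b + 1, 6),
      (b + 1, 7), (b + 1, 8), (b + 1, 9), (b + 1, 10), (b + 1, 11), (b + 1, 12), (b + 1, 13)] ++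
        cod b

theorem mem_cod (b : ℕ) (c : ℕ × ℕ) : c ∈ cod b ↔
    (c.1 = 0 ∧ (c.2 = 6 ∨ c.2 = 11 ∨ c.2 = 14 ∨ c.2 = 15)) ∨ (1 ≤ c.1 ∧ c.1 ≤ b ∧ c.2 < 14) := by
  obtain ⟨a, t⟩ := c
  induction b with
  | zero =>
    simp only [cod, List.mem_cons, Prod.mk.injEq, List.not_mem_nil, or_false]
    omega
  | succ b ih =>
    rw [cod, List.mem_append, ih]
    simp only [List.mem_cons, Prod.mk.injEq, List.not_mem_nil, or_false]
    omega

theorem nodup_cod (b : ℕ) : (cod b).Nodup := by
  induction b with
  | zero => simp [cod]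
  | succ b ih =>
    rw [cod, List.nodup_append]
    refine ⟨by simp, ih, ?_⟩
    intro c hc d hd he
    subst he
    rw [mem_cod] at hd
    simp only [List.mem_cons, List.not_mem_nil, or_false] at hc
    rcases hc with rfl | rfl | rfl | rfl | rfl | rfl | rfl | rfl | rfl | rfl | rfl | rfl | rfl |
      rfl <;> simp only at hd <;> omega

theorem paths_perm (b : ℕ) : ((paths x y b).2.1 ++ (paths x y b).2.2).Perm (cod b) := by
  induction b with
  | zero => simp [paths, cod]
  | succ b ih =>
    rw [List.perm_iff_count] at ih ⊢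
    intro a
    have ih' := ih a
    rw [cod, List.count_append (l₂ := cod b), ← ih', paths]
    obtain ⟨⟨st, P₁, P₃⟩, hq⟩ : ∃ q, q = paths x y b := ⟨_, rfl⟩
    rw [← hq]
    cases hx : x (b + 1) <;> cases hy : y (b + 1) <;> cases st
    all_goals
      simp only [if_true, if_false, Bool.false_eq_true, Bool.true_eq_false, Bool.and_true,
        Bool.and_false, mid, top, bot, hx, hy, List.count_append, List.count_cons,
        List.count_nil]
      ring

theorem tour_perm : (tour x y m).Perm (cod m ++ [(m + 1, 4), (m + 1, 7), (m + 1, 16), (m + 1, 17),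
    (m + 1, 18), (m + 1, 19)]) := by
  rw [List.perm_iff_count]
  intro a
  have h := (List.perm_iff_count.1 (paths_perm (x := x) (y := y) m)) a
  unfold tour
  rw [List.count_append] at h
  simp only [List.count_append, List.count_cons, List.count_nil, ← h]
  ring

theorem full_perm : (cod m ++ [(m + 1, 4), (m + 1, 7), (m + 1, 16), (m + 1, 17),
    (m + 1, 18), (m + 1, 19)]).Perm ((Finset.univ : Finset (Lab m)).toList.map val) := by
  rw [List.perm_ext_iff_of_nodup]
  · intro c
    obtain ⟨a, t⟩ := c
    rw [List.mem_append, mem_cod, List.mem_map]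
    simp only [List.mem_cons, Prod.mk.injEq, List.not_mem_nil, or_false, Finset.mem_toList,
      Finset.mem_univ, true_and]
    constructor
    · intro h
      exact exists_val ((V_iff _ _ _).2 (by omega))
    · rintro ⟨u, hu⟩
      have h := V_val u
      rw [hu, V_iff] at h
      omega
  · rw [List.nodup_append]
    refine ⟨nodup_cod m, by simp, ?_⟩
    intro c hc d hd he
    subst he
    rw [mem_cod] at hc
    simp only [List.mem_cons, List.not_mem_nil, or_false] at hd
    rcases hd with rfl | rfl | rfl | rfl | rfl | rfl <;> simp only at hc <;> omega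
  · exact (Finset.nodup_toList _).map val_inj

end Pool.Agent.R532.Par
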