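import Pool.Agent.R532.RrModel

/-!
# Open sets of inputs with the same computation
-/

set_option autoImplicit false

namespace Pool.Agent.R532.Rr

open Set

variable {N p s : ℕ} {Q Z : Type} [TopologicalSpace Z]

/-- one step on a smaller open set -/
theorem shrink_one (P : Prog N p s Q) (e : Z → Fin N → ℝ) (he : Continuous e) (a q : Q)
    (r : Z → Fin s → ℝ) (V E : Set Z) (hV : IsOpen V) (hne : V.Nonempty) (hr : ContinuousOn r V)
    (hE : ∀ z ∈ E, Ok P a (r z) q) (hVE : V ⊆ closure E) :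
    ∃ V' ⊆ V, IsOpen V' ∧ V'.Nonempty ∧ (∀ z ∈ V', Ok P a (r z) q) ∧
      ContinuousOn (fun z => upd P (e z) a (r z)) V' := by
  have meet : ∀ U ⊆ V, IsOpen U → U.Nonempty → ∃ z ∈ U, z ∈ E := by
    intro U hUV hU hUne
    obtain ⟨z, hz⟩ := hUne
    obtain ⟨y, hy1, hy2⟩ := mem_closure_iff.1 (hVE (hUV hz)) U hU hz
    exact ⟨y, hy1, hy2⟩
  obtain ⟨z0, hz0V, hz0⟩ := meet V subset_rfl hV hne
  have hok := hE z0 hz0
  have hdom : ∀ F : Fn s, (∀ z ∈ E, r z ∈ F.dom) →
      IsOpen (V ∩ r ⁻¹' F.dom) ∧ (V ∩ r ⁻¹' F.dom).Nonempty := by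
    intro F hF
    exact ⟨hr.isOpen_inter_preimage hV F.isOpen, z0, hz0V, hF z0 hz0⟩
  unfold Ok at hE hok ⊢
  unfold upd
  cases h : P.instr a with
  | halt acc =>
    rw [h] at hok
    exact absurd hok not_false
  | read i j q1 =>
    rw [h] at hok
    refine ⟨V, subset_rfl, hV, hne, fun z _ => hok, ?_⟩
    exact (continuous_update j).comp_continuousOn
      (hr.prodMk ((continuous_apply i).comp he).continuousOn)
  | op F j q1 =>
    rw [h] at hok
    simp only [h] at hE
    obtain ⟨h1, h2⟩ := hdom F fun z hz => (hE z hz).1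
    refine ⟨V ∩ r ⁻¹' F.dom, inter_subset_left, h1, h2, fun z hz => ⟨hz.2, hok.2⟩, ?_⟩
    exact (continuous_update j).comp_continuousOn ((hr.mono inter_subset_left).prodMk
      (F.cont.comp (hr.mono inter_subset_left) fun z hz => hz.2))
  | test F k =>
    rw [h] at hok
    simp only [h] at hE
    obtain ⟨h1, h2⟩ := hdom F fun z hz => (hE z hz).1
    obtain ⟨U, hU⟩ : ∃ U, U = V ∩ r ⁻¹' F.dom := ⟨_, rfl⟩
    rw [← hU] at h1 h2
    have hUV : U ⊆ V := by
      rw [hU]
      exact inter_subset_left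
    have hg : ContinuousOn (fun z => F.val (r z)) U := by
      rw [hU]
      exact F.cont.comp (hr.mono inter_subset_left) fun z hz => hz.2
    have hUd : ∀ z ∈ U, r z ∈ F.dom := by
      rw [hU]
      exact fun z hz => hz.2
    have key : ∀ O : Set ℝ, IsOpen O → ∀ σ : SignType, (∀ x ∈ O, SignType.sign x = σ) →
        (∃ z ∈ U, F.val (r z) ∈ O) → ∃ V' ⊆ V, IsOpen V' ∧ V'.Nonempty ∧
          (∀ z ∈ V', r z ∈ F.dom ∧ q = k (SignType.sign (F.val (r z)))) ∧ ContinuousOn r V' := by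
      intro O hO σ hσ hz
      have o1 : IsOpen (U ∩ (fun z => F.val (r z)) ⁻¹' O) := hg.isOpen_inter_preimage h1 hO
      have o2 : (U ∩ (fun z => F.val (r z)) ⁻¹' O).Nonempty := by
        obtain ⟨z, hz1, hz2⟩ := hz
        exact ⟨z, hz1, hz2⟩
      obtain ⟨y, hy1, hy2⟩ := meet _ (inter_subset_left.trans hUV) o1 o2
      have hq : q = k σ := by
        rw [(hE y hy2).2, hσ _ hy1.2]
      refine ⟨_, inter_subset_left.trans hUV, o1, o2, fun z hz => ⟨hUd z hz.1, ?_⟩,
        hr.mono (inter_subset_left.trans hUV)⟩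
      rw [hq, hσ _ hz.2]
    by_cases hp : ∃ z ∈ U, F.val (r z) ∈ Ioi (0 : ℝ)
    · exact key _ isOpen_Ioi 1 (fun x hx => sign_pos hx) hp
    by_cases hn : ∃ z ∈ U, F.val (r z) ∈ Iio (0 : ℝ)
    · exact key _ isOpen_Iio (-1) (fun x hx => sign_neg hx) hn
    push Not at hp hn
    have h0 : ∀ z ∈ U, F.val (r z) = 0 := by
      intro z hz
      have a1 := hp z hz
      have a2 := hn z hz
      rw [mem_Ioi, not_lt] at a1
      rw [mem_Iio, not_lt] at a2
      exact le_antisymm a1 a2
    obtain ⟨y, hy1, hy2⟩ := meet U hUV h1 h2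
    have hq := (hE y hy2).2
    rw [h0 y hy1] at hq
    refine ⟨U, hUV, h1, h2, fun z hz => ⟨hUd z hz, ?_⟩, hr.mono hUV⟩
    rw [h0 z hz, hq]
  | guess S =>
    rw [h] at hok
    exact ⟨V, subset_rfl, hV, hne, fun z _ => hok, hr⟩
  | print k j q1 =>
    rw [h] at hok
    exact ⟨V, subset_rfl, hV, hne, fun z _ => hok, hr⟩

/-- a path which is possible on a dense subset of an open set is possible on an open subset, and
there the contents of the registers are continuous -/
theorem shrink (P : Prog N p s Q) (e : Z → Fin N → ℝ) (he : Continuous e) (q : Q)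
    (l : List Q) : ∀ (r : Z → Fin s → ℝ) (V E : Set Z), IsOpen V → V.Nonempty →
    ContinuousOn r V → (∀ z ∈ E, Path P (e z) l (r z) q) → V ⊆ closure E →
    ∃ V' ⊆ V, IsOpen V' ∧ V'.Nonempty ∧ (∀ z ∈ V', Path P (e z) l (r z) q) ∧
      ∀ l1 l2, l = l1 ++ l2 → ContinuousOn (fun z => regs P (e z) l1 (r z)) V' := by
  induction l with
  | nil =>
    intro r V E hV hne hr _ _
    refine ⟨V, subset_rfl, hV, hne, fun _ _ => trivial, ?_⟩
    intro l1 l2 h
    have : l1 = [] := by
      cases l1 with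
      | nil => rfl
      | cons a l1 => cases h
    subst this
    exact hr
  | cons a l ih =>
    intro r V E hV hne hr hE hVE
    obtain ⟨V1, b1, b2, b3, b4, b5⟩ := shrink_one P e he a (l.headD q) r V E hV hne hr
      (fun z hz => (hE z hz).1) hVE
    obtain ⟨V2, c1, c2, c3, c4, c5⟩ := ih (fun z => upd P (e z) a (r z)) V1 E b2 b3 b5
      (fun z hz => (hE z hz).2) (b1.trans hVE)
    refine ⟨V2, c1.trans b1, c2, c3, fun z hz => ⟨b4 z (c1 hz), c4 z hz⟩, ?_⟩
    intro l1 l2 h
    cases l1 with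
    | nil => exact hr.mono (c1.trans b1)
    | cons x l1 =>
      rw [List.cons_append, List.cons.injEq] at h
      obtain ⟨rfl, h⟩ := h
      exact c5 l1 l2 h

/-- If there is a computation for every input in a family, then one path is possible on a nonempty
open set. -/
theorem exists_path [BaireSpace Z] [Nonempty Z] [Countable Q] (P : Prog N p s Q)
    (e : Z → Fin N → ℝ) (he : Continuous e) (C : List Q × Q → Z → Prop)
    (h : ∀ z, ∃ w, C w z ∧ Path P (e z) w.1 0 w.2) :
    ∃ w V, IsOpen V ∧ V.Nonempty ∧ (∀ z ∈ V, Path P (e z) w.1 0 w.2) ∧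
      (∀ l1 l2, w.1 = l1 ++ l2 → ContinuousOn (fun z => regs P (e z) l1 0) V) ∧
      V ⊆ closure {z | C w z} := by
  obtain ⟨w, hw⟩ := nonempty_interior_of_iUnion_of_closed
    (f := fun w : List Q × Q => closure {z | C w z ∧ Path P (e z) w.1 0 w.2})
    (fun _ => isClosed_closure) (by
      rw [eq_univ_iff_forall]
      intro z
      obtain ⟨w, hw⟩ := h z
      rw [mem_iUnion]
      exact ⟨w, subset_closure hw⟩)
  obtain ⟨V, c1, c2, c3, c4, c5⟩ := shrink P e he w.2 w.1 (fun _ => 0) _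
    {z | C w z ∧ Path P (e z) w.1 0 w.2} isOpen_interior hw continuousOn_const
    (fun z hz => hz.2) interior_subset
  exact ⟨w, V, c2, c3, c4, c5, (c1.trans interior_subset).trans (closure_mono fun z hz => hz.1)⟩

end Pool.Agent.R532.Rr
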