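import Pool.Agent.R532.RrBaire
import Pool.Agent.R532.ParModels
import Pool.Agent.Helper325.BorsukUlam

/-!
# Mixed inputs
-/

set_option autoImplicit false

namespace Pool.Agent.R532.Rr

open Finset

/-- **Borsuk-Ulam**: a continuous function with few real values takes one value at two opposite
points. -/
theorem bu {ι : Type} [Fintype ι] (m : ℕ) (hm : Fintype.card ι ≤ m)
    (R : (Fin (m + 1) → ℝ) → ι → ℝ) (hR : Continuous R) : ∃ v, v ≠ 0 ∧ R v = R (-v) := by
  obtain ⟨e⟩ : Nonempty (ι ≃ Fin (Fintype.card ι)) := ⟨Fintype.equivFin ι⟩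
  obtain ⟨v, hv, hfv⟩ := Pool.Agent.Helper325.BorsukUlam.borsuk_ulam m
    (fun v j => if h : (j : ℕ) < Fintype.card ι then
      R v (e.symm ⟨j, h⟩) - R (-v) (e.symm ⟨j, h⟩) else 0)
    (by
      apply continuous_pi
      intro j
      split_ifs with h
      · exact ((continuous_apply _).comp hR).sub
          ((continuous_apply _).comp (hR.comp continuous_neg))
      · exact continuous_const)
    (by
      intro v
      funext j
      simp only [Pi.neg_apply]
      split_ifs with h
      · rw [neg_neg, neg_sub]
      · rw [neg_zero])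
  refine ⟨v, ?_, ?_⟩
  · rintro rfl
    simp [Pool.Agent.Helper325.BorsukUlam.K] at hv
  · funext i
    have h := congrFun hfv ⟨e i, (e i).2.trans_le hm⟩
    simp only [Fin.is_lt, dite_true, Fin.eta, Equiv.symm_apply_apply, Pi.zero_apply] at h
    exact sub_eq_zero.1 h

variable {N p s : ℕ} {Q : Type}

/-- the state reads the `i`-th number of the input -/
def Reads (P : Prog N p s Q) (a : Q) (i : Fin N) : Prop := ∃ j q, P.instr a = .read i j q

open Classical in
/-- the number which is read in a state, or a dummy -/
noncomputable def key (P : Prog N p s Q) (a : Q) : Fin (N + 1) :=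
  if h : ∃ i, Reads P a i then (Classical.choose h).castSucc else Fin.last N

theorem reads_unique (P : Prog N p s Q) {a : Q} {i i' : Fin N} (h : Reads P a i)
    (h' : Reads P a i') : i = i' := by
  obtain ⟨j, q, h⟩ := h
  obtain ⟨j', q', h'⟩ := h'
  rw [h] at h'
  injection h'

theorem key_eq_iff (P : Prog N p s Q) (a : Q) (i : Fin N) :
    key P a = i.castSucc ↔ Reads P a i := by
  unfold key
  constructor
  · intro h
    split_ifs at h with h1
    · have := Classical.choose_spec h1
      rw [Fin.castSucc_inj.1 h] at this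
      exact this
    · exact absurd h.symm (Fin.castSucc_lt_last i).ne
  · intro h
    have h1 : ∃ i, Reads P a i := ⟨i, h⟩
    rw [dif_pos h1]
    exact congrArg Fin.castSucc (reads_unique P (Classical.choose_spec h1) h)

theorem upd_congr (P : Prog N p s Q) (a : Q) (b b' : Fin N → ℝ)
    (h : ∀ i, Reads P a i → b i = b' i) (ρ : Fin s → ℝ) : upd P b a ρ = upd P b' a ρ := by
  unfold upd
  cases ha : P.instr a with
  | read i j q => simp only [h i ⟨j, q, ha⟩]
  | _ => rfl

theorem path_congr (P : Prog N p s Q) (b b' : Fin N → ℝ) (q : Q) (l : List Q) :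
    ∀ ρ : Fin s → ℝ, (∀ a ∈ l, ∀ i, Reads P a i → b i = b' i) → Path P b l ρ q →
      Path P b' l ρ q ∧ regs P b l ρ = regs P b' l ρ := by
  induction l with
  | nil => intro ρ _ _; exact ⟨trivial, rfl⟩
  | cons a l ih =>
    intro ρ hl h
    have e := upd_congr P a b b' (hl a (List.mem_cons_self ..)) ρ
    obtain ⟨h1, h2⟩ := ih (upd P b a ρ) (fun x hx => hl x (List.mem_cons_of_mem _ hx)) h.2
    refine ⟨⟨h.1, ?_⟩, ?_⟩
    · rw [← e]
      exact h1
    · show regs P b l (upd P b a ρ) = regs P b' l (upd P b' a ρ)
      rw [← e]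
      exact h2

/-- two computations with the same path and the same contents of the registers between the parts can
be mixed -/
theorem mix (P : Prog N p s Q) (x x' z : Fin N → ℝ) (q : Q) (L : List (List Q)) :
    ∀ ρ : Fin s → ℝ, (∀ t ∈ L, (∀ a ∈ t, ∀ i, Reads P a i → x i = z i) ∨
      (∀ a ∈ t, ∀ i, Reads P a i → x' i = z i)) →
    Path P x L.flatten ρ q → Path P x' L.flatten ρ q →
    (∀ L1 L2, L = L1 ++ L2 → regs P x L1.flatten ρ = regs P x' L1.flatten ρ) →
    Path P z L.flatten ρ q := by
  induction L with
  | nil => intro ρ _ _ _ _; exact trivial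
  | cons t L ih =>
    intro ρ ht hx hx' hreg
    rw [List.flatten_cons, path_append] at hx hx' ⊢
    have e0 : regs P x t ρ = regs P x' t ρ := by
      have := hreg [t] L rfl
      rwa [List.flatten_cons, List.flatten_nil, List.append_nil] at this
    have hrest : ∀ L1 L2, L = L1 ++ L2 →
        regs P x L1.flatten (regs P x t ρ) = regs P x' L1.flatten (regs P x t ρ) := by
      intro L1 L2 h
      have := hreg (t :: L1) L2 (by rw [h]; rfl)
      rw [List.flatten_cons, regs_append, regs_append, ← e0] at this
      exact this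
    have hpx' : Path P x' L.flatten (regs P x t ρ) q := by
      rw [e0]
      exact hx'.2
    have hrec := ih (regs P x t ρ) (fun t' ht' => ht t' (List.mem_cons_of_mem _ ht')) hx.2 hpx'
      hrest
    rcases ht t (List.mem_cons_self ..) with h | h
    · obtain ⟨h1, h2⟩ := path_congr P x z _ t ρ h hx.1
      rw [← h2]
      exact ⟨h1, hrec⟩
    · obtain ⟨h1, h2⟩ := path_congr P x' z _ t ρ h hx'.1
      rw [← h2, ← e0]
      exact ⟨h1, hrec⟩

/-- the numbers which are read often -/
theorem card_often (P : Prog N p s Q) (l : List Q) (n h T : ℕ) (g : Fin n → Fin N)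
    (hg : Function.Injective g) (hT : rd P l ≤ T) :
    #{j : Fin n | h + 1 ≤ (l.map (key P)).count (g j).castSucc} ≤ T / (h + 1) := by
  classical
  rw [Nat.le_div_iff_mul_le (by omega)]
  refine le_trans ?_ hT
  have e1 : ∀ j : Fin n, (l.map (key P)).count (g j).castSucc =
      l.countP fun a => decide (key P a = (g j).castSucc) := by
    intro j
    rw [List.count, List.countP_map]
    rfl
  calc #{j : Fin n | h + 1 ≤ (l.map (key P)).count (g j).castSucc} * (h + 1)
      = ∑ _j ∈ univ.filter (fun j : Fin n => h + 1 ≤ (l.map (key P)).count (g j).castSucc),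
          (h + 1) := by rw [sum_const, smul_eq_mul]
    _ ≤ ∑ j ∈ univ.filter (fun j : Fin n => h + 1 ≤ (l.map (key P)).count (g j).castSucc),
          (l.map (key P)).count (g j).castSucc := by
        apply sum_le_sum
        intro j hj
        exact (mem_filter.1 hj).2
    _ ≤ ∑ j : Fin n, (l.map (key P)).count (g j).castSucc :=
        sum_le_sum_of_subset (filter_subset _ _)
    _ ≤ rd P l := by
        simp only [e1]
        unfold rd
        induction l with
        | nil => simp
        | cons a l ih =>
          simp only [List.countP_cons, sum_add_distrib]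
          refine Nat.add_le_add (ih ?_ ?_) ?_
          · refine le_trans ?_ hT
            unfold rd
            rw [List.countP_cons]
            exact Nat.le_add_right _ _
          · intro j
            rw [List.count, List.countP_map]
            rfl
          · by_cases hr : ∃ i, Reads P a i
            · obtain ⟨i, hi⟩ := hr
              have hread : (P.instr a).IsRead := by
                obtain ⟨j, q, hq⟩ := hi
                exact ⟨i, j, q, hq⟩
              rw [decide_eq_true hread, if_pos rfl]
              by_cases hgi : ∃ j, g j = i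
              · obtain ⟨j, rfl⟩ := hgi
                rw [sum_eq_single j]
                · split_ifs <;> simp
                · intro j' _ hj'
                  rw [if_neg]
                  rw [decide_eq_true_eq, (key_eq_iff P a (g j)).2 hi, Fin.castSucc_inj]
                  exact fun h => hj' (hg h.symm)
                · intro hj
                  exact absurd (mem_univ _) hj
              · rw [sum_eq_zero]
                · exact Nat.zero_le _
                · intro j _
                  rw [if_neg]
                  rw [decide_eq_true_eq, (key_eq_iff P a i).2 hi, Fin.castSucc_inj]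
                  exact fun h => hgi ⟨j, h.symm⟩
            · rw [sum_eq_zero]
              · exact Nat.zero_le _
              · intro j _
                rw [if_neg]
                rw [decide_eq_true_eq, key_eq_iff]
                exact fun h => hr ⟨_, h⟩

/-- the parts of a path -/
theorem exists_parts' (P : Prog N p s Q) (l : List Q) (n h T m : ℕ) (hh : 1 ≤ h)
    (g : Fin n → Fin N) (hg : Function.Injective g) (hT : rd P l ≤ T)
    (hcard : 2 * (4 ^ h * m) + T / (h + 1) ≤ n) :
    ∃ (A A' : Finset (Fin n)) (L : List (List Q)), m ≤ A.card ∧ m ≤ A'.card ∧ Disjoint A A' ∧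
      L.flatten = l ∧ L.length ≤ 2 * h ∧
      ∀ t ∈ L, (∀ a ∈ t, ∀ i ∈ A, ¬ Reads P a (g i)) ∨ (∀ a ∈ t, ∀ i ∈ A', ¬ Reads P a (g i)) := by
  classical
  have hbad := card_often P l n h T g hg hT
  obtain ⟨good, hgood⟩ : ∃ good : Finset (Fin n), good = univ.filter fun j : Fin n =>
    ¬ h + 1 ≤ (l.map (key P)).count (g j).castSucc := ⟨_, rfl⟩
  have hgc : 2 * (4 ^ h * m) ≤ good.card := by
    have h1 := Finset.card_filter_add_card_filter_not (s := (univ : Finset (Fin n)))
      (fun j => h + 1 ≤ (l.map (key P)).count (g j).castSucc)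
    rw [card_univ, Fintype.card_fin] at h1
    rw [hgood]
    omega
  obtain ⟨B, hB, hBc⟩ := Finset.exists_subset_card_eq (s := good) (n := 4 ^ h * m) (by omega)
  obtain ⟨B', hB', hBc'⟩ := Finset.exists_subset_card_eq (s := good \ B) (n := 4 ^ h * m) (by
    rw [card_sdiff_of_subset hB]
    omega)
  obtain ⟨f, hf⟩ : ∃ f : Fin n ↪ Fin (N + 1), ∀ i, f i = (g i).castSucc :=
    ⟨⟨fun i => (g i).castSucc, fun a b hab => hg (Fin.castSucc_inj.1 hab)⟩, fun _ => rfl⟩
  have hdis : Disjoint (B.map f) (B'.map f) := by
    rw [disjoint_map]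
    exact disjoint_of_subset_right hB' disjoint_sdiff
  have hcnt : ∀ D ⊆ good, ∀ a ∈ D.map f,
      ((l.map fun a => (key P a, a)).map Prod.fst).count a ≤ h := by
    intro D hD a ha
    rw [mem_map] at ha
    obtain ⟨i, hi, rfl⟩ := ha
    have h1 := hD hi
    rw [hgood, mem_filter] at h1
    have e : (l.map fun a => (key P a, a)).map Prod.fst = l.map (key P) := by
      rw [List.map_map]
      rfl
    rw [e, hf]
    omega
  have hpow : 2 ^ (2 * h) * m = 4 ^ h * m := by rw [pow_mul]; norm_num
  obtain ⟨A₁, A₁', parts, p1, p2, p3, p4, p5, p6, p7⟩ :=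
    Pool.Agent.R532.Par.exists_parts m (2 * h) h h (by omega) (l.map fun a => (key P a, a))
      (B.map f) (B'.map f) hdis (hcnt B hB) (hcnt B' (hB'.trans sdiff_subset))
      (by rw [card_map, hBc, hpow]) (by rw [card_map, hBc', hpow])
  have hpull : ∀ (D : Finset (Fin n)) (D₁ : Finset (Fin (N + 1))), D₁ ⊆ D.map f →
      (univ.filter fun i => f i ∈ D₁).card = D₁.card := by
    intro D D₁ hD
    rw [← card_map f]
    congr 1
    ext a
    rw [mem_map]
    constructor
    · rintro ⟨i, hi, rfl⟩
      exact (mem_filter.1 hi).2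
    · intro ha
      obtain ⟨i, _, rfl⟩ := mem_map.1 (hD ha)
      exact ⟨i, mem_filter.2 ⟨mem_univ _, ha⟩, rfl⟩
  refine ⟨univ.filter fun i => f i ∈ A₁, univ.filter fun i => f i ∈ A₁',
    parts.map (List.map Prod.snd), ?_, ?_, ?_, ?_, ?_, ?_⟩
  · rw [hpull B A₁ p1]
    exact p3
  · rw [hpull B' A₁' p2]
    exact p4
  · rw [Finset.disjoint_left]
    intro i hi hi'
    rw [mem_filter] at hi hi'
    exact Finset.disjoint_left.1 hdis (p1 hi.2) (p2 hi'.2)
  · rw [← List.map_flatten, p5, List.map_map]
    exact List.map_id _
  · rw [List.length_map]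
    exact p6.trans (by omega)
  · intro t ht
    obtain ⟨t', ht', rfl⟩ := List.mem_map.1 ht
    have hfst : ∀ a ∈ t', a.1 = key P a.2 := by
      intro a ha
      have h1 : a ∈ parts.flatten := List.mem_flatten.2 ⟨t', ht', ha⟩
      rw [p5] at h1
      obtain ⟨x, _, rfl⟩ := List.mem_map.1 h1
      rfl
    rcases p7 t' ht' with h1 | h1
    · left
      intro a ha i hi hr
      obtain ⟨c, hc, rfl⟩ := List.mem_map.1 ha
      apply h1 c hc
      rw [hfst c hc, (key_eq_iff P c.2 (g i)).2 hr, ← hf]
      exact (mem_filter.1 hi).2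
    · right
      intro a ha i hi hr
      obtain ⟨c, hc, rfl⟩ := List.mem_map.1 ha
      apply h1 c hc
      rw [hfst c hc, (key_eq_iff P c.2 (g i)).2 hr, ← hf]
      exact (mem_filter.1 hi).2

end Pool.Agent.R532.Rr
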