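import Pool.Agent.R532.RrSearch

/-!
# Many registers or many readings
-/

set_option autoImplicit false

namespace Pool.Agent.R532.Rr

open Matrix

/-- **Registers versus readings**, asymptotic form. -/
theorem decision_log (ε : ℝ) (hε : 0 < ε) (hε1 : ε ≤ 1) : ∃ c : ℝ, 0 < c ∧ ∃ n₀ : ℕ, ∀ n ≥ n₀,
    ∃ r ≤ n, ∀ (Q : Type) [Countable Q] (p s T : ℕ) (P : Prog (n + r) p s Q),
      (∀ b, P.Accepts T b ↔ ∃ y : Fin n → ℝ, b ≤ mat n r *ᵥ y) → (s : ℝ) ≤ (n : ℝ) ^ (1 - ε) →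
        c * n * Real.log n ≤ T := by
  refine ⟨ε / 12, by positivity, ⌈(448 : ℝ) ^ (2 / ε)⌉₊ + 1, ?_⟩
  intro n hn
  obtain ⟨x, hx⟩ : ∃ x : ℝ, x = n := ⟨_, rfl⟩
  have hxn : (448 : ℝ) ^ (2 / ε) ≤ x := by
    rw [hx]
    refine (Nat.le_ceil _).trans ?_
    exact_mod_cast (by omega : ⌈(448 : ℝ) ^ (2 / ε)⌉₊ ≤ n)
  have hx1 : 1 ≤ x := by
    rw [hx]
    exact_mod_cast (by omega : 1 ≤ n)
  have hx0 : 0 < x := by linarith
  have hlog : 0 ≤ Real.log x := Real.log_nonneg hx1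
  obtain ⟨k0, hk0⟩ : ∃ k0 : ℕ, k0 = ⌊ε / 12 * Real.log x⌋₊ := ⟨_, rfl⟩
  refine ⟨n / 4 ^ (2 * (k0 + 1) + 1), Nat.div_le_self _ _, ?_⟩
  intro Q _ p s T P hP hs
  rw [← hx] at hs ⊢
  by_contra hcon
  push Not at hcon
  have hfl : ε / 12 * Real.log x < k0 + 1 := by
    rw [hk0]
    exact Nat.lt_floor_add_one _
  have hfl2 : (k0 : ℝ) ≤ ε / 12 * Real.log x := by
    rw [hk0]
    exact Nat.floor_le (by positivity)
  have hT : T ≤ (k0 + 1) * n := by
    have h1 : (T : ℝ) ≤ ((k0 + 1 : ℕ) : ℝ) * n := by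
      rw [← hx]
      push_cast
      nlinarith
    exact_mod_cast h1
  have hdec := decision n (k0 + 1) (n / 4 ^ (2 * (k0 + 1) + 1)) T (by omega)
    (Nat.mul_div_le n _) hT P hP
  have hlt : n < 4 ^ (2 * (k0 + 1) + 1) * (4 * (k0 + 1) * s + 1) := by
    have h1 := Nat.lt_mul_div_succ n (show 0 < 4 ^ (2 * (k0 + 1) + 1) by positivity)
    exact h1.trans_le (Nat.mul_le_mul_left _ (Nat.succ_le_succ hdec))
  have hlt' : x < 64 * 16 ^ k0 * (4 * (k0 + 1) * s + 1) := by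
    have h1 : ((n : ℕ) : ℝ) < ((4 ^ (2 * (k0 + 1) + 1) * (4 * (k0 + 1) * s + 1) : ℕ) : ℝ) := by
      exact_mod_cast hlt
    rw [← hx] at h1
    refine h1.trans_le (le_of_eq ?_)
    push_cast
    have : (4 : ℝ) ^ (2 * (k0 + 1) + 1) = 64 * 16 ^ k0 := by
      rw [show 2 * (k0 + 1) + 1 = 2 * k0 + 3 by ring, pow_add, pow_mul]
      norm_num
      ring
    rw [this]
  -- the powers of `x`
  obtain ⟨a, ha⟩ : ∃ a : ℝ, a = x ^ (ε / 4) := ⟨_, rfl⟩
  obtain ⟨y, hy⟩ : ∃ y : ℝ, y = x ^ (1 - ε) := ⟨_, rfl⟩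
  have ha1 : 1 ≤ a := by
    rw [ha]
    exact Real.one_le_rpow hx1 (by positivity)
  have hy1 : 1 ≤ y := by
    rw [hy]
    exact Real.one_le_rpow hx1 (by linarith)
  have hxy : x = y * a ^ 4 := by
    rw [hy, ha, ← Real.rpow_natCast (x ^ (ε / 4)), ← Real.rpow_mul hx0.le,
      ← Real.rpow_add hx0]
    have : (1 - ε + ε / 4 * ((4 : ℕ) : ℝ)) = 1 := by push_cast; ring
    rw [this, Real.rpow_one]
  have ha2 : 448 ≤ a ^ 2 := by
    have h1 : ((448 : ℝ) ^ (2 / ε)) ^ (ε / 2) ≤ x ^ (ε / 2) :=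
      Real.rpow_le_rpow (by positivity) hxn (by positivity)
    rw [← Real.rpow_mul (by norm_num)] at h1
    have h2 : 2 / ε * (ε / 2) = 1 := by field_simp
    rw [h2, Real.rpow_one] at h1
    have h3 : a ^ 2 = x ^ (ε / 2) := by
      rw [ha, ← Real.rpow_natCast (x ^ (ε / 4)), ← Real.rpow_mul hx0.le]
      congr 1
      push_cast
      ring
    rw [h3]
    exact h1
  have h16 : (16 : ℝ) ^ k0 ≤ a := by
    have h1 : (16 : ℝ) ^ k0 = Real.exp (Real.log 16 * k0) := by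
      rw [← Real.rpow_natCast, Real.rpow_def_of_pos (by norm_num)]
    rw [h1, ha, Real.rpow_def_of_pos hx0]
    apply Real.exp_le_exp.2
    have hl16 : Real.log 16 ≤ 3 := by
      rw [show (16 : ℝ) = 2 ^ 4 by norm_num, Real.log_pow]
      have := Real.log_two_lt_d9
      push_cast
      linarith
    have hl0 : 0 ≤ Real.log 16 := Real.log_nonneg (by norm_num)
    calc Real.log 16 * k0 ≤ 3 * k0 := by
          apply mul_le_mul_of_nonneg_right hl16
          positivity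
      _ ≤ 3 * (ε / 12 * Real.log x) := by linarith
      _ = Real.log x * (ε / 4) := by ring
  have hk : (k0 : ℝ) ≤ a / 3 := by
    refine hfl2.trans ?_
    have h1 := Real.log_le_rpow_div hx0.le (show 0 < ε / 4 by positivity)
    rw [← ha] at h1
    calc ε / 12 * Real.log x ≤ ε / 12 * (a / (ε / 4)) :=
          mul_le_mul_of_nonneg_left h1 (by positivity)
      _ = a / 3 := by
          field_simp
          norm_num
  rw [← hy] at hs
  have hs0 : (0 : ℝ) ≤ s := Nat.cast_nonneg s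
  have hfin : x < 448 * a ^ 2 * y := by
    calc x < 64 * 16 ^ k0 * (4 * (k0 + 1) * s + 1) := hlt'
      _ ≤ 64 * a * (4 * (k0 + 1) * s + 1) := by
          apply mul_le_mul_of_nonneg_right
          · linarith
          · positivity
      _ ≤ 64 * a * (7 * a * y) := by
          apply mul_le_mul_of_nonneg_left _ (by positivity)
          have h1 : 4 * ((k0 : ℝ) + 1) * s ≤ 6 * a * y := by
            have h2 : 4 * ((k0 : ℝ) + 1) ≤ 6 * a := by linarith
            calc 4 * ((k0 : ℝ) + 1) * s ≤ 6 * a * s := mul_le_mul_of_nonneg_right h2 hs0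
              _ ≤ 6 * a * y := mul_le_mul_of_nonneg_left hs (by positivity)
          have h3 : 1 ≤ a * y := by nlinarith
          linarith
      _ = 448 * a ^ 2 * y := by ring
  have hfin2 : 448 * a ^ 2 * y ≤ x := by
    rw [hxy]
    have h1 : 448 * (a ^ 2 * y) ≤ a ^ 2 * (a ^ 2 * y) :=
      mul_le_mul_of_nonneg_right ha2 (by positivity)
    calc 448 * a ^ 2 * y = 448 * (a ^ 2 * y) := by ring
      _ ≤ a ^ 2 * (a ^ 2 * y) := h1
      _ = y * a ^ 4 := by ring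
  linarith

end Pool.Agent.R532.Rr
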