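import Pool.Agent.R532.RrMain

/-!
# Linear feasibility: registers versus readings
-/

set_option autoImplicit false

namespace Pool.Agent.R532.Rr

open Finset Matrix

/-- The matrix of the system `y i ≥ b i` (`i < n`), `-∑ i, (i + 1) ^ j * y i ≥ b (n + j)`
(`j < r`). -/
def mat (n r : ℕ) : Matrix (Fin (n + r)) (Fin n) ℝ := fun i j =>
  Fin.addCases (fun i : Fin n => if i = j then (1 : ℝ) else 0)
    (fun i : Fin r => -((j : ℝ) + 1) ^ (i : ℕ)) i

theorem mat_left (n r : ℕ) (i : Fin n) (y : Fin n → ℝ) :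
    (mat n r *ᵥ y) (Fin.castAdd r i) = y i := by
  simp [mat, mulVec, dotProduct]

theorem mat_right (n r : ℕ) (i : Fin r) (y : Fin n → ℝ) :
    (mat n r *ᵥ y) (Fin.natAdd n i) = -∑ j : Fin n, ((j : ℝ) + 1) ^ (i : ℕ) * y j := by
  simp [mat, mulVec, dotProduct, sum_neg_distrib]

theorem feas_iff (n r : ℕ) (b : Fin (n + r) → ℝ) (hb : ∀ j : Fin r, b (Fin.natAdd n j) = 0) :
    (∃ y : Fin n → ℝ, b ≤ mat n r *ᵥ y) ↔
      ∀ j : Fin r, ∑ i : Fin n, ((i : ℝ) + 1) ^ (j : ℕ) * b (Fin.castAdd r i) ≤ 0 := by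
  constructor
  · rintro ⟨y, hy⟩ j
    have h1 := hy (Fin.natAdd n j)
    rw [hb, mat_right] at h1
    have h2 : ∑ i : Fin n, ((i : ℝ) + 1) ^ (j : ℕ) * b (Fin.castAdd r i) ≤
        ∑ i : Fin n, ((i : ℝ) + 1) ^ (j : ℕ) * y i := by
      apply sum_le_sum
      intro i _
      apply mul_le_mul_of_nonneg_left _ (by positivity)
      have := hy (Fin.castAdd r i)
      rwa [mat_left] at this
    linarith
  · intro h
    refine ⟨fun i => b (Fin.castAdd r i), ?_⟩
    intro i
    refine Fin.addCases (fun i => ?_) (fun i => ?_) i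
    · rw [mat_left]
    · rw [mat_right, hb]
      have := h i
      linarith

/-- the values `∑ i, (i + 1) ^ j * b i` -/
def lam (n r N : ℕ) (g : Fin n → Fin N) : (Fin N → ℝ) →ₗ[ℝ] (Fin r → ℝ) where
  toFun b j := ∑ i : Fin n, ((i : ℝ) + 1) ^ (j : ℕ) * b (g i)
  map_add' b b' := by
    funext j
    simp only [Pi.add_apply, mul_add, sum_add_distrib]
  map_smul' c b := by
    funext j
    simp only [Pi.smul_apply, smul_eq_mul, RingHom.id_apply, mul_sum]
    exact sum_congr rfl fun i _ => by ring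

/-- linear functions with small support on which the values are arbitrary -/
theorem exists_right (n r N : ℕ) (g : Fin n → Fin N) (hg : Function.Injective g)
    (A : Finset (Fin n)) (hA : r ≤ A.card) :
    ∃ α : (Fin r → ℝ) →ₗ[ℝ] (Fin N → ℝ), (∀ u, lam n r N g (α u) = u) ∧
      ∀ u i, (∀ a ∈ A, g a ≠ i) → α u i = 0 := by
  classical
  obtain ⟨B, hB, hBc⟩ := Finset.exists_subset_card_eq hA
  obtain ⟨f, hf, hfB⟩ : ∃ f : Fin r → Fin n, Function.Injective f ∧ ∀ k, f k ∈ B :=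
    ⟨fun k => B.orderEmbOfFin hBc k, (B.orderEmbOfFin hBc).injective,
      fun k => B.orderEmbOfFin_mem hBc k⟩
  obtain ⟨M, hM⟩ : ∃ M : Matrix (Fin r) (Fin r) ℝ,
      M = (Matrix.vandermonde fun k => ((f k : ℕ) : ℝ) + 1)ᵀ := ⟨_, rfl⟩
  have hMi : ∀ j k, M j k = (((f k : ℕ) : ℝ) + 1) ^ (j : ℕ) := by
    intro j k
    rw [hM]
    rfl
  have hdet : IsUnit M.det := by
    rw [hM, Matrix.det_transpose, isUnit_iff_ne_zero, Matrix.det_vandermonde_ne_zero_iff]
    intro a b hab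
    simp only [add_left_inj, Nat.cast_inj] at hab
    exact hf (Fin.ext hab)
  refine ⟨∑ k, ((LinearMap.proj k).comp (Matrix.mulVecLin M⁻¹)).smulRight
    (Pi.single (g (f k)) (1 : ℝ)), ?_, ?_⟩
  · intro u
    have h1 : ∀ k, lam n r N g (Pi.single (g (f k)) (1 : ℝ)) = fun j => M j k := by
      intro k
      funext j
      show ∑ i : Fin n, ((i : ℝ) + 1) ^ (j : ℕ) * (Pi.single (g (f k)) (1 : ℝ) : Fin N → ℝ) (g i)
        = _
      rw [sum_eq_single (f k), Pi.single_eq_same, mul_one, hMi]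
      · intro i _ hi
        rw [Pi.single_eq_of_ne (fun h => hi (hg h)), mul_zero]
      · intro h
        exact absurd (mem_univ _) h
    rw [LinearMap.sum_apply, map_sum]
    simp only [LinearMap.smulRight_apply, LinearMap.comp_apply, LinearMap.proj_apply, map_smul, h1]
    have h2 : M *ᵥ (M⁻¹ *ᵥ u) = u := by
      rw [Matrix.mulVec_mulVec, Matrix.mul_nonsing_inv _ hdet, Matrix.one_mulVec]
    conv_rhs => rw [← h2]
    funext j
    rw [Finset.sum_apply]
    simp only [Pi.smul_apply, smul_eq_mul, Matrix.mulVecLin_apply]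
    show _ = ∑ k, M j k * (M⁻¹ *ᵥ u) k
    exact sum_congr rfl fun k _ => mul_comm _ _
  · intro u i hi
    rw [LinearMap.sum_apply, Finset.sum_apply]
    apply sum_eq_zero
    intro k _
    rw [LinearMap.smulRight_apply, Pi.smul_apply, Pi.single_eq_of_ne, smul_zero]
    exact fun h => hi (f k) (hB (hfB k)) h.symm

/-- **Registers versus readings for linear feasibility.** -/
theorem decision {Q : Type} [Countable Q] {p s : ℕ} (n k r T : ℕ) (hk : 1 ≤ k)
    (hr : 4 ^ (2 * k + 1) * r ≤ n) (hT : T ≤ k * n) (P : Prog (n + r) p s Q)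
    (h : ∀ b, P.Accepts T b ↔ ∃ y : Fin n → ℝ, b ≤ mat n r *ᵥ y) : r ≤ 4 * k * s := by
  by_contra hcon
  push Not at hcon
  obtain ⟨m, rfl⟩ : ∃ m, r = m + 1 := ⟨r - 1, by omega⟩
  have hg : Function.Injective (Fin.castAdd (m + 1) : Fin n → Fin (n + (m + 1))) :=
    Fin.castAdd_injective n (m + 1)
  obtain ⟨Z, hZ⟩ : ∃ Z : Submodule ℝ (Fin (n + (m + 1)) → ℝ), ∀ b, b ∈ Z ↔
      (∀ j, b (Fin.natAdd n j) = 0) ∧ lam n (m + 1) _ (Fin.castAdd (m + 1)) b = 0 := by
    refine ⟨{ carrier := {b | (∀ j, b (Fin.natAdd n j) = 0) ∧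
                lam n (m + 1) _ (Fin.castAdd (m + 1)) b = 0}
              add_mem' := ?_, zero_mem' := ?_, smul_mem' := ?_ }, fun b => Iff.rfl⟩
    · rintro a b ⟨a1, a2⟩ ⟨b1, b2⟩
      refine ⟨fun j => ?_, ?_⟩
      · rw [Pi.add_apply, a1, b1, add_zero]
      · rw [map_add, a2, b2, add_zero]
    · exact ⟨fun j => rfl, map_zero _⟩
    · rintro c b ⟨b1, b2⟩
      refine ⟨fun j => ?_, ?_⟩
      · rw [Pi.smul_apply, b1, smul_zero]
      · rw [map_smul, b2, smul_zero]
  obtain ⟨b, hb, u, hu, w, hw, hwu, a1, a2⟩ := fool P T (2 * k) m (by omega)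
    (Fin.castAdd (m + 1)) hg (lam n (m + 1) _ (Fin.castAdd (m + 1))) Z
    (by
      intro w h1 h2
      rw [hZ]
      refine ⟨fun j => h1 _ fun a ha => ?_, h2⟩
      have := congrArg Fin.val ha
      simp only [Fin.val_castAdd, Fin.val_natAdd] at this
      omega)
    (fun A hA => exists_right n (m + 1) _ _ hg A hA)
    (by
      intro b hb
      rw [hZ] at hb
      rw [h, feas_iff n (m + 1) b hb.1]
      intro j
      exact (congrFun hb.2 j).le)
    (by
      have h1 : k * n / (2 * k + 1) * 2 ≤ n := by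
        have h2 : k * n / (2 * k + 1) * (2 * k + 1) ≤ k * n := Nat.div_mul_le_self _ _
        have h3 : k * (k * n / (2 * k + 1) * 2) ≤ k * n := by nlinarith
        exact Nat.le_of_mul_le_mul_left h3 (by omega)
      have h0 : T / (2 * k + 1) ≤ k * n / (2 * k + 1) := Nat.div_le_div_right hT
      have h2 : 4 ^ (2 * k + 1) = 4 * 4 ^ (2 * k) := by ring
      rw [h2] at hr
      have h3 : 4 * 4 ^ (2 * k) * (m + 1) = 2 * (2 * (4 ^ (2 * k) * (m + 1))) := by ring
      omega)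
    (by
      have : 2 * (2 * k) * s = 4 * k * s := by ring
      omega)
  rw [hZ] at hb
  have hwn : ∀ j, w (Fin.natAdd n j) = 0 := by
    intro j
    apply hw
    intro a ha
    have := congrArg Fin.val ha
    simp only [Fin.val_castAdd, Fin.val_natAdd] at this
    omega
  rw [h, feas_iff n (m + 1) _ (fun j => by rw [Pi.add_apply, hb.1, hwn, add_zero])] at a1
  rw [h, feas_iff n (m + 1) _ (fun j => by rw [Pi.sub_apply, hb.1, hwn, sub_zero])] at a2
  apply hu
  funext j
  have e1 : lam n (m + 1) _ (Fin.castAdd (m + 1)) (b + w) j ≤ 0 := a1 j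
  have e2 : lam n (m + 1) _ (Fin.castAdd (m + 1)) (b - w) j ≤ 0 := a2 j
  rw [map_add, hb.2, hwu, zero_add] at e1
  rw [map_sub, hb.2, hwu, zero_sub, Pi.neg_apply] at e2
  exact le_antisymm e1 (neg_nonpos.1 e2)

end Pool.Agent.R532.Rr
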