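import Pool.Agent.R532.RrFool

/-!
# Registers versus readings
-/

set_option autoImplicit false

namespace Pool.Agent.R532.Rr

open Finset

variable {N p s n m : ℕ} {Q : Type}

/-- The computations of a program with few registers and few readings which accepts all inputs in a
linear space also accept inputs outside the space, on both sides. -/
theorem fool [Countable Q] (P : Prog N p s Q) (T h m : ℕ) (hh : 1 ≤ h) (g : Fin n → Fin N)
    (hg : Function.Injective g) (Λ : (Fin N → ℝ) →ₗ[ℝ] (Fin (m + 1) → ℝ))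
    (Z : Submodule ℝ (Fin N → ℝ))
    (hZ : ∀ w : Fin N → ℝ, (∀ i, (∀ a, g a ≠ i) → w i = 0) → Λ w = 0 → w ∈ Z)
    (hΛ : ∀ A : Finset (Fin n), m + 1 ≤ A.card →
      ∃ α : (Fin (m + 1) → ℝ) →ₗ[ℝ] (Fin N → ℝ), (∀ u, Λ (α u) = u) ∧
        ∀ u i, (∀ a ∈ A, g a ≠ i) → α u i = 0)
    (hacc : ∀ b ∈ Z, P.Accepts T b) (hcard : 2 * (4 ^ h * (m + 1)) + T / (h + 1) ≤ n)
    (hs : 2 * h * s ≤ m) :
    ∃ b ∈ Z, ∃ u : Fin (m + 1) → ℝ, u ≠ 0 ∧ ∃ w : Fin N → ℝ,
      (∀ i, (∀ a, g a ≠ i) → w i = 0) ∧ Λ w = u ∧ P.Accepts T (b + w) ∧ P.Accepts T (b - w) := by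
  classical
  haveI : CompleteSpace Z := FiniteDimensional.complete ℝ Z
  obtain ⟨⟨l, q⟩, V, hV, hVne, hpath, hreg, hcl⟩ := exists_path (Z := Z) P Subtype.val
    continuous_subtype_val (fun w _ => w.1.headD w.2 = P.start ∧ P.instr w.2 = .halt true ∧
      rd P w.1 ≤ T) (by
      intro z
      obtain ⟨l, q, h1, h2, h3, h4⟩ := (accepts_iff P T z.1).1 (hacc z.1 z.2)
      exact ⟨(l, q), ⟨h1, h3, h4⟩, h2⟩)
  obtain ⟨b, hb⟩ := hVne
  obtain ⟨_, _, hC⟩ := mem_closure_iff.1 (hcl hb) Set.univ isOpen_univ (Set.mem_univ _)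
  simp only [Set.mem_ofPred_eq] at hC
  obtain ⟨hstart, hhalt, hrd⟩ := hC
  simp only at hpath hreg
  obtain ⟨A, A', L, hA, hA', hdis, hflat, hlen, hparts⟩ :=
    exists_parts' P l n h T (m + 1) hh g hg hrd hcard
  obtain ⟨α, hα1, hα2⟩ := hΛ A hA
  obtain ⟨β, hβ1, hβ2⟩ := hΛ A' hA'
  obtain ⟨ε, hε, hball⟩ := Metric.isOpen_iff.1 hV b hb
  -- the inputs near `b`
  obtain ⟨δ, hδ⟩ : ∃ δ : (Fin (m + 1) → ℝ) →ₗ[ℝ] (Fin N → ℝ), δ = α - β := ⟨_, rfl⟩
  have hδv : ∀ v i, δ v i = α v i - β v i := by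
    intro v i
    rw [hδ]
    rfl
  have hδZ : ∀ v, δ v ∈ Z := by
    intro v
    apply hZ
    · intro i hi
      rw [hδv, hα2 v i (fun a _ => hi a), hβ2 v i (fun a _ => hi a), sub_zero]
    · rw [hδ, LinearMap.sub_apply, map_sub, hα1, hβ1, sub_self]
  have hδc : Continuous δ := LinearMap.continuous_of_finiteDimensional δ
  obtain ⟨τ, hτ⟩ : ∃ τ : (Fin (m + 1) → ℝ) → ℝ, ∀ v, τ v = ε / (1 + ‖δ v‖) :=
    ⟨fun v => ε / (1 + ‖δ v‖), fun _ => rfl⟩
  have hτpos : ∀ v, 0 < τ v := by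
    intro v
    rw [hτ]
    positivity
  have hτneg : ∀ v, τ (-v) = τ v := by
    intro v
    rw [hτ, hτ, map_neg, norm_neg]
  have hτc : Continuous τ := by
    have : τ = fun v => ε / (1 + ‖δ v‖) := funext hτ
    rw [this]
    exact continuous_const.div (continuous_const.add hδc.norm)
      (fun v => by positivity)
  obtain ⟨Φ, hΦ⟩ : ∃ Φ : (Fin (m + 1) → ℝ) → Z, ∀ v, Φ v = b + τ v • ⟨δ v, hδZ v⟩ :=
    ⟨fun v => b + τ v • ⟨δ v, hδZ v⟩, fun _ => rfl⟩
  have hΦc : Continuous Φ := by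
    have : Φ = fun v => b + τ v • ⟨δ v, hδZ v⟩ := funext hΦ
    rw [this]
    exact continuous_const.add (hτc.smul (hδc.subtype_mk _))
  have hΦV : ∀ v, Φ v ∈ V := by
    intro v
    apply hball
    rw [hΦ, Metric.mem_ball, dist_eq_norm, add_sub_cancel_left, norm_smul, Real.norm_eq_abs,
      abs_of_pos (hτpos v), hτ]
    have e : ‖(⟨δ v, hδZ v⟩ : Z)‖ = ‖δ v‖ := rfl
    rw [e, div_mul_eq_mul_div, div_lt_iff₀ (by positivity)]
    nlinarith [norm_nonneg (δ v)]
  have hΦi : ∀ v i, (Φ v : Fin N → ℝ) i = (b : Fin N → ℝ) i + τ v * (α v i - β v i) := by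
    intro v i
    rw [hΦ, ← hδv]
    rfl
  -- the contents of the registers between the parts
  obtain ⟨v, hv, hR⟩ := bu (ι := Fin L.length × Fin s) m
    (by
      rw [Fintype.card_prod, Fintype.card_fin, Fintype.card_fin]
      exact (Nat.mul_le_mul_right s hlen).trans hs)
    (fun v x => regs P (Φ v : Fin N → ℝ) (L.take (x.1 + 1)).flatten 0 x.2)
    (by
      apply continuous_pi
      rintro ⟨i, a⟩
      have h1 : l = (L.take (i + 1)).flatten ++ (L.drop (i + 1)).flatten := by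
        rw [← List.flatten_append, List.take_append_drop, hflat]
      have h2 := (hreg _ _ h1).comp_continuous hΦc hΦV
      exact (continuous_apply a).comp h2)
  have hregs : ∀ L1 L2, L = L1 ++ L2 →
      regs P (Φ v : Fin N → ℝ) L1.flatten 0 = regs P (Φ (-v) : Fin N → ℝ) L1.flatten 0 := by
    intro L1 L2 hL
    rcases Nat.eq_zero_or_pos L1.length with h0 | h0
    · rw [List.length_eq_zero_iff.1 h0]
      rfl
    · have hlt : L1.length - 1 < L.length := by
        rw [hL, List.length_append]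
        omega
      have htake : L.take (L1.length - 1 + 1) = L1 := by
        rw [Nat.sub_add_cancel h0, hL, List.take_left']
        rfl
      funext a
      have := congrFun hR (⟨L1.length - 1, hlt⟩, a)
      simp only [htake] at this
      exact this
  -- the mixed inputs
  have hmix : ∀ z : Fin N → ℝ,
      ((∀ i, (∀ a ∈ A', g a ≠ i) → z i = (Φ v : Fin N → ℝ) i) ∧
        (∀ i, (∀ a ∈ A, g a ≠ i) → z i = (Φ (-v) : Fin N → ℝ) i)) ∨
      ((∀ i, (∀ a ∈ A', g a ≠ i) → z i = (Φ (-v) : Fin N → ℝ) i) ∧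
        (∀ i, (∀ a ∈ A, g a ≠ i) → z i = (Φ v : Fin N → ℝ) i)) → P.Accepts T z := by
    intro z hz
    rw [accepts_iff]
    refine ⟨l, q, hstart, ?_, hhalt, hrd⟩
    have hp1 := hpath (Φ v) (hΦV v)
    have hp2 := hpath (Φ (-v)) (hΦV (-v))
    rw [← hflat] at hp1 hp2 ⊢
    apply mix P _ _ z q L 0 ?_ hp1 hp2 hregs
    intro t ht
    have ho : ∀ D : Finset (Fin n), (∀ a ∈ t, ∀ i ∈ D, ¬ Reads P a (g i)) →
        ∀ a ∈ t, ∀ i, Reads P a i → ∀ j ∈ D, g j ≠ i := by
      intro D hD a ha i hi j hj hji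
      exact hD a ha j hj (hji ▸ hi)
    rcases hz with ⟨z1, z2⟩ | ⟨z1, z2⟩
    · rcases hparts t ht with h1 | h1
      · right
        intro a ha i hi
        exact (z2 i (ho A h1 a ha i hi)).symm
      · left
        intro a ha i hi
        exact (z1 i (ho A' h1 a ha i hi)).symm
    · rcases hparts t ht with h1 | h1
      · left
        intro a ha i hi
        exact (z2 i (ho A h1 a ha i hi)).symm
      · right
        intro a ha i hi
        exact (z1 i (ho A' h1 a ha i hi)).symm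
  obtain ⟨w, hw⟩ : ∃ w : Fin N → ℝ, w = τ v • (α v + β v) := ⟨_, rfl⟩
  have hwi : ∀ i, w i = τ v * (α v i + β v i) := by
    intro i
    rw [hw]
    rfl
  have hneg : ∀ i, (Φ (-v) : Fin N → ℝ) i = (b : Fin N → ℝ) i - τ v * (α v i - β v i) := by
    intro i
    rw [hΦi, hτneg, map_neg, map_neg, Pi.neg_apply, Pi.neg_apply]
    ring
  refine ⟨b, b.2, (2 * τ v) • v, ?_, w, ?_, ?_, ?_, ?_⟩
  · rw [smul_ne_zero_iff]
    exact ⟨by have := hτpos v; positivity, hv⟩
  · intro i hi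
    rw [hwi, hα2 v i (fun a _ => hi a), hβ2 v i (fun a _ => hi a), add_zero, mul_zero]
  · rw [hw, map_smul, map_add, hα1, hβ1, ← two_smul ℝ v, smul_smul, mul_comm]
  · apply hmix
    left
    constructor
    · intro i hi
      rw [Pi.add_apply, hwi, hΦi, hβ2 v i hi, add_zero, sub_zero]
    · intro i hi
      rw [Pi.add_apply, hwi, hneg, hα2 v i hi]
      ring
  · apply hmix
    right
    constructor
    · intro i hi
      rw [Pi.sub_apply, hwi, hneg, hβ2 v i hi]
      ring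
    · intro i hi
      rw [Pi.sub_apply, hwi, hΦi, hα2 v i hi]
      ring

end Pool.Agent.R532.Rr
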