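import Mathlib

/-!
# Programs with real registers

The computation model of the time-space tradeoffs for linear feasibility.
-/

set_option autoImplicit false

namespace Pool.Agent.R532.Rr

open Finset

/-- A real function of the contents of `s` registers, continuous on an open domain. -/
structure Fn (s : ℕ) where
  /-- the domain -/
  dom : Set (Fin s → ℝ)
  /-- the domain is open -/
  isOpen : IsOpen dom
  /-- the function -/
  val : (Fin s → ℝ) → ℝ
  /-- it is continuous on the domain -/
  cont : ContinuousOn val dom

/-- The instructions of programs with `s` real registers for inputs which consist of `N` reals,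
which print some of `p` numbers. -/
inductive Instr (N p s : ℕ) (Q : Type)
  /-- stop, accepting the input or not -/
  | halt (acc : Bool)
  /-- read the `i`-th number of the input into the `j`-th register -/
  | read (i : Fin N) (j : Fin s) (q : Q)
  /-- write the value of a function of the contents of the registers into the `j`-th register -/
  | op (F : Fn s) (j : Fin s) (q : Q)
  /-- go to a state which depends on the sign of a function of the contents of the registers -/
  | test (F : Fn s) (q : SignType → Q)
  /-- go to any state of a set -/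
  | guess (S : Set Q)
  /-- print the content of the `j`-th register as the `k`-th number of the output -/
  | print (k : Fin p) (j : Fin s) (q : Q)

/-- A program: the set `Q` of its states can be infinite; every state has an instruction. -/
structure Prog (N p s : ℕ) (Q : Type) where
  /-- the first state -/
  start : Q
  /-- the instruction of a state -/
  instr : Q → Instr N p s Q

variable {N p s : ℕ} {Q : Type}

/-- One step of a program on the input `b`, from a state and a content of the registers. At the end
of a computation, and outside the domains of the functions, there is no step. -/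
def Prog.Step (P : Prog N p s Q) (b : Fin N → ℝ) (c c' : Q × (Fin s → ℝ)) : Prop :=
  match P.instr c.1 with
  | .halt _ => False
  | .read i j q => c' = (q, Function.update c.2 j (b i))
  | .op F j q => c.2 ∈ F.dom ∧ c' = (q, Function.update c.2 j (F.val c.2))
  | .test F k => c.2 ∈ F.dom ∧ c' = (k (SignType.sign (F.val c.2)), c.2)
  | .guess S => c'.1 ∈ S ∧ c'.2 = c.2
  | .print _ _ q => c' = (q, c.2)

/-- an instruction which reads a number of the input -/
def Instr.IsRead (I : Instr N p s Q) : Prop := ∃ i j q, I = .read i j q

/-- An accepting computation of `t` steps: all registers contain `0` at the beginning. -/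
def Prog.Comp (P : Prog N p s Q) (b : Fin N → ℝ) (t : ℕ) (c : ℕ → Q × (Fin s → ℝ)) : Prop :=
  c 0 = (P.start, 0) ∧ (∀ i < t, P.Step b (c i) (c (i + 1))) ∧
    P.instr (c t).1 = .halt true

open Classical in
/-- the number of readings in the first `t` steps -/
noncomputable def Prog.readings (P : Prog N p s Q) (t : ℕ) (c : ℕ → Q × (Fin s → ℝ)) : ℕ :=
  #{i ∈ range t | (P.instr (c i).1).IsRead}

/-- The program has an accepting computation with at most `T` readings. The number of the other
steps is not bounded. -/
def Prog.Accepts (P : Prog N p s Q) (T : ℕ) (b : Fin N → ℝ) : Prop :=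
  ∃ t c, P.Comp b t c ∧ P.readings t c ≤ T

/-- every coordinate of `x` is printed, and nothing else is printed -/
def Prog.Prints (P : Prog N p s Q) (x : Fin p → ℝ) (t : ℕ) (c : ℕ → Q × (Fin s → ℝ)) : Prop :=
  (∀ k, ∃ i < t, ∃ j q, P.instr (c i).1 = .print k j q) ∧
    ∀ i < t, ∀ k j q, P.instr (c i).1 = .print k j q → (c i).2 j = x k

/-! ### Computations as lists of states -/

/-- the content of the registers after the instruction of the state `q` -/
noncomputable def upd (P : Prog N p s Q) (b : Fin N → ℝ) (q : Q) (ρ : Fin s → ℝ) : Fin s → ℝ :=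
  match P.instr q with
  | .read i j _ => Function.update ρ j (b i)
  | .op F j _ => Function.update ρ j (F.val ρ)
  | _ => ρ

/-- a possible next state -/
def Ok (P : Prog N p s Q) (q : Q) (ρ : Fin s → ℝ) (q' : Q) : Prop :=
  match P.instr q with
  | .halt _ => False
  | .read _ _ q1 => q' = q1
  | .op F _ q1 => ρ ∈ F.dom ∧ q' = q1
  | .test F k => ρ ∈ F.dom ∧ q' = k (SignType.sign (F.val ρ))
  | .guess S => q' ∈ S
  | .print _ _ q1 => q' = q1

theorem step_iff (P : Prog N p s Q) (b : Fin N → ℝ) (q q' : Q) (ρ ρ' : Fin s → ℝ) :
    P.Step b (q, ρ) (q', ρ') ↔ Ok P q ρ q' ∧ ρ' = upd P b q ρ := by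
  unfold Prog.Step Ok upd
  cases h : P.instr q <;> simp only [Prod.mk.injEq, and_assoc, false_and]

/-- the computation passes the states of the list and goes to `q` -/
def Path (P : Prog N p s Q) (b : Fin N → ℝ) : List Q → (Fin s → ℝ) → Q → Prop
  | [], _, _ => True
  | a :: l, ρ, q => Ok P a ρ (l.headD q) ∧ Path P b l (upd P b a ρ) q

/-- the contents of the registers after the states of the list -/
noncomputable def regs (P : Prog N p s Q) (b : Fin N → ℝ) : List Q → (Fin s → ℝ) → (Fin s → ℝ)
  | [], ρ => ρ
  | a :: l, ρ => regs P b l (upd P b a ρ)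

theorem regs_append (P : Prog N p s Q) (b : Fin N → ℝ) (l l' : List Q) : ∀ ρ : Fin s → ℝ,
    regs P b (l ++ l') ρ = regs P b l' (regs P b l ρ) := by
  induction l with
  | nil => intro ρ; rfl
  | cons a l ih => intro ρ; exact ih _

theorem headD_append (l l' : List Q) (q : Q) : (l ++ l').headD q = l.headD (l'.headD q) := by
  cases l <;> rfl

theorem path_append (P : Prog N p s Q) (b : Fin N → ℝ) (l l' : List Q) (q : Q) :
    ∀ ρ : Fin s → ℝ, Path P b (l ++ l') ρ q ↔
      Path P b l ρ (l'.headD q) ∧ Path P b l' (regs P b l ρ) q := by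
  induction l with
  | nil => intro ρ; simp [Path, regs]
  | cons a l ih =>
    intro ρ
    have h := ih (upd P b a ρ)
    have e : l.headD (l'.headD q) = (l ++ l').headD q := (headD_append l l' q).symm
    constructor
    · rintro ⟨h1, h2⟩
      refine ⟨⟨?_, (h.1 h2).1⟩, (h.1 h2).2⟩
      rw [e]
      exact h1
    · rintro ⟨⟨h1, h2⟩, h3⟩
      rw [e] at h1
      exact ⟨h1, h.2 ⟨h2, h3⟩⟩

/-- the number of readings in a list of states -/
noncomputable def rd (P : Prog N p s Q) (l : List Q) : ℕ := by
  classical exact l.countP fun q => decide (P.instr q).IsRead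

theorem path_of_fun (P : Prog N p s Q) (b : Fin N → ℝ) (t : ℕ) :
    ∀ c : ℕ → Q × (Fin s → ℝ), (∀ i < t, P.Step b (c i) (c (i + 1))) →
      Path P b ((List.range t).map fun i => (c i).1) (c 0).2 (c t).1 ∧
      (∀ i ≤ t, regs P b ((List.range i).map fun i => (c i).1) (c 0).2 = (c i).2) ∧
      ((List.range t).map fun i => (c i).1).headD (c t).1 = (c 0).1 := by
  induction t with
  | zero =>
    intro c _
    refine ⟨trivial, fun i hi => ?_, rfl⟩
    rw [Nat.le_zero.1 hi]
    rfl
  | succ t ih =>
    intro c hc
    obtain ⟨h1, h2, h3⟩ := ih (fun i => c (i + 1)) (fun i hi => hc (i + 1) (by omega))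
    have h0 := hc 0 (by omega)
    have h0' : P.Step b ((c 0).1, (c 0).2) ((c 1).1, (c 1).2) := h0
    rw [step_iff] at h0'
    have e1 : (List.range (t + 1)).map (fun i => (c i).1) =
        (c 0).1 :: (List.range t).map fun i => (c (i + 1)).1 := by
      rw [List.range_succ_eq_map, List.map_cons, List.map_map]
      rfl
    refine ⟨?_, ?_, ?_⟩
    · rw [e1]
      refine ⟨?_, ?_⟩
      · rw [h3]
        exact h0'.1
      · rw [← h0'.2]
        exact h1
    · intro i hi
      rcases Nat.eq_zero_or_pos i with rfl | hpos
      · rfl
      · obtain ⟨i, rfl⟩ : ∃ k, i = k + 1 := ⟨i - 1, by omega⟩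
        have e2 : (List.range (i + 1)).map (fun i => (c i).1) =
            (c 0).1 :: (List.range i).map fun i => (c (i + 1)).1 := by
          rw [List.range_succ_eq_map, List.map_cons, List.map_map]
          rfl
        rw [e2]
        show regs P b _ (upd P b (c 0).1 (c 0).2) = _
        rw [← h0'.2]
        exact h2 i (by omega)
    · rw [e1]
      rfl

theorem countP_range_map {α : Type} (f : ℕ → α) (pr : α → Prop) [DecidablePred pr] (t : ℕ) :
    ((List.range t).map f).countP (fun a => decide (pr a)) = #{i ∈ range t | pr (f i)} := by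
  rw [List.countP_map, List.countP_eq_length_filter]
  rfl

theorem rd_eq (P : Prog N p s Q) (t : ℕ) (c : ℕ → Q × (Fin s → ℝ)) :
    rd P ((List.range t).map fun i => (c i).1) = P.readings t c := by
  classical
  unfold rd Prog.readings
  rw [countP_range_map]

/-- computations from lists of states -/
theorem fun_of_path (P : Prog N p s Q) (b : Fin N → ℝ) (l : List Q) (q : Q) (ρ : Fin s → ℝ)
    (h : Path P b l ρ q) : ∃ c : ℕ → Q × (Fin s → ℝ), c 0 = (l.headD q, ρ) ∧
      (c l.length).1 = q ∧ (∀ i < l.length, P.Step b (c i) (c (i + 1))) ∧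
      (List.range l.length).map (fun i => (c i).1) = l := by
  induction l generalizing ρ with
  | nil =>
    exact ⟨fun _ => (q, ρ), rfl, rfl, fun i hi => absurd hi (Nat.not_lt_zero i), rfl⟩
  | cons a l ih =>
    obtain ⟨h1, h2⟩ := h
    obtain ⟨c, c0, c1, c2, c3⟩ := ih _ h2
    refine ⟨fun i => if i = 0 then (a, ρ) else c (i - 1), rfl, ?_, ?_, ?_⟩
    · rw [List.length_cons]
      simp only [Nat.add_eq_zero_iff, one_ne_zero, and_false, if_false, Nat.add_sub_cancel]
      exact c1
    · intro i hi
      rw [List.length_cons] at hi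
      rcases Nat.eq_zero_or_pos i with rfl | hpos
      · simp only [if_true, zero_add, one_ne_zero, if_false, Nat.sub_self]
        rw [c0]
        exact (step_iff P b _ _ _ _).2 ⟨h1, rfl⟩
      · obtain ⟨i, rfl⟩ : ∃ k, i = k + 1 := ⟨i - 1, by omega⟩
        simp only [Nat.add_eq_zero_iff, one_ne_zero, and_false, if_false, Nat.add_sub_cancel]
        exact c2 i (by omega)
    · rw [List.length_cons, List.range_succ_eq_map, List.map_cons, List.map_map]
      conv_rhs => rw [← c3]
      rfl

/-- accepting computations as lists of states -/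
theorem accepts_iff (P : Prog N p s Q) (T : ℕ) (b : Fin N → ℝ) :
    P.Accepts T b ↔ ∃ l q, l.headD q = P.start ∧ Path P b l 0 q ∧
      P.instr q = .halt true ∧ rd P l ≤ T := by
  constructor
  · rintro ⟨t, c, ⟨h0, h1, h2⟩, h3⟩
    obtain ⟨a1, a2, a3⟩ := path_of_fun P b t c h1
    refine ⟨(List.range t).map fun i => (c i).1, (c t).1, ?_, ?_, h2, ?_⟩
    · rw [a3, h0]
    · rw [h0] at a1
      exact a1
    · rw [rd_eq]
      exact h3
  · rintro ⟨l, q, h1, h2, h3, h4⟩
    obtain ⟨c, c0, c1, c2, c3⟩ := fun_of_path P b l q 0 h2
    refine ⟨l.length, c, ⟨?_, c2, ?_⟩, ?_⟩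
    · rw [c0, h1]
    · rw [c1]
      exact h3
    · rw [← rd_eq, c3]
      exact h4

end Pool.Agent.R532.Rr
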