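import Pool.Agent.R532.RrLp

/-!
# Registers versus readings for search problems
-/

set_option autoImplicit false

namespace Pool.Agent.R532.Rr

open Finset

variable {N p s : ℕ} {Q : Type}

theorem rd_nil (P : Prog N p s Q) : rd P [] = 0 := rfl

open Classical in
theorem rd_cons (P : Prog N p s Q) (a : Q) (l : List Q) :
    rd P (a :: l) = rd P l + if (P.instr a).IsRead then 1 else 0 := by
  unfold rd
  rw [List.countP_cons]
  simp

theorem rd_append (P : Prog N p s Q) (l l' : List Q) : rd P (l ++ l') = rd P l + rd P l' := by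
  unfold rd
  rw [List.countP_append]

theorem exists_prefix (P : Prog N p s Q) (l : List Q) : ∀ D, D ≤ rd P l →
    ∃ t l', l = t ++ l' ∧ rd P t = D := by
  classical
  induction l with
  | nil =>
    intro D hD
    rw [rd_nil] at hD
    exact ⟨[], [], rfl, by rw [rd_nil]; omega⟩
  | cons a l ih =>
    intro D hD
    rcases Nat.eq_zero_or_pos D with rfl | hpos
    · exact ⟨[], a :: l, rfl, rfl⟩
    · rw [rd_cons] at hD
      obtain ⟨t, l', h1, h2⟩ := ih (D - if (P.instr a).IsRead then 1 else 0) (by omega)
      refine ⟨a :: t, l', by rw [h1]; rfl, ?_⟩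
      rw [rd_cons, h2]
      split_ifs at hD ⊢ <;> omega

theorem exists_segments (P : Prog N p s Q) (D : ℕ) (hD : 1 ≤ D) (T : ℕ) :
    ∀ l : List Q, rd P l ≤ T → ∃ L : List (List Q), L.flatten = l ∧ L.length ≤ T / D + 1 ∧
      ∀ t ∈ L, rd P t ≤ D := by
  induction T using Nat.strong_induction_on with
  | _ T ih =>
    intro l hl
    by_cases hle : rd P l ≤ D
    · refine ⟨[l], by simp, by simp, ?_⟩
      intro t ht
      rw [List.mem_singleton] at ht
      rw [ht]
      exact hle
    · push Not at hle
      obtain ⟨t, l', h1, h2⟩ := exists_prefix P l D hle.le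
      have h3 : rd P l = rd P t + rd P l' := by rw [h1, rd_append]
      obtain ⟨L, c1, c2, c3⟩ := ih (T - D) (by omega) l' (by omega)
      refine ⟨t :: L, by rw [List.flatten_cons, c1, h1], ?_, ?_⟩
      · rw [List.length_cons]
        have : (T - D) / D + 1 = T / D := by
          rw [Nat.div_eq_sub_div (by omega) (by omega : D ≤ T)]
        omega
      · intro t' ht'
        rcases List.mem_cons.1 ht' with rfl | ht'
        · exact h2.le
        · exact c3 t' ht'

theorem split_flatten {α : Type} (L : List (List α)) : ∀ (l1 l2 : List α) (a : α),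
    L.flatten = l1 ++ a :: l2 → ∃ L1 t1 t2 L2, L = L1 ++ (t1 ++ a :: t2) :: L2 ∧
      l1 = L1.flatten ++ t1 := by
  induction L with
  | nil =>
    intro l1 l2 a h
    simp at h
  | cons t L ih =>
    intro l1 l2 a h
    rw [List.flatten_cons, List.append_eq_append_iff] at h
    rcases h with ⟨c, h1, h2⟩ | ⟨c, h1, h2⟩
    · obtain ⟨L1, t1, t2, L2, h3, h4⟩ := ih c l2 a h2
      exact ⟨t :: L1, t1, t2, L2, by rw [h3]; rfl, by rw [h1, h4]; simp⟩
    · cases c with
      | nil =>
        rw [List.nil_append] at h2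
        obtain ⟨L1, t1, t2, L2, h3, h4⟩ := ih [] l2 a h2.symm
        refine ⟨t :: L1, t1, t2, L2, by rw [h3]; rfl, ?_⟩
        rw [List.append_nil] at h1
        rw [List.flatten_cons, List.append_assoc, ← h4, List.append_nil, h1]
      | cons x c =>
        rw [List.cons_append, List.cons.injEq] at h2
        obtain ⟨rfl, h2⟩ := h2
        exact ⟨[], l1, c, L, by rw [h1]; rfl, by simp⟩

theorem regs_congr (P : Prog N p s Q) (b b' : Fin N → ℝ) (l : List Q) :
    ∀ ρ : Fin s → ℝ, (∀ a ∈ l, ∀ i, Reads P a i → b i = b' i) → regs P b l ρ = regs P b' l ρ := by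
  induction l with
  | nil => intro ρ _; rfl
  | cons a l ih =>
    intro ρ hl
    have e := upd_congr P a b b' (hl a (List.mem_cons_self ..)) ρ
    show regs P b l (upd P b a ρ) = regs P b' l (upd P b' a ρ)
    rw [← e]
    exact ih _ fun x hx => hl x (List.mem_cons_of_mem _ hx)

theorem exists_support (P : Prog N p s Q) {n : ℕ} (dep : Fin N → Option (Fin n)) (t : List Q) :
    ∃ S : Finset (Fin n), S.card ≤ rd P t ∧
      ∀ a ∈ t, ∀ i, Reads P a i → ∀ c, dep i = some c → c ∈ S := by
  classical
  induction t with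
  | nil => exact ⟨∅, by simp, fun a ha => by simp at ha⟩
  | cons a t ih =>
    obtain ⟨S, h1, h2⟩ := ih
    by_cases h : ∃ i, Reads P a i ∧ ∃ c, dep i = some c
    · obtain ⟨i, hi, c, hc⟩ := h
      have hread : (P.instr a).IsRead := by
        obtain ⟨j, q, hq⟩ := hi
        exact ⟨i, j, q, hq⟩
      refine ⟨insert c S, ?_, ?_⟩
      · rw [rd_cons, if_pos hread]
        exact (card_insert_le _ _).trans (by omega)
      · intro a' ha' i' hi' c' hc'
        rcases List.mem_cons.1 ha' with rfl | ha'
        · rw [reads_unique P hi' hi, hc] at hc'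
          rw [← Option.some_inj.1 hc']
          exact mem_insert_self _ _
        · exact mem_insert_of_mem (h2 a' ha' i' hi' c' hc')
    · refine ⟨S, ?_, ?_⟩
      · rw [rd_cons]
        omega
      · intro a' ha' i' hi' c' hc'
        rcases List.mem_cons.1 ha' with rfl | ha'
        · exact absurd ⟨i', hi', c', hc'⟩ h
        · exact h2 a' ha' i' hi' c' hc'

/-- **Search problems.** The solution `sol c` of the input `e c`; the `i`-th number of the input
depends on at most one coordinate of `c`; the `r` coordinates `out j` of the solution are arbitrary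
even if `D` of the coordinates of `c` are fixed. -/
theorem search_bound [Countable Q] {n D r : ℕ} (P : Prog N p s Q) (T : ℕ) (hD : 1 ≤ D)
    (e : (Fin n → ℝ) → Fin N → ℝ) (he : Continuous e) (dep : Fin N → Option (Fin n))
    (hdep : ∀ c c' i, (∀ a, dep i = some a → c a = c' a) → e c i = e c' i)
    (sol : (Fin n → ℝ) → Fin p → ℝ) (hsol : Continuous sol) (out : Fin r → Fin p)
    (hα : ∀ S : Finset (Fin n), S.card ≤ D → ∃ α : (Fin r → ℝ) →ₗ[ℝ] (Fin n → ℝ),
      (∀ u, ∀ a ∈ S, α u a = 0) ∧ ∀ c u j, sol (c + α u) (out j) = sol c (out j) + u j)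
    (hP : ∀ c, ∃ t cc, P.Comp (e c) t cc ∧ P.readings t cc ≤ T ∧ P.Prints (sol c) t cc) :
    r ≤ s * (T / D + 1) := by
  classical
  -- one path on an open set
  obtain ⟨⟨l, q⟩, V, hV, hVne, hpath, hreg, hcl⟩ := exists_path (Z := Fin n → ℝ) P e he
    (fun w c => rd P w.1 ≤ T ∧ (∀ k, ∃ l1 a l2, w.1 = l1 ++ a :: l2 ∧
        ∃ j q, P.instr a = .print k j q) ∧
      ∀ l1 a l2, w.1 = l1 ++ a :: l2 → ∀ k j q, P.instr a = .print k j q →
        regs P (e c) l1 0 j = sol c k) (by
      intro c
      obtain ⟨t, cc, ⟨h0, h1, _⟩, h2, h3, h4⟩ := hP c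
      obtain ⟨a1, a2, _⟩ := path_of_fun P (e c) t cc h1
      rw [h0] at a1 a2
      refine ⟨((List.range t).map fun i => (cc i).1, (cc t).1), ⟨?_, ?_, ?_⟩, a1⟩
      · rw [rd_eq]
        exact h2
      · intro k
        obtain ⟨i, hi, j, q, hjq⟩ := h3 k
        obtain ⟨d, rfl⟩ : ∃ d, t = i + (d + 1) := ⟨t - i - 1, by omega⟩
        refine ⟨(List.range i).map fun i => (cc i).1, (cc i).1,
          ((List.range d).map fun x => (cc (i + (x + 1))).1), ?_, j, q, hjq⟩
        simp only
        rw [List.range_add, List.map_append, List.map_map, List.range_succ_eq_map, List.map_cons,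
          List.map_map]
        rfl
      · intro l1 a l2 hl k j q hk
        simp only at hl
        have hlen : l1.length < t := by
          have := congrArg List.length hl
          rw [List.length_map, List.length_range, List.length_append, List.length_cons] at this
          omega
        have hl1 : l1 = (List.range l1.length).map fun i => (cc i).1 := by
          have h5 := congrArg (List.take l1.length) hl
          rw [List.take_left', ← List.map_take, List.take_range, min_eq_left hlen.le] at h5
          · exact h5.symm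
          · rfl
        have ha : a = (cc l1.length).1 := by
          have h5 := congrArg (fun x => x[l1.length]?) hl
          simp only [List.getElem?_append_right (le_refl l1.length), Nat.sub_self,
            List.getElem?_cons_zero] at h5
          rw [List.getElem?_map, List.getElem?_range hlen] at h5
          simpa using h5.symm
        rw [hl1]
        rw [a2 l1.length hlen.le]
        apply h4 l1.length hlen k j q
        rw [← ha]
        exact hk)
  obtain ⟨c0, hc0⟩ := hVne
  obtain ⟨c1, _, hC⟩ := mem_closure_iff.1 (hcl hc0) Set.univ isOpen_univ (Set.mem_univ _)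
  simp only [Set.mem_ofPred_eq] at hC
  obtain ⟨hrd, hall, _⟩ := hC
  simp only at hpath hreg
  -- the printed numbers are correct on the open set
  have hprint : ∀ l1 a l2, l = l1 ++ a :: l2 → ∀ k j q, P.instr a = .print k j q → ∀ c ∈ V,
      regs P (e c) l1 0 j = sol c k := by
    intro l1 a l2 hl k j q' hk c hc
    by_contra hne
    have hcont : ContinuousOn (fun c => regs P (e c) l1 0 j - sol c k) V :=
      ((continuous_apply j).comp_continuousOn (hreg l1 _ hl)).sub
        ((continuous_apply k).comp hsol).continuousOn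
    have ho := hcont.isOpen_inter_preimage hV (isOpen_compl_singleton (x := (0 : ℝ)))
    obtain ⟨y, hy1, hy2⟩ := mem_closure_iff.1 (hcl hc) _ ho ⟨hc, by
      rw [Set.mem_preimage, Set.mem_compl_iff, Set.mem_singleton_iff]
      exact sub_ne_zero.2 hne⟩
    exact hy1.2 (sub_eq_zero.2 (hy2.2.2 l1 a l2 hl k j q' hk))
  -- segments with few readings
  obtain ⟨L, hflat, hlen, hLrd⟩ := exists_segments P D hD T l hrd
  by_contra hcon
  push Not at hcon
  have hseg : ∀ k : Fin r, ∃ i : Fin L.length, ∃ t1 a t2, L[i] = t1 ++ a :: t2 ∧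
      ∃ j q, P.instr a = .print (out k) j q := by
    intro k
    obtain ⟨l1, a, l2, h1, h2⟩ := hall (out k)
    rw [← hflat] at h1
    obtain ⟨L1, t1, t2, L2, h3, h4⟩ := split_flatten L l1 l2 a h1
    refine ⟨⟨L1.length, by rw [h3]; simp⟩, t1, a, t2, ?_, h2⟩
    simp [h3]
  choose seg t1 a t2 hs1 hs2 using hseg
  choose j0 q0 hs3 using hs2
  obtain ⟨i, _, hi⟩ := Finset.exists_lt_card_fiber_of_mul_lt_card_of_maps_to
    (s := (univ : Finset (Fin r))) (t := (univ : Finset (Fin L.length))) (f := seg)
    (fun _ _ => mem_univ _) (n := s) (by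
      rw [card_univ, card_univ, Fintype.card_fin, Fintype.card_fin]
      calc L.length * s ≤ (T / D + 1) * s := Nat.mul_le_mul_right _ hlen
        _ = s * (T / D + 1) := mul_comm _ _
        _ < r := hcon)
  obtain ⟨J, hJ, hJc⟩ := Finset.exists_subset_card_eq (Nat.succ_le_of_lt hi)
  obtain ⟨f, hf, hfJ⟩ : ∃ f : Fin (s + 1) → Fin r, Function.Injective f ∧ ∀ x, seg (f x) = i :=
    ⟨fun k => J.orderEmbOfFin hJc k, (J.orderEmbOfFin hJc).injective,
      fun k => (mem_filter.1 (hJ (J.orderEmbOfFin_mem hJc k))).2⟩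
  obtain ⟨g, hgf⟩ : ∃ g : Fin r → Fin (s + 1), ∀ x, g (f x) = x :=
    ⟨Function.invFun f, Function.leftInverse_invFun hf⟩
  obtain ⟨S, hS1, hS2⟩ := exists_support P dep L[i]
  obtain ⟨α, hα1, hα2⟩ := hα S (hS1.trans (hLrd _ (List.getElem_mem _)))
  obtain ⟨ε, hε, hball⟩ := Metric.isOpen_iff.1 hV c0 hc0
  obtain ⟨δ, hδ⟩ : ∃ δ : (Fin (s + 1) → ℝ) →ₗ[ℝ] (Fin n → ℝ),
      δ = α.comp (LinearMap.funLeft ℝ ℝ g) := ⟨_, rfl⟩
  have hδc : Continuous δ := LinearMap.continuous_of_finiteDimensional δ
  obtain ⟨τ, hτ⟩ : ∃ τ : (Fin (s + 1) → ℝ) → ℝ, ∀ v, τ v = ε / (1 + ‖δ v‖) :=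
    ⟨fun v => ε / (1 + ‖δ v‖), fun _ => rfl⟩
  have hτpos : ∀ v, 0 < τ v := by
    intro v
    rw [hτ]
    positivity
  have hτneg : ∀ v, τ (-v) = τ v := by
    intro v
    rw [hτ, hτ, map_neg, norm_neg]
  have hτc : Continuous τ := by
    have : τ = fun v => ε / (1 + ‖δ v‖) := funext hτ
    rw [this]
    exact continuous_const.div (continuous_const.add hδc.norm) (fun v => by positivity)
  obtain ⟨Φ, hΦ⟩ : ∃ Φ : (Fin (s + 1) → ℝ) → (Fin n → ℝ), ∀ v, Φ v = c0 + τ v • δ v :=
    ⟨fun v => c0 + τ v • δ v, fun _ => rfl⟩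
  have hΦc : Continuous Φ := by
    have : Φ = fun v => c0 + τ v • δ v := funext hΦ
    rw [this]
    exact continuous_const.add (hτc.smul hδc)
  have hΦV : ∀ v, Φ v ∈ V := by
    intro v
    apply hball
    rw [hΦ, Metric.mem_ball, dist_eq_norm, add_sub_cancel_left, norm_smul, Real.norm_eq_abs,
      abs_of_pos (hτpos v), hτ]
    rw [div_mul_eq_mul_div, div_lt_iff₀ (by positivity)]
    nlinarith [norm_nonneg (δ v)]
  have hsolΦ : ∀ v x, sol (Φ v) (out (f x)) = sol c0 (out (f x)) + τ v * v x := by
    intro v x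
    have e1 : Φ v = c0 + α (τ v • LinearMap.funLeft ℝ ℝ g v) := by
      rw [hΦ, hδ, map_smul]
      rfl
    rw [e1, hα2]
    congr 1
    rw [Pi.smul_apply, LinearMap.funLeft_apply, hgf, smul_eq_mul]
  have hΦS : ∀ v, ∀ c ∈ S, Φ v c = c0 c := by
    intro v c hc
    rw [hΦ, hδ, Pi.add_apply, Pi.smul_apply, LinearMap.comp_apply, hα1 _ c hc, smul_zero,
      add_zero]
  have hsplit : l = (L.take i).flatten ++ (L[i] ++ (L.drop (i + 1)).flatten) := by
    rw [← List.flatten_cons, ← List.flatten_append]
    have : L.take i ++ L[i] :: L.drop (i + 1) = L := by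
      rw [Fin.getElem_fin, List.cons_getElem_drop_succ, List.take_append_drop]
    rw [this, hflat]
  obtain ⟨v, hv, hR⟩ := bu (ι := Fin s) s (by rw [Fintype.card_fin])
    (fun v => regs P (e (Φ v)) (L.take i).flatten 0)
    ((hreg _ _ hsplit).comp_continuous hΦc hΦV)
  apply hv
  funext x
  have hsx := hs1 (f x)
  have hLi : L[i] = t1 (f x) ++ a (f x) :: t2 (f x) := by
    rw [← hfJ x]
    exact hsx
  have hl : l = ((L.take i).flatten ++ t1 (f x)) ++
      a (f x) :: (t2 (f x) ++ (L.drop (i + 1)).flatten) := by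
    rw [hsplit, hLi]
    simp
  have hp1 := hprint _ _ _ hl _ _ _ (hs3 (f x)) (Φ v) (hΦV v)
  have hp2 := hprint _ _ _ hl _ _ _ (hs3 (f x)) (Φ (-v)) (hΦV (-v))
  rw [regs_append] at hp1 hp2
  rw [hsolΦ] at hp1 hp2
  rw [hR, regs_congr P (e (Φ v)) (e (Φ (-v)))] at hp1
  · rw [hp1, hτneg, Pi.neg_apply] at hp2
    have h1 : τ v * v x = 0 := by linarith
    rcases mul_eq_zero.1 h1 with h2 | h2
    · exact absurd h2 (hτpos v).ne'
    · exact h2
  · intro b hb i' hi'
    apply hdep
    intro c hc
    have hcS : c ∈ S := hS2 b (by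
      rw [hLi]
      exact List.mem_append_left _ hb) i' hi' c hc
    rw [hΦS v c hcS, hΦS (-v) c hcS]

/-! ### A linear system -/

open Matrix

/-- the matrix of the system `y i = c i` (`i < n`), `x j - ∑ i, (i + 1) ^ j * y i = 0` (`j < r`)
with the unknowns `(y, x)` -/
def eqMat (n r : ℕ) : Matrix (Fin (n + r)) (Fin (n + r)) ℝ := fun i k =>
  Fin.addCases (fun i : Fin n => if Fin.castAdd r i = k then (1 : ℝ) else 0)
    (fun j : Fin r => Fin.addCases (fun i : Fin n => -((i : ℝ) + 1) ^ (j : ℕ))
      (fun j' : Fin r => if j = j' then (1 : ℝ) else 0) k) i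

/-- The matrix of the system `M z ≥ b`, `-M z ≥ b'` for `M = eqMat n r`. -/
def matS (n r : ℕ) : Matrix (Fin ((n + r) + (n + r))) (Fin (n + r)) ℝ := fun i k =>
  Fin.addCases (fun i => eqMat n r i k) (fun i => -eqMat n r i k) i

theorem eqMat_left (n r : ℕ) (i : Fin n) (z : Fin (n + r) → ℝ) :
    (eqMat n r *ᵥ z) (Fin.castAdd r i) = z (Fin.castAdd r i) := by
  simp [eqMat, mulVec, dotProduct]

theorem eqMat_right (n r : ℕ) (j : Fin r) (z : Fin (n + r) → ℝ) :
    (eqMat n r *ᵥ z) (Fin.natAdd n j) =
      z (Fin.natAdd n j) - ∑ i : Fin n, ((i : ℝ) + 1) ^ (j : ℕ) * z (Fin.castAdd r i) := by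
  simp only [mulVec, dotProduct, eqMat, Fin.addCases_right]
  rw [Fin.sum_univ_add]
  simp only [Fin.addCases_left, Fin.addCases_right, ite_mul, one_mul, zero_mul, neg_mul,
    sum_neg_distrib, sum_ite_eq, mem_univ, if_true]
  ring

theorem matS_left (n r : ℕ) (i : Fin (n + r)) (z : Fin (n + r) → ℝ) :
    (matS n r *ᵥ z) (Fin.castAdd (n + r) i) = (eqMat n r *ᵥ z) i := by
  simp [matS, mulVec, dotProduct]

theorem matS_right (n r : ℕ) (i : Fin (n + r)) (z : Fin (n + r) → ℝ) :
    (matS n r *ᵥ z) (Fin.natAdd (n + r) i) = -(eqMat n r *ᵥ z) i := by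
  simp only [mulVec, dotProduct, matS, Fin.addCases_right, neg_mul, sum_neg_distrib]

/-- the right-hand side `(c, 0, -c, 0)` -/
def rhs (n r : ℕ) (c : Fin n → ℝ) : Fin ((n + r) + (n + r)) → ℝ := fun i =>
  Fin.addCases (fun i => Fin.addCases (fun i => c i) (fun _ => 0) i)
    (fun i => Fin.addCases (fun i => -c i) (fun _ => 0) i) i

/-- the solution -/
def solS (n r : ℕ) (c : Fin n → ℝ) : Fin (n + r) → ℝ := fun i =>
  Fin.addCases (fun i => c i) (fun j : Fin r => ∑ i : Fin n, ((i : ℝ) + 1) ^ (j : ℕ) * c i) i

theorem solution_iff (n r : ℕ) (c : Fin n → ℝ) (z : Fin (n + r) → ℝ) :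
    rhs n r c ≤ matS n r *ᵥ z ↔ z = solS n r c := by
  constructor
  · intro h
    have h1 : ∀ i : Fin (n + r), (eqMat n r *ᵥ z) i =
        Fin.addCases (motive := fun _ => ℝ) (fun i => c i) (fun _ => 0) i := by
      intro i
      have a1 := h (Fin.castAdd (n + r) i)
      have a2 := h (Fin.natAdd (n + r) i)
      rw [matS_left] at a1
      rw [matS_right] at a2
      simp only [rhs, Fin.addCases_left, Fin.addCases_right] at a1 a2
      refine Fin.addCases (fun i a1 a2 => ?_) (fun i a1 a2 => ?_) i a1 a2
      · simp only [Fin.addCases_left] at a1 a2 ⊢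
        linarith
      · simp only [Fin.addCases_right] at a1 a2 ⊢
        linarith
    have h2 : ∀ i : Fin n, z (Fin.castAdd r i) = c i := by
      intro i
      have := h1 (Fin.castAdd r i)
      rwa [eqMat_left, Fin.addCases_left] at this
    funext i
    refine Fin.addCases (fun i => ?_) (fun j => ?_) i
    · rw [h2, solS, Fin.addCases_left]
    · have := h1 (Fin.natAdd n j)
      rw [eqMat_right, Fin.addCases_right, sub_eq_zero] at this
      rw [this, solS, Fin.addCases_right]
      exact sum_congr rfl fun i _ => by rw [h2]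
  · rintro rfl
    have h1 : ∀ i : Fin (n + r), (eqMat n r *ᵥ solS n r c) i =
        Fin.addCases (motive := fun _ => ℝ) (fun i => c i) (fun _ => 0) i := by
      intro i
      refine Fin.addCases (fun i => ?_) (fun j => ?_) i
      · rw [eqMat_left, solS, Fin.addCases_left, Fin.addCases_left]
      · rw [eqMat_right, Fin.addCases_right, solS, Fin.addCases_right, sub_eq_zero]
        exact sum_congr rfl fun i _ => by rw [solS, Fin.addCases_left]
    intro i
    refine Fin.addCases (fun i => ?_) (fun i => ?_) i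
    · rw [matS_left, h1, rhs, Fin.addCases_left]
    · rw [matS_right, h1, rhs, Fin.addCases_right]
      refine Fin.addCases (fun i => ?_) (fun i => ?_) i
      · rw [Fin.addCases_left, Fin.addCases_left]
      · rw [Fin.addCases_right, Fin.addCases_right, neg_zero]

/-- **Registers versus readings for the search problem.** -/
theorem search {Q : Type} [Countable Q] {s : ℕ} (n T : ℕ) (hn : 1 ≤ n)
    (P : Prog ((2 * n + n) + (2 * n + n)) (2 * n + n) s Q)
    (h : ∀ b, (∃ z, b ≤ matS (2 * n) n *ᵥ z) → ∃ t c, P.Comp b t c ∧ P.readings t c ≤ T ∧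
      ∃ z, b ≤ matS (2 * n) n *ᵥ z ∧ P.Prints z t c) : n * n ≤ s * (T + n) := by
  have h1 : n ≤ s * (T / n + 1) := by
    apply search_bound P T hn (rhs (2 * n) n) ?_
      (fun i => Fin.addCases (fun i => Fin.addCases some (fun _ => none) i)
        (fun i => Fin.addCases some (fun _ => none) i) i) ?_ (solS (2 * n) n) ?_
      (fun j => Fin.natAdd (2 * n) j)
    · intro S hS
      obtain ⟨α, hα1, hα2⟩ := exists_right (2 * n) n (2 * n) id Function.injective_id Sᶜ
        (by rw [card_compl, Fintype.card_fin]; omega)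
      refine ⟨α, ?_, ?_⟩
      · intro u a ha
        apply hα2
        intro a' ha' haa
        rw [mem_compl] at ha'
        simp only [id] at haa
        exact ha' (haa ▸ ha)
      · intro c u j
        have h2 := congrFun (hα1 u) j
        have h3 : lam (2 * n) n (2 * n) id (α u) j =
          ∑ i : Fin (2 * n), ((i : ℝ) + 1) ^ (j : ℕ) * α u i := rfl
        rw [h3] at h2
        simp only [solS, Fin.addCases_right, Pi.add_apply, mul_add, sum_add_distrib, h2]
    · intro c
      obtain ⟨t, cc, a1, a2, z, a3, a4⟩ := h (rhs (2 * n) n c)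
        ⟨_, (solution_iff (2 * n) n c _).2 rfl⟩
      rw [solution_iff] at a3
      subst a3
      exact ⟨t, cc, a1, a2, a4⟩
    · apply continuous_pi
      intro i
      refine Fin.addCases (fun i => ?_) (fun i => ?_) i
      · simp only [rhs, Fin.addCases_left]
        refine Fin.addCases (fun i => ?_) (fun i => ?_) i
        · simp only [Fin.addCases_left]
          exact continuous_apply i
        · simp only [Fin.addCases_right]
          exact continuous_const
      · simp only [rhs, Fin.addCases_right]
        refine Fin.addCases (fun i => ?_) (fun i => ?_) i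
        · simp only [Fin.addCases_left]
          exact (continuous_apply i).neg
        · simp only [Fin.addCases_right]
          exact continuous_const
    · intro c c' i
      refine Fin.addCases (fun i => ?_) (fun i => ?_) i
      · simp only [rhs, Fin.addCases_left]
        refine Fin.addCases (fun i => ?_) (fun i => ?_) i
        · simp only [Fin.addCases_left]
          intro h
          exact h i rfl
        · simp only [Fin.addCases_right]
          intro _
          trivial
      · simp only [rhs, Fin.addCases_right]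
        refine Fin.addCases (fun i => ?_) (fun i => ?_) i
        · simp only [Fin.addCases_left]
          intro h
          rw [h i rfl]
        · simp only [Fin.addCases_right]
          intro _
          trivial
    · apply continuous_pi
      intro i
      refine Fin.addCases (fun i => ?_) (fun j => ?_) i
      · simp only [solS, Fin.addCases_left]
        exact continuous_apply i
      · simp only [solS, Fin.addCases_right]
        exact continuous_finsetSum _ fun i _ => continuous_const.mul (continuous_apply i)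
  calc n * n ≤ s * (T / n + 1) * n := Nat.mul_le_mul_right n h1
    _ = s * (T / n * n + n) := by ring
    _ ≤ s * (T + n) := Nat.mul_le_mul_left s (Nat.add_le_add_right (Nat.div_mul_le_self T n) n)

end Pool.Agent.R532.Rr
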