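import Mathlib
import Pool.Agent.H383.LinIndep

/-!
# Separation of sums of square roots

`RR es` is the ring generated by the functions `s ↦ s_i √e_i` of a sign vector `s`. If all values
of such a function are at most `K ≥ 1` in absolute value, then every value which is not zero is at
least `K ^ (- (2 ^ r - 1))`, where `r` is the number of the radicands `e_i`.
-/

set_option autoImplicit false

namespace Pool.Agent.R532

/-- a sign -/
def sg (b : Bool) : ℝ := if b then 1 else -1

theorem sg_sq (b : Bool) : sg b * sg b = 1 := by cases b <;> simp [sg]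

/-- the ring of polynomials in the `s_i √e_i`, as functions of the signs `s_i` -/
def RR : List ℕ → ((ℕ → Bool) → ℝ) → Prop
  | [], f => ∃ z : ℤ, ∀ s, f s = z
  | e :: es, f => ∃ β γ : (ℕ → Bool) → ℝ, RR es β ∧ RR es γ ∧
      ∀ s, f s = β (fun n => s (n + 1)) + sg (s 0) * √(e : ℝ) * γ (fun n => s (n + 1))

theorem RR.int (es : List ℕ) (z : ℤ) : RR es (fun _ => (z : ℝ)) := by
  induction es generalizing z with
  | nil => exact ⟨z, fun _ => rfl⟩
  | cons e es ih =>
    refine ⟨_, _, ih z, ih 0, fun s => ?_⟩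
    simp

theorem RR.add {es : List ℕ} : ∀ {f g : (ℕ → Bool) → ℝ}, RR es f → RR es g →
    RR es (fun s => f s + g s) := by
  induction es with
  | nil =>
    rintro f g ⟨z, hz⟩ ⟨w, hw⟩
    exact ⟨z + w, fun s => by beta_reduce; rw [hz, hw]; push_cast; rfl⟩
  | cons e es ih =>
    rintro f g ⟨β, γ, h1, h2, h3⟩ ⟨β', γ', h1', h2', h3'⟩
    exact ⟨_, _, ih h1 h1', ih h2 h2', fun s => by beta_reduce; rw [h3, h3']; ring⟩

theorem RR.mul {es : List ℕ} : ∀ {f g : (ℕ → Bool) → ℝ}, RR es f → RR es g →
    RR es (fun s => f s * g s) := by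
  induction es with
  | nil =>
    rintro f g ⟨z, hz⟩ ⟨w, hw⟩
    exact ⟨z * w, fun s => by beta_reduce; rw [hz, hw]; push_cast; rfl⟩
  | cons e es ih =>
    rintro f g ⟨β, γ, h1, h2, h3⟩ ⟨β', γ', h1', h2', h3'⟩
    refine ⟨_, _, (ih h1 h1').add (ih (RR.int es e) (ih h2 h2')),
      (ih h1 h2').add (ih h2 h1'), fun s => ?_⟩
    beta_reduce
    rw [h3, h3']
    have a := sg_sq (s 0)
    have b : √(e : ℝ) * √(e : ℝ) = e := Real.mul_self_sqrt (Nat.cast_nonneg e)
    push_cast
    linear_combination (√(e : ℝ) * √(e : ℝ) * γ (fun n => s (n + 1)) * γ' (fun n => s (n + 1))) * a +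
      (γ (fun n => s (n + 1)) * γ' (fun n => s (n + 1))) * b

theorem RR.congr {es : List ℕ} {f g : (ℕ → Bool) → ℝ} (h : RR es f) (hfg : ∀ s, g s = f s) :
    RR es g := by
  have : g = f := funext hfg
  rwa [this]

theorem RR.sub {es : List ℕ} {f g : (ℕ → Bool) → ℝ} (hf : RR es f) (hg : RR es g) :
    RR es (fun s => f s - g s) :=
  (hf.add ((RR.int es (-1)).mul hg)).congr fun s => by push_cast; ring

theorem RR.weak {es : List ℕ} {e : ℕ} {f : (ℕ → Bool) → ℝ} (hf : RR es f) :
    RR (e :: es) (fun s => f (fun n => s (n + 1))) :=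
  ⟨f, _, hf, RR.int es 0, fun s => by simp⟩

theorem RR.gen {es : List ℕ} {e : ℕ} : RR (e :: es) (fun s => sg (s 0) * √(e : ℝ)) :=
  ⟨_, _, RR.int es 0, RR.int es 1, fun s => by simp⟩

/-- prepend a sign -/
def pre (b : Bool) (s : ℕ → Bool) : ℕ → Bool
  | 0 => b
  | n + 1 => s n

/-- **Separation.** -/
theorem RR.sep (es : List ℕ) : ∀ (f : (ℕ → Bool) → ℝ) (K : ℝ), RR es f → 1 ≤ K →
    (∀ s, |f s| ≤ K) → ∀ s, f s ≠ 0 → 1 ≤ |f s| * K ^ (2 ^ es.length - 1) := by
  induction es with
  | nil =>
    rintro f K ⟨z, hz⟩ hK hb s hs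
    rw [hz] at hs ⊢
    have h1 : z ≠ 0 := by rintro rfl; simp at hs
    have h2 : (1 : ℝ) ≤ |(z : ℝ)| := by
      rw [← Int.cast_abs]
      exact_mod_cast Int.one_le_abs h1
    simpa using h2
  | cons e es ih =>
    rintro f K ⟨β, γ, h1, h2, h3⟩ hK hb s hs
    set s' : ℕ → Bool := fun n => s (n + 1) with hs'
    have hval : ∀ (b : Bool) (t : ℕ → Bool), f (pre b t) = β t + sg b * √(e : ℝ) * γ t := by
      intro b t
      rw [h3]
      rfl
    have hfs : f s = β s' + sg (s 0) * √(e : ℝ) * γ s' := h3 s
    set α' := β s' - sg (s 0) * √(e : ℝ) * γ s' with hα'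
    have hα'2 : α' = f (pre (!(s 0)) s') := by
      rw [hval, hα']
      cases s 0 <;> simp [sg] <;> ring
    have hE : √(e : ℝ) * √(e : ℝ) = e := Real.mul_self_sqrt (Nat.cast_nonneg e)
    have hL : (2 : ℕ) ^ (e :: es).length - 1 = 2 * (2 ^ es.length - 1) + 1 := by
      rw [List.length_cons, pow_succ]
      have : 1 ≤ 2 ^ es.length := Nat.one_le_two_pow
      omega
    by_cases h0 : α' = 0
    · -- `f s = 2 β s'`
      have hβ : f s = 2 * β s' := by
        rw [hfs]
        linarith
      have hβ0 : β s' ≠ 0 := by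
        intro h
        rw [hβ, h, mul_zero] at hs
        exact hs rfl
      have hβb : ∀ t, |β t| ≤ K := by
        intro t
        have a := hb (pre true t)
        have b := hb (pre false t)
        rw [hval] at a b
        have c : β t = ((β t + sg true * √(e : ℝ) * γ t) + (β t + sg false * √(e : ℝ) * γ t)) / 2 := by
          simp [sg]
          ring
        rw [c, abs_div, abs_two, div_le_iff₀ two_pos]
        calc _ ≤ _ := abs_add_le _ _
          _ ≤ K + K := add_le_add a b
          _ = K * 2 := by ring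
      have h4 := ih β K h1 hK hβb s' hβ0
      rw [hβ, abs_mul, abs_two, hL]
      have h5 : K ^ (2 ^ es.length - 1) ≤ K ^ (2 * (2 ^ es.length - 1) + 1) :=
        pow_le_pow_right₀ hK (by omega)
      calc (1 : ℝ) ≤ |β s'| * K ^ (2 ^ es.length - 1) := h4
        _ ≤ |β s'| * K ^ (2 * (2 ^ es.length - 1) + 1) := by gcongr
        _ ≤ 2 * |β s'| * K ^ (2 * (2 ^ es.length - 1) + 1) := by
            have : 0 ≤ |β s'| * K ^ (2 * (2 ^ es.length - 1) + 1) := by positivity
            linarith
    · -- multiply with the conjugate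
      have hg : RR es (fun t => β t * β t - (e : ℤ) * (γ t * γ t)) :=
        (h1.mul h1).sub ((RR.int es e).mul (h2.mul h2))
      have hgv : ∀ t, β t * β t - ((e : ℤ) : ℝ) * (γ t * γ t) = f (pre true t) * f (pre false t) := by
        intro t
        rw [hval, hval]
        simp only [sg, if_true, Bool.false_eq_true, if_false]
        push_cast
        linear_combination (γ t * γ t) * hE
      have h4 := ih _ (K ^ 2) hg (one_le_pow₀ hK) (by
        intro t
        rw [hgv, abs_mul, sq]
        exact mul_le_mul (hb _) (hb _) (abs_nonneg _) (by linarith)) s' (by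
        intro h
        rw [hgv] at h
        rcases mul_eq_zero.1 h with h | h
        · rw [hval] at h
          cases hb0 : s 0
          · apply h0
            rw [hα', hb0]
            simp only [sg, if_true, Bool.false_eq_true, if_false] at h ⊢
            linarith
          · apply hs
            rw [hfs, hb0]
            exact h
        · rw [hval] at h
          cases hb0 : s 0
          · apply hs
            rw [hfs, hb0]
            exact h
          · apply h0
            rw [hα', hb0]
            simp only [sg, if_true, Bool.false_eq_true, if_false] at h ⊢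
            linarith)
      have h5 : β s' * β s' - ((e : ℤ) : ℝ) * (γ s' * γ s') = f s * α' := by
        rw [hfs, hα']
        have a := sg_sq (s 0)
        push_cast
        linear_combination (-(γ s' * γ s')) * hE * 0 + (√(e : ℝ) * √(e : ℝ) * γ s' * γ s') * a +
          (γ s' * γ s') * hE
      rw [h5, abs_mul] at h4
      have h6 : |α'| ≤ K := by rw [hα'2]; exact hb _
      rw [hL]
      calc (1 : ℝ) ≤ |f s| * |α'| * (K ^ 2) ^ (2 ^ es.length - 1) := h4
        _ ≤ |f s| * K * (K ^ 2) ^ (2 ^ es.length - 1) := by gcongr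
        _ = |f s| * K ^ (2 * (2 ^ es.length - 1) + 1) := by
            rw [← pow_mul, pow_succ]; ring

/-- signed sums of square roots -/
noncomputable def ssum (l : List (ℤ × ℕ)) : ℝ := (l.map fun e => (e.1 : ℝ) * √(e.2 : ℝ)).sum

/-- the sum with other signs -/
noncomputable def tsum' : List (ℤ × ℕ) → (ℕ → Bool) → ℝ
  | [], _ => 0
  | e :: l, s => (e.1 : ℝ) * (sg (s 0) * √(e.2 : ℝ)) + tsum' l (fun n => s (n + 1))

theorem rr_tsum (l : List (ℤ × ℕ)) : RR (l.map Prod.snd) (tsum' l) := by
  induction l with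
  | nil => exact ⟨0, fun s => by simp [tsum']⟩
  | cons e l ih =>
    exact (((RR.int _ e.1).mul RR.gen).add ih.weak).congr fun s => rfl

theorem tsum_true (l : List (ℤ × ℕ)) : tsum' l (fun _ => true) = ssum l := by
  induction l with
  | nil => simp [tsum', ssum]
  | cons e l ih =>
    rw [tsum', ih]
    simp [ssum, sg]

theorem abs_tsum_le (l : List (ℤ × ℕ)) : ∀ s, |tsum' l s| ≤
    (l.map fun e => |(e.1 : ℝ)| * √(e.2 : ℝ)).sum := by
  induction l with
  | nil => intro s; simp [tsum']
  | cons e l ih =>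
    intro s
    rw [tsum', List.map_cons, List.sum_cons]
    refine (abs_add_le _ _).trans (add_le_add ?_ (ih _))
    rw [abs_mul, abs_mul]
    have : |sg (s 0)| = 1 := by cases s 0 <;> simp [sg]
    rw [this, one_mul, abs_of_nonneg (Real.sqrt_nonneg _)]

/-- **Separation of sums of square roots.** -/
theorem ssum_sep (l : List (ℤ × ℕ)) (K : ℝ) (hK : 1 ≤ K)
    (hl : (l.map fun e => |(e.1 : ℝ)| * √(e.2 : ℝ)).sum ≤ K) (h0 : ssum l ≠ 0) :
    1 ≤ |ssum l| * K ^ (2 ^ l.length - 1) := by
  have h := RR.sep _ (tsum' l) K (rr_tsum l) hK (fun s => (abs_tsum_le l s).trans hl)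
    (fun _ => true) (by rwa [tsum_true])
  rwa [tsum_true, List.length_map] at h

/-! ### Linear independence -/

/-- the squarefree part -/
noncomputable def sfp (n : ℕ) : ℕ := (Nat.sq_mul_squarefree n).choose

theorem sfp_sq (n : ℕ) : Squarefree (sfp n) := by
  obtain ⟨b, -, h⟩ := (Nat.sq_mul_squarefree n).choose_spec
  exact h

theorem sfp_mul (n : ℕ) : ∃ m : ℕ, m ^ 2 * sfp n = n := by
  obtain ⟨b, h, -⟩ := (Nat.sq_mul_squarefree n).choose_spec
  exact ⟨b, h⟩

theorem sfp_pos (n : ℕ) : 0 < sfp n := Nat.pos_of_ne_zero (sfp_sq n).ne_zero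

open Pool.Agent.H383.Gauss in
/-- Equal sums of square roots have the same squarefree parts. -/
theorem sf_match (D D' : List ℕ)
    (h : (D.map fun d : ℕ => √(d : ℝ)).sum = (D'.map fun d : ℕ => √(d : ℝ)).sum) :
    ∀ d ∈ D, d ≠ 0 → ∃ d' ∈ D', sfp d' = sfp d := by
  classical
  choose m hm using sfp_mul
  let c : ℕ → {s : ℕ // Squarefree s} →₀ ℚ := fun n => Finsupp.single ⟨sfp n, sfp_sq n⟩ ((m n : ℕ) : ℚ)
  let v : {s : ℕ // Squarefree s} → ℝ := fun s => √((s : ℕ) : ℝ)
  have hc : ∀ n : ℕ, Finsupp.linearCombination ℚ v (c n) = √(n : ℝ) := by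
    intro n
    rw [Finsupp.linearCombination_single]
    conv_rhs => rw [← hm n]
    push_cast
    rw [Real.sqrt_mul (by positivity), Real.sqrt_sq (Nat.cast_nonneg _)]
    rw [Rat.smul_def]
    push_cast
    rfl
  have hsum : ∀ L : List ℕ, Finsupp.linearCombination ℚ v (L.map c).sum =
      (L.map fun d : ℕ => √(d : ℝ)).sum := by
    intro L
    rw [map_list_sum, List.map_map]
    congr 1
    apply List.map_congr_left
    intro n _
    exact hc n
  have hli : LinearIndependent ℚ v := sf_indep
  have heq : (D.map c).sum = (D'.map c).sum := by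
    apply hli
    rw [hsum, hsum, h]
  intro d hd hd0
  have hpos : ∀ (L : List ℕ) (s : {s : ℕ // Squarefree s}), 0 ≤ (L.map c).sum s := by
    intro L s
    induction L with
    | nil => simp
    | cons a L ih =>
      rw [List.map_cons, List.sum_cons, Finsupp.add_apply]
      have : 0 ≤ c a s := by
        simp only [c, Finsupp.single_apply]
        split_ifs
        · positivity
        · exact le_rfl
      linarith
  have hmd : 0 < m d := by
    rcases Nat.eq_zero_or_pos (m d) with h0 | h0
    · exfalso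
      apply hd0
      rw [← hm d, h0]
      simp
    · exact h0
  have h1 : 0 < (D.map c).sum ⟨sfp d, sfp_sq d⟩ := by
    obtain ⟨L1, L2, rfl⟩ := List.append_of_mem hd
    rw [List.map_append, List.sum_append, List.map_cons, List.sum_cons, Finsupp.add_apply,
      Finsupp.add_apply]
    have a := hpos L1 ⟨sfp d, sfp_sq d⟩
    have b := hpos L2 ⟨sfp d, sfp_sq d⟩
    have e : c d ⟨sfp d, sfp_sq d⟩ = (m d : ℚ) := by simp [c]
    rw [e]
    have : (0 : ℚ) < m d := by exact_mod_cast hmd
    linarith
  rw [heq] at h1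
  by_contra hcon
  push Not at hcon
  have : (D'.map c).sum ⟨sfp d, sfp_sq d⟩ = 0 := by
    clear h1 heq h hsum
    induction D' with
    | nil => simp
    | cons a L ih =>
      rw [List.map_cons, List.sum_cons, Finsupp.add_apply,
        ih (fun x hx => hcon x (List.mem_cons_of_mem _ hx))]
      have e : c a ⟨sfp d, sfp_sq d⟩ = 0 := by
        simp only [c]
        rw [Finsupp.single_apply, if_neg]
        intro h2
        exact hcon a List.mem_cons_self (congrArg Subtype.val h2)
      rw [e, add_zero]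
  rw [this] at h1
  exact lt_irrefl _ h1

end Pool.Agent.R532
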