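import Pool.Agent.TH658.Dg.TMain

/-!
# Tournaments of every order that are hard for algebraic proofs

A source is added to both tournaments: a refutation for the larger tournaments gives one of the same
degree for the smaller ones.
-/

set_option autoImplicit false

namespace Pool.Agent.R532.TourPad

open Finset MvPolynomial Pool.Agent.TH658.Dg

/-- The relation with a new source. -/
def pad {V : Type} (T : V → V → Prop) : Option V → Option V → Prop
  | none, none => False
  | none, some _ => True
  | some _, none => False
  | some u, some v => T u v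

theorem pad_tournament {V : Type} {T : V → V → Prop} (h : IsTournament T) :
    IsTournament (pad T) := by
  intro u v
  cases u with
  | none =>
    cases v with
    | none => exact ⟨fun h1 => h1.elim, fun h1 => (h1 rfl).elim⟩
    | some v => exact ⟨fun _ h1 => h1, fun _ => Or.inl trivial⟩
  | some u =>
    cases v with
    | none => exact ⟨fun h1 => h1.elim, fun _ => Or.inr trivial⟩
    | some v => exact ⟨(h u v).1, fun h1 => (h u v).2 fun h2 => h1 (congrArg some h2)⟩

theorem pad_not_iso {V : Type} {T T' : V → V → Prop}
    (h : ¬ ∃ φ : V ≃ V, ∀ x y, T x y ↔ T' (φ x) (φ y)) :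
    ¬ ∃ φ : Option V ≃ Option V, ∀ x y, pad T x y ↔ pad T' (φ x) (φ y) := by
  rintro ⟨φ, hφ⟩
  have h0 : φ none = none := by
    by_contra h1
    obtain ⟨w, hw⟩ := Option.ne_none_iff_exists'.1 h1
    obtain ⟨y, hy⟩ := φ.surjective none
    cases y with
    | none => exact h1 hy
    | some v =>
      have h2 := (hφ none (some v)).1 trivial
      rw [hw, hy] at h2
      exact h2
  refine h ⟨Equiv.removeNone φ, fun x y => ?_⟩
  have h3 : ∀ x : V, some (Equiv.removeNone φ x) = φ (some x) := by
    intro x
    refine Equiv.removeNone_some φ ?_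
    by_contra h4
    have h5 : φ (some x) = none := by
      cases h6 : φ (some x) with
      | none => rfl
      | some w => exact (h4 ⟨w, h6⟩).elim
    rw [← h0] at h5
    exact Option.some_ne_none _ (φ.injective h5)
  have h7 := hφ (some x) (some y)
  rw [← h3, ← h3] at h7
  exact h7

/-- The substitution: the source goes to the source. -/
noncomputable def sub (K : Type) [CommRing K] (V V' : Type) :
    Option V × Option V' → MvPolynomial (V × V') K
  | (none, none) => 1
  | (none, some _) => 0
  | (some _, none) => 0
  | (some u, some v) => X (u, v)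

theorem sub_degree (K : Type) [Field K] (V V' : Type) (i : Option V × Option V') :
    (sub K V V' i).totalDegree ≤ 1 := by
  obtain ⟨a, b⟩ := i
  cases a with
  | none =>
    cases b with
    | none =>
      show (1 : MvPolynomial (V × V') K).totalDegree ≤ 1
      rw [totalDegree_one]
      exact Nat.zero_le _
    | some b =>
      show (0 : MvPolynomial (V × V') K).totalDegree ≤ 1
      rw [totalDegree_zero]
      exact Nat.zero_le _
  | some a =>
    cases b with
    | none =>
      show (0 : MvPolynomial (V × V') K).totalDegree ≤ 1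
      rw [totalDegree_zero]
      exact Nat.zero_le _
    | some b =>
      show (X (a, b) : MvPolynomial (V × V') K).totalDegree ≤ 1
      rw [totalDegree_X]

/-- Substitutions of linear polynomials do not raise the degree. -/
theorem bind_degree {K σ τ : Type} [Field K] (s : σ → MvPolynomial τ K)
    (hs : ∀ i, (s i).totalDegree ≤ 1) (p : MvPolynomial σ K) :
    (aeval s p).totalDegree ≤ p.totalDegree := by
  rw [aeval_def, eval₂_eq]
  refine (totalDegree_finset_sum _ _).trans (Finset.sup_le fun m hm => ?_)
  refine (totalDegree_mul _ _).trans ?_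
  have h1 : ((algebraMap K (MvPolynomial τ K)) (p.coeff m)).totalDegree = 0 :=
    totalDegree_C _
  rw [h1, zero_add]
  refine (totalDegree_finset_prod _ _).trans ?_
  refine le_trans (Finset.sum_le_sum fun i _ => (?_ : _ ≤ m i)) (le_totalDegree hm)
  refine (totalDegree_pow _ _).trans ?_
  calc m i * (s i).totalDegree ≤ m i * 1 := Nat.mul_le_mul_left _ (hs i)
    _ = m i := mul_one _

theorem sub_axiom {K : Type} [Field K] {V : Type} [Fintype V] {T T' : V → V → Prop}
    {p : MvPolynomial (Option V × Option V) K} (hp : IsoAxiom K (pad T) (pad T') p) :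
    IsoAxiom K T T' (aeval (sub K V V) p) ∨ aeval (sub K V V) p = 0 := by
  cases hp with
  | bool u v =>
    rw [map_sub, map_pow, aeval_X]
    cases u with
    | none =>
      cases v with
      | none => right; show (1 : MvPolynomial (V × V) K) ^ 2 - 1 = 0; ring
      | some v => right; show (0 : MvPolynomial (V × V) K) ^ 2 - 0 = 0; ring
    | some u =>
      cases v with
      | none => right; show (0 : MvPolynomial (V × V) K) ^ 2 - 0 = 0; ring
      | some v => left; exact IsoAxiom.bool u v
  | row u =>
    rw [map_sub, map_sum, map_one, Fintype.sum_option]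
    simp only [aeval_X]
    cases u with
    | none =>
      right
      show (1 : MvPolynomial (V × V) K) + ∑ _x : V, 0 - 1 = 0
      rw [Finset.sum_const_zero]
      ring
    | some u =>
      left
      show IsoAxiom K T T' ((0 : MvPolynomial (V × V) K) + ∑ v : V, X (u, v) - 1)
      rw [zero_add]
      exact IsoAxiom.row u
  | col v =>
    rw [map_sub, map_sum, map_one, Fintype.sum_option]
    simp only [aeval_X]
    cases v with
    | none =>
      right
      show (1 : MvPolynomial (V × V) K) + ∑ _x : V, 0 - 1 = 0
      rw [Finset.sum_const_zero]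
      ring
    | some v =>
      left
      show IsoAxiom K T T' ((0 : MvPolynomial (V × V) K) + ∑ u : V, X (u, v) - 1)
      rw [zero_add]
      exact IsoAxiom.col v
  | pair u u' v v' h =>
    rw [map_mul, aeval_X, aeval_X]
    rcases u with _ | u <;> rcases v with _ | v <;> rcases u' with _ | u' <;> rcases v' with _ | v'
    · exact (h ⟨Iff.rfl, Iff.rfl⟩).elim
    · right; exact mul_zero _
    · right; exact mul_zero _
    · refine (h ⟨?_, Iff.rfl⟩).elim
      exact ⟨fun h => (Option.some_ne_none _ h.symm).elim,
        fun h => (Option.some_ne_none _ h.symm).elim⟩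
    · right; exact zero_mul _
    · right; exact zero_mul _
    · right; exact zero_mul _
    · right; exact zero_mul _
    · right; exact zero_mul _
    · right; exact zero_mul _
    · right; exact zero_mul _
    · right; exact zero_mul _
    · refine (h ⟨?_, Iff.rfl⟩).elim
      exact ⟨fun h => (Option.some_ne_none _ h).elim, fun h => (Option.some_ne_none _ h).elim⟩
    · right; exact mul_zero _
    · right; exact mul_zero _
    · left
      refine IsoAxiom.pair u u' v v' fun h' => h ⟨?_, h'.2⟩
      constructor
      · intro h2
        exact congrArg some (h'.1.1 (Option.some_injective _ h2))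
      · intro h2
        exact congrArg some (h'.1.2 (Option.some_injective _ h2))

theorem sub_derives {K : Type} [Field K] {V : Type} [Fintype V] {T T' : V → V → Prop} {d : ℕ}
    {p : MvPolynomial (Option V × Option V) K}
    (hp : PCDerives (IsoAxiom K (pad T) (pad T')) d p) :
    aeval (sub K V V) p = 0 ∨ PCDerives (IsoAxiom K T T') d (aeval (sub K V V) p) := by
  induction hp with
  | ax p h hd =>
    rcases sub_axiom h with h1 | h1
    · exact Or.inr (PCDerives.ax _ h1 ((bind_degree _ (sub_degree K V V) p).trans hd))
    · exact Or.inl h1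
  | add p q _ _ h1 h2 =>
    rw [map_add]
    rcases h1 with h1 | h1
    · rw [h1, zero_add]
      exact h2
    · rcases h2 with h2 | h2
      · rw [h2, add_zero]
        exact Or.inr h1
      · exact Or.inr (PCDerives.add _ _ h1 h2)
  | smul c p _ h1 =>
    have h3 : aeval (sub K V V) (C c * p) = C c * aeval (sub K V V) p := by
      rw [map_mul, aeval_C]
      rfl
    rw [h3]
    rcases h1 with h1 | h1
    · left
      rw [h1, mul_zero]
    · exact Or.inr (PCDerives.smul _ _ h1)
  | mul i p _ hd h1 =>
    have h4 := (bind_degree _ (sub_degree K V V) (X i * p)).trans hd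
    rw [map_mul, aeval_X] at h4 ⊢
    rcases h1 with h1 | h1
    · left
      rw [h1, mul_zero]
    · obtain ⟨a, b⟩ := i
      rcases a with _ | a <;> rcases b with _ | b
      · right
        have h5 : sub K V V (none, none) = 1 := rfl
        rw [h5, one_mul]
        exact h1
      · left
        exact zero_mul _
      · left
        exact zero_mul _
      · right
        exact PCDerives.mul (a, b) _ h1 h4

theorem pad_pc {K : Type} [Field K] {V : Type} [Fintype V] {T T' : V → V → Prop} {d : ℕ}
    (h : ¬ PCRefutes K T T' d) : ¬ PCRefutes K (pad T) (pad T') d := by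
  intro h1
  have h2 := sub_derives h1
  rw [map_one] at h2
  rcases h2 with h2 | h2
  · exact one_ne_zero h2
  · exact h h2

theorem pad_pos {V : Type} [Fintype V] {T T' : V → V → Prop} {d : ℕ}
    (h : ¬ PosRefutes T T' d) : ¬ PosRefutes (pad T) (pad T') d := by
  rintro ⟨m, q, hq, h1⟩
  have h2 := sub_derives h1
  have h3 : aeval (sub ℝ V V) (1 + ∑ i, q i ^ 2) = 1 + ∑ i, (aeval (sub ℝ V V) (q i)) ^ 2 := by
    rw [map_add, map_one, map_sum]
    simp only [map_pow]
  rw [h3] at h2
  rcases h2 with h2 | h2
  · have h4 := congrArg (MvPolynomial.eval (fun _ => (0 : ℝ))) h2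
    rw [map_add, map_one, map_sum, map_zero] at h4
    simp only [map_pow] at h4
    have h5 : 0 ≤ ∑ i, (MvPolynomial.eval (fun _ => (0 : ℝ)) (aeval (sub ℝ V V) (q i))) ^ 2 :=
      Finset.sum_nonneg fun i _ => sq_nonneg _
    linarith
  · refine h ⟨m, fun i => aeval (sub ℝ V V) (q i), fun i => ?_, h2⟩
    exact (Nat.mul_le_mul_left 2 (bind_degree _ (sub_degree ℝ V V) (q i))).trans (hq i)

/-- Hard pairs of tournaments with exactly `n` vertices. -/
def Hard (n d : ℕ) : Prop :=
  ∃ (V : Type) (_ : Fintype V) (T T' : V → V → Prop),
    Fintype.card V = n ∧ IsTournament T ∧ IsTournament T' ∧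
    (¬ ∃ φ : V ≃ V, ∀ x y, T x y ↔ T' (φ x) (φ y)) ∧
    (∀ (K : Type) [Field K], ¬ PCRefutes K T T' d) ∧ ¬ PosRefutes T T' d

theorem hard_succ {n d : ℕ} (h : Hard n d) : Hard (n + 1) d := by
  obtain ⟨V, iV, T, T', h1, h2, h3, h4, h5, h6⟩ := h
  refine ⟨Option V, inferInstance, pad T, pad T', ?_, pad_tournament h2, pad_tournament h3,
    pad_not_iso h4, fun K _ => pad_pc (h5 K), pad_pos h6⟩
  rw [Fintype.card_option, h1]

theorem hard {n d : ℕ} (hd : 1 ≤ d) (hn : 10 ^ 18 * d ≤ n) : Hard n d := by
  obtain ⟨V, iV, T, T', h1, h2, h3, h4, h5, h6⟩ := mainProofs d hd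
  have h0 : Hard (Fintype.card V) d := ⟨V, iV, T, T', rfl, h2, h3, h4, h5, h6⟩
  have h7 : ∀ k, Hard (Fintype.card V + k) d := by
    intro k
    induction k with
    | zero => exact h0
    | succ k ih => exact hard_succ ih
  have h8 := h7 (n - Fintype.card V)
  rwa [Nat.add_sub_cancel' (h1.trans hn)] at h8

end Pool.Agent.R532.TourPad
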