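import Pool.Agent.TH700.PA.Density
import Pool.Agent.TH700.PA.Count
import Mathlib.Data.Sym.Card
import Mathlib.Algebra.Order.Ring.Pow
import Mathlib.Tactic.Ring

/-!
# Mixtures of graphs with small vertex covers
-/

set_option autoImplicit false

open Finset

namespace Pool.Agent.R532.Vc

open Pool.Agent.TH700.PA

variable {n q t : ℕ}

/-- `C` is a vertex cover of the graph on the vertices `Fin n` with the edge bits `x`. -/
def Cover (x : Sym2 (Fin n) → Bool) (C : Finset (Fin n)) : Prop :=
  ∀ u v, u ≠ v → x s(u, v) = true → u ∈ C ∨ v ∈ C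

/-- The graph of a pattern: the colour `0` is joined to all vertices. -/
noncomputable def pat (P : Fin n → Fin q) (e : Sym2 (Fin n)) : Bool :=
  by classical exact decide (∃ v, v ∈ e ∧ (P v : ℕ) = 0)

theorem pat_eq_false {P : Fin n → Fin q} {e : Sym2 (Fin n)} (h : pat P e = false) {v : Fin n}
    (hv : v ∈ e) : (P v : ℕ) ≠ 0 := by
  intro h0
  unfold pat at h
  rw [decide_eq_false_iff_not] at h
  exact h ⟨v, hv, h0⟩

theorem pat_cover (P : Fin n → Fin q) : Cover (pat P) (univ.filter (fun v => (P v : ℕ) = 0)) := by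
  intro u v _ h
  unfold pat at h
  rw [decide_eq_true_iff] at h
  obtain ⟨w, hw, h0⟩ := h
  rw [Sym2.mem_iff] at hw
  rcases hw with rfl | rfl
  · exact Or.inl (mem_filter.2 ⟨mem_univ _, h0⟩)
  · exact Or.inr (mem_filter.2 ⟨mem_univ _, h0⟩)

/-- The pairs (part, vertex of `J`) for which some pair of `J` at this vertex is in this part. -/
noncomputable def touched (p : Sym2 (Fin n) → Fin t) (J : Finset (Fin n)) :
    Finset (Fin t × Fin n) :=
  by classical exact univ.filter (fun s => s.2 ∈ J ∧ ∃ u ∈ J, u ≠ s.2 ∧ p s(u, s.2) = s.1)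

theorem touched_ne {p : Sym2 (Fin n) → Fin t} {b : Fin t → Fin n → Fin q} {J : Finset (Fin n)}
    (h : ∀ u ∈ J, ∀ v ∈ J, u ≠ v → mixp p pat b s(u, v) = false) :
    ∀ s ∈ touched p J, (b s.1 s.2 : ℕ) ≠ 0 := by
  intro s hs
  unfold touched at hs
  obtain ⟨-, hv, u, hu, huv, hp⟩ := mem_filter.1 hs
  have h1 := h u hu s.2 hv huv
  unfold mixp at h1
  rw [hp] at h1
  exact pat_eq_false h1 (Sym2.mem_mk_right _ _)

/-- The number of the tuples which avoid the colour `0` at the places in `S`. -/
theorem card_avoid (S : Finset (Fin t × Fin n)) :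
    (univ.filter (fun b : Fin t → Fin n → Fin q => ∀ s ∈ S, (b s.1 s.2 : ℕ) ≠ 0)).card *
      q ^ S.card ≤ (q - 1) ^ S.card * Fintype.card (Fin n → Fin q) ^ t := by
  classical
  have h1 : univ.filter (fun b : Fin t → Fin n → Fin q => ∀ s ∈ S, (b s.1 s.2 : ℕ) ≠ 0) ⊆
      Fintype.piFinset (fun j => Fintype.piFinset (fun w =>
        if (j, w) ∈ S then (univ.filter (fun c : Fin q => (c : ℕ) ≠ 0)) else univ)) := by
    intro b hb
    rw [Fintype.mem_piFinset]
    intro j
    rw [Fintype.mem_piFinset]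
    intro w
    by_cases hw : (j, w) ∈ S
    · rw [if_pos hw, mem_filter]
      exact ⟨mem_univ _, (mem_filter.1 hb).2 (j, w) hw⟩
    · rw [if_neg hw]
      exact mem_univ _
  have hq : (univ.filter (fun c : Fin q => (c : ℕ) ≠ 0)).card ≤ q - 1 := by
    rcases Nat.eq_zero_or_pos q with rfl | hq
    · simp
    · have h2 : univ.filter (fun c : Fin q => (c : ℕ) ≠ 0) ⊆ univ.erase (⟨0, hq⟩ : Fin q) := by
        intro c hc
        refine mem_erase.2 ⟨fun h => (mem_filter.1 hc).2 ?_, mem_univ _⟩
        rw [h]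
      refine (card_le_card h2).trans ?_
      rw [card_erase_of_mem (mem_univ _), card_univ, Fintype.card_fin]
  have hprod : ∀ r : ℕ, ∏ j : Fin t, ∏ w : Fin n, (if (j, w) ∈ S then r else 1) = r ^ S.card := by
    intro r
    rw [← Fintype.prod_prod_type' (f := fun j w => if (j, w) ∈ S then r else 1)]
    rw [prod_ite, prod_const_one, mul_one, prod_const]
    congr 2
    ext s
    simp
  refine (Nat.mul_le_mul_right _ (card_le_card h1)).trans ?_
  rw [Fintype.card_piFinset, ← hprod q, ← hprod (q - 1), ← prod_mul_distrib]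
  have h2 : ∀ j : Fin t, (Fintype.piFinset (fun w =>
        if (j, w) ∈ S then (univ.filter (fun c : Fin q => (c : ℕ) ≠ 0)) else univ)).card *
      ∏ w, (if (j, w) ∈ S then q else 1) ≤
        (∏ w, (if (j, w) ∈ S then (q - 1) else 1)) * Fintype.card (Fin n → Fin q) := by
    intro j
    rw [Fintype.card_piFinset, ← prod_mul_distrib]
    have h3 : Fintype.card (Fin n → Fin q) = ∏ _w : Fin n, q := by
      rw [prod_const, card_univ, Fintype.card_fun, Fintype.card_fin, Fintype.card_fin]
    rw [h3, ← prod_mul_distrib]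
    refine prod_le_prod' fun w _ => ?_
    split_ifs
    · exact Nat.mul_le_mul_right _ hq
    · rw [mul_one, one_mul, card_univ, Fintype.card_fin]
  refine (prod_le_prod' fun j _ => h2 j).trans (le_of_eq ?_)
  rw [prod_mul_distrib, prod_const, card_univ, Fintype.card_fin]

theorem choose_two_le (a : ℕ) : 2 * a.choose 2 ≤ a * a := by
  rw [Nat.choose_two_right]
  have h1 := Nat.mul_div_le (a * (a - 1)) 2
  have h2 : a * (a - 1) ≤ a * a := Nat.mul_le_mul_left _ (Nat.sub_le _ _)
  omega

/-- Many pairs are touched. -/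
theorem card_touched {y : ℕ} (p : Sym2 (Fin n) → Fin t)
    (hb : ∀ j, (univ.filter (fun e => p e = j)).card ≤ 2 * y ^ 2) (J : Finset (Fin n)) :
    J.card.choose 2 ≤ y * (touched p J).card := by
  classical
  have h1 : (J.offDiag.image Sym2.mk.uncurry).card =
      ∑ j, ((J.offDiag.image Sym2.mk.uncurry).filter (fun e => p e = j)).card :=
    card_eq_sum_card_fiberwise (fun _ _ => mem_univ _)
  have h2 : (touched p J).card = ∑ j, ((touched p J).filter (fun s => s.1 = j)).card :=
    card_eq_sum_card_fiberwise (fun _ _ => mem_univ _)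
  rw [← Sym2.card_image_offDiag, h1, h2, mul_sum]
  refine sum_le_sum fun j _ => ?_
  have h3 : ((J.offDiag.image Sym2.mk.uncurry).filter (fun e => p e = j)).card ≤ 2 * y ^ 2 := by
    refine le_trans (card_le_card fun e he => ?_) (hb j)
    exact mem_filter.2 ⟨mem_univ _, (mem_filter.1 he).2⟩
  obtain ⟨A, hA⟩ : ∃ A : Finset (Fin n), A = univ.filter (fun v => (j, v) ∈ touched p J) :=
    ⟨_, rfl⟩
  have hAc : A.card = ((touched p J).filter (fun s => s.1 = j)).card := by
    rw [hA]
    refine card_bij (fun v _ => (j, v)) (fun v hv => ?_) (fun v _ v' _ h => ?_) (fun s hs => ?_)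
    · exact mem_filter.2 ⟨(mem_filter.1 hv).2, rfl⟩
    · exact (Prod.ext_iff.1 h).2
    · obtain ⟨hs1, hs2⟩ := mem_filter.1 hs
      refine ⟨s.2, mem_filter.2 ⟨mem_univ _, ?_⟩, ?_⟩
      · rw [← hs2]
        exact hs1
      · rw [← hs2]
  have h4 : ((J.offDiag.image Sym2.mk.uncurry).filter (fun e => p e = j)).card ≤ A.card.choose 2 := by
    rw [← Sym2.card_image_offDiag]
    refine card_le_card fun e he => ?_
    obtain ⟨he1, he2⟩ := mem_filter.1 he
    obtain ⟨⟨u, v⟩, huv, rfl⟩ := mem_image.1 he1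
    rw [mem_offDiag] at huv
    obtain ⟨hu, hv, hne⟩ := huv
    refine mem_image.2 ⟨(u, v), ?_, rfl⟩
    rw [mem_offDiag, hA]
    unfold touched
    refine ⟨mem_filter.2 ⟨mem_univ _, mem_filter.2 ⟨mem_univ _, hu, v, hv, hne.symm, ?_⟩⟩,
      mem_filter.2 ⟨mem_univ _, mem_filter.2 ⟨mem_univ _, hv, u, hu, hne, ?_⟩⟩, hne⟩
    · rw [Sym2.eq_swap]
      exact he2
    · exact he2
  rw [← hAc]
  have h5 := choose_two_le A.card
  obtain ⟨k, hk⟩ : ∃ k, k = A.card := ⟨_, rfl⟩
  obtain ⟨m, hm⟩ : ∃ m, m = ((J.offDiag.image Sym2.mk.uncurry).filter (fun e => p e = j)).card := ⟨_, rfl⟩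
  rw [← hk] at h4 h5 ⊢
  rw [← hm] at h3 h4 ⊢
  rcases le_total k (2 * y) with h6 | h6
  · have h7 : k * k ≤ 2 * y * k := Nat.mul_le_mul_right _ h6
    have h8 : 2 * y * k = 2 * (y * k) := by ring
    omega
  · refine h3.trans ?_
    nlinarith

theorem pow_q {q : ℕ} (hq : 1 ≤ q) (m s : ℕ) (hs : q * m ≤ s) :
    2 ^ m * (q - 1) ^ s ≤ q ^ s := by
  obtain ⟨r, rfl⟩ := Nat.exists_eq_add_of_le hs
  obtain ⟨k, rfl⟩ := Nat.exists_eq_add_of_le hq
  have h1 : 2 * k ^ (1 + k) ≤ (1 + k) ^ (1 + k) := by
    rcases Nat.eq_zero_or_pos k with rfl | hk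
    · simp
    · have h2 : k ^ (1 + k) + (1 + k) * k ^ k ≤ (1 + k) ^ (1 + k) := by
        have h3 : (k + 1) ^ (k + 1) = ∑ i ∈ range (k + 1 + 1), k ^ i * (k + 1).choose i := by
          have := add_pow k 1 (k + 1)
          simpa using this
        have h4 : ∑ i ∈ range (k + 1 + 1), k ^ i * (k + 1).choose i ≥
            k ^ (k + 1) * (k + 1).choose (k + 1) + k ^ k * (k + 1).choose k := by
          rw [sum_range_succ, sum_range_succ]
          omega
        rw [add_comm 1 k, h3]
        refine le_trans (le_of_eq ?_) h4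
        rw [Nat.choose_self, Nat.choose_succ_self_right]
        ring
      have h5 : k ^ (1 + k) ≤ (1 + k) * k ^ k := by
        rw [pow_add, pow_one]
        exact Nat.mul_le_mul_right _ (by omega)
      omega
  have h6 : 1 + k - 1 = k := by omega
  rw [h6]
  calc 2 ^ m * k ^ ((1 + k) * m + r) = (2 * k ^ (1 + k)) ^ m * k ^ r := by
        rw [pow_add, pow_mul, mul_pow]
        ring
    _ ≤ ((1 + k) ^ (1 + k)) ^ m * (1 + k) ^ r :=
        Nat.mul_le_mul (Nat.pow_le_pow_left h1 _) (Nat.pow_le_pow_left (by omega) _)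
    _ = _ := by rw [← pow_mul, ← pow_add]

/-- Most mixtures have no small vertex cover. -/
theorem few_bad {g y : ℕ} (hg : 1 ≤ g) (hq : 2 ≤ q) (hn : 2 * g ≤ n) (hy1 : 1 ≤ y)
    (hy : 12 * g ^ 2 * q * y ≤ n) (p : Sym2 (Fin n) → Fin t)
    (hb : ∀ j, (univ.filter (fun e => p e = j)).card ≤ 2 * y ^ 2) :
    ∃ B : Finset (Fin t → Fin n → Fin q),
      (∀ b, ¬ (∀ C, Cover (mixp p pat b) C → g * n < g * C.card + n) → b ∈ B) ∧
      B.card * 2 ^ (2 * n) ≤ Fintype.card (Fin n → Fin q) ^ t := by
  classical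
  obtain ⟨u, hu⟩ : ∃ u, u = Fintype.card (Fin n → Fin q) ^ t := ⟨_, rfl⟩
  rw [← hu]
  let X : Finset (Fin n) → Finset (Fin t → Fin n → Fin q) := fun J =>
    univ.filter (fun b : Fin t → Fin n → Fin q => ∀ s ∈ touched p J, (b s.1 s.2 : ℕ) ≠ 0)
  let I : Finset (Finset (Fin n)) := univ.filter (fun J => n ≤ g * J.card)
  refine ⟨I.biUnion X, fun b hval => ?_, ?_⟩
  · push Not at hval
    obtain ⟨C, hC, hle⟩ := hval
    rw [mem_biUnion]
    refine ⟨Cᶜ, mem_filter.2 ⟨mem_univ _, ?_⟩, mem_filter.2 ⟨mem_univ _, touched_ne ?_⟩⟩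
    · rw [card_compl, Fintype.card_fin]
      have h1 : C.card ≤ n := by
        have := card_le_univ C
        rwa [Fintype.card_fin] at this
      obtain ⟨d, hd⟩ := Nat.exists_eq_add_of_le h1
      have h2 : n - C.card = d := by omega
      rw [h2]
      have h3 : g * n = g * C.card + g * d := by
        conv_lhs => rw [hd]
        ring
      omega
    · intro v hv w hw hvw
      by_contra hne
      rw [Bool.not_eq_false] at hne
      rw [mem_compl] at hv hw
      exact (hC v w hvw hne).elim hv hw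
  · have hX : ∀ J ∈ I, (X J).card * 2 ^ (3 * n) ≤ u := by
      intro J hJ
      have hJn : n ≤ g * J.card := (mem_filter.1 hJ).2
      obtain ⟨k, hk⟩ : ∃ k, k = J.card := ⟨_, rfl⟩
      rw [← hk] at hJn
      have hk2 : 2 ≤ k := by
        by_contra hcon
        rw [not_le] at hcon
        have : g * k ≤ g * 1 := Nat.mul_le_mul_left _ (by omega)
        omega
      have h1 := card_touched p hb J
      rw [← hk] at h1
      obtain ⟨s, hs⟩ : ∃ s, s = (touched p J).card := ⟨_, rfl⟩
      rw [← hs] at h1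
      have h2 : k * k ≤ 4 * k.choose 2 := by
        rw [Nat.choose_two_right]
        have e1 : 2 * (k * (k - 1) / 2) = k * (k - 1) :=
          Nat.mul_div_cancel' (by
            have := Nat.even_mul_pred_self k
            exact this.two_dvd)
        obtain ⟨r, rfl⟩ := Nat.exists_eq_add_of_le hk2
        have e2 : 2 + r - 1 = 1 + r := by omega
        rw [e2] at e1 ⊢
        nlinarith
      have h3 : q * (3 * n) ≤ s := by
        have e1 : n * n ≤ (g * k) * (g * k) := Nat.mul_le_mul hJn hJn
        have e2 : n * (12 * g ^ 2 * q * y) ≤ n * n := Nat.mul_le_mul_left _ hy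
        have e3 : (g * k) * (g * k) ≤ g ^ 2 * (4 * (y * s)) := by
          calc (g * k) * (g * k) = g ^ 2 * (k * k) := by ring
            _ ≤ g ^ 2 * (4 * (y * s)) :=
              Nat.mul_le_mul_left _ (h2.trans (Nat.mul_le_mul_left _ h1))
        have e4 : (4 * g ^ 2 * y) * (q * (3 * n)) ≤ (4 * g ^ 2 * y) * s := by
          calc (4 * g ^ 2 * y) * (q * (3 * n)) = n * (12 * g ^ 2 * q * y) := by ring
            _ ≤ g ^ 2 * (4 * (y * s)) := (e2.trans e1).trans e3
            _ = _ := by ring
        exact Nat.le_of_mul_le_mul_left e4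
          (Nat.mul_pos (Nat.mul_pos (by norm_num) (pow_pos hg 2)) hy1)
      have h4 := card_avoid (q := q) (touched p J)
      rw [← hs, ← hu] at h4
      have h5 := pow_q (by omega : 1 ≤ q) (3 * n) s h3
      have h6 : 0 < (q - 1) ^ s := pow_pos (by omega) _
      refine Nat.le_of_mul_le_mul_left (c := (q - 1) ^ s) ?_ h6
      calc (q - 1) ^ s * ((X J).card * 2 ^ (3 * n)) =
          (X J).card * (2 ^ (3 * n) * (q - 1) ^ s) := by ring
        _ ≤ (X J).card * q ^ s := Nat.mul_le_mul_left _ h5
        _ ≤ _ := h4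
    have h7 : (I.biUnion X).card * 2 ^ (3 * n) ≤ 2 ^ n * u := by
      calc (I.biUnion X).card * 2 ^ (3 * n) ≤ (∑ J ∈ I, (X J).card) * 2 ^ (3 * n) :=
            Nat.mul_le_mul_right _ card_biUnion_le
        _ = ∑ J ∈ I, (X J).card * 2 ^ (3 * n) := sum_mul _ _ _
        _ ≤ ∑ _J ∈ I, u := sum_le_sum hX
        _ = I.card * u := by rw [sum_const, smul_eq_mul]
        _ ≤ _ := by
          refine Nat.mul_le_mul_right _ ((card_le_univ _).trans (le_of_eq ?_))
          rw [Fintype.card_finset, Fintype.card_fin]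
    refine Nat.le_of_mul_le_mul_left (c := 2 ^ n) ?_ (by positivity)
    calc 2 ^ n * ((I.biUnion X).card * 2 ^ (2 * n)) = (I.biUnion X).card * 2 ^ (3 * n) := by
          rw [show 3 * n = n + 2 * n by ring, pow_add]
          ring
      _ ≤ _ := h7

/-- Some colour class is small. -/
theorem card_small (hq : 1 ≤ q) :
    Fintype.card (Fin n → Fin q) ≤ 2 ^ q *
      (univ.filter (fun P : Fin n → Fin q =>
        q * (univ.filter (fun v => (P v : ℕ) = 0)).card ≤ n)).card := by
  classical
  obtain ⟨Y, hY⟩ : ∃ Y : Fin q → Finset (Fin n → Fin q), Y = fun c => univ.filter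
      (fun P : Fin n → Fin q => q * (univ.filter (fun v => P v = c)).card ≤ n) := ⟨_, rfl⟩
  let z : Fin q := ⟨0, hq⟩
  have hz : univ.filter (fun P : Fin n → Fin q =>
        q * (univ.filter (fun v => (P v : ℕ) = 0)).card ≤ n) = Y z := by
    rw [hY]
    refine filter_congr fun P _ => ?_
    have h1 : univ.filter (fun v => (P v : ℕ) = 0) = univ.filter (fun v => P v = z) := by
      refine filter_congr fun v _ => ?_
      rw [Fin.ext_iff]
    rw [h1]
  have h1 : ∀ c, (Y c).card = (Y z).card := by
    intro c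
    refine card_bij (fun P _ v => Equiv.swap c z (P v)) (fun P hP => ?_) (fun P _ P' _ h => ?_)
      (fun P hP => ?_)
    · rw [hY] at hP ⊢
      refine mem_filter.2 ⟨mem_univ _, ?_⟩
      have h2 : univ.filter (fun v => Equiv.swap c z (P v) = z) =
          univ.filter (fun v => P v = c) := by
        refine filter_congr fun v _ => ?_
        constructor
        · intro h
          have h3 := congrArg (Equiv.swap c z) h
          rwa [Equiv.swap_apply_self, Equiv.swap_apply_right] at h3
        · intro h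
          rw [h, Equiv.swap_apply_left]
      rw [h2]
      exact (mem_filter.1 hP).2
    · funext v
      exact (Equiv.swap c z).injective (congrFun h v)
    · refine ⟨fun v => Equiv.swap c z (P v), ?_, ?_⟩
      · rw [hY] at hP ⊢
        refine mem_filter.2 ⟨mem_univ _, ?_⟩
        have h2 : univ.filter (fun v => Equiv.swap c z (P v) = c) =
            univ.filter (fun v => P v = z) := by
          refine filter_congr fun v _ => ?_
          constructor
          · intro h
            have h3 := congrArg (Equiv.swap c z) h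
            rwa [Equiv.swap_apply_self, Equiv.swap_apply_left] at h3
          · intro h
            rw [h, Equiv.swap_apply_right]
        rw [h2]
        exact (mem_filter.1 hP).2
      · funext v
        exact Equiv.swap_apply_self _ _ _
  have h2 : (univ : Finset (Fin n → Fin q)) ⊆ univ.biUnion Y := by
    intro P _
    rw [mem_biUnion]
    by_contra hcon
    push Not at hcon
    have h3 : ∀ c, n < q * (univ.filter (fun v => P v = c)).card := by
      intro c
      have h4 := hcon c (mem_univ _)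
      rw [hY, mem_filter] at h4
      push Not at h4
      exact h4 (mem_univ _)
    have h5 : ∑ c : Fin q, (univ.filter (fun v => P v = c)).card = n := by
      have h6 := card_eq_sum_card_fiberwise (s := (univ : Finset (Fin n))) (f := P) (t := univ)
        (fun _ _ => mem_univ _)
      rw [← h6, card_univ, Fintype.card_fin]
    have h7 : ∑ _c : Fin q, n < ∑ c : Fin q, q * (univ.filter (fun v => P v = c)).card :=
      sum_lt_sum_of_nonempty ⟨z, mem_univ _⟩ fun c _ => h3 c
    rw [← mul_sum, h5, sum_const, card_univ, Fintype.card_fin, smul_eq_mul] at h7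
    exact lt_irrefl _ h7
  rw [hz]
  calc Fintype.card (Fin n → Fin q) = (univ : Finset (Fin n → Fin q)).card := card_univ.symm
    _ ≤ (univ.biUnion Y).card := card_le_card h2
    _ ≤ ∑ c, (Y c).card := card_biUnion_le
    _ = q * (Y z).card := by
      rw [sum_congr rfl fun c _ => h1 c, sum_const, card_univ, Fintype.card_fin, smul_eq_mul]
    _ ≤ _ := Nat.mul_le_mul_right _ Nat.lt_two_pow_self.le

end Pool.Agent.R532.Vc
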