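import Pool.Agent.R532.Vc1
import Mathlib.Data.Nat.Factorial.BigOperators
import Mathlib.Data.Nat.Choose.Basic
import Mathlib.Data.Rat.Defs
import Mathlib.Algebra.Order.BigOperators.Ring.Finset

/-!
# Tensor networks for vertex covers: the bounds
-/

set_option autoImplicit false

open Finset

namespace Pool.Agent.R532.Vc

open Pool.Agent.TH700.PA

theorem card_pairs (n : ℕ) : 2 * Fintype.card (Sym2 (Fin n)) = n * (n + 1) := by
  rw [Sym2.card, Fintype.card_fin, Nat.choose_two_right, Nat.add_sub_cancel,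
    Nat.mul_div_cancel']
  · rw [mul_comm]
  · rw [mul_comm]
    exact (Nat.even_mul_succ_self n).two_dvd

theorem lower : ∃ Γ : ℕ, 1 ≤ Γ ∧ ∀ g q n : ℕ, 1 ≤ g → 2 ≤ q → Γ * g ^ 8 * q ^ 4 ≤ n →
    ∀ (μ : ℕ) (R : Type) [Fintype R] [Nonempty R] (K W : R → Type) [∀ ρ, Field (K ρ)]
      [∀ ρ, Fintype (W ρ)] (T : ∀ ρ, Net (K ρ) (Sym2 (Fin n)) Bool (W ρ))
      (a : ∀ ρ, W ρ → K ρ),
      (∀ ρ e, (T ρ).reads e ≤ 1) →
      (∀ ρ x, (∀ C, Cover x C → g * n < g * C.card + n) → (T ρ).value (a ρ) x = 0) →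
      (∀ x, (∃ C, Cover x C ∧ q * C.card ≤ n) →
        Nat.card R ≤ 2 ^ μ * Nat.card {ρ // (T ρ).value (a ρ) x ≠ 0}) →
      ∃ ρ, 2 ^ n ≤ (2 ^ μ * Fintype.card (W ρ)) ^ (Γ * (g ^ 4 * q ^ 2)) := by
  classical
  refine ⟨2 ^ 22, by norm_num, fun g q n hg hq hn μ R _ _ K W _ _ T a h1 hno hyes => ?_⟩
  obtain ⟨G, hG⟩ : ∃ G, G = g ^ 4 * q ^ 2 := ⟨_, rfl⟩
  have hG1 : 1 ≤ G := by
    rw [hG]
    exact Nat.mul_pos (pow_pos hg 4) (pow_pos (by omega) 2)
  have hGG : g ^ 8 * q ^ 4 = G * G := by rw [hG]; ring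
  have hn' : 2 ^ 22 * (G * G) ≤ n := by
    rw [← hGG, ← mul_assoc]
    exact hn
  have hqG : q ≤ G := by
    rw [hG]
    calc q ≤ q ^ 2 := Nat.le_self_pow (by norm_num) q
      _ = 1 * q ^ 2 := (one_mul _).symm
      _ ≤ _ := Nat.mul_le_mul_right _ (Nat.one_le_pow _ _ hg)
  have hgG : g ^ 2 * q ≤ G := by
    rw [hG]
    exact Nat.mul_le_mul (Nat.pow_le_pow_right hg (by norm_num)) (Nat.le_self_pow (by norm_num) q)
  have hg2 : g ≤ g ^ 2 * q := by
    calc g = g * 1 := (mul_one _).symm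
      _ ≤ g * (g * q) := Nat.mul_le_mul_left _ (Nat.mul_pos hg (by omega))
      _ = _ := by ring
  have hGn : G ≤ G * G := Nat.le_mul_of_pos_right _ hG1
  obtain ⟨t, ht⟩ : ∃ t, t = 1152 * G + 1 := ⟨_, rfl⟩
  obtain ⟨D, hD⟩ : ∃ D, D = 12 * g ^ 2 * q := ⟨_, rfl⟩
  have hDG : D ≤ 12 * G := by
    rw [hD]
    calc 12 * g ^ 2 * q = 12 * (g ^ 2 * q) := by ring
      _ ≤ _ := Nat.mul_le_mul_left _ hgG
  have hD1 : 1 ≤ D := by
    rw [hD]
    exact Nat.mul_pos (Nat.mul_pos (by norm_num) (pow_pos hg 2)) (by omega)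
  obtain ⟨y, hy⟩ : ∃ y, y = n / D := ⟨_, rfl⟩
  have hy1 : 1 ≤ y := by
    rw [hy]
    exact Nat.div_pos (by omega) (by omega)
  have hyn : D * y ≤ n := by
    rw [hy]
    exact Nat.mul_div_le n _
  have hny : n < D * (y + 1) := by
    rw [hy]
    exact Nat.lt_mul_div_succ n (by omega)
  have hn1 : 1 ≤ n := by omega
  have : Nonempty (Fin q) := ⟨⟨0, by omega⟩⟩
  have hE : 2 * Fintype.card (Sym2 (Fin n)) + y ^ 2 ≤ y ^ 2 * t := by
    rw [card_pairs, ht]
    have e1 : n ≤ 2 * D * y := by nlinarith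
    have e2 : n * (n + 1) ≤ 2 * (n * n) := by nlinarith
    have e3 : n * n ≤ (2 * D * y) * (2 * D * y) := Nat.mul_le_mul e1 e1
    have e4 : (2 * D * y) * (2 * D * y) = y ^ 2 * (576 * G) := by
      rw [hD, hG]
      ring
    calc n * (n + 1) + y ^ 2 ≤ 2 * (y ^ 2 * (576 * G)) + y ^ 2 := by omega
      _ = _ := by ring
  obtain ⟨ρ, hρ, hw1⟩ := rand_density μ R K W T a h1 (θ := y ^ 2) (t := t)
    (Nat.one_le_pow _ _ hy1) (by omega) hE (U := Fin n → Fin q) pat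
    (univ.filter (fun P : Fin n → Fin q => q * (univ.filter (fun v => (P v : ℕ) = 0)).card ≤ n))
    (η := q) (card_small (by omega))
    (fun P hP => hyes _ ⟨_, pat_cover P, (mem_filter.1 hP).2⟩) (N := 2 ^ (2 * n))
    (fun ρ p hp => by
        obtain ⟨B, hB1, hB2⟩ := few_bad (q := q) hg hq (by omega) hy1
          (by rw [← hD]; exact hyn) p hp
        exact ⟨B, fun b hb => hB1 b fun hv => hb (hno ρ _ hv), hB2⟩)
  refine ⟨ρ, ?_⟩
  obtain ⟨w, hw⟩ : ∃ w, w = Fintype.card (W ρ) := ⟨_, rfl⟩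
  rw [← hw] at hρ hw1 ⊢
  obtain ⟨X, hX⟩ : ∃ X, X = 2 ^ μ * w := ⟨_, rfl⟩
  have hX1 : 1 ≤ X := by
    rw [hX]
    exact Nat.mul_pos (Nat.pow_pos (by norm_num)) hw1
  rw [← hX]
  have e1 : 2 ^ (μ + q + 1) * (t * w ^ 3) ≤ 2 ^ (t + q + 1) * X ^ 3 := by
    have e2 : t ≤ 2 ^ t := Nat.lt_two_pow_self.le
    have e3 : 2 ^ μ ≤ (2 ^ μ) ^ 3 := by
      conv_lhs => rw [← pow_one (2 ^ μ)]
      exact Nat.pow_le_pow_right (Nat.pow_pos (by norm_num)) (by norm_num)
    calc 2 ^ (μ + q + 1) * (t * w ^ 3) = 2 ^ (q + 1) * (2 ^ μ * (t * w ^ 3)) := by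
          rw [show μ + q + 1 = (q + 1) + μ by ring, pow_add 2 (q + 1) μ]; ring
      _ ≤ 2 ^ (q + 1) * ((2 ^ μ) ^ 3 * (2 ^ t * w ^ 3)) :=
        Nat.mul_le_mul_left _ (Nat.mul_le_mul e3 (Nat.mul_le_mul_right _ e2))
      _ = _ := by rw [hX, show t + q + 1 = t + (q + 1) by ring, pow_add 2 t (q + 1)]; ring
  have e4 : 2 ^ (2 * n) ≤ 2 ^ ((t + q + 1) * (t + 1)) * X ^ (3 * (t + 1)) := by
    calc 2 ^ (2 * n) ≤ (2 ^ (t + q + 1) * X ^ 3) ^ (t + 1) := hρ.trans (Nat.pow_le_pow_left e1 _)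
      _ = _ := by rw [mul_pow, ← pow_mul, ← pow_mul]
  have e5 : 2 ^ ((t + q + 1) * (t + 1)) ≤ 2 ^ n := by
    refine Nat.pow_le_pow_right (by norm_num) ?_
    have f1 : t + q + 1 ≤ 1155 * G := by omega
    have f2 : t + 1 ≤ 1154 * G := by omega
    calc (t + q + 1) * (t + 1) ≤ (1155 * G) * (1154 * G) := Nat.mul_le_mul f1 f2
      _ = 1332870 * (G * G) := by ring
      _ ≤ 2 ^ 22 * (G * G) := Nat.mul_le_mul_right _ (by norm_num)
      _ ≤ n := hn'
  have e6 : 2 ^ n ≤ X ^ (3 * (t + 1)) := by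
    refine Nat.le_of_mul_le_mul_left (c := 2 ^ n) ?_ (by positivity)
    calc 2 ^ n * 2 ^ n = 2 ^ (2 * n) := by rw [← pow_add]; congr 1; ring
      _ ≤ _ := e4
      _ ≤ _ := Nat.mul_le_mul_right _ e5
  refine e6.trans (Nat.pow_le_pow_right hX1 ?_)
  rw [← hG]
  omega

/-! ### upper bounds -/

open Classical in
/-- The factor of the pair `e` for the set `J` of vertices. -/
noncomputable def fac {n : ℕ} (J : Finset (Fin n)) (e : Sym2 (Fin n)) (b : Bool) : ℚ :=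
  if (∀ v ∈ e, v ∈ J) ∧ ¬ e.IsDiag ∧ b = true then 0 else 1

theorem fac_nonneg {n : ℕ} (J : Finset (Fin n)) (e : Sym2 (Fin n)) (b : Bool) :
    0 ≤ fac J e b := by
  unfold fac
  split_ifs <;> norm_num

theorem prod_fac {n : ℕ} (J : Finset (Fin n)) (x : Sym2 (Fin n) → Bool) :
    0 ≤ ∏ e, fac J e (x e) ∧ (∏ e, fac J e (x e) ≠ 0 ↔ Cover x Jᶜ) := by
  refine ⟨prod_nonneg fun e _ => fac_nonneg J e _, ?_⟩
  rw [prod_ne_zero_iff]
  constructor
  · intro h u v huv hx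
    by_contra hcon
    push Not at hcon
    obtain ⟨hu, hv⟩ := hcon
    rw [mem_compl, not_not] at hu hv
    refine h s(u, v) (mem_univ _) ?_
    unfold fac
    rw [if_pos]
    refine ⟨fun w hw => ?_, ?_, hx⟩
    · rw [Sym2.mem_iff] at hw
      rcases hw with rfl | rfl
      · exact hu
      · exact hv
    · rw [Sym2.mk_isDiag_iff]
      exact huv
  · intro h e _
    unfold fac
    rw [if_neg]
    · exact one_ne_zero
    · rintro ⟨he, hd, hx⟩
      revert he hd hx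
      refine Sym2.ind (fun u v => ?_) e
      intro he hd hx
      rw [Sym2.mk_isDiag_iff] at hd
      rcases h u v hd hx with h1 | h1
      · exact (mem_compl.1 h1) (he u (Sym2.mem_mk_left _ _))
      · exact (mem_compl.1 h1) (he v (Sym2.mem_mk_right _ _))

/-- The exact weighted problem. -/
theorem upper_exact {n : ℕ} (hn : 1 ≤ n) (w : Fin n → ℚ) (τ : ℚ) :
    ∃ (T : Net ℚ (Sym2 (Fin n)) Bool (Finset (Fin n))) (a : Finset (Fin n) → ℚ),
      T.Linear ∧ (∀ e, T.reads e = 1) ∧ T.size = n * (n + 1) - 1 ∧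
        ∀ x, T.value a x ≠ 0 ↔ ∃ C, Cover x C ∧ ∑ v ∈ C, w v ≤ τ := by
  classical
  have : Nonempty (Sym2 (Fin n)) := ⟨s(⟨0, hn⟩, ⟨0, hn⟩)⟩
  obtain ⟨T, h1, h2, h3, h4⟩ := exists_product (K := ℚ)
    (fun (e : Sym2 (Fin n)) (b : Bool) (J : Finset (Fin n)) => fac J e b)
  refine ⟨T, fun J => if ∑ v ∈ Jᶜ, w v ≤ τ then 1 else 0, h1, h2, ?_, fun x => ?_⟩
  · rw [h3, card_pairs]
  · unfold Net.value
    rw [Ne, sum_eq_zero_iff_of_nonneg (fun J _ => by
      rw [h4]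
      refine mul_nonneg ?_ (prod_fac J x).1
      change (0 : ℚ) ≤ if ∑ v ∈ Jᶜ, w v ≤ τ then 1 else 0
      split_ifs <;> norm_num)]
    push Not
    constructor
    · rintro ⟨J, -, hJ⟩
      rw [h4] at hJ
      have h5 := right_ne_zero_of_mul hJ
      have h6 := left_ne_zero_of_mul hJ
      refine ⟨Jᶜ, (prod_fac J x).2.1 h5, ?_⟩
      by_contra hcon
      exact h6 (if_neg hcon)
    · rintro ⟨C, hC, hCw⟩
      refine ⟨Cᶜ, mem_univ _, ?_⟩
      rw [h4, compl_compl, if_pos hCw, one_mul]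
      refine (prod_fac Cᶜ x).2.2 ?_
      rw [compl_compl]
      exact hC

/-- The random sets. -/
theorem choose_le {m n k : ℕ} (hmn : n ≤ 2 * m) (hk : 4 * k ≤ n) :
    n.choose k ≤ 4 ^ k * m.choose k := by
  have h1 : n.descFactorial k ≤ 4 ^ k * m.descFactorial k := by
    rw [Nat.descFactorial_eq_prod_range, Nat.descFactorial_eq_prod_range, ← card_range k,
      ← prod_const, card_range, ← prod_mul_distrib]
    refine prod_le_prod' fun i hi => ?_
    have := mem_range.1 hi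
    omega
  rw [Nat.descFactorial_eq_factorial_mul_choose, Nat.descFactorial_eq_factorial_mul_choose] at h1
  refine Nat.le_of_mul_le_mul_left (c := k.factorial) ?_ (Nat.factorial_pos _)
  calc k.factorial * n.choose k ≤ 4 ^ k * (k.factorial * m.choose k) := h1
    _ = _ := by ring

/-- A random family of networks of dimension `1`. -/
theorem upper_random {g n k : ℕ} (hn : 1 ≤ n) (hk : 4 * k ≤ n) (hgk : n ≤ g * k) :
    ∃ T : {J : Finset (Fin n) // J.card = k} → Net ℚ (Sym2 (Fin n)) Bool Unit,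
      (∀ J, (T J).Linear ∧ (∀ e, (T J).reads e = 1) ∧ (T J).size = n * (n + 1) - 1) ∧
      (∀ J x, (∀ C, Cover x C → g * n < g * C.card + n) →
        (T J).value (fun _ => 1) x = 0) ∧
      (∀ x, (∃ C, Cover x C ∧ 2 * C.card ≤ n) →
        Nat.card {J : Finset (Fin n) // J.card = k} ≤
          2 ^ (2 * k) * Nat.card {J // (T J).value (fun _ => 1) x ≠ 0}) := by
  classical
  have : Nonempty (Sym2 (Fin n)) := ⟨s(⟨0, hn⟩, ⟨0, hn⟩)⟩
  have hT := fun J : {J : Finset (Fin n) // J.card = k} => exists_product (K := ℚ)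
    (fun (e : Sym2 (Fin n)) (b : Bool) (_ : Unit) => fac J.1 e b)
  choose T h1 h2 h3 h4 using hT
  have hval : ∀ J x, (T J).value (fun _ => 1) x ≠ 0 ↔ Cover x J.1ᶜ := by
    intro J x
    unfold Net.value
    rw [Fintype.sum_unique, one_mul, h4]
    exact (prod_fac J.1 x).2
  refine ⟨T, fun J => ⟨h1 J, h2 J, by rw [h3, card_pairs]⟩, fun J x h => ?_, ?_⟩
  · by_contra hne
    have h5 := h _ ((hval J x).1 hne)
    rw [card_compl, Fintype.card_fin, J.2] at h5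
    obtain ⟨r, hr⟩ := Nat.exists_eq_add_of_le (show k ≤ n by omega)
    have h6 : n - k = r := by omega
    rw [h6] at h5
    have h7 : g * n = g * k + g * r := by
      conv_lhs => rw [hr]
      ring
    omega
  · rintro x ⟨C, hC, hCn⟩
    obtain ⟨m, hm⟩ : ∃ m, m = Cᶜ.card := ⟨_, rfl⟩
    have hm2 : n ≤ 2 * m := by
      have h5 := card_add_card_compl C
      rw [Fintype.card_fin] at h5
      omega
    have h5 : m.choose k ≤ Nat.card {J : {J : Finset (Fin n) // J.card = k} //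
        (T J).value (fun _ => 1) x ≠ 0} := by
      rw [hm, ← card_powersetCard, Nat.card_eq_fintype_card, ← Fintype.card_coe]
      refine Fintype.card_le_of_injective
        (fun J => ⟨⟨J.1, (mem_powersetCard.1 J.2).2⟩, (hval _ _).2 ?_⟩) ?_
      · intro u v huv hx
        have hJ : J.1 ⊆ Cᶜ := (mem_powersetCard.1 J.2).1
        rcases hC u v huv hx with h6 | h6
        · exact Or.inl (mem_compl.2 fun h7 => mem_compl.1 (hJ h7) h6)
        · exact Or.inr (mem_compl.2 fun h7 => mem_compl.1 (hJ h7) h6)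
      · intro J J' h
        have h6 := congrArg (fun s => s.1.1) h
        exact Subtype.ext h6
    have h6 : Nat.card {J : Finset (Fin n) // J.card = k} = n.choose k := by
      rw [Nat.card_eq_fintype_card, Fintype.card_finset_len, Fintype.card_fin]
    rw [h6]
    calc n.choose k ≤ 4 ^ k * m.choose k := choose_le hm2 hk
      _ = 2 ^ (2 * k) * m.choose k := by rw [pow_mul]; norm_num
      _ ≤ _ := Nat.mul_le_mul_left _ h5

end Pool.Agent.R532.Vc
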