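import Mathlib

/-!
# Sums of powers with generic real coefficients: Weyl sums in the mean over the coefficient
-/

set_option autoImplicit false

namespace Pool.Agent.R532.Wa

open MeasureTheory Finset Complex

/-- `e(t) = exp(2 π i t)` -/
noncomputable def e (t : ℝ) : ℂ := Complex.exp (2 * Real.pi * t * I)

lemma e_add (s t : ℝ) : e (s + t) = e s * e t := by
  unfold e
  rw [← Complex.exp_add]
  congr 1
  push_cast
  ring

lemma norm_e (t : ℝ) : ‖e t‖ = 1 := by
  unfold e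
  have : (2 * Real.pi * t * I : ℂ) = ((2 * Real.pi * t : ℝ) : ℂ) * I := by push_cast; ring
  rw [this, Complex.norm_exp_ofReal_mul_I]

lemma e_zero : e 0 = 1 := by
  unfold e
  simp

lemma e_neg (t : ℝ) : e (-t) = (starRingEnd ℂ) (e t) := by
  unfold e
  rw [← Complex.exp_conj]
  congr 1
  simp only [map_mul, Complex.conj_I, Complex.conj_ofReal, map_ofNat]
  push_cast
  ring

lemma e_sum {ι : Type} (s : Finset ι) (f : ι → ℝ) : e (∑ i ∈ s, f i) = ∏ i ∈ s, e (f i) := by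
  classical
  induction s using Finset.induction_on with
  | empty => simp [e_zero]
  | insert a s ha ih => rw [sum_insert ha, prod_insert ha, e_add, ih]

lemma continuous_e : Continuous e := by
  unfold e
  fun_prop

/-- the sum of `e(β x ^ k)` over `M < x ≤ 4 M` -/
noncomputable def S (k M : ℕ) (β : ℝ) : ℂ := ∑ x ∈ Ioc M (4 * M), e (β * (x : ℝ) ^ k)

lemma continuous_S (k M : ℕ) : Continuous (S k M) := by
  unfold S
  refine continuous_finset_sum _ fun x _ => continuous_e.comp ?_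
  fun_prop

lemma norm_S_le (k M : ℕ) (β : ℝ) : ‖S k M β‖ ≤ 3 * M := by
  unfold S
  refine (norm_sum_le _ _).trans ?_
  rw [sum_congr rfl (fun x _ => norm_e _), sum_const, Nat.card_Ioc, nsmul_eq_mul, mul_one]
  have : 4 * M - M = 3 * M := by omega
  rw [this]
  push_cast
  exact le_rfl

lemma norm_e_sub_one (t : ℝ) : ‖1 - e t‖ ≤ min 2 (2 * Real.pi * |t|) := by
  refine le_min ?_ ?_
  · refine (norm_sub_le _ _).trans ?_
    rw [norm_e, norm_one]
    norm_num
  · unfold e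
    have h1 : (2 * Real.pi * t * I : ℂ) = I * ((2 * Real.pi * t : ℝ) : ℂ) := by push_cast; ring
    rw [h1, norm_sub_rev]
    refine (Real.norm_exp_I_mul_ofReal_sub_one_le).trans ?_
    rw [Real.norm_eq_abs, abs_mul, abs_of_pos (by positivity)]

/-- the oscillatory integral -/
lemma osc (a : ℝ) (ha : a ≠ 0) : ‖∫ l in (1 : ℝ)..2, e (l * a)‖ ≤ 1 / (Real.pi * |a|) := by
  have hc : (2 * Real.pi * a * I : ℂ) ≠ 0 := by
    simp [Real.pi_ne_zero, ha]
  have h1 : ∀ l : ℝ, e (l * a) = Complex.exp ((2 * Real.pi * a * I : ℂ) * l) := by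
    intro l
    unfold e
    congr 1
    push_cast
    ring
  simp only [h1]
  rw [integral_exp_mul_complex hc, norm_div]
  have h2 : ‖(2 * Real.pi * a * I : ℂ)‖ = 2 * Real.pi * |a| := by
    simp [abs_of_pos Real.pi_pos]
  rw [h2]
  have h3 : ∀ l : ℝ, ‖Complex.exp ((2 * Real.pi * a * I : ℂ) * l)‖ = 1 := by
    intro l
    rw [← h1, norm_e]
  have h4 : ‖Complex.exp ((2 * Real.pi * a * I : ℂ) * (2 : ℝ)) -
      Complex.exp ((2 * Real.pi * a * I : ℂ) * (1 : ℝ))‖ ≤ 2 := by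
    refine (norm_sub_le _ _).trans ?_
    rw [h3, h3]
    norm_num
  have hpos : 0 < |a| := abs_pos.2 ha
  rw [div_le_div_iff₀ (by positivity) (by positivity)]
  have hpi := Real.pi_pos
  nlinarith [mul_pos hpi hpos]

/-- the sum of `1 / |x - y|` -/
lemma harm (M x : ℕ) (hx : x ∈ Ioc M (4 * M)) :
    ∑ y ∈ (Ioc M (4 * M)).erase x, 1 / |(x : ℝ) - y| ≤ 2 * (1 + Real.log (3 * M)) := by
  classical
  rw [mem_Ioc] at hx
  have hM : 0 < M := by omega
  have hharm : ∑ d ∈ range (3 * M), 1 / ((d : ℝ) + 1) ≤ 1 + Real.log (3 * M) := by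
    have h1 := harmonic_le_one_add_log (3 * M)
    have h2 : ((harmonic (3 * M) : ℚ) : ℝ) = ∑ d ∈ range (3 * M), 1 / ((d : ℝ) + 1) := by
      unfold harmonic
      push_cast
      refine sum_congr rfl fun d _ => ?_
      rw [one_div]
    rw [h2] at h1
    push_cast at h1
    exact h1
  have hsplit : (Ioc M (4 * M)).erase x = Ioo M x ∪ Ioc x (4 * M) := by
    ext y
    simp only [mem_erase, mem_Ioc, mem_union, mem_Ioo]
    omega
  have hdisj : Disjoint (Ioo M x) (Ioc x (4 * M)) := by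
    rw [Finset.disjoint_left]
    intro y hy
    rw [mem_Ioo] at hy
    rw [mem_Ioc]
    omega
  rw [hsplit, sum_union hdisj]
  have h1 : ∑ y ∈ Ioo M x, 1 / |(x : ℝ) - y| ≤ ∑ d ∈ range (3 * M), 1 / ((d : ℝ) + 1) := by
    have hinj : Set.InjOn (fun y : ℕ => x - y - 1) (Ioo M x : Finset ℕ) := by
      intro y hy y' hy' h
      rw [mem_coe, mem_Ioo] at hy hy'
      simp only at h
      omega
    have h2 : ∑ y ∈ Ioo M x, 1 / |(x : ℝ) - y| =
        ∑ d ∈ (Ioo M x).image (fun y : ℕ => x - y - 1), 1 / ((d : ℝ) + 1) := by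
      rw [sum_image hinj]
      refine sum_congr rfl fun y hy => ?_
      rw [mem_Ioo] at hy
      have h3 : (y : ℝ) < x := by exact_mod_cast hy.2
      rw [abs_of_pos (by linarith), Nat.cast_sub (by omega), Nat.cast_sub (by omega)]
      congr 1
      push_cast
      ring
    rw [h2]
    refine sum_le_sum_of_subset_of_nonneg ?_ fun d _ _ => by positivity
    intro d hd
    obtain ⟨y, hy, rfl⟩ := mem_image.1 hd
    rw [mem_Ioo] at hy
    rw [mem_range]
    omega
  have h2 : ∑ y ∈ Ioc x (4 * M), 1 / |(x : ℝ) - y| ≤ ∑ d ∈ range (3 * M), 1 / ((d : ℝ) + 1) := by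
    have hinj : Set.InjOn (fun y : ℕ => y - x - 1) (Ioc x (4 * M) : Finset ℕ) := by
      intro y hy y' hy' h
      rw [mem_coe, mem_Ioc] at hy hy'
      simp only at h
      omega
    have h2 : ∑ y ∈ Ioc x (4 * M), 1 / |(x : ℝ) - y| =
        ∑ d ∈ (Ioc x (4 * M)).image (fun y : ℕ => y - x - 1), 1 / ((d : ℝ) + 1) := by
      rw [sum_image hinj]
      refine sum_congr rfl fun y hy => ?_
      rw [mem_Ioc] at hy
      have h3 : (x : ℝ) < y := by exact_mod_cast hy.1
      rw [abs_of_neg (by linarith), Nat.cast_sub (by omega), Nat.cast_sub (by omega)]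
      congr 1
      push_cast
      ring
    rw [h2]
    refine sum_le_sum_of_subset_of_nonneg ?_ fun d _ _ => by positivity
    intro d hd
    obtain ⟨y, hy, rfl⟩ := mem_image.1 hd
    rw [mem_Ioc] at hy
    rw [mem_range]
    omega
  linarith

lemma pow_gap (k M x y : ℕ) (hk : 1 ≤ k) (hx : M ≤ x) (hy : M ≤ y) :
    |(x : ℝ) - y| * (M : ℝ) ^ (k - 1) ≤ |(x : ℝ) ^ k - (y : ℝ) ^ k| := by
  obtain ⟨n, rfl⟩ : ∃ n, k = n + 1 := ⟨k - 1, by omega⟩
  rw [Nat.add_sub_cancel]
  have key : ∀ u v : ℝ, (M : ℝ) ≤ v → v ≤ u → |u - v| * (M : ℝ) ^ n ≤ |u ^ (n + 1) - v ^ (n + 1)| := by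
    intro u v hv huv
    have hM0 : (0 : ℝ) ≤ M := Nat.cast_nonneg M
    have h1 : (M : ℝ) ^ n ≤ u ^ n := pow_le_pow_left₀ hM0 (hv.trans huv) n
    have h2 : v ^ n ≤ u ^ n := pow_le_pow_left₀ (hM0.trans hv) huv n
    have h3 : v ^ (n + 1) ≤ u ^ (n + 1) := pow_le_pow_left₀ (hM0.trans hv) huv (n + 1)
    rw [abs_of_nonneg (by linarith), abs_of_nonneg (by linarith)]
    have h4 : u ^ (n + 1) - v ^ (n + 1) = (u - v) * u ^ n + v * (u ^ n - v ^ n) := by ring
    rw [h4]
    have h5 : (u - v) * (M : ℝ) ^ n ≤ (u - v) * u ^ n :=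
      mul_le_mul_of_nonneg_left h1 (by linarith)
    have h6 : 0 ≤ v * (u ^ n - v ^ n) := mul_nonneg (hM0.trans hv) (by linarith)
    linarith
  rcases le_total y x with h | h
  · exact key x y (by exact_mod_cast hy) (by exact_mod_cast h)
  · rw [abs_sub_comm, abs_sub_comm ((x : ℝ) ^ (n + 1))]
    exact key y x (by exact_mod_cast hx) (by exact_mod_cast h)

/-- **The first moment of `|S|²` over the coefficient.** -/
theorem second_moment (k M : ℕ) (hk : 1 ≤ k) (hM : 1 ≤ M) (θ : ℝ) (hθ : θ ≠ 0) :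
    ∫ l in (1 : ℝ)..2, ‖S k M (l * θ)‖ ^ 2 ≤
      3 * M + 6 * M * (1 + Real.log (3 * M)) / (|θ| * (M : ℝ) ^ (k - 1)) := by
  classical
  have hM0 : (0 : ℝ) < M := by exact_mod_cast hM
  have hθ0 : 0 < |θ| := abs_pos.2 hθ
  have h1 : ∀ l : ℝ, ((‖S k M (l * θ)‖ ^ 2 : ℝ) : ℂ) =
      ∑ x ∈ Ioc M (4 * M), ∑ y ∈ Ioc M (4 * M), e (l * (θ * ((x : ℝ) ^ k - (y : ℝ) ^ k))) := by
    intro l
    have h2 : ((‖S k M (l * θ)‖ ^ 2 : ℝ) : ℂ) =
        S k M (l * θ) * (starRingEnd ℂ) (S k M (l * θ)) := by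
      rw [Complex.mul_conj, Complex.normSq_eq_norm_sq]
    rw [h2]
    unfold S
    rw [map_sum, sum_mul_sum]
    refine sum_congr rfl fun x _ => sum_congr rfl fun y _ => ?_
    rw [← e_neg, ← e_add]
    congr 1
    ring
  have hint : ∀ x y : ℕ, IntervalIntegrable
      (fun l : ℝ => e (l * (θ * ((x : ℝ) ^ k - (y : ℝ) ^ k)))) volume 1 2 := by
    intro x y
    refine Continuous.intervalIntegrable ?_ _ _
    exact continuous_e.comp (by fun_prop)
  have h3 : ((∫ l in (1 : ℝ)..2, ‖S k M (l * θ)‖ ^ 2 : ℝ) : ℂ) =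
      ∑ x ∈ Ioc M (4 * M), ∑ y ∈ Ioc M (4 * M),
        ∫ l in (1 : ℝ)..2, e (l * (θ * ((x : ℝ) ^ k - (y : ℝ) ^ k))) := by
    rw [← intervalIntegral.integral_ofReal]
    simp only [h1]
    rw [intervalIntegral.integral_finset_sum]
    · refine sum_congr rfl fun x _ => ?_
      rw [intervalIntegral.integral_finset_sum]
      exact fun y _ => hint x y
    · intro x _
      refine Continuous.intervalIntegrable ?_ _ _
      refine continuous_finset_sum _ fun y _ => continuous_e.comp (by fun_prop)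
  have h4 : ∫ l in (1 : ℝ)..2, ‖S k M (l * θ)‖ ^ 2 ≤
      ∑ x ∈ Ioc M (4 * M), ∑ y ∈ Ioc M (4 * M),
        ‖∫ l in (1 : ℝ)..2, e (l * (θ * ((x : ℝ) ^ k - (y : ℝ) ^ k)))‖ := by
    calc ∫ l in (1 : ℝ)..2, ‖S k M (l * θ)‖ ^ 2
        ≤ ‖((∫ l in (1 : ℝ)..2, ‖S k M (l * θ)‖ ^ 2 : ℝ) : ℂ)‖ := by
          rw [Complex.norm_real]
          exact le_abs_self _
      _ ≤ _ := by
          rw [h3]
          refine (norm_sum_le _ _).trans (sum_le_sum fun x _ => norm_sum_le _ _)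
  refine h4.trans ?_
  have h5 : ∀ x ∈ Ioc M (4 * M), ∑ y ∈ Ioc M (4 * M),
      ‖∫ l in (1 : ℝ)..2, e (l * (θ * ((x : ℝ) ^ k - (y : ℝ) ^ k)))‖ ≤
        1 + 2 * (1 + Real.log (3 * M)) / (|θ| * (M : ℝ) ^ (k - 1)) := by
    intro x hx
    have hxM : M ≤ x := (mem_Ioc.1 hx).1.le
    rw [← add_sum_erase _ _ hx]
    refine add_le_add ?_ ?_
    · have h6 : ∀ l : ℝ, e (l * (θ * ((x : ℝ) ^ k - (x : ℝ) ^ k))) = 1 := by
        intro l
        rw [sub_self, mul_zero, mul_zero, e_zero]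
      simp only [h6]
      rw [intervalIntegral.integral_const]
      norm_num
    · have h7 : ∀ y ∈ (Ioc M (4 * M)).erase x,
          ‖∫ l in (1 : ℝ)..2, e (l * (θ * ((x : ℝ) ^ k - (y : ℝ) ^ k)))‖ ≤
            1 / |(x : ℝ) - y| * (1 / (|θ| * (M : ℝ) ^ (k - 1))) := by
        intro y hy
        obtain ⟨hyx, hy⟩ := mem_erase.1 hy
        have hyM : M ≤ y := (mem_Ioc.1 hy).1.le
        have hxy : (x : ℝ) - y ≠ 0 := by
          rw [sub_ne_zero]
          exact_mod_cast hyx.symm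
        have hxy0 : 0 < |(x : ℝ) - y| := abs_pos.2 hxy
        have hgap := pow_gap k M x y hk hxM hyM
        have hpow : 0 < |(x : ℝ) - y| * (M : ℝ) ^ (k - 1) := by positivity
        have hne : θ * ((x : ℝ) ^ k - (y : ℝ) ^ k) ≠ 0 := by
          refine mul_ne_zero hθ ?_
          rw [← abs_pos]
          linarith
        refine (osc _ hne).trans ?_
        rw [abs_mul, one_div_mul_one_div]
        refine one_div_le_one_div_of_le (by positivity) ?_
        have hpi : 1 ≤ Real.pi := by linarith [Real.pi_gt_three]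
        calc |(x : ℝ) - y| * (|θ| * (M : ℝ) ^ (k - 1))
            = |θ| * (|(x : ℝ) - y| * (M : ℝ) ^ (k - 1)) := by ring
          _ ≤ |θ| * |(x : ℝ) ^ k - (y : ℝ) ^ k| := mul_le_mul_of_nonneg_left hgap hθ0.le
          _ ≤ Real.pi * (|θ| * |(x : ℝ) ^ k - (y : ℝ) ^ k|) :=
            le_mul_of_one_le_left (by positivity) hpi
      refine (sum_le_sum h7).trans ?_
      rw [← sum_mul, mul_one_div]
      exact div_le_div_of_nonneg_right (harm M x hx) (by positivity)
  refine (sum_le_sum h5).trans ?_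
  rw [sum_const, Nat.card_Ioc, nsmul_eq_mul]
  have h8 : ((4 * M - M : ℕ) : ℝ) = 3 * M := by
    have : 4 * M - M = 3 * M := by omega
    rw [this]
    push_cast
    rfl
  rw [h8]
  refine le_of_eq ?_
  ring

end Pool.Agent.R532.Wa
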