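import Pool.Agent.R532.Wa1

/-!
# Sums of powers with generic real coefficients: the mean of the minor arcs
-/

set_option autoImplicit false

namespace Pool.Agent.R532.Wa

open MeasureTheory Finset Complex

/-- Lebesgue measure on `[1, 2]` -/
noncomputable def ν : Measure ℝ := volume.restrict (Set.Icc (1 : ℝ) 2)

instance : IsProbabilityMeasure ν := ⟨by
  unfold ν
  rw [Measure.restrict_apply_univ, Real.volume_Icc]
  norm_num⟩

/-- Lebesgue measure on `[1, 2]^s` -/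
noncomputable def μs (s : ℕ) : Measure (Fin s → ℝ) := Measure.pi fun _ : Fin s => ν

instance (s : ℕ) : IsProbabilityMeasure (μs s) := by
  unfold μs
  infer_instance

lemma int_ν (f : ℝ → ℝ) : ∫ l, f l ∂ν = ∫ l in (1 : ℝ)..2, f l := by
  unfold ν
  rw [intervalIntegral.integral_of_le (by norm_num), integral_Icc_eq_integral_Ioc]

lemma integrable_ν {f : ℝ → ℝ} (hf : Continuous f) : Integrable f ν := by
  unfold ν
  exact hf.continuousOn.integrableOn_compact isCompact_Icc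

lemma first_moment (k M : ℕ) (θ B : ℝ) (hB : 0 < B)
    (h : ∫ l in (1 : ℝ)..2, ‖S k M (l * θ)‖ ^ 2 ≤ B) :
    ∫ l, ‖S k M (l * θ)‖ ∂ν ≤ √B := by
  have hs : 0 < √B := Real.sqrt_pos.2 hB
  have hsq : √B * √B = B := Real.mul_self_sqrt hB.le
  have hcont : Continuous fun l : ℝ => ‖S k M (l * θ)‖ :=
    continuous_norm.comp ((continuous_S k M).comp (by fun_prop))
  have hcont2 : Continuous fun l : ℝ => ‖S k M (l * θ)‖ ^ 2 / (2 * √B) + √B / 2 := by
    fun_prop
  have h1 : ∀ l : ℝ, ‖S k M (l * θ)‖ ≤ ‖S k M (l * θ)‖ ^ 2 / (2 * √B) + √B / 2 := by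
    intro l
    rw [div_add_div _ _ (by positivity) (by norm_num), le_div_iff₀ (by positivity)]
    nlinarith [sq_nonneg (‖S k M (l * θ)‖ - √B)]
  refine (integral_mono (integrable_ν hcont) (integrable_ν hcont2) h1).trans ?_
  rw [integral_add (integrable_ν (by fun_prop)) (integrable_ν continuous_const), integral_div,
    int_ν, integral_const]
  simp only [probReal_univ, one_smul, smul_eq_mul]
  have h2 : (∫ l in (1 : ℝ)..2, ‖S k M (l * θ)‖ ^ 2) / (2 * √B) ≤ √B / 2 := by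
    rw [div_le_div_iff₀ (by positivity) (by norm_num)]
    nlinarith
  linarith

lemma mean_prod (k M s : ℕ) (θ B : ℝ) (hB : 0 < B)
    (h : ∫ l in (1 : ℝ)..2, ‖S k M (l * θ)‖ ^ 2 ≤ B) :
    ∫ l : Fin s → ℝ, ∏ i, ‖S k M (l i * θ)‖ ∂(μs s) ≤ √B ^ s := by
  unfold μs
  rw [integral_fintype_prod_eq_prod (fun (_ : Fin s) (l : ℝ) => ‖S k M (l * θ)‖)]
  rw [prod_const, card_univ, Fintype.card_fin]
  refine pow_le_pow_left₀ ?_ (first_moment k M θ B hB h) s
  exact integral_nonneg fun l => norm_nonneg _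

/-- the integrand -/
noncomputable def F (k M s : ℕ) (τ H : ℝ) (l : Fin s → ℝ) (θ : ℝ) : ℝ :=
  Real.exp (-(Real.pi * τ ^ 2) * θ ^ 2) * (∏ i, ‖S k M (l i * θ)‖) *
    min 2 (2 * Real.pi * (H * |θ|))

lemma F_nonneg (k M s : ℕ) (τ H : ℝ) (hH : 0 ≤ H) (l : Fin s → ℝ) (θ : ℝ) :
    0 ≤ F k M s τ H l θ := by
  unfold F
  have h1 : 0 ≤ ∏ i, ‖S k M (l i * θ)‖ := prod_nonneg fun i _ => norm_nonneg _
  have h2 : 0 ≤ min 2 (2 * Real.pi * (H * |θ|)) := le_min (by norm_num) (by positivity)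
  positivity

lemma continuous_F (k M s : ℕ) (τ H : ℝ) :
    Continuous (Function.uncurry (F k M s τ H)) := by
  unfold F Function.uncurry
  have h1 : Continuous fun p : (Fin s → ℝ) × ℝ => ∏ i, ‖S k M (p.1 i * p.2)‖ := by
    refine continuous_finset_prod _ fun i _ => continuous_norm.comp ((continuous_S k M).comp ?_)
    fun_prop
  fun_prop

lemma prod_S_le (k M s : ℕ) (l : Fin s → ℝ) (θ : ℝ) :
    ∏ i, ‖S k M (l i * θ)‖ ≤ (3 * (M : ℝ)) ^ s := by
  calc ∏ i, ‖S k M (l i * θ)‖ ≤ ∏ _i : Fin s, (3 * (M : ℝ)) :=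
        prod_le_prod (fun i _ => norm_nonneg _) fun i _ => norm_S_le k M _
    _ = _ := by rw [prod_const, card_univ, Fintype.card_fin]

/-- the integral of `F` over `θ` -/
noncomputable def J (k M s : ℕ) (τ H : ℝ) (l : Fin s → ℝ) : ENNReal :=
  ∫⁻ θ, ENNReal.ofReal (F k M s τ H l θ)

lemma integrable_F (k M s : ℕ) {τ H : ℝ} (hτ : 0 < τ) (hH : 0 ≤ H) (l : Fin s → ℝ) :
    Integrable (F k M s τ H l) := by
  have h1 : Integrable (fun θ : ℝ => (3 * (M : ℝ)) ^ s * 2 *
      Real.exp (-(Real.pi * τ ^ 2) * θ ^ 2)) :=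
    (integrable_exp_neg_mul_sq (by positivity)).const_mul _
  refine h1.mono' ?_ ?_
  · have h2 : Continuous (F k M s τ H l) := by
      have := (continuous_F k M s τ H).comp (Continuous.prodMk_right l)
      exact this
    exact h2.aestronglyMeasurable
  · refine Filter.Eventually.of_forall fun θ => ?_
    rw [Real.norm_of_nonneg (F_nonneg k M s τ H hH l θ)]
    unfold F
    have h2 := prod_S_le k M s l θ
    have h3 : 0 ≤ ∏ i, ‖S k M (l i * θ)‖ := prod_nonneg fun i _ => norm_nonneg _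
    have h4 : min 2 (2 * Real.pi * (H * |θ|)) ≤ 2 := min_le_left _ _
    have h5 : 0 ≤ min 2 (2 * Real.pi * (H * |θ|)) := le_min (by norm_num) (by positivity)
    calc Real.exp (-(Real.pi * τ ^ 2) * θ ^ 2) * (∏ i, ‖S k M (l i * θ)‖) *
          min 2 (2 * Real.pi * (H * |θ|))
        ≤ Real.exp (-(Real.pi * τ ^ 2) * θ ^ 2) * (3 * (M : ℝ)) ^ s * 2 := by
          gcongr
      _ = _ := by ring

lemma J_eq (k M s : ℕ) {τ H : ℝ} (hτ : 0 < τ) (hH : 0 ≤ H) (l : Fin s → ℝ) :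
    J k M s τ H l = ENNReal.ofReal (∫ θ, F k M s τ H l θ) := by
  unfold J
  rw [ofReal_integral_eq_lintegral_ofReal (integrable_F k M s hτ hH l)
    (Filter.Eventually.of_forall fun θ => F_nonneg k M s τ H hH l θ)]

lemma measurable_J (k M s : ℕ) (τ H : ℝ) : Measurable (J k M s τ H) := by
  unfold J
  have h1 : Measurable (Function.uncurry fun (l : Fin s → ℝ) (θ : ℝ) =>
      ENNReal.ofReal (F k M s τ H l θ)) :=
    ENNReal.measurable_ofReal.comp (continuous_F k M s τ H).measurable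
  exact h1.lintegral_prod_right'

lemma mean_F (k M s : ℕ) {τ H : ℝ} (hH : 0 ≤ H) (θ P : ℝ)
    (h : ∫ l : Fin s → ℝ, ∏ i, ‖S k M (l i * θ)‖ ∂(μs s) ≤ P) :
    ∫⁻ l, ENNReal.ofReal (F k M s τ H l θ) ∂(μs s) ≤
      ENNReal.ofReal (Real.exp (-(Real.pi * τ ^ 2) * θ ^ 2) * P *
        min 2 (2 * Real.pi * (H * |θ|))) := by
  have hcont : Continuous fun l : Fin s → ℝ => ∏ i, ‖S k M (l i * θ)‖ := by
    refine continuous_finset_prod _ fun i _ => continuous_norm.comp ((continuous_S k M).comp ?_)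
    fun_prop
  have hint : Integrable (fun l : Fin s → ℝ => ∏ i, ‖S k M (l i * θ)‖) (μs s) := by
    refine Integrable.mono' (integrable_const ((3 * (M : ℝ)) ^ s)) hcont.aestronglyMeasurable ?_
    refine Filter.Eventually.of_forall fun l => ?_
    rw [Real.norm_of_nonneg (prod_nonneg fun i _ => norm_nonneg _)]
    exact prod_S_le k M s l θ
  have h2 : 0 ≤ min 2 (2 * Real.pi * (H * |θ|)) := le_min (by norm_num) (by positivity)
  have hint2 : Integrable (fun l : Fin s → ℝ => F k M s τ H l θ) (μs s) := by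
    unfold F
    exact (hint.const_mul _).mul_const _
  rw [← ofReal_integral_eq_lintegral_ofReal hint2
    (Filter.Eventually.of_forall fun l => F_nonneg k M s τ H hH l θ)]
  refine ENNReal.ofReal_le_ofReal ?_
  unfold F
  rw [integral_mul_const, integral_const_mul]
  refine mul_le_mul_of_nonneg_right ?_ h2
  exact mul_le_mul_of_nonneg_left h (Real.exp_pos _).le

/-- the bound for the mean of `F` -/
noncomputable def G (s : ℕ) (m τ H θ₀ D : ℝ) (θ : ℝ) : ℝ :=
  (Set.Icc (-θ₀) θ₀).indicator (fun _ => (3 * m) ^ s * (2 * Real.pi * (H * θ₀))) θ +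
    2 * 2 ^ s * √(3 * m) ^ s * Real.exp (-(Real.pi * τ ^ 2) * θ ^ 2) +
    (Set.Ioi θ₀).indicator (fun t => 2 * 2 ^ s * √D ^ s * t ^ (-(s : ℝ) / 2)) |θ|

lemma add_pow_le2 {a b : ℝ} (ha : 0 ≤ a) (hb : 0 ≤ b) (s : ℕ) :
    (a + b) ^ s ≤ 2 ^ s * (a ^ s + b ^ s) := by
  have h1 : a + b ≤ 2 * max a b := by
    have := le_max_left a b
    have := le_max_right a b
    linarith
  calc (a + b) ^ s ≤ (2 * max a b) ^ s := pow_le_pow_left₀ (by linarith) h1 s
    _ = 2 ^ s * (max a b) ^ s := mul_pow _ _ _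
    _ ≤ 2 ^ s * (a ^ s + b ^ s) := by
        refine mul_le_mul_of_nonneg_left ?_ (by positivity)
        rcases max_choice a b with h | h
        · rw [h]
          have : 0 ≤ b ^ s := by positivity
          linarith
        · rw [h]
          have : 0 ≤ a ^ s := by positivity
          linarith

lemma sqrt_add_le2 {a b : ℝ} (ha : 0 ≤ a) (hb : 0 ≤ b) : √(a + b) ≤ √a + √b := by
  rw [Real.sqrt_le_left (by positivity), add_sq, Real.sq_sqrt ha, Real.sq_sqrt hb]
  have : 0 ≤ 2 * √a * √b := by positivity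
  linarith

lemma mean_F_le (k M s : ℕ) (hk : 1 ≤ k) (hM : 1 ≤ M) {τ H θ₀ : ℝ} (hH : 0 ≤ H) (hθ₀ : 0 < θ₀)
    (θ : ℝ) : ∫⁻ l, ENNReal.ofReal (F k M s τ H l θ) ∂(μs s) ≤
      ENNReal.ofReal (G s M τ H θ₀ (6 * M * (1 + Real.log (3 * M)) / (M : ℝ) ^ (k - 1)) θ) := by
  have hM0 : (0 : ℝ) < M := by exact_mod_cast hM
  have hM1 : (1 : ℝ) ≤ M := by exact_mod_cast hM
  have hL : 0 ≤ Real.log (3 * M) := Real.log_nonneg (by linarith)
  set D : ℝ := 6 * M * (1 + Real.log (3 * M)) / (M : ℝ) ^ (k - 1) with hD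
  have hD0 : 0 < D := by positivity
  have hexp1 : Real.exp (-(Real.pi * τ ^ 2) * θ ^ 2) ≤ 1 := by
    rw [Real.exp_le_one_iff]
    have : 0 ≤ Real.pi * τ ^ 2 * θ ^ 2 := by positivity
    linarith
  have hexp0 : 0 < Real.exp (-(Real.pi * τ ^ 2) * θ ^ 2) := Real.exp_pos _
  have hmin0 : 0 ≤ min 2 (2 * Real.pi * (H * |θ|)) := le_min (by norm_num) (by positivity)
  by_cases h : |θ| ≤ θ₀
  · refine (mean_F k M s hH θ ((3 * (M : ℝ)) ^ s) ?_).trans (ENNReal.ofReal_le_ofReal ?_)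
    · have hcont : Continuous fun l : Fin s → ℝ => ∏ i, ‖S k M (l i * θ)‖ := by
        refine continuous_finset_prod _ fun i _ => continuous_norm.comp
          ((continuous_S k M).comp ?_)
        fun_prop
      have hint : Integrable (fun l : Fin s → ℝ => ∏ i, ‖S k M (l i * θ)‖) (μs s) := by
        refine Integrable.mono' (integrable_const ((3 * (M : ℝ)) ^ s))
          hcont.aestronglyMeasurable ?_
        refine Filter.Eventually.of_forall fun l => ?_
        rw [Real.norm_of_nonneg (prod_nonneg fun i _ => norm_nonneg _)]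
        exact prod_S_le k M s l θ
      refine (integral_mono hint (integrable_const _) fun l => prod_S_le k M s l θ).trans ?_
      rw [integral_const]
      simp
    · unfold G
      have h1 : θ ∈ Set.Icc (-θ₀) θ₀ := abs_le.1 h
      have h2 : |θ| ∉ Set.Ioi θ₀ := by
        rw [Set.mem_Ioi, not_lt]
        exact h
      rw [Set.indicator_of_mem h1, Set.indicator_of_notMem h2, add_zero]
      have h3 : min 2 (2 * Real.pi * (H * |θ|)) ≤ 2 * Real.pi * (H * θ₀) :=
        (min_le_right _ _).trans (by gcongr)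
      have h4 : 0 ≤ 2 * 2 ^ s * √(3 * (M : ℝ)) ^ s * Real.exp (-(Real.pi * τ ^ 2) * θ ^ 2) := by
        positivity
      have h5 : Real.exp (-(Real.pi * τ ^ 2) * θ ^ 2) * (3 * (M : ℝ)) ^ s *
          min 2 (2 * Real.pi * (H * |θ|)) ≤ 1 * (3 * (M : ℝ)) ^ s * (2 * Real.pi * (H * θ₀)) := by
        gcongr
      linarith
  · rw [not_le] at h
    have hθ0 : 0 < |θ| := hθ₀.trans h
    have hθ : θ ≠ 0 := abs_pos.1 hθ0
    have hB : 0 < 3 * (M : ℝ) + D / |θ| := by positivity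
    have hsm := second_moment k M hk hM θ hθ
    have hDe : 6 * M * (1 + Real.log (3 * M)) / (|θ| * (M : ℝ) ^ (k - 1)) = D / |θ| := by
      rw [hD]
      field_simp
    rw [hDe] at hsm
    refine (mean_F k M s hH θ _ (mean_prod k M s θ _ hB hsm)).trans (ENNReal.ofReal_le_ofReal ?_)
    unfold G
    have h1 : θ ∉ Set.Icc (-θ₀) θ₀ := by
      intro h2
      exact absurd (abs_le.2 h2) (not_le.2 h)
    rw [Set.indicator_of_notMem h1, Set.indicator_of_mem (Set.mem_Ioi.2 h), zero_add]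
    have h2 : √(3 * (M : ℝ) + D / |θ|) ^ s ≤ 2 ^ s * (√(3 * (M : ℝ)) ^ s + √(D / |θ|) ^ s) := by
      refine le_trans (pow_le_pow_left₀ (Real.sqrt_nonneg _) ?_ s)
        (add_pow_le2 (Real.sqrt_nonneg _) (Real.sqrt_nonneg _) s)
      exact sqrt_add_le2 (by positivity) (by positivity)
    have h3 : √(D / |θ|) ^ s = √D ^ s * |θ| ^ (-(s : ℝ) / 2) := by
      rw [Real.sqrt_div hD0.le, div_pow, div_eq_mul_inv]
      congr 1
      rw [Real.sqrt_eq_rpow, ← Real.rpow_natCast, ← Real.rpow_mul hθ0.le, ← Real.rpow_neg hθ0.le]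
      congr 1
      ring
    rw [h3] at h2
    have h4 : min 2 (2 * Real.pi * (H * |θ|)) ≤ 2 := min_le_left _ _
    have h5 : 0 ≤ √D ^ s * |θ| ^ (-(s : ℝ) / 2) := by positivity
    have h6 : 0 ≤ √(3 * (M : ℝ)) ^ s := by positivity
    set E := Real.exp (-(Real.pi * τ ^ 2) * θ ^ 2)
    calc E * √(3 * (M : ℝ) + D / |θ|) ^ s * min 2 (2 * Real.pi * (H * |θ|))
        ≤ E * (2 ^ s * (√(3 * (M : ℝ)) ^ s + √D ^ s * |θ| ^ (-(s : ℝ) / 2))) * 2 := by
          gcongr
      _ = 2 * 2 ^ s * √(3 * (M : ℝ)) ^ s * E +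
          E * (2 * 2 ^ s * (√D ^ s * |θ| ^ (-(s : ℝ) / 2))) := by ring
      _ ≤ 2 * 2 ^ s * √(3 * (M : ℝ)) ^ s * E +
          1 * (2 * 2 ^ s * (√D ^ s * |θ| ^ (-(s : ℝ) / 2))) := by
          gcongr
      _ = _ := by ring

end Pool.Agent.R532.Wa
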