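import Pool.Agent.R532.Wa2

/-!
# Sums of powers with generic real coefficients: Borel–Cantelli
-/

set_option autoImplicit false

namespace Pool.Agent.R532.Wa

open MeasureTheory Finset Complex

lemma tail_abs {f : ℝ → ℝ} {a : ℝ} (ha : 0 < a) (hf : IntegrableOn f (Set.Ioi a)) :
    Integrable (fun x : ℝ => (Set.Ioi a).indicator f |x|) ∧
      ∫ x : ℝ, (Set.Ioi a).indicator f |x| = 2 * ∫ x in Set.Ioi a, f x := by
  have h1 : Integrable ((Set.Ioi a).indicator f) := (integrable_indicator_iff measurableSet_Ioi).2 hf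
  have h2 : (fun x : ℝ => (Set.Ioi a).indicator f |x|) =
      fun x : ℝ => (Set.Ioi a).indicator f x + (Set.Ioi a).indicator f (-x) := by
    funext x
    rcases le_total 0 x with hx | hx
    · rw [abs_of_nonneg hx]
      have : -x ∉ Set.Ioi a := by
        rw [Set.mem_Ioi, not_lt]
        linarith
      rw [Set.indicator_of_notMem this, add_zero]
    · rw [abs_of_nonpos hx]
      have : x ∉ Set.Ioi a := by
        rw [Set.mem_Ioi, not_lt]
        linarith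
      rw [Set.indicator_of_notMem this, zero_add]
  rw [h2]
  refine ⟨h1.add h1.comp_neg, ?_⟩
  rw [integral_add h1 h1.comp_neg, integral_neg_eq_self ((Set.Ioi a).indicator f),
    integral_indicator measurableSet_Ioi]
  ring

lemma int_G (s : ℕ) (hs : 3 ≤ s) {m τ H θ₀ D : ℝ} (hm : 0 ≤ m) (hτ : 0 < τ) (hH : 0 ≤ H)
    (hθ₀ : 0 < θ₀) (hD : 0 ≤ D) :
    ∫⁻ θ, ENNReal.ofReal (G s m τ H θ₀ D θ) ≤
      ENNReal.ofReal (4 * Real.pi * (3 * m) ^ s * H * θ₀ ^ 2 + 2 ^ (s + 1) * √(3 * m) ^ s / τ +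
        2 ^ (s + 3) * √D ^ s * θ₀ ^ (1 - (s : ℝ) / 2)) := by
  have hs3 : (3 : ℝ) ≤ s := by exact_mod_cast hs
  set c₁ : ℝ := (3 * m) ^ s * (2 * Real.pi * (H * θ₀)) with hc₁
  set c₂ : ℝ := 2 * 2 ^ s * √(3 * m) ^ s with hc₂
  set c₃ : ℝ := 2 * 2 ^ s * √D ^ s with hc₃
  have hc₁0 : 0 ≤ c₁ := by positivity
  have hc₂0 : 0 ≤ c₂ := by positivity
  have hc₃0 : 0 ≤ c₃ := by positivity
  have i1 : Integrable ((Set.Icc (-θ₀) θ₀).indicator (fun _ : ℝ => c₁)) :=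
    (integrable_indicator_iff measurableSet_Icc).2 (integrableOn_const (by
      rw [Real.volume_Icc]
      exact ENNReal.ofReal_ne_top))
  have i2 : Integrable (fun θ : ℝ => c₂ * Real.exp (-(Real.pi * τ ^ 2) * θ ^ 2)) :=
    (integrable_exp_neg_mul_sq (by positivity)).const_mul _
  have ha : -(s : ℝ) / 2 < -1 := by linarith
  have i3' : IntegrableOn (fun t : ℝ => c₃ * t ^ (-(s : ℝ) / 2)) (Set.Ioi θ₀) :=
    (integrableOn_Ioi_rpow_of_lt ha hθ₀).const_mul _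
  obtain ⟨i3, e3⟩ := tail_abs hθ₀ i3'
  have e1 : ∫ θ, (Set.Icc (-θ₀) θ₀).indicator (fun _ : ℝ => c₁) θ = c₁ * (2 * θ₀) := by
    rw [integral_indicator measurableSet_Icc, setIntegral_const, Real.volume_real_Icc_of_le
      (by linarith), smul_eq_mul]
    ring
  have e2 : ∫ θ : ℝ, c₂ * Real.exp (-(Real.pi * τ ^ 2) * θ ^ 2) = c₂ / τ := by
    rw [integral_const_mul, integral_gaussian]
    have h1 : Real.pi / (Real.pi * τ ^ 2) = (1 / τ) ^ 2 := by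
      have := Real.pi_ne_zero
      field_simp
    rw [h1, Real.sqrt_sq (by positivity)]
    ring
  have e3' : ∫ x in Set.Ioi θ₀, c₃ * x ^ (-(s : ℝ) / 2) ≤ c₃ * (2 * θ₀ ^ (1 - (s : ℝ) / 2)) := by
    rw [integral_const_mul, integral_Ioi_rpow_of_lt ha hθ₀]
    refine mul_le_mul_of_nonneg_left ?_ hc₃0
    have h1 : -(s : ℝ) / 2 + 1 = -((s : ℝ) / 2 - 1) := by ring
    have h2 : 1 - (s : ℝ) / 2 = -((s : ℝ) / 2 - 1) := by ring
    rw [h1, h2, neg_div_neg_eq, div_le_iff₀ (by linarith)]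
    have h3 : 0 ≤ θ₀ ^ (-((s : ℝ) / 2 - 1)) := by positivity
    nlinarith
  have hGint : Integrable (G s m τ H θ₀ D) := (i1.add i2).add i3
  have hG0 : ∀ θ, 0 ≤ G s m τ H θ₀ D θ := by
    intro θ
    unfold G
    refine add_nonneg (add_nonneg ?_ (by positivity)) ?_
    · exact Set.indicator_nonneg (fun _ _ => hc₁0) θ
    · refine Set.indicator_nonneg (fun t ht => ?_) |θ|
      have : 0 < t := hθ₀.trans ht
      positivity
  rw [← ofReal_integral_eq_lintegral_ofReal hGint (Filter.Eventually.of_forall hG0)]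
  refine ENNReal.ofReal_le_ofReal ?_
  have e4 : ∫ θ, G s m τ H θ₀ D θ = c₁ * (2 * θ₀) + c₂ / τ +
      2 * ∫ x in Set.Ioi θ₀, c₃ * x ^ (-(s : ℝ) / 2) := by
    rw [← e1, ← e2, ← e3]
    have e5 : ∫ θ, G s m τ H θ₀ D θ =
        (∫ θ, ((Set.Icc (-θ₀) θ₀).indicator (fun _ : ℝ => c₁) θ +
          c₂ * Real.exp (-(Real.pi * τ ^ 2) * θ ^ 2))) +
        ∫ θ : ℝ, (Set.Ioi θ₀).indicator (fun t => c₃ * t ^ (-(s : ℝ) / 2)) |θ| :=
      integral_add (i1.add i2) i3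
    rw [e5, integral_add i1 i2]
  rw [e4]
  have h5 : c₁ * (2 * θ₀) = 4 * Real.pi * (3 * m) ^ s * H * θ₀ ^ 2 := by
    rw [hc₁]
    ring
  have h6 : c₂ / τ = 2 ^ (s + 1) * √(3 * m) ^ s / τ := by
    rw [hc₂, pow_succ]
    ring
  have h7 : 2 * (c₃ * (2 * θ₀ ^ (1 - (s : ℝ) / 2))) =
      2 ^ (s + 3) * √D ^ s * θ₀ ^ (1 - (s : ℝ) / 2) := by
    rw [hc₃, pow_add]
    ring
  linarith

/-- the mean of `J` -/
theorem mean_J (k M s : ℕ) (hk : 1 ≤ k) (hM : 1 ≤ M) (hs : 3 ≤ s) {τ H θ₀ : ℝ} (hτ : 0 < τ)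
    (hH : 0 ≤ H) (hθ₀ : 0 < θ₀) :
    ∫⁻ l, J k M s τ H l ∂(μs s) ≤
      ENNReal.ofReal (4 * Real.pi * (3 * (M : ℝ)) ^ s * H * θ₀ ^ 2 +
        2 ^ (s + 1) * √(3 * (M : ℝ)) ^ s / τ +
        2 ^ (s + 3) * √(6 * M * (1 + Real.log (3 * M)) / (M : ℝ) ^ (k - 1)) ^ s *
          θ₀ ^ (1 - (s : ℝ) / 2)) := by
  have hM1 : (1 : ℝ) ≤ M := by exact_mod_cast hM
  have hL : 0 ≤ Real.log (3 * M) := Real.log_nonneg (by linarith)
  unfold J
  rw [lintegral_lintegral_swap]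
  · refine (lintegral_mono fun θ => mean_F_le k M s hk hM hH hθ₀ θ).trans ?_
    exact int_G s hs (by linarith) hτ hH hθ₀ (by positivity)
  · exact (ENNReal.measurable_ofReal.comp (continuous_F k M s τ H).measurable).aemeasurable

end Pool.Agent.R532.Wa
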