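import Pool.Agent.R532.Wa3

/-!
# Sums of powers with generic real coefficients: Borel–Cantelli
-/

set_option autoImplicit false

namespace Pool.Agent.R532.Wa

open MeasureTheory Finset Complex

/-- the parameters: `τ = m ^ (k - s/2 + δ)`, `H = m ^ (k - 1/2)` -/
noncomputable def tau (k s : ℕ) (δ m : ℝ) : ℝ := m ^ ((k : ℝ) - (s : ℝ) / 2 + δ)

/-- the parameters: `τ = m ^ (k - s/2 + δ)`, `H = m ^ (k - 1/2)` -/
noncomputable def HH (k : ℕ) (m : ℝ) : ℝ := m ^ ((k : ℝ) - 1 / 2)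

lemma bound_T (k s : ℕ) (hk : 1 ≤ k) (hs : 3 ≤ s) {δ : ℝ} (hδ : 0 < δ) (hδ1 : δ ≤ 1 / 32) :
    ∃ C : ℝ, 0 < C ∧ ∀ M : ℕ, 1 ≤ M →
      4 * Real.pi * (3 * (M : ℝ)) ^ s * HH k M * ((M : ℝ) ^ (-(k : ℝ) + 1 / 8)) ^ 2 +
        2 ^ (s + 1) * √(3 * (M : ℝ)) ^ s / tau k s δ M +
        2 ^ (s + 3) * √(6 * M * (1 + Real.log (3 * M)) / (M : ℝ) ^ (k - 1)) ^ s *
          ((M : ℝ) ^ (-(k : ℝ) + 1 / 8)) ^ (1 - (s : ℝ) / 2) ≤
        C * (M : ℝ) ^ ((s : ℝ) - k - δ) := by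
  have hs3 : (3 : ℝ) ≤ s := by exact_mod_cast hs
  set ε : ℝ := ((s : ℝ) - 2) / (16 * s) with hε
  have hs0 : (0 : ℝ) < s := by linarith
  have hε0 : 0 < ε := div_pos (by linarith) (by linarith)
  set K : ℝ := 1 + 3 ^ ε / ε with hK
  have hK0 : 0 < K := by positivity
  refine ⟨4 * Real.pi * 3 ^ s + 2 ^ (s + 1) * √3 ^ s + 2 ^ (s + 3) * √(6 * K) ^ s, by positivity,
    fun M hM => ?_⟩
  have hM1 : (1 : ℝ) ≤ M := by exact_mod_cast hM
  set m : ℝ := (M : ℝ) with hm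
  have hm0 : 0 < m := by linarith
  have hmono : ∀ {a b : ℝ}, a ≤ b → m ^ a ≤ m ^ b := fun h =>
    Real.rpow_le_rpow_of_exponent_le hM1 h
  have hpow : ∀ n : ℕ, m ^ n = m ^ (n : ℝ) := fun n => (Real.rpow_natCast m n).symm
  -- first term
  have t1 : 4 * Real.pi * (3 * m) ^ s * HH k m * (m ^ (-(k : ℝ) + 1 / 8)) ^ 2 ≤
      4 * Real.pi * 3 ^ s * m ^ ((s : ℝ) - k - δ) := by
    unfold HH
    have h1 : 4 * Real.pi * (3 * m) ^ s * m ^ ((k : ℝ) - 1 / 2) * (m ^ (-(k : ℝ) + 1 / 8)) ^ 2 =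
        4 * Real.pi * 3 ^ s * m ^ ((s : ℝ) - k - 1 / 4) := by
      have h2 : (m ^ (-(k : ℝ) + 1 / 8)) ^ 2 = m ^ (-(2 * k : ℝ) + 1 / 4) := by
        rw [← Real.rpow_natCast, ← Real.rpow_mul hm0.le]
        congr 1
        push_cast
        ring
      rw [h2, mul_pow, hpow s]
      have h3 : m ^ ((s : ℝ) - k - 1 / 4) =
          m ^ (s : ℝ) * m ^ ((k : ℝ) - 1 / 2) * m ^ (-(2 * k : ℝ) + 1 / 4) := by
        rw [← Real.rpow_add hm0, ← Real.rpow_add hm0]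
        congr 1
        ring
      rw [h3]
      ring
    rw [h1]
    refine mul_le_mul_of_nonneg_left (hmono (by linarith)) (by positivity)
  -- second term
  have t2 : 2 ^ (s + 1) * √(3 * m) ^ s / tau k s δ m ≤
      2 ^ (s + 1) * √3 ^ s * m ^ ((s : ℝ) - k - δ) := by
    unfold tau
    have h2 : √(3 * m) ^ s = √3 ^ s * m ^ ((s : ℝ) / 2) := by
      rw [Real.sqrt_mul (by norm_num), mul_pow]
      congr 1
      rw [Real.sqrt_eq_rpow, ← Real.rpow_natCast, ← Real.rpow_mul hm0.le]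
      congr 1
      ring
    rw [h2, div_le_iff₀ (by positivity)]
    have h3 : m ^ ((s : ℝ) / 2) = m ^ ((s : ℝ) - k - δ) * m ^ ((k : ℝ) - (s : ℝ) / 2 + δ) := by
      rw [← Real.rpow_add hm0]
      congr 1
      ring
    rw [h3]
    refine le_of_eq ?_
    ring
  -- third term
  have t3 : 2 ^ (s + 3) * √(6 * m * (1 + Real.log (3 * m)) / m ^ (k - 1)) ^ s *
      (m ^ (-(k : ℝ) + 1 / 8)) ^ (1 - (s : ℝ) / 2) ≤
        2 ^ (s + 3) * √(6 * K) ^ s * m ^ ((s : ℝ) - k - δ) := by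
    have hlog : 1 + Real.log (3 * m) ≤ K * m ^ ε := by
      have h1 : Real.log (3 * m) ≤ (3 * m) ^ ε / ε := Real.log_le_rpow_div (by positivity) hε0
      rw [Real.mul_rpow (by norm_num) hm0.le] at h1
      have h2 : (1 : ℝ) ≤ m ^ ε := Real.one_le_rpow hM1 hε0.le
      rw [hK]
      have h3 : 3 ^ ε * m ^ ε / ε = 3 ^ ε / ε * m ^ ε := by ring
      rw [h3] at h1
      nlinarith
    have h1 : 6 * m * (1 + Real.log (3 * m)) / m ^ (k - 1) ≤ 6 * K * m ^ (2 - (k : ℝ) + ε) := by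
      rw [div_le_iff₀ (by positivity)]
      have h2 : m ^ (k - 1) = m ^ ((k : ℝ) - 1) := by
        rw [hpow, Nat.cast_sub hk, Nat.cast_one]
      have h3 : m ^ (2 - (k : ℝ) + ε) * m ^ ((k : ℝ) - 1) = m * m ^ ε := by
        rw [← Real.rpow_add hm0]
        have h4 : m * m ^ ε = m ^ (1 + ε) := by
          rw [Real.rpow_add hm0, Real.rpow_one]
        rw [h4]
        congr 1
        ring
      rw [h2]
      calc 6 * m * (1 + Real.log (3 * m)) ≤ 6 * m * (K * m ^ ε) :=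
            mul_le_mul_of_nonneg_left hlog (by positivity)
        _ = 6 * K * (m * m ^ ε) := by ring
        _ = 6 * K * (m ^ (2 - (k : ℝ) + ε) * m ^ ((k : ℝ) - 1)) := by rw [h3]
        _ = _ := by ring
    have h2 : √(6 * m * (1 + Real.log (3 * m)) / m ^ (k - 1)) ^ s ≤
        √(6 * K) ^ s * m ^ ((2 - (k : ℝ) + ε) * (s / 2)) := by
      refine (pow_le_pow_left₀ (Real.sqrt_nonneg _) (Real.sqrt_le_sqrt h1) s).trans ?_
      rw [Real.sqrt_mul (by positivity), mul_pow]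
      refine mul_le_mul_of_nonneg_left (le_of_eq ?_) (by positivity)
      rw [Real.sqrt_eq_rpow, ← Real.rpow_natCast, ← Real.rpow_mul (by positivity),
        ← Real.rpow_mul hm0.le]
      congr 1
      ring
    have h3 : (m ^ (-(k : ℝ) + 1 / 8)) ^ (1 - (s : ℝ) / 2) =
        m ^ ((-(k : ℝ) + 1 / 8) * (1 - (s : ℝ) / 2)) := by
      rw [← Real.rpow_mul hm0.le]
    rw [h3]
    calc 2 ^ (s + 3) * √(6 * m * (1 + Real.log (3 * m)) / m ^ (k - 1)) ^ s *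
          m ^ ((-(k : ℝ) + 1 / 8) * (1 - (s : ℝ) / 2))
        ≤ 2 ^ (s + 3) * (√(6 * K) ^ s * m ^ ((2 - (k : ℝ) + ε) * (s / 2))) *
          m ^ ((-(k : ℝ) + 1 / 8) * (1 - (s : ℝ) / 2)) := by
          refine mul_le_mul_of_nonneg_right ?_ (by positivity)
          exact mul_le_mul_of_nonneg_left h2 (by positivity)
      _ = 2 ^ (s + 3) * √(6 * K) ^ s * (m ^ ((2 - (k : ℝ) + ε) * (s / 2)) *
          m ^ ((-(k : ℝ) + 1 / 8) * (1 - (s : ℝ) / 2))) := by ring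
      _ = 2 ^ (s + 3) * √(6 * K) ^ s * m ^ ((2 - (k : ℝ) + ε) * (s / 2) +
          (-(k : ℝ) + 1 / 8) * (1 - (s : ℝ) / 2)) := by rw [← Real.rpow_add hm0]
      _ ≤ _ := by
          refine mul_le_mul_of_nonneg_left (hmono ?_) (by positivity)
          have h4 : ε * (s / 2) = ((s : ℝ) - 2) / 32 := by
            rw [hε]
            field_simp
            ring
          nlinarith
  linarith

/-- **For almost all coefficients the minor arcs are small.** -/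
theorem ae_J (k s : ℕ) (hk : 1 ≤ k) (hs : 3 ≤ s) {δ : ℝ} (hδ : 0 < δ) (hδ1 : δ ≤ 1 / 32) :
    ∀ᵐ l ∂(μs s), ∀ᶠ j : ℕ in Filter.atTop,
      ∫ θ, F k (2 ^ j) s (tau k s δ (2 ^ j)) (HH k (2 ^ j)) l θ <
        ((2 : ℝ) ^ j) ^ ((s : ℝ) - k - δ / 2) := by
  obtain ⟨C, hC, hT⟩ := bound_T k s hk hs hδ hδ1
  set A : ℕ → Set (Fin s → ℝ) := fun j => {l | ENNReal.ofReal (((2 : ℝ) ^ j) ^ ((s : ℝ) - k - δ / 2)) ≤
    J k (2 ^ j) s (tau k s δ (2 ^ j)) (HH k (2 ^ j)) l} with hA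
  have hmeas : ∀ j, μs s (A j) ≤ ENNReal.ofReal (C * ((2 : ℝ) ^ (-(δ / 2))) ^ j) := by
    intro j
    have hm0 : (0 : ℝ) < 2 ^ j := by positivity
    have h1 := mul_meas_ge_le_lintegral (μ := μs s)
      (measurable_J k (2 ^ j) s (tau k s δ (2 ^ j)) (HH k (2 ^ j)))
      (ENNReal.ofReal (((2 : ℝ) ^ j) ^ ((s : ℝ) - k - δ / 2)))
    have hτ : 0 < tau k s δ (2 ^ j) := by unfold tau; positivity
    have hH : 0 ≤ HH k (2 ^ j) := by unfold HH; positivity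
    have h2 := mean_J k (2 ^ j) s hk Nat.one_le_two_pow hs hτ hH
      (show 0 < ((2 : ℝ) ^ j) ^ (-(k : ℝ) + 1 / 8) by positivity)
    have h3 := hT (2 ^ j) Nat.one_le_two_pow
    push_cast at h2 h3
    have h4 := h1.trans (h2.trans (ENNReal.ofReal_le_ofReal h3))
    have hpos : 0 < ((2 : ℝ) ^ j) ^ ((s : ℝ) - k - δ / 2) := by positivity
    have h5 : C * ((2 : ℝ) ^ j) ^ ((s : ℝ) - k - δ) =
        ((2 : ℝ) ^ j) ^ ((s : ℝ) - k - δ / 2) * (C * ((2 : ℝ) ^ (-(δ / 2))) ^ j) := by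
      have h6 : ((2 : ℝ) ^ (-(δ / 2))) ^ j = ((2 : ℝ) ^ j) ^ (-(δ / 2)) := by
        rw [← Real.rpow_natCast, ← Real.rpow_natCast, ← Real.rpow_mul (by norm_num),
          ← Real.rpow_mul (by norm_num), mul_comm]
      rw [h6]
      have h7 : ((2 : ℝ) ^ j) ^ ((s : ℝ) - k - δ) =
          ((2 : ℝ) ^ j) ^ ((s : ℝ) - k - δ / 2) * ((2 : ℝ) ^ j) ^ (-(δ / 2)) := by
        rw [← Real.rpow_add hm0]
        congr 1
        ring
      rw [h7]
      ring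
    rw [h5, ENNReal.ofReal_mul hpos.le] at h4
    exact (ENNReal.mul_le_mul_iff_right (ENNReal.ofReal_pos.2 hpos).ne' ENNReal.ofReal_ne_top).1 h4
  have hsum : ∑' j, μs s (A j) ≠ ⊤ := by
    refine ne_top_of_le_ne_top ?_ (ENNReal.tsum_le_tsum hmeas)
    have hr : (2 : ℝ) ^ (-(δ / 2)) < 1 := Real.rpow_lt_one_of_one_lt_of_neg (by norm_num) (by linarith)
    have hr0 : 0 ≤ (2 : ℝ) ^ (-(δ / 2)) := by positivity
    have hs1 : Summable fun j : ℕ => C * ((2 : ℝ) ^ (-(δ / 2))) ^ j :=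
      (summable_geometric_of_lt_one hr0 hr).mul_left C
    rw [← ENNReal.ofReal_tsum_of_nonneg (fun j => by positivity) hs1]
    exact ENNReal.ofReal_ne_top
  filter_upwards [ae_eventually_notMem hsum] with l hl
  filter_upwards [hl] with j hj
  have hτ : 0 < tau k s δ (2 ^ j) := by unfold tau; positivity
  have hH : 0 ≤ HH k (2 ^ j) := by unfold HH; positivity
  simp only [hA, Set.mem_ofPred_eq, not_le] at hj
  rw [J_eq k (2 ^ j) s hτ hH] at hj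
  have hpos : 0 < ((2 : ℝ) ^ j) ^ ((s : ℝ) - k - δ / 2) := by positivity
  exact (ENNReal.ofReal_lt_ofReal_iff hpos).1 hj

end Pool.Agent.R532.Wa
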