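import Pool.Agent.R532.Wa2

/-!
# Sums of powers with generic real coefficients: a smooth count and its Fourier transform
-/

set_option autoImplicit false

namespace Pool.Agent.R532.Wa

open MeasureTheory Finset Complex

lemma gauss {τ : ℝ} (hτ : 0 < τ) (u : ℝ) : ((Real.exp (-Real.pi * (u / τ) ^ 2) : ℝ) : ℂ) =
    τ * ∫ θ : ℝ, ((Real.exp (-(Real.pi * τ ^ 2) * θ ^ 2) : ℝ) : ℂ) * e (u * θ) := by
  have hb : 0 < ((Real.pi * τ ^ 2 : ℝ) : ℂ).re := by
    rw [Complex.ofReal_re]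
    positivity
  have h1 := fourierIntegral_gaussian hb ((2 * Real.pi * u : ℝ) : ℂ)
  have h2 : ∀ θ : ℝ, ((Real.exp (-(Real.pi * τ ^ 2) * θ ^ 2) : ℝ) : ℂ) * e (u * θ) =
      Complex.exp (I * ((2 * Real.pi * u : ℝ) : ℂ) * θ) *
        Complex.exp (-((Real.pi * τ ^ 2 : ℝ) : ℂ) * θ ^ 2) := by
    intro θ
    rw [mul_comm]
    unfold e
    rw [Complex.ofReal_exp]
    congr 1
    · congr 1
      push_cast
      ring
    · congr 1
      push_cast
      ring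
  simp only [h2]
  rw [h1]
  have h3 : ((Real.pi : ℂ) / ((Real.pi * τ ^ 2 : ℝ) : ℂ)) ^ (1 / 2 : ℂ) = ((1 / τ : ℝ) : ℂ) := by
    have h4 : (Real.pi : ℂ) / ((Real.pi * τ ^ 2 : ℝ) : ℂ) = (((1 / τ) ^ 2 : ℝ) : ℂ) := by
      rw [← Complex.ofReal_div]
      congr 1
      have := Real.pi_ne_zero
      field_simp
    have h5 : (1 / 2 : ℂ) = ((1 / 2 : ℝ) : ℂ) := by push_cast; rfl
    rw [h4, h5, ← Complex.ofReal_cpow (by positivity), ← Real.sqrt_eq_rpow,
      Real.sqrt_sq (by positivity)]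
  rw [h3]
  have h6 : Complex.exp (-((2 * Real.pi * u : ℝ) : ℂ) ^ 2 / (4 * ((Real.pi * τ ^ 2 : ℝ) : ℂ))) =
      ((Real.exp (-Real.pi * (u / τ) ^ 2) : ℝ) : ℂ) := by
    rw [Complex.ofReal_exp]
    congr 1
    have hpi : (Real.pi : ℂ) ≠ 0 := by exact_mod_cast Real.pi_ne_zero
    have hτ' : (τ : ℂ) ≠ 0 := by exact_mod_cast hτ.ne'
    push_cast
    field_simp
    ring
  rw [h6, ← mul_assoc, ← Complex.ofReal_mul, mul_one_div_cancel hτ.ne', Complex.ofReal_one, one_mul]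

/-- the smooth count of the `x` with `∑ l i * x i ^ k` near `N` -/
noncomputable def R (k M s : ℕ) (τ : ℝ) (l : Fin s → ℝ) (N : ℝ) : ℝ :=
  ∑ x ∈ Fintype.piFinset (fun _ : Fin s => Ioc M (4 * M)),
    Real.exp (-Real.pi * ((∑ i, l i * (x i : ℝ) ^ k - N) / τ) ^ 2)

lemma integrable_g {τ : ℝ} (hτ : 0 < τ) (f : ℝ → ℂ) (hf : Continuous f) {C : ℝ}
    (hC : ∀ θ, ‖f θ‖ ≤ C) :
    Integrable fun θ : ℝ => ((Real.exp (-(Real.pi * τ ^ 2) * θ ^ 2) : ℝ) : ℂ) * f θ := by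
  have h1 : Integrable (fun θ : ℝ => C * Real.exp (-(Real.pi * τ ^ 2) * θ ^ 2)) :=
    (integrable_exp_neg_mul_sq (by positivity)).const_mul _
  refine h1.mono' ?_ ?_
  · refine Continuous.aestronglyMeasurable ?_
    fun_prop
  · refine Filter.Eventually.of_forall fun θ => ?_
    rw [norm_mul, Complex.norm_real, Real.norm_of_nonneg (Real.exp_pos _).le, mul_comm]
    exact mul_le_mul_of_nonneg_right (hC θ) (Real.exp_pos _).le

lemma sum_e (k M s : ℕ) (l : Fin s → ℝ) (N θ : ℝ) :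
    ∑ x ∈ Fintype.piFinset (fun _ : Fin s => Ioc M (4 * M)),
      e ((∑ i, l i * (x i : ℝ) ^ k - N) * θ) = (∏ i, S k M (l i * θ)) * e (-(N * θ)) := by
  unfold S
  rw [Finset.prod_univ_sum, sum_mul]
  refine sum_congr rfl fun x _ => ?_
  rw [← e_sum, ← e_add]
  congr 1
  rw [sub_mul, sum_mul, sub_eq_add_neg]
  congr 1
  exact sum_congr rfl fun i _ => by ring

lemma R_eq (k M s : ℕ) {τ : ℝ} (hτ : 0 < τ) (l : Fin s → ℝ) (N : ℝ) :
    ((R k M s τ l N : ℝ) : ℂ) = τ * ∫ θ : ℝ, ((Real.exp (-(Real.pi * τ ^ 2) * θ ^ 2) : ℝ) : ℂ) *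
      ((∏ i, S k M (l i * θ)) * e (-(N * θ))) := by
  unfold R
  rw [Complex.ofReal_sum]
  have h1 : ∀ x ∈ Fintype.piFinset (fun _ : Fin s => Ioc M (4 * M)),
      ((Real.exp (-Real.pi * ((∑ i, l i * (x i : ℝ) ^ k - N) / τ) ^ 2) : ℝ) : ℂ) =
      τ * ∫ θ : ℝ, ((Real.exp (-(Real.pi * τ ^ 2) * θ ^ 2) : ℝ) : ℂ) *
        e ((∑ i, l i * (x i : ℝ) ^ k - N) * θ) := fun x _ => gauss hτ _
  rw [sum_congr rfl h1, ← mul_sum, ← integral_finset_sum]
  · congr 1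
    refine integral_congr_ae (Filter.Eventually.of_forall fun θ => ?_)
    simp only
    rw [← mul_sum, sum_e]
  · intro x _
    refine integrable_g hτ _ (continuous_e.comp (by fun_prop)) (C := 1) fun θ => ?_
    rw [norm_e]

/-- **The smooth count varies slowly, up to the minor arcs.** -/
theorem R_diff (k M s : ℕ) {τ H : ℝ} (hτ : 0 < τ) (l : Fin s → ℝ) (N h : ℝ)
    (h0 : 0 ≤ h) (hH : h ≤ H) :
    |R k M s τ l N - R k M s τ l (N + h)| ≤ τ * ∫ θ, F k M s τ H l θ := by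
  have hH0 : 0 ≤ H := h0.trans hH
  have hcont : Continuous fun θ : ℝ => ∏ i, S k M (l i * θ) :=
    continuous_finset_prod _ fun i _ => (continuous_S k M).comp (by fun_prop)
  have hbd : ∀ θ : ℝ, ‖∏ i, S k M (l i * θ)‖ ≤ (3 * (M : ℝ)) ^ s := by
    intro θ
    rw [norm_prod]
    exact prod_S_le k M s l θ
  have hI : ∀ n : ℝ, Integrable fun θ : ℝ =>
      ((Real.exp (-(Real.pi * τ ^ 2) * θ ^ 2) : ℝ) : ℂ) *
        ((∏ i, S k M (l i * θ)) * e (-(n * θ))) := by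
    intro n
    refine integrable_g hτ _ (hcont.mul (continuous_e.comp (by fun_prop)))
      (C := (3 * (M : ℝ)) ^ s) fun θ => ?_
    rw [norm_mul, norm_e, mul_one]
    exact hbd θ
  have h1 : ((R k M s τ l N - R k M s τ l (N + h) : ℝ) : ℂ) =
      τ * ∫ θ : ℝ, (((Real.exp (-(Real.pi * τ ^ 2) * θ ^ 2) : ℝ) : ℂ) *
        ((∏ i, S k M (l i * θ)) * e (-(N * θ))) - ((Real.exp (-(Real.pi * τ ^ 2) * θ ^ 2) : ℝ) : ℂ) *
        ((∏ i, S k M (l i * θ)) * e (-((N + h) * θ)))) := by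
    rw [integral_sub (hI N) (hI (N + h)), mul_sub, ← R_eq k M s hτ, ← R_eq k M s hτ,
      Complex.ofReal_sub]
  have h2 : |R k M s τ l N - R k M s τ l (N + h)| =
      ‖((R k M s τ l N - R k M s τ l (N + h) : ℝ) : ℂ)‖ := by
    rw [Complex.norm_real, Real.norm_eq_abs]
  rw [h2, h1, norm_mul, Complex.norm_real, Real.norm_of_nonneg hτ.le]
  refine mul_le_mul_of_nonneg_left ?_ hτ.le
  refine (norm_integral_le_integral_norm _).trans ?_
  refine integral_mono ((hI N).sub (hI (N + h))).norm (integrable_F k M s hτ hH0 l) fun θ => ?_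
  simp only
  have h3 : ((Real.exp (-(Real.pi * τ ^ 2) * θ ^ 2) : ℝ) : ℂ) *
        ((∏ i, S k M (l i * θ)) * e (-(N * θ))) - ((Real.exp (-(Real.pi * τ ^ 2) * θ ^ 2) : ℝ) : ℂ) *
        ((∏ i, S k M (l i * θ)) * e (-((N + h) * θ))) =
      ((Real.exp (-(Real.pi * τ ^ 2) * θ ^ 2) : ℝ) : ℂ) * (∏ i, S k M (l i * θ)) * e (-(N * θ)) *
        (1 - e (-(h * θ))) := by
    have h4 : e (-((N + h) * θ)) = e (-(N * θ)) * e (-(h * θ)) := by
      rw [← e_add]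
      congr 1
      ring
    rw [h4]
    ring
  rw [h3, norm_mul, norm_mul, norm_mul, norm_e, mul_one, Complex.norm_real,
    Real.norm_of_nonneg (Real.exp_pos _).le, norm_prod]
  unfold F
  refine mul_le_mul_of_nonneg_left ?_ (mul_nonneg (Real.exp_pos _).le
    (prod_nonneg fun i _ => norm_nonneg _))
  refine (norm_e_sub_one _).trans (min_le_min_left _ ?_)
  rw [abs_neg, abs_mul, abs_of_nonneg h0]
  gcongr

end Pool.Agent.R532.Wa
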