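import Pool.Agent.R532.Wa5

/-!
# Sums of powers with generic real coefficients: the main term
-/

set_option autoImplicit false

namespace Pool.Agent.R532.Wa

open Finset

lemma card_nat {a b : ℝ} (ha : 0 ≤ a) : b - a - 1 ≤ ((Ioc ⌊a⌋₊ ⌊b⌋₊).card : ℝ) := by
  rw [Nat.card_Ioc]
  have h1 : (⌊a⌋₊ : ℝ) ≤ a := Nat.floor_le ha
  have h2 : b < ⌊b⌋₊ + 1 := Nat.lt_floor_add_one b
  have h3 : ((⌊b⌋₊ : ℕ) : ℝ) - (⌊a⌋₊ : ℕ) ≤ ((⌊b⌋₊ - ⌊a⌋₊ : ℕ) : ℝ) := by
    rw [sub_le_iff_le_add]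
    have : ⌊b⌋₊ ≤ ⌊b⌋₊ - ⌊a⌋₊ + ⌊a⌋₊ := by omega
    exact_mod_cast this
  linarith

lemma mem_nat {a b : ℝ} (ha : 0 ≤ a) (hb : 0 ≤ b) {x : ℕ} (hx : x ∈ Ioc ⌊a⌋₊ ⌊b⌋₊) :
    a < x ∧ (x : ℝ) ≤ b := by
  rw [mem_Ioc] at hx
  exact ⟨(Nat.floor_lt ha).1 hx.1, (Nat.le_floor_iff hb).1 hx.2⟩

lemma pow_up (n : ℕ) {u v : ℝ} (hv : 0 ≤ v) (huv : v ≤ u) :
    u ^ (n + 1) - v ^ (n + 1) ≤ (n + 1) * u ^ n * (u - v) := by
  have hu : 0 ≤ u := hv.trans huv
  induction n with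
  | zero => simp
  | succ n ih =>
    have h1 : u ^ (n + 1 + 1) - v ^ (n + 1 + 1) =
        u * (u ^ (n + 1) - v ^ (n + 1)) + v ^ (n + 1) * (u - v) := by ring
    have h2 : v ^ (n + 1) ≤ u ^ (n + 1) := pow_le_pow_left₀ hv huv _
    rw [h1]
    push_cast
    calc u * (u ^ (n + 1) - v ^ (n + 1)) + v ^ (n + 1) * (u - v)
        ≤ u * ((n + 1) * u ^ n * (u - v)) + u ^ (n + 1) * (u - v) := by
          refine add_le_add (mul_le_mul_of_nonneg_left ih hu) ?_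
          exact mul_le_mul_of_nonneg_right h2 (by linarith)
      _ = (n + 1 + 1) * u ^ (n + 1) * (u - v) := by ring

lemma pow_low (n : ℕ) {u v : ℝ} (hv : 0 ≤ v) (huv : v ≤ u) :
    (n + 1) * v ^ n * (u - v) ≤ u ^ (n + 1) - v ^ (n + 1) := by
  have hu : 0 ≤ u := hv.trans huv
  induction n with
  | zero => simp
  | succ n ih =>
    have h1 : u ^ (n + 1 + 1) - v ^ (n + 1 + 1) =
        v * (u ^ (n + 1) - v ^ (n + 1)) + u ^ (n + 1) * (u - v) := by ring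
    have h2 : v ^ (n + 1) ≤ u ^ (n + 1) := pow_le_pow_left₀ hv huv _
    rw [h1]
    push_cast
    calc (n + 1 + 1) * v ^ (n + 1) * (u - v)
        = v * ((n + 1) * v ^ n * (u - v)) + v ^ (n + 1) * (u - v) := by ring
      _ ≤ v * (u ^ (n + 1) - v ^ (n + 1)) + u ^ (n + 1) * (u - v) := by
          refine add_le_add (mul_le_mul_of_nonneg_left ih hv) ?_
          exact mul_le_mul_of_nonneg_right h2 (by linarith)

/-- **The number of the `x` in a thick shell.** -/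
theorem count (p n M : ℕ) (hM : 8 * (n + 1) ≤ M) (w : ℝ) (hw2 : 2 ≤ w) (hwM : w ≤ M / 2)
    (l : Fin (n + 1) → ℝ) (hl : ∀ i, 1 ≤ l i ∧ l i ≤ 2) (y₀ : ℝ) (hy1 : 3 / 2 * (M : ℝ) ≤ y₀)
    (hy2 : y₀ ≤ 3 * M) :
    ((M : ℝ) / (8 * (n + 1))) ^ n * (w / 2) ≤
      (((Fintype.piFinset fun _ : Fin (n + 1) => Ioc M (4 * M)).filter fun x =>
        (∑ i, l i) * y₀ ^ (p + 1) ≤ ∑ i, l i * (x i : ℝ) ^ (p + 1) ∧
        ∑ i, l i * (x i : ℝ) ^ (p + 1) ≤
          (∑ i, l i) * y₀ ^ (p + 1) + 2 * (p + 1) * (4 * M) ^ p * w).card : ℝ) := by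
  classical
  have hn0 : (0 : ℝ) ≤ n := Nat.cast_nonneg n
  have hMr : 8 * ((n : ℝ) + 1) ≤ M := by exact_mod_cast hM
  have hM0 : (0 : ℝ) < M := by linarith
  set d : ℝ := M / (4 * (n + 1)) with hd
  have hd2 : 2 ≤ d := by
    rw [hd, le_div_iff₀ (by positivity)]
    linarith
  have hdM : d ≤ M / 4 := by
    rw [hd]
    refine div_le_div_of_nonneg_left hM0.le (by norm_num) (by linarith)
  have hnd : 2 * n * d ≤ M / 2 := by
    rw [hd, mul_div_assoc', div_le_div_iff₀ (by positivity) (by norm_num)]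
    nlinarith
  have hy0 : 0 ≤ y₀ := by linarith
  have hyd : 0 ≤ y₀ - d := by linarith
  set I : Finset ℕ := Ioc ⌊y₀ - d⌋₊ ⌊y₀⌋₊ with hI
  have hIcard : (M : ℝ) / (8 * (n + 1)) ≤ (I.card : ℝ) := by
    have h1 := card_nat (b := y₀) hyd
    have h2 : (M : ℝ) / (8 * (n + 1)) = d / 2 := by
      rw [hd]
      field_simp
      ring
    rw [h2]
    linarith
  have hImem : ∀ x ∈ I, y₀ - d < x ∧ (x : ℝ) ≤ y₀ := fun x hx => mem_nat hyd hy0 hx
  set T : Finset (Fin n → ℕ) := Fintype.piFinset fun _ => I with hT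
  set B : (Fin n → ℕ) → ℝ := fun y =>
    y₀ ^ (p + 1) + (∑ i : Fin n, l i.succ * (y₀ ^ (p + 1) - (y i : ℝ) ^ (p + 1))) / l 0 with hB
  set t₀ : (Fin n → ℕ) → ℝ := fun y => (B y) ^ (((p + 1 : ℕ) : ℝ)⁻¹) with ht₀
  have hl0 : 0 < l 0 := by linarith [(hl 0).1]
  have hterm : ∀ y ∈ T, ∀ i : Fin n, 0 ≤ l i.succ * (y₀ ^ (p + 1) - (y i : ℝ) ^ (p + 1)) ∧
      l i.succ * (y₀ ^ (p + 1) - (y i : ℝ) ^ (p + 1)) ≤ 2 * ((p + 1) * y₀ ^ p * d) := by
    intro y hy i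
    have hyi := hImem (y i) (by
      rw [hT, Fintype.mem_piFinset] at hy
      exact hy i)
    have h1 : (y i : ℝ) ^ (p + 1) ≤ y₀ ^ (p + 1) := pow_le_pow_left₀ (Nat.cast_nonneg _) hyi.2 _
    have h2 := pow_up p (Nat.cast_nonneg (y i)) hyi.2
    have h3 := hl i.succ
    have h4 : ((p : ℝ) + 1) * y₀ ^ p * (y₀ - y i) ≤ (p + 1) * y₀ ^ p * d :=
      mul_le_mul_of_nonneg_left (by linarith) (by positivity)
    refine ⟨mul_nonneg (by linarith) (by linarith), ?_⟩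
    refine mul_le_mul h3.2 (h2.trans h4) (by linarith) (by norm_num)
  have hB1 : ∀ y ∈ T, y₀ ^ (p + 1) ≤ B y := by
    intro y hy
    have : 0 ≤ (∑ i : Fin n, l i.succ * (y₀ ^ (p + 1) - (y i : ℝ) ^ (p + 1))) / l 0 :=
      div_nonneg (sum_nonneg fun i _ => (hterm y hy i).1) hl0.le
    rw [hB]
    linarith
  have hB2 : ∀ y ∈ T, B y ≤ (y₀ + M / 2) ^ (p + 1) := by
    intro y hy
    have h1 : ∑ i : Fin n, l i.succ * (y₀ ^ (p + 1) - (y i : ℝ) ^ (p + 1)) ≤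
        n * (2 * ((p + 1) * y₀ ^ p * d)) := by
      refine (sum_le_sum fun i _ => (hterm y hy i).2).trans ?_
      rw [sum_const, card_univ, Fintype.card_fin, nsmul_eq_mul]
    have h2 : (∑ i : Fin n, l i.succ * (y₀ ^ (p + 1) - (y i : ℝ) ^ (p + 1))) / l 0 ≤
        n * (2 * ((p + 1) * y₀ ^ p * d)) := by
      refine (div_le_self (sum_nonneg fun i _ => (hterm y hy i).1) (hl 0).1).trans h1
    have h3 := pow_low p hy0 (show y₀ ≤ y₀ + M / 2 by linarith)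
    have h4 : n * (2 * (((p : ℝ) + 1) * y₀ ^ p * d)) ≤ (p + 1) * y₀ ^ p * (y₀ + M / 2 - y₀) := by
      have h5 : n * (2 * (((p : ℝ) + 1) * y₀ ^ p * d)) = (p + 1) * y₀ ^ p * (2 * n * d) := by ring
      rw [h5]
      exact mul_le_mul_of_nonneg_left (by linarith) (by positivity)
    rw [hB]
    linarith
  have ht : ∀ y ∈ T, t₀ y ^ (p + 1) = B y ∧ 0 ≤ t₀ y ∧ y₀ ≤ t₀ y ∧ t₀ y ≤ y₀ + M / 2 := by
    intro y hy
    have hB0 : 0 ≤ B y := le_trans (by positivity) (hB1 y hy)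
    have h1 : t₀ y ^ (p + 1) = B y := Real.rpow_inv_natCast_pow hB0 (by omega)
    have h2 : 0 ≤ t₀ y := Real.rpow_nonneg hB0 _
    refine ⟨h1, h2, ?_, ?_⟩
    · refine le_of_pow_le_pow_left₀ (n := p + 1) (by omega) h2 ?_
      rw [h1]
      exact hB1 y hy
    · refine le_of_pow_le_pow_left₀ (n := p + 1) (by omega) (by positivity) ?_
      rw [h1]
      exact hB2 y hy
  set K : (Fin n → ℕ) → Finset ℕ := fun y => Ioc ⌊t₀ y⌋₊ ⌊t₀ y + w⌋₊ with hK
  have hKcard : ∀ y ∈ T, w / 2 ≤ ((K y).card : ℝ) := by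
    intro y hy
    have h1 := card_nat (b := t₀ y + w) (ht y hy).2.1
    have h2 : ((K y).card : ℝ) = ((Ioc ⌊t₀ y⌋₊ ⌊t₀ y + w⌋₊).card : ℝ) := rfl
    rw [h2]
    linarith
  have hlow : ((M : ℝ) / (8 * (n + 1))) ^ n * (w / 2) ≤ ((T.sigma K).card : ℝ) := by
    rw [card_sigma]
    push_cast
    have h1 : ((M : ℝ) / (8 * (n + 1))) ^ n ≤ (T.card : ℝ) := by
      rw [hT, Fintype.card_piFinset, prod_const, card_univ, Fintype.card_fin]
      push_cast
      exact pow_le_pow_left₀ (by positivity) hIcard n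
    calc ((M : ℝ) / (8 * (n + 1))) ^ n * (w / 2) ≤ (T.card : ℝ) * (w / 2) :=
          mul_le_mul_of_nonneg_right h1 (by linarith)
      _ = ∑ _y ∈ T, w / 2 := by rw [sum_const, nsmul_eq_mul]
      _ ≤ ∑ y ∈ T, ((K y).card : ℝ) := sum_le_sum hKcard
  refine hlow.trans ?_
  have hcard : (T.sigma K).card ≤
      ((Fintype.piFinset fun _ : Fin (n + 1) => Ioc M (4 * M)).filter fun x =>
        (∑ i, l i) * y₀ ^ (p + 1) ≤ ∑ i, l i * (x i : ℝ) ^ (p + 1) ∧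
        ∑ i, l i * (x i : ℝ) ^ (p + 1) ≤
          (∑ i, l i) * y₀ ^ (p + 1) + 2 * (p + 1) * (4 * M) ^ p * w).card := by
    refine card_le_card_of_injOn
      (fun z : (_ : Fin n → ℕ) × ℕ => (Fin.cons z.2 z.1 : Fin (n + 1) → ℕ)) ?_ ?_
    · rintro ⟨y, x⟩ hz
      rw [mem_coe, mem_sigma] at hz
      obtain ⟨hy, hx⟩ := hz
      change y ∈ T at hy
      change x ∈ K y at hx
      obtain ⟨h1, h2, h3, h4⟩ := ht y hy
      have hx2 := mem_nat h2 (by linarith : 0 ≤ t₀ y + w) hx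
      have hyi : ∀ i, y₀ - d < y i ∧ (y i : ℝ) ≤ y₀ := fun i => hImem (y i) (by
        rw [hT, Fintype.mem_piFinset] at hy
        exact hy i)
      rw [mem_coe, mem_filter, Fintype.mem_piFinset]
      refine ⟨?_, ?_⟩
      · intro i
        refine Fin.cases ?_ (fun i => ?_) i
        · change x ∈ Ioc M (4 * M)
          rw [mem_Ioc]
          have h5 : (M : ℝ) < x := by linarith [hx2.1]
          have h6 : (x : ℝ) ≤ 4 * M := by linarith [hx2.2]
          exact ⟨by exact_mod_cast h5, by exact_mod_cast h6⟩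
        · change y i ∈ Ioc M (4 * M)
          rw [mem_Ioc]
          have h5 : (M : ℝ) < y i := by linarith [(hyi i).1]
          have h6 : (y i : ℝ) ≤ 4 * M := by linarith [(hyi i).2]
          exact ⟨by exact_mod_cast h5, by exact_mod_cast h6⟩
      · have hsum : ∑ i : Fin (n + 1), l i * (((Fin.cons x y : Fin (n + 1) → ℕ) i : ℕ) : ℝ) ^ (p + 1) =
            l 0 * (x : ℝ) ^ (p + 1) + ∑ i : Fin n, l i.succ * (y i : ℝ) ^ (p + 1) := by
          rw [Fin.sum_univ_succ]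
          rfl
        have hB3 : l 0 * B y = l 0 * y₀ ^ (p + 1) +
            ∑ i : Fin n, l i.succ * (y₀ ^ (p + 1) - (y i : ℝ) ^ (p + 1)) := by
          rw [hB]
          field_simp
        have hB4 : ∑ i : Fin n, l i.succ * (y₀ ^ (p + 1) - (y i : ℝ) ^ (p + 1)) =
            (∑ i : Fin n, l i.succ) * y₀ ^ (p + 1) - ∑ i : Fin n, l i.succ * (y i : ℝ) ^ (p + 1) := by
          rw [sum_mul, ← sum_sub_distrib]
          exact sum_congr rfl fun i _ => by ring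
        have hΛ : (∑ i, l i) * y₀ ^ (p + 1) =
            l 0 * y₀ ^ (p + 1) + (∑ i : Fin n, l i.succ) * y₀ ^ (p + 1) := by
          rw [Fin.sum_univ_succ, add_mul]
        have h5 : t₀ y ^ (p + 1) ≤ (x : ℝ) ^ (p + 1) := pow_le_pow_left₀ h2 hx2.1.le _
        have h6 := pow_up p h2 hx2.1.le
        have h7 : (x : ℝ) ≤ 4 * M := by linarith [hx2.2]
        have h8 : (x : ℝ) ^ p ≤ (4 * M) ^ p := pow_le_pow_left₀ (Nat.cast_nonneg _) h7 _
        have h9 : (x : ℝ) ^ (p + 1) - t₀ y ^ (p + 1) ≤ (p + 1) * (4 * M) ^ p * w := by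
          refine h6.trans ?_
          have h10 : (x : ℝ) - t₀ y ≤ w := by linarith [hx2.2]
          exact mul_le_mul (mul_le_mul_of_nonneg_left h8 (by positivity)) h10
            (by linarith [hx2.1]) (by positivity)
        rw [h1] at h5 h9
        have h11 : l 0 * ((x : ℝ) ^ (p + 1) - B y) ≤ 2 * ((p + 1) * (4 * M) ^ p * w) :=
          mul_le_mul (hl 0).2 h9 (by linarith) (by norm_num)
        have h12 : 0 ≤ l 0 * ((x : ℝ) ^ (p + 1) - B y) := mul_nonneg hl0.le (by linarith)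
        change (∑ i, l i) * y₀ ^ (p + 1) ≤
            ∑ i, l i * (((Fin.cons x y : Fin (n + 1) → ℕ) i : ℕ) : ℝ) ^ (p + 1) ∧
          ∑ i, l i * (((Fin.cons x y : Fin (n + 1) → ℕ) i : ℕ) : ℝ) ^ (p + 1) ≤
            (∑ i, l i) * y₀ ^ (p + 1) + 2 * (p + 1) * (4 * M) ^ p * w
        rw [hsum, hΛ]
        rw [mul_sub] at h11 h12
        constructor <;> linarith
    · rintro ⟨y, x⟩ - ⟨y', x'⟩ - h
      simp only at h
      obtain ⟨h1, h2⟩ := Fin.cons_injective2 h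
      subst h1
      subst h2
      rfl
  exact_mod_cast hcard

/-- **A shift with a large smooth count.** -/
theorem exists_shift (k M s : ℕ) {τ H : ℝ} (hτ : 0 < τ) (hH : τ ≤ H) (l : Fin s → ℝ) (N : ℝ) :
    ∃ h : ℝ, 0 ≤ h ∧ h ≤ H ∧
      (((Fintype.piFinset fun _ : Fin s => Ioc M (4 * M)).filter fun x =>
        N ≤ ∑ i, l i * (x i : ℝ) ^ k ∧ ∑ i, l i * (x i : ℝ) ^ k ≤ N + H).card : ℝ) *
        Real.exp (-Real.pi) * τ / (2 * H) ≤ R k M s τ l (N + h) := by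
  classical
  have hH0 : 0 < H := hτ.trans_le hH
  set X := (Fintype.piFinset fun _ : Fin s => Ioc M (4 * M)).filter fun x =>
        N ≤ ∑ i, l i * (x i : ℝ) ^ k ∧ ∑ i, l i * (x i : ℝ) ^ k ≤ N + H with hX
  set n₀ : ℕ := ⌊H / τ⌋₊ with hn₀
  have hn₀le : (n₀ : ℝ) ≤ H / τ := Nat.floor_le (by positivity)
  have hkey : (X.card : ℝ) * Real.exp (-Real.pi) ≤
      ∑ j ∈ range (n₀ + 1), R k M s τ l (N + j * τ) := by
    unfold R
    rw [sum_comm]
    calc (X.card : ℝ) * Real.exp (-Real.pi) = ∑ _x ∈ X, Real.exp (-Real.pi) := by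
          rw [sum_const, nsmul_eq_mul]
      _ ≤ ∑ x ∈ X, ∑ j ∈ range (n₀ + 1),
          Real.exp (-Real.pi * ((∑ i, l i * (x i : ℝ) ^ k - (N + j * τ)) / τ) ^ 2) := by
          refine sum_le_sum fun x hx => ?_
          rw [hX, mem_filter] at hx
          obtain ⟨-, h1, h2⟩ := hx
          set z : ℝ := (∑ i, l i * (x i : ℝ) ^ k - N) / τ with hz
          have hz0 : 0 ≤ z := div_nonneg (by linarith) hτ.le
          have hz1 : z ≤ H / τ := div_le_div_of_nonneg_right (by linarith) hτ.le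
          have hj : ⌊z⌋₊ ∈ range (n₀ + 1) := by
            rw [mem_range, Nat.lt_succ_iff]
            exact Nat.floor_le_floor hz1
          refine le_trans ?_ (single_le_sum (fun j _ => (Real.exp_pos _).le) hj)
          rw [Real.exp_le_exp]
          have h3 : (∑ i, l i * (x i : ℝ) ^ k - (N + (⌊z⌋₊ : ℝ) * τ)) / τ = z - ⌊z⌋₊ := by
            rw [hz]
            field_simp
            ring
          rw [h3]
          have h4 : (⌊z⌋₊ : ℝ) ≤ z := Nat.floor_le hz0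
          have h5 : z < ⌊z⌋₊ + 1 := Nat.lt_floor_add_one z
          have h6 : (z - ⌊z⌋₊) ^ 2 ≤ 1 := by nlinarith
          nlinarith [Real.pi_pos]
      _ ≤ _ := by
          refine sum_le_sum_of_subset_of_nonneg (filter_subset _ _) fun x _ _ => ?_
          exact sum_nonneg fun j _ => (Real.exp_pos _).le
  have hsum : ∑ _j ∈ range (n₀ + 1), (X.card : ℝ) * Real.exp (-Real.pi) * τ / (2 * H) ≤
      ∑ j ∈ range (n₀ + 1), R k M s τ l (N + j * τ) := by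
    refine le_trans ?_ hkey
    rw [sum_const, card_range, nsmul_eq_mul]
    push_cast
    have h1 : ((n₀ : ℝ) + 1) ≤ 2 * H / τ := by
      have h2 : 1 ≤ H / τ := (one_le_div hτ).2 hH
      have h3 : 2 * H / τ = H / τ + H / τ := by ring
      linarith
    calc ((n₀ : ℝ) + 1) * ((X.card : ℝ) * Real.exp (-Real.pi) * τ / (2 * H))
        ≤ (2 * H / τ) * ((X.card : ℝ) * Real.exp (-Real.pi) * τ / (2 * H)) :=
          mul_le_mul_of_nonneg_right h1 (by positivity)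
      _ = _ := by field_simp
  obtain ⟨j, hj, hj2⟩ := exists_le_of_sum_le (nonempty_range_iff.2 (by omega)) hsum
  rw [mem_range, Nat.lt_succ_iff] at hj
  refine ⟨j * τ, by positivity, ?_, hj2⟩
  have h1 : (j : ℝ) ≤ H / τ := le_trans (by exact_mod_cast hj) hn₀le
  rwa [le_div_iff₀ hτ] at h1

end Pool.Agent.R532.Wa
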