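import Pool.Agent.R532.Wa4
import Pool.Agent.R532.Wa5
import Pool.Agent.R532.Wa6

/-!
# Sums of powers with generic real coefficients: the theorem
-/

set_option autoImplicit false

namespace Pool.Agent.R532.Wa

open MeasureTheory Finset Filter Topology

lemma card_near (p n M : ℕ) (hM : 8 * (n + 1) ≤ M)
    (hw : 4 * ((p : ℝ) + 1) * 4 ^ p ≤ √(M : ℝ))
    (l : Fin (n + 1) → ℝ) (hl : ∀ i, 1 ≤ l i ∧ l i ≤ 2) (N : ℝ)
    (hN1 : (∑ i, l i) * (3 / 2 * (M : ℝ)) ^ (p + 1) ≤ N)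
    (hN2 : N ≤ (∑ i, l i) * (3 * (M : ℝ)) ^ (p + 1)) :
    (M : ℝ) ^ n * √(M : ℝ) / ((8 * ((n : ℝ) + 1)) ^ n * (4 * ((p : ℝ) + 1) * 4 ^ p)) ≤
      (((Fintype.piFinset fun _ : Fin (n + 1) => Ioc M (4 * M)).filter fun x =>
        N ≤ ∑ i, l i * (x i : ℝ) ^ (p + 1) ∧
        ∑ i, l i * (x i : ℝ) ^ (p + 1) ≤ N + (M : ℝ) ^ p * √(M : ℝ)).card : ℝ) := by
  have hM1 : (1 : ℝ) ≤ M := by
    have : 1 ≤ M := by omega
    exact_mod_cast this
  have hL : 0 < ∑ i, l i := by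
    refine sum_pos (fun i _ => by linarith [(hl i).1]) ⟨0, mem_univ _⟩
  set Λ := ∑ i, l i with hΛ
  have hq : 0 ≤ N / Λ := by
    refine div_nonneg (le_trans (by positivity) hN1) hL.le
  set y₀ : ℝ := (N / Λ) ^ (((p + 1 : ℕ) : ℝ)⁻¹) with hy
  have hy0 : 0 ≤ y₀ := by positivity
  have hyk : y₀ ^ (p + 1) = N / Λ := Real.rpow_inv_natCast_pow hq (by omega)
  have hyN : Λ * y₀ ^ (p + 1) = N := by
    rw [hyk]
    field_simp
  have hy1 : 3 / 2 * (M : ℝ) ≤ y₀ := by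
    refine (pow_le_pow_iff_left₀ (by positivity) hy0 (by omega : p + 1 ≠ 0)).1 ?_
    rw [hyk, le_div_iff₀ hL]
    linarith
  have hy2 : y₀ ≤ 3 * M := by
    refine (pow_le_pow_iff_left₀ hy0 (by positivity) (by omega : p + 1 ≠ 0)).1 ?_
    rw [hyk, div_le_iff₀ hL]
    linarith
  have hp1 : (1 : ℝ) ≤ ((p : ℝ) + 1) * 4 ^ p := by
    have h1 : (1 : ℝ) ≤ (p : ℝ) + 1 := by
      have : (0 : ℝ) ≤ p := Nat.cast_nonneg p
      linarith
    have h2 : (1 : ℝ) ≤ 4 ^ p := one_le_pow₀ (by norm_num)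
    nlinarith
  have hsq : √(M : ℝ) * √(M : ℝ) = M := Real.mul_self_sqrt (by linarith)
  have hs1 : 1 ≤ √(M : ℝ) := by
    rw [show (1 : ℝ) = √1 by simp]
    exact Real.sqrt_le_sqrt hM1
  have h := count p n M hM (√(M : ℝ) / (2 * (((p : ℝ) + 1) * 4 ^ p)))
    (by
      rw [le_div_iff₀ (by positivity)]
      linarith)
    (by
      rw [div_le_div_iff₀ (by positivity) (by norm_num)]
      nlinarith)
    l hl y₀ hy1 hy2
  rw [hyN] at h
  have e1 : 2 * ((p : ℝ) + 1) * (4 * (M : ℝ)) ^ p * (√(M : ℝ) / (2 * (((p : ℝ) + 1) * 4 ^ p))) =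
      (M : ℝ) ^ p * √(M : ℝ) := by
    rw [mul_pow]
    field_simp
  rw [e1] at h
  refine le_trans (le_of_eq ?_) h
  rw [div_pow]
  field_simp
  ring

lemma exp_small (s : ℕ) {δ : ℝ} (hδ : 0 < δ) :
    ∀ᶠ m : ℝ in atTop, (3 * m) ^ s * Real.exp (-Real.pi * (m ^ δ) ^ 2) < 1 := by
  have h1 := (tendsto_rpow_mul_exp_neg_mul_atTop_nhds_zero ((s : ℝ) / (2 * δ)) Real.pi
    Real.pi_pos).comp (tendsto_rpow_atTop (show (0 : ℝ) < 2 * δ by positivity))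
  have h2 := h1.const_mul ((3 : ℝ) ^ s)
  rw [mul_zero] at h2
  filter_upwards [h2.eventually (gt_mem_nhds (zero_lt_one' ℝ)), eventually_gt_atTop 0] with m hm hm0
  have h3 : (m ^ δ) ^ 2 = m ^ (2 * δ) := by
    rw [← Real.rpow_natCast, ← Real.rpow_mul hm0.le]
    congr 1
    push_cast
    ring
  have h4 : (m ^ (2 * δ)) ^ ((s : ℝ) / (2 * δ)) = m ^ s := by
    rw [← Real.rpow_mul hm0.le, ← Real.rpow_natCast]
    congr 1
    field_simp
  simp only [Function.comp_apply] at hm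
  rw [h4] at hm
  rw [h3, mul_pow, mul_assoc]
  exact hm

lemma card_near' (k s M : ℕ) (hk : 1 ≤ k) (hs : 1 ≤ s) (hM : 8 * (s : ℝ) ≤ M)
    (hw : 4 * (k : ℝ) * 4 ^ (k - 1) ≤ √(M : ℝ))
    (l : Fin s → ℝ) (hl : ∀ i, 1 ≤ l i ∧ l i ≤ 2) (N : ℝ)
    (hN1 : (∑ i, l i) * (3 / 2 * (M : ℝ)) ^ k ≤ N)
    (hN2 : N ≤ (∑ i, l i) * (3 * (M : ℝ)) ^ k) :
    (M : ℝ) ^ (s - 1) * √(M : ℝ) / ((8 * (s : ℝ)) ^ (s - 1) * (4 * (k : ℝ) * 4 ^ (k - 1))) ≤
      (((Fintype.piFinset fun _ : Fin s => Ioc M (4 * M)).filter fun x =>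
        N ≤ ∑ i, l i * (x i : ℝ) ^ k ∧
        ∑ i, l i * (x i : ℝ) ^ k ≤ N + (M : ℝ) ^ (k - 1) * √(M : ℝ)).card : ℝ) := by
  obtain ⟨p, rfl⟩ : ∃ p, k = p + 1 := ⟨k - 1, by omega⟩
  obtain ⟨n, rfl⟩ : ∃ n, s = n + 1 := ⟨s - 1, by omega⟩
  simp only [Nat.add_sub_cancel]
  push_cast at hM hw ⊢
  have hM' : 8 * (n + 1) ≤ M := by exact_mod_cast hM
  exact card_near p n M hM' hw l hl N hN1 hN2

lemma near (k s : ℕ) (hk : 1 ≤ k) (hs : 3 ≤ s) {δ : ℝ} (hδ : 0 < δ) (hδ1 : δ ≤ 1 / 32) :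
    ∀ᶠ j : ℕ in atTop, ∀ l : Fin s → ℝ, (∀ i, 1 ≤ l i ∧ l i ≤ 2) →
      ∫ θ, F k (2 ^ j) s (tau k s δ (2 ^ j)) (HH k (2 ^ j)) l θ <
        ((2 : ℝ) ^ j) ^ ((s : ℝ) - k - δ / 2) →
      ∀ N : ℝ, (∑ i, l i) * (3 / 2 * (2 : ℝ) ^ j) ^ k ≤ N →
        N ≤ (∑ i, l i) * (3 * (2 : ℝ) ^ j) ^ k →
        ∃ x : Fin s → ℕ, (∀ i, 0 < x i) ∧ |∑ i, l i * (x i : ℝ) ^ k - N| ≤
          ((2 : ℝ) ^ j) ^ ((k : ℝ) - (s : ℝ) / 2 + 2 * δ) := by
  have hk1 : (1 : ℝ) ≤ k := by exact_mod_cast hk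
  have hs3 : (3 : ℝ) ≤ s := by exact_mod_cast hs
  set c₁ : ℝ := 1 / ((8 * (s : ℝ)) ^ (s - 1) * (4 * (k : ℝ) * 4 ^ (k - 1))) with hc₁
  have hc₁0 : 0 < c₁ := by positivity
  set c₂ : ℝ := c₁ * Real.exp (-Real.pi) / 2 with hc₂
  have hc₂0 : 0 < c₂ := by positivity
  have htend : Tendsto (fun j : ℕ => (2 : ℝ) ^ j) atTop atTop :=
    tendsto_pow_atTop_atTop_of_one_lt (by norm_num)
  have ev : ∀ᶠ m : ℝ in atTop, 8 * (s : ℝ) ≤ m ∧ 4 * (k : ℝ) * 4 ^ (k - 1) ≤ √m ∧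
      2 / c₂ ≤ m ^ (δ / 2) ∧ (3 * m) ^ s * Real.exp (-Real.pi * (m ^ δ) ^ 2) < 1 := by
    filter_upwards [eventually_ge_atTop (8 * (s : ℝ)),
      eventually_ge_atTop ((4 * (k : ℝ) * 4 ^ (k - 1)) ^ 2),
      (tendsto_rpow_atTop (show (0 : ℝ) < δ / 2 by positivity)).eventually
        (eventually_ge_atTop (2 / c₂)), exp_small s hδ] with m h1 h2 h3 h4
    exact ⟨h1, Real.le_sqrt_of_sq_le h2, h3, h4⟩
  filter_upwards [htend.eventually ev] with j hj l hl hF N hN1 hN2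
  obtain ⟨g1, g2, g3, g4⟩ := hj
  set M : ℕ := 2 ^ j with hM
  have hMm : (M : ℝ) = 2 ^ j := by rw [hM]; push_cast; rfl
  rw [← hMm] at g1 g2 g3 g4 hF hN1 hN2 ⊢
  set m : ℝ := (M : ℝ) with hm
  have hm1 : (1 : ℝ) ≤ m := by linarith
  have hm0 : 0 < m := by linarith
  set τ : ℝ := tau k s δ m with hτd
  set H : ℝ := HH k m with hHd
  have hτ : 0 < τ := by
    rw [hτd]
    unfold tau
    positivity
  have hH : 0 < H := by
    rw [hHd]
    unfold HH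
    positivity
  have hτH : τ ≤ H := by
    rw [hτd, hHd]
    unfold tau HH
    exact Real.rpow_le_rpow_of_exponent_le hm1 (by linarith)
  have hks : m ^ (k - 1) = m ^ ((k : ℝ) - 1) := by
    rw [← Real.rpow_natCast, Nat.cast_sub hk, Nat.cast_one]
  have hss : m ^ (s - 1) = m ^ ((s : ℝ) - 1) := by
    rw [← Real.rpow_natCast, Nat.cast_sub (by omega), Nat.cast_one]
  have hHeq : m ^ (k - 1) * √m = H := by
    rw [hHd]
    unfold HH
    rw [Real.sqrt_eq_rpow, hks, ← Real.rpow_add hm0]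
    congr 1
    ring
  have hcard := card_near' k s M hk (by omega) g1 g2 l hl N hN1 hN2
  rw [← hm, hHeq] at hcard
  obtain ⟨h, hh0, hhH, hR⟩ := exists_shift k M s hτ hτH l N
  have hcard2 : c₁ * (m ^ (s - 1) * √m) ≤
      (((Fintype.piFinset fun _ : Fin s => Ioc M (4 * M)).filter fun x =>
        N ≤ ∑ i, l i * (x i : ℝ) ^ k ∧ ∑ i, l i * (x i : ℝ) ^ k ≤ N + H).card : ℝ) := by
    refine le_trans (le_of_eq ?_) hcard
    rw [hc₁]
    field_simp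
  have hR1 : c₂ * m ^ ((s : ℝ) / 2 + δ) ≤ R k M s τ l (N + h) := by
    refine le_trans ?_ hR
    have e1 : c₂ * m ^ ((s : ℝ) / 2 + δ) =
        c₁ * (m ^ (s - 1) * √m) * Real.exp (-Real.pi) * τ / (2 * H) := by
      rw [eq_div_iff (by positivity), hc₂, hτd, hHd]
      unfold tau HH
      have e2 : m ^ ((s : ℝ) / 2 + δ) * m ^ ((k : ℝ) - 1 / 2) =
          (m ^ (s - 1) * √m) * m ^ ((k : ℝ) - (s : ℝ) / 2 + δ) := by
        rw [Real.sqrt_eq_rpow, hss, ← Real.rpow_add hm0, ← Real.rpow_add hm0,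
          ← Real.rpow_add hm0]
        congr 1
        ring
      linear_combination (c₁ * Real.exp (-Real.pi)) * e2
    rw [e1]
    gcongr
  have hR2 := R_diff k M s hτ l N h hh0 hhH
  have hR3 : τ * ∫ θ, F k M s τ H l θ ≤ m ^ ((s : ℝ) / 2 + δ / 2) := by
    have e1 : m ^ ((s : ℝ) / 2 + δ / 2) = τ * m ^ ((s : ℝ) - (k : ℝ) - δ / 2) := by
      rw [hτd]
      unfold tau
      rw [← Real.rpow_add hm0]
      congr 1
      ring
    rw [e1]
    exact mul_le_mul_of_nonneg_left hF.le hτ.le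
  have hRN : 1 ≤ R k M s τ l N := by
    have e1 := abs_le.1 hR2
    have e2 : m ^ ((s : ℝ) / 2 + δ) = m ^ ((s : ℝ) / 2 + δ / 2) * m ^ (δ / 2) := by
      rw [← Real.rpow_add hm0]
      congr 1
      ring
    have e3 : 2 ≤ c₂ * m ^ (δ / 2) := by
      rw [div_le_iff₀ hc₂0] at g3
      linarith
    have e4 : 1 ≤ m ^ ((s : ℝ) / 2 + δ / 2) := Real.one_le_rpow hm1 (by positivity)
    have e5 : c₂ * m ^ ((s : ℝ) / 2 + δ) = m ^ ((s : ℝ) / 2 + δ / 2) * (c₂ * m ^ (δ / 2)) := by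
      rw [e2]
      ring
    rw [e5] at hR1
    nlinarith [e1.1, e1.2]
  by_contra hcon
  push Not at hcon
  have hle : R k M s τ l N ≤ (3 * m) ^ s * Real.exp (-Real.pi * (m ^ δ) ^ 2) := by
    unfold R
    have e1 : ∀ x ∈ Fintype.piFinset (fun _ : Fin s => Ioc M (4 * M)),
        Real.exp (-Real.pi * ((∑ i, l i * (x i : ℝ) ^ k - N) / τ) ^ 2) ≤
          Real.exp (-Real.pi * (m ^ δ) ^ 2) := by
      intro x hx
      rw [Fintype.mem_piFinset] at hx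
      have hx0 : ∀ i, 0 < x i := fun i => (Nat.zero_le M).trans_lt (mem_Ioc.1 (hx i)).1
      have e2 := hcon x hx0
      have e3 : m ^ ((k : ℝ) - (s : ℝ) / 2 + 2 * δ) = m ^ δ * τ := by
        rw [hτd]
        unfold tau
        rw [← Real.rpow_add hm0]
        congr 1
        ring
      rw [e3] at e2
      have e4 : m ^ δ ≤ |(∑ i, l i * (x i : ℝ) ^ k - N) / τ| := by
        rw [abs_div, abs_of_pos hτ, le_div_iff₀ hτ]
        exact e2.le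
      have e5 : (m ^ δ) ^ 2 ≤ ((∑ i, l i * (x i : ℝ) ^ k - N) / τ) ^ 2 := by
        rw [← sq_abs ((∑ i, l i * (x i : ℝ) ^ k - N) / τ)]
        exact pow_le_pow_left₀ (by positivity) e4 2
      refine Real.exp_le_exp.2 ?_
      have := Real.pi_pos
      nlinarith
    refine (sum_le_sum e1).trans (le_of_eq ?_)
    rw [sum_const, Fintype.card_piFinset, prod_const, Nat.card_Ioc, card_univ, Fintype.card_fin,
      nsmul_eq_mul]
    congr 1
    have e6 : 4 * M - M = 3 * M := by omega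
    rw [e6]
    push_cast
    rfl
  linarith

lemma ae_Icc (s : ℕ) : ∀ᵐ l ∂(μs s), ∀ i, 1 ≤ l i ∧ l i ≤ 2 := by
  have h1 : μs s = volume.restrict (Set.univ.pi fun _ : Fin s => Set.Icc (1 : ℝ) 2) := by
    unfold μs ν
    rw [volume_pi, Measure.restrict_pi_pi]
  rw [h1]
  have h2 : MeasurableSet (Set.univ.pi fun _ : Fin s => Set.Icc (1 : ℝ) 2) :=
    MeasurableSet.univ_pi fun _ => measurableSet_Icc
  filter_upwards [ae_restrict_mem h2] with l hl i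
  exact Set.mem_Icc.1 (hl i (Set.mem_univ i))

lemma volume_cube (s : ℕ) :
    (volume : Measure (Fin s → ℝ)).restrict (Set.univ.pi fun _ => Set.Icc (1 : ℝ) 2) = μs s := by
  unfold μs ν
  rw [volume_pi, Measure.restrict_pi_pi]

/-- the theorem, for one `ε` -/
theorem generic_one (k s : ℕ) (hk : 1 ≤ k) (hs : 3 ≤ s) {ε : ℝ} (hε : 0 < ε) :
    ∀ᵐ l ∂(μs s), ∀ᶠ N : ℝ in atTop, ∃ x : Fin s → ℕ, (∀ i, 0 < x i) ∧
      |∑ i, l i * (x i : ℝ) ^ k - N| ≤ N ^ (1 - (s : ℝ) / (2 * k) + ε) := by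
  have hk1 : (1 : ℝ) ≤ k := by exact_mod_cast hk
  have hk0 : (0 : ℝ) < k := by linarith
  have hs3 : (3 : ℝ) ≤ s := by exact_mod_cast hs
  set δ : ℝ := min (1 / 32) (k * ε / 3) with hδd
  have hδ : 0 < δ := lt_min (by norm_num) (by positivity)
  have hδ1 : δ ≤ 1 / 32 := min_le_left _ _
  have hδε : 3 * δ ≤ k * ε := by
    have := min_le_right (1 / 32 : ℝ) (k * ε / 3)
    rw [← hδd] at this
    linarith
  filter_upwards [ae_J k s hk hs hδ hδ1, ae_Icc s] with l hJ hl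
  obtain ⟨j₀, hj₀⟩ := eventually_atTop.1 (hJ.and (near k s hk hs hδ hδ1))
  set Λ := ∑ i, l i with hΛ
  have hΛ1 : (s : ℝ) ≤ Λ := by
    rw [hΛ]
    calc (s : ℝ) = ∑ _i : Fin s, (1 : ℝ) := by simp
      _ ≤ _ := sum_le_sum fun i _ => (hl i).1
  have hΛ2 : Λ ≤ 2 * s := by
    rw [hΛ]
    calc ∑ i, l i ≤ ∑ _i : Fin s, (2 : ℝ) := sum_le_sum fun i _ => (hl i).2
      _ = _ := by simp [mul_comm]
  have hΛ0 : 0 < Λ := by linarith
  set C : ℝ := 2 * s * 3 ^ k with hC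
  have hC1 : 1 ≤ C := by
    have : (1 : ℝ) ≤ 3 ^ k := one_le_pow₀ (by norm_num)
    rw [hC]
    nlinarith
  set b : ℝ := ((k : ℝ) - (s : ℝ) / 2 + 2 * δ) / k with hb
  filter_upwards [eventually_ge_atTop (Λ * (3 / 2) ^ k), eventually_ge_atTop 1,
    eventually_gt_atTop (C * ((2 : ℝ) ^ k) ^ j₀),
    (tendsto_rpow_atTop (show (0 : ℝ) < δ / k by positivity)).eventually
      (eventually_ge_atTop (C ^ |b|))] with N hN1 hN2 hN3 hN4
  have hN0 : 0 < N := by linarith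
  have hX : 1 ≤ N / (Λ * (3 / 2) ^ k) := by
    rw [le_div_iff₀ (by positivity)]
    linarith
  have hk2 : (1 : ℝ) < 2 ^ k := one_lt_pow₀ (by norm_num) (by omega)
  obtain ⟨j, hj1, hj2⟩ := exists_nat_pow_near hX hk2
  have hpk : ((2 : ℝ) ^ k) ^ j = ((2 : ℝ) ^ j) ^ k := by rw [← pow_mul, ← pow_mul, mul_comm]
  have hlo : Λ * (3 / 2 * (2 : ℝ) ^ j) ^ k ≤ N := by
    rw [le_div_iff₀ (by positivity), hpk] at hj1
    calc Λ * (3 / 2 * (2 : ℝ) ^ j) ^ k = ((2 : ℝ) ^ j) ^ k * (Λ * (3 / 2) ^ k) := by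
          rw [mul_pow]
          ring
      _ ≤ N := hj1
  have hhi : N ≤ Λ * (3 * (2 : ℝ) ^ j) ^ k := by
    rw [div_lt_iff₀ (by positivity), pow_succ, hpk] at hj2
    refine hj2.le.trans (le_of_eq ?_)
    have : (3 : ℝ) ^ k = 2 ^ k * (3 / 2) ^ k := by
      rw [← mul_pow]
      norm_num
    rw [mul_pow, this]
    ring
  have hhi2 : N ≤ C * ((2 : ℝ) ^ j) ^ k := by
    refine hhi.trans ?_
    rw [hC, mul_pow]
    have : 0 < 3 ^ k * ((2 : ℝ) ^ j) ^ k := by positivity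
    nlinarith
  have hjj : j₀ ≤ j := by
    by_contra hlt
    push Not at hlt
    have h1 : ((2 : ℝ) ^ k) ^ j ≤ ((2 : ℝ) ^ k) ^ j₀ :=
      pow_le_pow_right₀ (one_le_pow₀ (by norm_num)) hlt.le
    rw [← hpk] at hhi2
    have h2 : C * ((2 : ℝ) ^ k) ^ j ≤ C * ((2 : ℝ) ^ k) ^ j₀ :=
      mul_le_mul_of_nonneg_left h1 (by linarith)
    linarith
  obtain ⟨hF, hnear⟩ := hj₀ j hjj
  obtain ⟨x, hx, hxN⟩ := hnear l hl hF N hlo hhi
  refine ⟨x, hx, hxN.trans ?_⟩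
  set m : ℝ := (2 : ℝ) ^ j with hm
  have hm0 : 0 < m := by positivity
  set Y : ℝ := m ^ k with hY
  have hY0 : 0 < Y := by positivity
  have hYN : Y ≤ N := by
    refine le_trans ?_ hlo
    rw [mul_pow]
    have h1 : (1 : ℝ) ≤ (3 / 2) ^ k := one_le_pow₀ (by norm_num)
    have h2 : (1 : ℝ) ≤ Λ := by linarith
    have h3 : 1 ≤ Λ * (3 / 2) ^ k := by nlinarith
    calc Y = 1 * Y := by ring
      _ ≤ (Λ * (3 / 2) ^ k) * Y := mul_le_mul_of_nonneg_right h3 hY0.le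
      _ = _ := by ring
  have hmb : m ^ ((k : ℝ) - (s : ℝ) / 2 + 2 * δ) = Y ^ b := by
    rw [hY, ← Real.rpow_natCast, ← Real.rpow_mul hm0.le]
    congr 1
    rw [hb]
    field_simp
  have hYb : Y ^ b ≤ C ^ |b| * N ^ b := by
    rcases le_total 0 b with hb0 | hb0
    · have h1 : Y ^ b ≤ N ^ b := Real.rpow_le_rpow hY0.le hYN hb0
      have h2 : 1 ≤ C ^ |b| := Real.one_le_rpow hC1 (abs_nonneg b)
      have h3 : 0 < N ^ b := by positivity
      nlinarith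
    · have h1 : N / Y ≤ C := by
        rw [div_le_iff₀ hY0]
        exact hhi2
      have h2 : (N / Y) ^ |b| ≤ C ^ |b| := Real.rpow_le_rpow (by positivity) h1 (abs_nonneg b)
      have h3 : Y ^ b = (N / Y) ^ |b| * N ^ b := by
        rw [abs_of_nonpos hb0, Real.div_rpow hN0.le hY0.le, Real.rpow_neg hN0.le,
          Real.rpow_neg hY0.le]
        have := (Real.rpow_pos_of_pos hN0 b).ne'
        have := (Real.rpow_pos_of_pos hY0 b).ne'
        field_simp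
      rw [h3]
      exact mul_le_mul_of_nonneg_right h2 (by positivity)
  rw [hmb]
  calc Y ^ b ≤ C ^ |b| * N ^ b := hYb
    _ ≤ N ^ (δ / k) * N ^ b := mul_le_mul_of_nonneg_right hN4 (by positivity)
    _ = N ^ (δ / k + b) := by rw [← Real.rpow_add hN0]
    _ ≤ _ := by
        refine Real.rpow_le_rpow_of_exponent_le hN2 ?_
        rw [hb]
        have h1 : δ / k + ((k : ℝ) - (s : ℝ) / 2 + 2 * δ) / k = 1 - (s : ℝ) / (2 * k) + 3 * δ / k := by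
          field_simp
          ring
        rw [h1]
        have h2 : 3 * δ / k ≤ ε := by
          rw [div_le_iff₀ hk0]
          linarith
        linarith

/-- **Sums of `s` powers with generic real coefficients come close to every large number.** -/
theorem generic (k s : ℕ) (hk : 1 ≤ k) (hs : 3 ≤ s) :
    ∀ᵐ l ∂((volume : Measure (Fin s → ℝ)).restrict (Set.univ.pi fun _ => Set.Icc (1 : ℝ) 2)),
      ∀ ε : ℝ, 0 < ε → ∀ᶠ N : ℝ in atTop, ∃ x : Fin s → ℕ, (∀ i, 0 < x i) ∧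
        |∑ i, l i * (x i : ℝ) ^ k - N| ≤ N ^ (1 - (s : ℝ) / (2 * k) + ε) := by
  rw [volume_cube]
  have h := ae_all_iff.2 fun n : ℕ => generic_one k s hk hs (Nat.one_div_pos_of_nat (n := n) (α := ℝ))
  filter_upwards [h] with l hl ε hε
  obtain ⟨n, hn⟩ := exists_nat_one_div_lt hε
  filter_upwards [hl n, eventually_ge_atTop 1] with N hN hN1
  obtain ⟨x, hx, hxN⟩ := hN
  exact ⟨x, hx, hxN.trans (Real.rpow_le_rpow_of_exponent_le hN1 (by linarith))⟩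

end Pool.Agent.R532.Wa
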