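import Pool.Agent.R532.Wa7

/-!
# Sums of powers with generic real coefficients: all positive coefficients, and the lower bound
-/

set_option autoImplicit false

namespace Pool.Agent.R532.Wa

open MeasureTheory Finset Filter Topology

/-- every large real number is near a value of `∑ l i * x i ^ k` at positive integers -/
def Good (k s : ℕ) (l : Fin s → ℝ) : Prop :=
  ∀ ε : ℝ, 0 < ε → ∀ᶠ N : ℝ in atTop, ∃ x : Fin s → ℕ, (∀ i, 0 < x i) ∧
    |∑ i, l i * (x i : ℝ) ^ k - N| ≤ N ^ (1 - (s : ℝ) / (2 * k) + ε)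

lemma ae_diag (s : ℕ) (a : Fin s → ℝ) (ha : ∀ i, a i ≠ 0) {P : (Fin s → ℝ) → Prop}
    (h : ∀ᵐ l : Fin s → ℝ, P l) : ∀ᵐ l : Fin s → ℝ, P (fun i => a i * l i) := by
  have hdet : LinearMap.det (Matrix.toLin' (Matrix.diagonal a)) ≠ 0 := by
    rw [LinearMap.det_toLin', Matrix.det_diagonal]
    exact prod_ne_zero_iff.2 fun i _ => ha i
  rw [ae_iff] at h ⊢
  have h1 := Measure.addHaar_preimage_linearMap (volume : Measure (Fin s → ℝ)) hdet {l | ¬ P l}
  rw [h, mul_zero] at h1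
  have h2 : {l : Fin s → ℝ | ¬ P (fun i => a i * l i)} =
      (Matrix.toLin' (Matrix.diagonal a)) ⁻¹' {l | ¬ P l} := by
    ext l
    have h3 : (Matrix.toLin' (Matrix.diagonal a)) l = fun i => a i * l i := by
      ext i
      simp [Matrix.toLin'_apply, Matrix.mulVec_diagonal]
    simp only [Set.mem_setOf_eq, Set.mem_preimage, h3]
  rw [h2]
  exact h1

lemma good_scale (k s : ℕ) (l : Fin s → ℝ) (c : ℝ) (hc : 0 < c) (q : Fin s → ℕ)
    (hq : ∀ i, 0 < q i) (h : Good k s fun i => (q i : ℝ) ^ k / c * l i) : Good k s l := by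
  intro ε hε
  have h1 := h (ε / 2) (by linarith)
  have ht : Tendsto (fun N : ℝ => N / c) atTop atTop := tendsto_id.atTop_div_const hc
  set E : ℝ := 1 - (s : ℝ) / (2 * k) with hE
  filter_upwards [ht.eventually h1, eventually_gt_atTop 0,
    (tendsto_rpow_atTop (show (0 : ℝ) < ε / 2 by positivity)).eventually
      (eventually_ge_atTop (c ^ (1 - E - ε / 2)))] with N hN hN0 hN2
  obtain ⟨y, hy, hyN⟩ := hN
  refine ⟨fun i => q i * y i, fun i => Nat.mul_pos (hq i) (hy i), ?_⟩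
  have e1 : ∑ i, l i * (((q i * y i : ℕ)) : ℝ) ^ k - N =
      c * (∑ i, (q i : ℝ) ^ k / c * l i * (y i : ℝ) ^ k - N / c) := by
    rw [mul_sub, mul_sum]
    congr 1
    · refine sum_congr rfl fun i _ => ?_
      push_cast
      rw [mul_pow]
      field_simp
    · field_simp
  rw [e1, abs_mul, abs_of_pos hc]
  calc c * |∑ i, (q i : ℝ) ^ k / c * l i * (y i : ℝ) ^ k - N / c|
      ≤ c * (N / c) ^ (E + ε / 2) := mul_le_mul_of_nonneg_left hyN hc.le
    _ = c ^ (1 - E - ε / 2) * N ^ (E + ε / 2) := by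
        rw [Real.div_rpow hN0.le hc.le]
        have e2 : c ^ (1 - E - ε / 2) = c / c ^ (E + ε / 2) := by
          rw [show 1 - E - ε / 2 = 1 - (E + ε / 2) by ring, Real.rpow_sub hc, Real.rpow_one]
        rw [e2]
        ring
    _ ≤ N ^ (ε / 2) * N ^ (E + ε / 2) := mul_le_mul_of_nonneg_right hN2 (by positivity)
    _ = N ^ (E + ε) := by
        rw [← Real.rpow_add hN0]
        congr 1
        ring

lemma exists_scale (k s : ℕ) (hk : 1 ≤ k) (l : Fin s → ℝ) (hl : ∀ i, 0 < l i) :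
    ∃ c : ℕ, 0 < c ∧ ∃ q : Fin s → ℕ, (∀ i, 0 < q i) ∧
      ∀ i, (q i : ℝ) ^ k / c * l i ∈ Set.Icc (1 : ℝ) 2 := by
  have h1 : ∀ᶠ t : ℝ in atTop, (t + 1) ^ k ≤ 2 * t ^ k := by
    have h2 : Tendsto (fun t : ℝ => (1 + t⁻¹) ^ k) atTop (𝓝 ((1 + 0) ^ k)) :=
      (tendsto_const_nhds.add tendsto_inv_atTop_zero).pow k
    rw [add_zero, one_pow] at h2
    filter_upwards [h2.eventually (gt_mem_nhds (by norm_num : (1 : ℝ) < 2)),
      eventually_gt_atTop 0] with t ht ht0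
    have h3 : (t + 1) ^ k = (1 + t⁻¹) ^ k * t ^ k := by
      rw [← mul_pow]
      congr 1
      field_simp
    rw [h3]
    exact mul_le_mul_of_nonneg_right ht.le (by positivity)
  have hk0 : (0 : ℝ) < (k : ℝ)⁻¹ := by positivity
  have h4 : ∀ i, ∀ᶠ c : ℕ in atTop, (((c : ℝ) / l i) ^ (k : ℝ)⁻¹ + 1) ^ k ≤
      2 * (((c : ℝ) / l i) ^ (k : ℝ)⁻¹) ^ k := by
    intro i
    have h5 : Tendsto (fun c : ℕ => ((c : ℝ) / l i) ^ (k : ℝ)⁻¹) atTop atTop :=
      (tendsto_rpow_atTop hk0).comp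
        (tendsto_natCast_atTop_atTop.atTop_div_const (hl i))
    exact h5.eventually h1
  obtain ⟨c, hc⟩ := ((eventually_all.2 h4).and (eventually_gt_atTop 0)).exists
  obtain ⟨hc1, hc0⟩ := hc
  have hc0' : (0 : ℝ) < c := by exact_mod_cast hc0
  refine ⟨c, hc0, fun i => ⌈((c : ℝ) / l i) ^ (k : ℝ)⁻¹⌉₊, fun i => ?_, fun i => ?_⟩
  · have := hl i
    exact Nat.ceil_pos.2 (by positivity)
  · have hli := hl i
    set t : ℝ := ((c : ℝ) / l i) ^ (k : ℝ)⁻¹ with ht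
    have ht0 : 0 ≤ t := by positivity
    have htk : t ^ k = c / l i := by
      rw [ht]
      exact Real.rpow_inv_natCast_pow (by positivity) (by omega)
    have h6 : t ≤ ⌈t⌉₊ := Nat.le_ceil t
    have h7 : (⌈t⌉₊ : ℝ) < t + 1 := Nat.ceil_lt_add_one ht0
    have h8 : t ^ k ≤ (⌈t⌉₊ : ℝ) ^ k := pow_le_pow_left₀ ht0 h6 k
    have h9 : (⌈t⌉₊ : ℝ) ^ k ≤ (t + 1) ^ k := pow_le_pow_left₀ (by positivity) h7.le k
    have h10 := hc1 i
    rw [← ht] at h10
    rw [htk] at h8 h10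
    constructor
    · rw [div_le_iff₀ hli] at h8
      rw [div_mul_eq_mul_div, le_div_iff₀ hc0']
      linarith
    · have h11 : (⌈t⌉₊ : ℝ) ^ k ≤ 2 * (c / l i) := h9.trans h10
      rw [div_mul_eq_mul_div, div_le_iff₀ hc0']
      calc (⌈t⌉₊ : ℝ) ^ k * l i ≤ 2 * (c / l i) * l i := mul_le_mul_of_nonneg_right h11 hli.le
        _ = 2 * c := by field_simp

/-- **Sums of `s` powers with generic positive real coefficients come close to every large
number.** -/
theorem generic_all (k s : ℕ) (hk : 1 ≤ k) (hs : 3 ≤ s) :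
    ∀ᵐ l : Fin s → ℝ, (∀ i, 0 < l i) → Good k s l := by
  have hm : MeasurableSet (Set.univ.pi fun _ : Fin s => Set.Icc (1 : ℝ) 2) :=
    MeasurableSet.univ_pi fun _ => measurableSet_Icc
  have h1 : ∀ᵐ l : Fin s → ℝ, l ∈ (Set.univ.pi fun _ : Fin s => Set.Icc (1 : ℝ) 2) → Good k s l :=
    (ae_restrict_iff' hm).1 (generic k s hk hs)
  have h2 : ∀ a : ℕ × (Fin s → ℕ), ∀ᵐ l : Fin s → ℝ, 0 < a.1 → (∀ i, 0 < a.2 i) →
      (∀ i, (a.2 i : ℝ) ^ k / a.1 * l i ∈ Set.Icc (1 : ℝ) 2) →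
        Good k s fun i => (a.2 i : ℝ) ^ k / a.1 * l i := by
    intro a
    by_cases ha : 0 < a.1 ∧ ∀ i, 0 < a.2 i
    · have h3 := ae_diag s (fun i => (a.2 i : ℝ) ^ k / a.1) (fun i => by
        have h4 : (0 : ℝ) < a.1 := by exact_mod_cast ha.1
        have h5 : (0 : ℝ) < a.2 i := by exact_mod_cast ha.2 i
        positivity) h1
      filter_upwards [h3] with l hl _ _ h6
      exact hl fun i _ => h6 i
    · refine Eventually.of_forall fun l h4 h5 => absurd ⟨h4, h5⟩ ha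
  filter_upwards [ae_all_iff.2 h2] with l hl hl0
  obtain ⟨c, hc, q, hq, hcq⟩ := exists_scale k s hk l hl0
  exact good_scale k s l c (by exact_mod_cast hc) q hq (hl (c, q) hc hq hcq)

/-- **With at most `k` variables some large numbers stay away from the values.** -/
theorem lower (k s : ℕ) (hk : 1 ≤ k) (hs : s ≤ k) (l : Fin s → ℝ) (hl : ∀ i, 0 < l i) :
    ∃ D : ℝ, 0 < D ∧ ∀ N₀ : ℝ, ∃ N : ℝ, N₀ ≤ N ∧
      ∀ x : Fin s → ℕ, D < |∑ i, l i * (x i : ℝ) ^ k - N| := by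
  classical
  -- an integer `B` with `2 / l i ≤ B`
  obtain ⟨B, hB1, hB⟩ : ∃ B : ℕ, 1 ≤ B ∧ ∀ i, 2 / l i ≤ B := by
    refine ⟨∑ i, ⌈2 / l i⌉₊ + 1, by omega, fun i => ?_⟩
    have h1 : ⌈2 / l i⌉₊ ≤ ∑ i, ⌈2 / l i⌉₊ + 1 :=
      (single_le_sum (f := fun i => ⌈2 / l i⌉₊) (fun _ _ => Nat.zero_le _) (mem_univ i)).trans
        (Nat.le_succ _)
    exact (Nat.le_ceil _).trans (by exact_mod_cast h1)
  set Q : ℕ := (B + 1) ^ k + 1 with hQ
  have hQ0 : (0 : ℝ) < Q := by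
    have : 0 < Q := by omega
    exact_mod_cast this
  refine ⟨1 / (3 * Q), by positivity, fun N₀ => ?_⟩
  by_contra hcon
  push Not at hcon
  -- choose `T`
  obtain ⟨T, hT1, hT⟩ : ∃ T : ℕ, 1 ≤ T ∧ |N₀| + 1 ≤ T := by
    obtain ⟨T, hT⟩ := exists_nat_ge (|N₀| + 1)
    refine ⟨T, ?_, hT⟩
    have h1 : (1 : ℝ) ≤ T := by linarith [abs_nonneg N₀]
    exact_mod_cast h1
  have hTk : (T : ℝ) ≤ (T : ℝ) ^ k := by
    have h1 : (1 : ℝ) ≤ T := by exact_mod_cast hT1
    calc (T : ℝ) = (T : ℝ) ^ 1 := by ring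
      _ ≤ _ := pow_le_pow_right₀ h1 hk
  have hch : ∀ j : ℕ, ∃ x : Fin s → ℕ,
      |∑ i, l i * (x i : ℝ) ^ k - (|N₀| + j / Q)| ≤ 1 / (3 * Q) := fun j =>
    hcon _ (le_trans (le_abs_self N₀) (by
      have : (0 : ℝ) ≤ (j : ℝ) / Q := by positivity
      linarith))
  choose x hx using hch
  have hinj : Set.InjOn x (Finset.range (Q * T ^ k) : Set ℕ) := by
    intro a _ b _ hab
    have h1 := abs_le.1 (hx a)
    have h2 := abs_le.1 (hx b)
    rw [hab] at h1
    have h3 : ((a : ℝ) - b) / Q ≤ 2 * (1 / (3 * Q)) := by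
      rw [sub_div]
      linarith [h1.1, h1.2, h2.1, h2.2]
    have h4 : ((b : ℝ) - a) / Q ≤ 2 * (1 / (3 * Q)) := by
      rw [sub_div]
      linarith [h1.1, h1.2, h2.1, h2.2]
    have h5 : 2 * (1 / (3 * (Q : ℝ))) = (2 / 3) / Q := by
      field_simp
    rw [h5, div_le_div_iff_of_pos_right hQ0] at h3 h4
    by_contra hne
    rcases Nat.lt_or_gt_of_ne hne with hlt | hlt
    · have h6 : (a : ℝ) + 1 ≤ b := by exact_mod_cast hlt
      linarith
    · have h6 : (b : ℝ) + 1 ≤ a := by exact_mod_cast hlt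
      linarith
  have hmem : ∀ j ∈ Finset.range (Q * T ^ k),
      x j ∈ Fintype.piFinset fun _ : Fin s => Finset.range (B * T + 1) := by
    intro j hj
    rw [Fintype.mem_piFinset]
    intro i
    rw [Finset.mem_range, Nat.lt_succ_iff]
    by_contra hlt
    push Not at hlt
    have h1 := (abs_le.1 (hx j)).2
    have h2 : (j : ℝ) / Q ≤ (T : ℝ) ^ k - 1 / Q := by
      have h3 : (j : ℝ) + 1 ≤ Q * (T : ℝ) ^ k := by
        have := Finset.mem_range.1 hj
        exact_mod_cast this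
      rw [div_le_iff₀ hQ0]
      have h4 : ((T : ℝ) ^ k - 1 / Q) * Q = Q * (T : ℝ) ^ k - 1 := by
        field_simp
      rw [h4]
      linarith
    have h3 : l i * (x j i : ℝ) ^ k ≤ ∑ i, l i * (x j i : ℝ) ^ k :=
      single_le_sum (f := fun i => l i * (x j i : ℝ) ^ k)
        (fun i _ => by have := hl i; positivity) (mem_univ i)
    have h4 : 1 / (3 * (Q : ℝ)) ≤ 1 / Q := by
      apply one_div_le_one_div_of_le hQ0
      linarith
    have h5 : l i * (x j i : ℝ) ^ k < 2 * (T : ℝ) ^ k := by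
      linarith
    have h6 : ((B * T : ℕ) : ℝ) < x j i := by exact_mod_cast hlt
    have h7 : ((B * T : ℕ) : ℝ) ^ k ≤ (x j i : ℝ) ^ k := pow_le_pow_left₀ (by positivity) h6.le k
    have h8 : (B : ℝ) * (T : ℝ) ^ k ≤ ((B * T : ℕ) : ℝ) ^ k := by
      push_cast
      rw [mul_pow]
      refine mul_le_mul_of_nonneg_right ?_ (by positivity)
      have h9 : (1 : ℝ) ≤ B := by exact_mod_cast hB1
      calc (B : ℝ) = (B : ℝ) ^ 1 := by ring
        _ ≤ _ := pow_le_pow_right₀ h9 hk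
    have h9 := hB i
    rw [div_le_iff₀ (hl i)] at h9
    have h10 : l i * ((B : ℝ) * (T : ℝ) ^ k) ≤ l i * (x j i : ℝ) ^ k :=
      mul_le_mul_of_nonneg_left (h8.trans h7) (hl i).le
    have h11 : 2 * (T : ℝ) ^ k ≤ l i * ((B : ℝ) * (T : ℝ) ^ k) := by
      calc 2 * (T : ℝ) ^ k ≤ (B * l i) * (T : ℝ) ^ k :=
            mul_le_mul_of_nonneg_right h9 (by positivity)
        _ = _ := by ring
    linarith
  have hcard := card_le_card_of_injOn x hmem hinj
  rw [Fintype.card_piFinset, prod_const, card_range, card_range, card_univ, Fintype.card_fin]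
    at hcard
  have h1 : (B * T + 1) ^ s ≤ (B + 1) ^ k * T ^ k := by
    calc (B * T + 1) ^ s ≤ ((B + 1) * T) ^ s := Nat.pow_le_pow_left (by nlinarith) s
      _ ≤ ((B + 1) * T) ^ k := Nat.pow_le_pow_right (by positivity) hs
      _ = _ := mul_pow _ _ _
  have h2 : Q * T ^ k ≤ (B + 1) ^ k * T ^ k := hcard.trans h1
  have h3 : Q ≤ (B + 1) ^ k := Nat.le_of_mul_le_mul_right h2 (by positivity)
  omega

end Pool.Agent.R532.Wa
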