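import Pool.Agent.R532.Wa8

/-!
# Sums of powers with generic real coefficients: infinite sequences of coefficients
-/

set_option autoImplicit false

namespace Pool.Agent.R532.Wa

open MeasureTheory Finset Filter Topology

/-- the law of a sequence of independent numbers, uniformly distributed in `[1, 2]` -/
noncomputable def seqLaw : Measure (ℕ → ℝ) :=
  Measure.infinitePi fun _ : ℕ => (volume : Measure ℝ).restrict (Set.Icc (1 : ℝ) 2)

/-- the values of `l 0 * x 0 ^ k + ... + l (s - 1) * x (s - 1) ^ k` at positive integers come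
arbitrarily close to all large real numbers -/
def Reach (k : ℕ) (l : ℕ → ℝ) (s : ℕ) : Prop :=
  ∀ δ : ℝ, 0 < δ → ∀ᶠ N : ℝ in atTop, ∃ x : Fin s → ℕ, (∀ i, 0 < x i) ∧
    |∑ i : Fin s, l i * (x i : ℝ) ^ k - N| ≤ δ

/-- the least `s` with `Reach k l s` (`0` if there is none) -/
noncomputable def genG (k : ℕ) (l : ℕ → ℝ) : ℕ := sInf {s | Reach k l s}

lemma map_seqLaw (s : ℕ) : seqLaw.map (fun (l : ℕ → ℝ) (i : Fin s) => l i) = μs s := by
  have hP : seqLaw = Measure.infinitePi fun _ : ℕ => ν := rfl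
  unfold μs
  symm
  refine Measure.pi_eq fun t ht => ?_
  have hm : Measurable (fun (l : ℕ → ℝ) (i : Fin s) => l i) :=
    measurable_pi_lambda _ fun i => measurable_pi_apply _
  rw [Measure.map_apply hm (MeasurableSet.univ_pi ht)]
  have h1 : (fun (l : ℕ → ℝ) (i : Fin s) => l i) ⁻¹' (Set.univ.pi t) =
      Set.pi (Finset.range s : Set ℕ) (fun j => if h : j < s then t ⟨j, h⟩ else Set.univ) := by
    ext l
    simp only [Set.mem_preimage, Set.mem_univ_pi, Set.mem_pi, Finset.coe_range, Set.mem_Iio]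
    constructor
    · intro h j hj
      rw [dif_pos hj]
      exact h ⟨j, hj⟩ (Set.mem_univ _)
    · intro h i _
      have := h i i.2
      rw [dif_pos i.2] at this
      exact this
  rw [h1, hP, Measure.infinitePi_pi (μ := fun _ : ℕ => ν) (s := Finset.range s)
    (t := fun j => if h : j < s then t ⟨j, h⟩ else Set.univ) (by
      intro j hj
      rw [Finset.mem_range] at hj
      rw [dif_pos hj]
      exact ht _)]
  rw [← Fin.prod_univ_eq_prod_range (fun j => ν (if h : j < s then t ⟨j, h⟩ else Set.univ)) s]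
  refine prod_congr rfl fun i _ => by rw [dif_pos i.2]

theorem good_seq : ∀ᵐ l ∂seqLaw, (∀ i, 1 ≤ l i) ∧
    ∀ k s : ℕ, 1 ≤ k → 3 ≤ s → Good k s fun i : Fin s => l i := by
  have hmeas : ∀ s : ℕ, AEMeasurable (fun (l : ℕ → ℝ) (i : Fin s) => l i) seqLaw := fun s =>
    (measurable_pi_lambda _ fun i => measurable_pi_apply _).aemeasurable
  have h1 : ∀ a : ℕ × ℕ, ∀ᵐ l ∂seqLaw, 1 ≤ a.1 → 3 ≤ a.2 → Good a.1 a.2 fun i : Fin a.2 => l i := by
    intro a
    by_cases ha : 1 ≤ a.1 ∧ 3 ≤ a.2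
    · have h2 : ∀ᵐ l ∂(μs a.2), Good a.1 a.2 l := by
        have := generic a.1 a.2 ha.1 ha.2
        rw [volume_cube] at this
        exact this
      rw [← map_seqLaw] at h2
      filter_upwards [ae_of_ae_map (hmeas a.2) h2] with l hl _ _
      exact hl
    · exact Eventually.of_forall fun l h2 h3 => absurd ⟨h2, h3⟩ ha
  have h3 : ∀ j : ℕ, ∀ᵐ l ∂seqLaw, 1 ≤ l j := by
    intro j
    have h4 := ae_Icc (j + 1)
    rw [← map_seqLaw] at h4
    filter_upwards [ae_of_ae_map (hmeas (j + 1)) h4] with l hl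
    exact (hl ⟨j, by omega⟩).1
  filter_upwards [ae_all_iff.2 h1, ae_all_iff.2 h3] with l hl hl2
  exact ⟨hl2, fun k s hk hs => hl (k, s) hk hs⟩

lemma reach_of_good (k s : ℕ) (hk : 1 ≤ k) (hs : 2 * k + 1 ≤ s) (l : ℕ → ℝ)
    (h : Good k s fun i : Fin s => l i) : Reach k l s := by
  intro δ hδ
  have hk0 : (0 : ℝ) < k := by exact_mod_cast hk
  have hs0 : (2 : ℝ) * k + 1 ≤ s := by exact_mod_cast hs
  have h1 : 1 - (s : ℝ) / (2 * k) < 0 := by
    rw [sub_neg, lt_div_iff₀ (by positivity)]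
    linarith
  set E : ℝ := -(1 - (s : ℝ) / (2 * k)) with hE
  have hE0 : 0 < E := by linarith
  have h2 : Tendsto (fun N : ℝ => N ^ (-(E / 2))) atTop (𝓝 0) := tendsto_rpow_neg_atTop (by linarith)
  filter_upwards [h (E / 2) (by linarith), h2.eventually (gt_mem_nhds hδ)] with N hN hN2
  obtain ⟨x, hx, hxN⟩ := hN
  refine ⟨x, hx, hxN.trans (le_of_lt ?_)⟩
  have h3 : 1 - (s : ℝ) / (2 * k) + E / 2 = -(E / 2) := by
    rw [hE]
    ring
  rw [h3]
  exact hN2

lemma not_reach (k s : ℕ) (hk : 1 ≤ k) (hs : s ≤ k) (l : ℕ → ℝ) (hl : ∀ i, 0 < l i) :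
    ¬ Reach k l s := by
  intro h
  obtain ⟨D, hD, hlow⟩ := lower k s hk hs (fun i : Fin s => l i) fun i => hl i
  obtain ⟨N₀, hN₀⟩ := eventually_atTop.1 (h D hD)
  obtain ⟨N, hN, hx⟩ := hlow N₀
  obtain ⟨x, _, hxN⟩ := hN₀ N hN
  exact absurd hxN (not_le.2 (hx x))

theorem seq_main : ∀ᵐ l ∂seqLaw, ∀ k : ℕ, 1 ≤ k →
    (∀ s, 2 * k + 1 ≤ s → Reach k l s) ∧ (∀ s, s ≤ k → ¬ Reach k l s) ∧
      k + 1 ≤ genG k l ∧ genG k l ≤ 2 * k + 1 := by
  filter_upwards [good_seq] with l hl k hk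
  have h1 : ∀ s, 2 * k + 1 ≤ s → Reach k l s := fun s hs =>
    reach_of_good k s hk hs l (hl.2 k s hk (by omega))
  have h2 : ∀ s, s ≤ k → ¬ Reach k l s := fun s hs =>
    not_reach k s hk hs l fun i => by linarith [hl.1 i]
  refine ⟨h1, h2, ?_, Nat.sInf_le (h1 _ le_rfl)⟩
  by_contra hlt
  push Not at hlt
  have h3 : Reach k l (genG k l) := Nat.sInf_mem (s := {s | Reach k l s}) ⟨2 * k + 1, h1 _ le_rfl⟩
  exact h2 _ (by omega) h3

end Pool.Agent.R532.Wa
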