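import Pool.Agent.R532.Wa5

/-!
# Sums of powers with generic real coefficients: mean squares over `N`
-/

set_option autoImplicit false

namespace Pool.Agent.R532.Wa

open MeasureTheory Finset Complex

/-- the Gaussian `exp (-π (u / τ) ^ 2)` -/
noncomputable def gs (τ u : ℝ) : ℝ := Real.exp (-Real.pi * (u / τ) ^ 2)

lemma gs_prod {τ : ℝ} (hτ : 0 < τ) (u v : ℝ) :
    Integrable (fun N : ℝ => gs τ (u - N) * gs τ (v - N)) ∧
      ∫ N : ℝ, gs τ (u - N) * gs τ (v - N) = τ / √2 * gs (√2 * τ) (u - v) := by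
  have h2 : (√2 : ℝ) ^ 2 = 2 := Real.sq_sqrt (by norm_num)
  have h1 : (fun N : ℝ => gs τ (u - N) * gs τ (v - N)) = fun N : ℝ =>
      gs (√2 * τ) (u - v) * Real.exp (-(2 * Real.pi / τ ^ 2) * (N - (u + v) / 2) ^ 2) := by
    funext N
    unfold gs
    rw [← Real.exp_add, ← Real.exp_add]
    congr 1
    have h3 : ((u - v) / (√2 * τ)) ^ 2 = (u - v) ^ 2 / (2 * τ ^ 2) := by
      rw [div_pow, mul_pow, h2]
    rw [h3]
    field_simp
    ring
  have hb : 0 < 2 * Real.pi / τ ^ 2 := by positivity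
  rw [h1]
  refine ⟨((integrable_exp_neg_mul_sq hb).comp_sub_right _).const_mul _, ?_⟩
  rw [integral_const_mul, integral_sub_right_eq_self
    (fun N : ℝ => Real.exp (-(2 * Real.pi / τ ^ 2) * N ^ 2)), integral_gaussian]
  have h3 : Real.pi / (2 * Real.pi / τ ^ 2) = (τ / √2) ^ 2 := by
    have := Real.pi_ne_zero
    rw [div_pow, h2]
    field_simp
  rw [h3, Real.sqrt_sq (by positivity)]
  ring

lemma pair_int {τ : ℝ} (hτ : 0 < τ) (u v h : ℝ) :
    Integrable (fun N : ℝ => (gs τ (u - N) - gs τ (u - h - N)) * (gs τ (v - N) - gs τ (v - h - N))) ∧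
      ∫ N : ℝ, (gs τ (u - N) - gs τ (u - h - N)) * (gs τ (v - N) - gs τ (v - h - N)) =
        τ / √2 * (2 * gs (√2 * τ) (u - v) - gs (√2 * τ) (u - v + h) - gs (√2 * τ) (u - v - h)) := by
  obtain ⟨i1, e1⟩ := gs_prod hτ u v
  obtain ⟨i2, e2⟩ := gs_prod hτ u (v - h)
  obtain ⟨i3, e3⟩ := gs_prod hτ (u - h) v
  obtain ⟨i4, e4⟩ := gs_prod hτ (u - h) (v - h)
  have h1 : (fun N : ℝ => (gs τ (u - N) - gs τ (u - h - N)) * (gs τ (v - N) - gs τ (v - h - N))) =
      fun N : ℝ => gs τ (u - N) * gs τ (v - N) - gs τ (u - N) * gs τ (v - h - N) -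
        gs τ (u - h - N) * gs τ (v - N) + gs τ (u - h - N) * gs τ (v - h - N) := by
    funext N
    ring
  rw [h1]
  refine ⟨((i1.sub i2).sub i3).add i4, ?_⟩
  have j2 : Integrable fun N : ℝ => gs τ (u - N) * gs τ (v - N) - gs τ (u - N) * gs τ (v - h - N) :=
    i1.sub i2
  have j3 : Integrable fun N : ℝ => gs τ (u - N) * gs τ (v - N) - gs τ (u - N) * gs τ (v - h - N) -
      gs τ (u - h - N) * gs τ (v - N) := j2.sub i3
  rw [integral_add j3 i4, integral_sub j2 i3, integral_sub i1 i2, e1, e2, e3, e4]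
  have f2 : u - (v - h) = u - v + h := by ring
  have f3 : u - h - v = u - v - h := by ring
  have f4 : u - h - (v - h) = u - v := by ring
  rw [f2, f3, f4]
  ring

/-- the index set -/
def XX (M s : ℕ) : Finset (Fin s → ℕ) := Fintype.piFinset fun _ : Fin s => Ioc M (4 * M)

/-- the value -/
noncomputable def VV (k s : ℕ) (l : Fin s → ℝ) (x : Fin s → ℕ) : ℝ := ∑ i, l i * (x i : ℝ) ^ k

lemma R_gs (k M s : ℕ) (τ : ℝ) (l : Fin s → ℝ) (N : ℝ) :
    R k M s τ l N = ∑ x ∈ XX M s, gs τ (VV k s l x - N) := rfl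

lemma sq_int (k M s : ℕ) {τ : ℝ} (hτ : 0 < τ) (l : Fin s → ℝ) (h : ℝ) :
    Integrable (fun N => (R k M s τ l N - R k M s τ l (N + h)) ^ 2) ∧
    ∫ N, (R k M s τ l N - R k M s τ l (N + h)) ^ 2 =
      τ / √2 * ∑ x ∈ XX M s, ∑ y ∈ XX M s, (2 * gs (√2 * τ) (VV k s l x - VV k s l y) -
        gs (√2 * τ) (VV k s l x - VV k s l y + h) - gs (√2 * τ) (VV k s l x - VV k s l y - h)) := by
  have h1 : (fun N => (R k M s τ l N - R k M s τ l (N + h)) ^ 2) = fun N =>
      ∑ x ∈ XX M s, ∑ y ∈ XX M s, (gs τ (VV k s l x - N) - gs τ (VV k s l x - h - N)) *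
        (gs τ (VV k s l y - N) - gs τ (VV k s l y - h - N)) := by
    funext N
    rw [R_gs, R_gs, ← sum_sub_distrib, sq, sum_mul_sum]
    refine sum_congr rfl fun x _ => sum_congr rfl fun y _ => ?_
    have e1 : VV k s l x - (N + h) = VV k s l x - h - N := by ring
    have e2 : VV k s l y - (N + h) = VV k s l y - h - N := by ring
    rw [e1, e2]
  rw [h1]
  have hint : ∀ x ∈ XX M s, ∀ y ∈ XX M s, Integrable fun N : ℝ =>
      (gs τ (VV k s l x - N) - gs τ (VV k s l x - h - N)) *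
        (gs τ (VV k s l y - N) - gs τ (VV k s l y - h - N)) := fun x _ y _ =>
    (pair_int hτ _ _ h).1
  refine ⟨integrable_finset_sum _ fun x hx => integrable_finset_sum _ fun y hy => hint x hx y hy, ?_⟩
  rw [integral_finset_sum _ fun x hx => integrable_finset_sum _ fun y hy => hint x hx y hy, mul_sum]
  refine sum_congr rfl fun x hx => ?_
  rw [integral_finset_sum _ fun y hy => hint x hx y hy, mul_sum]
  exact sum_congr rfl fun y hy => (pair_int hτ _ _ h).2

/-- the integrand -/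
noncomputable def F2 (k M s : ℕ) (T H : ℝ) (l : Fin s → ℝ) (θ : ℝ) : ℝ :=
  Real.exp (-(Real.pi * T ^ 2) * θ ^ 2) * (∏ i, ‖S k M (l i * θ)‖ ^ 2) *
    min 2 (2 * Real.pi * (H * |θ|))

lemma F2_nonneg (k M s : ℕ) (T H : ℝ) (hH : 0 ≤ H) (l : Fin s → ℝ) (θ : ℝ) :
    0 ≤ F2 k M s T H l θ := by
  unfold F2
  have h1 : 0 ≤ ∏ i, ‖S k M (l i * θ)‖ ^ 2 := prod_nonneg fun i _ => by positivity
  have h2 : 0 ≤ min 2 (2 * Real.pi * (H * |θ|)) := le_min (by norm_num) (by positivity)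
  positivity

lemma continuous_F2 (k M s : ℕ) (T H : ℝ) :
    Continuous (Function.uncurry (F2 k M s T H)) := by
  unfold F2 Function.uncurry
  have h1 : Continuous fun p : (Fin s → ℝ) × ℝ => ∏ i, ‖S k M (p.1 i * p.2)‖ ^ 2 := by
    refine continuous_finset_prod _ fun i _ => (continuous_norm.comp
      ((continuous_S k M).comp ?_)).pow 2
    fun_prop
  fun_prop

lemma prod_S2_le (k M s : ℕ) (l : Fin s → ℝ) (θ : ℝ) :
    ∏ i, ‖S k M (l i * θ)‖ ^ 2 ≤ (3 * (M : ℝ)) ^ (2 * s) := by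
  rw [Finset.prod_pow, mul_comm 2 s, pow_mul]
  exact pow_le_pow_left₀ (prod_nonneg fun i _ => norm_nonneg _) (prod_S_le k M s l θ) 2

lemma integrable_F2 (k M s : ℕ) {T H : ℝ} (hT : 0 < T) (hH : 0 ≤ H) (l : Fin s → ℝ) :
    Integrable (F2 k M s T H l) := by
  have h1 : Integrable (fun θ : ℝ => (3 * (M : ℝ)) ^ (2 * s) * 2 *
      Real.exp (-(Real.pi * T ^ 2) * θ ^ 2)) :=
    (integrable_exp_neg_mul_sq (by positivity)).const_mul _
  refine h1.mono' ?_ ?_
  · have h2 : Continuous (F2 k M s T H l) := by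
      have := (continuous_F2 k M s T H).comp (Continuous.prodMk_right l)
      exact this
    exact h2.aestronglyMeasurable
  · refine Filter.Eventually.of_forall fun θ => ?_
    rw [Real.norm_of_nonneg (F2_nonneg k M s T H hH l θ)]
    unfold F2
    have h2 := prod_S2_le k M s l θ
    have h3 : 0 ≤ ∏ i, ‖S k M (l i * θ)‖ ^ 2 := prod_nonneg fun i _ => by positivity
    have h4 : min 2 (2 * Real.pi * (H * |θ|)) ≤ 2 := min_le_left _ _
    have h5 : 0 ≤ min 2 (2 * Real.pi * (H * |θ|)) := le_min (by norm_num) (by positivity)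
    calc Real.exp (-(Real.pi * T ^ 2) * θ ^ 2) * (∏ i, ‖S k M (l i * θ)‖ ^ 2) *
          min 2 (2 * Real.pi * (H * |θ|))
        ≤ Real.exp (-(Real.pi * T ^ 2) * θ ^ 2) * (3 * (M : ℝ)) ^ (2 * s) * 2 := by
          gcongr
      _ = _ := by ring

lemma pair_fourier {T : ℝ} (hT : 0 < T) (u h : ℝ) :
    ((2 * gs T u - gs T (u + h) - gs T (u - h) : ℝ) : ℂ) =
      T * ∫ θ : ℝ, ((Real.exp (-(Real.pi * T ^ 2) * θ ^ 2) : ℝ) : ℂ) *
        (e (u * θ) * (2 - e (h * θ) - e (-(h * θ)))) := by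
  have i0 : ∀ w : ℝ, Integrable fun θ : ℝ =>
      ((Real.exp (-(Real.pi * T ^ 2) * θ ^ 2) : ℝ) : ℂ) * e (w * θ) := fun w =>
    integrable_g hT _ (continuous_e.comp (by fun_prop)) (C := 1) fun θ => by rw [norm_e]
  have h1 : ∀ θ : ℝ, ((Real.exp (-(Real.pi * T ^ 2) * θ ^ 2) : ℝ) : ℂ) *
        (e (u * θ) * (2 - e (h * θ) - e (-(h * θ)))) =
      2 * (((Real.exp (-(Real.pi * T ^ 2) * θ ^ 2) : ℝ) : ℂ) * e (u * θ)) -
        ((Real.exp (-(Real.pi * T ^ 2) * θ ^ 2) : ℝ) : ℂ) * e ((u + h) * θ) -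
        ((Real.exp (-(Real.pi * T ^ 2) * θ ^ 2) : ℝ) : ℂ) * e ((u - h) * θ) := by
    intro θ
    have e1 : e ((u + h) * θ) = e (u * θ) * e (h * θ) := by
      rw [← e_add]
      congr 1
      ring
    have e2 : e ((u - h) * θ) = e (u * θ) * e (-(h * θ)) := by
      rw [← e_add]
      congr 1
      ring
    rw [e1, e2]
    ring
  simp only [h1]
  have j1 : Integrable fun θ : ℝ =>
      2 * (((Real.exp (-(Real.pi * T ^ 2) * θ ^ 2) : ℝ) : ℂ) * e (u * θ)) := (i0 u).const_mul 2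
  have j2 : Integrable fun θ : ℝ =>
      2 * (((Real.exp (-(Real.pi * T ^ 2) * θ ^ 2) : ℝ) : ℂ) * e (u * θ)) -
        ((Real.exp (-(Real.pi * T ^ 2) * θ ^ 2) : ℝ) : ℂ) * e ((u + h) * θ) := j1.sub (i0 (u + h))
  rw [integral_sub j2 (i0 (u - h)), integral_sub j1 (i0 (u + h)), integral_const_mul]
  have g1 := gauss hT u
  have g2 := gauss hT (u + h)
  have g3 := gauss hT (u - h)
  unfold gs
  push_cast at g1 g2 g3 ⊢
  rw [g1, g2, g3]
  ring

/-- **The mean square over `N`.** -/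
theorem R_sq (k M s : ℕ) {τ H : ℝ} (hτ : 0 < τ) (l : Fin s → ℝ) (h : ℝ)
    (h0 : 0 ≤ h) (hH : h ≤ H) :
    ∫ N, (R k M s τ l N - R k M s τ l (N + h)) ^ 2 ≤
      2 * τ ^ 2 * ∫ θ, F2 k M s (√2 * τ) H l θ := by
  have hH0 : 0 ≤ H := h0.trans hH
  have h2 : (√2 : ℝ) * √2 = 2 := Real.mul_self_sqrt (by norm_num)
  set T : ℝ := √2 * τ with hT
  have hT0 : 0 < T := by positivity
  set g : ℝ → ℂ := fun θ => ((Real.exp (-(Real.pi * T ^ 2) * θ ^ 2) : ℝ) : ℂ) with hg
  set w : ℝ → ℂ := fun θ => 2 - e (h * θ) - e (-(h * θ)) with hw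
  set P : ℝ → ℂ := fun θ => ∏ i, S k M (l i * θ) with hP
  have hwc : Continuous w := by
    have c1 : Continuous fun θ : ℝ => e (h * θ) := continuous_e.comp (by fun_prop)
    have c2 : Continuous fun θ : ℝ => e (-(h * θ)) := continuous_e.comp (by fun_prop)
    exact (continuous_const.sub c1).sub c2
  have hwb : ∀ θ, ‖w θ‖ ≤ 4 := by
    intro θ
    calc ‖w θ‖ ≤ ‖(2 : ℂ) - e (h * θ)‖ + ‖e (-(h * θ))‖ := norm_sub_le _ _
      _ ≤ ‖(2 : ℂ)‖ + ‖e (h * θ)‖ + ‖e (-(h * θ))‖ := by gcongr; exact norm_sub_le _ _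
      _ = 4 := by
          rw [norm_e, norm_e]
          norm_num
  have hPs : ∀ θ, P θ = ∑ x ∈ XX M s, e (VV k s l x * θ) := by
    intro θ
    have := sum_e k M s l 0 θ
    simp only [sub_zero, zero_mul, neg_zero, e_zero, mul_one] at this
    exact this.symm
  have hint : ∀ x ∈ XX M s, ∀ y ∈ XX M s, Integrable fun θ : ℝ =>
      g θ * (e ((VV k s l x - VV k s l y) * θ) * w θ) := by
    intro x _ y _
    refine integrable_g hT0 _ ((continuous_e.comp (by fun_prop)).mul hwc) (C := 4) fun θ => ?_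
    rw [norm_mul, norm_e, one_mul]
    exact hwb θ
  have key : ((∫ N, (R k M s τ l N - R k M s τ l (N + h)) ^ 2 : ℝ) : ℂ) =
      ((τ ^ 2 : ℝ) : ℂ) * ∫ θ, g θ * (P θ * (starRingEnd ℂ) (P θ) * w θ) := by
    rw [(sq_int k M s hτ l h).2]
    rw [Complex.ofReal_mul, Complex.ofReal_sum]
    have e1 : ∀ x ∈ XX M s, ((∑ y ∈ XX M s, (2 * gs T (VV k s l x - VV k s l y) -
        gs T (VV k s l x - VV k s l y + h) - gs T (VV k s l x - VV k s l y - h)) : ℝ) : ℂ) =
        T * ∫ θ, ∑ y ∈ XX M s, g θ * (e ((VV k s l x - VV k s l y) * θ) * w θ) := by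
      intro x hx
      rw [integral_finset_sum _ fun y hy => hint x hx y hy, Complex.ofReal_sum, mul_sum]
      exact sum_congr rfl fun y _ => pair_fourier hT0 _ h
    rw [sum_congr rfl e1, ← mul_sum, ← integral_finset_sum _ fun x hx =>
      integrable_finset_sum _ fun y hy => hint x hx y hy, ← mul_assoc]
    congr 1
    · rw [hT]
      have h2' : (√2 : ℝ) ≠ 0 := by positivity
      rw [← Complex.ofReal_mul]
      congr 1
      field_simp
    · refine integral_congr_ae (Filter.Eventually.of_forall fun θ => ?_)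
      simp only
      rw [hPs θ, map_sum, sum_mul_sum, sum_mul, mul_sum]
      refine sum_congr rfl fun x _ => ?_
      rw [sum_mul, mul_sum]
      refine sum_congr rfl fun y _ => ?_
      rw [← e_neg, ← e_add]
      congr 3
      ring
  have hnn : 0 ≤ ∫ N, (R k M s τ l N - R k M s τ l (N + h)) ^ 2 :=
    integral_nonneg fun N => sq_nonneg _
  have e0 : ∫ N, (R k M s τ l N - R k M s τ l (N + h)) ^ 2 =
      ‖((∫ N, (R k M s τ l N - R k M s τ l (N + h)) ^ 2 : ℝ) : ℂ)‖ := by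
    rw [Complex.norm_real, Real.norm_of_nonneg hnn]
  rw [e0, key, norm_mul, Complex.norm_real, Real.norm_of_nonneg (by positivity)]
  have hF := integrable_F2 k M s hT0 hH0 l
  calc τ ^ 2 * ‖∫ θ, g θ * (P θ * (starRingEnd ℂ) (P θ) * w θ)‖
      ≤ τ ^ 2 * ∫ θ, 2 * F2 k M s T H l θ := by
        refine mul_le_mul_of_nonneg_left ?_ (by positivity)
        refine norm_integral_le_of_norm_le (hF.const_mul 2) (Filter.Eventually.of_forall fun θ => ?_)
        rw [hg, norm_mul, norm_mul, norm_mul, Complex.norm_real,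
          Real.norm_of_nonneg (Real.exp_pos _).le, RCLike.norm_conj]
        have e3 : ‖w θ‖ ≤ 2 * min 2 (2 * Real.pi * (H * |θ|)) := by
          have e4 : w θ = (1 - e (h * θ)) + (1 - e (-(h * θ))) := by
            rw [hw]
            ring
          have e5 : min 2 (2 * Real.pi * |h * θ|) ≤ min 2 (2 * Real.pi * (H * |θ|)) := by
            refine min_le_min_left _ ?_
            rw [abs_mul, abs_of_nonneg h0]
            gcongr
          have e6 := norm_e_sub_one (h * θ)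
          have e7 := norm_e_sub_one (-(h * θ))
          rw [abs_neg] at e7
          rw [e4]
          refine (norm_add_le _ _).trans ?_
          linarith
        have e8 : ‖P θ‖ * ‖P θ‖ = ∏ i, ‖S k M (l i * θ)‖ ^ 2 := by
          rw [hP, norm_prod, Finset.prod_pow, sq]
        rw [e8]
        unfold F2
        have e9 : 0 ≤ ∏ i, ‖S k M (l i * θ)‖ ^ 2 := prod_nonneg fun i _ => by positivity
        have e10 := Real.exp_pos (-(Real.pi * T ^ 2) * θ ^ 2)
        calc Real.exp (-(Real.pi * T ^ 2) * θ ^ 2) * ((∏ i, ‖S k M (l i * θ)‖ ^ 2) * ‖w θ‖)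
            ≤ Real.exp (-(Real.pi * T ^ 2) * θ ^ 2) * ((∏ i, ‖S k M (l i * θ)‖ ^ 2) *
              (2 * min 2 (2 * Real.pi * (H * |θ|)))) := by gcongr
          _ = _ := by ring
    _ = 2 * τ ^ 2 * ∫ θ, F2 k M s T H l θ := by
        rw [integral_const_mul]
        ring

end Pool.Agent.R532.Wa
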