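import Pool.Agent.R532.Wa4
import Pool.Agent.R532.Wb1

/-!
# Sums of powers with generic real coefficients: the mean of the mean squares
-/

set_option autoImplicit false

namespace Pool.Agent.R532.Wa

open MeasureTheory Finset Complex

/-- the integral of `F2` over `θ` -/
noncomputable def J2 (k M s : ℕ) (T H : ℝ) (l : Fin s → ℝ) : ENNReal :=
  ∫⁻ θ, ENNReal.ofReal (F2 k M s T H l θ)

lemma J2_eq (k M s : ℕ) {T H : ℝ} (hT : 0 < T) (hH : 0 ≤ H) (l : Fin s → ℝ) :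
    J2 k M s T H l = ENNReal.ofReal (∫ θ, F2 k M s T H l θ) := by
  unfold J2
  rw [ofReal_integral_eq_lintegral_ofReal (integrable_F2 k M s hT hH l)
    (Filter.Eventually.of_forall fun θ => F2_nonneg k M s T H hH l θ)]

lemma measurable_J2 (k M s : ℕ) (T H : ℝ) : Measurable (J2 k M s T H) := by
  unfold J2
  have h1 : Measurable (Function.uncurry fun (l : Fin s → ℝ) (θ : ℝ) =>
      ENNReal.ofReal (F2 k M s T H l θ)) :=
    ENNReal.measurable_ofReal.comp (continuous_F2 k M s T H).measurable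
  exact h1.lintegral_prod_right'

lemma mean_prod2 (k M s : ℕ) (θ B : ℝ) (hB : 0 < B)
    (h : ∫ l in (1 : ℝ)..2, ‖S k M (l * θ)‖ ^ 2 ≤ B) :
    ∫ l : Fin s → ℝ, ∏ i, ‖S k M (l i * θ)‖ ^ 2 ∂(μs s) ≤ √B ^ (2 * s) := by
  unfold μs
  rw [integral_fintype_prod_eq_prod (fun (_ : Fin s) (l : ℝ) => ‖S k M (l * θ)‖ ^ 2)]
  rw [prod_const, card_univ, Fintype.card_fin, int_ν, pow_mul, Real.sq_sqrt hB.le]
  refine pow_le_pow_left₀ ?_ h s
  rw [← int_ν]
  exact integral_nonneg fun l => sq_nonneg _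

lemma integrable_prod2 (k M s : ℕ) (θ : ℝ) :
    Integrable (fun l : Fin s → ℝ => ∏ i, ‖S k M (l i * θ)‖ ^ 2) (μs s) := by
  have hcont : Continuous fun l : Fin s → ℝ => ∏ i, ‖S k M (l i * θ)‖ ^ 2 := by
    refine continuous_finset_prod _ fun i _ => (continuous_norm.comp
      ((continuous_S k M).comp ?_)).pow 2
    fun_prop
  refine Integrable.mono' (integrable_const ((3 * (M : ℝ)) ^ (2 * s))) hcont.aestronglyMeasurable ?_
  refine Filter.Eventually.of_forall fun l => ?_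
  rw [Real.norm_of_nonneg (prod_nonneg fun i _ => sq_nonneg _)]
  exact prod_S2_le k M s l θ

lemma mean_F2 (k M s : ℕ) {T H : ℝ} (hH : 0 ≤ H) (θ P : ℝ)
    (h : ∫ l : Fin s → ℝ, ∏ i, ‖S k M (l i * θ)‖ ^ 2 ∂(μs s) ≤ P) :
    ∫⁻ l, ENNReal.ofReal (F2 k M s T H l θ) ∂(μs s) ≤
      ENNReal.ofReal (Real.exp (-(Real.pi * T ^ 2) * θ ^ 2) * P *
        min 2 (2 * Real.pi * (H * |θ|))) := by
  have hint := integrable_prod2 k M s θ
  have h2 : 0 ≤ min 2 (2 * Real.pi * (H * |θ|)) := le_min (by norm_num) (by positivity)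
  have hint2 : Integrable (fun l : Fin s → ℝ => F2 k M s T H l θ) (μs s) := by
    unfold F2
    exact (hint.const_mul _).mul_const _
  rw [← ofReal_integral_eq_lintegral_ofReal hint2
    (Filter.Eventually.of_forall fun l => F2_nonneg k M s T H hH l θ)]
  refine ENNReal.ofReal_le_ofReal ?_
  unfold F2
  rw [integral_mul_const, integral_const_mul]
  refine mul_le_mul_of_nonneg_right ?_ h2
  exact mul_le_mul_of_nonneg_left h (Real.exp_pos _).le

lemma mean_F2_le (k M s : ℕ) (hk : 1 ≤ k) (hM : 1 ≤ M) {T H θ₀ : ℝ} (hH : 0 ≤ H) (hθ₀ : 0 < θ₀)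
    (θ : ℝ) : ∫⁻ l, ENNReal.ofReal (F2 k M s T H l θ) ∂(μs s) ≤
      ENNReal.ofReal (G (2 * s) M T H θ₀ (6 * M * (1 + Real.log (3 * M)) / (M : ℝ) ^ (k - 1)) θ) := by
  have hM0 : (0 : ℝ) < M := by exact_mod_cast hM
  have hM1 : (1 : ℝ) ≤ M := by exact_mod_cast hM
  have hL : 0 ≤ Real.log (3 * M) := Real.log_nonneg (by linarith)
  set D : ℝ := 6 * M * (1 + Real.log (3 * M)) / (M : ℝ) ^ (k - 1) with hD
  have hD0 : 0 < D := by positivity
  have hexp1 : Real.exp (-(Real.pi * T ^ 2) * θ ^ 2) ≤ 1 := by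
    rw [Real.exp_le_one_iff]
    have : 0 ≤ Real.pi * T ^ 2 * θ ^ 2 := by positivity
    linarith
  have hexp0 : 0 < Real.exp (-(Real.pi * T ^ 2) * θ ^ 2) := Real.exp_pos _
  have hmin0 : 0 ≤ min 2 (2 * Real.pi * (H * |θ|)) := le_min (by norm_num) (by positivity)
  by_cases h : |θ| ≤ θ₀
  · refine (mean_F2 k M s hH θ ((3 * (M : ℝ)) ^ (2 * s)) ?_).trans (ENNReal.ofReal_le_ofReal ?_)
    · refine (integral_mono (integrable_prod2 k M s θ) (integrable_const _)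
        fun l => prod_S2_le k M s l θ).trans ?_
      rw [integral_const]
      simp
    · unfold G
      have h1 : θ ∈ Set.Icc (-θ₀) θ₀ := abs_le.1 h
      have h2 : |θ| ∉ Set.Ioi θ₀ := by
        rw [Set.mem_Ioi, not_lt]
        exact h
      rw [Set.indicator_of_mem h1, Set.indicator_of_notMem h2, add_zero]
      have h3 : min 2 (2 * Real.pi * (H * |θ|)) ≤ 2 * Real.pi * (H * θ₀) :=
        (min_le_right _ _).trans (by gcongr)
      have h4 : 0 ≤ 2 * 2 ^ (2 * s) * √(3 * (M : ℝ)) ^ (2 * s) *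
          Real.exp (-(Real.pi * T ^ 2) * θ ^ 2) := by
        positivity
      have h5 : Real.exp (-(Real.pi * T ^ 2) * θ ^ 2) * (3 * (M : ℝ)) ^ (2 * s) *
          min 2 (2 * Real.pi * (H * |θ|)) ≤
          1 * (3 * (M : ℝ)) ^ (2 * s) * (2 * Real.pi * (H * θ₀)) := by
        gcongr
      linarith
  · rw [not_le] at h
    have hθ0 : 0 < |θ| := hθ₀.trans h
    have hθ : θ ≠ 0 := abs_pos.1 hθ0
    have hB : 0 < 3 * (M : ℝ) + D / |θ| := by positivity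
    have hsm := second_moment k M hk hM θ hθ
    have hDe : 6 * M * (1 + Real.log (3 * M)) / (|θ| * (M : ℝ) ^ (k - 1)) = D / |θ| := by
      rw [hD]
      field_simp
    rw [hDe] at hsm
    refine (mean_F2 k M s hH θ _ (mean_prod2 k M s θ _ hB hsm)).trans (ENNReal.ofReal_le_ofReal ?_)
    unfold G
    have h1 : θ ∉ Set.Icc (-θ₀) θ₀ := by
      intro h2
      exact absurd (abs_le.2 h2) (not_le.2 h)
    rw [Set.indicator_of_notMem h1, Set.indicator_of_mem (Set.mem_Ioi.2 h), zero_add]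
    have h2 : √(3 * (M : ℝ) + D / |θ|) ^ (2 * s) ≤
        2 ^ (2 * s) * (√(3 * (M : ℝ)) ^ (2 * s) + √(D / |θ|) ^ (2 * s)) := by
      refine le_trans (pow_le_pow_left₀ (Real.sqrt_nonneg _) ?_ (2 * s))
        (add_pow_le2 (Real.sqrt_nonneg _) (Real.sqrt_nonneg _) (2 * s))
      exact sqrt_add_le2 (by positivity) (by positivity)
    have h3 : √(D / |θ|) ^ (2 * s) = √D ^ (2 * s) * |θ| ^ (-((2 * s : ℕ) : ℝ) / 2) := by
      rw [Real.sqrt_div hD0.le, div_pow, div_eq_mul_inv]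
      congr 1
      rw [Real.sqrt_eq_rpow, ← Real.rpow_natCast, ← Real.rpow_mul hθ0.le, ← Real.rpow_neg hθ0.le]
      congr 1
      ring
    rw [h3] at h2
    have h4 : min 2 (2 * Real.pi * (H * |θ|)) ≤ 2 := min_le_left _ _
    have h5 : 0 ≤ √D ^ (2 * s) * |θ| ^ (-((2 * s : ℕ) : ℝ) / 2) := by positivity
    have h6 : 0 ≤ √(3 * (M : ℝ)) ^ (2 * s) := by positivity
    set E := Real.exp (-(Real.pi * T ^ 2) * θ ^ 2)
    calc E * √(3 * (M : ℝ) + D / |θ|) ^ (2 * s) * min 2 (2 * Real.pi * (H * |θ|))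
        ≤ E * (2 ^ (2 * s) * (√(3 * (M : ℝ)) ^ (2 * s) +
          √D ^ (2 * s) * |θ| ^ (-((2 * s : ℕ) : ℝ) / 2))) * 2 := by
          gcongr
      _ = 2 * 2 ^ (2 * s) * √(3 * (M : ℝ)) ^ (2 * s) * E +
          E * (2 * 2 ^ (2 * s) * (√D ^ (2 * s) * |θ| ^ (-((2 * s : ℕ) : ℝ) / 2))) := by ring
      _ ≤ 2 * 2 ^ (2 * s) * √(3 * (M : ℝ)) ^ (2 * s) * E +
          1 * (2 * 2 ^ (2 * s) * (√D ^ (2 * s) * |θ| ^ (-((2 * s : ℕ) : ℝ) / 2))) := by
          gcongr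
      _ = _ := by ring

/-- the mean of `J2` -/
theorem mean_J2 (k M s : ℕ) (hk : 1 ≤ k) (hM : 1 ≤ M) (hs : 3 ≤ 2 * s) {T H θ₀ : ℝ} (hT : 0 < T)
    (hH : 0 ≤ H) (hθ₀ : 0 < θ₀) :
    ∫⁻ l, J2 k M s T H l ∂(μs s) ≤
      ENNReal.ofReal (4 * Real.pi * (3 * (M : ℝ)) ^ (2 * s) * H * θ₀ ^ 2 +
        2 ^ (2 * s + 1) * √(3 * (M : ℝ)) ^ (2 * s) / T +
        2 ^ (2 * s + 3) * √(6 * M * (1 + Real.log (3 * M)) / (M : ℝ) ^ (k - 1)) ^ (2 * s) *
          θ₀ ^ (1 - ((2 * s : ℕ) : ℝ) / 2)) := by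
  have hM1 : (1 : ℝ) ≤ M := by exact_mod_cast hM
  have hL : 0 ≤ Real.log (3 * M) := Real.log_nonneg (by linarith)
  unfold J2
  rw [lintegral_lintegral_swap]
  · refine (lintegral_mono fun θ => mean_F2_le k M s hk hM hH hθ₀ θ).trans ?_
    exact int_G (2 * s) hs (by linarith) hT hH hθ₀ (by positivity)
  · exact (ENNReal.measurable_ofReal.comp (continuous_F2 k M s T H).measurable).aemeasurable

/-- **For almost all coefficients the mean squares of the minor arcs are small.** -/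
theorem ae_J2 (k s : ℕ) (hk : 1 ≤ k) (hs : 3 ≤ 2 * s) {δ : ℝ} (hδ : 0 < δ) (hδ1 : δ ≤ 1 / 32) :
    ∀ᵐ l ∂(μs s), ∀ᶠ j : ℕ in Filter.atTop,
      ∫ θ, F2 k (2 ^ j) s (tau k (2 * s) δ (2 ^ j)) (HH k (2 ^ j)) l θ <
        ((2 : ℝ) ^ j) ^ (((2 * s : ℕ) : ℝ) - k - δ / 2) := by
  obtain ⟨C, hC, hT⟩ := bound_T k (2 * s) hk hs hδ hδ1
  set A : ℕ → Set (Fin s → ℝ) := fun j =>
    {l | ENNReal.ofReal (((2 : ℝ) ^ j) ^ (((2 * s : ℕ) : ℝ) - k - δ / 2)) ≤
      J2 k (2 ^ j) s (tau k (2 * s) δ (2 ^ j)) (HH k (2 ^ j)) l} with hA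
  have hmeas : ∀ j, μs s (A j) ≤ ENNReal.ofReal (C * ((2 : ℝ) ^ (-(δ / 2))) ^ j) := by
    intro j
    have hm0 : (0 : ℝ) < 2 ^ j := by positivity
    have h1 := mul_meas_ge_le_lintegral (μ := μs s)
      (measurable_J2 k (2 ^ j) s (tau k (2 * s) δ (2 ^ j)) (HH k (2 ^ j)))
      (ENNReal.ofReal (((2 : ℝ) ^ j) ^ (((2 * s : ℕ) : ℝ) - k - δ / 2)))
    have hτ : 0 < tau k (2 * s) δ (2 ^ j) := by unfold tau; positivity
    have hH : 0 ≤ HH k (2 ^ j) := by unfold HH; positivity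
    have h2 := mean_J2 k (2 ^ j) s hk Nat.one_le_two_pow hs hτ hH
      (show 0 < ((2 : ℝ) ^ j) ^ (-(k : ℝ) + 1 / 8) by positivity)
    have h3 := hT (2 ^ j) Nat.one_le_two_pow
    rw [Nat.cast_pow, Nat.cast_ofNat] at h2 h3
    have h4 := h1.trans (h2.trans (ENNReal.ofReal_le_ofReal h3))
    have hpos : 0 < ((2 : ℝ) ^ j) ^ (((2 * s : ℕ) : ℝ) - k - δ / 2) := by positivity
    have h5 : C * ((2 : ℝ) ^ j) ^ (((2 * s : ℕ) : ℝ) - k - δ) =
        ((2 : ℝ) ^ j) ^ (((2 * s : ℕ) : ℝ) - k - δ / 2) * (C * ((2 : ℝ) ^ (-(δ / 2))) ^ j) := by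
      have h6 : ((2 : ℝ) ^ (-(δ / 2))) ^ j = ((2 : ℝ) ^ j) ^ (-(δ / 2)) := by
        rw [← Real.rpow_natCast, ← Real.rpow_natCast, ← Real.rpow_mul (by norm_num),
          ← Real.rpow_mul (by norm_num), mul_comm]
      rw [h6]
      have h7 : ((2 : ℝ) ^ j) ^ (((2 * s : ℕ) : ℝ) - k - δ) =
          ((2 : ℝ) ^ j) ^ (((2 * s : ℕ) : ℝ) - k - δ / 2) * ((2 : ℝ) ^ j) ^ (-(δ / 2)) := by
        rw [← Real.rpow_add hm0]
        congr 1
        ring
      rw [h7]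
      ring
    rw [h5, ENNReal.ofReal_mul hpos.le] at h4
    exact (ENNReal.mul_le_mul_iff_right (ENNReal.ofReal_pos.2 hpos).ne' ENNReal.ofReal_ne_top).1 h4
  have hsum : ∑' j, μs s (A j) ≠ ⊤ := by
    refine ne_top_of_le_ne_top ?_ (ENNReal.tsum_le_tsum hmeas)
    have hr : (2 : ℝ) ^ (-(δ / 2)) < 1 := Real.rpow_lt_one_of_one_lt_of_neg (by norm_num) (by linarith)
    have hr0 : 0 ≤ (2 : ℝ) ^ (-(δ / 2)) := by positivity
    have hs1 : Summable fun j : ℕ => C * ((2 : ℝ) ^ (-(δ / 2))) ^ j :=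
      (summable_geometric_of_lt_one hr0 hr).mul_left C
    rw [← ENNReal.ofReal_tsum_of_nonneg (fun j => by positivity) hs1]
    exact ENNReal.ofReal_ne_top
  filter_upwards [ae_eventually_notMem hsum] with l hl
  filter_upwards [hl] with j hj
  have hτ : 0 < tau k (2 * s) δ (2 ^ j) := by unfold tau; positivity
  have hH : 0 ≤ HH k (2 ^ j) := by unfold HH; positivity
  simp only [hA, Set.mem_ofPred_eq, not_le] at hj
  rw [J2_eq k (2 ^ j) s hτ hH] at hj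
  have hpos : 0 < ((2 : ℝ) ^ j) ^ (((2 * s : ℕ) : ℝ) - k - δ / 2) := by positivity
  exact (ENNReal.ofReal_lt_ofReal_iff hpos).1 hj

end Pool.Agent.R532.Wa
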