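import Pool.Agent.R532.Wa7
import Pool.Agent.R532.Wb2

/-!
# Sums of powers with generic real coefficients: the measure of the exceptional set
-/

set_option autoImplicit false

namespace Pool.Agent.R532.Wa

open MeasureTheory Finset Filter Topology

lemma shift_sum (k M s : ℕ) {τ H : ℝ} (hτ : 0 < τ) (hH : τ ≤ H) (l : Fin s → ℝ) (N : ℝ) :
    (((Fintype.piFinset fun _ : Fin s => Ioc M (4 * M)).filter fun x =>
        N ≤ ∑ i, l i * (x i : ℝ) ^ k ∧ ∑ i, l i * (x i : ℝ) ^ k ≤ N + H).card : ℝ) *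
        Real.exp (-Real.pi) ≤ ∑ j ∈ range (⌊H / τ⌋₊ + 1), R k M s τ l (N + j * τ) := by
  classical
  have hH0 : 0 < H := hτ.trans_le hH
  set X := (Fintype.piFinset fun _ : Fin s => Ioc M (4 * M)).filter fun x =>
        N ≤ ∑ i, l i * (x i : ℝ) ^ k ∧ ∑ i, l i * (x i : ℝ) ^ k ≤ N + H with hX
  set n₀ : ℕ := ⌊H / τ⌋₊ with hn₀
  unfold R
  rw [sum_comm]
  calc (X.card : ℝ) * Real.exp (-Real.pi) = ∑ _x ∈ X, Real.exp (-Real.pi) := by
        rw [sum_const, nsmul_eq_mul]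
    _ ≤ ∑ x ∈ X, ∑ j ∈ range (n₀ + 1),
        Real.exp (-Real.pi * ((∑ i, l i * (x i : ℝ) ^ k - (N + j * τ)) / τ) ^ 2) := by
        refine sum_le_sum fun x hx => ?_
        rw [hX, mem_filter] at hx
        obtain ⟨-, h1, h2⟩ := hx
        set z : ℝ := (∑ i, l i * (x i : ℝ) ^ k - N) / τ with hz
        have hz0 : 0 ≤ z := div_nonneg (by linarith) hτ.le
        have hz1 : z ≤ H / τ := div_le_div_of_nonneg_right (by linarith) hτ.le
        have hj : ⌊z⌋₊ ∈ range (n₀ + 1) := by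
          rw [mem_range, Nat.lt_succ_iff]
          exact Nat.floor_le_floor hz1
        refine le_trans ?_ (single_le_sum (fun j _ => (Real.exp_pos _).le) hj)
        rw [Real.exp_le_exp]
        have h3 : (∑ i, l i * (x i : ℝ) ^ k - (N + (⌊z⌋₊ : ℝ) * τ)) / τ = z - ⌊z⌋₊ := by
          rw [hz]
          field_simp
          ring
        rw [h3]
        have h4 : (⌊z⌋₊ : ℝ) ≤ z := Nat.floor_le hz0
        have h5 : z < ⌊z⌋₊ + 1 := Nat.lt_floor_add_one z
        have h6 : (z - ⌊z⌋₊) ^ 2 ≤ 1 := by nlinarith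
        nlinarith [Real.pi_pos]
    _ ≤ _ := by
        refine sum_le_sum_of_subset_of_nonneg (filter_subset _ _) fun x _ _ => ?_
        exact sum_nonneg fun j _ => (Real.exp_pos _).le

lemma meas_le {f : ℝ → ℝ} (hf : Integrable f) (h0 : ∀ x, 0 ≤ f x) {ε : ℝ} (hε : 0 < ε)
    (B : Set ℝ) (hB : ∀ x ∈ B, ε ≤ f x) : volume B ≤ ENNReal.ofReal ((∫ x, f x) / ε) := by
  have h1 : B ⊆ {x | ENNReal.ofReal ε ≤ ENNReal.ofReal (f x)} := fun x hx =>
    ENNReal.ofReal_le_ofReal (hB x hx)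
  have h2 := meas_ge_le_lintegral_div (μ := (volume : Measure ℝ))
    (f := fun x => ENNReal.ofReal (f x)) hf.aestronglyMeasurable.aemeasurable.ennreal_ofReal
    (ε := ENNReal.ofReal ε) (ENNReal.ofReal_pos.2 hε).ne' ENNReal.ofReal_ne_top
  refine (measure_mono h1).trans (h2.trans (le_of_eq ?_))
  rw [← ofReal_integral_eq_lintegral_ofReal hf (Eventually.of_forall h0),
    ENNReal.ofReal_div_of_pos hε]

/-- the exceptional set in the window of `2 ^ j` -/
def badSet (k s : ℕ) (l : Fin s → ℝ) (m E : ℝ) : Set ℝ :=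
  {N : ℝ | (∑ i, l i) * (3 / 2 * m) ^ k ≤ N ∧ N ≤ (∑ i, l i) * (3 * m) ^ k ∧
    ∀ x : Fin s → ℕ, (∀ i, 0 < x i) → m ^ E < |∑ i, l i * (x i : ℝ) ^ k - N|}

lemma near2 (k s : ℕ) (hk : 1 ≤ k) (hs : 2 ≤ s) {δ : ℝ} (hδ : 0 < δ) (hδ1 : δ ≤ 1 / 32) :
    ∃ C : ℝ, 0 < C ∧ ∀ᶠ j : ℕ in atTop, ∀ l : Fin s → ℝ, (∀ i, 1 ≤ l i ∧ l i ≤ 2) →
      ∫ θ, F2 k (2 ^ j) s (tau k (2 * s) δ (2 ^ j)) (HH k (2 ^ j)) l θ <
        ((2 : ℝ) ^ j) ^ (((2 * s : ℕ) : ℝ) - k - δ / 2) →
      volume (badSet k s l ((2 : ℝ) ^ j) ((k : ℝ) - ((2 * s : ℕ) : ℝ) / 2 + 2 * δ)) ≤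
        ENNReal.ofReal (C * ((2 : ℝ) ^ j) ^ ((k : ℝ) - δ / 2)) := by
  have hk1 : (1 : ℝ) ≤ k := by exact_mod_cast hk
  have hs2 : (2 : ℝ) ≤ s := by exact_mod_cast hs
  set c₁ : ℝ := 1 / ((8 * (s : ℝ)) ^ (s - 1) * (4 * (k : ℝ) * 4 ^ (k - 1))) with hc₁
  have hc₁0 : 0 < c₁ := by positivity
  set c₂ : ℝ := c₁ * Real.exp (-Real.pi) with hc₂
  have hc₂0 : 0 < c₂ := by positivity
  refine ⟨32 / c₂ ^ 2, by positivity, ?_⟩
  have htend : Tendsto (fun j : ℕ => (2 : ℝ) ^ j) atTop atTop :=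
    tendsto_pow_atTop_atTop_of_one_lt (by norm_num)
  have ev : ∀ᶠ m : ℝ in atTop, 8 * (s : ℝ) ≤ m ∧ 4 * (k : ℝ) * 4 ^ (k - 1) ≤ √m ∧
      8 / c₂ ≤ m ^ δ ∧ (3 * m) ^ s * Real.exp (-Real.pi * (m ^ δ) ^ 2) < 1 := by
    filter_upwards [eventually_ge_atTop (8 * (s : ℝ)),
      eventually_ge_atTop ((4 * (k : ℝ) * 4 ^ (k - 1)) ^ 2),
      (tendsto_rpow_atTop hδ).eventually
        (eventually_ge_atTop (8 / c₂)), exp_small s hδ] with m h1 h2 h3 h4
    exact ⟨h1, Real.le_sqrt_of_sq_le h2, h3, h4⟩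
  filter_upwards [htend.eventually ev] with j hj l hl hF
  obtain ⟨g1, g2, g3, g4⟩ := hj
  set M : ℕ := 2 ^ j with hM
  have hMm : (M : ℝ) = 2 ^ j := by rw [hM]; push_cast; rfl
  rw [← hMm] at g1 g2 g3 g4 hF ⊢
  set m : ℝ := (M : ℝ) with hm
  have hm1 : (1 : ℝ) ≤ m := by linarith
  have hm0 : 0 < m := by linarith
  have hS : ((2 * s : ℕ) : ℝ) = 2 * s := by push_cast; ring
  have h22 : (√2 : ℝ) * √2 = 2 := Real.mul_self_sqrt (by norm_num)
  have h21 : 1 ≤ (√2 : ℝ) := by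
    rw [show (1 : ℝ) = √1 by simp]
    exact Real.sqrt_le_sqrt (by norm_num)
  have h2p : 0 < (√2 : ℝ) := by linarith
  set T : ℝ := tau k (2 * s) δ m with hTd
  set H : ℝ := HH k m with hHd
  have hT0 : 0 < T := by
    rw [hTd]
    unfold tau
    positivity
  have hH0 : 0 < H := by
    rw [hHd]
    unfold HH
    positivity
  have hTH : T ≤ H := by
    rw [hTd, hHd]
    unfold tau HH
    refine Real.rpow_le_rpow_of_exponent_le hm1 ?_
    rw [hS]
    linarith
  set τ : ℝ := T / √2 with hτd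
  have hτ : 0 < τ := by positivity
  have hτT : τ ≤ T := div_le_self hT0.le h21
  have hτH : τ ≤ H := hτT.trans hTH
  have hτ2 : √2 * τ = T := by
    rw [hτd]
    field_simp
  have hks : m ^ (k - 1) = m ^ ((k : ℝ) - 1) := by
    rw [← Real.rpow_natCast, Nat.cast_sub hk, Nat.cast_one]
  have hss : m ^ (s - 1) = m ^ ((s : ℝ) - 1) := by
    rw [← Real.rpow_natCast, Nat.cast_sub (by omega), Nat.cast_one]
  have hHeq : m ^ (k - 1) * √m = H := by
    rw [hHd]
    unfold HH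
    rw [Real.sqrt_eq_rpow, hks, ← Real.rpow_add hm0]
    congr 1
    ring
  have hQe : m ^ (s - 1) * √m = m ^ ((s : ℝ) - 1 / 2) := by
    rw [Real.sqrt_eq_rpow, hss, ← Real.rpow_add hm0]
    congr 1
    ring
  set Q : ℝ := c₂ * m ^ ((s : ℝ) - 1 / 2) with hQ
  have hQ0 : 0 < Q := by positivity
  set n₀ : ℕ := ⌊H / τ⌋₊ with hn₀
  have hn₀le : (n₀ : ℝ) ≤ H / τ := Nat.floor_le (by positivity)
  set n : ℝ := (n₀ : ℝ) + 1 with hn
  have hn0 : 0 < n := by positivity
  have hn1 : n ≤ 2 * H / τ := by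
    have h2 : 1 ≤ H / τ := (one_le_div hτ).2 hτH
    have h3 : 2 * H / τ = H / τ + H / τ := by ring
    linarith
  -- the function
  set f : ℝ → ℝ := fun N => ∑ j ∈ range (n₀ + 1),
    (R k M s τ l N - R k M s τ l (N + j * τ)) ^ 2 with hf
  have hfi : Integrable f := integrable_finset_sum _ fun j _ => (sq_int k M s hτ l _).1
  have hf0 : ∀ N, 0 ≤ f N := fun N => sum_nonneg fun j _ => sq_nonneg _
  have hfint : ∫ N, f N ≤ n * (2 * τ ^ 2 * ∫ θ, F2 k M s T H l θ) := by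
    rw [hf, integral_finset_sum _ fun j _ => (sq_int k M s hτ l _).1]
    refine (sum_le_sum (g := fun _ => 2 * τ ^ 2 * ∫ θ, F2 k M s T H l θ) fun j hj => ?_).trans
      (le_of_eq ?_)
    · have hjle : (j : ℝ) ≤ H / τ := by
        rw [mem_range, Nat.lt_succ_iff] at hj
        exact le_trans (by exact_mod_cast hj) hn₀le
      have h1 := R_sq k M s hτ l (j * τ) (by positivity) (by rwa [le_div_iff₀ hτ] at hjle) (H := H)
      rw [hτ2] at h1
      exact h1
    · rw [sum_const, card_range, nsmul_eq_mul]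
      push_cast
      rfl
  -- large on the exceptional set
  have hbig : ∀ N ∈ badSet k s l m ((k : ℝ) - ((2 * s : ℕ) : ℝ) / 2 + 2 * δ),
      Q ^ 2 / (4 * n) ≤ f N := by
    intro N hN
    obtain ⟨hN1, hN2, hcon⟩ := hN
    have hcard := card_near' k s M hk (by omega) g1 g2 l hl N hN1 hN2
    rw [← hm, hHeq] at hcard
    have hsh := shift_sum k M s hτ hτH l N
    have hcard2 : Q ≤ ∑ j ∈ range (n₀ + 1), R k M s τ l (N + j * τ) := by
      refine le_trans ?_ hsh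
      rw [hQ, hc₂]
      have h1 : c₁ * m ^ ((s : ℝ) - 1 / 2) ≤
          (((Fintype.piFinset fun _ : Fin s => Ioc M (4 * M)).filter fun x =>
            N ≤ ∑ i, l i * (x i : ℝ) ^ k ∧ ∑ i, l i * (x i : ℝ) ^ k ≤ N + H).card : ℝ) := by
        refine le_trans (le_of_eq ?_) hcard
        rw [hQe, hc₁]
        field_simp
      calc c₁ * Real.exp (-Real.pi) * m ^ ((s : ℝ) - 1 / 2) =
            c₁ * m ^ ((s : ℝ) - 1 / 2) * Real.exp (-Real.pi) := by ring
        _ ≤ _ := mul_le_mul_of_nonneg_right h1 (Real.exp_pos _).le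
    have hR1 : R k M s τ l N ≤ 1 := by
      have hle : R k M s τ l N ≤ (3 * m) ^ s * Real.exp (-Real.pi * (m ^ δ) ^ 2) := by
        unfold R
        have e1 : ∀ x ∈ Fintype.piFinset (fun _ : Fin s => Ioc M (4 * M)),
            Real.exp (-Real.pi * ((∑ i, l i * (x i : ℝ) ^ k - N) / τ) ^ 2) ≤
              Real.exp (-Real.pi * (m ^ δ) ^ 2) := by
          intro x hx
          rw [Fintype.mem_piFinset] at hx
          have hx0 : ∀ i, 0 < x i := fun i => (Nat.zero_le M).trans_lt (mem_Ioc.1 (hx i)).1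
          have e2 := hcon x hx0
          have e3 : m ^ ((k : ℝ) - ((2 * s : ℕ) : ℝ) / 2 + 2 * δ) = m ^ δ * T := by
            rw [hTd]
            unfold tau
            rw [← Real.rpow_add hm0]
            congr 1
            ring
          rw [e3] at e2
          have e4 : m ^ δ ≤ |(∑ i, l i * (x i : ℝ) ^ k - N) / τ| := by
            rw [abs_div, abs_of_pos hτ, le_div_iff₀ hτ]
            refine le_trans ?_ e2.le
            exact mul_le_mul_of_nonneg_left hτT (by positivity)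
          have e5 : (m ^ δ) ^ 2 ≤ ((∑ i, l i * (x i : ℝ) ^ k - N) / τ) ^ 2 := by
            rw [← sq_abs ((∑ i, l i * (x i : ℝ) ^ k - N) / τ)]
            exact pow_le_pow_left₀ (by positivity) e4 2
          refine Real.exp_le_exp.2 ?_
          have := Real.pi_pos
          nlinarith
        refine (sum_le_sum e1).trans (le_of_eq ?_)
        rw [sum_const, Fintype.card_piFinset, prod_const, Nat.card_Ioc, card_univ,
          Fintype.card_fin, nsmul_eq_mul]
        congr 1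
        have e6 : 4 * M - M = 3 * M := by omega
        rw [e6]
        push_cast
        rfl
      linarith
    have hnQ : n ≤ Q / 2 := by
      have e1 : 2 * H / τ = 2 * √2 * (m ^ ((s : ℝ) - 1 / 2) / m ^ δ) := by
        rw [hτd, hHd, hTd]
        unfold HH tau
        have e2 : m ^ ((s : ℝ) - 1 / 2) =
            m ^ ((k : ℝ) - 1 / 2) / m ^ ((k : ℝ) - ((2 * s : ℕ) : ℝ) / 2 + δ) * m ^ δ := by
          rw [← Real.rpow_sub hm0, ← Real.rpow_add hm0]
          congr 1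
          rw [hS]
          ring
        rw [e2]
        have e3 : 0 < m ^ ((k : ℝ) - ((2 * s : ℕ) : ℝ) / 2 + δ) := by positivity
        have e4 : 0 < m ^ δ := by positivity
        field_simp
      rw [e1] at hn1
      have e4 : 0 < m ^ δ := by positivity
      have e5 : 8 ≤ c₂ * m ^ δ := by
        rw [div_le_iff₀ hc₂0] at g3
        linarith
      have e6 : √2 ≤ 2 := by nlinarith
      refine hn1.trans ?_
      have e7 : 2 * √2 * (m ^ ((s : ℝ) - 1 / 2) / m ^ δ) ≤ 4 * (m ^ ((s : ℝ) - 1 / 2) / m ^ δ) := by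
        refine mul_le_mul_of_nonneg_right (by linarith) (by positivity)
      refine e7.trans ?_
      rw [hQ]
      have e8 : 4 * (m ^ ((s : ℝ) - 1 / 2) / m ^ δ) = (4 * m ^ ((s : ℝ) - 1 / 2)) / m ^ δ := by ring
      rw [e8, div_le_iff₀ e4]
      have e9 : 0 < m ^ ((s : ℝ) - 1 / 2) := by positivity
      nlinarith
    have hsum : Q / 2 ≤ ∑ j ∈ range (n₀ + 1), (R k M s τ l (N + j * τ) - R k M s τ l N) := by
      rw [sum_sub_distrib, sum_const, card_range, nsmul_eq_mul]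
      have e1 : ((n₀ + 1 : ℕ) : ℝ) * R k M s τ l N ≤ n := by
        have e2 : ((n₀ + 1 : ℕ) : ℝ) = n := by rw [hn]; push_cast; rfl
        rw [e2]
        nlinarith
      linarith
    have hcs := sq_sum_le_card_mul_sum_sq (s := range (n₀ + 1))
      (f := fun j : ℕ => R k M s τ l (N + j * τ) - R k M s τ l N)
    rw [card_range] at hcs
    have e2 : ((n₀ + 1 : ℕ) : ℝ) = n := by rw [hn]; push_cast; rfl
    rw [e2] at hcs
    have e3 : ∑ j ∈ range (n₀ + 1), (R k M s τ l (N + j * τ) - R k M s τ l N) ^ 2 = f N := by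
      rw [hf]
      exact sum_congr rfl fun j _ => by ring
    rw [e3] at hcs
    have e4 : (Q / 2) ^ 2 ≤ n * f N := (pow_le_pow_left₀ (by positivity) hsum 2).trans hcs
    rw [div_le_iff₀ (by positivity)]
    nlinarith
  refine (meas_le hfi hf0 (by positivity : 0 < Q ^ 2 / (4 * n)) _ hbig).trans
    (ENNReal.ofReal_le_ofReal ?_)
  have hFn : 0 ≤ ∫ θ, F2 k M s T H l θ := integral_nonneg fun θ => F2_nonneg k M s T H hH0.le l θ
  have hn2 : n ^ 2 * τ ^ 2 ≤ 4 * H ^ 2 := by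
    rw [le_div_iff₀ hτ] at hn1
    have : (n * τ) ^ 2 ≤ (2 * H) ^ 2 := pow_le_pow_left₀ (by positivity) hn1 2
    nlinarith
  calc (∫ N, f N) / (Q ^ 2 / (4 * n)) ≤
        (n * (2 * τ ^ 2 * ∫ θ, F2 k M s T H l θ)) / (Q ^ 2 / (4 * n)) :=
        div_le_div_of_nonneg_right hfint (by positivity)
    _ = 8 * (n ^ 2 * τ ^ 2) * (∫ θ, F2 k M s T H l θ) / Q ^ 2 := by
        field_simp
        ring
    _ ≤ 8 * (4 * H ^ 2) * m ^ (((2 * s : ℕ) : ℝ) - k - δ / 2) / Q ^ 2 := by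
        gcongr
    _ = 32 / c₂ ^ 2 * m ^ ((k : ℝ) - δ / 2) := by
        rw [hQ, hHd]
        unfold HH
        have e1 : (m ^ ((k : ℝ) - 1 / 2)) ^ 2 * m ^ (((2 * s : ℕ) : ℝ) - k - δ / 2) =
            (m ^ ((s : ℝ) - 1 / 2)) ^ 2 * m ^ ((k : ℝ) - δ / 2) := by
          rw [← Real.rpow_natCast, ← Real.rpow_natCast, ← Real.rpow_mul hm0.le,
            ← Real.rpow_mul hm0.le, ← Real.rpow_add hm0, ← Real.rpow_add hm0]
          congr 1
          rw [hS]
          push_cast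
          ring
        have e2 : 0 < m ^ ((s : ℝ) - 1 / 2) := by positivity
        rw [mul_pow, div_mul_eq_mul_div, div_eq_div_iff (by positivity) (by positivity)]
        linear_combination (32 * c₂ ^ 2) * e1

end Pool.Agent.R532.Wa
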