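import Pool.Agent.R532.Wb3
import Pool.Agent.R532.Wa9

/-!
# Sums of powers with generic real coefficients: almost all numbers
-/

set_option autoImplicit false

namespace Pool.Agent.R532.Wa

open MeasureTheory Finset Filter Topology

lemma conv (k S : ℕ) (hk : 1 ≤ k) {δ ε Λ : ℝ} (hδ : 0 < δ) (hδε : 3 * δ ≤ k * ε) (hΛ1 : 1 ≤ Λ) :
    ∀ᶠ N : ℝ in atTop, ∀ j : ℕ, Λ * (3 / 2 * (2 : ℝ) ^ j) ^ k ≤ N → N ≤ Λ * (3 * (2 : ℝ) ^ j) ^ k →
      ((2 : ℝ) ^ j) ^ ((k : ℝ) - (S : ℝ) / 2 + 2 * δ) ≤ N ^ (1 - (S : ℝ) / (2 * k) + ε) := by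
  have hk1 : (1 : ℝ) ≤ k := by exact_mod_cast hk
  have hk0 : (0 : ℝ) < k := by linarith
  have hΛ0 : 0 < Λ := by linarith
  set C : ℝ := Λ * 3 ^ k with hC
  have hC1 : 1 ≤ C := by
    have : (1 : ℝ) ≤ 3 ^ k := one_le_pow₀ (by norm_num)
    rw [hC]
    nlinarith
  set b : ℝ := ((k : ℝ) - (S : ℝ) / 2 + 2 * δ) / k with hb
  filter_upwards [eventually_ge_atTop 1,
    (tendsto_rpow_atTop (show (0 : ℝ) < δ / k by positivity)).eventually
      (eventually_ge_atTop (C ^ |b|))] with N hN2 hN4 j hlo hhi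
  have hN0 : 0 < N := by linarith
  have hhi2 : N ≤ C * ((2 : ℝ) ^ j) ^ k := by
    refine hhi.trans (le_of_eq ?_)
    rw [hC, mul_pow]
    ring
  set m : ℝ := (2 : ℝ) ^ j with hm
  have hm0 : 0 < m := by positivity
  set Y : ℝ := m ^ k with hY
  have hY0 : 0 < Y := by positivity
  have hYN : Y ≤ N := by
    refine le_trans ?_ hlo
    rw [mul_pow]
    have h1 : (1 : ℝ) ≤ (3 / 2) ^ k := one_le_pow₀ (by norm_num)
    have h3 : 1 ≤ Λ * (3 / 2) ^ k := by nlinarith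
    calc Y = 1 * Y := by ring
      _ ≤ (Λ * (3 / 2) ^ k) * Y := mul_le_mul_of_nonneg_right h3 hY0.le
      _ = _ := by ring
  have hmb : m ^ ((k : ℝ) - (S : ℝ) / 2 + 2 * δ) = Y ^ b := by
    rw [hY, ← Real.rpow_natCast, ← Real.rpow_mul hm0.le]
    congr 1
    rw [hb]
    field_simp
  have hYb : Y ^ b ≤ C ^ |b| * N ^ b := by
    rcases le_total 0 b with hb0 | hb0
    · have h1 : Y ^ b ≤ N ^ b := Real.rpow_le_rpow hY0.le hYN hb0
      have h2 : 1 ≤ C ^ |b| := Real.one_le_rpow hC1 (abs_nonneg b)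
      have h3 : 0 < N ^ b := by positivity
      nlinarith
    · have h1 : N / Y ≤ C := by
        rw [div_le_iff₀ hY0]
        exact hhi2
      have h2 : (N / Y) ^ |b| ≤ C ^ |b| := Real.rpow_le_rpow (by positivity) h1 (abs_nonneg b)
      have h3 : Y ^ b = (N / Y) ^ |b| * N ^ b := by
        rw [abs_of_nonpos hb0, Real.div_rpow hN0.le hY0.le, Real.rpow_neg hN0.le,
          Real.rpow_neg hY0.le]
        have := (Real.rpow_pos_of_pos hN0 b).ne'
        have := (Real.rpow_pos_of_pos hY0 b).ne'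
        field_simp
      rw [h3]
      exact mul_le_mul_of_nonneg_right h2 (by positivity)
  rw [hmb]
  calc Y ^ b ≤ C ^ |b| * N ^ b := hYb
    _ ≤ N ^ (δ / k) * N ^ b := mul_le_mul_of_nonneg_right hN4 (by positivity)
    _ = N ^ (δ / k + b) := by rw [← Real.rpow_add hN0]
    _ ≤ _ := by
        refine Real.rpow_le_rpow_of_exponent_le hN2 ?_
        rw [hb]
        have h1 : δ / k + ((k : ℝ) - (S : ℝ) / 2 + 2 * δ) / k =
            1 - (S : ℝ) / (2 * k) + 3 * δ / k := by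
          field_simp
          ring
        rw [h1]
        have h2 : 3 * δ / k ≤ ε := by
          rw [div_le_iff₀ hk0]
          linarith
        linarith

lemma pick (k : ℕ) (hk : 1 ≤ k) {Λ : ℝ} (hΛ1 : 1 ≤ Λ) (j₀ : ℕ) :
    ∀ᶠ X : ℝ in atTop, ∃ j : ℕ, j₀ ≤ j ∧ Λ * (3 / 2 * (2 : ℝ) ^ j) ^ k ≤ X ∧
      X < Λ * (3 * (2 : ℝ) ^ j) ^ k := by
  have hΛ0 : 0 < Λ := by linarith
  filter_upwards [eventually_ge_atTop (Λ * (3 / 2) ^ k),
    eventually_ge_atTop (Λ * (3 * (2 : ℝ) ^ j₀) ^ k)] with N hN1 hN3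
  have hX : 1 ≤ N / (Λ * (3 / 2) ^ k) := by
    rw [le_div_iff₀ (by positivity)]
    linarith
  have hk2 : (1 : ℝ) < 2 ^ k := one_lt_pow₀ (by norm_num) (by omega)
  obtain ⟨j, hj1, hj2⟩ := exists_nat_pow_near hX hk2
  have hpk : ((2 : ℝ) ^ k) ^ j = ((2 : ℝ) ^ j) ^ k := by rw [← pow_mul, ← pow_mul, mul_comm]
  have hlo : Λ * (3 / 2 * (2 : ℝ) ^ j) ^ k ≤ N := by
    rw [le_div_iff₀ (by positivity), hpk] at hj1
    calc Λ * (3 / 2 * (2 : ℝ) ^ j) ^ k = ((2 : ℝ) ^ j) ^ k * (Λ * (3 / 2) ^ k) := by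
          rw [mul_pow]
          ring
      _ ≤ N := hj1
  have hhi : N < Λ * (3 * (2 : ℝ) ^ j) ^ k := by
    rw [div_lt_iff₀ (by positivity), pow_succ, hpk] at hj2
    refine hj2.trans_le (le_of_eq ?_)
    have : (3 : ℝ) ^ k = 2 ^ k * (3 / 2) ^ k := by
      rw [← mul_pow]
      norm_num
    rw [mul_pow, this]
    ring
  refine ⟨j, ?_, hlo, hhi⟩
  by_contra hlt
  push Not at hlt
  have h1 : (2 : ℝ) ^ j ≤ 2 ^ j₀ := pow_le_pow_right₀ (by norm_num) hlt.le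
  have h2 : Λ * (3 * (2 : ℝ) ^ j) ^ k ≤ Λ * (3 * (2 : ℝ) ^ j₀) ^ k := by gcongr
  linarith

/-- the real numbers in `[X, 2 X]` far from all values of `∑ l i * x i ^ k` -/
def farSet (k s : ℕ) (l : Fin s → ℝ) (ε X : ℝ) : Set ℝ :=
  {N : ℝ | X ≤ N ∧ N ≤ 2 * X ∧ ∀ x : Fin s → ℕ, (∀ i, 0 < x i) →
    N ^ (1 - (s : ℝ) / k + ε) < |∑ i, l i * (x i : ℝ) ^ k - N|}

/-- almost all large numbers are near a value -/
def GoodAA (k s : ℕ) (l : Fin s → ℝ) : Prop :=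
  ∀ ε : ℝ, 0 < ε → ∃ κ : ℝ, 0 < κ ∧ ∀ᶠ X : ℝ in atTop,
    volume (farSet k s l ε X) ≤ ENNReal.ofReal (X ^ (1 - κ))

theorem aa_one (k s : ℕ) (hk : 1 ≤ k) (hs : 2 ≤ s) {ε : ℝ} (hε : 0 < ε) :
    ∃ κ : ℝ, 0 < κ ∧ ∀ᵐ l ∂(μs s), ∀ᶠ X : ℝ in atTop,
      volume (farSet k s l ε X) ≤ ENNReal.ofReal (X ^ (1 - κ)) := by
  have hk1 : (1 : ℝ) ≤ k := by exact_mod_cast hk
  have hk0 : (0 : ℝ) < k := by linarith
  have hs2 : (2 : ℝ) ≤ s := by exact_mod_cast hs
  set δ : ℝ := min (1 / 32) (k * ε / 3) with hδd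
  have hδ : 0 < δ := lt_min (by norm_num) (by positivity)
  have hδ1 : δ ≤ 1 / 32 := min_le_left _ _
  have hδε : 3 * δ ≤ k * ε := by
    have := min_le_right (1 / 32 : ℝ) (k * ε / 3)
    rw [← hδd] at this
    linarith
  refine ⟨δ / (4 * k), by positivity, ?_⟩
  obtain ⟨C, hC, hCj⟩ := near2 k s hk hs hδ hδ1
  filter_upwards [ae_J2 k s hk (by omega) hδ hδ1, ae_Icc s] with l hJ hl
  obtain ⟨j₀, hj₀⟩ := eventually_atTop.1 (hJ.and hCj)
  set Λ := ∑ i, l i with hΛ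
  have hΛ1 : (s : ℝ) ≤ Λ := by
    rw [hΛ]
    calc (s : ℝ) = ∑ _i : Fin s, (1 : ℝ) := by simp
      _ ≤ _ := sum_le_sum fun i _ => (hl i).1
  have hΛ1' : 1 ≤ Λ := by linarith
  have hΛ0 : 0 < Λ := by linarith
  obtain ⟨N₁, hN₁⟩ := eventually_atTop.1 (conv k (2 * s) hk hδ hδε hΛ1')
  filter_upwards [pick k hk hΛ1' j₀, eventually_ge_atTop N₁, eventually_ge_atTop 1,
    (tendsto_rpow_atTop (show (0 : ℝ) < δ / (4 * k) by positivity)).eventually
      (eventually_ge_atTop (C * (1 + 2 ^ k)))] with X hX hXN hX1 hX2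
  obtain ⟨j, hj, hlo, hhi⟩ := hX
  have hX0 : 0 < X := by linarith
  set E : ℝ := (k : ℝ) - ((2 * s : ℕ) : ℝ) / 2 + 2 * δ with hE
  have hexp : 1 - ((2 * s : ℕ) : ℝ) / (2 * k) + ε = 1 - (s : ℝ) / k + ε := by
    push_cast
    rw [mul_div_mul_left _ _ (by norm_num : (2 : ℝ) ≠ 0)]
  have hsub : farSet k s l ε X ⊆ badSet k s l ((2 : ℝ) ^ j) E ∪ badSet k s l ((2 : ℝ) ^ (j + 1)) E := by
    intro N hN
    obtain ⟨h1, h2, h3⟩ := hN
    have hcv := hN₁ N (hXN.trans h1)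
    rw [hexp] at hcv
    have e3 : 3 / 2 * (2 : ℝ) ^ (j + 1) = 3 * 2 ^ j := by
      rw [pow_succ]
      ring
    have e4 : (3 * (2 : ℝ) ^ (j + 1)) ^ k = 2 ^ k * (3 * 2 ^ j) ^ k := by
      rw [← mul_pow, pow_succ]
      congr 1
      ring
    rcases le_total N (Λ * (3 * (2 : ℝ) ^ j) ^ k) with h4 | h4
    · left
      refine ⟨hlo.trans h1, h4, fun x hx => ?_⟩
      exact (hcv j (hlo.trans h1) h4).trans_lt (h3 x hx)
    · right
      have h5 : Λ * (3 / 2 * (2 : ℝ) ^ (j + 1)) ^ k ≤ N := by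
        rw [e3]
        exact h4
      have h6 : N ≤ Λ * (3 * (2 : ℝ) ^ (j + 1)) ^ k := by
        rw [e4]
        have h7 : (2 : ℝ) ≤ 2 ^ k := by
          calc (2 : ℝ) = 2 ^ 1 := by ring
            _ ≤ _ := pow_le_pow_right₀ (by norm_num) hk
        have h8 : 0 < Λ * (3 * (2 : ℝ) ^ j) ^ k := by positivity
        have h9 : Λ * (2 ^ k * (3 * (2 : ℝ) ^ j) ^ k) = 2 ^ k * (Λ * (3 * (2 : ℝ) ^ j) ^ k) := by ring
        rw [h9]
        nlinarith
      refine ⟨h5, h6, fun x hx => ?_⟩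
      exact (hcv (j + 1) h5 h6).trans_lt (h3 x hx)
  have hb1 := (hj₀ j hj).2 l hl (hj₀ j hj).1
  have hb2 := (hj₀ (j + 1) (by omega)).2 l hl (hj₀ (j + 1) (by omega)).1
  refine (measure_mono hsub).trans ((measure_union_le _ _).trans ((add_le_add hb1 hb2).trans ?_))
  rw [← ENNReal.ofReal_add (by positivity) (by positivity)]
  refine ENNReal.ofReal_le_ofReal ?_
  set m : ℝ := (2 : ℝ) ^ j with hm
  have hm0 : 0 < m := by positivity
  have hmX : m ^ k ≤ X := by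
    refine le_trans ?_ hlo
    rw [mul_pow]
    have h1 : (1 : ℝ) ≤ (3 / 2) ^ k := one_le_pow₀ (by norm_num)
    have h3 : 1 ≤ Λ * (3 / 2) ^ k := by nlinarith
    calc m ^ k = 1 * m ^ k := by ring
      _ ≤ (Λ * (3 / 2) ^ k) * m ^ k := mul_le_mul_of_nonneg_right h3 (by positivity)
      _ = _ := by ring
  have hexp0 : 0 ≤ 1 - δ / (2 * k) := by
    rw [sub_nonneg, div_le_one (by positivity)]
    linarith
  have hm2 : m ^ ((k : ℝ) - δ / 2) ≤ X ^ (1 - δ / (2 * k)) := by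
    have h1 : m ^ ((k : ℝ) - δ / 2) = (m ^ k) ^ (1 - δ / (2 * k)) := by
      rw [← Real.rpow_natCast, ← Real.rpow_mul hm0.le]
      congr 1
      field_simp
    rw [h1]
    exact Real.rpow_le_rpow (by positivity) hmX hexp0
  have hm3 : ((2 : ℝ) ^ (j + 1)) ^ ((k : ℝ) - δ / 2) ≤ 2 ^ k * m ^ ((k : ℝ) - δ / 2) := by
    have h1 : (2 : ℝ) ^ (j + 1) = 2 * m := by rw [pow_succ]; ring
    rw [h1, Real.mul_rpow (by norm_num) hm0.le]
    refine mul_le_mul_of_nonneg_right ?_ (by positivity)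
    rw [← Real.rpow_natCast]
    exact Real.rpow_le_rpow_of_exponent_le (by norm_num) (by linarith)
  calc C * m ^ ((k : ℝ) - δ / 2) + C * ((2 : ℝ) ^ (j + 1)) ^ ((k : ℝ) - δ / 2)
      ≤ C * m ^ ((k : ℝ) - δ / 2) + C * (2 ^ k * m ^ ((k : ℝ) - δ / 2)) := by gcongr
    _ = (C * (1 + 2 ^ k)) * m ^ ((k : ℝ) - δ / 2) := by ring
    _ ≤ X ^ (δ / (4 * k)) * X ^ (1 - δ / (2 * k)) := by gcongr
    _ = X ^ (1 - δ / (4 * k)) := by
        rw [← Real.rpow_add hX0]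
        congr 1
        field_simp
        ring

lemma farSet_mono (k s : ℕ) (l : Fin s → ℝ) {ε ε' X : ℝ} (h : ε ≤ ε') (hX : 1 ≤ X) :
    farSet k s l ε' X ⊆ farSet k s l ε X := by
  intro N hN
  obtain ⟨h1, h2, h3⟩ := hN
  refine ⟨h1, h2, fun x hx => lt_of_le_of_lt ?_ (h3 x hx)⟩
  exact Real.rpow_le_rpow_of_exponent_le (hX.trans h1) (by linarith)

theorem aa (k s : ℕ) (hk : 1 ≤ k) (hs : 2 ≤ s) : ∀ᵐ l ∂(μs s), GoodAA k s l := by
  choose κ hκ h using fun n : ℕ =>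
    aa_one k s hk hs (Nat.one_div_pos_of_nat (n := n) (α := ℝ))
  filter_upwards [ae_all_iff.2 h] with l hl ε hε
  obtain ⟨n, hn⟩ := exists_nat_one_div_lt hε
  refine ⟨κ n, hκ n, ?_⟩
  filter_upwards [hl n, eventually_ge_atTop 1] with X hX hX1
  exact (measure_mono (farSet_mono k s l hn.le hX1)).trans hX

lemma aa_scale (k s : ℕ) (l : Fin s → ℝ) (c : ℝ) (hc : 0 < c) (q : Fin s → ℕ)
    (hq : ∀ i, 0 < q i) (h : GoodAA k s fun i => (q i : ℝ) ^ k / c * l i) : GoodAA k s l := by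
  intro ε hε
  obtain ⟨κ, hκ, h1⟩ := h (ε / 2) (by linarith)
  refine ⟨κ / 2, by linarith, ?_⟩
  have ht : Tendsto (fun X : ℝ => X / c) atTop atTop := tendsto_id.atTop_div_const hc
  set E : ℝ := 1 - (s : ℝ) / k with hE
  obtain ⟨N₁, hN₁⟩ := eventually_atTop.1 ((eventually_gt_atTop (0 : ℝ)).and
    ((tendsto_rpow_atTop (show (0 : ℝ) < ε / 2 by positivity)).eventually
      (eventually_ge_atTop (c ^ (1 - E - ε / 2)))))
  filter_upwards [ht.eventually h1, eventually_ge_atTop N₁, eventually_gt_atTop 0,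
    (tendsto_rpow_atTop (show (0 : ℝ) < κ / 2 by positivity)).eventually
      (eventually_ge_atTop (c ^ κ))] with X hX hXN hX0 hX2
  have hsub : farSet k s l ε X ⊆
      (fun N => N * c⁻¹) ⁻¹' farSet k s (fun i => (q i : ℝ) ^ k / c * l i) (ε / 2) (X / c) := by
    intro N hN
    obtain ⟨g1, g2, g3⟩ := hN
    obtain ⟨hN0, hN2⟩ := hN₁ N (hXN.trans g1)
    simp only [Set.mem_preimage]
    rw [← div_eq_mul_inv]
    refine ⟨div_le_div_of_nonneg_right g1 hc.le, ?_, fun y hy => ?_⟩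
    · calc N / c ≤ 2 * X / c := div_le_div_of_nonneg_right g2 hc.le
        _ = 2 * (X / c) := by ring
    · have g4 := g3 (fun i => q i * y i) fun i => Nat.mul_pos (hq i) (hy i)
      have e1 : ∑ i, l i * (((q i * y i : ℕ)) : ℝ) ^ k - N =
          c * (∑ i, (q i : ℝ) ^ k / c * l i * (y i : ℝ) ^ k - N / c) := by
        rw [mul_sub, mul_sum]
        congr 1
        · refine sum_congr rfl fun i _ => ?_
          push_cast
          rw [mul_pow]
          field_simp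
        · field_simp
      rw [e1, abs_mul, abs_of_pos hc] at g4
      have e2 : c * (N / c) ^ (E + ε / 2) ≤ N ^ (E + ε) := by
        calc c * (N / c) ^ (E + ε / 2) = c ^ (1 - E - ε / 2) * N ^ (E + ε / 2) := by
              rw [Real.div_rpow hN0.le hc.le]
              have e2 : c ^ (1 - E - ε / 2) = c / c ^ (E + ε / 2) := by
                rw [show 1 - E - ε / 2 = 1 - (E + ε / 2) by ring, Real.rpow_sub hc, Real.rpow_one]
              rw [e2]
              ring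
          _ ≤ N ^ (ε / 2) * N ^ (E + ε / 2) := mul_le_mul_of_nonneg_right hN2 (by positivity)
          _ = N ^ (E + ε) := by
              rw [← Real.rpow_add hN0]
              congr 1
              ring
      exact lt_of_mul_lt_mul_left (e2.trans_lt g4) hc.le
  refine (measure_mono hsub).trans ?_
  rw [Real.volume_preimage_mul_right (inv_ne_zero hc.ne')]
  refine (mul_le_mul_right hX _).trans ?_
  rw [← ENNReal.ofReal_mul (abs_nonneg _), inv_inv, abs_of_pos hc]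
  refine ENNReal.ofReal_le_ofReal ?_
  calc c * (X / c) ^ (1 - κ) = c ^ κ * X ^ (1 - κ) := by
        rw [Real.div_rpow hX0.le hc.le, Real.rpow_sub hc, Real.rpow_one]
        field_simp
    _ ≤ X ^ (κ / 2) * X ^ (1 - κ) := mul_le_mul_of_nonneg_right hX2 (by positivity)
    _ = X ^ (1 - κ / 2) := by
        rw [← Real.rpow_add hX0]
        congr 1
        ring

/-- **Almost all large numbers are near a value, for almost all positive coefficients.** -/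
theorem aa_all (k s : ℕ) (hk : 1 ≤ k) (hs : 2 ≤ s) :
    ∀ᵐ l : Fin s → ℝ, (∀ i, 0 < l i) → GoodAA k s l := by
  have hm : MeasurableSet (Set.univ.pi fun _ : Fin s => Set.Icc (1 : ℝ) 2) :=
    MeasurableSet.univ_pi fun _ => measurableSet_Icc
  have h0 := aa k s hk hs
  rw [← volume_cube] at h0
  have h1 : ∀ᵐ l : Fin s → ℝ, l ∈ (Set.univ.pi fun _ : Fin s => Set.Icc (1 : ℝ) 2) →
      GoodAA k s l := (ae_restrict_iff' hm).1 h0
  have h2 : ∀ a : ℕ × (Fin s → ℕ), ∀ᵐ l : Fin s → ℝ, 0 < a.1 → (∀ i, 0 < a.2 i) →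
      (∀ i, (a.2 i : ℝ) ^ k / a.1 * l i ∈ Set.Icc (1 : ℝ) 2) →
        GoodAA k s fun i => (a.2 i : ℝ) ^ k / a.1 * l i := by
    intro a
    by_cases ha : 0 < a.1 ∧ ∀ i, 0 < a.2 i
    · have h3 := ae_diag s (fun i => (a.2 i : ℝ) ^ k / a.1) (fun i => by
        have h4 : (0 : ℝ) < a.1 := by exact_mod_cast ha.1
        have h5 : (0 : ℝ) < a.2 i := by exact_mod_cast ha.2 i
        positivity) h1
      filter_upwards [h3] with l hl _ _ h6
      exact hl fun i _ => h6 i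
    · refine Eventually.of_forall fun l h4 h5 => absurd ⟨h4, h5⟩ ha
  filter_upwards [ae_all_iff.2 h2] with l hl hl0
  obtain ⟨c, hc, q, hq, hcq⟩ := exists_scale k s hk l hl0
  exact aa_scale k s l c (by exact_mod_cast hc) q hq (hl (c, q) hc hq hcq)

end Pool.Agent.R532.Wa
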