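import Pool.Agent.R532.Wb4

/-!
# Sums of powers with generic real coefficients: counting bounds
-/

set_option autoImplicit false

namespace Pool.Agent.R532.Wa

open MeasureTheory Finset Filter Topology

/-- the real numbers in `[X, 2 X]` within `D` of a value -/
def closeSet (k s : ℕ) (l : Fin s → ℝ) (D X : ℝ) : Set ℝ :=
  {N : ℝ | X ≤ N ∧ N ≤ 2 * X ∧ ∃ x : Fin s → ℕ, |∑ i, l i * (x i : ℝ) ^ k - N| ≤ D}

lemma close_meas (k s : ℕ) (hk : 1 ≤ k) (l : Fin s → ℝ) (hl : ∀ i, 0 < l i) :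
    ∃ C : ℝ, 0 < C ∧ ∀ D X : ℝ, 0 ≤ D → 1 ≤ X → D ≤ 2 * X →
      volume (closeSet k s l D X) ≤ ENNReal.ofReal (C * D * X ^ ((s : ℝ) / k)) := by
  classical
  have hk0 : (0 : ℝ) < k := by exact_mod_cast hk
  obtain ⟨B, hB1, hB⟩ : ∃ B : ℕ, 1 ≤ B ∧ ∀ i, 4 / l i ≤ B := by
    refine ⟨∑ i, ⌈4 / l i⌉₊ + 1, by omega, fun i => ?_⟩
    have h1 : ⌈4 / l i⌉₊ ≤ ∑ i, ⌈4 / l i⌉₊ + 1 :=
      (single_le_sum (f := fun i => ⌈4 / l i⌉₊) (fun _ _ => Nat.zero_le _) (mem_univ i)).trans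
        (Nat.le_succ _)
    exact (Nat.le_ceil _).trans (by exact_mod_cast h1)
  refine ⟨2 * ((B : ℝ) + 1) ^ s, by positivity, fun D X hD hX hDX => ?_⟩
  have hX0 : 0 < X := by linarith
  have hB1' : (1 : ℝ) ≤ B := by exact_mod_cast hB1
  set t : ℝ := X ^ ((k : ℝ)⁻¹) with ht
  have ht1 : 1 ≤ t := Real.one_le_rpow hX (by positivity)
  have htk : t ^ k = X := Real.rpow_inv_natCast_pow hX0.le (by omega)
  set P : Finset (Fin s → ℕ) := Fintype.piFinset fun _ => range (⌊(B : ℝ) * t⌋₊ + 1) with hP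
  have hsub : closeSet k s l D X ⊆ ⋃ x ∈ P, Set.Icc (∑ i, l i * (x i : ℝ) ^ k - D)
      (∑ i, l i * (x i : ℝ) ^ k + D) := by
    intro N hN
    obtain ⟨h1, h2, x, hx⟩ := hN
    have hx' := abs_le.1 hx
    refine Set.mem_iUnion₂.2 ⟨x, ?_, Set.mem_Icc.2 ⟨by linarith, by linarith⟩⟩
    rw [hP, Fintype.mem_piFinset]
    intro i
    rw [mem_range, Nat.lt_succ_iff]
    refine Nat.le_floor ?_
    refine (pow_le_pow_iff_left₀ (by positivity) (by positivity) (by omega : k ≠ 0)).1 ?_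
    rw [mul_pow, htk]
    have h3 : l i * (x i : ℝ) ^ k ≤ ∑ i, l i * (x i : ℝ) ^ k :=
      single_le_sum (f := fun i => l i * (x i : ℝ) ^ k)
        (fun i _ => by have := hl i; positivity) (mem_univ i)
    have h4 : l i * (x i : ℝ) ^ k ≤ 4 * X := by linarith
    have h5 := hB i
    rw [div_le_iff₀ (hl i)] at h5
    have h6 : (B : ℝ) ≤ (B : ℝ) ^ k := by
      calc (B : ℝ) = (B : ℝ) ^ 1 := by ring
        _ ≤ _ := pow_le_pow_right₀ hB1' hk
    have h7 : l i * (x i : ℝ) ^ k ≤ l i * (B * X) := by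
      calc l i * (x i : ℝ) ^ k ≤ 4 * X := h4
        _ ≤ (B * l i) * X := mul_le_mul_of_nonneg_right h5 hX0.le
        _ = _ := by ring
    have h8 : (x i : ℝ) ^ k ≤ B * X := le_of_mul_le_mul_left h7 (hl i)
    exact h8.trans (mul_le_mul_of_nonneg_right h6 hX0.le)
  refine (measure_mono hsub).trans ((measure_biUnion_finset_le _ _).trans ?_)
  simp only [Real.volume_Icc]
  have e1 : ∀ x : Fin s → ℕ, ∑ i, l i * (x i : ℝ) ^ k + D - (∑ i, l i * (x i : ℝ) ^ k - D) =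
      2 * D := fun x => by ring
  simp only [e1]
  rw [sum_const, ← ENNReal.ofReal_nsmul]
  refine ENNReal.ofReal_le_ofReal ?_
  rw [nsmul_eq_mul, hP, Fintype.card_piFinset, prod_const, card_range, card_univ,
    Fintype.card_fin]
  push_cast
  have e2 : (⌊(B : ℝ) * t⌋₊ : ℝ) + 1 ≤ (B + 1) * t := by
    have := Nat.floor_le (show 0 ≤ (B : ℝ) * t by positivity)
    linarith
  have e3 : ((⌊(B : ℝ) * t⌋₊ : ℝ) + 1) ^ s ≤ ((B + 1) * t) ^ s :=
    pow_le_pow_left₀ (by positivity) e2 s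
  have e4 : t ^ s = X ^ ((s : ℝ) / k) := by
    rw [ht, ← Real.rpow_natCast, ← Real.rpow_mul hX0.le]
    congr 1
    field_simp
  calc ((⌊(B : ℝ) * t⌋₊ : ℝ) + 1) ^ s * (2 * D) ≤ ((B + 1) * t) ^ s * (2 * D) := by gcongr
    _ = 2 * ((B : ℝ) + 1) ^ s * D * X ^ ((s : ℝ) / k) := by
        rw [mul_pow, e4]
        ring

/-- with at most `k` variables at least half of the numbers stay away from the values -/
theorem close_small (k s : ℕ) (hk : 1 ≤ k) (hs : s ≤ k) (l : Fin s → ℝ) (hl : ∀ i, 0 < l i) :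
    ∃ D : ℝ, 0 < D ∧ ∀ᶠ X : ℝ in atTop,
      volume (closeSet k s l D X) ≤ ENNReal.ofReal (X / 2) := by
  obtain ⟨C, hC, h⟩ := close_meas k s hk l hl
  have hk0 : (0 : ℝ) < k := by exact_mod_cast hk
  refine ⟨1 / (2 * C), by positivity, ?_⟩
  filter_upwards [eventually_ge_atTop 1, eventually_ge_atTop (1 / (2 * C))] with X hX hX2
  refine (h (1 / (2 * C)) X (by positivity) hX (by linarith)).trans (ENNReal.ofReal_le_ofReal ?_)
  have h1 : X ^ ((s : ℝ) / k) ≤ X := by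
    calc X ^ ((s : ℝ) / k) ≤ X ^ (1 : ℝ) := by
          refine Real.rpow_le_rpow_of_exponent_le hX ?_
          rw [div_le_one hk0]
          exact_mod_cast hs
      _ = X := Real.rpow_one X
  have h2 : C * (1 / (2 * C)) = 1 / 2 := by field_simp
  rw [h2]
  linarith

/-- the exponent `1 - s / k` cannot be lowered -/
theorem close_sharp (k s : ℕ) (hk : 1 ≤ k) (hs : 1 ≤ s) (l : Fin s → ℝ) (hl : ∀ i, 0 < l i)
    {ε : ℝ} (hε : 0 < ε) : ∀ᶠ X : ℝ in atTop,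
      volume {N : ℝ | X ≤ N ∧ N ≤ 2 * X ∧ ∃ x : Fin s → ℕ,
        |∑ i, l i * (x i : ℝ) ^ k - N| ≤ N ^ (1 - (s : ℝ) / k - ε)} ≤
          ENNReal.ofReal (X ^ (1 - ε / 2)) := by
  obtain ⟨C, hC, h⟩ := close_meas k s hk l hl
  have hk0 : (0 : ℝ) < k := by exact_mod_cast hk
  have hs0 : (0 : ℝ) < s := by exact_mod_cast hs
  have hsk : 0 < (s : ℝ) / k := by positivity
  set e : ℝ := 1 - (s : ℝ) / k - ε with he
  have he1 : 0 < 1 - e := by rw [he]; linarith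
  filter_upwards [eventually_ge_atTop 1,
    (tendsto_rpow_atTop he1).eventually (eventually_ge_atTop (2 ^ |e|)),
    (tendsto_rpow_atTop (show (0 : ℝ) < ε / 2 by positivity)).eventually
      (eventually_ge_atTop (C * 2 ^ |e|))] with X hX hX2 hX3
  have hX0 : 0 < X := by linarith
  have hD : ∀ N : ℝ, X ≤ N → N ≤ 2 * X → N ^ e ≤ 2 ^ |e| * X ^ e := by
    intro N h1 h2
    have hN0 : 0 < N := by linarith
    rcases le_total 0 e with h3 | h3
    · rw [abs_of_nonneg h3, ← Real.mul_rpow (by norm_num) hX0.le]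
      exact Real.rpow_le_rpow hN0.le h2 h3
    · have h4 : N ^ e ≤ X ^ e := Real.rpow_le_rpow_of_nonpos hX0 h1 h3
      have h5 : (1 : ℝ) ≤ 2 ^ |e| := Real.one_le_rpow (by norm_num) (abs_nonneg e)
      have h6 : 0 < X ^ e := by positivity
      nlinarith
  have hsub : {N : ℝ | X ≤ N ∧ N ≤ 2 * X ∧ ∃ x : Fin s → ℕ,
      |∑ i, l i * (x i : ℝ) ^ k - N| ≤ N ^ e} ⊆ closeSet k s l (2 ^ |e| * X ^ e) X := by
    rintro N ⟨h1, h2, x, hx⟩
    exact ⟨h1, h2, x, hx.trans (hD N h1 h2)⟩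
  have hDX : 2 ^ |e| * X ^ e ≤ 2 * X := by
    calc 2 ^ |e| * X ^ e ≤ X ^ (1 - e) * X ^ e := by gcongr
      _ = X := by
          rw [← Real.rpow_add hX0]
          simp
      _ ≤ 2 * X := by linarith
  refine (measure_mono hsub).trans ((h _ X (by positivity) hX hDX).trans
    (ENNReal.ofReal_le_ofReal ?_))
  calc C * (2 ^ |e| * X ^ e) * X ^ ((s : ℝ) / k) = (C * 2 ^ |e|) * (X ^ e * X ^ ((s : ℝ) / k)) := by
        ring
    _ = (C * 2 ^ |e|) * X ^ (1 - ε) := by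
        rw [← Real.rpow_add hX0]
        congr 2
        rw [he]
        ring
    _ ≤ X ^ (ε / 2) * X ^ (1 - ε) := by gcongr
    _ = X ^ (1 - ε / 2) := by
        rw [← Real.rpow_add hX0]
        congr 1
        ring

/-- the positive integers up to `Y` of the form `⌊∑ l i * x i ^ k⌋`, `x i` positive -/
def floorValues (k s : ℕ) (l : Fin s → ℝ) (Y : ℝ) : Set ℕ :=
  {n : ℕ | 0 < n ∧ (n : ℝ) ≤ Y ∧ ∃ x : Fin s → ℕ, (∀ i, 0 < x i) ∧
    ⌊∑ i, l i * (x i : ℝ) ^ k⌋₊ = n}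

lemma floorValues_finite (k s : ℕ) (l : Fin s → ℝ) (Y : ℝ) : (floorValues k s l Y).Finite := by
  refine (Set.finite_Iic ⌊Y⌋₊).subset fun n hn => ?_
  exact Nat.le_floor hn.2.1

/-- **The count of the integer parts has the expected exponent.** -/
theorem count_floor (k s : ℕ) (hk : 1 ≤ k) (hs : 1 ≤ s) (hsk : s ≤ k) (l : Fin s → ℝ)
    (h : GoodAA k s l) {ε : ℝ} (hε : 0 < ε) : ∀ᶠ Y : ℝ in atTop,
      Y ^ ((s : ℝ) / k - ε) ≤ (floorValues k s l Y).ncard := by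
  have hk0 : (0 : ℝ) < k := by exact_mod_cast hk
  have hs0 : (0 : ℝ) < s := by exact_mod_cast hs
  have hsk0 : 0 < (s : ℝ) / k := by positivity
  have hsk1 : (s : ℝ) / k ≤ 1 := by
    rw [div_le_one hk0]
    exact_mod_cast hsk
  set ε₁ : ℝ := min ε ((s : ℝ) / k) with hε₁
  have hε₁0 : 0 < ε₁ := lt_min hε hsk0
  have hε₁1 : ε₁ ≤ ε := min_le_left _ _
  have hε₁2 : ε₁ ≤ (s : ℝ) / k := min_le_right _ _
  obtain ⟨κ, hκ, hκX⟩ := h (ε₁ / 2) (by linarith)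
  set a : ℝ := 1 - (s : ℝ) / k + ε₁ / 2 with ha
  have ha0 : 0 ≤ a := by rw [ha]; linarith
  have ha1 : 0 < 1 - a := by rw [ha]; linarith
  have ha2 : a ≤ 1 := by linarith
  have ht : Tendsto (fun Y : ℝ => Y / 3) atTop atTop := tendsto_id.atTop_div_const (by norm_num)
  have ev : ∀ᶠ X : ℝ in atTop, 4 ≤ X ∧ volume (farSet k s l (ε₁ / 2) X) ≤
      ENNReal.ofReal (X ^ (1 - κ)) ∧ 2 ≤ X ^ κ ∧ 4 ≤ X ^ (1 - a) ∧ 36 ≤ X ^ (ε₁ / 2) := by
    filter_upwards [eventually_ge_atTop 4, hκX,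
      (tendsto_rpow_atTop hκ).eventually (eventually_ge_atTop 2),
      (tendsto_rpow_atTop ha1).eventually (eventually_ge_atTop 4),
      (tendsto_rpow_atTop (show (0 : ℝ) < ε₁ / 2 by positivity)).eventually
        (eventually_ge_atTop 36)] with X h1 h2 h3 h4 h5
    exact ⟨h1, h2, h3, h4, h5⟩
  filter_upwards [ht.eventually ev, eventually_ge_atTop 1] with Y hY hY1
  obtain ⟨hX4, hfar, hXκ, hXa, hXε⟩ := hY
  set X : ℝ := Y / 3 with hX
  have hYX : Y = 3 * X := by rw [hX]; ring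
  have hX0 : 0 < X := by linarith
  have hX1 : 1 ≤ X := by linarith
  set W : ℝ := 2 * X ^ a with hW
  have hXa1 : 1 ≤ X ^ a := Real.one_le_rpow hX1 ha0
  have hW1 : 1 ≤ W := by linarith
  have hXX : X ^ a * X ^ (1 - a) = X := by
    rw [← Real.rpow_add hX0]
    simp
  have hWX : 2 * W ≤ X := by
    rw [hW]
    nlinarith
  set Z := floorValues k s l Y with hZ
  have hZf : Z.Finite := floorValues_finite k s l Y
  have hNW : ∀ N : ℝ, X ≤ N → N ≤ 2 * X → N ^ a ≤ W := by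
    intro N h1 h2
    calc N ^ a ≤ (2 * X) ^ a := Real.rpow_le_rpow (by linarith) h2 ha0
      _ = 2 ^ a * X ^ a := Real.mul_rpow (by norm_num) hX0.le
      _ ≤ 2 * X ^ a := by
          refine mul_le_mul_of_nonneg_right ?_ (by positivity)
          calc (2 : ℝ) ^ a ≤ 2 ^ (1 : ℝ) := Real.rpow_le_rpow_of_exponent_le (by norm_num) ha2
            _ = 2 := Real.rpow_one 2
  have hcover : Set.Icc X (2 * X) ⊆ farSet k s l (ε₁ / 2) X ∪
      ⋃ n ∈ hZf.toFinset, Set.Icc ((n : ℝ) - W) ((n : ℝ) + 1 + W) := by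
    intro N hN
    obtain ⟨h1, h2⟩ := Set.mem_Icc.1 hN
    by_cases hfr : N ∈ farSet k s l (ε₁ / 2) X
    · exact Or.inl hfr
    · right
      have h3 : ¬ ∀ x : Fin s → ℕ, (∀ i, 0 < x i) → N ^ a < |∑ i, l i * (x i : ℝ) ^ k - N| :=
        fun h4 => hfr ⟨h1, h2, h4⟩
      push Not at h3
      obtain ⟨x, hx, hxN⟩ := h3
      have h5 := abs_le.1 (hxN.trans (hNW N h1 h2))
      set V : ℝ := ∑ i, l i * (x i : ℝ) ^ k with hV
      have hV2 : 2 ≤ V := by linarith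
      have hV0 : 0 ≤ V := by linarith
      have h6 : (⌊V⌋₊ : ℝ) ≤ V := Nat.floor_le hV0
      have h7 : V < ⌊V⌋₊ + 1 := Nat.lt_floor_add_one V
      refine Set.mem_iUnion₂.2 ⟨⌊V⌋₊, ?_, Set.mem_Icc.2 ⟨by linarith, by linarith⟩⟩
      rw [Set.Finite.mem_toFinset]
      refine ⟨?_, by linarith, x, hx, rfl⟩
      have h8 : (1 : ℝ) < ⌊V⌋₊ + 1 - 0 := by linarith
      have h9 : (0 : ℝ) < (⌊V⌋₊ : ℝ) := by linarith
      exact_mod_cast h9
  have hmeas := measure_mono (μ := (volume : Measure ℝ)) hcover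
  have hmeas2 := hmeas.trans ((measure_union_le _ _).trans (add_le_add hfar
    (measure_biUnion_finset_le _ _)))
  simp only [Real.volume_Icc] at hmeas2
  have e1 : ∀ n : ℕ, (n : ℝ) + 1 + W - (n - W) = 2 * W + 1 := fun n => by ring
  simp only [e1] at hmeas2
  have p1 : 0 ≤ X ^ (1 - κ) := Real.rpow_nonneg hX0.le _
  have p2 : 0 ≤ (hZf.toFinset.card : ℝ) * (2 * W + 1) :=
    mul_nonneg (Nat.cast_nonneg _) (by linarith)
  rw [sum_const, ← ENNReal.ofReal_nsmul, nsmul_eq_mul, ← ENNReal.ofReal_add p1 p2,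
    ENNReal.ofReal_le_ofReal_iff (add_nonneg p1 p2),
    ← Set.ncard_eq_toFinset_card Z hZf] at hmeas2
  have e2 : X ^ (1 - κ) ≤ X / 2 := by
    rw [Real.rpow_sub hX0, Real.rpow_one]
    exact div_le_div_of_nonneg_left hX0.le (by norm_num) hXκ
  have e3 : X / 2 ≤ Z.ncard * (3 * W) := by
    have e4 : (Z.ncard : ℝ) * (2 * W + 1) ≤ Z.ncard * (3 * W) :=
      mul_le_mul_of_nonneg_left (by linarith) (by positivity)
    linarith
  have e5 : X ^ (1 - a) ≤ 12 * Z.ncard := by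
    have e6 : X ^ a * X ^ (1 - a) ≤ X ^ a * (12 * Z.ncard) := by
      rw [hXX]
      calc X = 2 * (X / 2) := by ring
        _ ≤ 2 * (Z.ncard * (3 * W)) := by linarith
        _ = _ := by rw [hW]; ring
    exact le_of_mul_le_mul_left e6 (by positivity)
  have e7 : 1 - a = ((s : ℝ) / k - ε₁) + ε₁ / 2 := by rw [ha]; ring
  rw [e7, Real.rpow_add hX0] at e5
  have e8 : Y ^ ((s : ℝ) / k - ε) ≤ Y ^ ((s : ℝ) / k - ε₁) :=
    Real.rpow_le_rpow_of_exponent_le hY1 (by linarith)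
  have e9 : Y ^ ((s : ℝ) / k - ε₁) ≤ 3 * X ^ ((s : ℝ) / k - ε₁) := by
    rw [hYX, Real.mul_rpow (by norm_num) hX0.le]
    refine mul_le_mul_of_nonneg_right ?_ (by positivity)
    calc (3 : ℝ) ^ ((s : ℝ) / k - ε₁) ≤ 3 ^ (1 : ℝ) :=
          Real.rpow_le_rpow_of_exponent_le (by norm_num) (by linarith)
      _ = 3 := Real.rpow_one 3
  have e10 : 0 < X ^ ((s : ℝ) / k - ε₁) := by positivity
  nlinarith

end Pool.Agent.R532.Wa
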