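import Pool.Agent.R532.Wb5

/-!
# Sums of powers with generic real coefficients: the exact number of terms for almost all numbers
-/

set_option autoImplicit false

namespace Pool.Agent.R532.Wa

open MeasureTheory Finset Filter Topology

/-- the real numbers in `[X, 2 X]` farther than `δ` from all values of
`l 0 * x 0 ^ k + ... + l (s - 1) * x (s - 1) ^ k` at positive integers -/
def missed (k s : ℕ) (l : ℕ → ℝ) (δ X : ℝ) : Set ℝ :=
  {N : ℝ | X ≤ N ∧ N ≤ 2 * X ∧ ∀ x : Fin s → ℕ, (∀ i, 0 < x i) →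
    δ < |∑ i : Fin s, l i * (x i : ℝ) ^ k - N|}

/-- almost all large real numbers are arbitrarily close to values of
`l 0 * x 0 ^ k + ... + l (s - 1) * x (s - 1) ^ k` at positive integers -/
def ReachAA (k : ℕ) (l : ℕ → ℝ) (s : ℕ) : Prop :=
  ∀ δ : ℝ, 0 < δ → Tendsto (fun X : ℝ => (volume (missed k s l δ X)).toReal / X) atTop (𝓝 0)

/-- the least `s` with `ReachAA k l s` (`0` if there is none) -/
noncomputable def genG1 (k : ℕ) (l : ℕ → ℝ) : ℕ := sInf {s | ReachAA k l s}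

lemma reachAA_of_good (k s : ℕ) (hk : 1 ≤ k) (hs : k + 1 ≤ s) (l : ℕ → ℝ)
    (h : GoodAA k s fun i : Fin s => l i) : ReachAA k l s := by
  intro δ hδ
  have hk0 : (0 : ℝ) < k := by exact_mod_cast hk
  have hs0 : (k : ℝ) + 1 ≤ s := by exact_mod_cast hs
  set E : ℝ := (s : ℝ) / k - 1 with hE
  have hE0 : 0 < E := by
    rw [hE, sub_pos, lt_div_iff₀ hk0]
    linarith
  obtain ⟨κ, hκ, hκX⟩ := h (E / 2) (by linarith)
  have h2 : Tendsto (fun N : ℝ => N ^ (-(E / 2))) atTop (𝓝 0) := tendsto_rpow_neg_atTop (by linarith)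
  have h3 : Tendsto (fun X : ℝ => X ^ (-κ)) atTop (𝓝 0) := tendsto_rpow_neg_atTop hκ
  refine squeeze_zero' ?_ ?_ h3
  · filter_upwards [eventually_gt_atTop 0] with X hX
    positivity
  · filter_upwards [hκX, eventually_gt_atTop 0, h2.eventually (gt_mem_nhds hδ)] with X hX hX0 hXδ
    have hsub : missed k s l δ X ⊆ farSet k s (fun i : Fin s => l i) (E / 2) X := by
      rintro N ⟨g1, g2, g3⟩
      refine ⟨g1, g2, fun x hx => lt_of_le_of_lt ?_ (g3 x hx)⟩
      have e1 : 1 - (s : ℝ) / k + E / 2 = -(E / 2) := by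
        rw [hE]
        ring
      rw [e1]
      exact (Real.rpow_le_rpow_of_nonpos hX0 g1 (by linarith)).trans hXδ.le
    have h4 := (measure_mono hsub).trans hX
    have h5 : (volume (missed k s l δ X)).toReal ≤ X ^ (1 - κ) :=
      ENNReal.toReal_le_of_le_ofReal (by positivity) h4
    rw [div_le_iff₀ hX0]
    refine h5.trans (le_of_eq ?_)
    rw [show 1 - κ = -κ + 1 by ring, Real.rpow_add hX0, Real.rpow_one]

lemma not_reachAA (k s : ℕ) (hk : 1 ≤ k) (hs : s ≤ k) (l : ℕ → ℝ) (hl : ∀ i, 0 < l i) :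
    ¬ ReachAA k l s := by
  intro h
  obtain ⟨D, hD, hlow⟩ := close_small k s hk hs (fun i : Fin s => l i) fun i => hl i
  obtain ⟨X, h1, h2, h3⟩ := (hlow.and (((h D hD).eventually
    (gt_mem_nhds (by norm_num : (0 : ℝ) < 1 / 4))).and (eventually_gt_atTop 0))).exists
  have hfin : volume (missed k s l D X) ≠ ⊤ := by
    refine ne_top_of_le_ne_top ?_ (measure_mono (show missed k s l D X ⊆ Set.Icc X (2 * X) from
      fun N hN => ⟨hN.1, hN.2.1⟩))
    rw [Real.volume_Icc]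
    exact ENNReal.ofReal_ne_top
  rw [div_lt_iff₀ h3] at h2
  have h4 : volume (missed k s l D X) ≤ ENNReal.ofReal (1 / 4 * X) := by
    rw [← ENNReal.ofReal_toReal hfin]
    exact ENNReal.ofReal_le_ofReal h2.le
  have hcover : Set.Icc X (2 * X) ⊆ closeSet k s (fun i : Fin s => l i) D X ∪ missed k s l D X := by
    intro N hN
    obtain ⟨g1, g2⟩ := Set.mem_Icc.1 hN
    by_cases hfr : N ∈ missed k s l D X
    · exact Or.inr hfr
    · left
      have g3 : ¬ ∀ x : Fin s → ℕ, (∀ i, 0 < x i) →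
          D < |∑ i : Fin s, l i * (x i : ℝ) ^ k - N| := fun g4 => hfr ⟨g1, g2, g4⟩
      push Not at g3
      obtain ⟨x, _, hx⟩ := g3
      exact ⟨g1, g2, x, hx⟩
  have h5 := (measure_mono (μ := (volume : Measure ℝ)) hcover).trans
    ((measure_union_le _ _).trans (add_le_add h1 h4))
  rw [Real.volume_Icc, ← ENNReal.ofReal_add (by positivity) (by positivity),
    ENNReal.ofReal_le_ofReal_iff (by positivity)] at h5
  linarith

theorem aa_seq : ∀ᵐ l ∂seqLaw, (∀ i, 1 ≤ l i) ∧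
    ∀ k s : ℕ, 1 ≤ k → 2 ≤ s → GoodAA k s fun i : Fin s => l i := by
  have hmeas : ∀ s : ℕ, AEMeasurable (fun (l : ℕ → ℝ) (i : Fin s) => l i) seqLaw := fun s =>
    (measurable_pi_lambda _ fun i => measurable_pi_apply _).aemeasurable
  have h1 : ∀ a : ℕ × ℕ, ∀ᵐ l ∂seqLaw, 1 ≤ a.1 → 2 ≤ a.2 →
      GoodAA a.1 a.2 fun i : Fin a.2 => l i := by
    intro a
    by_cases ha : 1 ≤ a.1 ∧ 2 ≤ a.2
    · have h2 : ∀ᵐ l ∂(μs a.2), GoodAA a.1 a.2 l := aa a.1 a.2 ha.1 ha.2
      rw [← map_seqLaw] at h2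
      filter_upwards [ae_of_ae_map (hmeas a.2) h2] with l hl _ _
      exact hl
    · exact Eventually.of_forall fun l h2 h3 => absurd ⟨h2, h3⟩ ha
  have h3 : ∀ j : ℕ, ∀ᵐ l ∂seqLaw, 1 ≤ l j := by
    intro j
    have h4 := ae_Icc (j + 1)
    rw [← map_seqLaw] at h4
    filter_upwards [ae_of_ae_map (hmeas (j + 1)) h4] with l hl
    exact (hl ⟨j, by omega⟩).1
  filter_upwards [ae_all_iff.2 h1, ae_all_iff.2 h3] with l hl hl2
  exact ⟨hl2, fun k s hk hs => hl (k, s) hk hs⟩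

/-- **Exactly `k + 1` terms for almost all numbers.** -/
theorem seq_main_aa : ∀ᵐ l ∂seqLaw, ∀ k : ℕ, 1 ≤ k →
    (∀ s, k + 1 ≤ s → ReachAA k l s) ∧ (∀ s, s ≤ k → ¬ ReachAA k l s) ∧ genG1 k l = k + 1 := by
  filter_upwards [aa_seq] with l hl k hk
  have h1 : ∀ s, k + 1 ≤ s → ReachAA k l s := fun s hs =>
    reachAA_of_good k s hk hs l (hl.2 k s hk (by omega))
  have h2 : ∀ s, s ≤ k → ¬ ReachAA k l s := fun s hs =>
    not_reachAA k s hk hs l fun i => by linarith [hl.1 i]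
  refine ⟨h1, h2, le_antisymm (Nat.sInf_le (h1 _ le_rfl)) ?_⟩
  by_contra hlt
  push Not at hlt
  have h3 : ReachAA k l (genG1 k l) :=
    Nat.sInf_mem (s := {s | ReachAA k l s}) ⟨k + 1, h1 _ le_rfl⟩
  exact h2 _ (by omega) h3

end Pool.Agent.R532.Wa
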