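import Pool.Agent.R532.Wb5

/-!
# Sums of powers with generic real coefficients: pairs with close values
-/

set_option autoImplicit false

namespace Pool.Agent.R532.Wa

open MeasureTheory Finset Filter Topology

lemma slice (a b K : ℝ) (ha : a ≠ 0) : ν {t | |a * t + b| < K} ≤ ENNReal.ofReal (2 * K / |a|) := by
  have ha0 : 0 < |a| := abs_pos.2 ha
  have h1 : {t | |a * t + b| < K} ⊆ Metric.ball (-b / a) (K / |a|) := by
    intro t ht
    rw [Metric.mem_ball, Real.dist_eq, lt_div_iff₀ ha0, ← abs_mul]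
    have e1 : (t - -b / a) * a = a * t + b := by
      field_simp
      ring
    rw [e1]
    exact ht
  unfold ν
  refine (Measure.restrict_apply_le _ _).trans ((measure_mono h1).trans ?_)
  rw [Real.volume_ball]
  refine ENNReal.ofReal_le_ofReal (le_of_eq ?_)
  ring

lemma continuous_VV (k s : ℕ) (x : Fin s → ℕ) : Continuous fun l : Fin s → ℝ => VV k s l x := by
  unfold VV
  fun_prop

/-- the coefficients for which `x` and `y` have close values -/
def closeCoeff (k s : ℕ) (x y : Fin s → ℕ) : Set (Fin s → ℝ) := {l | |VV k s l x - VV k s l y| < 1}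

lemma measurable_close (k s : ℕ) (x y : Fin s → ℕ) : MeasurableSet (closeCoeff k s x y) := by
  unfold closeCoeff
  have h1 : Continuous fun l : Fin s → ℝ => |VV k s l x - VV k s l y| :=
    ((continuous_VV k s x).sub (continuous_VV k s y)).abs
  exact (isOpen_lt h1 continuous_const).measurableSet

lemma meas_pair (k n : ℕ) (x y : Fin (n + 1) → ℕ) (i : Fin (n + 1))
    (hi : (x i : ℝ) ^ k - (y i : ℝ) ^ k ≠ 0) :
    μs (n + 1) (closeCoeff k (n + 1) x y) ≤ ENNReal.ofReal (2 / |(x i : ℝ) ^ k - (y i : ℝ) ^ k|) := by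
  have hmp := measurePreserving_piFinSuccAbove (fun _ : Fin (n + 1) => ν) i
  have hS := measurable_close k (n + 1) x y
  have e1 : μs (n + 1) (closeCoeff k (n + 1) x y) =
      (ν.prod (Measure.pi fun _ : Fin n => ν))
        ((MeasurableEquiv.piFinSuccAbove (fun _ => ℝ) i).symm ⁻¹' closeCoeff k (n + 1) x y) := by
    unfold μs
    exact ((hmp.symm (MeasurableEquiv.piFinSuccAbove (fun _ => ℝ) i)).measure_preimage
      hS.nullMeasurableSet).symm
  rw [e1, Measure.prod_apply_symm ((MeasurableEquiv.measurable _) hS)]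
  have h2 : ∀ z : Fin n → ℝ, ν ((fun t => (t, z)) ⁻¹'
      ((MeasurableEquiv.piFinSuccAbove (fun _ => ℝ) i).symm ⁻¹' closeCoeff k (n + 1) x y)) ≤
        ENNReal.ofReal (2 / |(x i : ℝ) ^ k - (y i : ℝ) ^ k|) := by
    intro z
    have h3 := slice ((x i : ℝ) ^ k - (y i : ℝ) ^ k)
      (∑ j : Fin n, z j * (x (i.succAbove j) : ℝ) ^ k -
        ∑ j : Fin n, z j * (y (i.succAbove j) : ℝ) ^ k) 1 hi
    rw [mul_one] at h3
    refine (measure_mono ?_).trans h3
    intro t ht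
    simp only [Set.mem_preimage, closeCoeff, Set.mem_setOf_eq, VV] at ht
    have e2 : ∀ w : Fin (n + 1) → ℕ,
        ∑ j, (MeasurableEquiv.piFinSuccAbove (fun _ => ℝ) i).symm (t, z) j * (w j : ℝ) ^ k =
          t * (w i : ℝ) ^ k + ∑ j : Fin n, z j * (w (i.succAbove j) : ℝ) ^ k := by
      intro w
      rw [Fin.sum_univ_succAbove _ i]
      simp [MeasurableEquiv.piFinSuccAbove]
    rw [e2 x, e2 y] at ht
    simp only [Set.mem_setOf_eq]
    refine lt_of_eq_of_lt ?_ ht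
    congr 1
    ring
  refine (lintegral_mono h2).trans ?_
  rw [lintegral_const, measure_univ, mul_one]

lemma meas_pair' (k s M : ℕ) (hk : 1 ≤ k) (hM : 1 ≤ M) (x y : Fin s → ℕ) (hx : x ∈ XX M s)
    (hy : y ∈ XX M s) (hxy : x ≠ y) :
    μs s (closeCoeff k s x y) ≤
      ENNReal.ofReal (∑ i, if x i = y i then 0 else
        2 / (M : ℝ) ^ (k - 1) * (1 / |(x i : ℝ) - y i|)) := by
  obtain ⟨i, hi⟩ := Function.ne_iff.1 hxy
  obtain ⟨n, rfl⟩ : ∃ n, s = n + 1 := ⟨s - 1, by have := i.pos; omega⟩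
  have hM0 : (0 : ℝ) < M := by exact_mod_cast hM
  have hxM : M ≤ x i := (mem_Ioc.1 ((Fintype.mem_piFinset.1 hx) i)).1.le
  have hyM : M ≤ y i := (mem_Ioc.1 ((Fintype.mem_piFinset.1 hy) i)).1.le
  have h1 := pow_gap k M (x i) (y i) hk hxM hyM
  have h2 : (0 : ℝ) < |(x i : ℝ) - y i| := by
    rw [abs_pos, sub_ne_zero]
    exact_mod_cast hi
  have h3 : 0 < |(x i : ℝ) - y i| * (M : ℝ) ^ (k - 1) := by positivity
  have h4 : 0 < |(x i : ℝ) ^ k - (y i : ℝ) ^ k| := h3.trans_le h1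
  refine (meas_pair k n x y i (abs_pos.1 h4)).trans (ENNReal.ofReal_le_ofReal ?_)
  calc 2 / |(x i : ℝ) ^ k - (y i : ℝ) ^ k| ≤ 2 / (|(x i : ℝ) - y i| * (M : ℝ) ^ (k - 1)) :=
        div_le_div_of_nonneg_left (by norm_num) h3 h1
    _ = (if x i = y i then 0 else 2 / (M : ℝ) ^ (k - 1) * (1 / |(x i : ℝ) - y i|)) := by
        rw [if_neg hi]
        field_simp
    _ ≤ _ := by
        refine single_le_sum (f := fun i => if x i = y i then (0 : ℝ) else
          2 / (M : ℝ) ^ (k - 1) * (1 / |(x i : ℝ) - y i|)) (fun j _ => ?_) (mem_univ i)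
        split_ifs
        · exact le_rfl
        · positivity

/-- the number of pairs with close values -/
noncomputable def pairCount (k s M : ℕ) (l : Fin s → ℝ) : ENNReal :=
  ∑ x ∈ XX M s, ∑ y ∈ (XX M s).erase x, (closeCoeff k s x y).indicator 1 l

lemma measurable_pairCount (k s M : ℕ) : Measurable (pairCount k s M) := by
  unfold pairCount
  refine Finset.measurable_sum _ fun x _ => Finset.measurable_sum _ fun y _ => ?_
  exact measurable_one.indicator (measurable_close k s x y)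

lemma mean_pairCount (k s M : ℕ) (hk : 1 ≤ k) (hM : 1 ≤ M) :
    ∫⁻ l, pairCount k s M l ∂(μs s) ≤ ENNReal.ofReal (s * ((3 * (M : ℝ)) ^ (s - 1) *
      ((3 * (M : ℝ)) ^ (s - 1) * (3 * M * (2 / (M : ℝ) ^ (k - 1) *
        (2 * (1 + Real.log (3 * M)))))))) := by
  classical
  have hM0 : (0 : ℝ) < M := by exact_mod_cast hM
  have hcardA : ((Ioc M (4 * M)).card : ℝ) = 3 * M := by
    rw [Nat.card_Ioc, show 4 * M - M = 3 * M by omega]
    push_cast
    rfl
  unfold pairCount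
  rw [lintegral_finset_sum _ fun x _ => Finset.measurable_sum _ fun y _ =>
    measurable_one.indicator (measurable_close k s x y)]
  have h1 : ∀ x ∈ XX M s, ∫⁻ l, ∑ y ∈ (XX M s).erase x, (closeCoeff k s x y).indicator 1 l ∂(μs s) ≤
      ENNReal.ofReal (∑ y ∈ XX M s, ∑ i, if x i = y i then 0 else
        2 / (M : ℝ) ^ (k - 1) * (1 / |(x i : ℝ) - y i|)) := by
    intro x hx
    rw [lintegral_finset_sum _ fun y _ => measurable_one.indicator (measurable_close k s x y)]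
    have hnn : ∀ y : Fin s → ℕ, 0 ≤ ∑ i, if x i = y i then (0 : ℝ) else
        2 / (M : ℝ) ^ (k - 1) * (1 / |(x i : ℝ) - y i|) := by
      intro y
      refine sum_nonneg fun i _ => ?_
      split_ifs
      · exact le_rfl
      · positivity
    rw [ENNReal.ofReal_sum_of_nonneg fun y _ => hnn y]
    refine (sum_le_sum fun y hy => ?_).trans
      (sum_le_sum_of_subset_of_nonneg (erase_subset x (XX M s)) fun _ _ _ => bot_le)
    rw [lintegral_indicator_one (measurable_close k s x y)]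
    rw [mem_erase] at hy
    exact meas_pair' k s M hk hM x y hx hy.2 hy.1.symm
  refine (sum_le_sum h1).trans ?_
  rw [← ENNReal.ofReal_sum_of_nonneg fun x _ => sum_nonneg fun y _ => sum_nonneg fun i _ => by
    split_ifs
    · exact le_rfl
    · positivity]
  refine ENNReal.ofReal_le_ofReal ?_
  set f : ℕ → ℕ → ℝ := fun a b => if a = b then (0 : ℝ) else
      2 / (M : ℝ) ^ (k - 1) * (1 / |(a : ℝ) - b|) with hf
  have h2 : ∑ x ∈ XX M s, ∑ y ∈ XX M s, ∑ i, f (x i) (y i) =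
      ∑ i : Fin s, ∑ x ∈ XX M s, ∑ y ∈ XX M s, f (x i) (y i) := by
    rw [sum_comm (s := univ) (t := XX M s)]
    exact sum_congr rfl fun x _ => sum_comm
  have h3 : ∀ i : Fin s, ∑ x ∈ XX M s, ∑ y ∈ XX M s, f (x i) (y i) ≤
      (3 * (M : ℝ)) ^ (s - 1) * ((3 * (M : ℝ)) ^ (s - 1) * (3 * M * (2 / (M : ℝ) ^ (k - 1) *
        (2 * (1 + Real.log (3 * M)))))) := by
    intro i
    have e1 : ∀ x ∈ XX M s, ∑ y ∈ XX M s, f (x i) (y i) =
        (3 * (M : ℝ)) ^ (s - 1) * ∑ b ∈ Ioc M (4 * M), f (x i) b := by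
      intro x _
      have := Fintype.sum_piFinset_apply (fun b => f (x i) b) (Ioc M (4 * M)) i
      unfold XX
      rw [this, nsmul_eq_mul, Fintype.card_fin, Nat.cast_pow, hcardA]
    rw [sum_congr rfl e1, ← mul_sum]
    have e2 : ∑ x ∈ XX M s, ∑ b ∈ Ioc M (4 * M), f (x i) b =
        (3 * (M : ℝ)) ^ (s - 1) * ∑ a ∈ Ioc M (4 * M), ∑ b ∈ Ioc M (4 * M), f a b := by
      have := Fintype.sum_piFinset_apply (fun a => ∑ b ∈ Ioc M (4 * M), f a b) (Ioc M (4 * M)) i
      unfold XX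
      rw [this, nsmul_eq_mul, Fintype.card_fin, Nat.cast_pow, hcardA]
    rw [e2]
    have e3 : ∑ a ∈ Ioc M (4 * M), ∑ b ∈ Ioc M (4 * M), f a b ≤
        3 * M * (2 / (M : ℝ) ^ (k - 1) * (2 * (1 + Real.log (3 * M)))) := by
      calc ∑ a ∈ Ioc M (4 * M), ∑ b ∈ Ioc M (4 * M), f a b
          ≤ ∑ a ∈ Ioc M (4 * M), 2 / (M : ℝ) ^ (k - 1) * (2 * (1 + Real.log (3 * M))) := by
            refine sum_le_sum fun a ha => ?_
            rw [← sum_erase (a := a) (Ioc M (4 * M)) (by rw [hf]; simp)]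
            calc ∑ b ∈ (Ioc M (4 * M)).erase a, f a b =
                2 / (M : ℝ) ^ (k - 1) * ∑ b ∈ (Ioc M (4 * M)).erase a, 1 / |(a : ℝ) - b| := by
                  rw [mul_sum]
                  refine sum_congr rfl fun b hb => ?_
                  rw [hf]
                  simp only
                  rw [if_neg (mem_erase.1 hb).1.symm]
              _ ≤ _ := mul_le_mul_of_nonneg_left (harm M a ha) (by positivity)
        _ = _ := by rw [sum_const, nsmul_eq_mul, hcardA]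
    gcongr
  calc ∑ x ∈ XX M s, ∑ y ∈ XX M s, ∑ i, f (x i) (y i) =
      ∑ i : Fin s, ∑ x ∈ XX M s, ∑ y ∈ XX M s, f (x i) (y i) := h2
    _ ≤ ∑ _i : Fin s, (3 * (M : ℝ)) ^ (s - 1) * ((3 * (M : ℝ)) ^ (s - 1) *
        (3 * M * (2 / (M : ℝ) ^ (k - 1) * (2 * (1 + Real.log (3 * M)))))) :=
        sum_le_sum fun i _ => h3 i
    _ = _ := by rw [sum_const, card_univ, Fintype.card_fin, nsmul_eq_mul]

/-- for almost all coefficients there are few pairs with close values -/
theorem ae_pairs (k s : ℕ) (hs : 1 ≤ s) (hsk : s < k) :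
    ∀ᵐ l ∂(μs s), ∀ᶠ j : ℕ in atTop,
      pairCount k s (2 ^ j) l < ENNReal.ofReal (((2 : ℝ) ^ j) ^ ((s : ℝ) - 1 / 2)) := by
  set C : ℝ := s * 3 ^ (2 * s - 1) * 4 * (1 + 3 ^ (1 / 4 : ℝ) / (1 / 4)) with hC
  have hs0 : (0 : ℝ) < s := by exact_mod_cast hs
  have hC0 : 0 < C := by positivity
  set A : ℕ → Set (Fin s → ℝ) := fun j =>
    {l | ENNReal.ofReal (((2 : ℝ) ^ j) ^ ((s : ℝ) - 1 / 2)) ≤ pairCount k s (2 ^ j) l} with hA
  have hmeas : ∀ j, μs s (A j) ≤ ENNReal.ofReal (C * ((2 : ℝ) ^ (-(1 / 4 : ℝ))) ^ j) := by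
    intro j
    set m : ℝ := (2 : ℝ) ^ j with hm
    have hm1 : 1 ≤ m := one_le_pow₀ (by norm_num)
    have hm0 : 0 < m := by linarith
    have h1 := mul_meas_ge_le_lintegral (μ := μs s) (measurable_pairCount k s (2 ^ j))
      (ENNReal.ofReal (m ^ ((s : ℝ) - 1 / 2)))
    have h2 := mean_pairCount k s (2 ^ j) (by omega) Nat.one_le_two_pow
    rw [Nat.cast_pow, Nat.cast_ofNat, ← hm] at h2
    have h3 : s * ((3 * m) ^ (s - 1) * ((3 * m) ^ (s - 1) * (3 * m * (2 / m ^ (k - 1) *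
        (2 * (1 + Real.log (3 * m))))))) ≤
        m ^ ((s : ℝ) - 1 / 2) * (C * ((2 : ℝ) ^ (-(1 / 4 : ℝ))) ^ j) := by
      have hlog : 1 + Real.log (3 * m) ≤ (1 + 3 ^ (1 / 4 : ℝ) / (1 / 4)) * m ^ (1 / 4 : ℝ) := by
        have g1 : Real.log (3 * m) ≤ (3 * m) ^ (1 / 4 : ℝ) / (1 / 4) :=
          Real.log_le_rpow_div (by positivity) (by norm_num)
        rw [Real.mul_rpow (by norm_num) hm0.le] at g1
        have g2 : (1 : ℝ) ≤ m ^ (1 / 4 : ℝ) := Real.one_le_rpow hm1 (by norm_num)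
        nlinarith
      have e1 : ((2 : ℝ) ^ (-(1 / 4 : ℝ))) ^ j = m ^ (-(1 / 4 : ℝ)) := by
        rw [hm, ← Real.rpow_natCast, ← Real.rpow_natCast, ← Real.rpow_mul (by norm_num),
          ← Real.rpow_mul (by norm_num), mul_comm]
      have e2 : m ^ (k - 1) = m ^ ((k : ℝ) - 1) := by
        rw [← Real.rpow_natCast, Nat.cast_sub (by omega), Nat.cast_one]
      have e3 : (3 * m) ^ (s - 1) * ((3 * m) ^ (s - 1) * (3 * m)) =
          3 ^ (2 * s - 1) * m ^ (2 * (s : ℝ) - 1) := by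
        rw [← pow_succ, ← pow_add, show s - 1 + (s - 1 + 1) = 2 * s - 1 by omega, mul_pow]
        congr 1
        rw [← Real.rpow_natCast, Nat.cast_sub (by omega)]
        push_cast
        rfl
      have hsk' : (s : ℝ) + 1 ≤ k := by exact_mod_cast hsk
      have e4 : m ^ (2 * (s : ℝ) - 1) / m ^ ((k : ℝ) - 1) * m ^ (1 / 4 : ℝ) ≤
          m ^ ((s : ℝ) - 1 / 2) * m ^ (-(1 / 4 : ℝ)) := by
        rw [← Real.rpow_sub hm0, ← Real.rpow_add hm0, ← Real.rpow_add hm0]
        exact Real.rpow_le_rpow_of_exponent_le hm1 (by linarith)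
      have hp : 0 < m ^ ((k : ℝ) - 1) := by positivity
      calc s * ((3 * m) ^ (s - 1) * ((3 * m) ^ (s - 1) * (3 * m * (2 / m ^ (k - 1) *
            (2 * (1 + Real.log (3 * m)))))))
          = s * ((3 * m) ^ (s - 1) * ((3 * m) ^ (s - 1) * (3 * m))) * 4 / m ^ ((k : ℝ) - 1) *
            (1 + Real.log (3 * m)) := by
            rw [e2]
            ring
        _ ≤ s * ((3 * m) ^ (s - 1) * ((3 * m) ^ (s - 1) * (3 * m))) * 4 / m ^ ((k : ℝ) - 1) *
            ((1 + 3 ^ (1 / 4 : ℝ) / (1 / 4)) * m ^ (1 / 4 : ℝ)) :=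
            mul_le_mul_of_nonneg_left hlog (by positivity)
        _ = C * (m ^ (2 * (s : ℝ) - 1) / m ^ ((k : ℝ) - 1) * m ^ (1 / 4 : ℝ)) := by
            rw [e3, hC]
            ring
        _ ≤ C * (m ^ ((s : ℝ) - 1 / 2) * m ^ (-(1 / 4 : ℝ))) :=
            mul_le_mul_of_nonneg_left e4 hC0.le
        _ = _ := by
            rw [e1]
            ring
    have h4 := h1.trans (h2.trans (ENNReal.ofReal_le_ofReal h3))
    have hpos : 0 < m ^ ((s : ℝ) - 1 / 2) := by positivity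
    rw [ENNReal.ofReal_mul hpos.le] at h4
    exact (ENNReal.mul_le_mul_iff_right (ENNReal.ofReal_pos.2 hpos).ne' ENNReal.ofReal_ne_top).1 h4
  have hsum : ∑' j, μs s (A j) ≠ ⊤ := by
    refine ne_top_of_le_ne_top ?_ (ENNReal.tsum_le_tsum hmeas)
    have hr : (2 : ℝ) ^ (-(1 / 4 : ℝ)) < 1 :=
      Real.rpow_lt_one_of_one_lt_of_neg (by norm_num) (by norm_num)
    have hr0 : 0 ≤ (2 : ℝ) ^ (-(1 / 4 : ℝ)) := by positivity
    have hs1 : Summable fun j : ℕ => C * ((2 : ℝ) ^ (-(1 / 4 : ℝ))) ^ j :=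
      (summable_geometric_of_lt_one hr0 hr).mul_left C
    rw [← ENNReal.ofReal_tsum_of_nonneg (fun j => by positivity) hs1]
    exact ENNReal.ofReal_ne_top
  filter_upwards [ae_eventually_notMem hsum] with l hl
  filter_upwards [hl] with j hj
  simpa only [hA, Set.mem_setOf_eq, not_le] using hj

end Pool.Agent.R532.Wa
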