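import Pool.Agent.R532.Wc1

/-!
# Sums of powers with generic real coefficients: the exact order of the count
-/

set_option autoImplicit false

namespace Pool.Agent.R532.Wa

open MeasureTheory Finset Filter Topology

lemma card_bad (k s M : ℕ) (l : Fin s → ℝ) (B : Finset (Fin s → ℕ)) (hB : B ⊆ XX M s)
    (h : ∀ x ∈ B, ∃ y ∈ XX M s, x ≠ y ∧ |VV k s l x - VV k s l y| < 1) :
    (B.card : ENNReal) ≤ pairCount k s M l := by
  classical
  calc (B.card : ENNReal) = ∑ _x ∈ B, (1 : ENNReal) := by rw [sum_const, nsmul_eq_mul, mul_one]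
    _ ≤ ∑ x ∈ B, ∑ y ∈ (XX M s).erase x, (closeCoeff k s x y).indicator 1 l := by
        refine sum_le_sum fun x hx => ?_
        obtain ⟨y, hy, hxy, hlt⟩ := h x hx
        have h1 : (closeCoeff k s x y).indicator (1 : (Fin s → ℝ) → ENNReal) l = 1 := by
          rw [Set.indicator_of_mem]
          · rfl
          · exact hlt
        rw [← h1]
        exact single_le_sum (f := fun y => (closeCoeff k s x y).indicator
          (1 : (Fin s → ℝ) → ENNReal) l) (fun _ _ => bot_le) (mem_erase.2 ⟨hxy.symm, hy⟩)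
    _ ≤ _ := sum_le_sum_of_subset_of_nonneg hB fun _ _ _ => bot_le

lemma count_scale (k s M : ℕ) (hs : 1 ≤ s) (hM : 1 ≤ M) (l l' : Fin s → ℝ)
    (hl' : ∀ i, 1 ≤ l' i ∧ l' i ≤ 2) (c : ℝ) (hc : 1 ≤ c) (q : Fin s → ℕ) (hq : ∀ i, 0 < q i)
    (hll : ∀ i, (q i : ℝ) ^ k / c * l i = l' i)
    (hP : pairCount k s M l' < ENNReal.ofReal ((M : ℝ) ^ ((s : ℝ) - 1 / 2)))
    (Y : ℝ) (hY : c * (2 * s * (4 * (M : ℝ)) ^ k) ≤ Y) :
    (M : ℝ) ^ s ≤ (floorValues k s l Y).ncard := by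
  classical
  have hM1 : (1 : ℝ) ≤ M := by exact_mod_cast hM
  have hM0 : (0 : ℝ) < M := by linarith
  have hc0 : 0 < c := by linarith
  have hs1 : (1 : ℝ) ≤ s := by exact_mod_cast hs
  set B : Finset (Fin s → ℕ) := (XX M s).filter fun x =>
    ∃ y ∈ XX M s, x ≠ y ∧ |VV k s l' x - VV k s l' y| < 1 with hB
  have hBX : B ⊆ XX M s := filter_subset _ _
  have hBc : (B.card : ℝ) < (M : ℝ) ^ ((s : ℝ) - 1 / 2) := by
    have h1 := (card_bad k s M l' B hBX fun x hx => (mem_filter.1 hx).2).trans_lt hP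
    rw [← ENNReal.ofReal_natCast] at h1
    exact (ENNReal.ofReal_lt_ofReal_iff (by positivity)).1 h1
  have hXc : ((XX M s).card : ℝ) = (3 * (M : ℝ)) ^ s := by
    unfold XX
    rw [Fintype.card_piFinset, prod_const, Nat.card_Ioc, card_univ, Fintype.card_fin,
      show 4 * M - M = 3 * M by omega]
    push_cast
    rfl
  have hval : ∀ x : Fin s → ℕ, ∑ i, l i * (((q i * x i : ℕ)) : ℝ) ^ k = c * VV k s l' x := by
    intro x
    unfold VV
    rw [mul_sum]
    refine sum_congr rfl fun i _ => ?_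
    rw [← hll i]
    push_cast
    rw [mul_pow]
    field_simp
  have hXb : ∀ x ∈ XX M s, 1 ≤ VV k s l' x ∧ VV k s l' x ≤ 2 * s * (4 * (M : ℝ)) ^ k := by
    intro x hx
    have hxi : ∀ i, M < x i ∧ x i ≤ 4 * M := fun i => mem_Ioc.1 ((Fintype.mem_piFinset.1 hx) i)
    unfold VV
    constructor
    · calc (1 : ℝ) ≤ s := hs1
        _ = ∑ _i : Fin s, (1 : ℝ) := by simp
        _ ≤ _ := by
            refine sum_le_sum fun i _ => ?_
            have h1 : (1 : ℝ) ≤ x i := by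
              have := (hxi i).1
              have h2 : 1 ≤ x i := by omega
              exact_mod_cast h2
            have h2 : (1 : ℝ) ≤ (x i : ℝ) ^ k := one_le_pow₀ h1
            have := (hl' i).1
            nlinarith
    · calc ∑ i, l' i * (x i : ℝ) ^ k ≤ ∑ _i : Fin s, 2 * (4 * (M : ℝ)) ^ k := by
            refine sum_le_sum fun i _ => ?_
            have h1 : (x i : ℝ) ≤ 4 * M := by exact_mod_cast (hxi i).2
            have h2 : (x i : ℝ) ^ k ≤ (4 * (M : ℝ)) ^ k := pow_le_pow_left₀ (by positivity) h1 k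
            have := (hl' i).2
            have h3 : 0 ≤ (x i : ℝ) ^ k := by positivity
            nlinarith
        _ = _ := by
            rw [sum_const, card_univ, Fintype.card_fin, nsmul_eq_mul]
            ring
  set φ : (Fin s → ℕ) → ℕ := fun x => ⌊∑ i, l i * (((q i * x i : ℕ)) : ℝ) ^ k⌋₊ with hφ
  have hmaps : ((XX M s \ B).image φ : Set ℕ) ⊆ floorValues k s l Y := by
    intro n hn
    rw [Finset.mem_coe, mem_image] at hn
    obtain ⟨x, hx, rfl⟩ := hn
    obtain ⟨hx1, -⟩ := mem_sdiff.1 hx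
    obtain ⟨h1, h2⟩ := hXb x hx1
    have hxi : ∀ i, 0 < x i := fun i => (Nat.zero_le M).trans_lt
      (mem_Ioc.1 ((Fintype.mem_piFinset.1 hx1) i)).1
    have h3 : 1 ≤ c * VV k s l' x := by nlinarith
    refine ⟨?_, ?_, fun i => q i * x i, fun i => Nat.mul_pos (hq i) (hxi i), rfl⟩
    · rw [hφ]
      simp only
      rw [hval x]
      exact Nat.floor_pos.2 h3
    · rw [hφ]
      simp only
      rw [hval x]
      refine (Nat.floor_le (by linarith)).trans (le_trans ?_ hY)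
      exact mul_le_mul_of_nonneg_left h2 hc0.le
  have hinj : Set.InjOn φ (XX M s \ B : Finset (Fin s → ℕ)) := by
    intro x hx y hy hxy
    replace hx := Finset.mem_sdiff.1 (Finset.mem_coe.1 hx)
    replace hy := Finset.mem_sdiff.1 (Finset.mem_coe.1 hy)
    by_contra hne
    refine hx.2 (mem_filter.2 ⟨hx.1, y, hy.1, hne, ?_⟩)
    rw [hφ] at hxy
    simp only at hxy
    rw [hval x, hval y] at hxy
    obtain ⟨h1, -⟩ := hXb x hx.1
    obtain ⟨h2, -⟩ := hXb y hy.1
    have a1 := Nat.floor_le (show 0 ≤ c * VV k s l' x by nlinarith)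
    have a2 := Nat.floor_le (show 0 ≤ c * VV k s l' y by nlinarith)
    have a3 := Nat.lt_floor_add_one (c * VV k s l' x)
    have a4 := Nat.lt_floor_add_one (c * VV k s l' y)
    rw [hxy] at a1 a3
    have a5 : |c * (VV k s l' x - VV k s l' y)| < 1 := by
      rw [abs_lt, mul_sub]
      constructor <;> linarith
    rw [abs_mul, abs_of_pos hc0] at a5
    have a6 : 0 ≤ |VV k s l' x - VV k s l' y| := abs_nonneg _
    nlinarith
  have hn : (XX M s \ B).card ≤ (floorValues k s l Y).ncard := by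
    rw [← card_image_of_injOn hinj, ← Set.ncard_coe_finset]
    exact Set.ncard_le_ncard hmaps (floorValues_finite k s l Y)
  have hcard : ((XX M s \ B).card : ℝ) = (3 * (M : ℝ)) ^ s - B.card := by
    rw [← hXc, card_sdiff_of_subset hBX, Nat.cast_sub (card_le_card hBX)]
  have h3 : (3 * (M : ℝ)) ^ s ≥ 3 * (M : ℝ) ^ s := by
    rw [mul_pow]
    have : (3 : ℝ) ≤ 3 ^ s := by
      calc (3 : ℝ) = 3 ^ 1 := by ring
        _ ≤ _ := pow_le_pow_right₀ (by norm_num) hs
    have h4 : (0 : ℝ) ≤ (M : ℝ) ^ s := by positivity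
    nlinarith
  have h4 : (M : ℝ) ^ ((s : ℝ) - 1 / 2) ≤ (M : ℝ) ^ s := by
    rw [← Real.rpow_natCast]
    exact Real.rpow_le_rpow_of_exponent_le hM1 (by linarith)
  have h5 : (0 : ℝ) ≤ (M : ℝ) ^ s := by positivity
  calc (M : ℝ) ^ s ≤ ((XX M s \ B).card : ℝ) := by
        rw [hcard]
        linarith
    _ ≤ _ := by exact_mod_cast hn

/-- **The count of the integer parts has the full order of magnitude.** -/
theorem exact_count (k s : ℕ) (hs : 1 ≤ s) (hsk : s < k) :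
    ∀ᵐ l : Fin s → ℝ, (∀ i, 0 < l i) → ∃ κ : ℝ, 0 < κ ∧ ∀ᶠ Y : ℝ in atTop,
      κ * Y ^ ((s : ℝ) / k) ≤ (floorValues k s l Y).ncard := by
  have hk0 : (0 : ℝ) < k := by
    have : 0 < k := by omega
    exact_mod_cast this
  have hm : MeasurableSet (Set.univ.pi fun _ : Fin s => Set.Icc (1 : ℝ) 2) :=
    MeasurableSet.univ_pi fun _ => measurableSet_Icc
  have h0 := ae_pairs k s hs hsk
  rw [← volume_cube] at h0
  have h1 := (ae_restrict_iff' hm).1 h0
  have h2 : ∀ a : ℕ × (Fin s → ℕ), ∀ᵐ l : Fin s → ℝ, 0 < a.1 → (∀ i, 0 < a.2 i) →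
      (∀ i, (a.2 i : ℝ) ^ k / a.1 * l i ∈ Set.Icc (1 : ℝ) 2) →
        ∀ᶠ j : ℕ in atTop, pairCount k s (2 ^ j) (fun i => (a.2 i : ℝ) ^ k / a.1 * l i) <
          ENNReal.ofReal (((2 : ℝ) ^ j) ^ ((s : ℝ) - 1 / 2)) := by
    intro a
    by_cases ha : 0 < a.1 ∧ ∀ i, 0 < a.2 i
    · have h3 := ae_diag s (fun i => (a.2 i : ℝ) ^ k / a.1) (fun i => by
        have h4 : (0 : ℝ) < a.1 := by exact_mod_cast ha.1
        have h5 : (0 : ℝ) < a.2 i := by exact_mod_cast ha.2 i
        positivity) h1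
      filter_upwards [h3] with l hl _ _ h6
      exact hl fun i _ => h6 i
    · refine Eventually.of_forall fun l h4 h5 => absurd ⟨h4, h5⟩ ha
  filter_upwards [ae_all_iff.2 h2] with l hl hl0
  obtain ⟨c, hc, q, hq, hcq⟩ := exists_scale k s (by omega) l hl0
  obtain ⟨j₀, hj₀⟩ := eventually_atTop.1 (hl (c, q) hc hq hcq)
  have hc1 : (1 : ℝ) ≤ c := by exact_mod_cast hc
  have hs1 : (1 : ℝ) ≤ s := by exact_mod_cast hs
  set D : ℝ := c * (2 * s * 4 ^ k) with hD
  have hD0 : 0 < D := by positivity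
  refine ⟨((D * 2 ^ k) ^ ((s : ℝ) / k))⁻¹, by positivity, ?_⟩
  have hk2 : (1 : ℝ) < 2 ^ k := one_lt_pow₀ (by norm_num) (by omega)
  filter_upwards [eventually_ge_atTop D, eventually_ge_atTop (D * ((2 : ℝ) ^ k) ^ j₀)] with Y hY1 hY2
  have hY0 : 0 < Y := by linarith
  have hX : 1 ≤ Y / D := by
    rw [le_div_iff₀ hD0]
    linarith
  obtain ⟨j, hj1, hj2⟩ := exists_nat_pow_near hX hk2
  have hjj : j₀ ≤ j := by
    by_contra hlt
    push Not at hlt
    have h3 : ((2 : ℝ) ^ k) ^ (j + 1) ≤ ((2 : ℝ) ^ k) ^ j₀ :=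
      pow_le_pow_right₀ hk2.le hlt
    rw [div_lt_iff₀ hD0] at hj2
    have h4 : ((2 : ℝ) ^ k) ^ (j + 1) * D ≤ ((2 : ℝ) ^ k) ^ j₀ * D :=
      mul_le_mul_of_nonneg_right h3 hD0.le
    linarith
  have hpk : ((2 : ℝ) ^ k) ^ j = ((2 : ℝ) ^ j) ^ k := by rw [← pow_mul, ← pow_mul, mul_comm]
  have hmain := count_scale k s (2 ^ j) hs Nat.one_le_two_pow l
    (fun i => (q i : ℝ) ^ k / c * l i) (fun i => Set.mem_Icc.1 (hcq i)) c hc1 q hq (fun i => rfl)
    (by
      have := hj₀ j hjj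
      push_cast
      exact this) Y (by
      push_cast
      rw [le_div_iff₀ hD0, hpk] at hj1
      refine le_trans (le_of_eq ?_) hj1
      rw [hD, mul_pow]
      ring)
  refine le_trans ?_ hmain
  push_cast
  set m : ℝ := (2 : ℝ) ^ j with hm'
  have hm0 : 0 < m := by positivity
  have h5 : Y ≤ (D * 2 ^ k) * m ^ k := by
    rw [div_lt_iff₀ hD0, pow_succ, hpk] at hj2
    refine hj2.le.trans (le_of_eq ?_)
    ring
  have h6 : Y ^ ((s : ℝ) / k) ≤ (D * 2 ^ k) ^ ((s : ℝ) / k) * m ^ s := by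
    have h7 : m ^ s = (m ^ k) ^ ((s : ℝ) / k) := by
      rw [← Real.rpow_natCast m k, ← Real.rpow_mul hm0.le, ← Real.rpow_natCast m s]
      congr 1
      field_simp
    rw [h7, ← Real.mul_rpow (by positivity) (by positivity)]
    exact Real.rpow_le_rpow hY0.le h5 (by positivity)
  rw [inv_mul_le_iff₀ (by positivity)]
  exact h6

end Pool.Agent.R532.Wa
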