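import Pool.Agent.R532.Wc2

/-!
# Sums of powers with generic real coefficients: `k` terms, without logarithms
-/

set_option autoImplicit false

namespace Pool.Agent.R532.Wa

open MeasureTheory Finset Filter Topology

/-- `1 / √|a - b|` off the diagonal -/
noncomputable def gg (a b : ℕ) : ℝ := if a = b then 0 else 1 / √|(a : ℝ) - b|

lemma gg_nonneg (a b : ℕ) : 0 ≤ gg a b := by
  unfold gg
  split_ifs
  · exact le_rfl
  · positivity

lemma sum_inv_sqrt (n : ℕ) : ∑ d ∈ range n, 1 / √((d : ℝ) + 1) ≤ 2 * √(n : ℝ) := by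
  induction n with
  | zero => simp
  | succ n ih =>
    rw [sum_range_succ]
    have h1 : 1 / √((n : ℝ) + 1) ≤ 2 * √((n : ℝ) + 1) - 2 * √(n : ℝ) := by
      have hp : 0 < √((n : ℝ) + 1) := by positivity
      have h2 : √((n : ℝ) + 1) * √((n : ℝ) + 1) = n + 1 := Real.mul_self_sqrt (by positivity)
      have h3 : √(n : ℝ) * √(n : ℝ) = n := Real.mul_self_sqrt (by positivity)
      rw [div_le_iff₀ hp]
      nlinarith [sq_nonneg (√((n : ℝ) + 1) - √(n : ℝ))]
    push_cast
    linarith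

lemma sum_gg (M x : ℕ) (hx : x ∈ Ioc M (4 * M)) :
    ∑ y ∈ Ioc M (4 * M), gg x y ≤ 4 * √(3 * (M : ℝ)) := by
  classical
  rw [mem_Ioc] at hx
  have hsplit : ∀ y ∈ Ioc M (4 * M), gg x y ≤
      (if y < x then 1 / √(((x - y - 1 : ℕ) : ℝ) + 1) else 0) +
        (if x < y then 1 / √(((y - x - 1 : ℕ) : ℝ) + 1) else 0) := by
    intro y _
    unfold gg
    rcases lt_trichotomy x y with h | h | h
    · rw [if_neg h.ne, if_neg (not_lt.2 h.le), if_pos h, zero_add]
      have e1 : ((y - x - 1 : ℕ) : ℝ) + 1 = |(x : ℝ) - y| := by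
        have e2 : ((y - x - 1 : ℕ) : ℝ) + 1 = (y : ℝ) - x := by
          have e3 : y - x - 1 + 1 + x = y := by omega
          have e4 : ((y - x - 1 : ℕ) : ℝ) + 1 + x = y := by exact_mod_cast e3
          linarith
        rw [e2, abs_sub_comm, abs_of_pos]
        have : (x : ℝ) < y := by exact_mod_cast h
        linarith
      rw [e1]
    · rw [if_pos h]
      have e1 : ¬ y < x := by omega
      have e2 : ¬ x < y := by omega
      rw [if_neg e1, if_neg e2, add_zero]
    · rw [if_neg h.ne', if_pos h, if_neg (not_lt.2 h.le), add_zero]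
      have e1 : ((x - y - 1 : ℕ) : ℝ) + 1 = |(x : ℝ) - y| := by
        have e2 : ((x - y - 1 : ℕ) : ℝ) + 1 = (x : ℝ) - y := by
          have e3 : x - y - 1 + 1 + y = x := by omega
          have e4 : ((x - y - 1 : ℕ) : ℝ) + 1 + y = x := by exact_mod_cast e3
          linarith
        rw [e2, abs_of_pos]
        have : (y : ℝ) < x := by exact_mod_cast h
        linarith
      rw [e1]
  have hr := sum_inv_sqrt (3 * M)
  push_cast at hr
  refine (sum_le_sum hsplit).trans ?_
  rw [sum_add_distrib, ← sum_filter, ← sum_filter]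
  have hA : ∑ y ∈ (Ioc M (4 * M)).filter (fun y => y < x), 1 / √(((x - y - 1 : ℕ) : ℝ) + 1) ≤
      ∑ d ∈ range (3 * M), 1 / √((d : ℝ) + 1) := by
    rw [← sum_image (s := (Ioc M (4 * M)).filter fun y => y < x) (g := fun y => x - y - 1)
      (f := fun d : ℕ => 1 / √((d : ℝ) + 1))]
    · refine sum_le_sum_of_subset_of_nonneg ?_ fun _ _ _ => by positivity
      intro d hd
      obtain ⟨y, hy, rfl⟩ := mem_image.1 hd
      rw [mem_filter, mem_Ioc] at hy
      rw [mem_range]
      omega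
    · intro a ha b hb hab
      simp only [coe_filter, mem_Ioc, Set.mem_setOf_eq] at ha hb hab
      omega
  have hB : ∑ y ∈ (Ioc M (4 * M)).filter (fun y => x < y), 1 / √(((y - x - 1 : ℕ) : ℝ) + 1) ≤
      ∑ d ∈ range (3 * M), 1 / √((d : ℝ) + 1) := by
    rw [← sum_image (s := (Ioc M (4 * M)).filter fun y => x < y) (g := fun y => y - x - 1)
      (f := fun d : ℕ => 1 / √((d : ℝ) + 1))]
    · refine sum_le_sum_of_subset_of_nonneg ?_ fun _ _ _ => by positivity
      intro d hd
      obtain ⟨y, hy, rfl⟩ := mem_image.1 hd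
      rw [mem_filter, mem_Ioc] at hy
      rw [mem_range]
      omega
    · intro a ha b hb hab
      simp only [coe_filter, mem_Ioc, Set.mem_setOf_eq] at ha hb hab
      omega
  linarith

lemma meas_pair2 (k s M : ℕ) (hk : 1 ≤ k) (hM : 1 ≤ M) (x y : Fin s → ℕ) (hx : x ∈ XX M s)
    (hy : y ∈ XX M s) (hxy : x ≠ y) :
    μs s (closeCoeff k s x y) ≤
      ENNReal.ofReal (∑ i : Fin s, ∑ j ∈ univ.erase i,
        2 / (M : ℝ) ^ (k - 1) * (gg (x i) (y i) * gg (x j) (y j))) := by
  classical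
  obtain ⟨i, hi⟩ := Function.ne_iff.1 hxy
  have hM0 : (0 : ℝ) < M := by exact_mod_cast hM
  have hM1 : (1 : ℝ) ≤ M := by exact_mod_cast hM
  have hxM : ∀ i, M ≤ x i := fun i => (mem_Ioc.1 ((Fintype.mem_piFinset.1 hx) i)).1.le
  have hyM : ∀ i, M ≤ y i := fun i => (mem_Ioc.1 ((Fintype.mem_piFinset.1 hy) i)).1.le
  by_cases hj : ∃ j, j ≠ i ∧ x j ≠ y j
  · obtain ⟨j, hji, hj⟩ := hj
    obtain ⟨n, rfl⟩ : ∃ n, s = n + 1 := ⟨s - 1, by have := i.pos; omega⟩
    have key : ∀ t, x t ≠ y t → 0 < |(x t : ℝ) - y t| ∧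
        μs (n + 1) (closeCoeff k (n + 1) x y) ≤
          ENNReal.ofReal (2 / (M : ℝ) ^ (k - 1) * (1 / |(x t : ℝ) - y t|)) := by
      intro t ht
      have h1 := pow_gap k M (x t) (y t) hk (hxM t) (hyM t)
      have h2 : (0 : ℝ) < |(x t : ℝ) - y t| := by
        rw [abs_pos, sub_ne_zero]
        exact_mod_cast ht
      have h3 : 0 < |(x t : ℝ) - y t| * (M : ℝ) ^ (k - 1) := by positivity
      have h4 : 0 < |(x t : ℝ) ^ k - (y t : ℝ) ^ k| := h3.trans_le h1
      refine ⟨h2, (meas_pair k n x y t (abs_pos.1 h4)).trans (ENNReal.ofReal_le_ofReal ?_)⟩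
      calc 2 / |(x t : ℝ) ^ k - (y t : ℝ) ^ k| ≤ 2 / (|(x t : ℝ) - y t| * (M : ℝ) ^ (k - 1)) :=
            div_le_div_of_nonneg_left (by norm_num) h3 h1
        _ = _ := by field_simp
    obtain ⟨pi, ki⟩ := key i hi
    obtain ⟨pj, kj⟩ := key j hj
    have hterm : μs (n + 1) (closeCoeff k (n + 1) x y) ≤ ENNReal.ofReal (2 / (M : ℝ) ^ (k - 1) *
        (gg (x i) (y i) * gg (x j) (y j))) := by
      unfold gg
      rw [if_neg hi, if_neg hj]
      set u : ℝ := |(x i : ℝ) - y i| with hu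
      set v : ℝ := |(x j : ℝ) - y j| with hv
      rcases le_total u v with huv | huv
      · refine kj.trans (ENNReal.ofReal_le_ofReal ?_)
        refine mul_le_mul_of_nonneg_left ?_ (by positivity)
        have h1 : √u * √v ≤ v := by
          calc √u * √v ≤ √v * √v := by gcongr
            _ = v := Real.mul_self_sqrt pj.le
        rw [one_div_mul_one_div]
        exact one_div_le_one_div_of_le (by positivity) h1
      · refine ki.trans (ENNReal.ofReal_le_ofReal ?_)
        refine mul_le_mul_of_nonneg_left ?_ (by positivity)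
        have h1 : √u * √v ≤ u := by
          calc √u * √v ≤ √u * √u := by gcongr
            _ = u := Real.mul_self_sqrt pi.le
        rw [one_div_mul_one_div]
        exact one_div_le_one_div_of_le (by positivity) h1
    refine hterm.trans (ENNReal.ofReal_le_ofReal ?_)
    have hnn : ∀ a b, 0 ≤ 2 / (M : ℝ) ^ (k - 1) * (gg (x a) (y a) * gg (x b) (y b)) := fun a b =>
      mul_nonneg (by positivity) (mul_nonneg (gg_nonneg _ _) (gg_nonneg _ _))
    refine le_trans ?_ (single_le_sum (f := fun i : Fin (n + 1) => ∑ j ∈ univ.erase i,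
        2 / (M : ℝ) ^ (k - 1) * (gg (x i) (y i) * gg (x j) (y j)))
        (fun a _ => sum_nonneg fun b _ => hnn a b) (mem_univ i))
    exact single_le_sum (f := fun j => 2 / (M : ℝ) ^ (k - 1) * (gg (x i) (y i) * gg (x j) (y j)))
      (fun b _ => hnn i b) (mem_erase.2 ⟨hji, mem_univ j⟩)
  · push Not at hj
    have h0 : μs s (closeCoeff k s x y) = 0 := by
      rw [measure_eq_zero_iff_ae_notMem]
      filter_upwards [ae_Icc s] with l hl hmem
      have e1 : VV k s l x - VV k s l y = l i * ((x i : ℝ) ^ k - (y i : ℝ) ^ k) := by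
        unfold VV
        rw [← sum_sub_distrib]
        rw [sum_eq_single i]
        · ring
        · intro b _ hb
          rw [hj b hb, sub_self]
        · intro h
          exact absurd (mem_univ i) h
      have h1 := pow_gap k M (x i) (y i) hk (hxM i) (hyM i)
      have h2 : (1 : ℝ) ≤ |(x i : ℝ) - y i| := by
        have e2 : (1 : ℤ) ≤ |(x i : ℤ) - y i| := by
          have : (x i : ℤ) - y i ≠ 0 := by
            rw [sub_ne_zero]
            exact_mod_cast hi
          exact Int.one_le_abs this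
        exact_mod_cast e2
      have h3 : (1 : ℝ) ≤ (M : ℝ) ^ (k - 1) := one_le_pow₀ hM1
      have h4 : (1 : ℝ) ≤ |(x i : ℝ) ^ k - (y i : ℝ) ^ k| := by nlinarith
      have h5 : |VV k s l x - VV k s l y| < 1 := hmem
      rw [e1, abs_mul, abs_of_nonneg (by linarith [(hl i).1])] at h5
      nlinarith [(hl i).1]
    rw [h0]
    exact bot_le

lemma sum_two (s M : ℕ) (x : Fin s → ℕ) (hx : x ∈ XX M s) (i j : Fin s) (hij : i ≠ j) :
    ∑ y ∈ XX M s, gg (x i) (y i) * gg (x j) (y j) ≤
      (4 * √(3 * (M : ℝ))) ^ 2 * (3 * (M : ℝ)) ^ (s - 2) := by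
  classical
  have hxi : ∀ i, x i ∈ Ioc M (4 * M) := Fintype.mem_piFinset.1 hx
  set φ : Fin s → ℕ → ℝ := fun t b => if t = i ∨ t = j then gg (x t) b else 1 with hφ
  have hprod : ∀ y : Fin s → ℕ, ∏ t, φ t (y t) = gg (x i) (y i) * gg (x j) (y j) := by
    intro y
    rw [← mul_prod_erase univ _ (mem_univ i), ← mul_prod_erase (univ.erase i) _
      (mem_erase.2 ⟨hij.symm, mem_univ j⟩)]
    have e1 : ∏ t ∈ (univ.erase i).erase j, φ t (y t) = 1 := by
      refine prod_eq_one fun t ht => ?_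
      rw [mem_erase, mem_erase] at ht
      rw [hφ]
      simp only
      rw [if_neg]
      rintro (h | h)
      · exact ht.2.1 h
      · exact ht.1 h
    rw [e1, mul_one, hφ]
    simp
  have h1 : ∑ y ∈ XX M s, gg (x i) (y i) * gg (x j) (y j) =
      ∏ t, ∑ b ∈ Ioc M (4 * M), φ t b := by
    rw [prod_univ_sum]
    exact sum_congr rfl fun y _ => (hprod y).symm
  rw [h1, ← mul_prod_erase univ _ (mem_univ i), ← mul_prod_erase (univ.erase i) _
      (mem_erase.2 ⟨hij.symm, mem_univ j⟩)]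
  have hi : ∑ b ∈ Ioc M (4 * M), φ i b ≤ 4 * √(3 * (M : ℝ)) := by
    rw [hφ]
    simp only [true_or, if_true]
    exact sum_gg M (x i) (hxi i)
  have hj : ∑ b ∈ Ioc M (4 * M), φ j b ≤ 4 * √(3 * (M : ℝ)) := by
    rw [hφ]
    simp only [or_true, if_true]
    exact sum_gg M (x j) (hxi j)
  have hr : ∏ t ∈ (univ.erase i).erase j, ∑ b ∈ Ioc M (4 * M), φ t b = (3 * (M : ℝ)) ^ (s - 2) := by
    have e1 : ∀ t ∈ (univ.erase i).erase j, ∑ b ∈ Ioc M (4 * M), φ t b = 3 * (M : ℝ) := by
      intro t ht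
      rw [mem_erase, mem_erase] at ht
      have e2 : ∀ b ∈ Ioc M (4 * M), φ t b = 1 := by
        intro b _
        rw [hφ]
        simp only
        rw [if_neg]
        rintro (h | h)
        · exact ht.2.1 h
        · exact ht.1 h
      rw [sum_congr rfl e2, sum_const, Nat.card_Ioc, show 4 * M - M = 3 * M by omega, nsmul_eq_mul]
      push_cast
      ring
    rw [prod_congr rfl e1, prod_const, card_erase_of_mem (mem_erase.2 ⟨hij.symm, mem_univ j⟩),
      card_erase_of_mem (mem_univ i), card_univ, Fintype.card_fin]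
    rfl
  have hi0 : 0 ≤ ∑ b ∈ Ioc M (4 * M), φ i b := sum_nonneg fun b _ => by
    rw [hφ]
    simp only [true_or, if_true]
    exact gg_nonneg _ _
  have hj0 : 0 ≤ ∑ b ∈ Ioc M (4 * M), φ j b := sum_nonneg fun b _ => by
    rw [hφ]
    simp only [or_true, if_true]
    exact gg_nonneg _ _
  rw [hr]
  calc (∑ b ∈ Ioc M (4 * M), φ i b) * ((∑ b ∈ Ioc M (4 * M), φ j b) * (3 * (M : ℝ)) ^ (s - 2))
      ≤ (4 * √(3 * (M : ℝ))) * ((4 * √(3 * (M : ℝ))) * (3 * (M : ℝ)) ^ (s - 2)) := by gcongr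
    _ = _ := by ring

/-- the mean number of close pairs, `k` terms -/
lemma mean_pairCount2 (k M : ℕ) (hk : 2 ≤ k) (hM : 1 ≤ M) :
    ∫⁻ l, pairCount k k M l ∂(μs k) ≤ ENNReal.ofReal (32 * k ^ 2 * 3 ^ (2 * k - 1)) *
      ENNReal.ofReal ((M : ℝ) ^ k) := by
  classical
  have hM0 : (0 : ℝ) < M := by exact_mod_cast hM
  have hXc : ((XX M k).card : ℝ) = (3 * (M : ℝ)) ^ k := by
    unfold XX
    rw [Fintype.card_piFinset, prod_const, Nat.card_Ioc, card_univ, Fintype.card_fin,
      show 4 * M - M = 3 * M by omega]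
    push_cast
    rfl
  unfold pairCount
  rw [lintegral_finset_sum _ fun x _ => Finset.measurable_sum _ fun y _ =>
    measurable_one.indicator (measurable_close k k x y)]
  have hnn : ∀ x y : Fin k → ℕ, 0 ≤ ∑ i : Fin k, ∑ j ∈ univ.erase i,
      2 / (M : ℝ) ^ (k - 1) * (gg (x i) (y i) * gg (x j) (y j)) := fun x y =>
    sum_nonneg fun i _ => sum_nonneg fun j _ =>
      mul_nonneg (by positivity) (mul_nonneg (gg_nonneg _ _) (gg_nonneg _ _))
  have h1 : ∀ x ∈ XX M k, ∫⁻ l, ∑ y ∈ (XX M k).erase x, (closeCoeff k k x y).indicator 1 l ∂(μs k) ≤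
      ENNReal.ofReal (∑ y ∈ XX M k, ∑ i : Fin k, ∑ j ∈ univ.erase i,
        2 / (M : ℝ) ^ (k - 1) * (gg (x i) (y i) * gg (x j) (y j))) := by
    intro x hx
    rw [lintegral_finset_sum _ fun y _ => measurable_one.indicator (measurable_close k k x y)]
    rw [ENNReal.ofReal_sum_of_nonneg fun y _ => hnn x y]
    refine (sum_le_sum fun y hy => ?_).trans
      (sum_le_sum_of_subset_of_nonneg (erase_subset x (XX M k)) fun _ _ _ => bot_le)
    rw [lintegral_indicator_one (measurable_close k k x y)]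
    rw [mem_erase] at hy
    exact meas_pair2 k k M (by omega) hM x y hx hy.2 hy.1.symm
  refine (sum_le_sum h1).trans ?_
  rw [← ENNReal.ofReal_sum_of_nonneg fun x _ => sum_nonneg fun y _ => hnn x y,
    ← ENNReal.ofReal_mul (by positivity)]
  refine ENNReal.ofReal_le_ofReal ?_
  have h2 : ∀ x ∈ XX M k, ∑ y ∈ XX M k, ∑ i : Fin k, ∑ j ∈ univ.erase i,
      2 / (M : ℝ) ^ (k - 1) * (gg (x i) (y i) * gg (x j) (y j)) ≤
      k * (k * (2 / (M : ℝ) ^ (k - 1) * ((4 * √(3 * (M : ℝ))) ^ 2 * (3 * (M : ℝ)) ^ (k - 2)))) := by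
    intro x hx
    rw [sum_comm]
    calc ∑ i : Fin k, ∑ y ∈ XX M k, ∑ j ∈ univ.erase i,
          2 / (M : ℝ) ^ (k - 1) * (gg (x i) (y i) * gg (x j) (y j))
        ≤ ∑ _i : Fin k, k * (2 / (M : ℝ) ^ (k - 1) *
          ((4 * √(3 * (M : ℝ))) ^ 2 * (3 * (M : ℝ)) ^ (k - 2))) := by
          refine sum_le_sum fun i _ => ?_
          rw [sum_comm]
          calc ∑ j ∈ univ.erase i, ∑ y ∈ XX M k,
                2 / (M : ℝ) ^ (k - 1) * (gg (x i) (y i) * gg (x j) (y j))
              ≤ ∑ _j ∈ univ.erase i, 2 / (M : ℝ) ^ (k - 1) *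
                ((4 * √(3 * (M : ℝ))) ^ 2 * (3 * (M : ℝ)) ^ (k - 2)) := by
                refine sum_le_sum fun j hj => ?_
                rw [← mul_sum]
                exact mul_le_mul_of_nonneg_left (sum_two k M x hx i j (mem_erase.1 hj).1.symm)
                  (by positivity)
            _ ≤ _ := by
                rw [sum_const, nsmul_eq_mul]
                refine mul_le_mul_of_nonneg_right ?_ (by positivity)
                have e1 : (univ.erase i).card ≤ k := by
                  refine (card_erase_le).trans ?_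
                  rw [card_univ, Fintype.card_fin]
                exact_mod_cast e1
      _ = _ := by rw [sum_const, card_univ, Fintype.card_fin, nsmul_eq_mul]
  refine (sum_le_sum h2).trans (le_of_eq ?_)
  rw [sum_const, nsmul_eq_mul, hXc]
  have e1 : (4 * √(3 * (M : ℝ))) ^ 2 = 16 * (3 * M) := by
    rw [mul_pow, Real.sq_sqrt (by positivity)]
    norm_num
  obtain ⟨n, rfl⟩ : ∃ n, k = n + 2 := ⟨k - 2, by omega⟩
  rw [e1]
  have e2 : n + 2 - 1 = n + 1 := by omega
  have e3 : n + 2 - 2 = n := by omega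
  have e4 : 2 * (n + 2) - 1 = 2 * n + 3 := by omega
  rw [e2, e3, e4]
  field_simp
  ring

end Pool.Agent.R532.Wa
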