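import Pool.Agent.R532.Wc3

/-!
# Sums of `k` powers with generic real coefficients: positive upper density
-/

set_option autoImplicit false

namespace Pool.Agent.R532.Wa

open MeasureTheory Finset Filter Topology

theorem ae_frequently (k : ℕ) (hk : 2 ≤ k) : ∀ᵐ l ∂(μs k), ∃ K : ℕ, ∃ᶠ j : ℕ in atTop,
    pairCount k k (2 ^ j) l ≤ K * ENNReal.ofReal (((2 : ℝ) ^ j) ^ k) := by
  set C : ENNReal := ENNReal.ofReal (32 * k ^ 2 * 3 ^ (2 * k - 1)) with hC
  set f : ℕ → (Fin k → ℝ) → ENNReal := fun j l =>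
    pairCount k k (2 ^ j) l / ENNReal.ofReal (((2 : ℝ) ^ j) ^ k) with hf
  have hpos : ∀ j : ℕ, ENNReal.ofReal (((2 : ℝ) ^ j) ^ k) ≠ 0 := fun j =>
    (ENNReal.ofReal_pos.2 (by positivity)).ne'
  have hfm : ∀ j, Measurable (f j) := fun j => (measurable_pairCount k k (2 ^ j)).div_const _
  have hfi : ∀ j, ∫⁻ l, f j l ∂(μs k) ≤ C := by
    intro j
    have h1 := mean_pairCount2 k (2 ^ j) hk Nat.one_le_two_pow
    rw [Nat.cast_pow, Nat.cast_ofNat, ← hC] at h1
    rw [hf]
    simp only [div_eq_mul_inv]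
    rw [lintegral_mul_const _ (measurable_pairCount k k (2 ^ j)), ← div_eq_mul_inv]
    rw [ENNReal.div_le_iff (hpos j) ENNReal.ofReal_ne_top]
    exact h1
  have h2 : ∫⁻ l, liminf (fun j => f j l) atTop ∂(μs k) ≤ C := by
    refine (lintegral_liminf_le hfm).trans ?_
    refine liminf_le_of_frequently_le' ?_
    exact (Eventually.of_forall hfi).frequently
  have h3 := ae_lt_top (Measurable.liminf hfm)
    (ne_top_of_le_ne_top ENNReal.ofReal_ne_top h2)
  filter_upwards [h3] with l hl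
  obtain ⟨K, hK⟩ := ENNReal.exists_nat_gt hl.ne
  refine ⟨K, ?_⟩
  refine (frequently_lt_of_liminf_lt (by isBoundedDefault) hK).mono fun j hj => ?_
  rw [hf] at hj
  simp only at hj
  rw [ENNReal.div_lt_iff (Or.inl (hpos j)) (Or.inl ENNReal.ofReal_ne_top)] at hj
  exact hj.le

/-- the points of the box with a value close to the one of `x` -/
noncomputable def partners (k s M : ℕ) (l : Fin s → ℝ) (x : Fin s → ℕ) : Finset (Fin s → ℕ) := by
  classical
  exact ((XX M s).erase x).filter fun y => |VV k s l x - VV k s l y| < 1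

lemma card_bad2 (k s M : ℕ) (l : Fin s → ℝ) (B : Finset (Fin s → ℕ)) (hB : B ⊆ XX M s) (r : ℕ)
    (h : ∀ x ∈ B, r ≤ (partners k s M l x).card) :
    (B.card : ENNReal) * r ≤ pairCount k s M l := by
  classical
  calc (B.card : ENNReal) * r = ∑ _x ∈ B, (r : ENNReal) := by rw [sum_const, nsmul_eq_mul]
    _ ≤ ∑ x ∈ B, ∑ y ∈ (XX M s).erase x, (closeCoeff k s x y).indicator 1 l := by
        refine sum_le_sum fun x hx => ?_
        have h1 : ∑ y ∈ (XX M s).erase x, (closeCoeff k s x y).indicator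
            (1 : (Fin s → ℝ) → ENNReal) l = ((partners k s M l x).card : ENNReal) := by
          unfold partners
          rw [card_eq_sum_ones, Nat.cast_sum, sum_filter]
          refine sum_congr (by congr) fun y _ => ?_
          by_cases hy : |VV k s l x - VV k s l y| < 1
          · rw [if_pos hy, Set.indicator_of_mem (show l ∈ closeCoeff k s x y from hy)]
            simp
          · rw [if_neg hy, Set.indicator_of_notMem (show l ∉ closeCoeff k s x y from hy)]
        rw [h1]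
        exact_mod_cast h x hx
    _ ≤ _ := sum_le_sum_of_subset_of_nonneg hB fun _ _ _ => bot_le

lemma count_scale2 (k M K : ℕ) (hs : 1 ≤ k) (hM : 1 ≤ M) (l l' : Fin k → ℝ)
    (hl' : ∀ i, 1 ≤ l' i ∧ l' i ≤ 2) (c : ℝ) (hc : 1 ≤ c) (q : Fin k → ℕ) (hq : ∀ i, 0 < q i)
    (hll : ∀ i, (q i : ℝ) ^ k / c * l i = l' i)
    (hP : pairCount k k M l' ≤ K * ENNReal.ofReal ((M : ℝ) ^ k))
    (Y : ℝ) (hY : c * (2 * k * (4 * (M : ℝ)) ^ k) ≤ Y) :
    (M : ℝ) ^ k ≤ (K + 1) * (floorValues k k l Y).ncard := by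
  classical
  have hM1 : (1 : ℝ) ≤ M := by exact_mod_cast hM
  have hM0 : (0 : ℝ) < M := by linarith
  have hc0 : 0 < c := by linarith
  have hs1 : (1 : ℝ) ≤ k := by exact_mod_cast hs
  set B : Finset (Fin k → ℕ) := (XX M k).filter fun x =>
    K + 1 ≤ (partners k k M l' x).card with hB
  have hBX : B ⊆ XX M k := filter_subset _ _
  have hBc : B.card ≤ M ^ k := by
    have h1 := (card_bad2 k k M l' B hBX (K + 1) fun x hx => (mem_filter.1 hx).2).trans hP
    have h2 : ENNReal.ofReal ((M : ℝ) ^ k) = ((M ^ k : ℕ) : ENNReal) := by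
      rw [← ENNReal.ofReal_natCast]
      push_cast
      rfl
    rw [h2] at h1
    have h3 : B.card * (K + 1) ≤ K * M ^ k := by exact_mod_cast h1
    by_contra hlt
    push Not at hlt
    have h4 : (M ^ k) * (K + 1) ≤ B.card * (K + 1) := Nat.mul_le_mul_right _ hlt.le
    have h5 : 0 < M ^ k := by positivity
    nlinarith
  have hXc : (XX M k).card = (3 * M) ^ k := by
    unfold XX
    rw [Fintype.card_piFinset, prod_const, Nat.card_Ioc, card_univ, Fintype.card_fin,
      show 4 * M - M = 3 * M by omega]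
  have hval : ∀ x : Fin k → ℕ, ∑ i, l i * (((q i * x i : ℕ)) : ℝ) ^ k = c * VV k k l' x := by
    intro x
    unfold VV
    rw [mul_sum]
    refine sum_congr rfl fun i _ => ?_
    rw [← hll i]
    push_cast
    rw [mul_pow]
    field_simp
  have hXb : ∀ x ∈ XX M k, 1 ≤ VV k k l' x ∧ VV k k l' x ≤ 2 * k * (4 * (M : ℝ)) ^ k := by
    intro x hx
    have hxi : ∀ i, M < x i ∧ x i ≤ 4 * M := fun i => mem_Ioc.1 ((Fintype.mem_piFinset.1 hx) i)
    unfold VV
    constructor
    · calc (1 : ℝ) ≤ k := hs1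
        _ = ∑ _i : Fin k, (1 : ℝ) := by simp
        _ ≤ _ := by
            refine sum_le_sum fun i _ => ?_
            have h1 : (1 : ℝ) ≤ x i := by
              have := (hxi i).1
              have h2 : 1 ≤ x i := by omega
              exact_mod_cast h2
            have h2 : (1 : ℝ) ≤ (x i : ℝ) ^ k := one_le_pow₀ h1
            have := (hl' i).1
            nlinarith
    · calc ∑ i, l' i * (x i : ℝ) ^ k ≤ ∑ _i : Fin k, 2 * (4 * (M : ℝ)) ^ k := by
            refine sum_le_sum fun i _ => ?_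
            have h1 : (x i : ℝ) ≤ 4 * M := by exact_mod_cast (hxi i).2
            have h2 : (x i : ℝ) ^ k ≤ (4 * (M : ℝ)) ^ k := pow_le_pow_left₀ (by positivity) h1 k
            have := (hl' i).2
            have h3 : 0 ≤ (x i : ℝ) ^ k := by positivity
            nlinarith
        _ = _ := by
            rw [sum_const, card_univ, Fintype.card_fin, nsmul_eq_mul]
            ring
  set φ : (Fin k → ℕ) → ℕ := fun x => ⌊∑ i, l i * (((q i * x i : ℕ)) : ℝ) ^ k⌋₊ with hφ
  have hmaps : ((XX M k \ B).image φ : Set ℕ) ⊆ floorValues k k l Y := by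
    intro n hn
    rw [Finset.mem_coe, mem_image] at hn
    obtain ⟨x, hx, rfl⟩ := hn
    obtain ⟨hx1, -⟩ := mem_sdiff.1 hx
    obtain ⟨h1, h2⟩ := hXb x hx1
    have hxi : ∀ i, 0 < x i := fun i => (Nat.zero_le M).trans_lt
      (mem_Ioc.1 ((Fintype.mem_piFinset.1 hx1) i)).1
    have h3 : 1 ≤ c * VV k k l' x := by nlinarith
    refine ⟨?_, ?_, fun i => q i * x i, fun i => Nat.mul_pos (hq i) (hxi i), rfl⟩
    · rw [hφ]
      simp only
      rw [hval x]
      exact Nat.floor_pos.2 h3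
    · rw [hφ]
      simp only
      rw [hval x]
      refine (Nat.floor_le (by linarith)).trans (le_trans ?_ hY)
      exact mul_le_mul_of_nonneg_left h2 hc0.le
  have hclose : ∀ x ∈ XX M k, ∀ y ∈ XX M k, φ x = φ y → |VV k k l' x - VV k k l' y| < 1 := by
    intro x hx y hy hxy
    rw [hφ] at hxy
    simp only at hxy
    rw [hval x, hval y] at hxy
    obtain ⟨h1, -⟩ := hXb x hx
    obtain ⟨h2, -⟩ := hXb y hy
    have a1 := Nat.floor_le (show 0 ≤ c * VV k k l' x by nlinarith)
    have a2 := Nat.floor_le (show 0 ≤ c * VV k k l' y by nlinarith)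
    have a3 := Nat.lt_floor_add_one (c * VV k k l' x)
    have a4 := Nat.lt_floor_add_one (c * VV k k l' y)
    rw [hxy] at a1 a3
    have a5 : |c * (VV k k l' x - VV k k l' y)| < 1 := by
      rw [abs_lt, mul_sub]
      constructor <;> linarith
    rw [abs_mul, abs_of_pos hc0] at a5
    have a6 : 0 ≤ |VV k k l' x - VV k k l' y| := abs_nonneg _
    nlinarith
  have hfib : (XX M k \ B).card ≤ (K + 1) * ((XX M k \ B).image φ).card := by
    refine card_le_mul_card_image (XX M k \ B) (K + 1) fun n hn => ?_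
    obtain ⟨a, ha, rfl⟩ := mem_image.1 hn
    obtain ⟨ha1, ha2⟩ := mem_sdiff.1 ha
    have hpa : (partners k k M l' a).card < K + 1 := by
      by_contra hge
      push Not at hge
      exact ha2 (mem_filter.2 ⟨ha1, hge⟩)
    have hsub : (XX M k \ B).filter (fun x => φ x = φ a) ⊆ insert a (partners k k M l' a) := by
      intro y hy
      obtain ⟨hy1, hy2⟩ := mem_filter.1 hy
      obtain ⟨hy3, -⟩ := mem_sdiff.1 hy1
      by_cases hya : y = a
      · exact mem_insert.2 (Or.inl hya)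
      · refine mem_insert.2 (Or.inr ?_)
        unfold partners
        exact mem_filter.2 ⟨mem_erase.2 ⟨hya, hy3⟩, hclose a ha1 y hy3 hy2.symm⟩
    exact (card_le_card hsub).trans ((card_insert_le _ _).trans hpa)
  have hn : ((XX M k \ B).image φ).card ≤ (floorValues k k l Y).ncard := by
    rw [← Set.ncard_coe_finset]
    exact Set.ncard_le_ncard hmaps (floorValues_finite k k l Y)
  have hcard : M ^ k ≤ (XX M k \ B).card := by
    rw [card_sdiff_of_subset hBX, hXc, mul_pow]
    have h3 : 3 ≤ 3 ^ k := by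
      calc 3 = 3 ^ 1 := by norm_num
        _ ≤ _ := Nat.pow_le_pow_right (by norm_num) hs
    have h4 : 3 * M ^ k ≤ 3 ^ k * M ^ k := Nat.mul_le_mul_right _ h3
    omega
  have hfin : M ^ k ≤ (K + 1) * (floorValues k k l Y).ncard :=
    hcard.trans (hfib.trans (Nat.mul_le_mul_left _ hn))
  exact_mod_cast hfin

/-- **Positive upper density for generic coefficients.** -/
theorem upper_density (k : ℕ) (hk : 2 ≤ k) :
    ∀ᵐ l : Fin k → ℝ, (∀ i, 0 < l i) → ∃ κ : ℝ, 0 < κ ∧ ∃ᶠ Y : ℝ in atTop,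
      κ * Y ≤ (floorValues k k l Y).ncard := by
  have hk1 : (1 : ℝ) ≤ k := by exact_mod_cast (by omega : 1 ≤ k)
  have hm : MeasurableSet (Set.univ.pi fun _ : Fin k => Set.Icc (1 : ℝ) 2) :=
    MeasurableSet.univ_pi fun _ => measurableSet_Icc
  have h0 := ae_frequently k hk
  rw [← volume_cube] at h0
  have h1 := (ae_restrict_iff' hm).1 h0
  have h2 : ∀ a : ℕ × (Fin k → ℕ), ∀ᵐ l : Fin k → ℝ, 0 < a.1 → (∀ i, 0 < a.2 i) →
      (∀ i, (a.2 i : ℝ) ^ k / a.1 * l i ∈ Set.Icc (1 : ℝ) 2) →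
        ∃ K : ℕ, ∃ᶠ j : ℕ in atTop, pairCount k k (2 ^ j) (fun i => (a.2 i : ℝ) ^ k / a.1 * l i) ≤
          K * ENNReal.ofReal (((2 : ℝ) ^ j) ^ k) := by
    intro a
    by_cases ha : 0 < a.1 ∧ ∀ i, 0 < a.2 i
    · have h3 := ae_diag k (fun i => (a.2 i : ℝ) ^ k / a.1) (fun i => by
        have h4 : (0 : ℝ) < a.1 := by exact_mod_cast ha.1
        have h5 : (0 : ℝ) < a.2 i := by exact_mod_cast ha.2 i
        positivity) h1
      filter_upwards [h3] with l hl _ _ h6
      exact hl fun i _ => h6 i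
    · refine Eventually.of_forall fun l h4 h5 => absurd ⟨h4, h5⟩ ha
  filter_upwards [ae_all_iff.2 h2] with l hl hl0
  obtain ⟨c, hc, q, hq, hcq⟩ := exists_scale k k (by omega) l hl0
  obtain ⟨K, hK⟩ := hl (c, q) hc hq hcq
  have hc1 : (1 : ℝ) ≤ c := by exact_mod_cast hc
  set D : ℝ := c * (2 * k * 4 ^ k) with hD
  have hD0 : 0 < D := by positivity
  refine ⟨1 / (D * (K + 1)), by positivity, ?_⟩
  have htend : Tendsto (fun j : ℕ => D * ((2 : ℝ) ^ j) ^ k) atTop atTop := by
    refine Tendsto.const_mul_atTop hD0 ?_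
    exact (tendsto_pow_atTop (by omega)).comp (tendsto_pow_atTop_atTop_of_one_lt (by norm_num))
  refine htend.frequently (hK.mono fun j hj => ?_)
  have hmain := count_scale2 k (2 ^ j) K (by omega) Nat.one_le_two_pow l
    (fun i => (q i : ℝ) ^ k / c * l i) (fun i => Set.mem_Icc.1 (hcq i)) c hc1 q hq (fun i => rfl)
    (by
      push_cast
      exact hj) (D * ((2 : ℝ) ^ j) ^ k) (by
      push_cast
      rw [hD, mul_pow]
      exact le_of_eq (by ring))
  push_cast at hmain
  rw [div_mul_eq_mul_div, one_mul, div_le_iff₀ (by positivity)]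
  calc D * ((2 : ℝ) ^ j) ^ k ≤ D * ((K + 1) * (floorValues k k l (D * ((2 : ℝ) ^ j) ^ k)).ncard) :=
        mul_le_mul_of_nonneg_left hmain hD0.le
    _ = _ := by ring

end Pool.Agent.R532.Wa
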