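import Pool.Agent.R532.Wc4

/-!
# Sums of `k` powers with generic real coefficients: a lower bound for all large `Y`
-/

set_option autoImplicit false

namespace Pool.Agent.R532.Wa

open MeasureTheory Finset Filter Topology

theorem ae_log (k : ℕ) (hk : 2 ≤ k) {ε : ℝ} (hε : 0 < ε) : ∀ᵐ l ∂(μs k), ∀ᶠ j : ℕ in atTop,
    pairCount k k (2 ^ j) l ≤ (⌈((j : ℝ) + 1) ^ (1 + ε)⌉₊ : ℕ) *
      ENNReal.ofReal (((2 : ℝ) ^ j) ^ k) := by
  set C : ℝ := 32 * k ^ 2 * 3 ^ (2 * k - 1) with hC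
  have hC0 : 0 ≤ C := by positivity
  set A : ℕ → Set (Fin k → ℝ) := fun j =>
    {l | ENNReal.ofReal (((j : ℝ) + 1) ^ (1 + ε) * ((2 : ℝ) ^ j) ^ k) ≤ pairCount k k (2 ^ j) l} with hA
  have hmeas : ∀ j, μs k (A j) ≤ ENNReal.ofReal (C * (((j + 1 : ℕ) : ℝ) ^ (1 + ε))⁻¹) := by
    intro j
    set m : ℝ := (2 : ℝ) ^ j with hm
    have hm0 : 0 < m := by positivity
    have hpos : 0 < ((j : ℝ) + 1) ^ (1 + ε) * m ^ k := by positivity
    have h1 := mul_meas_ge_le_lintegral (μ := μs k) (measurable_pairCount k k (2 ^ j))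
      (ENNReal.ofReal (((j : ℝ) + 1) ^ (1 + ε) * m ^ k))
    have h2 := mean_pairCount2 k (2 ^ j) hk Nat.one_le_two_pow
    rw [Nat.cast_pow, Nat.cast_ofNat, ← hm, ← hC, ← ENNReal.ofReal_mul hC0] at h2
    have h3 : C * m ^ k = (((j : ℝ) + 1) ^ (1 + ε) * m ^ k) *
        (C * (((j + 1 : ℕ) : ℝ) ^ (1 + ε))⁻¹) := by
      push_cast
      have : ((j : ℝ) + 1) ^ (1 + ε) ≠ 0 := by positivity
      field_simp
    rw [h3] at h2
    have h4 := h1.trans h2
    rw [ENNReal.ofReal_mul hpos.le] at h4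
    exact (ENNReal.mul_le_mul_iff_right (ENNReal.ofReal_pos.2 hpos).ne' ENNReal.ofReal_ne_top).1 h4
  have hsum : ∑' j, μs k (A j) ≠ ⊤ := by
    refine ne_top_of_le_ne_top ?_ (ENNReal.tsum_le_tsum hmeas)
    have hs1 : Summable fun j : ℕ => C * (((j + 1 : ℕ) : ℝ) ^ (1 + ε))⁻¹ :=
      ((summable_nat_add_iff 1).2 (Real.summable_nat_rpow_inv.2 (by linarith))).mul_left C
    rw [← ENNReal.ofReal_tsum_of_nonneg (fun j => by positivity) hs1]
    exact ENNReal.ofReal_ne_top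
  filter_upwards [ae_eventually_notMem hsum] with l hl
  filter_upwards [hl] with j hj
  simp only [hA, Set.mem_setOf_eq, not_le] at hj
  refine hj.le.trans ?_
  rw [ENNReal.ofReal_mul (by positivity)]
  gcongr
  rw [← ENNReal.ofReal_natCast]
  exact ENNReal.ofReal_le_ofReal (Nat.le_ceil _)

/-- **At least `Y / (log Y) ^ (1 + ε)` integer parts for all large `Y`.** -/
theorem log_count (k : ℕ) (hk : 2 ≤ k) :
    ∀ᵐ l : Fin k → ℝ, (∀ i, 0 < l i) → ∀ ε : ℝ, 0 < ε → ∀ᶠ Y : ℝ in atTop,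
      Y / Real.log Y ^ (1 + ε) ≤ (floorValues k k l Y).ncard := by
  have hk1 : (2 : ℝ) ≤ k := by exact_mod_cast hk
  have hm : MeasurableSet (Set.univ.pi fun _ : Fin k => Set.Icc (1 : ℝ) 2) :=
    MeasurableSet.univ_pi fun _ => measurableSet_Icc
  have h0 := ae_all_iff.2 fun n : ℕ => ae_log k hk (Nat.one_div_pos_of_nat (n := n) (α := ℝ))
  rw [← volume_cube] at h0
  have h1 := (ae_restrict_iff' hm).1 h0
  have h2 : ∀ a : ℕ × (Fin k → ℕ), ∀ᵐ l : Fin k → ℝ, 0 < a.1 → (∀ i, 0 < a.2 i) →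
      (∀ i, (a.2 i : ℝ) ^ k / a.1 * l i ∈ Set.Icc (1 : ℝ) 2) →
        ∀ n : ℕ, ∀ᶠ j : ℕ in atTop,
          pairCount k k (2 ^ j) (fun i => (a.2 i : ℝ) ^ k / a.1 * l i) ≤
            (⌈((j : ℝ) + 1) ^ (1 + 1 / ((n : ℝ) + 1))⌉₊ : ℕ) *
              ENNReal.ofReal (((2 : ℝ) ^ j) ^ k) := by
    intro a
    by_cases ha : 0 < a.1 ∧ ∀ i, 0 < a.2 i
    · have h3 := ae_diag k (fun i => (a.2 i : ℝ) ^ k / a.1) (fun i => by
        have h4 : (0 : ℝ) < a.1 := by exact_mod_cast ha.1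
        have h5 : (0 : ℝ) < a.2 i := by exact_mod_cast ha.2 i
        positivity) h1
      filter_upwards [h3] with l hl _ _ h6
      exact hl fun i _ => h6 i
    · refine Eventually.of_forall fun l h4 h5 => absurd ⟨h4, h5⟩ ha
  filter_upwards [ae_all_iff.2 h2] with l hl hl0 ε hε
  obtain ⟨n, hn⟩ := exists_nat_one_div_lt (show 0 < ε / 2 by linarith)
  set η : ℝ := 1 / ((n : ℝ) + 1) with hη
  have hη0 : 0 < η := by positivity
  obtain ⟨c, hc, q, hq, hcq⟩ := exists_scale k k (by omega) l hl0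
  obtain ⟨j₀, hj₀⟩ := eventually_atTop.1 (hl (c, q) hc hq hcq n)
  have hc1 : (1 : ℝ) ≤ c := by exact_mod_cast hc
  set D : ℝ := c * (2 * k * 4 ^ k) with hD
  have h4k : (1 : ℝ) ≤ 4 ^ k := one_le_pow₀ (by norm_num)
  have hD1 : 1 ≤ D := by
    have h3 : 1 ≤ 2 * (k : ℝ) * 4 ^ k := by nlinarith
    rw [hD]
    nlinarith
  have hD0 : 0 < D := by linarith
  have hk2 : (1 : ℝ) < 2 ^ k := one_lt_pow₀ (by norm_num) (by omega)
  set W : ℝ := D * 2 ^ k * (3 * 2 ^ (1 + η)) with hW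
  have hW0 : 0 < W := by positivity
  filter_upwards [eventually_ge_atTop D, eventually_ge_atTop (D * ((2 : ℝ) ^ k) ^ j₀),
    eventually_ge_atTop (Real.exp 1), Real.tendsto_log_atTop.eventually
      ((tendsto_rpow_atTop (show (0 : ℝ) < ε / 2 by positivity)).eventually
        (eventually_ge_atTop W))] with Y hY1 hY2 hY3 hY4
  have hY0 : 0 < Y := by linarith
  have hL1 : 1 ≤ Real.log Y := by
    rw [← Real.log_exp 1]
    exact Real.log_le_log (Real.exp_pos 1) hY3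
  set L : ℝ := Real.log Y with hL
  have hL0 : 0 < L := by linarith
  have hX : 1 ≤ Y / D := by
    rw [le_div_iff₀ hD0]
    linarith
  obtain ⟨j, hj1, hj2⟩ := exists_nat_pow_near hX hk2
  have hjj : j₀ ≤ j := by
    by_contra hlt
    push Not at hlt
    have h3 : ((2 : ℝ) ^ k) ^ (j + 1) ≤ ((2 : ℝ) ^ k) ^ j₀ :=
      pow_le_pow_right₀ hk2.le hlt
    rw [div_lt_iff₀ hD0] at hj2
    have h4 : ((2 : ℝ) ^ k) ^ (j + 1) * D ≤ ((2 : ℝ) ^ k) ^ j₀ * D :=
      mul_le_mul_of_nonneg_right h3 hD0.le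
    linarith
  have hpk : ((2 : ℝ) ^ k) ^ j = ((2 : ℝ) ^ j) ^ k := by rw [← pow_mul, ← pow_mul, mul_comm]
  have hjY : (j : ℝ) ≤ L := by
    have h3 : Real.exp (j : ℝ) ≤ Y := by
      have h4 : Real.exp (j : ℝ) ≤ ((2 : ℝ) ^ k) ^ j := by
        rw [← mul_one (j : ℝ), Real.exp_nat_mul]
        refine pow_le_pow_left₀ (Real.exp_pos 1).le ?_ j
        have h5 : (4 : ℝ) ≤ 2 ^ k := by
          calc (4 : ℝ) = 2 ^ 2 := by norm_num
            _ ≤ _ := pow_le_pow_right₀ (by norm_num) hk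
        have h6 := Real.exp_one_lt_d9
        linarith
      refine h4.trans (hj1.trans ?_)
      exact div_le_self hY0.le hD1
    rw [hL]
    exact (Real.le_log_iff_exp_le hY0).2 h3
  set K : ℕ := ⌈((j : ℝ) + 1) ^ (1 + η)⌉₊ with hK
  have hmain := count_scale2 k (2 ^ j) K (by omega) Nat.one_le_two_pow l
    (fun i => (q i : ℝ) ^ k / c * l i) (fun i => Set.mem_Icc.1 (hcq i)) c hc1 q hq (fun i => rfl)
    (by
      have := hj₀ j hjj
      push_cast
      exact this) Y (by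
      push_cast
      rw [le_div_iff₀ hD0, hpk] at hj1
      refine le_trans (le_of_eq ?_) hj1
      rw [hD, mul_pow]
      ring)
  push_cast at hmain
  set m : ℝ := (2 : ℝ) ^ j with hm'
  have hm0 : 0 < m := by positivity
  set Z : ℝ := ((floorValues k k l Y).ncard : ℝ) with hZ
  have hZ0 : 0 ≤ Z := Nat.cast_nonneg _
  have hK1 : (K : ℝ) + 1 ≤ 3 * 2 ^ (1 + η) * L ^ (1 + η) := by
    have h3 : (K : ℝ) < ((j : ℝ) + 1) ^ (1 + η) + 1 := Nat.ceil_lt_add_one (by positivity)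
    have h4 : (1 : ℝ) ≤ ((j : ℝ) + 1) ^ (1 + η) :=
      Real.one_le_rpow (by linarith [Nat.cast_nonneg (α := ℝ) j]) (by positivity)
    have h5 : ((j : ℝ) + 1) ^ (1 + η) ≤ (2 * L) ^ (1 + η) :=
      Real.rpow_le_rpow (by positivity) (by linarith) (by positivity)
    rw [Real.mul_rpow (by norm_num) hL0.le] at h5
    have h6 : 0 < 2 ^ (1 + η) * L ^ (1 + η) := by positivity
    nlinarith
  have h5 : Y ≤ (D * 2 ^ k) * m ^ k := by
    rw [div_lt_iff₀ hD0, pow_succ, hpk] at hj2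
    refine hj2.le.trans (le_of_eq ?_)
    ring
  have h6 : Y ≤ W * L ^ (1 + η) * Z := by
    calc Y ≤ (D * 2 ^ k) * m ^ k := h5
      _ ≤ (D * 2 ^ k) * ((K + 1) * Z) := mul_le_mul_of_nonneg_left hmain (by positivity)
      _ ≤ (D * 2 ^ k) * ((3 * 2 ^ (1 + η) * L ^ (1 + η)) * Z) := by gcongr
      _ = _ := by
          rw [hW]
          ring
  rw [div_le_iff₀ (by positivity)]
  calc Y ≤ W * L ^ (1 + η) * Z := h6
    _ ≤ L ^ (ε / 2) * L ^ (1 + ε / 2) * Z := by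
        have h7 : L ^ (1 + η) ≤ L ^ (1 + ε / 2) :=
          Real.rpow_le_rpow_of_exponent_le hL1 (by linarith)
        gcongr
    _ = Z * L ^ (1 + ε) := by
        rw [← Real.rpow_add hL0, mul_comm]
        congr 2
        ring

end Pool.Agent.R532.Wa
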