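import Pool.Agent.R532.Wc4

/-!
# Sums of `k` powers with generic real coefficients: mean square of the representation numbers
-/

set_option autoImplicit false

namespace Pool.Agent.R532.Wa

open MeasureTheory Finset Filter Topology

/-- the root `√(|a - b| max a b)` off the diagonal, `1` on it -/
noncomputable def ee (a b : ℕ) : ℝ := if a = b then 1 else √(|(a : ℝ) - b| * max (a : ℝ) b)

lemma abs_ge_one {a b : ℕ} (h : a ≠ b) : (1 : ℝ) ≤ |(a : ℝ) - b| := by
  have e2 : (1 : ℤ) ≤ |(a : ℤ) - b| := by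
    have : (a : ℤ) - b ≠ 0 := by
      rw [sub_ne_zero]
      exact_mod_cast h
    exact Int.one_le_abs this
  exact_mod_cast e2

lemma ee_ge_one {a b : ℕ} (ha : 1 ≤ a) : 1 ≤ ee a b := by
  unfold ee
  split_ifs with h
  · exact le_rfl
  · have h1 := abs_ge_one h
    have h2 : (1 : ℝ) ≤ max (a : ℝ) b := le_trans (by exact_mod_cast ha) (le_max_left _ _)
    rw [show (1 : ℝ) = √1 by simp]
    exact Real.sqrt_le_sqrt (by nlinarith)

lemma ee_pow {k : ℕ} (hk : 2 ≤ k) {a b : ℕ} (h : a ≠ b) :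
    ee a b ^ k ≤ |(a : ℝ) ^ k - (b : ℝ) ^ k| := by
  unfold ee
  rw [if_neg h]
  obtain ⟨n, rfl⟩ : ∃ n, k = n + 2 := ⟨k - 2, by omega⟩
  have key : ∀ u v : ℝ, 0 ≤ v → v ≤ u → √((u - v) * u) ^ (n + 2) ≤ u ^ (n + 2) - v ^ (n + 2) := by
    intro u v hv huv
    have hu : 0 ≤ u := hv.trans huv
    have h1 : √((u - v) * u) ≤ u := Real.sqrt_le_iff.2 ⟨hu, by nlinarith⟩
    have h2 : √((u - v) * u) ^ 2 = (u - v) * u := Real.sq_sqrt (by nlinarith)
    have h3 : √((u - v) * u) ^ n ≤ u ^ n := pow_le_pow_left₀ (Real.sqrt_nonneg _) h1 n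
    have h4 : v ^ (n + 1) ≤ u ^ (n + 1) := pow_le_pow_left₀ hv huv _
    calc √((u - v) * u) ^ (n + 2) = √((u - v) * u) ^ n * √((u - v) * u) ^ 2 := pow_add _ _ _
      _ = √((u - v) * u) ^ n * ((u - v) * u) := by rw [h2]
      _ ≤ u ^ n * ((u - v) * u) := mul_le_mul_of_nonneg_right h3 (by nlinarith)
      _ = u ^ (n + 2) - v * u ^ (n + 1) := by ring
      _ ≤ u ^ (n + 2) - v * v ^ (n + 1) := by nlinarith
      _ = _ := by ring
  rcases le_total (a : ℝ) b with hab | hab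
  · rw [abs_sub_comm, abs_of_nonneg (by linarith), max_eq_right hab, abs_sub_comm]
    exact (key b a (Nat.cast_nonneg a) hab).trans (le_abs_self _)
  · rw [abs_of_nonneg (by linarith), max_eq_left hab]
    exact (key a b (Nat.cast_nonneg b) hab).trans (le_abs_self _)

/-- the weight -/
noncomputable def ww (a b : ℕ) : ℝ := (ee a b)⁻¹

lemma ww_nonneg (a b : ℕ) : 0 ≤ ww a b := by
  unfold ww ee
  split_ifs <;> positivity

/-- the half weight -/
noncomputable def w₁ (a b : ℕ) : ℝ := if b < a then 1 / √(((a - b - 1 : ℕ) : ℝ) + 1) / √(a : ℝ) else 0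

lemma w₁_nonneg (a b : ℕ) : 0 ≤ w₁ a b := by
  unfold w₁
  split_ifs <;> positivity

lemma ww_le (a b : ℕ) : ww a b ≤ (if a = b then 1 else 0) + w₁ a b + w₁ b a := by
  unfold ww ee
  rcases lt_trichotomy a b with h | h | h
  · have h1 := w₁_nonneg a b
    rw [if_neg h.ne, if_neg h.ne]
    have e1 : ((b - a - 1 : ℕ) : ℝ) + 1 = (b : ℝ) - a := by
      have e3 : b - a - 1 + 1 + a = b := by omega
      have e4 : ((b - a - 1 : ℕ) : ℝ) + 1 + a = b := by exact_mod_cast e3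
      linarith
    have e2 : (a : ℝ) < b := by exact_mod_cast h
    have e5 : w₁ b a = (√(|(a : ℝ) - b| * max (a : ℝ) b))⁻¹ := by
      unfold w₁
      rw [if_pos h, e1, abs_sub_comm, abs_of_pos (by linarith), max_eq_right e2.le,
        Real.sqrt_mul (by linarith), div_div, one_div]
    rw [e5]
    linarith
  · rw [if_pos h, if_pos h]
    have h1 := w₁_nonneg a b
    have h2 := w₁_nonneg b a
    rw [inv_one]
    linarith
  · have h1 := w₁_nonneg b a
    rw [if_neg h.ne', if_neg h.ne']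
    have e1 : ((a - b - 1 : ℕ) : ℝ) + 1 = (a : ℝ) - b := by
      have e3 : a - b - 1 + 1 + b = a := by omega
      have e4 : ((a - b - 1 : ℕ) : ℝ) + 1 + b = a := by exact_mod_cast e3
      linarith
    have e2 : (b : ℝ) < a := by exact_mod_cast h
    have e5 : w₁ a b = (√(|(a : ℝ) - b| * max (a : ℝ) b))⁻¹ := by
      unfold w₁
      rw [if_pos h, e1, abs_of_pos (by linarith), max_eq_left e2.le,
        Real.sqrt_mul (by linarith), div_div, one_div]
    rw [e5]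
    linarith

lemma sum_w₁ (P a : ℕ) (ha : a ∈ Ioc 0 P) : ∑ b ∈ Ioc 0 P, w₁ a b ≤ 2 := by
  classical
  rw [mem_Ioc] at ha
  unfold w₁
  rw [← sum_filter, ← sum_div]
  have hA : ∑ y ∈ (Ioc 0 P).filter (fun y => y < a), 1 / √(((a - y - 1 : ℕ) : ℝ) + 1) ≤
      ∑ d ∈ range a, 1 / √((d : ℝ) + 1) := by
    rw [← sum_image (s := (Ioc 0 P).filter fun y => y < a) (g := fun y => a - y - 1)
      (f := fun d : ℕ => 1 / √((d : ℝ) + 1))]
    · refine sum_le_sum_of_subset_of_nonneg ?_ fun _ _ _ => by positivity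
      intro d hd
      obtain ⟨y, hy, rfl⟩ := mem_image.1 hd
      rw [mem_filter, mem_Ioc] at hy
      rw [mem_range]
      omega
    · intro u hu v hv huv
      simp only [coe_filter, mem_Ioc, Set.mem_setOf_eq] at hu hv huv
      omega
  have ha0 : (0 : ℝ) < a := by exact_mod_cast ha.1
  have hp : 0 < √(a : ℝ) := Real.sqrt_pos.2 ha0
  rw [div_le_iff₀ hp]
  exact hA.trans (sum_inv_sqrt a)

lemma sum_ww (P : ℕ) : ∑ a ∈ Ioc 0 P, ∑ b ∈ Ioc 0 P, ww a b ≤ 5 * P := by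
  classical
  calc ∑ a ∈ Ioc 0 P, ∑ b ∈ Ioc 0 P, ww a b
      ≤ ∑ a ∈ Ioc 0 P, ∑ b ∈ Ioc 0 P, ((if a = b then 1 else 0) + w₁ a b + w₁ b a) :=
        sum_le_sum fun a _ => sum_le_sum fun b _ => ww_le a b
    _ = ∑ a ∈ Ioc 0 P, ∑ b ∈ Ioc 0 P, (if a = b then (1 : ℝ) else 0) +
        ∑ a ∈ Ioc 0 P, ∑ b ∈ Ioc 0 P, w₁ a b + ∑ a ∈ Ioc 0 P, ∑ b ∈ Ioc 0 P, w₁ b a := by
        simp only [sum_add_distrib]
    _ = ∑ a ∈ Ioc 0 P, ∑ b ∈ Ioc 0 P, (if a = b then (1 : ℝ) else 0) +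
        ∑ a ∈ Ioc 0 P, ∑ b ∈ Ioc 0 P, w₁ a b + ∑ a ∈ Ioc 0 P, ∑ b ∈ Ioc 0 P, w₁ a b := by
        congr 1
        exact sum_comm
    _ ≤ P + 2 * P + 2 * P := by
        have h1 : ∑ a ∈ Ioc 0 P, ∑ b ∈ Ioc 0 P, (if a = b then (1 : ℝ) else 0) ≤ P := by
          calc ∑ a ∈ Ioc 0 P, ∑ b ∈ Ioc 0 P, (if a = b then (1 : ℝ) else 0)
              ≤ ∑ _a ∈ Ioc 0 P, (1 : ℝ) := by
                refine sum_le_sum fun a ha => ?_
                rw [sum_ite_eq, if_pos ha]
            _ = P := by simp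
        have h2 : ∑ a ∈ Ioc 0 P, ∑ b ∈ Ioc 0 P, w₁ a b ≤ 2 * P := by
          calc ∑ a ∈ Ioc 0 P, ∑ b ∈ Ioc 0 P, w₁ a b ≤ ∑ _a ∈ Ioc 0 P, (2 : ℝ) :=
                sum_le_sum fun a ha => sum_w₁ P a ha
            _ = 2 * P := by
                rw [sum_const, Nat.card_Ioc, Nat.sub_zero, nsmul_eq_mul]
                ring
        linarith
    _ = 5 * P := by ring

/-- the box `[1, P] ^ s` -/
def YY (P s : ℕ) : Finset (Fin s → ℕ) := Fintype.piFinset fun _ : Fin s => Ioc 0 P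

lemma meas_full (k P : ℕ) (hk : 2 ≤ k) (x y : Fin k → ℕ) (hx : x ∈ YY P k) :
    μs k (closeCoeff k k x y) ≤ ENNReal.ofReal (2 * ∏ t, ww (x t) (y t)) := by
  classical
  have hx1 : ∀ i, 1 ≤ x i := fun i => (mem_Ioc.1 ((Fintype.mem_piFinset.1 hx) i)).1
  by_cases hxy : x = y
  · have h1 : ∏ t, ww (x t) (y t) = 1 := by
      refine prod_eq_one fun t _ => ?_
      rw [hxy]
      unfold ww ee
      simp
    rw [h1, mul_one]
    refine prob_le_one.trans ?_
    rw [← ENNReal.ofReal_one]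
    exact ENNReal.ofReal_le_ofReal (by norm_num)
  · have hne : (univ : Finset (Fin k)).Nonempty := ⟨⟨0, by omega⟩, mem_univ _⟩
    obtain ⟨i, -, hi⟩ := exists_max_image univ (fun t => ee (x t) (y t)) hne
    obtain ⟨j, hj⟩ := Function.ne_iff.1 hxy
    have hprod0 : 0 < ∏ t, ee (x t) (y t) :=
      prod_pos fun t _ => lt_of_lt_of_le one_pos (ee_ge_one (hx1 t))
    have hw : ∏ t, ww (x t) (y t) = (∏ t, ee (x t) (y t))⁻¹ := by
      unfold ww
      exact prod_inv_distrib _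
    have hle : ∏ t, ee (x t) (y t) ≤ ee (x i) (y i) ^ k := by
      calc ∏ t, ee (x t) (y t) ≤ ∏ _t : Fin k, ee (x i) (y i) :=
            prod_le_prod (fun t _ => (lt_of_lt_of_le one_pos (ee_ge_one (hx1 t))).le)
              fun t ht => hi t ht
        _ = _ := by rw [prod_const, card_univ, Fintype.card_fin]
    obtain ⟨n, rfl⟩ : ∃ n, k = n + 1 := ⟨k - 1, by omega⟩
    have hex : ∃ t, x t ≠ y t ∧ ∏ t, ee (x t) (y t) ≤ |(x t : ℝ) ^ (n + 1) - (y t : ℝ) ^ (n + 1)| := by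
      by_cases hii : x i = y i
      · refine ⟨j, hj, ?_⟩
        have h1 : ee (x i) (y i) = 1 := by
          unfold ee
          rw [if_pos hii]
        rw [h1, one_pow] at hle
        have h2 := ee_pow hk hj
        exact hle.trans ((one_le_pow₀ (ee_ge_one (hx1 j))).trans h2)
      · exact ⟨i, hii, hle.trans (ee_pow hk hii)⟩
    obtain ⟨t, ht, hle2⟩ := hex
    have h4 : 0 < |(x t : ℝ) ^ (n + 1) - (y t : ℝ) ^ (n + 1)| := hprod0.trans_le hle2
    refine (meas_pair (n + 1) n x y t (abs_pos.1 h4)).trans (ENNReal.ofReal_le_ofReal ?_)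
    rw [hw, ← div_eq_mul_inv]
    exact div_le_div_of_nonneg_left (by norm_num) hprod0 hle2

/-- the number of pairs with close values in the full box -/
noncomputable def fullCount (k P : ℕ) (l : Fin k → ℝ) : ENNReal :=
  ∑ x ∈ YY P k, ∑ y ∈ YY P k, (closeCoeff k k x y).indicator 1 l

lemma measurable_fullCount (k P : ℕ) : Measurable (fullCount k P) := by
  unfold fullCount
  refine Finset.measurable_sum _ fun x _ => Finset.measurable_sum _ fun y _ => ?_
  exact measurable_one.indicator (measurable_close k k x y)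

lemma mean_fullCount (k P : ℕ) (hk : 2 ≤ k) :
    ∫⁻ l, fullCount k P l ∂(μs k) ≤ ENNReal.ofReal (2 * (5 * (P : ℝ)) ^ k) := by
  classical
  unfold fullCount
  rw [lintegral_finset_sum _ fun x _ => Finset.measurable_sum _ fun y _ =>
    measurable_one.indicator (measurable_close k k x y)]
  have hnn : ∀ x y : Fin k → ℕ, 0 ≤ 2 * ∏ t, ww (x t) (y t) := fun x y =>
    mul_nonneg (by norm_num) (prod_nonneg fun t _ => ww_nonneg _ _)
  have h1 : ∀ x ∈ YY P k, ∫⁻ l, ∑ y ∈ YY P k, (closeCoeff k k x y).indicator 1 l ∂(μs k) ≤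
      ENNReal.ofReal (∑ y ∈ YY P k, 2 * ∏ t, ww (x t) (y t)) := by
    intro x hx
    rw [lintegral_finset_sum _ fun y _ => measurable_one.indicator (measurable_close k k x y)]
    rw [ENNReal.ofReal_sum_of_nonneg fun y _ => hnn x y]
    refine sum_le_sum fun y hy => ?_
    rw [lintegral_indicator_one (measurable_close k k x y)]
    exact meas_full k P hk x y hx
  refine (sum_le_sum h1).trans ?_
  rw [← ENNReal.ofReal_sum_of_nonneg fun x _ => sum_nonneg fun y _ => hnn x y]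
  refine ENNReal.ofReal_le_ofReal ?_
  have h2 : ∀ x ∈ YY P k, ∑ y ∈ YY P k, 2 * ∏ t, ww (x t) (y t) =
      2 * ∏ t, ∑ b ∈ Ioc 0 P, ww (x t) b := by
    intro x _
    rw [← mul_sum, prod_univ_sum]
    rfl
  rw [sum_congr rfl h2, ← mul_sum]
  have h3 : ∑ x ∈ YY P k, ∏ t, ∑ b ∈ Ioc 0 P, ww (x t) b =
      ∏ _t : Fin k, ∑ a ∈ Ioc 0 P, ∑ b ∈ Ioc 0 P, ww a b := by
    rw [prod_univ_sum]
    rfl
  rw [h3, prod_const, card_univ, Fintype.card_fin]
  refine mul_le_mul_of_nonneg_left (pow_le_pow_left₀ ?_ (sum_ww P) k) (by norm_num)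
  exact sum_nonneg fun a _ => sum_nonneg fun b _ => ww_nonneg a b

/-- for almost all coefficients the number of close pairs is `P ^ (k + ε)` -/
theorem ae_full (k : ℕ) (hk : 2 ≤ k) {ε : ℝ} (hε : 0 < ε) :
    ∀ᵐ l ∂(μs k), ∀ᶠ j : ℕ in atTop,
      fullCount k (2 ^ j) l < ENNReal.ofReal (((2 : ℝ) ^ j) ^ ((k : ℝ) + ε)) := by
  set C : ℝ := 2 * 5 ^ k with hC
  have hC0 : 0 < C := by positivity
  set A : ℕ → Set (Fin k → ℝ) := fun j =>
    {l | ENNReal.ofReal (((2 : ℝ) ^ j) ^ ((k : ℝ) + ε)) ≤ fullCount k (2 ^ j) l} with hA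
  have hmeas : ∀ j, μs k (A j) ≤ ENNReal.ofReal (C * ((2 : ℝ) ^ (-ε)) ^ j) := by
    intro j
    set m : ℝ := (2 : ℝ) ^ j with hm
    have hm0 : 0 < m := by positivity
    have h1 := mul_meas_ge_le_lintegral (μ := μs k) (measurable_fullCount k (2 ^ j))
      (ENNReal.ofReal (m ^ ((k : ℝ) + ε)))
    have h2 := mean_fullCount k (2 ^ j) hk
    rw [Nat.cast_pow, Nat.cast_ofNat, ← hm] at h2
    have e1 : ((2 : ℝ) ^ (-ε)) ^ j = m ^ (-ε) := by
      rw [hm, ← Real.rpow_natCast, ← Real.rpow_natCast, ← Real.rpow_mul (by norm_num),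
        ← Real.rpow_mul (by norm_num), mul_comm]
    have h3 : 2 * (5 * m) ^ k = m ^ ((k : ℝ) + ε) * (C * ((2 : ℝ) ^ (-ε)) ^ j) := by
      rw [e1, mul_pow, hC]
      have e2 : m ^ k = m ^ ((k : ℝ) + ε) * m ^ (-ε) := by
        rw [← Real.rpow_add hm0, ← Real.rpow_natCast]
        congr 1
        ring
      rw [e2]
      ring
    rw [h3] at h2
    have h4 := h1.trans h2
    have hpos : 0 < m ^ ((k : ℝ) + ε) := by positivity
    rw [ENNReal.ofReal_mul hpos.le] at h4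
    exact (ENNReal.mul_le_mul_iff_right (ENNReal.ofReal_pos.2 hpos).ne' ENNReal.ofReal_ne_top).1 h4
  have hsum : ∑' j, μs k (A j) ≠ ⊤ := by
    refine ne_top_of_le_ne_top ?_ (ENNReal.tsum_le_tsum hmeas)
    have hr : (2 : ℝ) ^ (-ε) < 1 :=
      Real.rpow_lt_one_of_one_lt_of_neg (by norm_num) (by linarith)
    have hr0 : 0 ≤ (2 : ℝ) ^ (-ε) := by positivity
    have hs1 : Summable fun j : ℕ => C * ((2 : ℝ) ^ (-ε)) ^ j :=
      (summable_geometric_of_lt_one hr0 hr).mul_left C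
    rw [← ENNReal.ofReal_tsum_of_nonneg (fun j => by positivity) hs1]
    exact ENNReal.ofReal_ne_top
  filter_upwards [ae_eventually_notMem hsum] with l hl
  filter_upwards [hl] with j hj
  simpa only [hA, Set.mem_setOf_eq, not_le] using hj

end Pool.Agent.R532.Wa
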