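import Pool.Agent.R532.Wd1

/-!
# Sums of `k` powers with generic real coefficients: mean square of the representation numbers
-/

set_option autoImplicit false

namespace Pool.Agent.R532.Wa

open MeasureTheory Finset Filter Topology

/-- the number of the `x` with positive entries and `⌊∑ l i * x i ^ k⌋ = n` -/
noncomputable def repCount (k : ℕ) (l : Fin k → ℝ) (n : ℕ) : ℕ :=
  {x : Fin k → ℕ | (∀ i, 0 < x i) ∧ ⌊∑ i, l i * (x i : ℝ) ^ k⌋₊ = n}.ncard

lemma sum_sq_le (k P : ℕ) (l : Fin k → ℝ) (hl : ∀ i, 0 ≤ l i) (T : Finset ℕ) :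
    ((∑ n ∈ T, (((YY P k).filter fun x => ⌊∑ i, l i * (x i : ℝ) ^ k⌋₊ = n).card) ^ 2 : ℕ) :
      ENNReal) ≤ fullCount k P l := by
  classical
  set φ : (Fin k → ℕ) → ℕ := fun x => ⌊∑ i, l i * (x i : ℝ) ^ k⌋₊ with hφ
  set g : (Fin k → ℕ) → ENNReal := fun x => ∑ y ∈ YY P k, (closeCoeff k k x y).indicator 1 l with hg
  have hclose : ∀ x y : Fin k → ℕ, φ x = φ y → l ∈ closeCoeff k k x y := by
    intro x y hxy
    have h1 : 0 ≤ VV k k l x := sum_nonneg fun i _ => mul_nonneg (hl i) (by positivity)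
    have h2 : 0 ≤ VV k k l y := sum_nonneg fun i _ => mul_nonneg (hl i) (by positivity)
    have a1 : (⌊VV k k l x⌋₊ : ℝ) ≤ VV k k l x := Nat.floor_le h1
    have a2 : (⌊VV k k l y⌋₊ : ℝ) ≤ VV k k l y := Nat.floor_le h2
    have a3 := Nat.lt_floor_add_one (VV k k l x)
    have a4 := Nat.lt_floor_add_one (VV k k l y)
    have h3 : ⌊VV k k l x⌋₊ = ⌊VV k k l y⌋₊ := hxy
    rw [h3] at a1 a3
    show |VV k k l x - VV k k l y| < 1
    rw [abs_lt]
    constructor <;> linarith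
  have h1 : ∀ n ∈ T, ((((YY P k).filter fun x => φ x = n).card ^ 2 : ℕ) : ENNReal) ≤
      ∑ x ∈ YY P k, if φ x = n then g x else 0 := by
    intro n _
    rw [← sum_filter]
    have e1 : ∀ x ∈ (YY P k).filter (fun x => φ x = n),
        ((((YY P k).filter fun x => φ x = n).card : ℕ) : ENNReal) ≤ g x := by
      intro x hx
      rw [mem_filter] at hx
      rw [hg]
      calc ((((YY P k).filter fun x => φ x = n).card : ℕ) : ENNReal)
          = ∑ _y ∈ (YY P k).filter (fun x => φ x = n), (1 : ENNReal) := by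
            rw [sum_const, nsmul_eq_mul, mul_one]
        _ ≤ ∑ y ∈ (YY P k).filter (fun x => φ x = n), (closeCoeff k k x y).indicator 1 l := by
            refine sum_le_sum fun y hy => ?_
            rw [mem_filter] at hy
            rw [Set.indicator_of_mem (hclose x y (hx.2.trans hy.2.symm))]
            rfl
        _ ≤ _ := sum_le_sum_of_subset_of_nonneg (filter_subset _ _) fun _ _ _ => bot_le
    calc ((((YY P k).filter fun x => φ x = n).card ^ 2 : ℕ) : ENNReal)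
        = ∑ _x ∈ (YY P k).filter (fun x => φ x = n),
            ((((YY P k).filter fun x => φ x = n).card : ℕ) : ENNReal) := by
          rw [sum_const, nsmul_eq_mul]
          push_cast
          ring
      _ ≤ _ := sum_le_sum e1
  push_cast at h1 ⊢
  refine (sum_le_sum h1).trans ?_
  rw [sum_comm]
  unfold fullCount
  refine sum_le_sum fun x _ => ?_
  rw [sum_ite_eq]
  split_ifs
  · exact le_rfl
  · exact bot_le

theorem mean_sq_one (k : ℕ) (hk : 2 ≤ k) {ε : ℝ} (hε : 0 < ε) :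
    ∀ᵐ l ∂(μs k), ∀ᶠ Y : ℝ in atTop,
      ((∑ n ∈ Icc 1 ⌊Y⌋₊, repCount k l n ^ 2 : ℕ) : ℝ) < Y ^ (1 + ε) := by
  classical
  have hk0 : (0 : ℝ) < k := by
    have : 0 < k := by omega
    exact_mod_cast this
  filter_upwards [ae_full k hk (show (0 : ℝ) < k * (ε / 2) by positivity), ae_Icc k] with l hF hl
  obtain ⟨j₀, hj₀⟩ := eventually_atTop.1 hF
  have hk2 : (1 : ℝ) < 2 ^ k := one_lt_pow₀ (by norm_num) (by omega)
  filter_upwards [eventually_ge_atTop 1, eventually_ge_atTop (((2 : ℝ) ^ k) ^ j₀),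
    (tendsto_rpow_atTop (show (0 : ℝ) < ε / 2 by positivity)).eventually
      (eventually_ge_atTop ((2 ^ (k + 1)) ^ (1 + ε / 2)))] with Y hY1 hY2 hY3
  have hY0 : 0 < Y := by linarith
  obtain ⟨j', hj1, hj2⟩ := exists_nat_pow_near (show 1 ≤ Y + 1 by linarith) hk2
  set j : ℕ := j' + 1 with hj
  have hjj : j₀ ≤ j := by
    by_contra hlt
    push Not at hlt
    have h3 : ((2 : ℝ) ^ k) ^ j ≤ ((2 : ℝ) ^ k) ^ j₀ := pow_le_pow_right₀ hk2.le hlt.le
    linarith
  have hpk : ((2 : ℝ) ^ k) ^ j = ((2 : ℝ) ^ j) ^ k := by rw [← pow_mul, ← pow_mul, mul_comm]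
  set m : ℝ := (2 : ℝ) ^ j with hm
  have hm0 : 0 < m := by positivity
  rw [hpk] at hj2
  have hup : m ^ k ≤ 2 ^ (k + 1) * Y := by
    rw [← hpk, hj, pow_succ]
    calc ((2 : ℝ) ^ k) ^ j' * 2 ^ k ≤ (Y + 1) * 2 ^ k :=
          mul_le_mul_of_nonneg_right hj1 (by positivity)
      _ ≤ (2 * Y) * 2 ^ k := mul_le_mul_of_nonneg_right (by linarith) (by positivity)
      _ = _ := by ring
  have hrep : ∀ n ∈ Icc 1 ⌊Y⌋₊, repCount k l n =
      ((YY (2 ^ j) k).filter fun x => ⌊∑ i, l i * (x i : ℝ) ^ k⌋₊ = n).card := by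
    intro n hn
    rw [mem_Icc] at hn
    unfold repCount
    rw [← Set.ncard_coe_finset]
    congr 1
    ext x
    simp only [Set.mem_setOf_eq, coe_filter, YY, Fintype.mem_piFinset, mem_Ioc]
    constructor
    · rintro ⟨hx, hxn⟩
      refine ⟨fun i => ⟨hx i, ?_⟩, hxn⟩
      have h1 : ∑ i, l i * (x i : ℝ) ^ k < n + 1 := by
        have := Nat.lt_floor_add_one (∑ i, l i * (x i : ℝ) ^ k)
        rw [hxn] at this
        exact this
      have h2 : (n : ℝ) ≤ Y := (Nat.le_floor_iff hY0.le).1 hn.2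
      have h3 : l i * (x i : ℝ) ^ k ≤ ∑ i, l i * (x i : ℝ) ^ k :=
        single_le_sum (f := fun i => l i * (x i : ℝ) ^ k)
          (fun i _ => mul_nonneg (by linarith [(hl i).1]) (by positivity)) (mem_univ i)
      have h4 : (x i : ℝ) ^ k ≤ l i * (x i : ℝ) ^ k := by
        have h5 : 0 ≤ (x i : ℝ) ^ k := by positivity
        nlinarith [(hl i).1]
      have h5 : (x i : ℝ) ^ k < m ^ k := by linarith
      have h6 : (x i : ℝ) < m := lt_of_pow_lt_pow_left₀ k hm0.le h5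
      have h7 : (x i : ℝ) ≤ ((2 ^ j : ℕ) : ℝ) := by
        push_cast
        exact h6.le
      exact_mod_cast h7
    · rintro ⟨hx, hxn⟩
      exact ⟨fun i => (hx i).1, hxn⟩
  have h1 := sum_sq_le k (2 ^ j) l (fun i => by linarith [(hl i).1]) (Icc 1 ⌊Y⌋₊)
  have h2 : (∑ n ∈ Icc 1 ⌊Y⌋₊, repCount k l n ^ 2) =
      ∑ n ∈ Icc 1 ⌊Y⌋₊, (((YY (2 ^ j) k).filter fun x =>
        ⌊∑ i, l i * (x i : ℝ) ^ k⌋₊ = n).card) ^ 2 :=
    sum_congr rfl fun n hn => by rw [hrep n hn]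
  rw [← h2] at h1
  have h3 := h1.trans_lt (hj₀ j hjj)
  rw [← ENNReal.ofReal_natCast, ENNReal.ofReal_lt_ofReal_iff (by positivity)] at h3
  refine h3.trans_le ?_
  have h4 : ((2 : ℝ) ^ j) ^ ((k : ℝ) + k * (ε / 2)) = (m ^ k) ^ (1 + ε / 2) := by
    rw [← hm, ← Real.rpow_natCast m k, ← Real.rpow_mul hm0.le]
    congr 1
    ring
  rw [h4]
  calc (m ^ k) ^ (1 + ε / 2) ≤ (2 ^ (k + 1) * Y) ^ (1 + ε / 2) :=
        Real.rpow_le_rpow (by positivity) hup (by positivity)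
    _ = (2 ^ (k + 1)) ^ (1 + ε / 2) * Y ^ (1 + ε / 2) := Real.mul_rpow (by positivity) hY0.le
    _ ≤ Y ^ (ε / 2) * Y ^ (1 + ε / 2) := mul_le_mul_of_nonneg_right hY3 (by positivity)
    _ = Y ^ (1 + ε) := by
        rw [← Real.rpow_add hY0]
        congr 1
        ring

/-- **The mean square of the representation numbers for generic coefficients.** -/
theorem mean_sq (k : ℕ) (hk : 2 ≤ k) :
    ∀ᵐ l ∂((volume : Measure (Fin k → ℝ)).restrict (Set.univ.pi fun _ => Set.Icc (1 : ℝ) 2)),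
      ∀ ε : ℝ, 0 < ε → ∀ᶠ Y : ℝ in atTop,
        ((∑ n ∈ Icc 1 ⌊Y⌋₊, repCount k l n ^ 2 : ℕ) : ℝ) < Y ^ (1 + ε) := by
  rw [volume_cube]
  have h := ae_all_iff.2 fun n : ℕ => mean_sq_one k hk (Nat.one_div_pos_of_nat (n := n) (α := ℝ))
  filter_upwards [h] with l hl ε hε
  obtain ⟨n, hn⟩ := exists_nat_one_div_lt hε
  filter_upwards [hl n, eventually_ge_atTop 1] with Y hY hY1
  exact hY.trans_le (Real.rpow_le_rpow_of_exponent_le hY1 (by linarith))

end Pool.Agent.R532.Wa
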